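import Pool.Agent.H92.Tilt.Pk

/-!
Helper file for module AX: codes of the axioms of packages, their meaning and computability.
-/

set_option autoImplicit false

namespace Pool.Agent.H92.Tilt.AxM

/-! ### Codes -/

def v (n : ℕ) : ℕ := Nat.pair 0 n
def tt : ℕ := Nat.pair 1 0
def z : ℕ := Nat.pair 2 0
def o : ℕ := Nat.pair 3 0
def ng (a : ℕ) : ℕ := Nat.pair 4 a
def ad (a b : ℕ) : ℕ := Nat.pair 5 (Nat.pair a b)
def ml (a b : ℕ) : ℕ := Nat.pair 6 (Nat.pair a b)
def ac (a b : ℕ) : ℕ := Nat.pair 7 (Nat.pair a b)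
def eqf (a b : ℕ) : ℕ := Nat.pair 0 (Nat.pair a b)
def io (a : ℕ) : ℕ := Nat.pair 1 a
def nt (a : ℕ) : ℕ := Nat.pair 2 a
def an (a b : ℕ) : ℕ := Nat.pair 3 (Nat.pair a b)
def alK (n a : ℕ) : ℕ := Nat.pair 4 (Nat.pair n a)
def al (n a : ℕ) : ℕ := Nat.pair 5 (Nat.pair n a)
def ex (n a : ℕ) : ℕ := nt (al n (nt a))
def im (a b : ℕ) : ℕ := nt (an a (nt b))
def orf (a b : ℕ) : ℕ := nt (an (nt a) (nt b))

section Sem

variable (S : Str) (e : ℕ → S.D)

@[simp] theorem ev_v (n : ℕ) : ev S (v n) e = e n := ev_var S e n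
@[simp] theorem ev_tt : ev S tt e = S.t := ev_t S e 0
@[simp] theorem ev_z : ev S z e = S.zero := ev_zero S e 0
@[simp] theorem ev_o : ev S o e = S.one := ev_one S e 0
@[simp] theorem ev_ng (a : ℕ) : ev S (ng a) e = S.neg (ev S a e) := ev_neg S e a
@[simp] theorem ev_ad (a b : ℕ) : ev S (ad a b) e = S.add (ev S a e) (ev S b e) := ev_add S e a b
@[simp] theorem ev_ml (a b : ℕ) : ev S (ml a b) e = S.mul (ev S a e) (ev S b e) := ev_mul S e a b
@[simp] theorem ev_ac (a b : ℕ) : ev S (ac a b) e = S.act (ev S a e) (ev S b e) := ev_act S e a b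
@[simp] theorem sem_eqf (a b : ℕ) : sem S (eqf a b) e ↔ S.eq (ev S a e) (ev S b e) :=
  sem_eq S e a b
@[simp] theorem sem_io (a : ℕ) : sem S (io a) e ↔ S.inO (ev S a e) := sem_inO S e a
@[simp] theorem sem_nt (a : ℕ) : sem S (nt a) e ↔ ¬ sem S a e := sem_neg S e a
@[simp] theorem sem_an (a b : ℕ) : sem S (an a b) e ↔ sem S a e ∧ sem S b e := sem_and S e a b
@[simp] theorem sem_al (n a : ℕ) : sem S (al n a) e ↔ ∀ x : S.D, sem S a (Function.update e n x) :=
  sem_all S e n a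
@[simp] theorem sem_alK (n a : ℕ) : sem S (alK n a) e ↔
    ∀ x : S.D, S.fixd x → sem S a (Function.update e n x) := sem_allK S e n a
@[simp] theorem sem_ex (n a : ℕ) : sem S (ex n a) e ↔ ∃ x : S.D, sem S a (Function.update e n x) := by
  unfold ex
  rw [sem_nt, sem_al]
  push Not
  simp
@[simp] theorem sem_im (a b : ℕ) : sem S (im a b) e ↔ (sem S a e → sem S b e) := by
  unfold im
  rw [sem_nt, sem_an, sem_nt]
  tauto
@[simp] theorem sem_orf (a b : ℕ) : sem S (orf a b) e ↔ (sem S a e ∨ sem S b e) := by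
  unfold orf
  rw [sem_nt, sem_an, sem_nt, sem_nt]
  tauto

end Sem

/-! ### The axioms -/

/-- The code of the numeral `n`. -/
def numeral : ℕ → ℕ
  | 0 => z
  | k + 1 => ad (numeral k) o

/-- Value of the numeral `n`. -/
def nval (S : Str) : ℕ → S.D
  | 0 => S.zero
  | k + 1 => S.add (nval S k) S.one

theorem ev_numeral (S : Str) (e : ℕ → S.D) (n : ℕ) : ev S (numeral n) e = nval S n := by
  induction n with
  | zero => simp [numeral, nval]
  | succ k ih => simp [numeral, nval, ih]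

/-- The finitely many axioms, except the existence of roots. -/
structure IsAx (p : ℕ) (S : Str) : Prop where
  refl : ∀ x, S.eq x x
  symm : ∀ x y, S.eq x y → S.eq y x
  trans : ∀ x y w, S.eq x y → S.eq y w → S.eq x w
  cneg : ∀ x y, S.eq x y → S.eq (S.neg x) (S.neg y)
  cadd : ∀ x y w, S.eq x y → S.eq (S.add x w) (S.add y w)
  cmul : ∀ x y w, S.eq x y → S.eq (S.mul x w) (S.mul y w)
  cinO : ∀ x y, S.eq x y → S.inO x → S.inO y
  cact : ∀ x y w, S.eq x y → S.eq (S.act w x) (S.act w y)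
  addA : ∀ x y w, S.eq (S.add (S.add x y) w) (S.add x (S.add y w))
  addC : ∀ x y, S.eq (S.add x y) (S.add y x)
  add0 : ∀ x, S.eq (S.add x S.zero) x
  addN : ∀ x, S.eq (S.add (S.neg x) x) S.zero
  mulA : ∀ x y w, S.eq (S.mul (S.mul x y) w) (S.mul x (S.mul y w))
  mulC : ∀ x y, S.eq (S.mul x y) (S.mul y x)
  mul1 : ∀ x, S.eq (S.mul x S.one) x
  dist : ∀ x y w, S.eq (S.mul x (S.add y w)) (S.add (S.mul x y) (S.mul x w))
  ne : ¬ S.eq S.zero S.one
  inv : ∀ x, S.eq x S.zero ∨ ∃ y, S.eq (S.mul x y) S.one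
  chr : S.eq (nval S p) S.zero
  oadd : ∀ x y, S.inO x → S.inO y → S.inO (S.add x y)
  omul : ∀ x y, S.inO x → S.inO y → S.inO (S.mul x y)
  oneg : ∀ x, S.inO x → S.inO (S.neg x)
  oone : S.inO S.one
  oinv : ∀ x y, S.eq (S.mul x y) S.one → S.inO x ∨ S.inO y
  t0 : ¬ S.eq S.t S.zero
  tO : S.inO S.t
  tinv : ∀ y, S.eq (S.mul S.t y) S.one → ¬ S.inO y
  aadd : ∀ g x y, S.eq (S.act g (S.add x y)) (S.add (S.act g x) (S.act g y))
  amul : ∀ g x y, S.eq (S.act g (S.mul x y)) (S.mul (S.act g x) (S.act g y))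
  aone : ∀ g, S.eq (S.act g S.one) S.one
  aO : ∀ g x, S.inO x → S.inO (S.act g x)
  acomp : ∀ g h, ∃ k, ∀ x, S.eq (S.act g (S.act h x)) (S.act k x)
  ainv : ∀ g, ∃ k, ∀ x, S.eq (S.act g (S.act k x)) x ∧ S.eq (S.act k (S.act g x)) x
  at_ : ∀ g, S.eq (S.act g S.t) S.t
  P4 : ∀ a, ∃ θ, S.inO θ ∧ ∀ g, (S.eq (S.act g a) a → S.eq (S.act g θ) θ) ∧
    (¬ S.eq (S.act g a) a → ∃ y, S.inO y ∧
      S.eq S.t (S.mul (S.add (S.act g θ) (S.neg θ)) y))

/-- The codes of the finitely many axioms. -/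
def axList (p : ℕ) : List ℕ :=
  [ al 0 (eqf (v 0) (v 0)),
    al 0 (al 1 (im (eqf (v 0) (v 1)) (eqf (v 1) (v 0)))),
    al 0 (al 1 (al 2 (im (eqf (v 0) (v 1)) (im (eqf (v 1) (v 2)) (eqf (v 0) (v 2)))))),
    al 0 (al 1 (im (eqf (v 0) (v 1)) (eqf (ng (v 0)) (ng (v 1))))),
    al 0 (al 1 (al 2 (im (eqf (v 0) (v 1)) (eqf (ad (v 0) (v 2)) (ad (v 1) (v 2)))))),
    al 0 (al 1 (al 2 (im (eqf (v 0) (v 1)) (eqf (ml (v 0) (v 2)) (ml (v 1) (v 2)))))),
    al 0 (al 1 (im (eqf (v 0) (v 1)) (im (io (v 0)) (io (v 1))))),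
    al 0 (al 1 (al 2 (im (eqf (v 0) (v 1)) (eqf (ac (v 2) (v 0)) (ac (v 2) (v 1)))))),
    al 0 (al 1 (al 2 (eqf (ad (ad (v 0) (v 1)) (v 2)) (ad (v 0) (ad (v 1) (v 2)))))),
    al 0 (al 1 (eqf (ad (v 0) (v 1)) (ad (v 1) (v 0)))),
    al 0 (eqf (ad (v 0) z) (v 0)),
    al 0 (eqf (ad (ng (v 0)) (v 0)) z),
    al 0 (al 1 (al 2 (eqf (ml (ml (v 0) (v 1)) (v 2)) (ml (v 0) (ml (v 1) (v 2)))))),
    al 0 (al 1 (eqf (ml (v 0) (v 1)) (ml (v 1) (v 0)))),
    al 0 (eqf (ml (v 0) o) (v 0)),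
    al 0 (al 1 (al 2 (eqf (ml (v 0) (ad (v 1) (v 2))) (ad (ml (v 0) (v 1)) (ml (v 0) (v 2)))))),
    nt (eqf z o),
    al 0 (orf (eqf (v 0) z) (ex 1 (eqf (ml (v 0) (v 1)) o))),
    eqf (numeral p) z,
    al 0 (al 1 (im (io (v 0)) (im (io (v 1)) (io (ad (v 0) (v 1)))))),
    al 0 (al 1 (im (io (v 0)) (im (io (v 1)) (io (ml (v 0) (v 1)))))),
    al 0 (im (io (v 0)) (io (ng (v 0)))),
    io o,
    al 0 (al 1 (im (eqf (ml (v 0) (v 1)) o) (orf (io (v 0)) (io (v 1))))),
    nt (eqf tt z),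
    io tt,
    al 0 (im (eqf (ml tt (v 0)) o) (nt (io (v 0)))),
    al 0 (al 1 (al 2 (eqf (ac (v 0) (ad (v 1) (v 2))) (ad (ac (v 0) (v 1)) (ac (v 0) (v 2)))))),
    al 0 (al 1 (al 2 (eqf (ac (v 0) (ml (v 1) (v 2))) (ml (ac (v 0) (v 1)) (ac (v 0) (v 2)))))),
    al 0 (eqf (ac (v 0) o) o),
    al 0 (al 1 (im (io (v 1)) (io (ac (v 0) (v 1))))),
    al 0 (al 1 (ex 2 (al 3 (eqf (ac (v 0) (ac (v 1) (v 3))) (ac (v 2) (v 3)))))),
    al 0 (ex 1 (al 2 (an (eqf (ac (v 0) (ac (v 1) (v 2))) (v 2))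
      (eqf (ac (v 1) (ac (v 0) (v 2))) (v 2))))),
    al 0 (eqf (ac (v 0) tt) tt),
    al 0 (ex 1 (an (io (v 1)) (al 2 (an
      (im (eqf (ac (v 2) (v 0)) (v 0)) (eqf (ac (v 2) (v 1)) (v 1)))
      (im (nt (eqf (ac (v 2) (v 0)) (v 0)))
        (ex 3 (an (io (v 3)) (eqf tt (ml (ad (ac (v 2) (v 1)) (ng (v 1))) (v 3)))))))))) ]

/-- Conjunction of a list of codes. -/
def conj : List ℕ → ℕ
  | [] => eqf z z
  | a :: l => an a (conj l)

/-- The conjunction of all finitely many axioms. -/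
def axA (p : ℕ) : ℕ := an (al 0 (eqf (v 0) (v 0))) (conj (axList p))

theorem sem_axA (p : ℕ) (S : Str) (e : ℕ → S.D) : sem S (axA p) e ↔ IsAx p S := by
  have u (f : ℕ → S.D) (x : S.D) (n m : ℕ) : Function.update f n x m = if m = n then x else f m :=
    Function.update_apply f n x m
  constructor
  · intro h
    simp only [axA, axList, conj, sem_an, sem_al, sem_ex, sem_im, sem_orf, sem_nt, sem_eqf, sem_io,
      ev_v, ev_tt, ev_z, ev_o, ev_ng, ev_ad, ev_ml, ev_ac, ev_numeral, u] at h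
    norm_num at h
    obtain ⟨h0, h1, h2, h3, h4, h5, h6, h7, h8, h9, h10, h11, h12, h13, h14, h15, h16, h17, h18,
      h19, h20, h21, h22, h23, h24, h25, h26, h27, h28, h29, h30, h31, h32, h33, h34, h35⟩ := h
    exact ⟨h0, h1, h2, h3, h4, h5, h6, h7, h8, h9, h10, h11, h12, h13, h14, h15, h16, h17, h18,
      h19, h20, h21, h22, h23, h24, h25, h26, h27, h28, h29, h30, h31, h32, h33, h34⟩
  · intro h
    simp only [axA, axList, conj, sem_an, sem_al, sem_ex, sem_im, sem_orf, sem_nt, sem_eqf, sem_io,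
      ev_v, ev_tt, ev_z, ev_o, ev_ng, ev_ad, ev_ml, ev_ac, ev_numeral, u]
    norm_num
    exact ⟨h.1, h.2, h.3, h.4, h.5, h.6, h.7, h.8, h.9, h.10, h.11, h.12, h.13, h.14, h.15, h.16,
      h.17, h.18, h.19, h.20, h.21, h.22, h.23, h.24, h.25, h.26, h.27, h.28, h.29, h.30, h.31,
      h.32, h.33, h.34, h.35, h.1 _⟩

/-! ### Existence of roots -/

/-- Horner term of the general monic polynomial of degree `k` in the variable `0`, with
coefficients the variables `1, .., k`. -/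
def hor : ℕ → ℕ
  | 0 => o
  | k + 1 => ad (ml (hor k) (v 0)) (v (k + 1))

/-- Quantification over the variables `1, .., k`. -/
def close (φ : ℕ) : ℕ → ℕ
  | 0 => φ
  | k + 1 => al (k + 1) (close φ k)

/-- Every monic polynomial of degree `n + 1` has a root. -/
def rootAx (n : ℕ) : ℕ := close (ex 0 (eqf (hor (n + 1)) z)) (n + 1)

theorem sem_close (S : Str) (φ k : ℕ) : ∀ e : ℕ → S.D, sem S (close φ k) e ↔
    ∀ f : ℕ → S.D, (∀ n, n = 0 ∨ k < n → f n = e n) → sem S φ f := by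
  induction k with
  | zero =>
    intro e
    constructor
    · intro h f hf
      have : f = e := by
        funext n
        rcases Nat.eq_zero_or_pos n with h0 | h0
        · exact hf n (Or.inl h0)
        · exact hf n (Or.inr h0)
      rw [this]
      exact h
    · intro h
      exact h e (fun _ _ => rfl)
  | succ k ih =>
    intro e
    rw [close, sem_al]
    constructor
    · intro h f hf
      refine (ih (Function.update e (k + 1) (f (k + 1)))).1 (h (f (k + 1))) f ?_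
      intro n hn
      rcases eq_or_ne n (k + 1) with h1 | h1
      · rw [h1, Function.update_self]
      · rw [Function.update_of_ne h1]
        apply hf
        omega
    · intro h x
      refine (ih _).2 fun f hf => h f ?_
      intro n hn
      rw [hf n (by omega), Function.update_of_ne (by omega)]

/-- Value of the Horner term in a field. -/
def horR {F : Type*} [Field F] (x : F) (a : ℕ → F) : ℕ → F
  | 0 => 1
  | k + 1 => horR x a k * x + a (k + 1)

open Polynomial in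
theorem exists_horR {F : Type*} [Field F] [IsAlgClosed F] (a : ℕ → F) (n : ℕ) :
    ∃ x, horR x a (n + 1) = 0 := by
  have key : ∀ k : ℕ, ∃ P : F[X], P.Monic ∧ P.natDegree = k ∧ ∀ x, P.eval x = horR x a k := by
    intro k
    induction k with
    | zero => exact ⟨1, monic_one, natDegree_one, fun x => by simp [horR]⟩
    | succ k ih =>
      obtain ⟨P, h1, h2, h3⟩ := ih
      have h4 : (P * X).Monic := h1.mul monic_X
      have h5 : (P * X).natDegree = k + 1 := by
        rw [h1.natDegree_mul monic_X, h2, natDegree_X]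
      have h6 : (C (a (k + 1))).degree < (P * X).degree := by
        rw [degree_eq_natDegree h4.ne_zero, h5]
        refine lt_of_le_of_lt degree_C_le ?_
        exact_mod_cast Nat.succ_pos k
      refine ⟨P * X + C (a (k + 1)), h4.add_of_left h6, ?_, ?_⟩
      · rw [natDegree_add_eq_left_of_degree_lt h6, h5]
      · intro x
        rw [eval_add, eval_mul, eval_X, eval_C, h3, horR]
  obtain ⟨P, h1, h2, h3⟩ := key (n + 1)
  obtain ⟨x, hx⟩ := IsAlgClosed.exists_root P (by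
    rw [degree_eq_natDegree h1.ne_zero, h2]
    exact_mod_cast Nat.succ_ne_zero n)
  exact ⟨x, by rw [← h3]; exact hx⟩

open Polynomial in
theorem eval_eq_horR {F : Type*} [Field F] (P : F[X]) (hP : P.Monic) (x : F) :
    horR x (fun k => P.coeff (P.natDegree - k)) P.natDegree = P.eval x := by
  have key : ∀ k ≤ P.natDegree, horR x (fun k => P.coeff (P.natDegree - k)) k =
      ∑ i ∈ Finset.range (k + 1), P.coeff (P.natDegree - k + i) * x ^ i := by
    intro k
    induction k with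
    | zero =>
      intro _
      simp [horR, hP.coeff_natDegree]
    | succ k ih =>
      intro hk
      rw [horR, ih (by omega), Finset.sum_range_succ' _ (k + 1), Finset.sum_mul]
      simp only [pow_zero, mul_one, add_zero]
      congr 1
      refine Finset.sum_congr rfl fun i _ => ?_
      have : P.natDegree - (k + 1) + (i + 1) = P.natDegree - k + i := by omega
      rw [this]
      ring
  rw [key _ le_rfl, eval_eq_sum_range]
  simp

/-! ### Computability -/

theorem pr_pair (k : ℕ) : Primrec fun a : ℕ => Nat.pair k a :=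
  Primrec₂.natPair.comp (Primrec.const k) Primrec.id

theorem pr_pair2 (k : ℕ) : Primrec₂ fun a b : ℕ => Nat.pair k (Nat.pair a b) :=
  (pr_pair k).comp₂ Primrec₂.natPair

theorem pr_v : Primrec v := pr_pair 0
theorem pr_nt : Primrec nt := pr_pair 2
theorem pr_ad : Primrec₂ ad := pr_pair2 5
theorem pr_ml : Primrec₂ ml := pr_pair2 6
theorem pr_eqf : Primrec₂ eqf := pr_pair2 0
theorem pr_an : Primrec₂ an := pr_pair2 3
theorem pr_al : Primrec₂ al := pr_pair2 5
theorem pr_alK : Primrec₂ alK := pr_pair2 4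

theorem pr_im : Primrec₂ im := by
  have : Primrec₂ fun a b => nt (an a (nt b)) :=
    pr_nt.comp₂ (pr_an.comp₂ Primrec₂.left (pr_nt.comp₂ Primrec₂.right))
  exact this

theorem pr_ex (n : ℕ) : Primrec (ex n) := by
  have : Primrec fun a => nt (al n (nt a)) := pr_nt.comp (pr_al.comp (Primrec.const n) pr_nt)
  exact this

theorem pr_hor : Primrec hor := by
  have h : Primrec₂ fun (k IH : ℕ) => ad (ml IH (v 0)) (v (k + 1)) :=
    pr_ad.comp₂ (pr_ml.comp₂ Primrec₂.right (Primrec₂.const (v 0)))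
      (pr_v.comp₂ (Primrec.succ.comp₂ Primrec₂.left))
  refine (Primrec.nat_rec₁ o h).of_eq fun k => ?_
  induction k with
  | zero => rfl
  | succ k ih =>
    change ad (ml (Nat.rec o (fun k IH => ad (ml IH (v 0)) (v (k + 1))) k) (v 0)) (v (k + 1)) = _
    rw [ih]
    rfl

theorem pr_close : Primrec₂ close := by
  have h : Primrec₂ fun (_ : ℕ) (q : ℕ × ℕ) => al (q.1 + 1) q.2 :=
    pr_al.comp₂ (Primrec.succ.comp₂ (Primrec.fst.comp₂ Primrec₂.right))
      (Primrec.snd.comp₂ Primrec₂.right)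
  refine (Primrec.nat_rec Primrec.id h).of_eq ?_
  intro φ k
  induction k with
  | zero => rfl
  | succ k ih => exact congrArg (al (k + 1)) ih

theorem pr_rootAx : Primrec rootAx := by
  have h1 : Primrec fun n : ℕ => n + 1 := Primrec.succ
  exact pr_close.comp ((pr_ex 0).comp (pr_eqf.comp (pr_hor.comp h1) (Primrec.const z))) h1

/-- The enumeration of the axioms. -/
def axs (p : ℕ) (n : ℕ) : ℕ := an (axA p) (rootAx n)

theorem pr_axs (p : ℕ) : Primrec (axs p) := pr_an.comp (Primrec.const _) pr_rootAx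

/-- Power of the variable `1`. -/
def pw : ℕ → ℕ
  | 0 => o
  | k + 1 => ml (pw k) (v 1)

theorem pr_pw : Primrec pw := by
  have h : Primrec₂ fun (_ IH : ℕ) => ml IH (v 1) :=
    pr_ml.comp₂ Primrec₂.right (Primrec₂.const (v 1))
  refine (Primrec.nat_rec₁ o h).of_eq fun k => ?_
  induction k with
  | zero => rfl
  | succ k ih => exact congrArg (fun c => ml c (v 1)) ih

theorem pr_npow (p : ℕ) : Primrec fun N : ℕ => p ^ N := by
  have h : Primrec₂ fun (_ IH : ℕ) => IH * p :=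
    Primrec.nat_mul.comp₂ Primrec₂.right (Primrec₂.const p)
  refine (Primrec.nat_rec₁ 1 h).of_eq fun k => ?_
  induction k with
  | zero => rfl
  | succ k ih =>
    rw [pow_succ]
    exact congrArg (fun c => c * p) ih

end Pool.Agent.H92.Tilt.AxM
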