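import Pool.Agent.H92.Tilt.Pk

/-!
Module T2: the translation of raw ring formulas about `O_K / d` into formulas of the language of valued
rings about `K`, as a primitive recursive function of codes.

Variable `0` is reserved for `d⁻¹`, the variable `n` goes to `n + 1`. Terms: tags `0, 3, 4, 5, 6` as in
`rev`, everything else to `zero`. Formulas: `a = b` goes to `inO (x_0 (a' - b'))`; negation,
conjunction; `all n φ` goes to `all (n+1) (¬ (x_{n+1} ∈ O ∧ ¬ φ'))`; everything else to `0 = 0`.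
`T2` is defined on natural numbers by strong recursion; primitive recursive by
`Primrec.nat_strong_rec` (first for terms).
-/

set_option autoImplicit false

namespace Pool.Agent.H92.Tilt

/-- Translation of raw terms (variable `n` goes to `n + 1`). -/
def T2t (c : ℕ) : ℕ :=
  match _h : c.unpair with
  | (0, n) => Nat.pair 0 (n + 1)
  | (3, _) => Nat.pair 3 0
  | (4, a) => Nat.pair 4 (T2t a)
  | (5, m) => Nat.pair 5 (Nat.pair (T2t m.unpair.1) (T2t m.unpair.2))
  | (6, m) => Nat.pair 6 (Nat.pair (T2t m.unpair.1) (T2t m.unpair.2))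
  | _ => Nat.pair 2 0
termination_by c
decreasing_by
  · exact unpair_lt _h (by norm_num)
  · exact unpair_lt1 _h (by norm_num)
  · exact unpair_lt2 _h (by norm_num)
  · exact unpair_lt1 _h (by norm_num)
  · exact unpair_lt2 _h (by norm_num)

/-- Translation of raw formulas. -/
def T2 (c : ℕ) : ℕ :=
  match _h : c.unpair with
  | (0, m) => Nat.pair 1 (Nat.pair 6 (Nat.pair (Nat.pair 0 0)
      (Nat.pair 5 (Nat.pair (T2t m.unpair.1) (Nat.pair 4 (T2t m.unpair.2))))))
  | (2, a) => Nat.pair 2 (T2 a)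
  | (3, m) => Nat.pair 3 (Nat.pair (T2 m.unpair.1) (T2 m.unpair.2))
  | (4, m) => Nat.pair 4 (Nat.pair (m.unpair.1 + 1) (Nat.pair 2 (Nat.pair 3
      (Nat.pair (Nat.pair 1 (Nat.pair 0 (m.unpair.1 + 1))) (Nat.pair 2 (T2 m.unpair.2))))))
  | _ => Nat.pair 0 (Nat.pair (Nat.pair 2 0) (Nat.pair 2 0))
termination_by c
decreasing_by
  · exact unpair_lt _h (by norm_num)
  · exact unpair_lt1 _h (by norm_num)
  · exact unpair_lt2 _h (by norm_num)
  · exact unpair_lt2 _h (by norm_num)

/-! ### Primitive recursion over codes -/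

/-- A function on codes that is determined by a primitive recursive rule from its values at the
components of the code is primitive recursive. -/
theorem primrec_of_rec (f : ℕ → ℕ) (G : ℕ × ℕ × ℕ × ℕ → ℕ) (hG : Primrec G)
    (H : ∀ c, f c = G (c, (if c.unpair.2 < c then f c.unpair.2 else 0),
      (if c.unpair.2.unpair.1 < c then f c.unpair.2.unpair.1 else 0),
      (if c.unpair.2.unpair.2 < c then f c.unpair.2.unpair.2 else 0))) : Primrec f := by
  have key : ∀ n x : ℕ, ((List.range n).map f).getD x 0 = if x < n then f x else 0 := by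
    intro n x
    by_cases h : x < n
    · simp [h, List.getD]
    · simp [h, List.getD]
  have h2 : Primrec₂ (fun (_ : Unit) (l : List ℕ) => (some (G (l.length,
      l.getD l.length.unpair.2 0, l.getD l.length.unpair.2.unpair.1 0,
      l.getD l.length.unpair.2.unpair.2 0)) : Option ℕ)) := by
    have hl : Primrec (fun a : Unit × List ℕ => a.2.length) := Primrec.list_length.comp Primrec.snd
    have hu : Primrec (fun a : Unit × List ℕ => a.2.length.unpair.2) :=
      Primrec.snd.comp (Primrec.unpair.comp hl)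
    have hget : ∀ g : Unit × List ℕ → ℕ, Primrec g →
        Primrec (fun a : Unit × List ℕ => a.2.getD (g a) 0) := by
      intro g hg
      exact (Primrec.list_getD 0).comp Primrec.snd hg
    refine Primrec.option_some.comp (hG.comp ?_)
    refine Primrec.pair hl (Primrec.pair (hget _ hu) (Primrec.pair (hget _ ?_) (hget _ ?_)))
    · exact Primrec.fst.comp (Primrec.unpair.comp hu)
    · exact Primrec.snd.comp (Primrec.unpair.comp hu)
  have h3 : Primrec₂ (fun (_ : Unit) (n : ℕ) => f n) := by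
    refine Primrec.nat_strong_rec _ h2 ?_
    intro _ n
    simp only [List.length_map, List.length_range, key]
    rw [H n]
  exact h3.comp (Primrec.const ()) Primrec.id

section Helpers

variable {α : Type*} [Primcodable α]

theorem prim_pair {f g : α → ℕ} (hf : Primrec f) (hg : Primrec g) :
    Primrec (fun a => Nat.pair (f a) (g a)) := Primrec₂.natPair.comp hf hg

theorem prim_pairc {g : α → ℕ} (k : ℕ) (hg : Primrec g) :
    Primrec (fun a => Nat.pair k (g a)) := prim_pair (Primrec.const k) hg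

theorem prim_u1 {g : α → ℕ} (hg : Primrec g) : Primrec (fun a => (g a).unpair.1) :=
  Primrec.fst.comp (Primrec.unpair.comp hg)

theorem prim_u2 {g : α → ℕ} (hg : Primrec g) : Primrec (fun a => (g a).unpair.2) :=
  Primrec.snd.comp (Primrec.unpair.comp hg)

theorem prim_ite_eq {g f1 f2 : α → ℕ} (k : ℕ) (hg : Primrec g) (h1 : Primrec f1)
    (h2 : Primrec f2) : Primrec (fun a => if g a = k then f1 a else f2 a) :=
  Primrec.ite (Primrec.eq.comp hg (Primrec.const k)) h1 h2

end Helpers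

theorem T2t_eq (c : ℕ) : T2t c =
    if c.unpair.1 = 0 then Nat.pair 0 (c.unpair.2 + 1)
    else if c.unpair.1 = 3 then Nat.pair 3 0
    else if c.unpair.1 = 4 then Nat.pair 4 (T2t c.unpair.2)
    else if c.unpair.1 = 5 then
      Nat.pair 5 (Nat.pair (T2t c.unpair.2.unpair.1) (T2t c.unpair.2.unpair.2))
    else if c.unpair.1 = 6 then
      Nat.pair 6 (Nat.pair (T2t c.unpair.2.unpair.1) (T2t c.unpair.2.unpair.2))
    else Nat.pair 2 0 := by
  rw [T2t]
  split
  · next n h => simp [h]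
  · next n h => simp [h]
  · next n h => simp [h]
  · next n h => simp [h]
  · next n h => simp [h]
  · next h0 h3 h4 h5 h6 =>
    have g0 : c.unpair.1 ≠ 0 := fun e => h0 c.unpair.2 (Prod.ext e rfl)
    have g3 : c.unpair.1 ≠ 3 := fun e => h3 c.unpair.2 (Prod.ext e rfl)
    have g4 : c.unpair.1 ≠ 4 := fun e => h4 c.unpair.2 (Prod.ext e rfl)
    have g5 : c.unpair.1 ≠ 5 := fun e => h5 c.unpair.2 (Prod.ext e rfl)
    have g6 : c.unpair.1 ≠ 6 := fun e => h6 c.unpair.2 (Prod.ext e rfl)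
    rw [if_neg g0, if_neg g3, if_neg g4, if_neg g5, if_neg g6]

theorem T2_eq (c : ℕ) : T2 c =
    if c.unpair.1 = 0 then
      Nat.pair 1 (Nat.pair 6 (Nat.pair (Nat.pair 0 0)
        (Nat.pair 5 (Nat.pair (T2t c.unpair.2.unpair.1) (Nat.pair 4 (T2t c.unpair.2.unpair.2))))))
    else if c.unpair.1 = 2 then Nat.pair 2 (T2 c.unpair.2)
    else if c.unpair.1 = 3 then
      Nat.pair 3 (Nat.pair (T2 c.unpair.2.unpair.1) (T2 c.unpair.2.unpair.2))
    else if c.unpair.1 = 4 then
      Nat.pair 4 (Nat.pair (c.unpair.2.unpair.1 + 1) (Nat.pair 2 (Nat.pair 3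
        (Nat.pair (Nat.pair 1 (Nat.pair 0 (c.unpair.2.unpair.1 + 1)))
          (Nat.pair 2 (T2 c.unpair.2.unpair.2))))))
    else Nat.pair 0 (Nat.pair (Nat.pair 2 0) (Nat.pair 2 0)) := by
  rw [T2]
  split
  · next n h => simp [h]
  · next n h => simp [h]
  · next n h => simp [h]
  · next n h => simp [h]
  · next h0 h3 h4 h5 =>
    have g0 : c.unpair.1 ≠ 0 := fun e => h0 c.unpair.2 (Prod.ext e rfl)
    have g3 : c.unpair.1 ≠ 2 := fun e => h3 c.unpair.2 (Prod.ext e rfl)
    have g4 : c.unpair.1 ≠ 3 := fun e => h4 c.unpair.2 (Prod.ext e rfl)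
    have g5 : c.unpair.1 ≠ 4 := fun e => h5 c.unpair.2 (Prod.ext e rfl)
    rw [if_neg g0, if_neg g3, if_neg g4, if_neg g5]

theorem unpair2_lt {c k : ℕ} (h : c.unpair.1 = k) (hk : 0 < k) : c.unpair.2 < c :=
  unpair_lt (Prod.ext h rfl) hk

theorem unpair21_lt {c k : ℕ} (h : c.unpair.1 = k) (hk : 0 < k) : c.unpair.2.unpair.1 < c :=
  lt_of_le_of_lt (Nat.unpair_left_le _) (unpair2_lt h hk)

theorem unpair22_lt {c k : ℕ} (h : c.unpair.1 = k) (hk : 0 < k) : c.unpair.2.unpair.2 < c :=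
  lt_of_le_of_lt (Nat.unpair_right_le _) (unpair2_lt h hk)

theorem T2t_primrec : Primrec T2t := by
  refine primrec_of_rec T2t (fun q => if q.1.unpair.1 = 0 then Nat.pair 0 (q.1.unpair.2 + 1)
    else if q.1.unpair.1 = 3 then Nat.pair 3 0
    else if q.1.unpair.1 = 4 then Nat.pair 4 q.2.1
    else if q.1.unpair.1 = 5 then Nat.pair 5 (Nat.pair q.2.2.1 q.2.2.2)
    else if q.1.unpair.1 = 6 then Nat.pair 6 (Nat.pair q.2.2.1 q.2.2.2)
    else Nat.pair 2 0) ?_ ?_
  · have c1 : Primrec (fun q : ℕ × ℕ × ℕ × ℕ => q.1) := Primrec.fst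
    have x1 : Primrec (fun q : ℕ × ℕ × ℕ × ℕ => q.2.1) := Primrec.fst.comp Primrec.snd
    have y1 : Primrec (fun q : ℕ × ℕ × ℕ × ℕ => q.2.2.1) :=
      Primrec.fst.comp (Primrec.snd.comp Primrec.snd)
    have z1 : Primrec (fun q : ℕ × ℕ × ℕ × ℕ => q.2.2.2) :=
      Primrec.snd.comp (Primrec.snd.comp Primrec.snd)
    refine prim_ite_eq _ (prim_u1 c1) (prim_pairc _ (Primrec.succ.comp (prim_u2 c1))) ?_
    refine prim_ite_eq _ (prim_u1 c1) (Primrec.const _) ?_
    refine prim_ite_eq _ (prim_u1 c1) (prim_pairc _ x1) ?_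
    refine prim_ite_eq _ (prim_u1 c1) (prim_pairc _ (prim_pair y1 z1)) ?_
    refine prim_ite_eq _ (prim_u1 c1) (prim_pairc _ (prim_pair y1 z1)) (Primrec.const _)
  · intro c
    rw [T2t_eq]
    by_cases g0 : c.unpair.1 = 0
    · simp only [if_pos g0]
    by_cases g3 : c.unpair.1 = 3
    · simp only [if_neg g0, if_pos g3]
    by_cases g4 : c.unpair.1 = 4
    · simp only [if_neg g0, if_neg g3, if_pos g4, if_pos (unpair2_lt g4 (by norm_num))]
    by_cases g5 : c.unpair.1 = 5
    · simp only [if_neg g0, if_neg g3, if_neg g4, if_pos g5, if_pos (unpair21_lt g5 (by norm_num)),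
        if_pos (unpair22_lt g5 (by norm_num))]
    by_cases g6 : c.unpair.1 = 6
    · simp only [if_neg g0, if_neg g3, if_neg g4, if_neg g5, if_pos g6,
        if_pos (unpair21_lt g6 (by norm_num)), if_pos (unpair22_lt g6 (by norm_num))]
    simp only [if_neg g0, if_neg g3, if_neg g4, if_neg g5, if_neg g6]

theorem T2_primrec : Primrec T2 := by
  refine primrec_of_rec T2 (fun q => if q.1.unpair.1 = 0 then
      Nat.pair 1 (Nat.pair 6 (Nat.pair (Nat.pair 0 0)
        (Nat.pair 5 (Nat.pair (T2t q.1.unpair.2.unpair.1)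
          (Nat.pair 4 (T2t q.1.unpair.2.unpair.2))))))
    else if q.1.unpair.1 = 2 then Nat.pair 2 q.2.1
    else if q.1.unpair.1 = 3 then Nat.pair 3 (Nat.pair q.2.2.1 q.2.2.2)
    else if q.1.unpair.1 = 4 then
      Nat.pair 4 (Nat.pair (q.1.unpair.2.unpair.1 + 1) (Nat.pair 2 (Nat.pair 3
        (Nat.pair (Nat.pair 1 (Nat.pair 0 (q.1.unpair.2.unpair.1 + 1)))
          (Nat.pair 2 q.2.2.2)))))
    else Nat.pair 0 (Nat.pair (Nat.pair 2 0) (Nat.pair 2 0))) ?_ ?_
  · have c1 : Primrec (fun q : ℕ × ℕ × ℕ × ℕ => q.1) := Primrec.fst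
    have x1 : Primrec (fun q : ℕ × ℕ × ℕ × ℕ => q.2.1) := Primrec.fst.comp Primrec.snd
    have y1 : Primrec (fun q : ℕ × ℕ × ℕ × ℕ => q.2.2.1) :=
      Primrec.fst.comp (Primrec.snd.comp Primrec.snd)
    have z1 : Primrec (fun q : ℕ × ℕ × ℕ × ℕ => q.2.2.2) :=
      Primrec.snd.comp (Primrec.snd.comp Primrec.snd)
    have b1 := prim_u1 (prim_u2 c1)
    have b2 := prim_u2 (prim_u2 c1)
    refine prim_ite_eq _ (prim_u1 c1) (prim_pairc _ (prim_pairc _ (prim_pairc _ (prim_pairc _
      (prim_pair (T2t_primrec.comp b1) (prim_pairc _ (T2t_primrec.comp b2))))))) ?_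
    refine prim_ite_eq _ (prim_u1 c1) (prim_pairc _ x1) ?_
    refine prim_ite_eq _ (prim_u1 c1) (prim_pairc _ (prim_pair y1 z1)) ?_
    refine prim_ite_eq _ (prim_u1 c1) (prim_pairc _ (prim_pair (Primrec.succ.comp b1)
      (prim_pairc _ (prim_pairc _ (prim_pair (prim_pairc _ (prim_pairc _ (Primrec.succ.comp b1)))
        (prim_pairc _ z1)))))) (Primrec.const _)
  · intro c
    rw [T2_eq]
    by_cases g0 : c.unpair.1 = 0
    · simp only [if_pos g0]
    by_cases g3 : c.unpair.1 = 2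
    · simp only [if_neg g0, if_pos g3, if_pos (unpair2_lt g3 (by norm_num))]
    by_cases g4 : c.unpair.1 = 3
    · simp only [if_neg g0, if_neg g3, if_pos g4, if_pos (unpair21_lt g4 (by norm_num)),
        if_pos (unpair22_lt g4 (by norm_num))]
    by_cases g5 : c.unpair.1 = 4
    · simp only [if_neg g0, if_neg g3, if_neg g4, if_pos g5,
        if_pos (unpair22_lt g5 (by norm_num))]
    simp only [if_neg g0, if_neg g3, if_neg g4, if_neg g5]

/-- The translation of a raw term is the code of a term. -/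
theorem T2t_form (k c : ℕ) : ∃ a : Tm k, a.code = T2t c := by
  induction c using Nat.strong_induction_on with
  | _ c ih =>
    rw [T2t_eq]
    split_ifs with g0 g3 g4 g5 g6
    · exact ⟨.var (c.unpair.2 + 1), rfl⟩
    · exact ⟨.one, rfl⟩
    · obtain ⟨a, ha⟩ := ih _ (unpair2_lt g4 (by norm_num))
      exact ⟨.neg a, by rw [Tm.code, ha]⟩
    · obtain ⟨a, ha⟩ := ih _ (unpair21_lt g5 (by norm_num))
      obtain ⟨b, hb⟩ := ih _ (unpair22_lt g5 (by norm_num))
      exact ⟨.add a b, by rw [Tm.code, ha, hb]⟩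
    · obtain ⟨a, ha⟩ := ih _ (unpair21_lt g6 (by norm_num))
      obtain ⟨b, hb⟩ := ih _ (unpair22_lt g6 (by norm_num))
      exact ⟨.mul a b, by rw [Tm.code, ha, hb]⟩
    · exact ⟨.zero, rfl⟩

/-- The value is always the code of a formula. -/
theorem T2_form (k c : ℕ) : ∃ φ : Fm k, φ.code = T2 c := by
  induction c using Nat.strong_induction_on with
  | _ c ih =>
    rw [T2_eq]
    split_ifs with g0 g3 g4 g5
    · obtain ⟨a, ha⟩ := T2t_form k c.unpair.2.unpair.1
      obtain ⟨b, hb⟩ := T2t_form k c.unpair.2.unpair.2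
      exact ⟨.inO (.mul (.var 0) (.add a (.neg b))), by
        simp only [Fm.code, Tm.code, ha, hb]⟩
    · obtain ⟨a, ha⟩ := ih _ (unpair2_lt g3 (by norm_num))
      exact ⟨.neg a, by rw [Fm.code, ha]⟩
    · obtain ⟨a, ha⟩ := ih _ (unpair21_lt g4 (by norm_num))
      obtain ⟨b, hb⟩ := ih _ (unpair22_lt g4 (by norm_num))
      exact ⟨.and a b, by rw [Fm.code, ha, hb]⟩
    · obtain ⟨b, hb⟩ := ih _ (unpair22_lt g5 (by norm_num))
      exact ⟨.all (c.unpair.2.unpair.1 + 1) (.neg (.and (.inO (.var (c.unpair.2.unpair.1 + 1)))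
        (.neg b))), by simp only [Fm.code, Tm.code, hb]⟩
    · exact ⟨.eq .zero .zero, rfl⟩

theorem tm_code_inj {k : ℕ} {a b : Tm k} (h : a.code = b.code) : a = b := by
  induction a generalizing b with
  | var n => cases b <;> simp_all [Tm.code, Nat.pair_eq_pair]
  | cst i => cases b <;> simp_all [Tm.code, Nat.pair_eq_pair, Fin.ext_iff]
  | zero => cases b <;> simp_all [Tm.code, Nat.pair_eq_pair]
  | one => cases b <;> simp_all [Tm.code, Nat.pair_eq_pair]
  | neg a ih =>
    cases b <;> simp_all [Tm.code, Nat.pair_eq_pair]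
    exact ih rfl
  | add a1 a2 ih1 ih2 =>
    cases b <;> simp_all [Tm.code, Nat.pair_eq_pair]
    exact ⟨ih1 rfl, ih2 rfl⟩
  | mul a1 a2 ih1 ih2 =>
    cases b <;> simp_all [Tm.code, Nat.pair_eq_pair]
    exact ⟨ih1 rfl, ih2 rfl⟩

/-- The code of a formula determines it. -/
theorem code_inj {k : ℕ} {φ ψ : Fm k} (h : φ.code = ψ.code) : φ = ψ := by
  induction φ generalizing ψ with
  | eq a b =>
    cases ψ <;> simp_all [Fm.code, Nat.pair_eq_pair]
    exact ⟨tm_code_inj h.1, tm_code_inj h.2⟩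
  | inO a =>
    cases ψ <;> simp_all [Fm.code, Nat.pair_eq_pair]
    exact tm_code_inj h
  | neg a ih =>
    cases ψ <;> simp_all [Fm.code, Nat.pair_eq_pair]
    exact ih rfl
  | and a1 a2 ih1 ih2 =>
    cases ψ <;> simp_all [Fm.code, Nat.pair_eq_pair]
    exact ⟨ih1 rfl, ih2 rfl⟩
  | all n a ih =>
    cases ψ <;> simp_all [Fm.code, Nat.pair_eq_pair]
    exact ih rfl


section Sem

variable {k : ℕ} {R Q : Type*} [CommRing R] [CommRing Q] (D O : Subring R) (c0 : Fin k → R)
    (cl : R → Q)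

theorem cl_zero (hadd : ∀ x ∈ D ⊓ O, ∀ y ∈ D ⊓ O, cl (x + y) = cl x + cl y) : cl 0 = 0 := by
  have := hadd 0 (D ⊓ O).zero_mem 0 (D ⊓ O).zero_mem
  rw [add_zero] at this
  exact left_eq_add.1 this

theorem cl_neg (hadd : ∀ x ∈ D ⊓ O, ∀ y ∈ D ⊓ O, cl (x + y) = cl x + cl y) {x : R}
    (hx : x ∈ D ⊓ O) : cl (-x) = - cl x := by
  have h1 := hadd x hx (-x) ((D ⊓ O).neg_mem hx)
  rw [add_neg_cancel, cl_zero D O cl hadd] at h1
  exact eq_neg_of_add_eq_zero_right h1.symm

theorem T2t_sem (hone : cl 1 = 1)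
    (hadd : ∀ x ∈ D ⊓ O, ∀ y ∈ D ⊓ O, cl (x + y) = cl x + cl y)
    (hmul : ∀ x ∈ D ⊓ O, ∀ y ∈ D ⊓ O, cl (x * y) = cl x * cl y)
    (c : ℕ) (a : Tm k) (ha : a.code = T2t c) (e : ℕ → R)
    (he : ∀ n, e (n + 1) ∈ D ⊓ O) :
    a.val c0 e ∈ D ⊓ O ∧ cl (a.val c0 e) = rev c (fun n => cl (e (n + 1))) := by
  induction c using Nat.strong_induction_on generalizing a with
  | _ c ih =>
    have hc : Nat.pair c.unpair.1 c.unpair.2 = c := Nat.pair_unpair c
    rw [T2t_eq] at ha
    split_ifs at ha with g0 g3 g4 g5 g6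
    · have : a = .var (c.unpair.2 + 1) := tm_code_inj (by rw [ha]; rfl)
      subst this
      refine ⟨he _, ?_⟩
      rw [← hc, g0, rev_var]
      simp [Tm.val]
    · have : a = .one := tm_code_inj (by rw [ha]; rfl)
      subst this
      refine ⟨(D ⊓ O).one_mem, ?_⟩
      rw [← hc, g3, rev_one]
      simp [Tm.val, hone]
    · obtain ⟨b, hb⟩ := T2t_form k c.unpair.2
      have : a = .neg b := tm_code_inj (by rw [ha, Tm.code, hb])
      subst this
      obtain ⟨h1, h2⟩ := ih _ (unpair2_lt g4 (by norm_num)) b hb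
      refine ⟨(D ⊓ O).neg_mem h1, ?_⟩
      rw [← hc, g4, rev_neg, ← h2]
      exact cl_neg D O cl hadd h1
    · obtain ⟨b, hb⟩ := T2t_form k c.unpair.2.unpair.1
      obtain ⟨b', hb'⟩ := T2t_form k c.unpair.2.unpair.2
      have : a = .add b b' := tm_code_inj (by rw [ha, Tm.code, hb, hb'])
      subst this
      obtain ⟨h1, h2⟩ := ih _ (unpair21_lt g5 (by norm_num)) b hb
      obtain ⟨h3, h4⟩ := ih _ (unpair22_lt g5 (by norm_num)) b' hb'
      refine ⟨(D ⊓ O).add_mem h1 h3, ?_⟩
      rw [← hc, g5, rev_add', ← h2, ← h4]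
      exact hadd _ h1 _ h3
    · obtain ⟨b, hb⟩ := T2t_form k c.unpair.2.unpair.1
      obtain ⟨b', hb'⟩ := T2t_form k c.unpair.2.unpair.2
      have : a = .mul b b' := tm_code_inj (by rw [ha, Tm.code, hb, hb'])
      subst this
      obtain ⟨h1, h2⟩ := ih _ (unpair21_lt g6 (by norm_num)) b hb
      obtain ⟨h3, h4⟩ := ih _ (unpair22_lt g6 (by norm_num)) b' hb'
      refine ⟨(D ⊓ O).mul_mem h1 h3, ?_⟩
      rw [← hc, g6, rev_mul', ← h2, ← h4]
      exact hmul _ h1 _ h3
    · have : a = .zero := tm_code_inj (by rw [ha]; rfl)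
      subst this
      refine ⟨(D ⊓ O).zero_mem, ?_⟩
      rw [← hc, rev_default _ _ _ g0 g3 g4 g5 g6]
      exact cl_zero D O cl hadd

/-- Meaning of the translation, with quantifiers over a set `D` (a subring of the ring `R`), `O`
a subring of `R`, `cl : R → Q` inducing the quotient of `D ∩ O` by `d`. -/
theorem T2_sem {k : ℕ} {R Q : Type*} [CommRing R] [CommRing Q] (D O : Subring R) (c0 : Fin k → R)
    (cl : R → Q) (d d' : R) (hd : d * d' = 1) (hdD : d ∈ D) (hd'D : d' ∈ D) (hdO : d ∈ O)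
    (hone : cl 1 = 1)
    (hadd : ∀ x ∈ D ⊓ O, ∀ y ∈ D ⊓ O, cl (x + y) = cl x + cl y)
    (hmul : ∀ x ∈ D ⊓ O, ∀ y ∈ D ⊓ O, cl (x * y) = cl x * cl y)
    (hsurj : ∀ q : Q, ∃ x ∈ D ⊓ O, cl x = q)
    (hker : ∀ x ∈ D ⊓ O, ∀ y ∈ D ⊓ O, cl x = cl y ↔ d' * (x - y) ∈ O)
    (c : ℕ) (φ : Fm k) (hφ : φ.code = T2 c) (e : ℕ → R) (h0 : e 0 = d')
    (he : ∀ n, e (n + 1) ∈ D ⊓ O) :
    SatIn (D : Set R) (O : Set R) c0 φ e ↔ semTr c (fun n => cl (e (n + 1))) := by
  induction c using Nat.strong_induction_on generalizing φ e with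
  | _ c ih =>
    have hc : Nat.pair c.unpair.1 c.unpair.2 = c := Nat.pair_unpair c
    rw [T2_eq] at hφ
    split_ifs at hφ with g0 g3 g4 g5
    · obtain ⟨a, ha⟩ := T2t_form k c.unpair.2.unpair.1
      obtain ⟨b, hb⟩ := T2t_form k c.unpair.2.unpair.2
      have : φ = .inO (.mul (.var 0) (.add a (.neg b))) :=
        code_inj (by simp only [hφ, Fm.code, Tm.code, ha, hb])
      subst this
      obtain ⟨h1, h2⟩ := T2t_sem D O c0 cl hone hadd hmul _ a ha e he
      obtain ⟨h3, h4⟩ := T2t_sem D O c0 cl hone hadd hmul _ b hb e he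
      rw [← hc, g0, semTr_eq', ← h2, ← h4, hker _ h1 _ h3]
      simp only [SatIn, Tm.val, h0, sub_eq_add_neg, SetLike.mem_coe]
    · obtain ⟨ψ, hψ⟩ := T2_form k c.unpair.2
      have : φ = .neg ψ := code_inj (by rw [hφ, Fm.code, hψ])
      subst this
      rw [← hc, g3, semTr_neg, ← ih _ (unpair2_lt g3 (by norm_num)) ψ hψ e h0 he]
      rfl
    · obtain ⟨ψ, hψ⟩ := T2_form k c.unpair.2.unpair.1
      obtain ⟨ψ', hψ'⟩ := T2_form k c.unpair.2.unpair.2
      have : φ = .and ψ ψ' := code_inj (by rw [hφ, Fm.code, hψ, hψ'])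
      subst this
      rw [← hc, g4, semTr_and', ← ih _ (unpair21_lt g4 (by norm_num)) ψ hψ e h0 he,
        ← ih _ (unpair22_lt g4 (by norm_num)) ψ' hψ' e h0 he]
      rfl
    · obtain ⟨ψ, hψ⟩ := T2_form k c.unpair.2.unpair.2
      have : φ = .all (c.unpair.2.unpair.1 + 1)
          (.neg (.and (.inO (.var (c.unpair.2.unpair.1 + 1))) (.neg ψ))) :=
        code_inj (by simp only [hφ, Fm.code, Tm.code, hψ])
      subst this
      conv_rhs => rw [← hc, g5, semTr_all']
      simp only [SatIn, Tm.val, Function.update_self, SetLike.mem_coe, not_and, not_not]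
      have key : ∀ x ∈ D ⊓ O, (SatIn (D : Set R) (O : Set R) c0 ψ
          (Function.update e (c.unpair.2.unpair.1 + 1) x) ↔
          semTr c.unpair.2.unpair.2 (Function.update (fun n => cl (e (n + 1)))
            c.unpair.2.unpair.1 (cl x))) := by
        intro x hx
        rw [ih _ (unpair22_lt g5 (by norm_num)) ψ hψ]
        · have : (fun n => cl (Function.update e (c.unpair.2.unpair.1 + 1) x (n + 1))) =
              Function.update (fun n => cl (e (n + 1))) c.unpair.2.unpair.1 (cl x) := by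
            funext n
            by_cases hn : n = c.unpair.2.unpair.1
            · subst hn
              simp
            · rw [Function.update_of_ne hn, Function.update_of_ne (by simpa using hn)]
          rw [this]
        · rw [Function.update_of_ne (by simp)]
          exact h0
        · intro n
          by_cases hn : n = c.unpair.2.unpair.1
          · subst hn
            simpa using hx
          · rw [Function.update_of_ne (by simpa using hn)]
            exact he n
      constructor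
      · intro h q
        obtain ⟨x, hx, rfl⟩ := hsurj q
        have := (key x hx).1 (h x hx.1 hx.2)
        simpa using this
      · intro h x hx1 hx2
        refine (key x ⟨hx1, hx2⟩).2 ?_
        have := h (cl x)
        simpa using this
    · have : φ = .eq .zero .zero := code_inj (by rw [hφ]; rfl)
      subst this
      rw [← hc, semTr_default _ _ _ g0 g3 g4 g5]
      simp [SatIn, Tm.val]

end Sem


section Norm

/-- Normalisation of raw terms with `k + 1` constants. -/
def normT (k : ℕ) (c : ℕ) : ℕ :=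
  match _h : c.unpair with
  | (0, n) => Nat.pair 0 n
  | (1, i) => if i ≤ k then Nat.pair 1 i else Nat.pair 2 0
  | (3, _) => Nat.pair 3 0
  | (4, a) => Nat.pair 4 (normT k a)
  | (5, m) => Nat.pair 5 (Nat.pair (normT k m.unpair.1) (normT k m.unpair.2))
  | (6, m) => Nat.pair 6 (Nat.pair (normT k m.unpair.1) (normT k m.unpair.2))
  | _ => Nat.pair 2 0
termination_by c
decreasing_by
  · exact unpair_lt _h (by norm_num)
  · exact unpair_lt1 _h (by norm_num)
  · exact unpair_lt2 _h (by norm_num)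
  · exact unpair_lt1 _h (by norm_num)
  · exact unpair_lt2 _h (by norm_num)

/-- Normalisation of raw formulas with `k + 1` constants. -/
def normF (k : ℕ) (c : ℕ) : ℕ :=
  match _h : c.unpair with
  | (0, m) => Nat.pair 0 (Nat.pair (normT k m.unpair.1) (normT k m.unpair.2))
  | (1, a) => Nat.pair 1 (normT k a)
  | (2, a) => Nat.pair 2 (normF k a)
  | (3, m) => Nat.pair 3 (Nat.pair (normF k m.unpair.1) (normF k m.unpair.2))
  | (4, m) => Nat.pair 4 (Nat.pair m.unpair.1 (normF k m.unpair.2))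
  | _ => Nat.pair 0 (Nat.pair (Nat.pair 2 0) (Nat.pair 2 0))
termination_by c
decreasing_by
  · exact unpair_lt _h (by norm_num)
  · exact unpair_lt1 _h (by norm_num)
  · exact unpair_lt2 _h (by norm_num)
  · exact unpair_lt2 _h (by norm_num)

theorem normT_eq (k c : ℕ) : normT k c =
    if c.unpair.1 = 0 then Nat.pair 0 c.unpair.2
    else if c.unpair.1 = 1 then (if c.unpair.2 ≤ k then Nat.pair 1 c.unpair.2 else Nat.pair 2 0)
    else if c.unpair.1 = 3 then Nat.pair 3 0
    else if c.unpair.1 = 4 then Nat.pair 4 (normT k c.unpair.2)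
    else if c.unpair.1 = 5 then
      Nat.pair 5 (Nat.pair (normT k c.unpair.2.unpair.1) (normT k c.unpair.2.unpair.2))
    else if c.unpair.1 = 6 then
      Nat.pair 6 (Nat.pair (normT k c.unpair.2.unpair.1) (normT k c.unpair.2.unpair.2))
    else Nat.pair 2 0 := by
  rw [normT]
  split
  · next n h => simp [h]
  · next n h => simp [h]
  · next n h => simp [h]
  · next n h => simp [h]
  · next n h => simp [h]
  · next n h => simp [h]
  · next h0 h1 h3 h4 h5 h6 =>
    have g0 : c.unpair.1 ≠ 0 := fun e => h0 c.unpair.2 (Prod.ext e rfl)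
    have g1 : c.unpair.1 ≠ 1 := fun e => h1 c.unpair.2 (Prod.ext e rfl)
    have g3 : c.unpair.1 ≠ 3 := fun e => h3 c.unpair.2 (Prod.ext e rfl)
    have g4 : c.unpair.1 ≠ 4 := fun e => h4 c.unpair.2 (Prod.ext e rfl)
    have g5 : c.unpair.1 ≠ 5 := fun e => h5 c.unpair.2 (Prod.ext e rfl)
    have g6 : c.unpair.1 ≠ 6 := fun e => h6 c.unpair.2 (Prod.ext e rfl)
    rw [if_neg g0, if_neg g1, if_neg g3, if_neg g4, if_neg g5, if_neg g6]

theorem normF_eq (k c : ℕ) : normF k c =
    if c.unpair.1 = 0 then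
      Nat.pair 0 (Nat.pair (normT k c.unpair.2.unpair.1) (normT k c.unpair.2.unpair.2))
    else if c.unpair.1 = 1 then Nat.pair 1 (normT k c.unpair.2)
    else if c.unpair.1 = 2 then Nat.pair 2 (normF k c.unpair.2)
    else if c.unpair.1 = 3 then
      Nat.pair 3 (Nat.pair (normF k c.unpair.2.unpair.1) (normF k c.unpair.2.unpair.2))
    else if c.unpair.1 = 4 then
      Nat.pair 4 (Nat.pair c.unpair.2.unpair.1 (normF k c.unpair.2.unpair.2))
    else Nat.pair 0 (Nat.pair (Nat.pair 2 0) (Nat.pair 2 0)) := by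
  rw [normF]
  split
  · next n h => simp [h]
  · next n h => simp [h]
  · next n h => simp [h]
  · next n h => simp [h]
  · next n h => simp [h]
  · next h0 h1 h3 h4 h5 =>
    have g0 : c.unpair.1 ≠ 0 := fun e => h0 c.unpair.2 (Prod.ext e rfl)
    have g1 : c.unpair.1 ≠ 1 := fun e => h1 c.unpair.2 (Prod.ext e rfl)
    have g3 : c.unpair.1 ≠ 2 := fun e => h3 c.unpair.2 (Prod.ext e rfl)
    have g4 : c.unpair.1 ≠ 3 := fun e => h4 c.unpair.2 (Prod.ext e rfl)
    have g5 : c.unpair.1 ≠ 4 := fun e => h5 c.unpair.2 (Prod.ext e rfl)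
    rw [if_neg g0, if_neg g1, if_neg g3, if_neg g4, if_neg g5]

theorem normT_primrec (k : ℕ) : Primrec (normT k) := by
  refine primrec_of_rec (normT k) (fun q => if q.1.unpair.1 = 0 then Nat.pair 0 q.1.unpair.2
    else if q.1.unpair.1 = 1 then
      (if q.1.unpair.2 ≤ k then Nat.pair 1 q.1.unpair.2 else Nat.pair 2 0)
    else if q.1.unpair.1 = 3 then Nat.pair 3 0
    else if q.1.unpair.1 = 4 then Nat.pair 4 q.2.1
    else if q.1.unpair.1 = 5 then Nat.pair 5 (Nat.pair q.2.2.1 q.2.2.2)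
    else if q.1.unpair.1 = 6 then Nat.pair 6 (Nat.pair q.2.2.1 q.2.2.2)
    else Nat.pair 2 0) ?_ ?_
  · have c1 : Primrec (fun q : ℕ × ℕ × ℕ × ℕ => q.1) := Primrec.fst
    have x1 : Primrec (fun q : ℕ × ℕ × ℕ × ℕ => q.2.1) := Primrec.fst.comp Primrec.snd
    have y1 : Primrec (fun q : ℕ × ℕ × ℕ × ℕ => q.2.2.1) :=
      Primrec.fst.comp (Primrec.snd.comp Primrec.snd)
    have z1 : Primrec (fun q : ℕ × ℕ × ℕ × ℕ => q.2.2.2) :=
      Primrec.snd.comp (Primrec.snd.comp Primrec.snd)
    refine prim_ite_eq _ (prim_u1 c1) (prim_pairc _ (prim_u2 c1)) ?_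
    refine prim_ite_eq _ (prim_u1 c1) ?_ ?_
    · exact Primrec.ite (Primrec.nat_le.comp (prim_u2 c1) (Primrec.const k))
        (prim_pairc _ (prim_u2 c1)) (Primrec.const _)
    refine prim_ite_eq _ (prim_u1 c1) (Primrec.const _) ?_
    refine prim_ite_eq _ (prim_u1 c1) (prim_pairc _ x1) ?_
    refine prim_ite_eq _ (prim_u1 c1) (prim_pairc _ (prim_pair y1 z1)) ?_
    refine prim_ite_eq _ (prim_u1 c1) (prim_pairc _ (prim_pair y1 z1)) (Primrec.const _)
  · intro c
    rw [normT_eq]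
    by_cases g0 : c.unpair.1 = 0
    · simp only [if_pos g0]
    by_cases g1 : c.unpair.1 = 1
    · simp only [if_neg g0, if_pos g1]
    by_cases g3 : c.unpair.1 = 3
    · simp only [if_neg g0, if_neg g1, if_pos g3]
    by_cases g4 : c.unpair.1 = 4
    · simp only [if_neg g0, if_neg g1, if_neg g3, if_pos g4, if_pos (unpair2_lt g4 (by norm_num))]
    by_cases g5 : c.unpair.1 = 5
    · simp only [if_neg g0, if_neg g1, if_neg g3, if_neg g4, if_pos g5,
        if_pos (unpair21_lt g5 (by norm_num)), if_pos (unpair22_lt g5 (by norm_num))]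
    by_cases g6 : c.unpair.1 = 6
    · simp only [if_neg g0, if_neg g1, if_neg g3, if_neg g4, if_neg g5, if_pos g6,
        if_pos (unpair21_lt g6 (by norm_num)), if_pos (unpair22_lt g6 (by norm_num))]
    simp only [if_neg g0, if_neg g1, if_neg g3, if_neg g4, if_neg g5, if_neg g6]

theorem normF_primrec (k : ℕ) : Primrec (normF k) := by
  refine primrec_of_rec (normF k) (fun q => if q.1.unpair.1 = 0 then
      Nat.pair 0 (Nat.pair (normT k q.1.unpair.2.unpair.1) (normT k q.1.unpair.2.unpair.2))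
    else if q.1.unpair.1 = 1 then Nat.pair 1 (normT k q.1.unpair.2)
    else if q.1.unpair.1 = 2 then Nat.pair 2 q.2.1
    else if q.1.unpair.1 = 3 then Nat.pair 3 (Nat.pair q.2.2.1 q.2.2.2)
    else if q.1.unpair.1 = 4 then Nat.pair 4 (Nat.pair q.1.unpair.2.unpair.1 q.2.2.2)
    else Nat.pair 0 (Nat.pair (Nat.pair 2 0) (Nat.pair 2 0))) ?_ ?_
  · have c1 : Primrec (fun q : ℕ × ℕ × ℕ × ℕ => q.1) := Primrec.fst
    have x1 : Primrec (fun q : ℕ × ℕ × ℕ × ℕ => q.2.1) := Primrec.fst.comp Primrec.snd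
    have y1 : Primrec (fun q : ℕ × ℕ × ℕ × ℕ => q.2.2.1) :=
      Primrec.fst.comp (Primrec.snd.comp Primrec.snd)
    have z1 : Primrec (fun q : ℕ × ℕ × ℕ × ℕ => q.2.2.2) :=
      Primrec.snd.comp (Primrec.snd.comp Primrec.snd)
    have b1 := prim_u1 (prim_u2 c1)
    have b2 := prim_u2 (prim_u2 c1)
    refine prim_ite_eq _ (prim_u1 c1) (prim_pairc _ (prim_pair ((normT_primrec k).comp b1)
      ((normT_primrec k).comp b2))) ?_
    refine prim_ite_eq _ (prim_u1 c1) (prim_pairc _ ((normT_primrec k).comp (prim_u2 c1))) ?_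
    refine prim_ite_eq _ (prim_u1 c1) (prim_pairc _ x1) ?_
    refine prim_ite_eq _ (prim_u1 c1) (prim_pairc _ (prim_pair y1 z1)) ?_
    refine prim_ite_eq _ (prim_u1 c1) (prim_pairc _ (prim_pair b1 z1)) (Primrec.const _)
  · intro c
    rw [normF_eq]
    by_cases g0 : c.unpair.1 = 0
    · simp only [if_pos g0]
    by_cases g1 : c.unpair.1 = 1
    · simp only [if_neg g0, if_pos g1]
    by_cases g3 : c.unpair.1 = 2
    · simp only [if_neg g0, if_neg g1, if_pos g3, if_pos (unpair2_lt g3 (by norm_num))]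
    by_cases g4 : c.unpair.1 = 3
    · simp only [if_neg g0, if_neg g1, if_neg g3, if_pos g4, if_pos (unpair21_lt g4 (by norm_num)),
        if_pos (unpair22_lt g4 (by norm_num))]
    by_cases g5 : c.unpair.1 = 4
    · simp only [if_neg g0, if_neg g1, if_neg g3, if_neg g4, if_pos g5,
        if_pos (unpair22_lt g5 (by norm_num))]
    simp only [if_neg g0, if_neg g1, if_neg g3, if_neg g4, if_neg g5]

theorem normT_form (k c : ℕ) : ∃ a : Tm (k + 1), a.code = normT k c := by
  induction c using Nat.strong_induction_on with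
  | _ c ih =>
    rw [normT_eq]
    split_ifs with g0 g1 g2 g3 g4 g5 g6
    · exact ⟨.var c.unpair.2, rfl⟩
    · exact ⟨.cst ⟨c.unpair.2, Nat.lt_succ_of_le g2⟩, rfl⟩
    · exact ⟨.zero, rfl⟩
    · exact ⟨.one, rfl⟩
    · obtain ⟨a, ha⟩ := ih _ (unpair2_lt g4 (by norm_num))
      exact ⟨.neg a, by rw [Tm.code, ha]⟩
    · obtain ⟨a, ha⟩ := ih _ (unpair21_lt g5 (by norm_num))
      obtain ⟨b, hb⟩ := ih _ (unpair22_lt g5 (by norm_num))
      exact ⟨.add a b, by rw [Tm.code, ha, hb]⟩
    · obtain ⟨a, ha⟩ := ih _ (unpair21_lt g6 (by norm_num))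
      obtain ⟨b, hb⟩ := ih _ (unpair22_lt g6 (by norm_num))
      exact ⟨.mul a b, by rw [Tm.code, ha, hb]⟩
    · exact ⟨.zero, rfl⟩

theorem normF_form (k c : ℕ) : ∃ φ : Fm (k + 1), φ.code = normF k c := by
  induction c using Nat.strong_induction_on with
  | _ c ih =>
    rw [normF_eq]
    split_ifs with g0 g1 g3 g4 g5
    · obtain ⟨a, ha⟩ := normT_form k c.unpair.2.unpair.1
      obtain ⟨b, hb⟩ := normT_form k c.unpair.2.unpair.2
      exact ⟨.eq a b, by rw [Fm.code, ha, hb]⟩
    · obtain ⟨a, ha⟩ := normT_form k c.unpair.2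
      exact ⟨.inO a, by rw [Fm.code, ha]⟩
    · obtain ⟨a, ha⟩ := ih _ (unpair2_lt g3 (by norm_num))
      exact ⟨.neg a, by rw [Fm.code, ha]⟩
    · obtain ⟨a, ha⟩ := ih _ (unpair21_lt g4 (by norm_num))
      obtain ⟨b, hb⟩ := ih _ (unpair22_lt g4 (by norm_num))
      exact ⟨.and a b, by rw [Fm.code, ha, hb]⟩
    · obtain ⟨b, hb⟩ := ih _ (unpair22_lt g5 (by norm_num))
      exact ⟨.all c.unpair.2.unpair.1 b, by rw [Fm.code, hb]⟩
    · exact ⟨.eq .zero .zero, rfl⟩

theorem normT_code (k : ℕ) (a : Tm (k + 1)) : normT k a.code = a.code := by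
  induction a with
  | var n => rw [normT_eq]; simp [Tm.code]
  | cst i =>
    rw [normT_eq]
    have : (i : ℕ) ≤ k := Nat.lt_succ_iff.1 i.2
    simp [Tm.code, this]
  | zero => rw [normT_eq]; simp [Tm.code]
  | one => rw [normT_eq]; simp [Tm.code]
  | neg a ih => rw [normT_eq]; simp [Tm.code, ih]
  | add a b iha ihb => rw [normT_eq]; simp [Tm.code, iha, ihb]
  | mul a b iha ihb => rw [normT_eq]; simp [Tm.code, iha, ihb]

theorem normF_code (k : ℕ) (φ : Fm (k + 1)) : normF k φ.code = φ.code := by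
  induction φ with
  | eq a b => rw [normF_eq]; simp [Fm.code, normT_code]
  | inO a => rw [normF_eq]; simp [Fm.code, normT_code]
  | neg a ih => rw [normF_eq]; simp [Fm.code, ih]
  | and a b iha ihb => rw [normF_eq]; simp [Fm.code, iha, ihb]
  | all n a ih => rw [normF_eq]; simp [Fm.code, ih]

/-- A normalisation of codes: every number goes to the code of a formula, codes are fixed. -/
theorem norm_exists (k : ℕ) : ∃ N : ℕ → ℕ, Primrec N ∧ (∀ c, ∃ φ : Fm (k + 1), N c = φ.code) ∧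
    ∀ φ : Fm (k + 1), N φ.code = φ.code := by
  refine ⟨normF k, normF_primrec k, fun c => ?_, normF_code k⟩
  obtain ⟨φ, h⟩ := normF_form k c
  exact ⟨φ, h.symm⟩

end Norm

/-- Satisfaction in a type is the case `D = univ` of `SatIn`. -/
theorem satIn_univ {k : ℕ} {R : Type*} [CommRing R] (O : Set R) (c : Fin k → R) (φ : Fm k)
    (e : ℕ → R) : SatIn Set.univ O c φ e ↔ φ.Sat O c e := by
  induction φ generalizing e with
  | eq a b => rfl
  | inO a => rfl
  | neg a ih => simp only [SatIn, Fm.Sat, ih]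
  | and a b iha ihb => simp only [SatIn, Fm.Sat, iha, ihb]
  | all n a ih => simp only [SatIn, Fm.Sat, ih, Set.mem_univ, true_implies]

end Pool.Agent.H92.Tilt
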