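import Pool.Agent.H92.Tilt.PkB
import Pool.Agent.H92.Tilt.T2
import Pool.Agent.H92.Tilt.Axx

/-!
Helper file for module AX: the structure presenting a package, and the package presented by a
structure satisfying the axioms.
-/

set_option autoImplicit false

namespace Pool.Agent.H92.Tilt.AxM

/-! ### From packages to structures -/

section Out

variable {p : ℕ} (M : Pk p)

/-- The structure of a package. -/
def out : Str where
  D := M.Om × M.G
  zero := (0, 1)
  one := (1, 1)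
  t := (M.t, 1)
  neg a := (-a.1, 1)
  add a b := (a.1 + b.1, 1)
  mul a b := (a.1 * b.1, 1)
  act a b := ((a.2 : RingAut M.Om) b.1, 1)
  eq a b := a.1 = b.1
  inO a := a.1 ∈ M.O

theorem nval_out (k : ℕ) : (nval (out M) k : M.Om × M.G).1 = (k : M.Om) := by
  induction k with
  | zero => simp [nval, out]
  | succ k ih =>
    have : (nval (out M) (k + 1) : M.Om × M.G).1 = (nval (out M) k : M.Om × M.G).1 + 1 := rfl
    rw [this, ih]
    push_cast
    rfl

theorem isAx_out : IsAx p (out M) where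
  refl x := rfl
  symm x y h := Eq.symm (a := x.1) h
  trans x y w h h' := Eq.trans (a := x.1) h h'
  cneg x y h := congrArg Neg.neg (a₁ := x.1) h
  cadd x y w h := congrArg (· + w.1) (a₁ := x.1) h
  cmul x y w h := congrArg (· * w.1) (a₁ := x.1) h
  cinO x y h hx := by
    have h1 : x.1 = y.1 := h
    change y.1 ∈ M.O
    rw [← h1]
    exact hx
  cact x y w h := congrArg (fun a => (w.2 : RingAut M.Om) a) (a₁ := x.1) h
  addA x y w := add_assoc x.1 y.1 w.1
  addC x y := add_comm x.1 y.1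
  add0 x := add_zero x.1
  addN x := neg_add_cancel x.1
  mulA x y w := mul_assoc x.1 y.1 w.1
  mulC x y := mul_comm x.1 y.1
  mul1 x := mul_one x.1
  dist x y w := mul_add x.1 y.1 w.1
  ne := fun h => zero_ne_one (α := M.Om) h
  inv x := by
    rcases eq_or_ne x.1 0 with h | h
    · exact Or.inl h
    · exact Or.inr ⟨(x.1⁻¹, 1), mul_inv_cancel₀ h⟩
  chr := by
    change (nval (out M) p : M.Om × M.G).1 = 0
    rw [nval_out]
    exact CharP.cast_eq_zero M.Om p
  oadd x y hx hy := M.O.add_mem x.1 y.1 hx hy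
  omul x y hx hy := M.O.mul_mem x.1 y.1 hx hy
  oneg x hx := M.O.neg_mem x.1 hx
  oone := M.O.one_mem
  oinv x y h := by
    have h1 : x.1 * y.1 = 1 := h
    have h2 : y.1 = x.1⁻¹ := eq_inv_of_mul_eq_one_right h1
    rcases M.O.mem_or_inv_mem x.1 with h3 | h3
    · exact Or.inl h3
    · right
      change y.1 ∈ M.O
      rw [h2]
      exact h3
  t0 := M.t0
  tO := M.t_mem
  tinv y h hy := by
    have h1 : M.t * y.1 = 1 := h
    have h2 : M.O.valuation y.1 ≤ 1 := (M.O.valuation_le_one_iff _).2 hy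
    have h3 : M.O.valuation (M.t * y.1) < 1 := by
      rw [map_mul]
      exact mul_lt_one_of_lt_of_le M.tm h2
    rw [h1, map_one] at h3
    exact lt_irrefl _ h3
  aadd g x y := map_add (g.2 : RingAut M.Om) x.1 y.1
  amul g x y := map_mul (g.2 : RingAut M.Om) x.1 y.1
  aone g := map_one (g.2 : RingAut M.Om)
  aO g x hx := M.gO _ g.2.2 x.1 hx
  acomp g h := ⟨(0, g.2 * h.2), fun x => rfl⟩
  ainv g := ⟨(0, g.2⁻¹), fun x => by
    have h1 : (g.2 : RingAut M.Om) * ((g.2⁻¹ : M.G) : RingAut M.Om) = 1 := by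
      rw [Subgroup.coe_inv, mul_inv_cancel]
    have h2 : ((g.2⁻¹ : M.G) : RingAut M.Om) * (g.2 : RingAut M.Om) = 1 := by
      rw [Subgroup.coe_inv, inv_mul_cancel]
    constructor
    · change ((g.2 : RingAut M.Om) * ((g.2⁻¹ : M.G) : RingAut M.Om)) x.1 = x.1
      rw [h1]
      rfl
    · change (((g.2⁻¹ : M.G) : RingAut M.Om) * (g.2 : RingAut M.Om)) x.1 = x.1
      rw [h2]
      rfl⟩
  at_ g := M.gt _ g.2.2
  P4 a := by
    obtain ⟨θ, h1, h2⟩ := M.P4 a.1
    refine ⟨(θ, 1), h1, fun g => ?_⟩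
    obtain ⟨h3, h4⟩ := h2 _ g.2.2
    refine ⟨h3, fun h5 => ?_⟩
    obtain ⟨y, h6, h7⟩ := h4 h5
    refine ⟨(y, 1), h6, ?_⟩
    change M.t = ((g.2 : RingAut M.Om) θ + -θ) * y
    rw [← sub_eq_add_neg]
    exact h7

end Out

/-! ### From structures to packages -/

section In

variable {p : ℕ} {S : Str} (h : IsAx p S)

/-- The equivalence relation of the structure. -/
def setd : Setoid S.D := ⟨S.eq, ⟨h.refl, fun {x y} => h.symm x y, fun {x y w} => h.trans x y w⟩⟩

/-- The quotient. -/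
def QD : Type := Quotient (setd h)

/-- The class. -/
def cl (a : S.D) : QD h := Quotient.mk (setd h) a

theorem cl_eq {a b : S.D} : cl h a = cl h b ↔ S.eq a b :=
  ⟨fun e => Quotient.exact (s := setd h) e, fun e => Quotient.sound (s := setd h) e⟩

theorem cl_surj (x : QD h) : ∃ a, cl h a = x := Quotient.exists_rep (s := setd h) x

include h in
theorem cadd2 {x y x' y' : S.D} (h1 : S.eq x x') (h2 : S.eq y y') :
    S.eq (S.add x y) (S.add x' y') :=
  h.trans _ _ _ (h.cadd x x' y h1)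
    (h.trans _ _ _ (h.addC _ _) (h.trans _ _ _ (h.cadd y y' x' h2) (h.addC _ _)))

include h in
theorem cmul2 {x y x' y' : S.D} (h1 : S.eq x x') (h2 : S.eq y y') :
    S.eq (S.mul x y) (S.mul x' y') :=
  h.trans _ _ _ (h.cmul x x' y h1)
    (h.trans _ _ _ (h.mulC _ _) (h.trans _ _ _ (h.cmul y y' x' h2) (h.mulC _ _)))

instance : Zero (QD h) := ⟨cl h S.zero⟩
instance : One (QD h) := ⟨cl h S.one⟩
instance : Neg (QD h) := ⟨Quotient.map (sa := setd h) (sb := setd h) S.neg
  (fun _ _ e => h.cneg _ _ e)⟩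
instance : Add (QD h) := ⟨Quotient.map₂ (sa := setd h) (sb := setd h) (sc := setd h) S.add
  (fun _ _ e _ _ e' => cadd2 h e e')⟩
instance : Mul (QD h) := ⟨Quotient.map₂ (sa := setd h) (sb := setd h) (sc := setd h) S.mul
  (fun _ _ e _ _ e' => cmul2 h e e')⟩

theorem cl_zero' : cl h S.zero = 0 := rfl
theorem cl_one' : cl h S.one = 1 := rfl
theorem cl_neg' (a : S.D) : cl h (S.neg a) = - cl h a := rfl
theorem cl_add' (a b : S.D) : cl h (S.add a b) = cl h a + cl h b := rfl
theorem cl_mul' (a b : S.D) : cl h (S.mul a b) = cl h a * cl h b := rfl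

instance instCR : CommRing (QD h) := by
  refine CommRing.ofMinimalAxioms ?_ ?_ ?_ ?_ ?_ ?_ ?_
  · intro x y w
    obtain ⟨a, rfl⟩ := cl_surj h x
    obtain ⟨b, rfl⟩ := cl_surj h y
    obtain ⟨c, rfl⟩ := cl_surj h w
    exact (cl_eq h).2 (h.addA a b c)
  · intro x
    obtain ⟨a, rfl⟩ := cl_surj h x
    exact (cl_eq h).2 (h.trans _ _ _ (h.addC _ _) (h.add0 a))
  · intro x
    obtain ⟨a, rfl⟩ := cl_surj h x
    exact (cl_eq h).2 (h.addN a)
  · intro x y w
    obtain ⟨a, rfl⟩ := cl_surj h x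
    obtain ⟨b, rfl⟩ := cl_surj h y
    obtain ⟨c, rfl⟩ := cl_surj h w
    exact (cl_eq h).2 (h.mulA a b c)
  · intro x y
    obtain ⟨a, rfl⟩ := cl_surj h x
    obtain ⟨b, rfl⟩ := cl_surj h y
    exact (cl_eq h).2 (h.mulC a b)
  · intro x
    obtain ⟨a, rfl⟩ := cl_surj h x
    exact (cl_eq h).2 (h.trans _ _ _ (h.mulC _ _) (h.mul1 a))
  · intro x y w
    obtain ⟨a, rfl⟩ := cl_surj h x
    obtain ⟨b, rfl⟩ := cl_surj h y
    obtain ⟨c, rfl⟩ := cl_surj h w
    exact (cl_eq h).2 (h.dist a b c)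

theorem isField : IsField (QD h) where
  exists_pair_ne := ⟨0, 1, fun e => h.ne ((cl_eq h).1 e)⟩
  mul_comm := mul_comm
  mul_inv_cancel := by
    intro x hx
    obtain ⟨a, rfl⟩ := cl_surj h x
    rcases h.inv a with h1 | ⟨b, hb⟩
    · exact absurd ((cl_eq h).2 h1) hx
    · exact ⟨cl h b, (cl_eq h).2 hb⟩

noncomputable instance instF : Field (QD h) := (isField h).toField

theorem cl_zero : cl h S.zero = 0 := rfl
theorem cl_one : cl h S.one = 1 := rfl
theorem cl_neg (a : S.D) : cl h (S.neg a) = - cl h a := rfl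
theorem cl_add (a b : S.D) : cl h (S.add a b) = cl h a + cl h b := rfl
theorem cl_mul (a b : S.D) : cl h (S.mul a b) = cl h a * cl h b := rfl

theorem cl_nval (k : ℕ) : cl h (nval S k) = (k : QD h) := by
  induction k with
  | zero => simp [nval, cl_zero]
  | succ k ih =>
    rw [nval, cl_add, ih, cl_one]
    push_cast
    rfl


/-- Horner terms in the quotient, for any structure map `q` compatible with the operations. -/
theorem q_hor {F : Type*} [Field F] (q : S.D → F) (h1 : q S.one = 1)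
    (ha : ∀ a b, q (S.add a b) = q a + q b) (hm : ∀ a b, q (S.mul a b) = q a * q b)
    (f : ℕ → S.D) (k : ℕ) : q (ev S (hor k) f) = horR (q (f 0)) (fun j => q (f j)) k := by
  induction k with
  | zero => simp [hor, horR, h1]
  | succ k ih => simp [hor, horR, ha, hm, ih]

/-- Meaning of the root axiom, in terms of such a map. -/
theorem sem_rootAx {F : Type*} [Field F] (q : S.D → F) (hs : Function.Surjective q)
    (h0 : q S.zero = 0) (h1 : q S.one = 1)
    (ha : ∀ a b, q (S.add a b) = q a + q b) (hm : ∀ a b, q (S.mul a b) = q a * q b)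
    (he : ∀ a b, S.eq a b ↔ q a = q b) (n : ℕ) (e : ℕ → S.D) :
    sem S (rootAx n) e ↔ ∀ a : ℕ → F, ∃ x, horR x a (n + 1) = 0 := by
  have hcongr : ∀ (x : F) (a b : ℕ → F) (k : ℕ), (∀ j, 1 ≤ j → j ≤ k → a j = b j) →
      horR x a k = horR x b k := by
    intro x a b k
    induction k with
    | zero => intro _; rfl
    | succ k ih =>
      intro hab
      rw [horR, horR, ih (fun j h2 h3 => hab j h2 (by omega)), hab (k + 1) (by omega) le_rfl]
  rw [rootAx, sem_close]
  constructor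
  · intro H a
    obtain ⟨b, hb⟩ : ∃ b : ℕ → S.D, ∀ j, q (b j) = a j :=
      ⟨fun j => (hs (a j)).choose, fun j => (hs (a j)).choose_spec⟩
    have H1 := H (fun j => if j = 0 ∨ n + 1 < j then e j else b j) (fun j hj => by simp [hj])
    rw [sem_ex] at H1
    obtain ⟨x, hx⟩ := H1
    rw [sem_eqf, he, ev_z, h0, q_hor q h1 ha hm] at hx
    refine ⟨q x, ?_⟩
    rw [← hx]
    simp only [Function.update_self]
    refine hcongr _ _ _ _ fun j h2 h3 => ?_
    rw [Function.update_of_ne (by omega), ← hb j]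
    have : ¬ (j = 0 ∨ n + 1 < j) := by omega
    simp [this]
  · intro H f _
    rw [sem_ex]
    obtain ⟨x, hx⟩ := H (fun j => q (f j))
    obtain ⟨y, rfl⟩ := hs x
    refine ⟨y, ?_⟩
    rw [sem_eqf, he, ev_z, h0, q_hor q h1 ha hm, ← hx]
    simp only [Function.update_self]
    refine hcongr _ _ _ _ fun j h2 h3 => ?_
    rw [Function.update_of_ne (by omega)]

open Polynomial in
theorem algClosed (hr : ∀ n, sem S (rootAx n) (fun _ => S.zero)) : IsAlgClosed (QD h) := by
  refine IsAlgClosed.of_exists_root _ fun P hP hirr => ?_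
  have hd : P.natDegree ≠ 0 := by
    intro h0
    have := Polynomial.eq_one_of_monic_natDegree_zero hP h0
    rw [this] at hirr
    exact hirr.not_isUnit isUnit_one
  obtain ⟨n, hn⟩ := Nat.exists_eq_succ_of_ne_zero hd
  obtain ⟨x, hx⟩ := (sem_rootAx (cl h) (cl_surj h) (cl_zero h) (cl_one h) (cl_add h) (cl_mul h)
    (fun a b => (cl_eq h).symm) n _).1 (hr n) (fun k => P.coeff (P.natDegree - k))
  refine ⟨x, ?_⟩
  rw [← eval_eq_horR P hP x, hn]
  rw [Nat.succ_eq_add_one] at *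
  rw [← hn] at hx ⊢
  exact hx

theorem charP [Fact p.Prime] : CharP (QD h) p := by
  rw [CharP.charP_iff_prime_eq_zero Fact.out]
  rw [← cl_nval h]
  exact (cl_eq h).2 h.chr

/-- Membership in the valuation ring. -/
def inV (x : QD h) : Prop := ∃ a, cl h a = x ∧ S.inO a

theorem inV_cl (a : S.D) : inV h (cl h a) ↔ S.inO a :=
  ⟨fun ⟨_, hb, hb'⟩ => h.cinO _ _ ((cl_eq h).1 hb) hb', fun ha => ⟨a, rfl, ha⟩⟩

/-- The valuation ring. -/
def OV : ValuationSubring (QD h) where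
  carrier := {x | inV h x}
  mul_mem' := by
    rintro _ _ ⟨a, rfl, ha⟩ ⟨b, rfl, hb⟩
    exact ⟨S.mul a b, cl_mul h a b, h.omul a b ha hb⟩
  one_mem' := ⟨S.one, cl_one h, h.oone⟩
  add_mem' := by
    rintro _ _ ⟨a, rfl, ha⟩ ⟨b, rfl, hb⟩
    exact ⟨S.add a b, cl_add h a b, h.oadd a b ha hb⟩
  zero_mem' := by
    refine ⟨S.add (S.neg S.one) S.one, ?_, h.oadd _ _ (h.oneg _ h.oone) h.oone⟩
    exact (cl_eq h).2 (h.addN _)
  neg_mem' := by
    rintro _ ⟨a, rfl, ha⟩
    exact ⟨S.neg a, cl_neg h a, h.oneg a ha⟩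
  mem_or_inv_mem' := by
    intro x
    rcases eq_or_ne x 0 with rfl | hx
    · left
      refine ⟨S.add (S.neg S.one) S.one, ?_, h.oadd _ _ (h.oneg _ h.oone) h.oone⟩
      exact (cl_eq h).2 (h.addN _)
    · obtain ⟨a, rfl⟩ := cl_surj h x
      obtain ⟨b, hb⟩ := cl_surj h (cl h a)⁻¹
      have h1 : cl h (S.mul a b) = cl h S.one := by
        rw [cl_mul, hb, mul_inv_cancel₀ hx, cl_one]
      rcases h.oinv a b ((cl_eq h).1 h1) with h2 | h2
      · exact Or.inl ⟨a, rfl, h2⟩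
      · exact Or.inr ⟨b, hb, h2⟩

theorem mem_OV (a : S.D) : cl h a ∈ OV h ↔ S.inO a := inV_cl h a

/-- The automorphism given by an element. -/
theorem exists_aut (g : S.D) : ∃ σ : RingAut (QD h), ∀ a, σ (cl h a) = cl h (S.act g a) := by
  obtain ⟨k, hk⟩ := h.ainv g
  let f (m : S.D) : QD h → QD h := Quotient.map (sa := setd h) (sb := setd h) (S.act m)
    (fun _ _ e => h.cact _ _ m e)
  have hf (m a : S.D) : f m (cl h a) = cl h (S.act m a) := rfl
  refine ⟨{ toFun := f g, invFun := f k, left_inv := ?_, right_inv := ?_, map_mul' := ?_,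
            map_add' := ?_ }, fun a => rfl⟩
  · intro x
    obtain ⟨a, rfl⟩ := cl_surj h x
    rw [hf, hf]
    exact (cl_eq h).2 (hk a).2
  · intro x
    obtain ⟨a, rfl⟩ := cl_surj h x
    rw [hf, hf]
    exact (cl_eq h).2 (hk a).1
  · intro x y
    obtain ⟨a, rfl⟩ := cl_surj h x
    obtain ⟨b, rfl⟩ := cl_surj h y
    rw [← cl_mul, hf, hf, hf, ← cl_mul]
    exact (cl_eq h).2 (h.amul g a b)
  · intro x y
    obtain ⟨a, rfl⟩ := cl_surj h x
    obtain ⟨b, rfl⟩ := cl_surj h y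
    rw [← cl_add, hf, hf, hf, ← cl_add]
    exact (cl_eq h).2 (h.aadd g a b)

/-- The group. -/
def GG : Subgroup (RingAut (QD h)) where
  carrier := {σ | ∃ g, ∀ a, σ (cl h a) = cl h (S.act g a)}
  mul_mem' := by
    rintro σ τ ⟨g, hg⟩ ⟨g', hg'⟩
    obtain ⟨k, hk⟩ := h.acomp g g'
    refine ⟨k, fun a => ?_⟩
    change σ (τ (cl h a)) = _
    rw [hg', hg]
    exact (cl_eq h).2 (hk a)
  one_mem' := by
    obtain ⟨k, hk⟩ := h.ainv S.zero
    obtain ⟨m, hm⟩ := h.acomp S.zero k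
    refine ⟨m, fun a => ?_⟩
    change cl h a = _
    exact (cl_eq h).2 (h.trans _ _ _ (h.symm _ _ (hk a).1) (hm a))
  inv_mem' := by
    rintro σ ⟨g, hg⟩
    obtain ⟨k, hk⟩ := h.ainv g
    refine ⟨k, fun a => ?_⟩
    have h1 : σ (cl h (S.act k a)) = cl h a := by
      rw [hg]
      exact (cl_eq h).2 (hk a).1
    rw [← h1]
    change (σ⁻¹ * σ) (cl h (S.act k a)) = _
    rw [inv_mul_cancel]
    rfl

theorem mem_GG (σ : RingAut (QD h)) : σ ∈ GG h ↔ ∃ g, ∀ a, σ (cl h a) = cl h (S.act g a) :=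
  Iff.rfl

/-- The package. -/
noncomputable def mk [Fact p.Prime] (hr : ∀ n, sem S (rootAx n) (fun _ => S.zero)) : Pk p where
  Om := QD h
  fld := instF h
  alg := algClosed h hr
  chp := charP h
  O := OV h
  G := GG h
  t := cl h S.t
  gO := by
    intro σ hσ x hx
    obtain ⟨g, hg⟩ := (mem_GG h σ).1 hσ
    obtain ⟨a, rfl⟩ := cl_surj h x
    rw [hg, mem_OV]
    exact h.aO g a ((mem_OV h a).1 hx)
  t0 := fun e => h.t0 ((cl_eq h).1 e)
  tm := by
    by_contra hc
    have h1 : 1 ≤ (OV h).valuation (cl h S.t) := not_lt.1 hc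
    have h2 : (OV h).valuation (cl h S.t)⁻¹ ≤ 1 := by
      rw [map_inv₀]
      exact inv_le_one_of_one_le₀ h1
    have h3 := ((OV h).valuation_le_one_iff _).1 h2
    obtain ⟨b, hb⟩ := cl_surj h (cl h S.t)⁻¹
    rw [← hb, mem_OV] at h3
    have h0 : cl h S.t ≠ 0 := fun e => h.t0 ((cl_eq h).1 e)
    refine h.tinv b ((cl_eq h).1 ?_) h3
    rw [cl_mul, hb, mul_inv_cancel₀ h0, cl_one]
  gt := by
    intro σ hσ
    obtain ⟨g, hg⟩ := (mem_GG h σ).1 hσ
    rw [hg]
    exact (cl_eq h).2 (h.at_ g)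
  P4 := by
    intro x
    obtain ⟨a, rfl⟩ := cl_surj h x
    obtain ⟨θ, h1, h2⟩ := h.P4 a
    refine ⟨cl h θ, (mem_OV h θ).2 h1, fun σ hσ => ?_⟩
    obtain ⟨g, hg⟩ := (mem_GG h σ).1 hσ
    obtain ⟨h3, h4⟩ := h2 g
    constructor
    · intro h5
      rw [hg] at h5 ⊢
      exact (cl_eq h).2 (h3 ((cl_eq h).1 h5))
    · intro h5
      rw [hg] at h5
      obtain ⟨y, h6, h7⟩ := h4 (fun e => h5 ((cl_eq h).2 e))
      refine ⟨cl h y, (mem_OV h y).2 h6, ?_⟩
      rw [hg, sub_eq_add_neg, ← cl_neg, ← cl_add, ← cl_mul]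
      exact (cl_eq h).2 h7

end In

end Pool.Agent.H92.Tilt.AxM
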