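import Pool.Agent.H92.Tilt.PkB
import Pool.Agent.H92.Tilt.T2
import Pool.Agent.H92.Tilt.Axy

/-!
Module AX: the axioms of packages as raw formulas, and the two passages between packages and
structures.

`axs : ℕ → ℕ` enumerates: equality is an equivalence relation and a congruence for `add`, `mul`, `neg`,
`inO` and for `act` in the second argument; commutative ring, `0 ≠ 1`, inverses, `p = 0`; for every
`n` : every monic polynomial of degree `n + 1` has a root; `O` is closed under `+, ·, -`, contains `1`, and
`a ∈ O` or `a⁻¹ ∈ O`; `t ∈ O`, `t ≠ 0`, `t⁻¹ ∉ O`; `act g` is additive, multiplicative, maps `O` to `O`; for all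
`g, h` there is `k` with `g (h a) = k a` for all `a`; for all `g` there is `k` with `g (k a) = a` and `k (g a) = a` for all
`a`; `g t = t`; `P4`. From a structure satisfying them: `Om` = quotient by `eq`, `G` = set of the
automorphisms `act g`. From a package: `D = Om × M.G`, `eq` = equality of first components, `act (a, g) (b, h) = (g b, 1)`.
-/

set_option autoImplicit false

namespace Pool.Agent.H92.Tilt

/-- `S` presents the package `M`: `q` is a surjection from `S.D` to `M.Om` compatible with everything. -/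
structure Pres {p : ℕ} (S : Str) (M : Pk p) (q : S.D → M.Om) : Prop where
  surj : Function.Surjective q
  zero : q S.zero = 0
  one : q S.one = 1
  t : q S.t = M.t
  neg : ∀ a, q (S.neg a) = - q a
  add : ∀ a b, q (S.add a b) = q a + q b
  mul : ∀ a b, q (S.mul a b) = q a * q b
  eq : ∀ a b, S.eq a b ↔ q a = q b
  inO : ∀ a, S.inO a ↔ q a ∈ M.O
  fixd : ∀ a, S.fixd a ↔ q a ∈ M.K

/-- Values of terms in a presented package. -/
theorem Pres.ev_eq {p : ℕ} {S : Str} {M : Pk p} {q : S.D → M.Om}
    (h : Pres S M q) (a : Tm 1) (e : ℕ → S.D) :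
    q (ev S a.code e) = a.val (fun _ => M.t) (fun n => q (e n)) := by
  induction a with
  | var n => simp [Tm.code, Tm.val]
  | cst i => simp [Tm.code, Tm.val, h.t]
  | zero => simp [Tm.code, Tm.val, h.zero]
  | one => simp [Tm.code, Tm.val, h.one]
  | neg a ih => simp [Tm.code, Tm.val, h.neg, ih]
  | add a b iha ihb => simp [Tm.code, Tm.val, h.add, iha, ihb]
  | mul a b iha ihb => simp [Tm.code, Tm.val, h.mul, iha, ihb]

theorem AxM.q_update {D F : Type*} (q : D → F) (e : ℕ → D) (n : ℕ) (x : D) :
    (fun m => q (Function.update e n x m)) = Function.update (fun m => q (e m)) n (q x) := by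
  funext m
  rcases eq_or_ne m n with h | h
  · rw [h, Function.update_self, Function.update_self]
  · rw [Function.update_of_ne h, Function.update_of_ne h]

/-- Satisfaction of formulas in a presented package. -/
theorem Pres.sem_iff {p : ℕ} [Fact p.Prime] {S : Str} {M : Pk p} {q : S.D → M.Om}
    (h : Pres S M q) (φ : Fm 1) (e : ℕ → S.D) : sem S φ.code e ↔ M.sat φ (fun n => q (e n)) := by
  unfold Pk.sat
  induction φ generalizing e with
  | eq a b =>
    rw [Fm.code, sem_eq, h.eq, h.ev_eq, h.ev_eq]
    rfl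
  | inO a =>
    rw [Fm.code, sem_inO, h.inO, h.ev_eq]
    rfl
  | neg φ ih =>
    rw [Fm.code, sem_neg, ih]
    rfl
  | and φ ψ ih1 ih2 =>
    rw [Fm.code, sem_and, ih1, ih2]
    rfl
  | all n φ ih =>
    rw [Fm.code, sem_allK]
    constructor
    · intro H a ha
      obtain ⟨x, rfl⟩ := h.surj a
      have := (ih (Function.update e n x)).1 (H x ((h.fixd x).2 ha))
      rwa [AxM.q_update] at this
    · intro H x hx
      refine (ih (Function.update e n x)).2 ?_
      rw [AxM.q_update]
      exact H (q x) ((h.fixd x).1 hx)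

variable (p : ℕ) [Fact p.Prime]

open AxM in
theorem axioms_exist : ∃ axs : ℕ → ℕ, Computable axs ∧
    (∀ M : Pk p, ∃ (S : Str) (q : S.D → M.Om), Pres S M q ∧
      ∀ m, sem S (axs m) (fun _ => S.zero)) ∧
    (∀ S : Str, (∀ m, sem S (axs m) (fun _ => S.zero)) →
      ∃ (M : Pk p) (q : S.D → M.Om), Pres S M q) := by
  refine ⟨axs p, (pr_axs p).to_comp, ?_, ?_⟩
  · intro M
    have hP : Pres (out M) M Prod.fst := by
      refine ⟨?_, rfl, rfl, rfl, fun a => rfl, fun a b => rfl, fun a b => rfl, fun a b => Iff.rfl,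
        fun a => Iff.rfl, ?_⟩
      · intro x
        exact ⟨(x, 1), rfl⟩
      · intro a
        constructor
        · intro h g hg
          exact h (0, ⟨g, hg⟩)
        · intro h g
          exact h _ g.2.2
    refine ⟨out M, Prod.fst, hP, fun m => ?_⟩
    rw [axs, sem_an, sem_axA]
    refine ⟨isAx_out M, ?_⟩
    rw [sem_rootAx (S := out M) (F := M.Om) Prod.fst hP.surj hP.zero hP.one hP.add hP.mul hP.eq]
    intro a
    exact exists_horR a m
  · intro S hS
    have h : IsAx p S := by
      have := hS 0
      rw [axs, sem_an, sem_axA] at this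
      exact this.1
    have hr : ∀ n, sem S (rootAx n) (fun _ => S.zero) := by
      intro n
      have := hS n
      rw [axs, sem_an] at this
      exact this.2
    refine ⟨mk h hr, AxM.cl h, ?_⟩
    refine ⟨cl_surj h, rfl, rfl, rfl, fun a => rfl, fun a b => rfl, fun a b => rfl,
      fun a b => (cl_eq h).symm, fun a => (mem_OV h a).symm, ?_⟩
    intro a
    constructor
    · intro H σ hσ
      obtain ⟨g, hg⟩ := (mem_GG h σ).1 hσ
      have := hg a
      refine this.trans ?_
      exact (cl_eq h).2 (H g)
    · intro H g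
      obtain ⟨σ, hσ⟩ := exists_aut h g
      have h1 : σ ∈ GG h := (mem_GG h σ).2 ⟨g, hσ⟩
      have h2 : σ (AxM.cl h a) = AxM.cl h a := H σ h1
      rw [hσ] at h2
      exact (cl_eq h).1 h2

omit [Fact p.Prime] in
open AxM in
theorem AxM.ev_pw {M : Pk p} {S : Str} {q : S.D → M.Om} (h : Pres S M q) (k : ℕ) (e : ℕ → S.D) :
    q (ev S (pw k) e) = q (e 1) ^ k := by
  induction k with
  | zero => simp [pw, h.one]
  | succ k ih => rw [pw, ev_ml, h.mul, ih, ev_v, pow_succ]

theorem AxM.frob_inj {F : Type*} [Field F] [CharP F p] {x y : F} {N : ℕ}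
    (h : x ^ p ^ N = y ^ p ^ N) : x = y := by
  apply iterateFrobenius_inj F p N
  rw [iterateFrobenius_def, iterateFrobenius_def]
  exact h

open AxM in
/-- The sentence stating that the truncated formula `c` holds at the `p ^ N`-th root of `t`:
`∀ x_0 (x_0 t = 1 → ∀ x_1 (x_1 ^ (p ^ N) = t → T2 c))`, quantifiers over `K`. -/
theorem trunc_sentence : ∃ s : ℕ → ℕ → ℕ, Computable₂ s ∧
    ∀ (M : Pk p) (S : Str) (q : S.D → M.Om), Pres S M q → ∀ (N c : ℕ) (x : M.Om),
      x ^ p ^ N = M.t → (sem S (s N c) (fun _ => S.zero) ↔ semTr c (M.par x)) := by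
  refine ⟨fun N c => alK 0 (im (eqf (ml (v 0) tt) o)
    (alK 1 (im (eqf (pw (p ^ N)) tt) (T2 c)))), ?_, ?_⟩
  · have h1 : Primrec₂ fun (N c : ℕ) => pw (p ^ N) :=
      (pr_pw.comp (pr_npow p)).comp₂ Primrec₂.left
    have h2 : Primrec₂ fun (N c : ℕ) => im (eqf (pw (p ^ N)) tt) (T2 c) :=
      pr_im.comp₂ (pr_eqf.comp₂ h1 (Primrec₂.const tt)) (T2_primrec.comp₂ Primrec₂.right)
    have h3 : Primrec₂ fun (N c : ℕ) => alK 0 (im (eqf (ml (v 0) tt) o)
        (alK 1 (im (eqf (pw (p ^ N)) tt) (T2 c)))) :=
      pr_alK.comp₂ (Primrec₂.const 0) (pr_im.comp₂ (Primrec₂.const (eqf (ml (v 0) tt) o))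
        (pr_alK.comp₂ (Primrec₂.const 1) h2))
    exact h3.to_comp
  · intro M S q h N c x hx
    obtain ⟨φ, hφ⟩ := T2_form 1 c
    have hp : p ^ N ≠ 0 := pow_ne_zero _ (Fact.out : p.Prime).ne_zero
    have hxK : x ∈ M.K := by
      intro g hg
      apply frob_inj p (N := N)
      rw [← map_pow, hx]
      exact M.gt g hg
    have hxO : x ∈ M.O := by
      rw [← M.O.valuation_le_one_iff]
      have h1 : M.O.valuation x ^ p ^ N ≤ 1 := by
        rw [← map_pow, hx]
        exact M.tm.le
      exact (pow_le_one_iff hp).1 h1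
    have key : ∀ (y w : S.D), q y = M.t⁻¹ → q w = x →
        (sem S (T2 c) (Function.update (Function.update (fun _ => S.zero) 0 y) 1 w) ↔
          semTr c (M.par x)) := by
      intro y w hy hw
      rw [← hφ, h.sem_iff]
      have h0 : (fun n => q (Function.update (Function.update (fun _ => S.zero) 0 y) 1 w n)) =
          Function.update (Function.update (fun _ => (0 : M.Om)) 0 M.t⁻¹) 1 x := by
        rw [q_update, q_update, hy, hw, h.zero]
      rw [h0]
      have he : ∀ n, Function.update (Function.update (fun _ => (0 : M.Om)) 0 M.t⁻¹) 1 x (n + 1) =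
          if n = 0 then x else 0 := by
        intro n
        rcases Nat.eq_zero_or_pos n with rfl | hn
        · simp
        · rw [Function.update_of_ne (by omega), Function.update_of_ne (by omega),
            if_neg (by omega)]
      have hker : ∀ x ∈ M.K.toSubring ⊓ M.O.toSubring, ∀ y ∈ M.K.toSubring ⊓ M.O.toSubring,
          (M.cls x = M.cls y ↔ M.t⁻¹ * (x - y) ∈ M.O.toSubring) := by
        intro x hx y hy
        rw [M.cls_eq hx hy]
        constructor
        · rintro ⟨z, hz, hxy⟩
          rw [hxy, inv_mul_cancel_left₀ M.t0]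
          exact hz
        · intro hz
          exact ⟨_, hz, by rw [mul_inv_cancel_left₀ M.t0]⟩
      have h1 := T2_sem (k := 1) M.K.toSubring M.O.toSubring (fun _ => M.t) M.cls M.t M.t⁻¹
        (mul_inv_cancel₀ M.t0) M.t_mem_K (M.K.inv_mem M.t_mem_K) M.t_mem M.cls_one
        (fun x hx y hy => M.cls_add hx hy) (fun x hx y hy => M.cls_mul hx hy)
        (fun z => M.cls_surj z) hker c φ hφ
        (Function.update (Function.update (fun _ => (0 : M.Om)) 0 M.t⁻¹) 1 x) (by simp) (by
          intro n
          rw [he n]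
          split_ifs
          · exact ⟨hxK, hxO⟩
          · exact (M.K.toSubring ⊓ M.O.toSubring).zero_mem)
      have h2 : (fun n => M.cls (Function.update (Function.update (fun _ => (0 : M.Om)) 0 M.t⁻¹)
          1 x (n + 1))) = M.par x := by
        funext n
        rw [he n]
        unfold Pk.par
        split_ifs
        · rfl
        · exact M.cls_zero
      rw [h2] at h1
      exact h1
    simp only [sem_alK, sem_im, sem_eqf, ev_ml, ev_v, ev_tt, ev_o]
    have hu (y : S.D) : Function.update (fun _ => S.zero) 0 y 0 = y := Function.update_self ..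
    constructor
    · intro H
      obtain ⟨y, hy⟩ := h.surj M.t⁻¹
      obtain ⟨w, hw⟩ := h.surj x
      have h1 := H y ((h.fixd y).2 (by rw [hy]; exact M.K.inv_mem M.t_mem_K)) (by
        rw [h.eq, hu, h.mul, hy, h.t, h.one]
        exact inv_mul_cancel₀ M.t0) w ((h.fixd w).2 (by rw [hw]; exact hxK)) (by
        rw [h.eq, ev_pw p h, Function.update_self, hw, h.t, hx])
      exact (key y w hy hw).1 h1
    · intro H y _ hy w _ hw
      rw [h.eq, hu, h.mul, h.t, h.one] at hy
      rw [h.eq, ev_pw p h, Function.update_self, h.t] at hw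
      refine (key y w (eq_inv_of_mul_eq_one_left hy) ?_).2 H
      apply frob_inj p (N := N)
      rw [hw, hx]

end Pool.Agent.H92.Tilt
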