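import Pool.Agent.H92.Tilt.Raw

/-!
Module ENUM, part 2 (helper53): the free structure on the natural numbers, environments and the evaluation of
raw terms in it.
-/

set_option autoImplicit false

namespace Pool.Agent.H92.Tilt.Enum

/-- the constant zero of the free structure -/
def zero0 : ℕ := Nat.pair 2 0

/-- the free structure with the relations `r` and `s` -/
def free (r : ℕ → ℕ → Prop) (s : ℕ → Prop) : Str where
  D := ℕ
  zero := zero0
  one := Nat.pair 3 0
  t := Nat.pair 1 0
  neg a := Nat.pair 4 a
  add a b := Nat.pair 5 (Nat.pair a b)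
  mul a b := Nat.pair 6 (Nat.pair a b)
  act a b := Nat.pair 7 (Nat.pair a b)
  eq := r
  inO := s

/-- the list of pairs (variable, value) coded by `e` -/
def ofE (e : ℕ) : List (ℕ × ℕ) := (Encodable.decode e).getD []

/-- the value of the variable `n` in the environment `e` -/
def lk (e n : ℕ) : ℕ := ((ofE e).lookup n).getD zero0

/-- put `(n, a)` in front of the environment `e` -/
def cns (n a e : ℕ) : ℕ := Encodable.encode ((n, a) :: ofE e)

theorem ofE_cns (n a e : ℕ) : ofE (cns n a e) = (n, a) :: ofE e := by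
  simp [ofE, cns]

theorem lk_cns (n a e : ℕ) : lk (cns n a e) = Function.update (lk e) n a := by
  funext k
  unfold lk
  rw [ofE_cns, List.lookup_cons]
  by_cases h : k = n
  · subst h; simp
  · have : (k == n) = false := by simpa using h
    rw [this, Function.update_of_ne h]

theorem lk_zero (k : ℕ) : lk 0 k = zero0 := by
  have : ofE 0 = [] := by
    have h : Encodable.encode ([] : List (ℕ × ℕ)) = 0 := Encodable.encode_list_nil
    unfold ofE
    rw [← h, Encodable.encodek]
    rfl
  rw [lk, this]; rfl

theorem encode_ofE (e : ℕ) : Encodable.encode (ofE e) = e := by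
  have h : (Encodable.decode e : Option (List (ℕ × ℕ))) = some (Denumerable.ofNat (List (ℕ × ℕ)) e) :=
    Denumerable.decode_eq_ofNat _ e
  unfold ofE
  rw [h]
  exact Denumerable.encode_ofNat e

theorem lookup_le (l : List (ℕ × ℕ)) (n y : ℕ) (h : l.lookup n = some y) :
    y < Encodable.encode l := by
  induction l with
  | nil => simp at h
  | cons p l ih =>
    rw [Encodable.encode_list_cons]
    rw [List.lookup_cons] at h
    by_cases hp : n == p.1
    · rw [hp] at h
      simp only [Option.some.injEq] at h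
      subst h
      have h1 : p.2 ≤ Nat.pair p.1 p.2 := Nat.right_le_pair _ _
      have h2 : Nat.pair p.1 p.2 = Encodable.encode p := rfl
      have h3 : Encodable.encode p ≤ Nat.pair (Encodable.encode p) (Encodable.encode l) :=
        Nat.left_le_pair _ _
      omega
    · have hp' : (n == p.1) = false := by simpa using hp
      rw [hp'] at h
      have h1 := ih h
      have h3 : Encodable.encode l ≤ Nat.pair (Encodable.encode p) (Encodable.encode l) :=
        Nat.right_le_pair _ _
      omega

theorem lk_lt (e n : ℕ) : lk e n < e ∨ lk e n = zero0 := by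
  unfold lk
  rcases h : (ofE e).lookup n with _ | y
  · right; rfl
  · left
    have := lookup_le _ _ _ h
    rw [encode_ofE] at this
    exact this

/-- the value of the raw term `c` in the environment `e` -/
noncomputable def evc (e c : ℕ) : ℕ := ev (free (fun _ _ => True) (fun _ => True)) c (lk e)

theorem free_t (r : ℕ → ℕ → Prop) (s : ℕ → Prop) : (free r s).t = Nat.pair 1 0 := rfl

theorem evc_var (e n : ℕ) : evc e (Nat.pair 0 n) = lk e n := ev_var (free _ _) (lk e) n
theorem evc_t (e n : ℕ) : evc e (Nat.pair 1 n) = Nat.pair 1 0 := ev_t (free _ _) (lk e) n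
theorem evc_zero (e n : ℕ) : evc e (Nat.pair 2 n) = zero0 := ev_zero (free _ _) (lk e) n
theorem evc_one (e n : ℕ) : evc e (Nat.pair 3 n) = Nat.pair 3 0 := ev_one (free _ _) (lk e) n
theorem evc_neg (e n : ℕ) : evc e (Nat.pair 4 n) = Nat.pair 4 (evc e n) :=
  ev_neg (free _ _) (lk e) n
theorem evc_add (e m : ℕ) : evc e (Nat.pair 5 m) =
    Nat.pair 5 (Nat.pair (evc e m.unpair.1) (evc e m.unpair.2)) := ev_add' (free _ _) (lk e) m
theorem evc_mul (e m : ℕ) : evc e (Nat.pair 6 m) =
    Nat.pair 6 (Nat.pair (evc e m.unpair.1) (evc e m.unpair.2)) := ev_mul' (free _ _) (lk e) m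
theorem evc_act (e m : ℕ) : evc e (Nat.pair 7 m) =
    Nat.pair 7 (Nat.pair (evc e m.unpair.1) (evc e m.unpair.2)) := ev_act' (free _ _) (lk e) m
theorem evc_default (e k n : ℕ) (h : 8 ≤ k) : evc e (Nat.pair k n) = zero0 :=
  ev_default (free _ _) (lk e) k n (Or.inr h)

theorem tag_cases {P : ℕ → Prop} (h0 : P 0) (h1 : P 1) (h2 : P 2) (h3 : P 3) (h4 : P 4) (h5 : P 5)
    (h6 : P 6) (h7 : P 7) (h8 : ∀ k, 8 ≤ k → P k) (k : ℕ) : P k := by
  by_cases h : 8 ≤ k
  · exact h8 k h
  · interval_cases k <;> assumption

/-- a homomorphism from the free structure computes the values of raw terms -/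
theorem ev_hom (S : Str) (val : ℕ → S.D) (h0 : val zero0 = S.zero) (h1 : val (Nat.pair 3 0) = S.one)
    (ht : val (Nat.pair 1 0) = S.t) (hn : ∀ a, val (Nat.pair 4 a) = S.neg (val a))
    (ha : ∀ a b, val (Nat.pair 5 (Nat.pair a b)) = S.add (val a) (val b))
    (hm : ∀ a b, val (Nat.pair 6 (Nat.pair a b)) = S.mul (val a) (val b))
    (hc : ∀ a b, val (Nat.pair 7 (Nat.pair a b)) = S.act (val a) (val b)) (e : ℕ) :
    ∀ c, ev S c (fun n => val (lk e n)) = val (evc e c) := by
  intro c
  induction c using Nat.strong_induction_on with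
  | _ c ih =>
    obtain ⟨k, m, rfl⟩ : ∃ k m, c = Nat.pair k m := ⟨c.unpair.1, c.unpair.2, (Nat.pair_unpair c).symm⟩
    have i0 : 0 < k → m < Nat.pair k m := fun h => lt_pair_right h
    have i1 : 0 < k → m.unpair.1 < Nat.pair k m := fun h =>
      lt_of_le_of_lt (Nat.unpair_left_le m) (i0 h)
    have i2 : 0 < k → m.unpair.2 < Nat.pair k m := fun h =>
      lt_of_le_of_lt (Nat.unpair_right_le m) (i0 h)
    revert ih i0 i1 i2
    refine tag_cases (P := fun k => (∀ m' < Nat.pair k m, ev S m' (fun n => val (lk e n)) =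
      val (evc e m')) → (0 < k → m < Nat.pair k m) → (0 < k → m.unpair.1 < Nat.pair k m) →
      (0 < k → m.unpair.2 < Nat.pair k m) →
      ev S (Nat.pair k m) (fun n => val (lk e n)) = val (evc e (Nat.pair k m)))
      ?_ ?_ ?_ ?_ ?_ ?_ ?_ ?_ ?_ k
    · intro _ _ _ _; rw [ev_var, evc_var]
    · intro _ _ _ _; rw [ev_t, evc_t, ht]
    · intro _ _ _ _; rw [ev_zero, evc_zero, h0]
    · intro _ _ _ _; rw [ev_one, evc_one, h1]
    · intro ih i0 _ _; rw [ev_neg, evc_neg, hn, ih _ (i0 (by norm_num))]
    · intro ih _ i1 i2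
      rw [ev_add', evc_add, ha, ih _ (i1 (by norm_num)), ih _ (i2 (by norm_num))]
    · intro ih _ i1 i2
      rw [ev_mul', evc_mul, hm, ih _ (i1 (by norm_num)), ih _ (i2 (by norm_num))]
    · intro ih _ i1 i2
      rw [ev_act', evc_act, hc, ih _ (i1 (by norm_num)), ih _ (i2 (by norm_num))]
    · intro k hk _ _ _ _
      rw [ev_default _ _ _ _ (Or.inr hk), evc_default _ _ _ hk, h0]

theorem ev_free (r : ℕ → ℕ → Prop) (s : ℕ → Prop) (e c : ℕ) :
    ev (free r s) c (lk e) = evc e c :=
  ev_hom (free r s) id rfl rfl rfl (fun _ => rfl) (fun _ _ => rfl) (fun _ _ => rfl)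
    (fun _ _ => rfl) e c

/-! ### primitive recursiveness -/

theorem primrec_ofE : Primrec ofE :=
  Primrec.option_getD.comp Primrec.decode (Primrec.const [])

theorem primrec_lk : Primrec₂ lk :=
  Primrec.option_getD.comp (Primrec.listLookup.comp Primrec.snd (primrec_ofE.comp Primrec.fst))
    (Primrec.const zero0)

theorem primrec_cns : Primrec fun x : ℕ × ℕ × ℕ => cns x.1 x.2.1 x.2.2 :=
  Primrec.encode.comp (Primrec.list_cons.comp (Primrec.fst.pair (Primrec.fst.comp Primrec.snd))
    (primrec_ofE.comp (Primrec.snd.comp Primrec.snd)))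

/-- one step of the evaluation; `l` is the list of the values of the smaller terms -/
def evStep (e : ℕ) (l : List ℕ) : ℕ :=
  if l.length.unpair.1 = 0 then lk e l.length.unpair.2
  else if l.length.unpair.1 = 1 then Nat.pair 1 0
  else if l.length.unpair.1 = 2 then zero0
  else if l.length.unpair.1 = 3 then Nat.pair 3 0
  else if l.length.unpair.1 = 4 then Nat.pair 4 (l.getD l.length.unpair.2 0)
  else if l.length.unpair.1 ≤ 7 then Nat.pair l.length.unpair.1
    (Nat.pair (l.getD l.length.unpair.2.unpair.1 0) (l.getD l.length.unpair.2.unpair.2 0))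
  else zero0

theorem primrec_evStep : Primrec₂ evStep := by
  unfold evStep
  have hc : Primrec fun x : ℕ × List ℕ => x.2.length := Primrec.list_length.comp Primrec.snd
  have hk : Primrec fun x : ℕ × List ℕ => x.2.length.unpair.1 :=
    Primrec.fst.comp (Primrec.unpair.comp hc)
  have hm : Primrec fun x : ℕ × List ℕ => x.2.length.unpair.2 :=
    Primrec.snd.comp (Primrec.unpair.comp hc)
  have h1 : Primrec fun x : ℕ × List ℕ => x.2.length.unpair.2.unpair.1 :=
    Primrec.fst.comp (Primrec.unpair.comp hm)
  have h2 : Primrec fun x : ℕ × List ℕ => x.2.length.unpair.2.unpair.2 :=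
    Primrec.snd.comp (Primrec.unpair.comp hm)
  have he : ∀ j : ℕ, PrimrecPred fun x : ℕ × List ℕ => x.2.length.unpair.1 = j := fun j =>
    PrimrecRel.comp Primrec.eq hk (Primrec.const j)
  refine Primrec.ite (he 0) (primrec_lk.comp Primrec.fst hm) ?_
  refine Primrec.ite (he 1) (Primrec.const _) ?_
  refine Primrec.ite (he 2) (Primrec.const _) ?_
  refine Primrec.ite (he 3) (Primrec.const _) ?_
  refine Primrec.ite (he 4) (Primrec₂.natPair.comp (Primrec.const 4)
    ((Primrec.list_getD 0).comp Primrec.snd hm)) ?_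
  refine Primrec.ite (PrimrecRel.comp Primrec.nat_le hk (Primrec.const 7)) ?_ (Primrec.const _)
  exact Primrec₂.natPair.comp hk (Primrec₂.natPair.comp
    ((Primrec.list_getD 0).comp Primrec.snd h1) ((Primrec.list_getD 0).comp Primrec.snd h2))

theorem evStep_eq (e c : ℕ) : evStep e ((List.range c).map (evc e)) = evc e c := by
  have hg : ∀ i < c, ((List.range c).map (evc e)).getD i 0 = evc e i := by
    intro i hi
    simp [List.getD_eq_getElem?_getD, hi]
  have hl : ((List.range c).map (evc e)).length = c := by simp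
  unfold evStep
  rw [hl]
  obtain ⟨k, m, rfl⟩ : ∃ k m, c = Nat.pair k m := ⟨c.unpair.1, c.unpair.2, (Nat.pair_unpair c).symm⟩
  have i0 : 0 < k → m < Nat.pair k m := fun h => lt_pair_right h
  have i1 : 0 < k → m.unpair.1 < Nat.pair k m := fun h =>
    lt_of_le_of_lt (Nat.unpair_left_le m) (i0 h)
  have i2 : 0 < k → m.unpair.2 < Nat.pair k m := fun h =>
    lt_of_le_of_lt (Nat.unpair_right_le m) (i0 h)
  rw [Nat.unpair_pair]
  dsimp only
  by_cases h8 : 8 ≤ k
  · rw [if_neg (by omega), if_neg (by omega), if_neg (by omega), if_neg (by omega),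
      if_neg (by omega), if_neg (by omega), evc_default _ _ _ h8]
  · by_cases hk : k = 0
    · subst hk; rw [if_pos rfl, evc_var]
    · have hk' : 0 < k := Nat.pos_of_ne_zero hk
      rw [hg _ (i0 hk'), hg _ (i1 hk'), hg _ (i2 hk')]
      interval_cases k
      · rw [if_neg (by omega), if_pos rfl, evc_t]
      · rw [if_neg (by omega), if_neg (by omega), if_pos rfl, evc_zero]
      · rw [if_neg (by omega), if_neg (by omega), if_neg (by omega), if_pos rfl, evc_one]
      · rw [if_neg (by omega), if_neg (by omega), if_neg (by omega), if_neg (by omega), if_pos rfl,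
          evc_neg]
      · rw [if_neg (by omega), if_neg (by omega), if_neg (by omega), if_neg (by omega),
          if_neg (by omega), if_pos (by omega), evc_add]
      · rw [if_neg (by omega), if_neg (by omega), if_neg (by omega), if_neg (by omega),
          if_neg (by omega), if_pos (by omega), evc_mul]
      · rw [if_neg (by omega), if_neg (by omega), if_neg (by omega), if_neg (by omega),
          if_neg (by omega), if_pos (by omega), evc_act]

theorem primrec_evc : Primrec₂ evc :=
  Primrec.nat_strong_rec evc (g := fun e l => some (evStep e l))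
    (Primrec.option_some.comp₂ primrec_evStep) fun e c => by rw [evStep_eq]

end Pool.Agent.H92.Tilt.Enum
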