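import Pool.Agent.H92.Tilt.Enum1
import Pool.Agent.H92.Tilt.Enum2

/-!
Module ENUM, part 3 (helper53): the conditions describing a Henkin model, soundness and completeness.
-/

set_option autoImplicit false

namespace Pool.Agent.H92.Tilt.Enum

/-- atom: truth of the raw formula `c` in the environment `e` -/
def aT (c e : ℕ) : ℕ := Nat.pair 0 (Nat.pair c e)
/-- atom: equality of `a` and `b` -/
def aE (a b : ℕ) : ℕ := Nat.pair 1 (Nat.pair a b)
/-- atom: membership of `a` in `O` -/
def aI (a : ℕ) : ℕ := Nat.pair 2 a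

/-- Henkin witness -/
def wit (c e : ℕ) : ℕ := Nat.pair 8 (Nat.pair c e)

/-- the raw equation `act x1 x0 = x0` -/
def fxe : ℕ := Nat.pair 0 (Nat.pair (Nat.pair 7 (Nat.pair (Nat.pair 0 1) (Nat.pair 0 0)))
  (Nat.pair 0 0))

/-- the raw formula `∀ x1, act x1 x0 = x0` -/
def fx : ℕ := Nat.pair 5 (Nat.pair 1 fxe)

/-- the second atom of the condition for `(c, e, x)` -/
noncomputable def at2 (k m e x : ℕ) : ℕ :=
  if k = 0 then aE (evc e m.unpair.1) (evc e m.unpair.2)
  else if k = 1 then aI (evc e m)
  else if k = 2 then aT m e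
  else if k = 3 then aT m.unpair.1 e
  else if k = 4 then aT fx (cns 0 x 0)
  else aT m.unpair.2 (cns m.unpair.1 x e)

/-- the third atom of the condition for `(c, e, x)` -/
def at3 (k m e x : ℕ) : ℕ :=
  if k = 3 then aT m.unpair.2 e else aT m.unpair.2 (cns m.unpair.1 x e)

/-- the condition for `(c, e, x)` -/
noncomputable def gen (c e x : ℕ) : Cond :=
  (c.unpair.1, decide (x = wit c e), aT c e, at2 c.unpair.1 c.unpair.2 e x,
    at3 c.unpair.1 c.unpair.2 e x)

theorem gen_pair (k m e x : ℕ) : gen (Nat.pair k m) e x =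
    (k, decide (x = wit (Nat.pair k m) e), aT (Nat.pair k m) e, at2 k m e x, at3 k m e x) := by
  rw [gen, Nat.unpair_pair]

/-- the condition that the formula `c` is true -/
def tru (c : ℕ) : Cond := (6, false, aT c 0, aT c 0, aT c 0)

/-- all conditions -/
noncomputable def conds (Γ : ℕ → ℕ) (c0 i : ℕ) : Cond :=
  cond (decide (i.unpair.1 = 0)) (tru (Γ i.unpair.2))
    (cond (decide (i.unpair.1 = 1)) (tru c0)
      (gen i.unpair.2.unpair.1 i.unpair.2.unpair.2.unpair.1 i.unpair.2.unpair.2.unpair.2))

/-! ### computability -/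

theorem primrec_aT : Primrec₂ aT :=
  Primrec₂.natPair.comp (Primrec.const 0) (Primrec₂.natPair.comp Primrec.fst Primrec.snd)

theorem primrec_aE : Primrec₂ aE :=
  Primrec₂.natPair.comp (Primrec.const 1) (Primrec₂.natPair.comp Primrec.fst Primrec.snd)

theorem primrec_aI : Primrec aI :=
  Primrec₂.natPair.comp (Primrec.const 2) Primrec.id

theorem primrec_wit : Primrec₂ wit :=
  Primrec₂.natPair.comp (Primrec.const 8) (Primrec₂.natPair.comp Primrec.fst Primrec.snd)

section

variable {α : Type*} [Primcodable α]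

theorem pr_cns {n a e : α → ℕ} (hn : Primrec n) (ha : Primrec a) (he : Primrec e) :
    Primrec fun x => cns (n x) (a x) (e x) :=
  primrec_cns.comp (hn.pair (ha.pair he))

theorem pr_at2 {k m e x : α → ℕ} (hk : Primrec k) (hm : Primrec m) (he : Primrec e)
    (hx : Primrec x) : Primrec fun y => at2 (k y) (m y) (e y) (x y) := by
  have h1 : Primrec fun y => (m y).unpair.1 := Primrec.fst.comp (Primrec.unpair.comp hm)
  have h2 : Primrec fun y => (m y).unpair.2 := Primrec.snd.comp (Primrec.unpair.comp hm)
  have hj : ∀ j : ℕ, PrimrecPred fun y => k y = j := fun j =>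
    PrimrecRel.comp Primrec.eq hk (Primrec.const j)
  unfold at2
  refine Primrec.ite (hj 0) (primrec_aE.comp (primrec_evc.comp he h1) (primrec_evc.comp he h2)) ?_
  refine Primrec.ite (hj 1) (primrec_aI.comp (primrec_evc.comp he hm)) ?_
  refine Primrec.ite (hj 2) (primrec_aT.comp hm he) ?_
  refine Primrec.ite (hj 3) (primrec_aT.comp h1 he) ?_
  refine Primrec.ite (hj 4) (primrec_aT.comp (Primrec.const fx)
    (pr_cns (Primrec.const 0) hx (Primrec.const 0))) ?_
  exact primrec_aT.comp h2 (pr_cns h1 hx he)

theorem pr_at3 {k m e x : α → ℕ} (hk : Primrec k) (hm : Primrec m) (he : Primrec e)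
    (hx : Primrec x) : Primrec fun y => at3 (k y) (m y) (e y) (x y) := by
  have h1 : Primrec fun y => (m y).unpair.1 := Primrec.fst.comp (Primrec.unpair.comp hm)
  have h2 : Primrec fun y => (m y).unpair.2 := Primrec.snd.comp (Primrec.unpair.comp hm)
  unfold at3
  refine Primrec.ite (PrimrecRel.comp Primrec.eq hk (Primrec.const 3)) (primrec_aT.comp h2 he) ?_
  exact primrec_aT.comp h2 (pr_cns h1 hx he)

theorem pr_gen {c e x : α → ℕ} (hc : Primrec c) (he : Primrec e) (hx : Primrec x) :
    Primrec fun y => gen (c y) (e y) (x y) := by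
  have h1 : Primrec fun y => (c y).unpair.1 := Primrec.fst.comp (Primrec.unpair.comp hc)
  have h2 : Primrec fun y => (c y).unpair.2 := Primrec.snd.comp (Primrec.unpair.comp hc)
  exact h1.pair ((PrimrecPred.decide (PrimrecRel.comp Primrec.eq hx (primrec_wit.comp hc he))).pair
    ((primrec_aT.comp hc he).pair ((pr_at2 h1 h2 he hx).pair (pr_at3 h1 h2 he hx))))

end

theorem primrec_tru : Primrec tru := by
  have h : Primrec fun c : ℕ => aT c 0 := primrec_aT.comp Primrec.id (Primrec.const 0)
  exact (Primrec.const 6).pair ((Primrec.const false).pair (h.pair (h.pair h)))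

theorem computable_conds {Γ : ℕ → ℕ} (hΓ : Computable Γ) : Computable₂ (conds Γ) := by
  have hi : Primrec fun y : ℕ × ℕ => y.2 := Primrec.snd
  have h1 : Primrec fun y : ℕ × ℕ => y.2.unpair.1 := Primrec.fst.comp (Primrec.unpair.comp hi)
  have h2 : Primrec fun y : ℕ × ℕ => y.2.unpair.2 := Primrec.snd.comp (Primrec.unpair.comp hi)
  have h21 : Primrec fun y : ℕ × ℕ => y.2.unpair.2.unpair.1 :=
    Primrec.fst.comp (Primrec.unpair.comp h2)
  have h22 : Primrec fun y : ℕ × ℕ => y.2.unpair.2.unpair.2 :=
    Primrec.snd.comp (Primrec.unpair.comp h2)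
  have h221 : Primrec fun y : ℕ × ℕ => y.2.unpair.2.unpair.2.unpair.1 :=
    Primrec.fst.comp (Primrec.unpair.comp h22)
  have h222 : Primrec fun y : ℕ × ℕ => y.2.unpair.2.unpair.2.unpair.2 :=
    Primrec.snd.comp (Primrec.unpair.comp h22)
  have d : ∀ j : ℕ, Primrec fun y : ℕ × ℕ => decide (y.2.unpair.1 = j) := fun j =>
    PrimrecPred.decide (PrimrecRel.comp Primrec.eq h1 (Primrec.const j))
  unfold conds
  refine Computable.cond (d 0).to_comp (primrec_tru.to_comp.comp (hΓ.comp h2.to_comp)) ?_
  refine Computable.cond (d 1).to_comp (primrec_tru.to_comp.comp Computable.fst) ?_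
  exact (pr_gen h21 h221 h222).to_comp

/-! ### semantics of the auxiliary formula -/

theorem sem_fx (S : Str) (e : ℕ → S.D) : sem S fx e ↔ S.fixd (e 0) := by
  unfold fx fxe
  rw [sem_all]
  unfold Str.fixd
  refine forall_congr' fun g => ?_
  rw [sem_eq, ev_act, ev_var, ev_var, Function.update_self, Function.update_of_ne (by norm_num)]

/-! ### soundness: a structure gives a truth assignment -/

open Classical in
/-- a witness in the structure `S` -/
noncomputable def wS (S : Str) (c : ℕ) (e : ℕ → S.D) : S.D :=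
  if h : ∃ x, (c.unpair.1 = 4 → S.fixd x) ∧
    ¬ sem S c.unpair.2.unpair.2 (Function.update e c.unpair.2.unpair.1 x) then h.choose else S.zero

theorem wS_spec (S : Str) (c : ℕ) (e : ℕ → S.D) (h : ∃ x, (c.unpair.1 = 4 → S.fixd x) ∧
    ¬ sem S c.unpair.2.unpair.2 (Function.update e c.unpair.2.unpair.1 x)) :
    (c.unpair.1 = 4 → S.fixd (wS S c e)) ∧
    ¬ sem S c.unpair.2.unpair.2 (Function.update e c.unpair.2.unpair.1 (wS S c e)) := by
  unfold wS
  rw [dif_pos h]
  exact h.choose_spec

/-- interpretation of the natural numbers in `S` -/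
noncomputable def val (S : Str) (n : ℕ) : S.D :=
  match _h : n.unpair with
  | (1, _) => S.t
  | (3, _) => S.one
  | (4, a) => S.neg (val S a)
  | (5, m) => S.add (val S m.unpair.1) (val S m.unpair.2)
  | (6, m) => S.mul (val S m.unpair.1) (val S m.unpair.2)
  | (7, m) => S.act (val S m.unpair.1) (val S m.unpair.2)
  | (8, m) => wS S m.unpair.1 (fun j =>
      if _hj : lk m.unpair.2 j < m.unpair.2 then val S (lk m.unpair.2 j) else S.zero)
  | _ => S.zero
termination_by n
decreasing_by
  · exact unpair_lt _h (by norm_num)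
  · exact unpair_lt1 _h (by norm_num)
  · exact unpair_lt2 _h (by norm_num)
  · exact unpair_lt1 _h (by norm_num)
  · exact unpair_lt2 _h (by norm_num)
  · exact unpair_lt1 _h (by norm_num)
  · exact unpair_lt2 _h (by norm_num)
  · exact lt_trans _hj (unpair_lt2 _h (by norm_num))

section valeq

variable (S : Str)

theorem val_zero : val S zero0 = S.zero := by
  rw [zero0, val]; split <;> simp_all
theorem val_t : val S (Nat.pair 1 0) = S.t := by
  rw [val]; split <;> simp_all
theorem val_one : val S (Nat.pair 3 0) = S.one := by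
  rw [val]; split <;> simp_all
theorem val_neg (a : ℕ) : val S (Nat.pair 4 a) = S.neg (val S a) := by
  rw [val]; split <;> simp_all
theorem val_add (a b : ℕ) : val S (Nat.pair 5 (Nat.pair a b)) = S.add (val S a) (val S b) := by
  rw [val]; split <;> simp_all; subst_vars; simp
theorem val_mul (a b : ℕ) : val S (Nat.pair 6 (Nat.pair a b)) = S.mul (val S a) (val S b) := by
  rw [val]; split <;> simp_all; subst_vars; simp
theorem val_act (a b : ℕ) : val S (Nat.pair 7 (Nat.pair a b)) = S.act (val S a) (val S b) := by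
  rw [val]; split <;> simp_all; subst_vars; simp

theorem val_wit (c e : ℕ) : val S (wit c e) = wS S c (fun j => val S (lk e j)) := by
  have h : val S (wit c e) = wS S c (fun j =>
      if lk e j < e then val S (lk e j) else S.zero) := by
    rw [wit, val]; split <;> simp_all; subst_vars; simp
  rw [h]
  congr 1
  funext j
  split_ifs with hj
  · rfl
  · rcases lk_lt e j with h1 | h1
    · exact absurd h1 hj
    · rw [h1, val_zero]

theorem ev_val (e c : ℕ) : ev S c (fun n => val S (lk e n)) = val S (evc e c) :=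
  ev_hom S (val S) (val_zero S) (val_one S) (val_t S) (val_neg S) (val_add S) (val_mul S)
    (val_act S) e c

theorem val_cns (n a e : ℕ) : (fun j => val S (lk (cns n a e) j)) =
    Function.update (fun j => val S (lk e j)) n (val S a) := by
  funext j
  rw [lk_cns]
  by_cases h : j = n
  · subst h; simp
  · rw [Function.update_of_ne h, Function.update_of_ne h]

/-- truth of an atom in `S` -/
def tr (n : ℕ) : Prop :=
  if n.unpair.1 = 0 then sem S n.unpair.2.unpair.1 (fun j => val S (lk n.unpair.2.unpair.2 j))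
  else if n.unpair.1 = 1 then S.eq (val S n.unpair.2.unpair.1) (val S n.unpair.2.unpair.2)
  else S.inO (val S n.unpair.2)

theorem tr_aT (c e : ℕ) : tr S (aT c e) ↔ sem S c (fun j => val S (lk e j)) := by
  simp [tr, aT]
theorem tr_aE (a b : ℕ) : tr S (aE a b) ↔ S.eq (val S a) (val S b) := by
  simp [tr, aE]
theorem tr_aI (a : ℕ) : tr S (aI a) ↔ S.inO (val S a) := by
  simp [tr, aI]

end valeq

open Classical in
theorem sat_gen (S : Str) (c e x : ℕ) : sat (fun n => decide (tr S n)) (gen c e x) = true := by
  obtain ⟨k, m, rfl⟩ : ∃ k m, c = Nat.pair k m := ⟨c.unpair.1, c.unpair.2, (Nat.pair_unpair c).symm⟩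
  rw [gen_pair]
  unfold sat
  dsimp only
  have h4 : ∀ y, tr S (aT fx (cns 0 y 0)) ↔ S.fixd (val S y) := by
    intro y
    rw [tr_aT, sem_fx, lk_cns, Function.update_self]
  have hupd : ∀ y, tr S (aT m.unpair.2 (cns m.unpair.1 y e)) ↔
      sem S m.unpair.2 (Function.update (fun j => val S (lk e j)) m.unpair.1 (val S y)) := by
    intro y
    rw [tr_aT, val_cns]
  by_cases h6 : 6 ≤ k
  · have h1 : tr S (aT (Nat.pair k m) e) := by
      rw [tr_aT, sem_default _ _ _ _ h6]; trivial
    unfold cnd
    rw [if_neg (by omega), if_neg (by omega), if_neg (by omega), if_neg (by omega),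
      if_neg (by omega)]
    simpa using h1
  · have h5 : k < 6 := not_le.mp h6
    interval_cases k
    · have h1 : tr S (aT (Nat.pair 0 m) e) ↔ tr S (at2 0 m e x) := by
        rw [tr_aT, sem_eq', at2, if_pos rfl, tr_aE, ev_val, ev_val]
      simp [cnd, h1]
    · have h1 : tr S (aT (Nat.pair 1 m) e) ↔ tr S (at2 1 m e x) := by
        rw [tr_aT, sem_inO, at2, if_neg (by norm_num), if_pos rfl, tr_aI, ev_val]
      simp [cnd, h1]
    · have h1 : tr S (aT (Nat.pair 2 m) e) ↔ ¬ tr S (at2 2 m e x) := by
        rw [tr_aT, sem_neg, at2, if_neg (by norm_num), if_neg (by norm_num), if_pos rfl, tr_aT]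
      simp [cnd, h1]
    · have h1 : tr S (aT (Nat.pair 3 m) e) ↔ tr S (at2 3 m e x) ∧ tr S (at3 3 m e x) := by
        rw [tr_aT, sem_and', at2, if_neg (by norm_num), if_neg (by norm_num), if_neg (by norm_num),
          if_pos rfl, tr_aT, at3, if_pos rfl, tr_aT]
      simp [cnd, h1]
    · -- relative quantifier
      have h1 : tr S (aT (Nat.pair 4 m) e) ↔ ∀ a : S.D, S.fixd a → sem S m.unpair.2
          (Function.update (fun j => val S (lk e j)) m.unpair.1 a) := by
        rw [tr_aT, sem_allK']
      have h2 : tr S (at2 4 m e x) ↔ S.fixd (val S x) := by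
        rw [at2, if_neg (by norm_num), if_neg (by norm_num), if_neg (by norm_num),
          if_neg (by norm_num), if_pos rfl, h4]
      have h3 : tr S (at3 4 m e x) ↔
          sem S m.unpair.2 (Function.update (fun j => val S (lk e j)) m.unpair.1 (val S x)) := by
        rw [at3, if_neg (by norm_num), hupd]
      by_cases hT : tr S (aT (Nat.pair 4 m) e)
      · have h5 : tr S (at2 4 m e x) → tr S (at3 4 m e x) := fun h => h3.2 (h1.1 hT _ (h2.1 h))
        by_cases h6 : tr S (at2 4 m e x)
        · simp [cnd, hT, h6, h5 h6]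
        · simp [cnd, hT, h6]
      · by_cases hx : x = wit (Nat.pair 4 m) e
        · have h5 : ∃ y, ((Nat.pair 4 m).unpair.1 = 4 → S.fixd y) ∧
              ¬ sem S (Nat.pair 4 m).unpair.2.unpair.2
                (Function.update (fun j => val S (lk e j)) (Nat.pair 4 m).unpair.2.unpair.1 y) := by
            rw [h1] at hT
            push Not at hT
            obtain ⟨y, hy, hy'⟩ := hT
            refine ⟨y, fun _ => hy, ?_⟩
            rw [Nat.unpair_pair]
            exact hy'
          have h6 := wS_spec S (Nat.pair 4 m) (fun j => val S (lk e j)) h5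
          rw [← val_wit, ← hx, Nat.unpair_pair] at h6
          have h7 : tr S (at2 4 m e x) := h2.2 (h6.1 rfl)
          have h8 : ¬ tr S (at3 4 m e x) := fun h => h6.2 (h3.1 h)
          simp [cnd, hT, h7, h8]
        · simp [cnd, hT, hx]
    · have h1 : tr S (aT (Nat.pair 5 m) e) ↔ ∀ a : S.D, sem S m.unpair.2
          (Function.update (fun j => val S (lk e j)) m.unpair.1 a) := by
        rw [tr_aT, sem_all']
      have h3 : tr S (at2 5 m e x) ↔
          sem S m.unpair.2 (Function.update (fun j => val S (lk e j)) m.unpair.1 (val S x)) := by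
        rw [at2, if_neg (by norm_num), if_neg (by norm_num), if_neg (by norm_num),
          if_neg (by norm_num), if_neg (by norm_num), hupd]
      by_cases hT : tr S (aT (Nat.pair 5 m) e)
      · have h5 : tr S (at2 5 m e x) := h3.2 (h1.1 hT _)
        simp [cnd, hT, h5]
      · by_cases hx : x = wit (Nat.pair 5 m) e
        · have h5 : ∃ y, ((Nat.pair 5 m).unpair.1 = 4 → S.fixd y) ∧
              ¬ sem S (Nat.pair 5 m).unpair.2.unpair.2
                (Function.update (fun j => val S (lk e j)) (Nat.pair 5 m).unpair.2.unpair.1 y) := by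
            rw [h1] at hT
            push Not at hT
            obtain ⟨y, hy'⟩ := hT
            refine ⟨y, fun h => ?_, ?_⟩
            · rw [Nat.unpair_pair] at h
              norm_num at h
            · rw [Nat.unpair_pair]
              exact hy'
          have h6 := wS_spec S (Nat.pair 5 m) (fun j => val S (lk e j)) h5
          rw [← val_wit, ← hx, Nat.unpair_pair] at h6
          have h8 : ¬ tr S (at2 5 m e x) := fun h => h6.2 (h3.1 h)
          simp [cnd, hT, h8]
        · simp [cnd, hT, hx]

/-! ### completeness: a truth assignment gives a structure -/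

/-- the Henkin structure of a truth assignment -/
abbrev hen (v : ℕ → Bool) : Str := free (fun a b => v (aE a b) = true) (fun a => v (aI a) = true)

section comp

variable {v : ℕ → Bool} (hv : ∀ c e x, sat v (gen c e x) = true)

include hv

theorem c_eq (m e : ℕ) : v (aT (Nat.pair 0 m) e) = v (aE (evc e m.unpair.1) (evc e m.unpair.2)) := by
  have h := hv (Nat.pair 0 m) e 0
  rw [gen_pair] at h
  simpa [sat, cnd, at2] using h

theorem c_inO (m e : ℕ) : v (aT (Nat.pair 1 m) e) = v (aI (evc e m)) := by
  have h := hv (Nat.pair 1 m) e 0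
  rw [gen_pair] at h
  simpa [sat, cnd, at2] using h

theorem c_neg (m e : ℕ) : v (aT (Nat.pair 2 m) e) = !v (aT m e) := by
  have h := hv (Nat.pair 2 m) e 0
  rw [gen_pair] at h
  simpa [sat, cnd, at2] using h

theorem c_and (m e : ℕ) : v (aT (Nat.pair 3 m) e) = (v (aT m.unpair.1 e) && v (aT m.unpair.2 e)) := by
  have h := hv (Nat.pair 3 m) e 0
  rw [gen_pair] at h
  simpa [sat, cnd, at2, at3] using h

theorem c_all (m e : ℕ) : v (aT (Nat.pair 5 m) e) = true ↔
    ∀ x, v (aT m.unpair.2 (cns m.unpair.1 x e)) = true := by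
  constructor
  · intro h1 x
    have h := hv (Nat.pair 5 m) e x
    rw [gen_pair] at h
    simpa [sat, cnd, at2, h1] using h
  · intro h1
    have h := hv (Nat.pair 5 m) e (wit (Nat.pair 5 m) e)
    rw [gen_pair] at h
    simpa [sat, cnd, at2, h1] using h

theorem c_allK (m e : ℕ) : v (aT (Nat.pair 4 m) e) = true ↔
    ∀ x, v (aT fx (cns 0 x 0)) = true → v (aT m.unpair.2 (cns m.unpair.1 x e)) = true := by
  constructor
  · intro h1 x h2
    have h := hv (Nat.pair 4 m) e x
    rw [gen_pair] at h
    simpa [sat, cnd, at2, at3, h1, h2] using h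
  · intro h1
    have h := hv (Nat.pair 4 m) e (wit (Nat.pair 4 m) e)
    rw [gen_pair] at h
    have h2 := h1 (wit (Nat.pair 4 m) e)
    simp [sat, cnd, at2, at3] at h
    cases hb : v (aT fx (cns 0 (wit (Nat.pair 4 m) e) 0))
    · rw [hb] at h; simpa using h
    · rw [hb, h2 hb] at h; simpa using h

theorem c_default (k m e : ℕ) (h6 : 6 ≤ k) : v (aT (Nat.pair k m) e) = true := by
  have h := hv (Nat.pair k m) e 0
  rw [gen_pair] at h
  unfold sat cnd at h
  dsimp only at h
  rw [if_neg (by omega), if_neg (by omega), if_neg (by omega), if_neg (by omega),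
      if_neg (by omega)] at h
  exact h

theorem c_fx (x : ℕ) : v (aT fx (cns 0 x 0)) = true ↔ (hen v).fixd x := by
  have h1 : ∀ y, v (aT fxe (cns 1 y (cns 0 x 0))) =
      v (aE (Nat.pair 7 (Nat.pair y x)) x) := by
    intro y
    unfold fxe
    rw [c_eq hv, Nat.unpair_pair]
    dsimp only
    rw [evc_act, Nat.unpair_pair]
    dsimp only
    rw [evc_var, evc_var, lk_cns, lk_cns, Function.update_self,
      Function.update_of_ne (by norm_num), Function.update_self]
  unfold fx
  rw [c_all hv, Nat.unpair_pair]
  dsimp only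
  simp only [h1]
  exact Iff.rfl

theorem c_sem (c : ℕ) : ∀ e, v (aT c e) = true ↔ sem (hen v) c (lk e) := by
  induction c using Nat.strong_induction_on with
  | _ c ih =>
    obtain ⟨k, m, rfl⟩ : ∃ k m, c = Nat.pair k m := ⟨c.unpair.1, c.unpair.2, (Nat.pair_unpair c).symm⟩
    have i0 : 0 < k → m < Nat.pair k m := fun h => lt_pair_right h
    have i1 : 0 < k → m.unpair.1 < Nat.pair k m := fun h =>
      lt_of_le_of_lt (Nat.unpair_left_le m) (i0 h)
    have i2 : 0 < k → m.unpair.2 < Nat.pair k m := fun h =>
      lt_of_le_of_lt (Nat.unpair_right_le m) (i0 h)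
    intro e
    by_cases h6 : 6 ≤ k
    · exact ⟨fun _ => (sem_default (hen v) (lk e) k m h6).2 trivial, fun _ => c_default hv k m e h6⟩
    · have h5 : k < 6 := not_le.mp h6
      interval_cases k
      · rw [c_eq hv]
        refine Iff.trans ?_ (sem_eq' (hen v) (lk e) m).symm
        rw [ev_free, ev_free]
        exact Iff.rfl
      · rw [c_inO hv]
        refine Iff.trans ?_ (sem_inO (hen v) (lk e) m).symm
        rw [ev_free]
        exact Iff.rfl
      · rw [c_neg hv]
        refine Iff.trans ?_ (sem_neg (hen v) (lk e) m).symm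
        rw [← ih _ (i0 (by norm_num))]
        simp
      · rw [c_and hv]
        refine Iff.trans ?_ (sem_and' (hen v) (lk e) m).symm
        rw [← ih _ (i1 (by norm_num)), ← ih _ (i2 (by norm_num))]
        simp
      · rw [c_allK hv]
        refine Iff.trans ?_ (sem_allK' (hen v) (lk e) m).symm
        refine forall_congr' fun x => ?_
        rw [c_fx hv, ih _ (i2 (by norm_num)), lk_cns]
        exact Iff.rfl
      · rw [c_all hv]
        refine Iff.trans ?_ (sem_all' (hen v) (lk e) m).symm
        refine forall_congr' fun x => ?_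
        rw [ih _ (i2 (by norm_num)), lk_cns]
        exact Iff.rfl

end comp

end Pool.Agent.H92.Tilt.Enum
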