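import Pool.Agent.H92.Tilt.Raw
import Pool.Agent.H92.Tilt.Enum3

/-!
Module ENUM: unsatisfiability of a computable set of raw formulas of the package language is
recursively enumerable.

Propositional compactness. Atoms are natural numbers: `T(c, e)` (truth of the raw formula `c` in the
environment coded by `e`), `E(a, b)` (equality), `I(a)` (membership in `O`). The domain is `ℕ` with free
operations: `zero := pair 2 0`, `one := pair 3 0`, `t := pair 1 0`, `neg a := pair 4 a`,
`add a b := pair 5 (pair a b)`, .., `act a b := pair 7 (pair a b)`, Henkin witnesses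
`wit c e := pair 8 (pair c e)`. An environment code `e` is the code of a list of pairs (variable, value), the
first match counts, default value `zero`; `upd e n a` puts `(n, a)` in front. `ev' c e : ℕ` evaluates raw terms
(primitive recursive, `Primrec.nat_strong_rec`). Clauses, for all `c, e` (by the tag of `c`):
`0`: `T(c,e) ↔ E(ev' s e, ev' t e)`; `1`: `T(c,e) ↔ I(ev' a e)`; `2`, `3`: negation, conjunction;
`5` (`c = pair 5 (pair n a)`): `T(c,e) → T(a, upd e n x)` for all `x`; `T(a, upd e n (wit c e)) → T(c,e)`;
`4`: the same relative to `fixd`, expressed by `T(fx, [(0, x)])`, `fx := ∀ x1, act x1 x0 = x0`; `≥ 6`: `T(c,e)`;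
and `T(Γ m, [])`, and `T(c0, [])` for the given formula `c0`. All clauses are finite lists of literals,
enumerated by a computable function of `(c0, index)`. `step c0 n`: the first `n` clauses are not
simultaneously satisfiable (finite search over the truth values of the finitely many atoms).
If the clauses are satisfiable, the structure on `ℕ` with `eq := E`, `inO := I` satisfies
`sem c e ↔ T(c, e)` by strong induction on `c`. If a structure `M` satisfies `Γ` and `c0`, interpret
`n : ℕ` in `M` by recursion (witnesses by choice) and read off a truth assignment.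
If every finite set of clauses is satisfiable then so are all (compactness of `ℕ → Bool`).
-/

set_option autoImplicit false

namespace Pool.Agent.H92.Tilt

/-- `S` satisfies the axioms `Γ` and the formula `c`, all variables being `zero`. -/
def Mod (S : Str) (Γ : ℕ → ℕ) (c : ℕ) : Prop :=
  (∀ m, sem S (Γ m) (fun _ => S.zero)) ∧ sem S c (fun _ => S.zero)

open Enum in
theorem enum_unsat (Γ : ℕ → ℕ) (hΓ : Computable Γ) :
    ∃ step : ℕ → ℕ → Bool, Computable₂ step ∧
      ∀ c, (∃ n, step c n = true) ↔ ¬ ∃ S : Str, Mod S Γ c := by
  obtain ⟨step, h1, h2⟩ := enum_cond (conds Γ) (computable_conds hΓ)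
  refine ⟨step, h1, fun c => (h2 c).trans (not_congr ?_)⟩
  have hlk : lk 0 = fun _ => zero0 := funext lk_zero
  constructor
  · rintro ⟨v, hv⟩
    have hg : ∀ c e x, sat v (gen c e x) = true := by
      intro c e x
      have h := hv (Nat.pair 2 (Nat.pair c (Nat.pair e x)))
      simpa [conds] using h
    have ht : ∀ c, sat v (tru c) = v (aT c 0) := by
      intro c
      simp [sat, tru, cnd]
    refine ⟨hen v, fun m => ?_, ?_⟩
    · have h := hv (Nat.pair 0 m)
      simp only [conds, Nat.unpair_pair, decide_true, cond_true] at h
      rw [ht, c_sem hg, hlk] at h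
      exact h
    · have h := hv (Nat.pair 1 0)
      simp only [conds, Nat.unpair_pair, one_ne_zero, decide_false, decide_true, cond_true,
        cond_false] at h
      rw [ht, c_sem hg, hlk] at h
      exact h
  · rintro ⟨S, hS1, hS2⟩
    classical
    refine ⟨fun n => decide (tr S n), fun i => ?_⟩
    have hz : (fun j => val S (lk 0 j)) = fun _ => S.zero := by
      funext j; rw [lk_zero, val_zero]
    have ht : ∀ c, sem S c (fun _ => S.zero) → sat (fun n => decide (tr S n)) (tru c) = true := by
      intro c hc
      have h : tr S (aT c 0) := by rw [tr_aT, hz]; exact hc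
      simp [sat, tru, cnd, h]
    unfold conds
    by_cases h0 : i.unpair.1 = 0
    · rw [decide_eq_true h0, cond_true]
      exact ht _ (hS1 _)
    · rw [decide_eq_false h0, cond_false]
      by_cases h1 : i.unpair.1 = 1
      · rw [decide_eq_true h1, cond_true]
        exact ht _ hS2
      · rw [decide_eq_false h1, cond_false]
        exact sat_gen S _ _ _

/-- If all models of `Γ` agree with the model `S0` on the formulas `N c`, then truth of `N c` in `S0` is
decidable. (Search for `n` with `step (N c) n` or `step (¬ N c) n`.) -/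
theorem decide_of_complete (Γ : ℕ → ℕ) (hΓ : Computable Γ) (S0 : Str)
    (h0 : ∀ m, sem S0 (Γ m) (fun _ => S0.zero)) (N : ℕ → ℕ) (hN : Computable N)
    (hc : ∀ c, ∀ S : Str, (∀ m, sem S (Γ m) (fun _ => S.zero)) →
      (sem S (N c) (fun _ => S.zero) ↔ sem S0 (N c) (fun _ => S0.zero))) :
    ∃ f : ℕ → Bool, Computable f ∧ ∀ c, (f c = true ↔ sem S0 (N c) (fun _ => S0.zero)) := by
  classical
  obtain ⟨step, h1, h2⟩ := enum_unsat Γ hΓ
  have hNc : Computable fun c => Nat.pair 2 (N c) :=
    (Primrec₂.natPair.comp (Primrec.const 2) Primrec.id).to_comp.comp hN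
  have hneg : Computable₂ fun c n => step (Nat.pair 2 (N c)) n :=
    h1.comp (hNc.comp Computable.fst) Computable.snd
  have hpos : Computable₂ fun c n => step (N c) n :=
    h1.comp (hN.comp Computable.fst) Computable.snd
  have key1 : ∀ c, (∃ n, step (Nat.pair 2 (N c)) n = true) ↔ sem S0 (N c) (fun _ => S0.zero) := by
    intro c
    rw [h2]
    constructor
    · intro h
      by_contra hf
      exact h ⟨S0, h0, (sem_neg S0 _ _).2 hf⟩
    · rintro h ⟨S, hS1, hS2⟩
      rw [sem_neg, hc c S hS1] at hS2
      exact hS2 h
  have key2 : ∀ c, (∃ n, step (N c) n = true) ↔ ¬ sem S0 (N c) (fun _ => S0.zero) := by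
    intro c
    rw [h2]
    constructor
    · intro h hf
      exact h ⟨S0, h0, hf⟩
    · rintro h ⟨S, hS1, hS2⟩
      rw [hc c S hS1] at hS2
      exact h hS2
  have hex : ∀ c, ∃ n, (step (Nat.pair 2 (N c)) n || step (N c) n) = true := by
    intro c
    by_cases h : sem S0 (N c) (fun _ => S0.zero)
    · obtain ⟨n, hn⟩ := (key1 c).2 h
      exact ⟨n, by simp [hn]⟩
    · obtain ⟨n, hn⟩ := (key2 c).2 h
      exact ⟨n, by simp [hn]⟩
  have hor : Computable₂ fun c n => (step (Nat.pair 2 (N c)) n || step (N c) n) :=
    Primrec.or.to_comp.comp hneg hpos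
  have hfind : Computable fun c => Nat.find (hex c) := by
    refine Computable.find (P := fun c n => (step (Nat.pair 2 (N c)) n || step (N c) n) = true)
      ?_ hex
    refine Computable.computablePred ?_
    refine Computable.of_eq hor fun x => ?_
    simp
  refine ⟨fun c => step (Nat.pair 2 (N c)) (Nat.find (hex c)), hneg.comp Computable.id hfind,
    fun c => ⟨fun h => (key1 c).1 ⟨_, h⟩, fun h => ?_⟩⟩
  have h3 := Nat.find_spec (hex c)
  rw [Bool.or_eq_true] at h3
  rcases h3 with h3 | h3
  · exact h3
  · exact absurd h ((key2 c).1 ⟨_, h3⟩)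

end Pool.Agent.H92.Tilt
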