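import Mathlib

/-!
The valued fields of the statement.
-/

set_option autoImplicit false

namespace Pool.Agent.H92.Tilt

variable (p : ℕ) [Fact p.Prime]

/-- The field generated over `ℚ_p` by a compatible system of `p ^ n`-th roots of `p`. -/
noncomputable def KRoot (r : ℕ → PadicAlgCl p) : IntermediateField ℚ_[p] (PadicAlgCl p) :=
  IntermediateField.adjoin ℚ_[p] (Set.range r)

/-- The field generated over `ℚ_p` by all `p ^ n`-th roots of unity. -/
noncomputable def KCyc : IntermediateField ℚ_[p] (PadicAlgCl p) :=
  IntermediateField.adjoin ℚ_[p] {z : PadicAlgCl p | ∃ n : ℕ, z ^ p ^ n = 1}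

/-- The valuation ring of an algebraic extension of `ℚ_p` inside the algebraic closure. -/
def OPadic (K : IntermediateField ℚ_[p] (PadicAlgCl p)) : Set K :=
  {x : K | ‖(x : PadicAlgCl p)‖ ≤ 1}

/-- Algebraic closure of the field of Laurent series over `𝔽_p`. -/
abbrev LAC : Type := AlgebraicClosure (LaurentSeries (ZMod p))

/-- The perfect hull of the Laurent series field `𝔽_p((t))`: the elements `x` of the algebraic
closure with `x ^ (p ^ n)` in `𝔽_p((t))` for some `n`. -/
noncomputable def FPerf : IntermediateField (LaurentSeries (ZMod p)) (LAC p) :=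
  perfectClosure (LaurentSeries (ZMod p)) (LAC p)

/-- The valuation ring of the perfect hull: `x` with `x ^ (p ^ n)` a power series, some `n`. -/
def OPerf : Set (FPerf p) :=
  {x : FPerf p | ∃ (n : ℕ) (f : PowerSeries (ZMod p)),
    (x : LAC p) ^ p ^ n = algebraMap (LaurentSeries (ZMod p)) (LAC p) (f : LaurentSeries (ZMod p))}

/-- The element `t`. -/
noncomputable def tPerf : FPerf p :=
  algebraMap (LaurentSeries (ZMod p)) (FPerf p) ((PowerSeries.X : PowerSeries (ZMod p)) :
    LaurentSeries (ZMod p))

end Pool.Agent.H92.Tilt
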