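import Pool.Agent.H92.Tilt.Pk
import Pool.Agent.H92.Tilt.Fields

/-!
Auxiliary lemmas for the module FPK (helper57): the spectral norm on the algebraic closure of the
field of Laurent series.
-/

set_option autoImplicit false

namespace Pool.Agent.H92.Tilt

namespace FPKx

open scoped NNReal

variable (p : ℕ) [Fact p.Prime]

/-- Laurent series over the prime field. -/
abbrev LS : Type := LaurentSeries (ZMod p)

/-- The variable. -/
noncomputable abbrev tL : LS p := ((PowerSeries.X : PowerSeries (ZMod p)) : LS p)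

theorem v_tL : (Valued.v (tL p) : WithZero (Multiplicative ℤ)) = WithZero.exp (-(1 : ℤ)) := by
  have h := LaurentSeries.valuation_X_pow (ZMod p) 1
  simpa using h

instance nontrivV : (Valued.v : Valuation (LS p) (WithZero (Multiplicative ℤ))).IsNontrivial where
  exists_val_nontrivial := by
    refine ⟨tL p, ?_, ?_⟩
    · rw [v_tL]
      simp
    · rw [v_tL]
      intro h
      have := WithZero.exp_lt_exp.2 (show (-(1 : ℤ)) < 0 by norm_num)
      rw [WithZero.exp_zero] at this
      exact absurd h (ne_of_lt this)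

theorem nonempty_rank1 :
    Nonempty (Valuation.RankOne (Valued.v : Valuation (LS p) (WithZero (Multiplicative ℤ)))) := by
  rw [Valuation.nonempty_rankOne_iff_mulArchimedean]
  infer_instance

noncomputable instance rank1 :
    Valuation.RankOne (Valued.v : Valuation (LS p) (WithZero (Multiplicative ℤ))) :=
  (nonempty_rank1 p).some

noncomputable instance nnf : NontriviallyNormedField (LS p) :=
  Valued.toNontriviallyNormedField (LS p) (WithZero (Multiplicative ℤ))

instance ultra : IsUltrametricDist (LS p) :=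
  inferInstanceAs (@IsUltrametricDist (LS p)
    (Valued.toNormedField (LS p) (WithZero (Multiplicative ℤ))).toDist)

instance cmpl : CompleteSpace (LS p) :=
  LaurentSeries.instLaurentSeriesComplete (K := ZMod p)

theorem norm_le_one_iff (f : LS p) : ‖f‖ ≤ 1 ↔ ∃ F : PowerSeries (ZMod p), (F : LS p) = f := by
  have h : ‖f‖ ≤ 1 ↔ (Valued.v f : WithZero (Multiplicative ℤ)) ≤ 1 :=
    Valued.toNormedField.norm_le_one_iff
  rw [h, LaurentSeries.val_le_one_iff_eq_coe]

theorem norm_tL_lt : ‖tL p‖ < 1 := by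
  have h : ‖tL p‖ < 1 ↔ (Valued.v (tL p) : WithZero (Multiplicative ℤ)) < 1 :=
    Valued.toNormedField.norm_lt_one_iff
  rw [h, v_tL]
  have := WithZero.exp_lt_exp.2 (show (-(1 : ℤ)) < 0 by norm_num)
  rwa [WithZero.exp_zero] at this

/-- The spectral norm on the algebraic closure. -/
noncomputable def N (x : LAC p) : ℝ := spectralNorm (LS p) (LAC p) x

theorem N_mul (x y : LAC p) : N p (x * y) = N p x * N p y :=
  spectralAlgNorm_mul x y

theorem N_nonneg (x : LAC p) : 0 ≤ N p x := spectralNorm_nonneg x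

theorem N_one : N p 1 = 1 := spectralNorm_one

theorem N_zero : N p 0 = 0 := spectralNorm_zero

theorem N_pos {x : LAC p} (hx : x ≠ 0) : 0 < N p x :=
  spectralNorm_zero_lt hx (Algebra.IsAlgebraic.isAlgebraic x)

theorem N_add (x y : LAC p) : N p (x + y) ≤ max (N p x) (N p y) :=
  isNonarchimedean_spectralNorm x y

theorem N_neg (x : LAC p) : N p (-x) = N p x :=
  spectralNorm_neg (Algebra.IsAlgebraic.isAlgebraic x)

theorem N_pow (x : LAC p) (n : ℕ) : N p (x ^ n) = N p x ^ n := by
  induction n with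
  | zero => simp [N_one]
  | succ n ih => rw [pow_succ, N_mul, ih, pow_succ]

theorem N_inv (x : LAC p) : N p x⁻¹ = (N p x)⁻¹ := by
  by_cases hx : x = 0
  · subst hx
    simp [N_zero]
  · apply eq_inv_of_mul_eq_one_left
    rw [← N_mul, inv_mul_cancel₀ hx, N_one]

theorem N_algebraMap (f : LS p) : N p (algebraMap (LS p) (LAC p) f) = ‖f‖ :=
  spectralNorm_extends f

theorem N_equiv (σ : LAC p ≃ₐ[LS p] LAC p) (x : LAC p) : N p (σ x) = N p x :=
  (spectralNorm_eq_of_equiv σ x).symm

/-- The valuation ring of the spectral norm. -/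
noncomputable def Osp : ValuationSubring (LAC p) where
  carrier := {x | N p x ≤ 1}
  mul_mem' := by
    intro a b ha hb
    have ha' : N p a ≤ 1 := ha
    have hb' : N p b ≤ 1 := hb
    change N p (a * b) ≤ 1
    rw [N_mul]
    exact mul_le_one₀ ha' (N_nonneg p b) hb'
  one_mem' := by
    change N p 1 ≤ 1
    rw [N_one]
  add_mem' := by
    intro a b ha hb
    exact (N_add p a b).trans (max_le ha hb)
  zero_mem' := by
    change N p 0 ≤ 1
    rw [N_zero]
    exact zero_le_one
  neg_mem' := by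
    intro a ha
    change N p (-a) ≤ 1
    rw [N_neg]
    exact ha
  mem_or_inv_mem' := by
    intro a
    rcases le_total (N p a) 1 with h | h
    · exact Or.inl h
    · right
      change N p a⁻¹ ≤ 1
      rw [N_inv]
      exact inv_le_one_of_one_le₀ h

theorem mem_Osp (x : LAC p) : x ∈ Osp p ↔ N p x ≤ 1 := Iff.rfl

theorem Osp_val_lt {x : LAC p} (h : N p x < 1) : (Osp p).valuation x < 1 := by
  by_cases hx : x = 0
  · subst hx
    rw [map_zero]
    exact zero_lt_one
  · by_contra hcon
    push Not at hcon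
    have h1 : (Osp p).valuation x⁻¹ ≤ 1 := by
      rw [map_inv₀]
      exact inv_le_one_of_one_le₀ hcon
    rw [ValuationSubring.valuation_le_one_iff, mem_Osp, N_inv] at h1
    have h2 := N_pos p hx
    have h3 : 1 ≤ N p x := by
      by_contra hlt
      push Not at hlt
      have := one_lt_inv_iff₀.2 ⟨h2, hlt⟩
      linarith
    linarith

/-- The group of automorphisms over the perfect hull. -/
def GP : Subgroup (RingAut (LAC p)) where
  carrier := {g | ∀ x : LAC p, x ∈ FPerf p → g x = x}
  mul_mem' := by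
    intro a b ha hb x hx
    have hb' := hb x hx
    change a (b x) = x
    rw [hb', ha x hx]
  one_mem' := by
    intro x _
    rfl
  inv_mem' := by
    intro a ha x hx
    have h := ha x hx
    change a.symm x = x
    rw [RingEquiv.symm_apply_eq]
    exact h.symm

theorem mem_GP (g : RingAut (LAC p)) : g ∈ GP p ↔ ∀ x : LAC p, x ∈ FPerf p → g x = x := Iff.rfl

/-- Elements of `GP` as algebra automorphisms over the Laurent series. -/
noncomputable def toAlg {g : RingAut (LAC p)} (hg : g ∈ GP p) : LAC p ≃ₐ[LS p] LAC p :=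
  AlgEquiv.ofRingEquiv (f := g) (fun r => hg _ ((FPerf p).algebraMap_mem r))

theorem N_GP {g : RingAut (LAC p)} (hg : g ∈ GP p) (x : LAC p) : N p (g x) = N p x :=
  N_equiv p (toAlg p hg) x

instance charLAC : CharP (LAC p) p := by
  have h1 : CharP (LS p) p := by
    have := charP_of_injective_algebraMap (algebraMap (ZMod p) (LS p)).injective p
    exact this
  exact charP_of_injective_algebraMap (algebraMap (LS p) (LAC p)).injective p

/-- An element fixed by all automorphisms over the perfect hull is in the perfect hull. -/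
theorem mem_FPerf_of_fixed {x : LAC p} (h : ∀ g ∈ GP p, g x = x) : x ∈ FPerf p := by
  have : PerfectField (FPerf p) := perfectClosure.perfectField (LS p) (LAC p)
  have : IsGalois (FPerf p) (LAC p) := by
    have : Algebra.IsAlgebraic (FPerf p) (LAC p) :=
      Algebra.IsAlgebraic.tower_top (K := LS p) (FPerf p)
    have : IsAlgClosure (FPerf p) (LAC p) := ⟨inferInstance, inferInstance⟩
    have : Normal (FPerf p) (LAC p) := IsAlgClosure.normal (FPerf p) (LAC p)
    exact ⟨⟩
  have h2 : x ∈ (⊥ : IntermediateField (FPerf p) (LAC p)) := by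
    rw [InfiniteGalois.mem_bot_iff_fixed]
    intro σ
    have hσ : (σ : LAC p ≃+* LAC p) ∈ GP p := by
      intro y hy
      exact σ.commutes (⟨y, hy⟩ : FPerf p)
    exact h _ hσ
  rw [IntermediateField.mem_bot] at h2
  obtain ⟨y, rfl⟩ := h2
  exact y.2

/-- Unique root of order `p ^ k`. -/
theorem exists_root (k : ℕ) (a : LAC p) : ∃ θ : LAC p, θ ^ p ^ k = a :=
  IsAlgClosed.exists_pow_nat_eq a (pow_pos (Fact.out : p.Prime).pos k)

theorem sub_pow_pk (k : ℕ) (a b : LAC p) : (a - b) ^ p ^ k = a ^ p ^ k - b ^ p ^ k :=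
  sub_pow_char_pow a b k

theorem pow_pk_inj (k : ℕ) {a b : LAC p} (h : a ^ p ^ k = b ^ p ^ k) : a = b := by
  have h1 : (a - b) ^ p ^ k = 0 := by rw [sub_pow_pk, h, sub_self]
  exact sub_eq_zero.1 (pow_eq_zero_iff (pow_pos (Fact.out : p.Prime).pos k).ne' |>.1 h1)

/-- The element `t` in the algebraic closure. -/
noncomputable abbrev tA : LAC p := algebraMap (LS p) (LAC p) (tL p)

theorem N_tA_lt : N p (tA p) < 1 := by
  rw [N_algebraMap]
  exact norm_tL_lt p

theorem tL_ne : tL p ≠ 0 := by
  intro h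
  have h1 := v_tL p
  rw [h, map_zero] at h1
  exact WithZero.exp_ne_zero h1.symm

theorem tA_ne : tA p ≠ 0 := by
  intro h
  exact tL_ne p ((algebraMap (LS p) (LAC p)).injective (by rw [map_zero]; exact h))

theorem tA_mem : tA p ∈ FPerf p := (FPerf p).algebraMap_mem (tL p)

/-- The distances of an element to its conjugates take finitely many values. -/
theorem finite_conj (a : LAC p) : (Set.range (fun g : GP p => (g : RingAut (LAC p)) a)).Finite := by
  have halg : IsAlgebraic (LS p) a := Algebra.IsAlgebraic.isAlgebraic a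
  have hne : minpoly (LS p) a ≠ 0 := minpoly.ne_zero halg.isIntegral
  apply Set.Finite.subset (((minpoly (LS p) a).rootSet (LAC p)).toFinite)
  rintro _ ⟨g, rfl⟩
  rw [Polynomial.mem_rootSet]
  refine ⟨hne, ?_⟩
  change Polynomial.aeval ((toAlg p g.2) a) (minpoly (LS p) a) = 0
  rw [Polynomial.aeval_algHom_apply, minpoly.aeval, map_zero]

theorem P4 (a : LAC p) : ∃ θ ∈ Osp p, ∀ g ∈ GP p, (g a = a → g θ = θ) ∧
    (g a ≠ a → ∃ y ∈ Osp p, tA p = (g θ - θ) * y) := by
  obtain ⟨m, hm⟩ : ∃ m : ℕ, N p (tA p ^ m * a) ≤ 1 := by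
    by_cases ha : a = 0
    · exact ⟨0, by rw [ha, mul_zero, N_zero]; exact zero_le_one⟩
    · have ha' := N_pos p ha
      obtain ⟨m, hm⟩ := exists_pow_lt_of_lt_one (inv_pos.2 ha') (N_tA_lt p)
      refine ⟨m, ?_⟩
      rw [N_mul, N_pow]
      have : N p (tA p) ^ m * N p a ≤ (N p a)⁻¹ * N p a :=
        mul_le_mul_of_nonneg_right hm.le ha'.le
      rwa [inv_mul_cancel₀ ha'.ne'] at this
  have htm : 0 < N p (tA p ^ m) := N_pos p (pow_ne_zero m (tA_ne p))
  -- a positive lower bound of the distances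
  obtain ⟨δ, hδ, hδ'⟩ : ∃ δ : ℝ, 0 < δ ∧ ∀ g ∈ GP p, g a ≠ a → δ ≤ N p (tA p ^ m * (g a - a)) := by
    have hfin : (((fun b : LAC p => N p (tA p ^ m * (b - a))) ''
        (Set.range (fun g : GP p => (g : RingAut (LAC p)) a))) ∩ Set.Ioi 0).Finite :=
      ((finite_conj p a).image _).subset Set.inter_subset_left
    by_cases hne : (((fun b : LAC p => N p (tA p ^ m * (b - a))) ''
        (Set.range (fun g : GP p => (g : RingAut (LAC p)) a))) ∩ Set.Ioi 0).Nonempty
    · obtain ⟨δ, hδmem, hδmin⟩ := hfin.isCompact.exists_isLeast hne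
      refine ⟨δ, hδmem.2, ?_⟩
      intro g hg hga
      apply hδmin
      refine ⟨⟨g a, ⟨⟨g, hg⟩, rfl⟩, rfl⟩, ?_⟩
      exact N_pos p (mul_ne_zero (pow_ne_zero m (tA_ne p)) (sub_ne_zero.2 hga))
    · refine ⟨1, one_pos, ?_⟩
      intro g hg hga
      exfalso
      apply hne
      exact ⟨_, ⟨g a, ⟨⟨g, hg⟩, rfl⟩, rfl⟩,
        N_pos p (mul_ne_zero (pow_ne_zero m (tA_ne p)) (sub_ne_zero.2 hga))⟩
  obtain ⟨k0, hk0⟩ := exists_pow_lt_of_lt_one hδ (N_tA_lt p)
  have hk1 : N p (tA p) ^ p ^ k0 ≤ δ := by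
    refine le_trans ?_ hk0.le
    apply pow_le_pow_of_le_one (N_nonneg p _) (N_tA_lt p).le
    exact (Nat.lt_pow_self (Fact.out : p.Prime).one_lt).le
  obtain ⟨θ, hθ⟩ := exists_root p k0 (tA p ^ m * a)
  have hθN : N p θ ≤ 1 := by
    by_contra hcon
    push Not at hcon
    have h1 : 1 < N p θ ^ p ^ k0 :=
      one_lt_pow₀ hcon (pow_pos (Fact.out : p.Prime).pos k0).ne'
    rw [← N_pow, hθ] at h1
    linarith
  refine ⟨θ, hθN, ?_⟩
  intro g hg
  have hgt : g (tA p) = tA p := hg _ (tA_mem p)
  have hgθ : (g θ) ^ p ^ k0 = tA p ^ m * g a := by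
    rw [← map_pow, hθ, map_mul, map_pow, hgt]
  constructor
  · intro hga
    apply pow_pk_inj p k0
    rw [hgθ, hθ, hga]
  · intro hga
    have hpow : (g θ - θ) ^ p ^ k0 = tA p ^ m * (g a - a) := by
      rw [sub_pow_pk, hgθ, hθ]
      ring
    have hne : g θ - θ ≠ 0 := by
      intro h0
      rw [h0, zero_pow (pow_pos (Fact.out : p.Prime).pos k0).ne'] at hpow
      exact mul_ne_zero (pow_ne_zero m (tA_ne p)) (sub_ne_zero.2 hga) hpow.symm
    refine ⟨tA p * (g θ - θ)⁻¹, ?_, ?_⟩
    · rw [mem_Osp, N_mul, N_inv]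
      have hpos := N_pos p hne
      rw [mul_inv_le_iff₀ hpos, one_mul]
      by_contra hcon
      push Not at hcon
      have h1 : N p (g θ - θ) ^ p ^ k0 < N p (tA p) ^ p ^ k0 :=
        pow_lt_pow_left₀ hcon (N_nonneg p _) (pow_pos (Fact.out : p.Prime).pos k0).ne'
      rw [← N_pow, hpow] at h1
      have h2 := hδ' g hg hga
      linarith
    · field_simp

theorem mem_OPerf_iff (x : FPerf p) : x ∈ OPerf p ↔ N p (x : LAC p) ≤ 1 := by
  constructor
  · rintro ⟨n, f, hf⟩
    have h1 : N p ((x : LAC p) ^ p ^ n) ≤ 1 := by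
      rw [hf, N_algebraMap, norm_le_one_iff]
      exact ⟨f, rfl⟩
    rw [N_pow] at h1
    by_contra hcon
    push Not at hcon
    have := one_lt_pow₀ hcon (pow_pos (Fact.out : p.Prime).pos n).ne'
    linarith
  · intro h
    have hx := x.2
    have : ExpChar (LS p) p := by
      have : CharP (LS p) p := by
        exact charP_of_injective_algebraMap (algebraMap (ZMod p) (LS p)).injective p
      exact ExpChar.prime (Fact.out : p.Prime)
    have hx2 : (x : LAC p) ∈ perfectClosure (LS p) (LAC p) := hx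
    rw [mem_perfectClosure_iff_pow_mem p] at hx2
    obtain ⟨n, f, hf⟩ := hx2
    have h1 : ‖f‖ ≤ 1 := by
      rw [← N_algebraMap, hf, N_pow]
      exact pow_le_one₀ (N_nonneg p _) h
    obtain ⟨F, hF⟩ := (norm_le_one_iff p f).1 h1
    exact ⟨n, F, by rw [hF, hf]⟩

/-- The package of the perfect hull. -/
noncomputable def pk : Pk p where
  Om := LAC p
  O := Osp p
  G := GP p
  t := tA p
  gO := by
    intro g hg x hx
    rw [mem_Osp] at hx ⊢
    rw [N_GP p hg]
    exact hx
  t0 := tA_ne p
  tm := Osp_val_lt p (N_tA_lt p)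
  gt := by
    intro g hg
    exact hg _ (tA_mem p)
  P4 := P4 p

/-- The perfect hull is the fixed field. -/
noncomputable def iso : FPerf p ≃+* (pk p).K where
  toFun x := ⟨(x : LAC p), fun _ hg => hg _ x.2⟩
  invFun y := ⟨(y : (pk p).Om), mem_FPerf_of_fixed p (fun g hg => y.2 g hg)⟩
  left_inv _ := rfl
  right_inv _ := rfl
  map_mul' _ _ := rfl
  map_add' _ _ := rfl

end FPKx

end Pool.Agent.H92.Tilt
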