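import Pool.Agent.H92.Tilt.PkB
import Pool.Agent.H92.Tilt.Fields
import Pool.Agent.H92.Tilt.FPkx

/-!
Module FPK: the perfect hull of `𝔽_p((t))` is the field of a package, and its truncation is a tower.

`Om = LAC p`, `G` = automorphisms over `FPerf p`. `O`: any valuation ring of `Om` with
`O ∩ FPerf = OPerf` (extension of valuation rings). `FPerf` is h-closed for it (Hensel's lemma for power
series, then `p`-power roots), so automorphisms over `FPerf` preserve `O` (`val_auto`). The values
are archimedean with respect to `t` (`val_torsion`). `P4`: `θ := (t^m a)^(1/p^k)` with `m` such that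
`t^m a ∈ O` and `k` large for the finitely many conjugates: `(g θ - θ)^(p^k) = t^m (g a - a)`.
Tower: `O ∩ FPerf` modulo `t`, `ρ n` = class of `t^(1/p^n)`: for `x^(p^n)` a power series in `t`, `x` is a power
series in `t^(1/p^n)`, congruent modulo `t` to its truncation.
-/

set_option autoImplicit false

namespace Pool.Agent.H92.Tilt

variable (p : ℕ) [Fact p.Prime]

/-- There is a package presenting `FPerf p` with its valuation ring and `t`. -/
theorem exists_FPk : ∃ (M : Pk p) (i : FPerf p ≃+* M.K),
    (∀ x, (i x : M.Om) ∈ M.O ↔ x ∈ OPerf p) ∧ (i (tPerf p) : M.Om) = M.t := by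
  refine ⟨FPKx.pk p, FPKx.iso p, ?_, ?_⟩
  · intro x
    exact (FPKx.mem_OPerf_iff p x).symm
  · rfl

end Pool.Agent.H92.Tilt
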