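import Pool.Agent.H92.Tilt.T2
import Pool.Agent.H92.Tilt.Fields

/-!
Module TOWER: the abstract truncated rings, and closing formulas.

`Tower R ρ`: every element of `R` is `Q(ρ n)`, `Q ∈ ℤ[X]`, and `Q(ρ n) = 0` iff the coefficients of `Q` of
index `< p ^ n` are divisible by `p`; `ρ (n+1) ^ p = ρ n`. Two towers are isomorphic: both are the quotient of
`MvPolynomial ℕ ℤ` by the same ideal (a polynomial in `X_0..X_n` is evaluated as `Q(ρ n)`,
`Q = P(X^(p^n), .., X^p, X)`).
-/

set_option autoImplicit false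

namespace Pool.Agent.H92.Tilt

open Polynomial

/-- The truncated ring `𝔽_p[t^(1/p^∞)] / (t)` with the elements `ρ n = t^(1/p^n)`. -/
structure Tower (p : ℕ) (R : Type*) [CommRing R] (ρ : ℕ → R) : Prop where
  pow : ∀ n, ρ (n + 1) ^ p = ρ n
  surj : ∀ x : R, ∃ (n : ℕ) (Q : Polynomial ℤ), x = aeval (ρ n) Q
  ker : ∀ (n : ℕ) (Q : Polynomial ℤ), aeval (ρ n) Q = 0 ↔ ∀ i < p ^ n, (p : ℤ) ∣ Q.coeff i

private theorem Tower.pow' {p : ℕ} {R : Type*} [CommRing R] {ρ : ℕ → R} (h : Tower p R ρ) (i m : ℕ) :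
    ρ (i + m) ^ p ^ m = ρ i := by
  induction m with
  | zero => simp
  | succ m ih =>
    rw [← ih, ← h.pow (i + m), ← pow_mul, ← pow_succ', add_assoc]

private theorem tower_pol {p : ℕ} {R R' : Type*} [CommRing R] [CommRing R']
    {ρ : ℕ → R} {ρ' : ℕ → R'} (h : Tower p R ρ) (h' : Tower p R' ρ') (P : MvPolynomial ℕ ℤ) :
    ∃ n0 : ℕ, ∀ n, n0 ≤ n → ∃ Q : Polynomial ℤ, MvPolynomial.aeval ρ P = aeval (ρ n) Q ∧
      MvPolynomial.aeval ρ' P = aeval (ρ' n) Q := by
  induction P using MvPolynomial.induction_on with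
  | C a =>
    refine ⟨0, fun n _ => ⟨C a, ?_, ?_⟩⟩
    · simp
    · simp
  | add P P' ih ih' =>
    obtain ⟨n0, hn0⟩ := ih
    obtain ⟨n1, hn1⟩ := ih'
    refine ⟨max n0 n1, fun n hn => ?_⟩
    obtain ⟨Q, hQ, hQ'⟩ := hn0 n (le_trans (le_max_left _ _) hn)
    obtain ⟨Q1, hQ1, hQ1'⟩ := hn1 n (le_trans (le_max_right _ _) hn)
    exact ⟨Q + Q1, by rw [map_add, map_add, hQ, hQ1], by rw [map_add, map_add, hQ', hQ1']⟩
  | mul_X P i ih =>
    obtain ⟨n0, hn0⟩ := ih
    refine ⟨max n0 i, fun n hn => ?_⟩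
    obtain ⟨Q, hQ, hQ'⟩ := hn0 n (le_trans (le_max_left _ _) hn)
    obtain ⟨m, rfl⟩ := Nat.exists_eq_add_of_le (le_trans (le_max_right _ _) hn)
    refine ⟨Q * X ^ p ^ m, ?_, ?_⟩
    · rw [map_mul, map_mul, hQ, MvPolynomial.aeval_X, map_pow, aeval_X, h.pow' i m]
    · rw [map_mul, map_mul, hQ', MvPolynomial.aeval_X, map_pow, aeval_X, h'.pow' i m]

private theorem Tower.surj_aeval {p : ℕ} {R : Type*} [CommRing R] {ρ : ℕ → R} (h : Tower p R ρ) :
    Function.Surjective (MvPolynomial.aeval ρ : MvPolynomial ℕ ℤ →ₐ[ℤ] R).toRingHom := by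
  intro x
  obtain ⟨n, Q, rfl⟩ := h.surj x
  refine ⟨aeval (MvPolynomial.X n) Q, ?_⟩
  change (MvPolynomial.aeval ρ) (aeval (MvPolynomial.X n) Q) = _
  rw [← Polynomial.aeval_algHom_apply, MvPolynomial.aeval_X]

private theorem tower_ker {p : ℕ} {R R' : Type*} [CommRing R] [CommRing R']
    {ρ : ℕ → R} {ρ' : ℕ → R'} (h : Tower p R ρ) (h' : Tower p R' ρ') :
    RingHom.ker (MvPolynomial.aeval ρ : MvPolynomial ℕ ℤ →ₐ[ℤ] R).toRingHom =
      RingHom.ker (MvPolynomial.aeval ρ' : MvPolynomial ℕ ℤ →ₐ[ℤ] R').toRingHom := by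
  ext P
  rw [RingHom.mem_ker, RingHom.mem_ker]
  change MvPolynomial.aeval ρ P = 0 ↔ MvPolynomial.aeval ρ' P = 0
  obtain ⟨n0, hn0⟩ := tower_pol h h' P
  obtain ⟨Q, hQ, hQ'⟩ := hn0 n0 le_rfl
  rw [hQ, hQ', h.ker, h'.ker]

theorem tower_equiv {p : ℕ} [Fact p.Prime] {R R' : Type*} [CommRing R] [CommRing R']
    {ρ : ℕ → R} {ρ' : ℕ → R'} (h : Tower p R ρ) (h' : Tower p R' ρ') :
    ∃ f : R ≃+* R', ∀ n, f (ρ n) = ρ' n := by
  let E := RingHom.quotientKerEquivOfSurjective h.surj_aeval
  let E' := RingHom.quotientKerEquivOfSurjective h'.surj_aeval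
  refine ⟨(E.symm.trans (Ideal.quotEquivOfEq (tower_ker h h'))).trans E', fun n => ?_⟩
  have h1 : E (Ideal.Quotient.mk _ (MvPolynomial.X n)) = ρ n := by
    change (MvPolynomial.aeval ρ) (MvPolynomial.X n) = _
    rw [MvPolynomial.aeval_X]
  have h2 : E' (Ideal.Quotient.mk _ (MvPolynomial.X n)) = ρ' n := by
    change (MvPolynomial.aeval ρ') (MvPolynomial.X n) = _
    rw [MvPolynomial.aeval_X]
  have h3 : E.symm (ρ n) = Ideal.Quotient.mk _ (MvPolynomial.X n) := by
    rw [RingEquiv.symm_apply_eq, h1]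
  simp only [RingEquiv.trans_apply, h3, Ideal.quotEquivOfEq_mk, h2]

private theorem rev_equiv {R R' : Type*} [CommRing R] [CommRing R'] (f : R ≃+* R') (c : ℕ)
    (e : ℕ → R) : f (rev c e) = rev c (fun n => f (e n)) := by
  induction c using Nat.strong_induction_on with
  | _ c ih =>
    rw [rev, rev]
    split
    · rename_i n h
      rfl
    · simp
    · rename_i a h
      rw [map_neg, ih a (unpair_lt h (by norm_num))]
    · rename_i m h
      rw [map_add, ih _ (unpair_lt1 h (by norm_num)), ih _ (unpair_lt2 h (by norm_num))]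
    · rename_i m h
      rw [map_mul, ih _ (unpair_lt1 h (by norm_num)), ih _ (unpair_lt2 h (by norm_num))]
    · simp

/-- Truth of raw formulas is invariant under isomorphisms. -/
theorem semTr_equiv {R R' : Type*} [CommRing R] [CommRing R'] (f : R ≃+* R') (c : ℕ)
    (e : ℕ → R) : semTr c e ↔ semTr c (fun n => f (e n)) := by
  induction c using Nat.strong_induction_on generalizing e with
  | _ c ih =>
    rw [semTr, semTr]
    split
    · rename_i m h
      rw [← rev_equiv, ← rev_equiv]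
      exact f.injective.eq_iff.symm
    · rename_i a h
      rw [ih a (unpair_lt h (by norm_num))]
    · rename_i m h
      rw [ih _ (unpair_lt1 h (by norm_num)), ih _ (unpair_lt2 h (by norm_num))]
    · rename_i m h
      have key : ∀ a : R, (fun n => f (Function.update e m.unpair.1 a n)) =
          Function.update (fun n => f (e n)) m.unpair.1 (f a) := by
        intro a
        funext n
        by_cases hn : n = m.unpair.1
        · subst hn; simp
        · simp [Function.update_of_ne hn]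
      constructor
      · intro H a
        have := (ih _ (unpair_lt2 h (by norm_num)) _).1 (H (f.symm a))
        rw [key, f.apply_symm_apply] at this
        exact this
      · intro H a
        rw [ih _ (unpair_lt2 h (by norm_num)), key]
        exact H (f a)
    · simp

/-- So truth at `ρ N` is the same in all towers. -/
theorem tower_sem {p : ℕ} [Fact p.Prime] {R R' : Type*} [CommRing R] [CommRing R']
    {ρ : ℕ → R} {ρ' : ℕ → R'} (h : Tower p R ρ) (h' : Tower p R' ρ') (N c : ℕ) :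
    semTr c (fun n => if n = 0 then ρ N else 0) ↔ semTr c (fun n => if n = 0 then ρ' N else 0) := by
  obtain ⟨f, hf⟩ := tower_equiv h h'
  rw [semTr_equiv f]
  have : (fun n => f (if n = 0 then ρ N else 0)) = fun n => if n = 0 then ρ' N else 0 := by
    funext n
    split_ifs
    · exact hf N
    · exact map_zero f
  rw [this]

/-- The value of a term depends only on its variables. -/
private theorem Tm.val_congr {k : ℕ} {R : Type*} [CommRing R] (c0 : Fin k → R) {e e' : ℕ → R}
    (a : Tm k) (h : ∀ n ∈ a.fv, e n = e' n) : a.val c0 e = a.val c0 e' := by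
  induction a with
  | var n => exact h n rfl
  | cst i => rfl
  | zero => rfl
  | one => rfl
  | neg a ih => exact congrArg Neg.neg (ih h)
  | add a b iha ihb =>
    exact congrArg₂ (· + ·) (iha fun n hn => h n (Or.inl hn)) (ihb fun n hn => h n (Or.inr hn))
  | mul a b iha ihb =>
    exact congrArg₂ (· * ·) (iha fun n hn => h n (Or.inl hn)) (ihb fun n hn => h n (Or.inr hn))

/-- Satisfaction depends only on the free variables. -/
private theorem Fm.sat_congr {k : ℕ} {R : Type*} [CommRing R] (O : Set R) (c0 : Fin k → R)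
    (φ : Fm k) {e e' : ℕ → R} (h : ∀ n ∈ φ.fv, e n = e' n) :
    φ.Sat O c0 e ↔ φ.Sat O c0 e' := by
  induction φ generalizing e e' with
  | eq a b =>
    simp only [Fm.Sat]
    rw [a.val_congr c0 (fun n hn => h n (Or.inl hn)), b.val_congr c0 (fun n hn => h n (Or.inr hn))]
  | inO a =>
    simp only [Fm.Sat]
    rw [a.val_congr c0 (fun n hn => h n hn)]
  | neg φ ih =>
    simp only [Fm.Sat]
    rw [ih h]
  | and φ ψ ih1 ih2 =>
    simp only [Fm.Sat]
    rw [ih1 (fun n hn => h n (Or.inl hn)), ih2 (fun n hn => h n (Or.inr hn))]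
  | all m φ ih =>
    simp only [Fm.Sat]
    refine forall_congr' fun a => ih fun n hn => ?_
    by_cases hm : n = m
    · subst hm; simp
    · rw [Function.update_of_ne hm, Function.update_of_ne hm]
      exact h n ⟨hn, hm⟩

private theorem Tm.fv_le {k : ℕ} (a : Tm k) : ∀ n ∈ a.fv, n ≤ a.code := by
  induction a with
  | var m =>
    intro n hn
    have hn' : n = m := hn
    subst hn'
    exact Nat.right_le_pair 0 n
  | cst i => intro n hn; exact hn.elim
  | zero => intro n hn; exact hn.elim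
  | one => intro n hn; exact hn.elim
  | neg a ih => intro n hn; exact (ih n hn).trans (Nat.right_le_pair _ _)
  | add a b iha ihb =>
    rintro n (hn | hn)
    · exact (iha n hn).trans ((Nat.left_le_pair _ _).trans (Nat.right_le_pair _ _))
    · exact (ihb n hn).trans ((Nat.right_le_pair _ _).trans (Nat.right_le_pair _ _))
  | mul a b iha ihb =>
    rintro n (hn | hn)
    · exact (iha n hn).trans ((Nat.left_le_pair _ _).trans (Nat.right_le_pair _ _))
    · exact (ihb n hn).trans ((Nat.right_le_pair _ _).trans (Nat.right_le_pair _ _))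

private theorem Fm.fv_le {k : ℕ} (φ : Fm k) : ∀ n ∈ φ.fv, n ≤ φ.code := by
  induction φ with
  | eq a b =>
    rintro n (hn | hn)
    · exact (a.fv_le n hn).trans ((Nat.left_le_pair _ _).trans (Nat.right_le_pair _ _))
    · exact (b.fv_le n hn).trans ((Nat.right_le_pair _ _).trans (Nat.right_le_pair _ _))
  | inO a => intro n hn; exact (a.fv_le n hn).trans (Nat.right_le_pair _ _)
  | neg φ ih => intro n hn; exact (ih n hn).trans (Nat.right_le_pair _ _)
  | and φ ψ ih1 ih2 =>
    rintro n (hn | hn)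
    · exact (ih1 n hn).trans ((Nat.left_le_pair _ _).trans (Nat.right_le_pair _ _))
    · exact (ih2 n hn).trans ((Nat.right_le_pair _ _).trans (Nat.right_le_pair _ _))
  | all m φ ih =>
    rintro n ⟨hn, _⟩
    exact (ih n hn).trans ((Nat.right_le_pair _ _).trans (Nat.right_le_pair _ _))

/-- `∀ x_m (x_m = 0 → ψ)`. -/
private def Fm.cl0 {k : ℕ} (m : ℕ) (ψ : Fm k) : Fm k :=
  .all m (.neg (.and (.eq (.var m) .zero) (.neg ψ)))

private theorem Fm.cl0_sat {k : ℕ} (m : ℕ) (ψ : Fm k) {R : Type*} [CommRing R] (O : Set R)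
    (c0 : Fin k → R) (e : ℕ → R) :
    (Fm.cl0 m ψ).Sat O c0 e ↔ ψ.Sat O c0 (Function.update e m 0) := by
  simp only [Fm.cl0, Fm.Sat, Tm.val, Function.update_self]
  constructor
  · intro h
    have := h 0
    by_contra h1
    exact this ⟨rfl, h1⟩
  · rintro h a ⟨rfl, h1⟩
    exact h1 h

private theorem Fm.cl0_fv {k : ℕ} (m : ℕ) (ψ : Fm k) : (Fm.cl0 m ψ).fv = ψ.fv \ {m} := by
  ext n
  simp only [Fm.cl0, Fm.fv, Tm.fv, Set.mem_sdiff, Set.mem_union, Set.mem_singleton_iff,
    Set.mem_empty_iff_false, or_false]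
  tauto

/-- Closing the variables `2, .., j + 1`. -/
private def Fm.cls {k : ℕ} (ψ : Fm k) : ℕ → Fm k
  | 0 => ψ
  | j + 1 => Fm.cl0 (j + 2) (ψ.cls j)

private theorem Fm.cls_sat {k : ℕ} (ψ : Fm k) {R : Type*} [CommRing R] (O : Set R)
    (c0 : Fin k → R) (j : ℕ) (e : ℕ → R) :
    (ψ.cls j).Sat O c0 e ↔ ψ.Sat O c0 (fun n => if 2 ≤ n ∧ n < j + 2 then 0 else e n) := by
  induction j generalizing e with
  | zero =>
    simp only [Fm.cls]
    have : (fun n => if 2 ≤ n ∧ n < 0 + 2 then 0 else e n) = e := by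
      funext n
      rw [if_neg (by omega)]
    rw [this]
  | succ j ih =>
    simp only [Fm.cls]
    rw [Fm.cl0_sat, ih]
    have : (fun n => if 2 ≤ n ∧ n < j + 2 then 0 else Function.update e (j + 2) 0 n) =
        (fun n => if 2 ≤ n ∧ n < j + 1 + 2 then 0 else e n) := by
      funext n
      by_cases hn : n = j + 2
      · subst hn
        simp
      · rw [Function.update_of_ne hn]
        by_cases h1 : 2 ≤ n ∧ n < j + 2
        · rw [if_pos h1, if_pos (by omega)]
        · rw [if_neg h1, if_neg (by omega)]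
    rw [this]

private theorem Fm.cls_fv {k : ℕ} (ψ : Fm k) (j : ℕ) :
    (ψ.cls j).fv ⊆ {n | n ∈ ψ.fv ∧ ¬ (2 ≤ n ∧ n < j + 2)} := by
  induction j with
  | zero => intro n hn; exact ⟨hn, by omega⟩
  | succ j ih =>
    intro n hn
    simp only [Fm.cls] at hn
    rw [Fm.cl0_fv] at hn
    obtain ⟨h1, h2⟩ := hn
    obtain ⟨h3, h4⟩ := ih h1
    have h2' : n ≠ j + 2 := h2
    exact ⟨h3, by omega⟩

/-- The code of `cl0`. -/
private def cl0c (m c : ℕ) : ℕ :=
  Nat.pair 4 (Nat.pair m (Nat.pair 2 (Nat.pair 3 (Nat.pair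
    (Nat.pair 0 (Nat.pair (Nat.pair 0 m) (Nat.pair 2 0))) (Nat.pair 2 c)))))

private theorem Fm.cl0_code {k : ℕ} (m : ℕ) (ψ : Fm k) : (Fm.cl0 m ψ).code = cl0c m ψ.code := rfl

private theorem Fm.cls_code {k : ℕ} (ψ : Fm k) (j : ℕ) :
    (ψ.cls j).code = Nat.rec ψ.code (fun j acc => cl0c (j + 2) acc) j := by
  induction j with
  | zero => rfl
  | succ j ih =>
    simp only [Fm.cls]
    rw [Fm.cl0_code, ih]

private theorem cl0c_primrec : Primrec₂ cl0c := by
  unfold cl0c
  exact Primrec₂.natPair.comp (Primrec.const 4) (Primrec₂.natPair.comp Primrec.fst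
    (Primrec₂.natPair.comp (Primrec.const 2) (Primrec₂.natPair.comp (Primrec.const 3)
      (Primrec₂.natPair.comp
        (Primrec₂.natPair.comp (Primrec.const 0) (Primrec₂.natPair.comp
          (Primrec₂.natPair.comp (Primrec.const 0) Primrec.fst) (Primrec.const (Nat.pair 2 0))))
        (Primrec₂.natPair.comp (Primrec.const 2) Primrec.snd)))))

/-- Closing all variables `≥ 2` of `T2 c` by `∀ x_m (x_m = 0 → ..)`: a computable function of codes. The
closed formula has free variables among `0, 1`. -/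
theorem close_T2 : ∃ s : ℕ → ℕ, Computable s ∧ ∀ (k c : ℕ), ∃ φ ψ : Fm k, φ.code = s c ∧
    ψ.code = T2 c ∧ φ.fv ⊆ {0, 1} ∧
    ∀ {R : Type} [CommRing R] (O : Set R) (c0 : Fin k → R) (e : ℕ → R),
      φ.Sat O c0 e ↔ ψ.Sat O c0 (fun n => if n < 2 then e n else 0) := by
  refine ⟨fun c => Nat.rec (T2 c) (fun j acc => cl0c (j + 2) acc) (T2 c), ?_, ?_⟩
  · have : Primrec (fun c : ℕ => (Nat.rec (T2 c) (fun j acc => cl0c (j + 2) acc) (T2 c) : ℕ)) := by
      have h1 : Primrec₂ (fun (_ : ℕ) (q : ℕ × ℕ) => cl0c (q.1 + 2) q.2) :=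
        cl0c_primrec.comp
          (Primrec.nat_add.comp (Primrec.fst.comp Primrec.snd) (Primrec.const 2))
          (Primrec.snd.comp Primrec.snd)
      exact Primrec.nat_rec' T2_primrec T2_primrec h1
    exact this.to_comp
  · intro k c
    obtain ⟨ψ, hψ⟩ := T2_form k c
    refine ⟨ψ.cls (T2 c), ψ, ?_, hψ, ?_, ?_⟩
    · rw [Fm.cls_code, hψ]
    · intro n hn
      obtain ⟨h1, h2⟩ := ψ.cls_fv _ hn
      have h3 := ψ.fv_le n h1
      rw [hψ] at h3
      have : n = 0 ∨ n = 1 := by omega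
      simpa using this
    · intro R _ O c0 e
      rw [Fm.cls_sat]
      refine ψ.sat_congr O c0 fun n hn => ?_
      have h3 := ψ.fv_le n hn
      rw [hψ] at h3
      by_cases h2 : n < 2
      · rw [if_neg (by omega), if_pos h2]
      · rw [if_pos (by omega), if_neg h2]

/-- The power of a variable. -/
private def powTm {k : ℕ} (m : ℕ) : ℕ → Tm k
  | 0 => .one
  | N + 1 => .mul (powTm m N) (.var m)

/-- The power of a variable, as a computable function of codes. -/
theorem pow_code (m : ℕ) : ∃ s : ℕ → ℕ, Computable s ∧ ∀ (k N : ℕ), ∃ a : Tm k, a.code = s N ∧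
    a.fv ⊆ {m} ∧ ∀ {R : Type} [CommRing R] (c0 : Fin k → R) (e : ℕ → R), a.val c0 e = e m ^ N := by
  refine ⟨fun N => Nat.rec (Nat.pair 3 0) (fun _ acc => Nat.pair 6 (Nat.pair acc (Nat.pair 0 m))) N,
    ?_, ?_⟩
  · have : Primrec (fun N : ℕ => (Nat.rec (Nat.pair 3 0)
        (fun _ acc => Nat.pair 6 (Nat.pair acc (Nat.pair 0 m))) N : ℕ)) := by
      have h1 : Primrec₂ (fun (_ : ℕ) (q : ℕ × ℕ) =>
          Nat.pair 6 (Nat.pair q.2 (Nat.pair 0 m))) :=
        Primrec₂.natPair.comp (Primrec.const 6)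
          (Primrec₂.natPair.comp (Primrec.snd.comp Primrec.snd)
            (Primrec.const (Nat.pair 0 m)))
      exact Primrec.nat_rec' Primrec.id (Primrec.const (Nat.pair 3 0)) h1
    exact this.to_comp
  · intro k N
    refine ⟨powTm m N, ?_, ?_, ?_⟩
    · induction N with
      | zero => rfl
      | succ N ih =>
        simp only [powTm, Tm.code]
        rw [ih]
    · induction N with
      | zero => exact Set.empty_subset _
      | succ N ih =>
        simp only [powTm, Tm.fv]
        exact Set.union_subset ih le_rfl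
    · intro R _ c0 e
      induction N with
      | zero => simp [powTm, Tm.val]
      | succ N ih =>
        simp only [powTm, Tm.val]
        rw [ih, pow_succ]

end Pool.Agent.H92.Tilt
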