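import Pool.Agent.H92.Tilt.PkB
import Pool.Agent.H92.Tilt.Fields
import Pool.Agent.H92.Tilt.Tower

/-!
Module FTOW: the truncation of the package of `FPerf p` is a tower.
-/

set_option autoImplicit false

namespace Pool.Agent.H92.Tilt

open Polynomial

namespace FTowAux

variable {p : ℕ} [Fact p.Prime]

/-- The embedding of Laurent series in the package. -/
noncomputable def phi (M : Pk p) (i : FPerf p ≃+* M.K) : LaurentSeries (ZMod p) →+* M.Om :=
  M.K.subtype.comp (i.toRingHom.comp (algebraMap (LaurentSeries (ZMod p)) (FPerf p)))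

theorem phi_apply (M : Pk p) (i : FPerf p ≃+* M.K) (f : LaurentSeries (ZMod p)) :
    phi M i f = (i (algebraMap (LaurentSeries (ZMod p)) (FPerf p) f) : M.Om) := rfl

variable {M : Pk p} {i : FPerf p ≃+* M.K}

theorem phi_memO (hO : ∀ x, (i x : M.Om) ∈ M.O ↔ x ∈ OPerf p) (f : LaurentSeries (ZMod p)) :
    phi M i f ∈ M.O ↔ ∃ g : PowerSeries (ZMod p), (g : LaurentSeries (ZMod p)) = f := by
  rw [phi_apply, hO]
  constructor
  · rintro ⟨n, g, hg⟩
    have h1 : algebraMap (LaurentSeries (ZMod p)) (LAC p) (f ^ p ^ n) =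
        algebraMap (LaurentSeries (ZMod p)) (LAC p) (g : LaurentSeries (ZMod p)) := by
      rw [← hg, map_pow]
      rfl
    have h2 : f ^ p ^ n = (g : LaurentSeries (ZMod p)) :=
      (algebraMap (LaurentSeries (ZMod p)) (LAC p)).injective h1
    rw [← LaurentSeries.val_le_one_iff_eq_coe]
    have h3 : Valued.v (f ^ p ^ n) ≤ (1 : WithZero (Multiplicative ℤ)) := by
      rw [LaurentSeries.val_le_one_iff_eq_coe]
      exact ⟨g, h2.symm⟩
    rw [map_pow] at h3
    exact (pow_le_one_iff (pow_ne_zero n (Fact.out : p.Prime).ne_zero)).1 h3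
  · rintro ⟨g, rfl⟩
    exact ⟨0, g, by rw [pow_zero, pow_one]; rfl⟩

theorem memO_of_pow {x : M.Om} {n : ℕ} (hn : n ≠ 0) (h : x ^ n ∈ M.O) : x ∈ M.O := by
  rw [← M.O.valuation_le_one_iff] at h ⊢
  rw [map_pow] at h
  exact (pow_le_one_iff hn).1 h

theorem phi_X (ht : (i (tPerf p) : M.Om) = M.t) :
    phi M i ((PowerSeries.X : PowerSeries (ZMod p)) : LaurentSeries (ZMod p)) = M.t := by
  rw [← ht]; rfl

theorem ne_zero_pow (n : ℕ) : p ^ n ≠ 0 := pow_ne_zero n (Fact.out : p.Prime).ne_zero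

theorem key (hO : ∀ x, (i x : M.Om) ∈ M.O ↔ x ∈ OPerf p) (ht : (i (tPerf p) : M.Om) = M.t)
    (n : ℕ) (y : M.Om) (f : PowerSeries (ZMod p))
    (hy : y ^ p ^ n = phi M i (f : LaurentSeries (ZMod p))) :
    (∃ z ∈ M.O, y = M.t * z) ↔ (PowerSeries.X : PowerSeries (ZMod p)) ^ p ^ n ∣ f := by
  constructor
  · rintro ⟨z, hz, rfl⟩
    have h1 : phi M i ((f : LaurentSeries (ZMod p)) /
        ((PowerSeries.X : PowerSeries (ZMod p)) : LaurentSeries (ZMod p)) ^ p ^ n) = z ^ p ^ n := by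
      rw [map_div₀, map_pow, phi_X ht, ← hy, mul_pow, mul_div_cancel_left₀]
      exact pow_ne_zero _ M.t0
    have h2 := (phi_memO (M := M) (i := i) hO _).1 (by rw [h1]; exact pow_mem hz _)
    obtain ⟨g, hg⟩ := h2
    refine ⟨g, ?_⟩
    have h3 : ((PowerSeries.X : PowerSeries (ZMod p)) : LaurentSeries (ZMod p)) ^ p ^ n ≠ 0 := by
      apply pow_ne_zero
      intro h0
      have := phi_X (M := M) (i := i) ht
      rw [h0, map_zero] at this
      exact M.t0 this.symm
    rw [eq_div_iff h3] at hg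
    apply HahnSeries.ofPowerSeries_injective (Γ := ℤ)
    rw [map_mul, map_pow, mul_comm]
    exact hg.symm
  · rintro ⟨g, rfl⟩
    have h1 : (y / M.t) ^ p ^ n = phi M i (g : LaurentSeries (ZMod p)) := by
      rw [div_pow, hy]
      have h2 : (((PowerSeries.X : PowerSeries (ZMod p)) ^ p ^ n * g : PowerSeries (ZMod p)) :
          LaurentSeries (ZMod p)) =
          ((PowerSeries.X : PowerSeries (ZMod p)) : LaurentSeries (ZMod p)) ^ p ^ n *
            (g : LaurentSeries (ZMod p)) := by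
        simp
      rw [h2, map_mul, map_pow, phi_X ht, mul_div_cancel_left₀]
      exact pow_ne_zero _ M.t0
    refine ⟨y / M.t, ?_, ?_⟩
    · apply memO_of_pow (ne_zero_pow (p := p) n)
      rw [h1]
      exact (phi_memO hO _).2 ⟨g, rfl⟩
    · rw [mul_div_cancel₀ _ M.t0]

theorem aeval_pow (x : M.Om) (n : ℕ) (Q : Polynomial ℤ) :
    (aeval x Q) ^ p ^ n = aeval (x ^ p ^ n) Q := by
  have h1 : (iterateFrobenius M.Om p n) (aeval x Q) = aeval (iterateFrobenius M.Om p n x) Q := by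
    rw [Polynomial.aeval_def, Polynomial.aeval_def, Polynomial.hom_eval₂]
    congr 1
    exact RingHom.ext_int _ _
  simpa [iterateFrobenius_def] using h1

/-- An integer polynomial as a power series over `ZMod p`. -/
noncomputable def ps (p : ℕ) (Q : Polynomial ℤ) : PowerSeries (ZMod p) :=
  ((Q.map (Int.castRingHom (ZMod p)) : Polynomial (ZMod p)) : PowerSeries (ZMod p))

theorem phi_ps (ht : (i (tPerf p) : M.Om) = M.t) (Q : Polynomial ℤ) :
    phi M i ((ps p Q : PowerSeries (ZMod p)) : LaurentSeries (ZMod p)) = aeval M.t Q := by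
  let ψ : Polynomial ℤ →+* M.Om := (phi M i).comp ((HahnSeries.ofPowerSeries ℤ (ZMod p)).comp
    ((Polynomial.coeToPowerSeries.ringHom (R := ZMod p)).comp
      (Polynomial.mapRingHom (Int.castRingHom (ZMod p)))))
  have h1 : ψ = (aeval M.t : Polynomial ℤ →ₐ[ℤ] M.Om).toRingHom := by
    apply Polynomial.ringHom_ext
    · intro a
      simp
    · have h2 : ψ X = phi M i ((PowerSeries.X : PowerSeries (ZMod p)) :
          LaurentSeries (ZMod p)) := by
        simp [ψ]
      rw [h2, phi_X ht]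
      simp
  exact congrArg (fun f : Polynomial ℤ →+* M.Om => f Q) h1

theorem coeff_ps (Q : Polynomial ℤ) (m : ℕ) :
    PowerSeries.coeff m (ps p Q) = ((Q.coeff m : ℤ) : ZMod p) := by
  unfold ps
  rw [Polynomial.coeff_coe, Polynomial.coeff_map]
  rfl

/-- Every element of the truncation is a polynomial in `ρ n`. -/
theorem exists_trunc (f : PowerSeries (ZMod p)) (n : ℕ) : ∃ Q : Polynomial ℤ,
    (PowerSeries.X : PowerSeries (ZMod p)) ^ n ∣ f - ps p Q := by
  refine ⟨∑ j ∈ Finset.range n, Polynomial.monomial j ((PowerSeries.coeff j f).val : ℤ), ?_⟩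
  rw [PowerSeries.X_pow_dvd_iff]
  intro m hm
  rw [map_sub, coeff_ps, Polynomial.finset_sum_coeff, Finset.sum_eq_single m]
  · rw [Polynomial.coeff_monomial, if_pos rfl]
    simp
  · intro j _ hj
    rw [Polynomial.coeff_monomial, if_neg hj]
  · intro h
    exact absurd (Finset.mem_range.2 hm) h

theorem cls_eq_mk {x : M.Om} (h : x ∈ M.OK) :
    M.cls x = Ideal.Quotient.mk (Ideal.span {M.tO}) ⟨x, h⟩ := by
  unfold Pk.cls
  rw [dif_pos h]

theorem coe_aeval {x : M.Om} (h : x ∈ M.OK) (Q : Polynomial ℤ) :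
    ((aeval (⟨x, h⟩ : M.OK) Q : M.OK) : M.Om) = aeval x Q := by
  have := Polynomial.hom_eval₂ Q (algebraMap ℤ M.OK) M.OK.subtype ⟨x, h⟩
  rw [Polynomial.aeval_def, Polynomial.aeval_def]
  rw [show ((Polynomial.eval₂ (algebraMap ℤ M.OK) (⟨x, h⟩ : M.OK) Q : M.OK) : M.Om) =
    M.OK.subtype (Polynomial.eval₂ (algebraMap ℤ M.OK) (⟨x, h⟩ : M.OK) Q) from rfl, this]
  congr 1

theorem aeval_memOK {x : M.Om} (h : x ∈ M.OK) (Q : Polynomial ℤ) : aeval x Q ∈ M.OK := by
  rw [← coe_aeval h]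
  exact Subtype.mem _

theorem aeval_cls {x : M.Om} (h : x ∈ M.OK) (Q : Polynomial ℤ) :
    aeval (M.cls x) Q = M.cls (aeval x Q) := by
  rw [cls_eq_mk h, cls_eq_mk (aeval_memOK h Q)]
  have h1 : (⟨aeval x Q, aeval_memOK h Q⟩ : M.OK) = aeval (⟨x, h⟩ : M.OK) Q :=
    Subtype.ext (coe_aeval h Q).symm
  rw [h1, Polynomial.aeval_def, Polynomial.aeval_def, Polynomial.hom_eval₂]
  congr 1

end FTowAux

open FTowAux

variable (p : ℕ) [Fact p.Prime]

theorem ftow (M : Pk p) (i : FPerf p ≃+* M.K)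
    (hO : ∀ x, (i x : M.Om) ∈ M.O ↔ x ∈ OPerf p) (ht : (i (tPerf p) : M.Om) = M.t)
    (s : ℕ → M.Om) (h0 : s 0 = M.t) (h1 : ∀ n, s (n + 1) ^ p = s n) :
    Tower p M.Tr (fun n => M.cls (s n)) := by
  have hpow : ∀ n, s n ^ p ^ n = M.t := by
    intro n
    induction n with
    | zero => rw [pow_zero, pow_one, h0]
    | succ n ih => rw [pow_succ', pow_mul, h1, ih]
  have hK : ∀ n, s n ∈ M.K := by
    intro n
    induction n with
    | zero => rw [h0]; exact M.t_mem_K
    | succ n ih => exact M.W_K.pcl _ (by rw [h1]; exact ih)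
  have hsO : ∀ n, s n ∈ M.O := fun n =>
    memO_of_pow (ne_zero_pow (p := p) n) (by rw [hpow]; exact M.t_mem)
  have hOK : ∀ n, s n ∈ M.OK := fun n => ⟨hK n, hsO n⟩
  have hzero : (0 : M.Om) ∈ M.OK := M.OK.zero_mem
  refine ⟨?_, ?_, ?_⟩
  · intro n
    have h2 := aeval_cls (hOK (n + 1)) (X ^ p)
    simp only [map_pow, aeval_X] at h2
    show M.cls (s (n + 1)) ^ p = M.cls (s n)
    rw [h2, h1]
  · intro x
    obtain ⟨y, hy, rfl⟩ := M.cls_surj x
    obtain ⟨z, hz⟩ := i.surjective ⟨y, hy.1⟩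
    have hzO : z ∈ OPerf p := by
      rw [← hO, hz]
      exact hy.2
    obtain ⟨n, f, hf⟩ := hzO
    have hzf : z ^ p ^ n = algebraMap (LaurentSeries (ZMod p)) (FPerf p)
        (f : LaurentSeries (ZMod p)) := by
      apply Subtype.ext
      exact hf
    have hyf : y ^ p ^ n = phi M i (f : LaurentSeries (ZMod p)) := by
      rw [phi_apply, ← hzf, map_pow, hz]
      rfl
    obtain ⟨Q, hQ⟩ := exists_trunc f (p ^ n)
    refine ⟨n, Q, ?_⟩
    show M.cls y = aeval (M.cls (s n)) Q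
    rw [aeval_cls (hOK n), M.cls_eq hy (aeval_memOK (hOK n) Q)]
    apply (key hO ht n _ (f - ps p Q) _).2 hQ
    rw [sub_pow_char_pow, hyf, aeval_pow, hpow, ← phi_ps ht, ← map_sub]
    congr 1
    simp
  · intro n Q
    show aeval (M.cls (s n)) Q = 0 ↔ _
    rw [aeval_cls (hOK n), ← M.cls_zero, M.cls_eq (aeval_memOK (hOK n) Q) hzero]
    simp only [sub_zero]
    rw [key hO ht n _ (ps p Q) (by rw [aeval_pow, hpow, phi_ps ht]), PowerSeries.X_pow_dvd_iff]
    constructor
    · intro h m hm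
      have := h m hm
      rw [coeff_ps] at this
      exact (ZMod.intCast_zmod_eq_zero_iff_dvd _ _).1 this
    · intro h m hm
      rw [coeff_ps]
      exact (ZMod.intCast_zmod_eq_zero_iff_dvd _ _).2 (h m hm)

end Pool.Agent.H92.Tilt
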