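import Pool.Agent.H92.Tilt.T2

/-!
Closedness of a formula is decidable from its code.
-/

set_option autoImplicit false

namespace Pool.Agent.H92.Tilt

theorem fv_primrec_of_rec (f : ℕ → ℕ → ℕ) (G : ℕ × ℕ × ℕ × ℕ × ℕ → ℕ) (hG : Primrec G)
    (H : ∀ m c, G (m, c, if c.unpair.2 < c then f m c.unpair.2 else 0,
      if c.unpair.2.unpair.1 < c then f m c.unpair.2.unpair.1 else 0,
      if c.unpair.2.unpair.2 < c then f m c.unpair.2.unpair.2 else 0) = f m c) : Primrec₂ f := by
  have key : ∀ m n x : ℕ, ((List.range n).map (f m)).getD x 0 = if x < n then f m x else 0 := by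
    intro m n x
    by_cases h : x < n
    · simp [h, List.getD]
    · simp [h, List.getD]
  have h2 : Primrec₂ (fun (m : ℕ) (l : List ℕ) => (some (G (m, l.length,
      l.getD l.length.unpair.2 0, l.getD l.length.unpair.2.unpair.1 0,
      l.getD l.length.unpair.2.unpair.2 0)) : Option ℕ)) := by
    have hl : Primrec (fun a : ℕ × List ℕ => a.2.length) := Primrec.list_length.comp Primrec.snd
    have hu : Primrec (fun a : ℕ × List ℕ => a.2.length.unpair.2) :=
      Primrec.snd.comp (Primrec.unpair.comp hl)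
    have hget : ∀ g : ℕ × List ℕ → ℕ, Primrec g →
        Primrec (fun a : ℕ × List ℕ => a.2.getD (g a) 0) := by
      intro g hg
      exact (Primrec.list_getD 0).comp Primrec.snd hg
    refine Primrec.option_some.comp (hG.comp ?_)
    refine Primrec.pair Primrec.fst (Primrec.pair hl (Primrec.pair (hget _ hu)
      (Primrec.pair (hget _ ?_) (hget _ ?_))))
    · exact Primrec.fst.comp (Primrec.unpair.comp hu)
    · exact Primrec.snd.comp (Primrec.unpair.comp hu)
  refine Primrec.nat_strong_rec _ h2 ?_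
  intro m n
  simp only [List.length_map, List.length_range, key]
  rw [H m n]

/-- Number of occurrences of the variable `m` in a raw term. -/
def occT (m c : ℕ) : ℕ :=
  match _h : c.unpair with
  | (0, n) => if n = m then 1 else 0
  | (4, a) => occT m a
  | (5, q) => occT m q.unpair.1 + occT m q.unpair.2
  | (6, q) => occT m q.unpair.1 + occT m q.unpair.2
  | _ => 0
termination_by c
decreasing_by
  · exact unpair_lt _h (by norm_num)
  · exact unpair_lt1 _h (by norm_num)
  · exact unpair_lt2 _h (by norm_num)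
  · exact unpair_lt1 _h (by norm_num)
  · exact unpair_lt2 _h (by norm_num)

/-- Number of free occurrences of the variable `m` in a raw formula. -/
def occF (m c : ℕ) : ℕ :=
  match _h : c.unpair with
  | (0, q) => occT m q.unpair.1 + occT m q.unpair.2
  | (1, a) => occT m a
  | (2, a) => occF m a
  | (3, q) => occF m q.unpair.1 + occF m q.unpair.2
  | (4, q) => if q.unpair.1 = m then 0 else occF m q.unpair.2
  | _ => 0
termination_by c
decreasing_by
  · exact unpair_lt _h (by norm_num)
  · exact unpair_lt1 _h (by norm_num)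
  · exact unpair_lt2 _h (by norm_num)
  · exact unpair_lt2 _h (by norm_num)

theorem occT_eq (m c : ℕ) : occT m c =
    if c.unpair.1 = 0 then (if c.unpair.2 = m then 1 else 0)
    else if c.unpair.1 = 4 then occT m c.unpair.2
    else if c.unpair.1 = 5 then occT m c.unpair.2.unpair.1 + occT m c.unpair.2.unpair.2
    else if c.unpair.1 = 6 then occT m c.unpair.2.unpair.1 + occT m c.unpair.2.unpair.2
    else 0 := by
  rw [occT]
  split
  · next n h => simp [h]
  · next n h => simp [h]
  · next n h => simp [h]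
  · next n h => simp [h]
  · next h0 h4 h5 h6 =>
    have g0 : c.unpair.1 ≠ 0 := fun e => h0 c.unpair.2 (Prod.ext e rfl)
    have g4 : c.unpair.1 ≠ 4 := fun e => h4 c.unpair.2 (Prod.ext e rfl)
    have g5 : c.unpair.1 ≠ 5 := fun e => h5 c.unpair.2 (Prod.ext e rfl)
    have g6 : c.unpair.1 ≠ 6 := fun e => h6 c.unpair.2 (Prod.ext e rfl)
    rw [if_neg g0, if_neg g4, if_neg g5, if_neg g6]

theorem occF_eq (m c : ℕ) : occF m c =
    if c.unpair.1 = 0 then occT m c.unpair.2.unpair.1 + occT m c.unpair.2.unpair.2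
    else if c.unpair.1 = 1 then occT m c.unpair.2
    else if c.unpair.1 = 2 then occF m c.unpair.2
    else if c.unpair.1 = 3 then occF m c.unpair.2.unpair.1 + occF m c.unpair.2.unpair.2
    else if c.unpair.1 = 4 then
      (if c.unpair.2.unpair.1 = m then 0 else occF m c.unpair.2.unpair.2)
    else 0 := by
  rw [occF]
  split
  · next n h => simp [h]
  · next n h => simp [h]
  · next n h => simp [h]
  · next n h => simp [h]
  · next n h => simp [h]
  · next h0 h1 h2 h3 h4 =>
    have g0 : c.unpair.1 ≠ 0 := fun e => h0 c.unpair.2 (Prod.ext e rfl)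
    have g1 : c.unpair.1 ≠ 1 := fun e => h1 c.unpair.2 (Prod.ext e rfl)
    have g2 : c.unpair.1 ≠ 2 := fun e => h2 c.unpair.2 (Prod.ext e rfl)
    have g3 : c.unpair.1 ≠ 3 := fun e => h3 c.unpair.2 (Prod.ext e rfl)
    have g4 : c.unpair.1 ≠ 4 := fun e => h4 c.unpair.2 (Prod.ext e rfl)
    rw [if_neg g0, if_neg g1, if_neg g2, if_neg g3, if_neg g4]

theorem occT_primrec : Primrec₂ occT := by
  refine fv_primrec_of_rec occT (fun q =>
    if q.2.1.unpair.1 = 0 then (if q.2.1.unpair.2 = q.1 then 1 else 0)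
    else if q.2.1.unpair.1 = 4 then q.2.2.1
    else if q.2.1.unpair.1 = 5 then q.2.2.2.1 + q.2.2.2.2
    else if q.2.1.unpair.1 = 6 then q.2.2.2.1 + q.2.2.2.2
    else 0) ?_ ?_
  · have m1 : Primrec (fun q : ℕ × ℕ × ℕ × ℕ × ℕ => q.1) := Primrec.fst
    have c1 : Primrec (fun q : ℕ × ℕ × ℕ × ℕ × ℕ => q.2.1) := Primrec.fst.comp Primrec.snd
    have x1 : Primrec (fun q : ℕ × ℕ × ℕ × ℕ × ℕ => q.2.2.1) :=
      Primrec.fst.comp (Primrec.snd.comp Primrec.snd)
    have y1 : Primrec (fun q : ℕ × ℕ × ℕ × ℕ × ℕ => q.2.2.2.1) :=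
      Primrec.fst.comp (Primrec.snd.comp (Primrec.snd.comp Primrec.snd))
    have z1 : Primrec (fun q : ℕ × ℕ × ℕ × ℕ × ℕ => q.2.2.2.2) :=
      Primrec.snd.comp (Primrec.snd.comp (Primrec.snd.comp Primrec.snd))
    have hs : Primrec (fun q : ℕ × ℕ × ℕ × ℕ × ℕ => q.2.2.2.1 + q.2.2.2.2) :=
      Primrec.nat_add.comp y1 z1
    refine prim_ite_eq _ (prim_u1 c1) ?_ ?_
    · exact Primrec.ite (Primrec.eq.comp (prim_u2 c1) m1) (Primrec.const 1) (Primrec.const 0)
    refine prim_ite_eq _ (prim_u1 c1) x1 ?_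
    refine prim_ite_eq _ (prim_u1 c1) hs ?_
    exact prim_ite_eq _ (prim_u1 c1) hs (Primrec.const 0)
  · intro m c
    rw [occT_eq m c]
    by_cases g0 : c.unpair.1 = 0
    · simp only [if_pos g0]
    by_cases g4 : c.unpair.1 = 4
    · simp only [if_neg g0, if_pos g4, if_pos (unpair2_lt g4 (by norm_num))]
    by_cases g5 : c.unpair.1 = 5
    · simp only [if_neg g0, if_neg g4, if_pos g5, if_pos (unpair21_lt g5 (by norm_num)),
        if_pos (unpair22_lt g5 (by norm_num))]
    by_cases g6 : c.unpair.1 = 6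
    · simp only [if_neg g0, if_neg g4, if_neg g5, if_pos g6,
        if_pos (unpair21_lt g6 (by norm_num)), if_pos (unpair22_lt g6 (by norm_num))]
    simp only [if_neg g0, if_neg g4, if_neg g5, if_neg g6]

theorem occF_primrec : Primrec₂ occF := by
  refine fv_primrec_of_rec occF (fun q =>
    if q.2.1.unpair.1 = 0 then
      occT q.1 q.2.1.unpair.2.unpair.1 + occT q.1 q.2.1.unpair.2.unpair.2
    else if q.2.1.unpair.1 = 1 then occT q.1 q.2.1.unpair.2
    else if q.2.1.unpair.1 = 2 then q.2.2.1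
    else if q.2.1.unpair.1 = 3 then q.2.2.2.1 + q.2.2.2.2
    else if q.2.1.unpair.1 = 4 then (if q.2.1.unpair.2.unpair.1 = q.1 then 0 else q.2.2.2.2)
    else 0) ?_ ?_
  · have m1 : Primrec (fun q : ℕ × ℕ × ℕ × ℕ × ℕ => q.1) := Primrec.fst
    have c1 : Primrec (fun q : ℕ × ℕ × ℕ × ℕ × ℕ => q.2.1) := Primrec.fst.comp Primrec.snd
    have x1 : Primrec (fun q : ℕ × ℕ × ℕ × ℕ × ℕ => q.2.2.1) :=
      Primrec.fst.comp (Primrec.snd.comp Primrec.snd)
    have y1 : Primrec (fun q : ℕ × ℕ × ℕ × ℕ × ℕ => q.2.2.2.1) :=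
      Primrec.fst.comp (Primrec.snd.comp (Primrec.snd.comp Primrec.snd))
    have z1 : Primrec (fun q : ℕ × ℕ × ℕ × ℕ × ℕ => q.2.2.2.2) :=
      Primrec.snd.comp (Primrec.snd.comp (Primrec.snd.comp Primrec.snd))
    have hs : Primrec (fun q : ℕ × ℕ × ℕ × ℕ × ℕ => q.2.2.2.1 + q.2.2.2.2) :=
      Primrec.nat_add.comp y1 z1
    refine prim_ite_eq _ (prim_u1 c1) ?_ ?_
    · exact Primrec.nat_add.comp (occT_primrec.comp m1 (prim_u1 (prim_u2 c1)))
        (occT_primrec.comp m1 (prim_u2 (prim_u2 c1)))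
    refine prim_ite_eq _ (prim_u1 c1) (occT_primrec.comp m1 (prim_u2 c1)) ?_
    refine prim_ite_eq _ (prim_u1 c1) x1 ?_
    refine prim_ite_eq _ (prim_u1 c1) hs ?_
    refine prim_ite_eq _ (prim_u1 c1) ?_ (Primrec.const 0)
    exact Primrec.ite (Primrec.eq.comp (prim_u1 (prim_u2 c1)) m1) (Primrec.const 0) z1
  · intro m c
    rw [occF_eq m c]
    by_cases g0 : c.unpair.1 = 0
    · simp only [if_pos g0]
    by_cases g1 : c.unpair.1 = 1
    · simp only [if_neg g0, if_pos g1]
    by_cases g2 : c.unpair.1 = 2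
    · simp only [if_neg g0, if_neg g1, if_pos g2, if_pos (unpair2_lt g2 (by norm_num))]
    by_cases g3 : c.unpair.1 = 3
    · simp only [if_neg g0, if_neg g1, if_neg g2, if_pos g3,
        if_pos (unpair21_lt g3 (by norm_num)), if_pos (unpair22_lt g3 (by norm_num))]
    by_cases g4 : c.unpair.1 = 4
    · simp only [if_neg g0, if_neg g1, if_neg g2, if_neg g3, if_pos g4,
        if_pos (unpair22_lt g4 (by norm_num))]
    simp only [if_neg g0, if_neg g1, if_neg g2, if_neg g3, if_neg g4]

theorem occT_code {k : ℕ} (m : ℕ) (a : Tm k) : occT m a.code = 0 ↔ m ∉ a.fv := by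
  induction a with
  | var n =>
    rw [occT_eq]
    simp [Tm.code, Tm.fv, eq_comm]
  | cst i => rw [occT_eq]; simp [Tm.code, Tm.fv]
  | zero => rw [occT_eq]; simp [Tm.code, Tm.fv]
  | one => rw [occT_eq]; simp [Tm.code, Tm.fv]
  | neg a ih => rw [occT_eq]; simp [Tm.code, Tm.fv, ih]
  | add a b iha ihb => rw [occT_eq]; simp [Tm.code, Tm.fv, iha, ihb]
  | mul a b iha ihb => rw [occT_eq]; simp [Tm.code, Tm.fv, iha, ihb]

theorem occF_code {k : ℕ} (m : ℕ) (φ : Fm k) : occF m φ.code = 0 ↔ m ∉ φ.fv := by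
  induction φ with
  | eq a b => rw [occF_eq]; simp [Fm.code, Fm.fv, occT_code]
  | inO a => rw [occF_eq]; simp [Fm.code, Fm.fv, occT_code]
  | neg φ ih => rw [occF_eq]; simp [Fm.code, Fm.fv, ih]
  | and φ ψ ih1 ih2 => rw [occF_eq]; simp [Fm.code, Fm.fv, ih1, ih2]
  | all n φ ih =>
    rw [occF_eq]
    simp only [Fm.code, Fm.fv, Nat.unpair_pair]
    by_cases h : n = m
    · simp [h]
    · have h' : m ≠ n := fun e => h e.symm
      simp [h, h', ih]

theorem occT_le (m c : ℕ) : occT m c ≠ 0 → m ≤ c := by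
  induction c using Nat.strong_induction_on with
  | _ c ih =>
    rw [occT_eq m c]
    intro h
    split_ifs at h with h0 h1 h2 h3 h4
    · rw [← h1]; exact Nat.unpair_right_le c
    · exact absurd rfl h
    · exact (ih _ (unpair2_lt h2 (by norm_num)) h).trans (Nat.unpair_right_le c)
    · by_cases h5 : occT m c.unpair.2.unpair.1 = 0
      · rw [h5, zero_add] at h
        exact (ih _ (unpair22_lt h3 (by norm_num)) h).trans (unpair22_lt h3 (by norm_num)).le
      · exact (ih _ (unpair21_lt h3 (by norm_num)) h5).trans (unpair21_lt h3 (by norm_num)).le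
    · by_cases h5 : occT m c.unpair.2.unpair.1 = 0
      · rw [h5, zero_add] at h
        exact (ih _ (unpair22_lt h4 (by norm_num)) h).trans (unpair22_lt h4 (by norm_num)).le
      · exact (ih _ (unpair21_lt h4 (by norm_num)) h5).trans (unpair21_lt h4 (by norm_num)).le
    · exact absurd rfl h

theorem occF_le (m c : ℕ) : occF m c ≠ 0 → m ≤ c := by
  induction c using Nat.strong_induction_on with
  | _ c ih =>
    rw [occF_eq m c]
    intro h
    have e1 : c.unpair.2 ≤ c := Nat.unpair_right_le c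
    have e2 : c.unpair.2.unpair.1 ≤ c := (Nat.unpair_left_le _).trans e1
    have e3 : c.unpair.2.unpair.2 ≤ c := (Nat.unpair_right_le _).trans e1
    split_ifs at h with h0 h1 h2 h3 h4 h5
    · by_cases h5 : occT m c.unpair.2.unpair.1 = 0
      · rw [h5, zero_add] at h
        exact (occT_le _ _ h).trans e3
      · exact (occT_le _ _ h5).trans e2
    · exact (occT_le _ _ h).trans e1
    · exact (ih _ (unpair2_lt h2 (by norm_num)) h).trans e1
    · by_cases h5 : occF m c.unpair.2.unpair.1 = 0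
      · rw [h5, zero_add] at h
        exact (ih _ (unpair22_lt h3 (by norm_num)) h).trans e3
      · exact (ih _ (unpair21_lt h3 (by norm_num)) h5).trans e2
    · exact absurd rfl h
    · exact (ih _ (unpair22_lt h4 (by norm_num)) h).trans e3
    · exact absurd rfl h

/-- Total number of free occurrences of variables `≤ c` in the raw formula `c`. -/
def occS (c : ℕ) : ℕ := Nat.rec 0 (fun m s => s + occF m c) (c + 1)

theorem occS_primrec : Primrec occS := by
  unfold occS
  refine Primrec.nat_rec' (f := fun c : ℕ => c + 1) (g := fun _ => 0)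
    (h := fun c q => q.2 + occF q.1 c) Primrec.succ (Primrec.const 0) ?_
  exact Primrec.nat_add.comp (Primrec.snd.comp Primrec.snd)
    (occF_primrec.comp (Primrec.fst.comp Primrec.snd) Primrec.fst)

theorem occ_sum (c n : ℕ) : (Nat.rec 0 (fun m s => s + occF m c) n : ℕ) = 0 ↔
    ∀ m < n, occF m c = 0 := by
  induction n with
  | zero => simp
  | succ n ih =>
    show (Nat.rec 0 (fun m s => s + occF m c) n : ℕ) + occF n c = 0 ↔ _
    rw [Nat.add_eq_zero_iff, ih]
    constructor
    · rintro ⟨h1, h2⟩ m hm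
      rcases Nat.lt_succ_iff_lt_or_eq.1 hm with h | rfl
      · exact h1 m h
      · exact h2
    · intro h
      exact ⟨fun m hm => h m (hm.trans (Nat.lt_succ_self n)), h n (Nat.lt_succ_self n)⟩

theorem occS_code {k : ℕ} (φ : Fm k) : occS φ.code = 0 ↔ φ.fv = ∅ := by
  refine (occ_sum φ.code (φ.code + 1)).trans ?_
  constructor
  · intro h
    rw [Set.eq_empty_iff_forall_notMem]
    intro m
    rw [← occF_code]
    by_contra h1
    exact h1 (h m (Nat.lt_succ_of_le (occF_le m _ h1)))
  · intro h m _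
    rw [occF_code, h]
    simp

end Pool.Agent.H92.Tilt
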