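import Pool.Agent.H92.Tilt.G3
import Pool.Agent.H92.Tilt.Ax
import Pool.Agent.H92.Tilt.Enum
import Pool.Agent.H92.Tilt.TowC
import Pool.Agent.H92.Tilt.FPk
import Pool.Agent.H92.Tilt.Fv
import Pool.Agent.H92.Tilt.FTow

/-!
Final assembly (helper92).
-/

set_option autoImplicit false

namespace Pool.Agent.H92.Tilt

section Sat

variable {k : ℕ} {R R' : Type*} [CommRing R] [CommRing R']

theorem Tm.val_congr (c : Fin k → R) (a : Tm k) {e e' : ℕ → R} (h : ∀ n ∈ a.fv, e n = e' n) :
    a.val c e = a.val c e' := by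
  induction a with
  | var n => exact h n rfl
  | cst i => rfl
  | zero => rfl
  | one => rfl
  | neg a ih => exact congrArg Neg.neg (ih h)
  | add a b iha ihb =>
    show a.val c e + b.val c e = a.val c e' + b.val c e'
    rw [iha fun n hn => h n (Or.inl hn), ihb fun n hn => h n (Or.inr hn)]
  | mul a b iha ihb =>
    show a.val c e * b.val c e = a.val c e' * b.val c e'
    rw [iha fun n hn => h n (Or.inl hn), ihb fun n hn => h n (Or.inr hn)]

theorem Fm.sat_congr (O : Set R) (c : Fin k → R) (φ : Fm k) : ∀ {e e' : ℕ → R},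
    (∀ n ∈ φ.fv, e n = e' n) → (φ.Sat O c e ↔ φ.Sat O c e') := by
  induction φ with
  | eq a b =>
    intro e e' h
    show a.val c e = b.val c e ↔ a.val c e' = b.val c e'
    rw [a.val_congr c fun n hn => h n (Or.inl hn), b.val_congr c fun n hn => h n (Or.inr hn)]
  | inO a =>
    intro e e' h
    show a.val c e ∈ O ↔ a.val c e' ∈ O
    rw [a.val_congr c h]
  | neg φ ih =>
    intro e e' h
    exact not_congr (ih h)
  | and φ ψ ih1 ih2 =>
    intro e e' h
    exact and_congr (ih1 fun n hn => h n (Or.inl hn)) (ih2 fun n hn => h n (Or.inr hn))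
  | all n φ ih =>
    intro e e' h
    refine forall_congr' fun a => ih fun m hm => ?_
    by_cases hmn : m = n
    · subst hmn; simp
    · rw [Function.update_of_ne hmn, Function.update_of_ne hmn]
      exact h m ⟨hm, hmn⟩

theorem Tm.val_equiv (f : R ≃+* R') (c : Fin k → R) (a : Tm k) (e : ℕ → R) :
    f (a.val c e) = a.val (fun i => f (c i)) (fun n => f (e n)) := by
  induction a with
  | var n => rfl
  | cst i => rfl
  | zero => exact map_zero f
  | one => exact map_one f
  | neg a ih => exact (map_neg f _).trans (congrArg Neg.neg ih)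
  | add a b iha ihb =>
    exact (map_add f _ _).trans (by rw [iha, ihb]; rfl)
  | mul a b iha ihb =>
    exact (map_mul f _ _).trans (by rw [iha, ihb]; rfl)

theorem Fm.sat_equiv (f : R ≃+* R') {O : Set R} {O' : Set R'} (hO : ∀ x, x ∈ O ↔ f x ∈ O')
    (c : Fin k → R) (φ : Fm k) : ∀ e : ℕ → R,
    (φ.Sat O c e ↔ φ.Sat O' (fun i => f (c i)) (fun n => f (e n))) := by
  induction φ with
  | eq a b =>
    intro e
    show a.val c e = b.val c e ↔ a.val _ _ = b.val _ _
    rw [← Tm.val_equiv, ← Tm.val_equiv, f.injective.eq_iff]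
  | inO a =>
    intro e
    show a.val c e ∈ O ↔ a.val _ _ ∈ O'
    rw [← Tm.val_equiv, hO]
  | neg φ ih => intro e; exact not_congr (ih e)
  | and φ ψ ih1 ih2 => intro e; exact and_congr (ih1 e) (ih2 e)
  | all n φ ih =>
    intro e
    show (∀ a : R, φ.Sat O c (Function.update e n a)) ↔
      ∀ a : R', φ.Sat O' _ (Function.update (fun n => f (e n)) n a)
    constructor
    · intro h a
      have h1 := (ih _).1 (h (f.symm a))
      convert h1 using 1
      funext m
      by_cases hmn : m = n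
      · subst hmn; simp
      · simp [Function.update_of_ne hmn]
    · intro h a
      rw [ih]
      convert h (f a) using 1
      funext m
      by_cases hmn : m = n
      · subst hmn; simp
      · simp [Function.update_of_ne hmn]

end Sat

section Dec

variable {k : ℕ} {R : Type*} [CommRing R] {O : Set R} {c : Fin k → R}

/-- From decidability to a computable decision function. -/
theorem DecidableTheory.fn (h : DecidableTheory k R O c) : ∃ f : ℕ → Bool, Computable f ∧
    ∀ φ : Fm k, φ.fv = ∅ → (f φ.code = true ↔ φ.Holds R O c) := by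
  obtain ⟨hd, hc⟩ := h
  refine ⟨fun n => decide (∃ φ : Fm k, φ.fv = ∅ ∧ φ.code = n ∧ φ.Holds R O c), hc, ?_⟩
  intro φ hφ
  rw [decide_eq_true_iff]
  constructor
  · rintro ⟨ψ, _, h2, h3⟩
    rwa [← code_inj h2]
  · intro h1
    exact ⟨φ, hφ, rfl, h1⟩

/-- From a computable decision function to decidability. -/
theorem DecidableTheory.of_fn {c : Fin (k + 1) → R} (f : ℕ → Bool) (hf : Computable f)
    (h : ∀ φ : Fm (k + 1), φ.fv = ∅ → (f φ.code = true ↔ φ.Holds R O c)) :
    DecidableTheory (k + 1) R O c := by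
  classical
  obtain ⟨N, hN, h1, h2⟩ := norm_exists k
  have key : ∀ n, (∃ φ : Fm (k + 1), φ.fv = ∅ ∧ φ.code = n ∧ φ.Holds R O c) ↔
      ((N n = n ∧ occS n = 0) ∧ f n = true) := by
    intro n
    constructor
    · rintro ⟨φ, h3, rfl, h4⟩
      exact ⟨⟨h2 φ, (occS_code φ).2 h3⟩, (h φ h3).2 h4⟩
    · rintro ⟨⟨h3, h4⟩, h5⟩
      obtain ⟨φ, hφ⟩ := h1 n
      rw [h3] at hφ
      subst hφ
      have h6 := (occS_code φ).1 h4
      exact ⟨φ, h6, rfl, (h φ h6).1 h5⟩
  refine ComputablePred.of_eq ?_ (fun n => (key n).symm)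
  refine ⟨inferInstance, ?_⟩
  have e : (fun n => decide ((N n = n ∧ occS n = 0) ∧ f n = true)) =
      fun n => (decide (N n = n) && decide (occS n = 0)) && f n := by
    funext n
    by_cases h3 : N n = n <;> by_cases h4 : occS n = 0 <;> cases f n <;> simp [h3, h4]
  rw [e]
  have c1 : Computable fun n => decide (N n = n) :=
    (Primrec.eq.comp hN Primrec.id).decide.to_comp
  have c2 : Computable fun n => decide (occS n = 0) :=
    (Primrec.eq.comp occS_primrec (Primrec.const 0)).decide.to_comp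
  exact (Primrec.and.to_comp.comp (Primrec.and.to_comp.comp c1 c2) hf)

end Dec

variable (p : ℕ) [Fact p.Prime]

theorem towTrue_iff {R : Type} [CommRing R] {ρ : ℕ → R} (h : Tower p R ρ) (N c : ℕ) :
    TowTrue p N c ↔ semTr c (fun n => if n = 0 then ρ N else 0) := by
  constructor
  · intro h1
    exact h1 R ρ h
  · intro h1 R' _ ρ' h'
    exact (tower_sem h h' N c).1 h1

/-- A compatible system of roots of `t`. -/
theorem exists_roots (M : Pk p) : ∃ s : ℕ → M.Om, s 0 = M.t ∧ ∀ n, s (n + 1) ^ p = s n := by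
  have h : ∀ x : M.Om, ∃ y, y ^ p = x := fun x =>
    IsAlgClosed.exists_pow_nat_eq x (Fact.out : p.Prime).pos
  choose r hr using h
  exact ⟨fun n => Nat.rec M.t (fun _ x => r x) n, rfl, fun n => hr _⟩

theorem roots_pow {M : Pk p} {s : ℕ → M.Om} (h0 : s 0 = M.t) (h1 : ∀ n, s (n + 1) ^ p = s n)
    (n : ℕ) : s n ^ p ^ n = M.t := by
  induction n with
  | zero => rw [pow_zero, pow_one, h0]
  | succ n ih => rw [pow_succ', pow_mul, h1, ih]

theorem root_unique {M : Pk p} {x y : M.Om} {n : ℕ} (h : x ^ p ^ n = y ^ p ^ n) : x = y := by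
  have h1 : (x - y) ^ p ^ n = 0 := by rw [sub_pow_char_pow, h, sub_self]
  exact sub_eq_zero.1 (pow_eq_zero_iff (FTowAux.ne_zero_pow (p := p) n) |>.1 h1)

theorem transfer (g : ℕ → ℕ → Bool) (hg : Computable₂ g)
    (h : ∀ N c, g N c = true ↔ TowTrue p N c) :
    DecidableTheory 1 (FPerf p) (OPerf p) (fun _ => tPerf p) := by
  classical
  obtain ⟨MF, i, hO, ht⟩ := exists_FPk p
  obtain ⟨axs, haxs, hpk, hstr⟩ := axioms_exist p
  obtain ⟨s, hs, hsem⟩ := trunc_sentence p
  obtain ⟨S0, q0, hP0, hS0⟩ := hpk MF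
  obtain ⟨r, hr0, hr1⟩ := exists_roots p MF
  have htow := ftow p MF i hO ht r hr0 hr1
  -- truncated truth in the package of `FPerf`
  have hMF : ∀ (N c : ℕ) (x : MF.Om), x ^ p ^ N = MF.t →
      (semTr c (MF.par x) ↔ TowTrue p N c) := by
    intro N c x hx
    have hxr : x = r N := root_unique p (n := N) (by rw [hx, roots_pow p hr0 hr1])
    rw [towTrue_iff p htow N c, hxr]
    rfl
  let Γ : ℕ → ℕ := fun m => bif m.bodd then
    (bif g m.div2.unpair.1 m.div2.unpair.2 then s m.div2.unpair.1 m.div2.unpair.2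
      else Nat.pair 2 (s m.div2.unpair.1 m.div2.unpair.2)) else axs m.div2
  have hΓ : Computable Γ := by
    have hu1 : Computable fun m : ℕ => m.div2.unpair.1 :=
      (Primrec.fst.comp (Primrec.unpair.comp Primrec.nat_div2)).to_comp
    have hu2 : Computable fun m : ℕ => m.div2.unpair.2 :=
      (Primrec.snd.comp (Primrec.unpair.comp Primrec.nat_div2)).to_comp
    have h1 : Computable fun m : ℕ => s m.div2.unpair.1 m.div2.unpair.2 := hs.comp hu1 hu2
    have h2 : Computable fun m : ℕ => g m.div2.unpair.1 m.div2.unpair.2 := hg.comp hu1 hu2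
    have h3 : Computable fun m : ℕ => Nat.pair 2 (s m.div2.unpair.1 m.div2.unpair.2) :=
      Primrec₂.natPair.to_comp.comp (Computable.const 2) h1
    exact Computable.cond Primrec.nat_bodd.to_comp (Computable.cond h2 h1 h3)
      (haxs.comp Primrec.nat_div2.to_comp)
  have hΓe : ∀ n, Γ (2 * n) = axs n := by
    intro n
    simp [Γ, Nat.div2_val]
  have hΓo : ∀ N c, Γ (2 * Nat.pair N c + 1) =
      bif g N c then s N c else Nat.pair 2 (s N c) := by
    intro N c
    have h1 : (2 * Nat.pair N c + 1).bodd = true := by simp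
    have h2 : (2 * Nat.pair N c + 1).div2 = Nat.pair N c := by
      rw [Nat.div2_val]; omega
    simp only [Γ, h1, h2, Nat.unpair_pair, cond_true]
  have h0 : ∀ m, sem S0 (Γ m) (fun _ => S0.zero) := by
    intro m
    rcases Nat.even_or_odd' m with ⟨n, rfl | rfl⟩
    · rw [hΓe]
      exact hS0 n
    · obtain ⟨⟨N, c⟩, rfl⟩ := (Nat.pairEquiv).surjective n
      show sem S0 (Γ (2 * Nat.pair N c + 1)) _
      rw [hΓo]
      have h1 := hsem MF S0 q0 hP0 N c (r N) (roots_pow p hr0 hr1 N)
      rw [hMF N c (r N) (roots_pow p hr0 hr1 N), ← h N c] at h1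
      cases hgb : g N c with
      | true =>
        rw [hgb] at h1
        exact h1.2 rfl
      | false =>
        rw [hgb] at h1
        simp only [cond_false, sem_neg]
        intro h2
        exact Bool.false_ne_true (h1.1 h2)
  obtain ⟨nm, hnm, hnm1, hnm2⟩ := norm_exists 0
  have hc : ∀ c, ∀ S : Str, (∀ m, sem S (Γ m) (fun _ => S.zero)) →
      (sem S (nm c) (fun _ => S.zero) ↔ sem S0 (nm c) (fun _ => S0.zero)) := by
    intro c S hS
    obtain ⟨M', q', hP'⟩ := hstr S (fun m => by rw [← hΓe m]; exact hS _)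
    obtain ⟨φ, hφ⟩ := hnm1 c
    rw [hφ, hP'.sem_iff, hP0.sem_iff]
    simp only [hP'.zero, hP0.zero]
    symm
    apply G3
    intro N c' x x' hx hx'
    rw [← hsem MF S0 q0 hP0 N c' x hx, ← hsem M' S q' hP' N c' x' hx']
    have hb := hS (2 * Nat.pair N c' + 1)
    have hb0 := h0 (2 * Nat.pair N c' + 1)
    rw [hΓo] at hb hb0
    cases hgb : g N c' with
    | true =>
      rw [hgb] at hb hb0
      exact ⟨fun _ => hb, fun _ => hb0⟩
    | false =>
      rw [hgb] at hb hb0
      simp only [cond_false, sem_neg] at hb hb0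
      exact ⟨fun hh => absurd hh hb0, fun hh => absurd hh hb⟩
  obtain ⟨f, hf, hf2⟩ := decide_of_complete Γ hΓ S0 h0 nm hnm.to_comp hc
  refine DecidableTheory.of_fn f hf fun φ hφ => ?_
  rw [hf2, hnm2, hP0.sem_iff]
  simp only [hP0.zero]
  rw [MF.sat_iff φ (fun _ => 0) (fun _ => MF.K.zero_mem)]
  have hiso := φ.sat_equiv i (O := OPerf p) (O' := {x : MF.K | (x : MF.Om) ∈ MF.O})
    (fun x => (hO x).symm) (fun _ => tPerf p) (fun _ => 0)
  have ht' : (fun _ : Fin 1 => i (tPerf p)) = fun _ => (⟨MF.t, MF.t_mem_K⟩ : MF.K) := by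
    funext _
    exact Subtype.ext ht
  rw [ht'] at hiso
  have hz : (fun _ : ℕ => i (0 : FPerf p)) = fun _ => (⟨0, MF.K.zero_mem⟩ : MF.K) := by
    funext _
    exact map_zero i
  rw [hz] at hiso
  rw [← hiso]
  constructor
  · intro h1 e
    exact (φ.sat_congr _ _ (fun n hn => by rw [hφ] at hn; exact absurd hn (by simp))).1 h1
  · intro h1
    exact h1 _

theorem main :
    (∀ r : ℕ → PadicAlgCl p, r 0 = (p : PadicAlgCl p) → (∀ n, r (n + 1) ^ p = r n) →
      DecidableTheory 0 (KRoot p r) (OPadic p (KRoot p r)) Fin.elim0 →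
      DecidableTheory 1 (FPerf p) (OPerf p) (fun _ => tPerf p)) ∧
    (DecidableTheory 0 (KCyc p) (OPadic p (KCyc p)) Fin.elim0 →
      DecidableTheory 1 (FPerf p) (OPerf p) (fun _ => tPerf p)) := by
  constructor
  · intro r h0 h1 hdec
    obtain ⟨f, hf, hf2⟩ := hdec.fn
    obtain ⟨s, hs, hs2⟩ := towK p h0 h1
    refine transfer p (fun N c => f (s N c)) (hf.comp₂ hs) ?_
    intro N c
    obtain ⟨φ, h3, h4, h5⟩ := hs2 N c
    rw [← h4, hf2 φ h3, h5]
  · intro hdec
    obtain ⟨f, hf, hf2⟩ := hdec.fn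
    obtain ⟨s, hs, hs2⟩ := towC p
    refine transfer p (fun N c => f (s N c)) (hf.comp₂ hs) ?_
    intro N c
    obtain ⟨φ, h3, h4, h5⟩ := hs2 N c
    rw [← h4, hf2 φ h3, h5]

end Pool.Agent.H92.Tilt
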