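import Pool.Agent.H92.Tilt.B6b

/-! Module B6d: coarsenings. Values of conjugates agree for `O` (`val_eq_of_conj`), so automorphisms of
`acl L` over `L` preserve every coarser ring; then as for U1. For `W.coarser`: an `O`-simple root is an
`O'`-simple root (`SRoot.coarser`), so `cl O ≤ cl O'`. -/

set_option autoImplicit false

namespace Pool.Agent.H92.Tilt

open Polynomial

section aux

variable {Ω : Type*} [Field Ω] {O : ValuationSubring Ω}

/-- Equal values for a valuation ring are equal values for a coarser one. -/
theorem coarser_val_le {O' : ValuationSubring Ω} (hO : O ≤ O') {x y : Ω}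
    (h : O.valuation x ≤ O.valuation y) : O'.valuation x ≤ O'.valuation y := by
  rcases eq_or_ne y 0 with hy | hy
  · have hx : x = 0 := by
      rw [hy, map_zero] at h
      exact (map_eq_zero O.valuation).1 (le_antisymm h zero_le)
    rw [hx, hy]
  · have h1 : O.valuation (x / y) ≤ 1 := by
      rw [map_div₀]
      exact div_le_one_of_le₀ h zero_le
    have h2 : x / y ∈ O' := hO ((O.valuation_le_one_iff _).1 h1)
    have h3 := (O'.valuation_le_one_iff _).2 h2
    rw [map_div₀] at h3
    have hy0 : O'.valuation y ≠ 0 := (map_ne_zero O'.valuation).2 hy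
    exact (div_le_one₀ (zero_lt_iff.2 hy0)).1 h3

theorem coarser_val_eq {O' : ValuationSubring Ω} (hO : O ≤ O') {x y : Ω}
    (h : O.valuation x = O.valuation y) : O'.valuation x = O'.valuation y :=
  le_antisymm (coarser_val_le hO h.le) (coarser_val_le hO h.ge)

end aux

variable {Ω : Type*} [Field Ω] (p : ℕ) [Fact p.Prime] [CharP Ω p] [IsAlgClosed Ω]
  (O : ValuationSubring Ω)

theorem SRoot.coarser {L : Subfield Ω} {c : Ω} (h : SRoot O L c) {O' : ValuationSubring Ω}
    (hO : O ≤ O') : SRoot O' L c := by
  obtain ⟨f, h1, h2, h3, h4, h5⟩ := h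
  refine ⟨f, h1, h2, fun i => hO (h3 i), h4, ?_⟩
  have := coarser_val_eq hO (x := f.derivative.eval c) (y := 1) (by rw [h5, map_one])
  rw [this, map_one]

/-- An h-closed field is h-closed for every coarser valuation ring. -/
theorem hcl_coarser {L : Subfield Ω} (h1 : PCl p L) (h2 : HCl O L) {O' : ValuationSubring Ω}
    (hO : O ≤ O') : HCl O' L := by
  intro c a hc ha hca
  have hsep := hc.isSeparable
  have halg := hc.isAlgebraic
  have hint : IsIntegral L c := halg.isIntegral
  -- all conjugates of `c` are equal to `c`
  have hconj : ∀ c' : Ω, aeval c' (minpoly L c) = 0 → c' = c := by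
    intro c' hc'
    have hmin : minpoly L c' = minpoly L c :=
      (minpoly.eq_of_irreducible_of_monic (minpoly.irreducible hint) hc' (minpoly.monic hint)).symm
    obtain ⟨f, f1, f2, f3, f4, f5⟩ := hc
    -- `f` over `L`
    have hfl : ∃ F : Polynomial L, F.map (algebraMap L Ω) = f := by
      have : f ∈ Polynomial.lifts (algebraMap L Ω) := by
        rw [Polynomial.lifts_iff_coeff_lifts]
        intro n
        exact ⟨⟨f.coeff n, f2 n⟩, rfl⟩
      exact (Polynomial.mem_lifts f).1 this
    obtain ⟨F, hF⟩ := hfl
    have hFc : aeval c F = 0 := by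
      rw [aeval_def, ← eval_map, hF]; exact f4
    have hFc' : aeval c' F = 0 := by
      have hd := minpoly.dvd L c hFc
      obtain ⟨q, hq⟩ := hd
      rw [hq, map_mul, hc', zero_mul]
    have hfc' : f.eval c' = 0 := by
      rw [← hF, eval_map, ← aeval_def]; exact hFc'
    have hcO : c ∈ O' := root_memO O' f1 f3 f4
    refine unique_root O' f3 hcO f4 f5 hfc' ?_
    -- values
    have hv : O.valuation (c - a) = O.valuation (c' - a) := by
      refine val_eq_of_conj p O h2 ?_ ?_
      · exact halg.sub (isAlgebraic_of_mem ha)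
      · have e1 := minpoly.sub_algebraMap (A := L) (B := Ω) c (⟨a, ha⟩ : L)
        have e2 := minpoly.sub_algebraMap (A := L) (B := Ω) c' (⟨a, ha⟩ : L)
        have e3 : (algebraMap L Ω) (⟨a, ha⟩ : L) = a := rfl
        rw [e3] at e1 e2
        rw [e1, e2, hmin]
    have hv' := coarser_val_eq hO hv
    have e : c' - c = (c' - a) - (c - a) := by ring
    rw [e]
    refine lt_of_le_of_lt (O'.valuation.map_sub _ _) ?_
    rw [← hv', max_self]
    exact hca
  have hspl : ((minpoly L c).map (algebraMap L Ω)).Splits := IsAlgClosed.splits _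
  classical
  have hroots : ((minpoly L c).map (algebraMap L Ω)).roots = {c} := by
    have hnd : ((minpoly L c).map (algebraMap L Ω)).roots.Nodup := by
      apply nodup_roots
      exact Polynomial.Separable.map (show (minpoly L c).Separable from hsep)
    have hne : (minpoly L c).map (algebraMap L Ω) ≠ 0 :=
      ((minpoly.monic hint).map _).ne_zero
    refine (Multiset.nodup_iff_count_le_one.1 hnd |> fun h => ?_)
    ext x
    rw [Multiset.count_singleton]
    split_ifs with hx
    · rw [hx]
      refine le_antisymm (h c) ?_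
      rw [Multiset.one_le_count_iff_mem, mem_roots hne, IsRoot.def, eval_map, ← aeval_def]
      exact minpoly.aeval L c
    · rw [Multiset.count_eq_zero]
      intro hx'
      rw [mem_roots hne, IsRoot.def, eval_map, ← aeval_def] at hx'
      exact hx (hconj x hx')
  have hdeg : (minpoly L c).natDegree = 1 := by
    rw [← natDegree_map (algebraMap L Ω), hspl.natDegree_eq_card_roots, hroots]
    rfl
  obtain ⟨y, hy⟩ := minpoly.natDegree_eq_one_iff.1 hdeg
  rw [← hy]
  exact y.2

/-- `W` passes to coarser valuation rings. -/
theorem W.coarser {B : Subfield Ω} (h : W p O B) {O' : ValuationSubring Ω} (hO : O ≤ O') :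
    W p O' B := by
  refine ⟨h.pcl, hcl_coarser p O h.pcl h.hcl hO, fun x hx => ?_⟩
  have h1 := h.alg x hx
  exact (cl_min (le_cl B) (cl_pcl B) (fun c hc => cl_scl B c (SRoot.coarser O hc hO))) h1

end Pool.Agent.H92.Tilt
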