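import Pool.Agent.H92.Tilt.Basic

/-!
Module AMB: replacing the ambient field `Ω` by an algebraically closed subfield `Ω0`
(`Ω0 : Subfield Ω`, relatively algebraically closed). For `L : Subfield Ω`, `rst Ω0 L` is the
subfield `L ∩ Ω0` of `Ω0`; `rsO Ω0 O` is the induced valuation ring.
-/

set_option autoImplicit false

namespace Pool.Agent.H92.Tilt

open Polynomial

variable {Ω : Type*} [Field Ω] (Ω0 : Subfield Ω)

/-- The subfield of `Ω0` induced by `L`. -/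
def rst (L : Subfield Ω) : Subfield Ω0 := L.comap Ω0.subtype

/-- The induced valuation ring of `Ω0`. -/
def rsO (O : ValuationSubring Ω) : ValuationSubring Ω0 := O.comap Ω0.subtype

theorem mem_rst (L : Subfield Ω) (x : Ω0) : x ∈ rst Ω0 L ↔ (x : Ω) ∈ L := Iff.rfl

theorem mem_rsO (O : ValuationSubring Ω) (x : Ω0) : x ∈ rsO Ω0 O ↔ (x : Ω) ∈ O := Iff.rfl

section Aux

/-- Comparison of values by divisibility. -/
theorem val_le_iff_div {F : Type*} [Field F] (O : ValuationSubring F) {x y : F} (hy : y ≠ 0) :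
    O.valuation x ≤ O.valuation y ↔ x / y ∈ O := by
  rw [← O.valuation_le_one_iff, map_div₀]
  have h0 : (0 : O.ValueGroup) < O.valuation y := by
    rw [zero_lt_iff]
    exact (O.valuation.ne_zero_iff).2 hy
  exact (div_le_one₀ h0).symm

theorem rst_mono {L L' : Subfield Ω} (h : L ≤ L') : rst Ω0 L ≤ rst Ω0 L' := fun _ hx => h hx

theorem rst_map (F : Subfield Ω0) : rst Ω0 (F.map Ω0.subtype) = F := by
  ext x
  rw [mem_rst]
  constructor
  · rintro ⟨y, hy, hxy⟩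
    have : y = x := Subtype.ext hxy
    rw [← this]; exact hy
  · intro hx
    exact ⟨x, hx, rfl⟩

theorem map_le_amb (F : Subfield Ω0) : F.map Ω0.subtype ≤ Ω0 := by
  rintro _ ⟨y, -, rfl⟩
  exact y.2

theorem mem_map_amb (F : Subfield Ω0) (x : Ω0) : (x : Ω) ∈ F.map Ω0.subtype ↔ x ∈ F := by
  have := mem_rst Ω0 (F.map Ω0.subtype) x
  rw [rst_map] at this
  exact this.symm

theorem map_rst {L : Subfield Ω} (hL : L ≤ Ω0) : (rst Ω0 L).map Ω0.subtype = L := by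
  ext x
  constructor
  · rintro ⟨y, hy, rfl⟩
    exact hy
  · intro hx
    exact ⟨⟨x, hL hx⟩, hx, rfl⟩

/-- Lift a polynomial with coefficients in `Ω0`. -/
theorem exists_lift_poly (h : Polynomial Ω) (hh : ∀ i, h.coeff i ∈ Ω0) :
    ∃ q : Polynomial Ω0, q.map Ω0.subtype = h ∧ (∀ i, ((q.coeff i : Ω0) : Ω) = h.coeff i) := by
  have h1 : h ∈ Polynomial.lifts Ω0.subtype := by
    rw [Polynomial.lifts_iff_coeff_lifts]
    intro i
    exact ⟨⟨h.coeff i, hh i⟩, rfl⟩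
  obtain ⟨q, hq⟩ := (Polynomial.mem_lifts _).1 h1
  refine ⟨q, hq, fun i => ?_⟩
  rw [← hq, Polynomial.coeff_map]
  rfl

theorem eval_coe_amb (q : Polynomial Ω0) (x : Ω0) :
    (q.map Ω0.subtype).eval (x : Ω) = ((q.eval x : Ω0) : Ω) := by
  have := Polynomial.eval_map_apply (f := Ω0.subtype) (p := q) x
  exact this

end Aux

theorem rsO_val_le (O : ValuationSubring Ω) (x y : Ω0) :
    (rsO Ω0 O).valuation x ≤ (rsO Ω0 O).valuation y ↔
      O.valuation (x : Ω) ≤ O.valuation (y : Ω) := by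
  by_cases hy : y = 0
  · subst hy
    rw [map_zero, le_zero_iff, (rsO Ω0 O).valuation.zero_iff, ZeroMemClass.coe_zero, map_zero,
      le_zero_iff, O.valuation.zero_iff, ZeroMemClass.coe_eq_zero]
  · have hy' : (y : Ω) ≠ 0 := fun h => hy (Subtype.ext h)
    rw [val_le_iff_div _ hy, val_le_iff_div _ hy', mem_rsO]
    rfl

theorem rsO_val_lt (O : ValuationSubring Ω) (x y : Ω0) :
    (rsO Ω0 O).valuation x < (rsO Ω0 O).valuation y ↔
      O.valuation (x : Ω) < O.valuation (y : Ω) := by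
  rw [← not_le, ← not_le, rsO_val_le]

theorem rsO_val_eq (O : ValuationSubring Ω) (x y : Ω0) :
    (rsO Ω0 O).valuation x = (rsO Ω0 O).valuation y ↔
      O.valuation (x : Ω) = O.valuation (y : Ω) := by
  rw [le_antisymm_iff, le_antisymm_iff, rsO_val_le, rsO_val_le]

theorem rsO_val_lt_one (O : ValuationSubring Ω) (x : Ω0) :
    (rsO Ω0 O).valuation x < 1 ↔ O.valuation (x : Ω) < 1 := by
  have := rsO_val_lt Ω0 O x 1
  rwa [map_one, OneMemClass.coe_one, map_one] at this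

theorem rsO_val_eq_one (O : ValuationSubring Ω) (x : Ω0) :
    (rsO Ω0 O).valuation x = 1 ↔ O.valuation (x : Ω) = 1 := by
  have := rsO_val_eq Ω0 O x 1
  rwa [map_one, OneMemClass.coe_one, map_one] at this

theorem isAlgClosed_sub [IsAlgClosed Ω] (h : ∀ x, IsAlgebraic Ω0 x → x ∈ Ω0) :
    IsAlgClosed Ω0 := by
  refine IsAlgClosed.of_exists_root _ fun q hm hq => ?_
  have hd : (q.map Ω0.subtype).degree ≠ 0 := by
    rw [Polynomial.degree_map]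
    exact (Polynomial.degree_pos_of_irreducible hq).ne'
  obtain ⟨x, hx⟩ := IsAlgClosed.exists_root _ hd
  have hx0 : x ∈ Ω0 := by
    refine h x ⟨q, hq.ne_zero, ?_⟩
    rw [Polynomial.aeval_def, ← Polynomial.eval_map]
    exact hx
  refine ⟨⟨x, hx0⟩, ?_⟩
  have h1 := eval_coe_amb Ω0 q ⟨x, hx0⟩
  rw [Polynomial.IsRoot.def] at hx
  rw [hx] at h1
  exact Subtype.ext h1.symm

theorem isAlgebraic_rst {L : Subfield Ω} (hL : L ≤ Ω0) (x : Ω0) :
    IsAlgebraic (rst Ω0 L) x ↔ IsAlgebraic L (x : Ω) := by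
  rw [isAlgebraic_iff, isAlgebraic_iff]
  constructor
  · rintro ⟨h, h0, h1, h2⟩
    refine ⟨h.map Ω0.subtype, ?_, ?_, ?_⟩
    · exact (Polynomial.map_ne_zero_iff Ω0.subtype.injective).2 h0
    · intro i
      rw [Polynomial.coeff_map]
      exact h1 i
    · rw [eval_coe_amb, h2]; rfl
  · rintro ⟨h, h0, h1, h2⟩
    obtain ⟨q, hq, hqc⟩ := exists_lift_poly Ω0 h fun i => hL (h1 i)
    refine ⟨q, ?_, ?_, ?_⟩
    · rintro rfl
      apply h0
      rw [← hq, Polynomial.map_zero]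
    · intro i
      rw [mem_rst, hqc]
      exact h1 i
    · apply Subtype.ext
      rw [← eval_coe_amb, hq, h2]; rfl

/-- `L` and `rst Ω0 L` are isomorphic. -/
def rstEquiv {L : Subfield Ω} (hL : L ≤ Ω0) : rst Ω0 L ≃+* L where
  toFun x := ⟨((x : Ω0) : Ω), x.2⟩
  invFun x := ⟨⟨x, hL x.2⟩, x.2⟩
  left_inv _ := rfl
  right_inv _ := rfl
  map_mul' _ _ := rfl
  map_add' _ _ := rfl

theorem minpoly_rst {L : Subfield Ω} (hL : L ≤ Ω0) (x : Ω0) :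
    (minpoly (rst Ω0 L) x).map (rstEquiv Ω0 hL : rst Ω0 L →+* L) = minpoly L (x : Ω) := by
  by_cases hx : IsAlgebraic (rst Ω0 L) x
  · have hx' := (isAlgebraic_rst Ω0 hL x).1 hx
    refine minpoly.eq_of_irreducible_of_monic ?_ ?_ ?_
    · have := (minpoly.irreducible hx.isIntegral)
      exact (MulEquiv.irreducible_iff (Polynomial.mapEquiv (rstEquiv Ω0 hL))).2 this
    · have h1 := minpoly.aeval (rst Ω0 L) x
      have h2 : (algebraMap L Ω).comp (rstEquiv Ω0 hL : rst Ω0 L →+* L) =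
          Ω0.subtype.comp (algebraMap (rst Ω0 L) Ω0) := by
        ext y; rfl
      rw [Polynomial.aeval_def, Polynomial.eval₂_map, h2]
      have h3 := congrArg Ω0.subtype h1
      rw [Polynomial.aeval_def, Polynomial.hom_eval₂, map_zero] at h3
      exact h3
    · exact (minpoly.monic hx.isIntegral).map _
  · have hx' : ¬ IsAlgebraic L (x : Ω) := fun h => hx ((isAlgebraic_rst Ω0 hL x).2 h)
    rw [minpoly.eq_zero (fun h => hx h.isAlgebraic), Polynomial.map_zero,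
      minpoly.eq_zero (fun h => hx' h.isAlgebraic)]

theorem isSeparable_rst {L : Subfield Ω} (hL : L ≤ Ω0) (x : Ω0) :
    IsSeparable (rst Ω0 L) x ↔ IsSeparable L (x : Ω) := by
  unfold IsSeparable
  rw [← minpoly_rst Ω0 hL x, Polynomial.separable_map]

/-- If `Ω0 = acl L`, then `Ω0` is algebraic over `L`. -/
theorem algebra_isAlgebraic_rst {L : Subfield Ω} (hL : L ≤ Ω0)
    (h : ∀ x ∈ Ω0, IsAlgebraic L x) : Algebra.IsAlgebraic (rst Ω0 L) Ω0 :=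
  ⟨fun x => (isAlgebraic_rst Ω0 hL x).2 (h x x.2)⟩

theorem sroot_rst (O : ValuationSubring Ω) {L : Subfield Ω} (hL : L ≤ Ω0) (c : Ω0) :
    SRoot (rsO Ω0 O) (rst Ω0 L) c ↔ SRoot O L (c : Ω) := by
  constructor
  · rintro ⟨h, h1, h2, h3, h4, h5⟩
    refine ⟨h.map Ω0.subtype, h1.map _, ?_, ?_, ?_, ?_⟩
    · intro i
      rw [Polynomial.coeff_map]
      exact h2 i
    · intro i
      rw [Polynomial.coeff_map]
      exact h3 i
    · rw [eval_coe_amb, h4]; rfl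
    · rw [Polynomial.derivative_map, eval_coe_amb]
      exact (rsO_val_eq_one Ω0 O _).1 h5
  · rintro ⟨h, h1, h2, h3, h4, h5⟩
    obtain ⟨q, hq, hqc⟩ := exists_lift_poly Ω0 h fun i => hL (h2 i)
    refine ⟨q, ?_, ?_, ?_, ?_, ?_⟩
    · refine Polynomial.monic_of_injective Ω0.subtype.injective ?_
      rw [hq]; exact h1
    · intro i
      rw [mem_rst, hqc]
      exact h2 i
    · intro i
      rw [mem_rsO, hqc]
      exact h3 i
    · apply Subtype.ext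
      rw [← eval_coe_amb, hq, h4]; rfl
    · rw [rsO_val_eq_one, ← eval_coe_amb, ← Polynomial.derivative_map, hq]
      exact h5

theorem adj_rst {L : Subfield Ω} (hL : L ≤ Ω0) (S : Set Ω0) :
    rst Ω0 (adj L ((↑) '' S)) = adj (rst Ω0 L) S := by
  have h1 : (adj (rst Ω0 L) S).map Ω0.subtype = adj L ((↑) '' S) := by
    apply le_antisymm
    · rw [Subfield.map_le_iff_le_comap]
      refine adj_le ?_ ?_
      · intro x hx
        exact le_adj _ _ hx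
      · intro x hx
        exact subset_adj _ _ ⟨x, hx, rfl⟩
    · refine adj_le ?_ ?_
      · intro x hx
        exact ⟨⟨x, hL hx⟩, le_adj _ _ hx, rfl⟩
      · rintro _ ⟨x, hx, rfl⟩
        exact ⟨x, subset_adj _ _ hx, rfl⟩
  rw [← h1, rst_map]

section Closed

variable (h0 : ∀ x, IsAlgebraic Ω0 x → x ∈ Ω0) {p : ℕ} [Fact p.Prime] (O : ValuationSubring Ω)
include h0

theorem mem_amb_of_alg {L : Subfield Ω} (hL : L ≤ Ω0) {x : Ω} (hx : IsAlgebraic L x) : x ∈ Ω0 :=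
  h0 x (isAlgebraic_mono hL hx)

theorem mem_amb_of_pow {L : Subfield Ω} (hL : L ≤ Ω0) {x : Ω} (hx : x ^ p ∈ L) : x ∈ Ω0 := by
  refine mem_amb_of_alg Ω0 h0 hL ?_
  have hp : 0 < p := (Fact.out : p.Prime).pos
  exact (isAlgebraic_of_mem hx).of_pow hp

theorem pcl_rst {L : Subfield Ω} (hL : L ≤ Ω0) : PCl p (rst Ω0 L) ↔ PCl p L := by
  constructor
  · intro h x hx
    have hx0 := mem_amb_of_pow Ω0 h0 hL hx
    exact h ⟨x, hx0⟩ hx
  · intro h x hx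
    exact h x hx

theorem hcl_rst {L : Subfield Ω} (hL : L ≤ Ω0) : HCl (rsO Ω0 O) (rst Ω0 L) ↔ HCl O L := by
  constructor
  · intro h c a hc ha hca
    have hc0 : c ∈ Ω0 := mem_amb_of_alg Ω0 h0 hL hc.isAlgebraic
    exact h ⟨c, hc0⟩ ⟨a, hL ha⟩ ((sroot_rst Ω0 O hL ⟨c, hc0⟩).2 hc) ha
      ((rsO_val_lt_one Ω0 O _).2 hca)
  · intro h c a hc ha hca
    exact h c a ((sroot_rst Ω0 O hL c).1 hc) ha ((rsO_val_lt_one Ω0 O _).1 hca)

theorem scl_rst {L : Subfield Ω} (hL : L ≤ Ω0) : SCl (rsO Ω0 O) (rst Ω0 L) ↔ SCl O L := by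
  constructor
  · intro h c hc
    have hc0 : c ∈ Ω0 := mem_amb_of_alg Ω0 h0 hL hc.isAlgebraic
    exact h ⟨c, hc0⟩ ((sroot_rst Ω0 O hL ⟨c, hc0⟩).2 hc)
  · intro h c hc
    exact h c ((sroot_rst Ω0 O hL c).1 hc)

theorem HC_le_amb {L : Subfield Ω} (hL : L ≤ Ω0) : HC O L ≤ Ω0 :=
  fun _ hx => mem_amb_of_alg Ω0 h0 hL (HC_alg L hx)

theorem HC_rst {L : Subfield Ω} (hL : L ≤ Ω0) (x : Ω0) :
    x ∈ HC (rsO Ω0 O) (rst Ω0 L) ↔ (x : Ω) ∈ HC O L := by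
  constructor
  · intro hx
    have h1 : HC (rsO Ω0 O) (rst Ω0 L) ≤ rst Ω0 (HC O L) :=
      HC_min (rst_mono Ω0 (le_HC L)) ((scl_rst Ω0 h0 O (HC_le_amb Ω0 h0 O hL)).2 (HC_scl L))
    exact h1 hx
  · intro hx
    have h1 : HC O L ≤ (HC (rsO Ω0 O) (rst Ω0 L)).map Ω0.subtype := by
      refine HC_min ?_ ?_
      · intro y hy
        exact ⟨⟨y, hL hy⟩, le_HC _ hy, rfl⟩
      · rw [← scl_rst Ω0 h0 O (map_le_amb Ω0 _), rst_map]
        exact HC_scl _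
    exact (mem_map_amb Ω0 _ x).1 (h1 hx)

omit h0 in
theorem clIn_rst {N F : Subfield Ω} (hN : N ≤ Ω0) (hF : F ≤ Ω0) :
    ClIn p (rsO Ω0 O) (rst Ω0 N) (rst Ω0 F) ↔ ClIn p O N F := by
  constructor
  · rintro ⟨h1, h2⟩
    refine ⟨fun y hy hyp => ?_, fun c hc hcr => ?_⟩
    · exact h1 ⟨y, hN hy⟩ hy hyp
    · exact h2 ⟨c, hN hc⟩ hc ((sroot_rst Ω0 O hF ⟨c, hN hc⟩).2 hcr)
  · rintro ⟨h1, h2⟩
    refine ⟨fun y hy hyp => h1 y hy hyp, fun c hc hcr => ?_⟩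
    exact h2 c hc ((sroot_rst Ω0 O hF c).1 hcr)

theorem clIn_top_rst {F : Subfield Ω} (hF : F ≤ Ω0) :
    ClIn p (rsO Ω0 O) ⊤ (rst Ω0 F) ↔ ClIn p O ⊤ F := by
  constructor
  · rintro ⟨h1, h2⟩
    refine ⟨fun y _ hyp => ?_, fun c _ hcr => ?_⟩
    · exact h1 ⟨y, mem_amb_of_pow Ω0 h0 hF hyp⟩ (Subfield.mem_top _) hyp
    · have hc0 : c ∈ Ω0 := mem_amb_of_alg Ω0 h0 hF hcr.isAlgebraic
      exact h2 ⟨c, hc0⟩ (Subfield.mem_top _) ((sroot_rst Ω0 O hF ⟨c, hc0⟩).2 hcr)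
  · rintro ⟨h1, h2⟩
    refine ⟨fun y _ hyp => h1 y (Subfield.mem_top _) hyp, fun c _ hcr => ?_⟩
    exact h2 c (Subfield.mem_top _) ((sroot_rst Ω0 O hF c).1 hcr)

omit h0 in
theorem clN_rst_aux {N L : Subfield Ω} (hL : L ≤ N) (hN : N ≤ Ω0) (x : Ω0) :
    x ∈ clN p (rsO Ω0 O) (rst Ω0 N) (rst Ω0 L) ↔ (x : Ω) ∈ clN p O N L := by
  constructor
  · intro hx
    have h1 : clN p (rsO Ω0 O) (rst Ω0 N) (rst Ω0 L) ≤ rst Ω0 (clN p O N L) :=
      clN_min (rst_mono Ω0 (le_clN N L))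
        ((clIn_rst Ω0 O hN ((clN_le hL).trans hN)).2 (clN_clIn N L))
    exact h1 hx
  · intro hx
    have h1 : clN p O N L ≤ (clN p (rsO Ω0 O) (rst Ω0 N) (rst Ω0 L)).map Ω0.subtype := by
      refine clN_min ?_ ?_
      · intro y hy
        exact ⟨⟨y, hN (hL hy)⟩, le_clN _ _ hy, rfl⟩
      · rw [← clIn_rst Ω0 O hN (map_le_amb Ω0 _), rst_map]
        exact clN_clIn _ _
    exact (mem_map_amb Ω0 _ x).1 (h1 hx)

theorem clN_rst {N L : Subfield Ω} (hL : L ≤ N) (hN : N ≤ Ω0) (x : Ω0) :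
    x ∈ clN p (rsO Ω0 O) (rst Ω0 N) (rst Ω0 L) ↔ (x : Ω) ∈ clN p O N L :=
  clN_rst_aux Ω0 O hL hN x

theorem cl_le_amb {L : Subfield Ω} (hL : L ≤ Ω0) : cl p O L ≤ Ω0 :=
  fun _ hx => mem_amb_of_alg Ω0 h0 hL (clN_alg ⊤ L hx)

theorem cl_rst {L : Subfield Ω} (hL : L ≤ Ω0) (x : Ω0) :
    x ∈ cl p (rsO Ω0 O) (rst Ω0 L) ↔ (x : Ω) ∈ cl p O L := by
  constructor
  · intro hx
    have h1 : cl p (rsO Ω0 O) (rst Ω0 L) ≤ rst Ω0 (cl p O L) :=
      clN_min (rst_mono Ω0 (le_cl L))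
        ((clIn_top_rst Ω0 h0 O (cl_le_amb Ω0 h0 O hL)).2 (clN_clIn ⊤ L))
    exact h1 hx
  · intro hx
    have h1 : cl p O L ≤ (cl p (rsO Ω0 O) (rst Ω0 L)).map Ω0.subtype := by
      refine clN_min ?_ ?_
      · intro y hy
        exact ⟨⟨y, hL hy⟩, le_cl _ hy, rfl⟩
      · rw [← clIn_top_rst Ω0 h0 O (map_le_amb Ω0 _), rst_map]
        exact clN_clIn _ _
    exact (mem_map_amb Ω0 _ x).1 (h1 hx)

theorem W_rst {L : Subfield Ω} (hL : L ≤ Ω0) : W p (rsO Ω0 O) (rst Ω0 L) ↔ W p O L := by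
  constructor
  · rintro ⟨h1, h2, h3⟩
    refine ⟨(pcl_rst Ω0 h0 hL).1 h1, (hcl_rst Ω0 h0 O hL).1 h2, fun x hx => ?_⟩
    have hx0 : x ∈ Ω0 := mem_amb_of_alg Ω0 h0 hL hx
    exact (cl_rst Ω0 h0 O hL ⟨x, hx0⟩).1 (h3 ⟨x, hx0⟩ ((isAlgebraic_rst Ω0 hL ⟨x, hx0⟩).2 hx))
  · rintro ⟨h1, h2, h3⟩
    exact ⟨(pcl_rst Ω0 h0 hL).2 h1, (hcl_rst Ω0 h0 O hL).2 h2, fun x hx =>
      (cl_rst Ω0 h0 O hL x).2 (h3 x ((isAlgebraic_rst Ω0 hL x).1 hx))⟩

end Closed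

theorem acl_rst {L : Subfield Ω} (hL : L ≤ Ω0) (x : Ω0) :
    x ∈ acl (rst Ω0 L) ↔ (x : Ω) ∈ acl L := by
  rw [mem_acl, mem_acl, isAlgebraic_rst Ω0 hL]

theorem resEq_rst (O : ValuationSubring Ω) {B K : Subfield Ω} (hB : B ≤ Ω0) (hK : K ≤ Ω0) :
    ResEq (rsO Ω0 O) (rst Ω0 B) (rst Ω0 K) ↔ ResEq O B K := by
  constructor
  · intro h x hx hxO
    obtain ⟨b, hb, hxb⟩ := h ⟨x, hK hx⟩ hx hxO
    exact ⟨b, hb, (rsO_val_lt_one Ω0 O _).1 hxb⟩
  · intro h x hx hxO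
    obtain ⟨b, hb, hxb⟩ := h x hx hxO
    exact ⟨⟨b, hB hb⟩, hb, (rsO_val_lt_one Ω0 O _).2 hxb⟩

theorem valEq_rst (O : ValuationSubring Ω) {B K : Subfield Ω} (hB : B ≤ Ω0) (hK : K ≤ Ω0) :
    ValEq (rsO Ω0 O) (rst Ω0 B) (rst Ω0 K) ↔ ValEq O B K := by
  constructor
  · intro h x hx hx0
    obtain ⟨b, hb, hxb⟩ := h ⟨x, hK hx⟩ hx fun h0 => hx0 (congrArg Subtype.val h0)
    exact ⟨b, hb, (rsO_val_eq Ω0 O _ _).1 hxb⟩
  · intro h x hx hx0
    obtain ⟨b, hb, hxb⟩ := h x hx fun h0 => hx0 (Subtype.ext h0)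
    exact ⟨⟨b, hB hb⟩, hb, (rsO_val_eq Ω0 O _ _).2 hxb⟩

theorem rac_rst {B K : Subfield Ω} (hB : B ≤ Ω0) (hK : K ≤ Ω0) :
    RAC (rst Ω0 B) (rst Ω0 K) ↔ RAC B K := by
  constructor
  · intro h x hx hxa
    exact h ⟨x, hK hx⟩ hx ((isAlgebraic_rst Ω0 hB ⟨x, hK hx⟩).2 hxa)
  · intro h x hx hxa
    exact h x hx ((isAlgebraic_rst Ω0 hB x).1 hxa)

theorem tr1_rst {B K : Subfield Ω} (hB : B ≤ Ω0) (hK : K ≤ Ω0) :
    Tr1 (rst Ω0 B) (rst Ω0 K) ↔ Tr1 B K := by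
  have key : ∀ z : Ω0, rst Ω0 (adj B {(z : Ω)}) = adj (rst Ω0 B) {z} := by
    intro z
    rw [← adj_rst Ω0 hB {z}, Set.image_singleton]
  have key2 : ∀ z : Ω0, adj B {(z : Ω)} ≤ Ω0 := fun z =>
    adj_le hB (by rintro _ rfl; exact z.2)
  constructor
  · rintro ⟨z, hz, hza, h⟩
    refine ⟨z, hz, fun hh => hza ((isAlgebraic_rst Ω0 hB z).2 hh), fun x hx => ?_⟩
    have h1 := h ⟨x, hK hx⟩ hx
    rw [← key] at h1
    exact (isAlgebraic_rst Ω0 (key2 z) ⟨x, hK hx⟩).1 h1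
  · rintro ⟨z, hz, hza, h⟩
    refine ⟨⟨z, hK hz⟩, hz, fun hh => hza ((isAlgebraic_rst Ω0 hB ⟨z, hK hz⟩).1 hh),
      fun x hx => ?_⟩
    rw [← key, isAlgebraic_rst Ω0 (key2 ⟨z, hK hz⟩)]
    exact h x hx

theorem algIndep_rst {ι : Type*} {A : Subfield Ω} (hA : A ≤ Ω0) (T : ι → Ω0) :
    AlgebraicIndependent (rst Ω0 A) T ↔ AlgebraicIndependent A (fun i => (T i : Ω)) := by
  have h := algebraicIndependent_ringHom_iff_of_comp_eq (x := T) (rstEquiv Ω0 hA) Ω0.subtype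
    Ω0.subtype.injective (by ext y; rfl)
  exact h.symm

theorem orth_rst {p : ℕ} {ι : Type*} [Fintype ι] [DecidableEq ι] (O : ValuationSubring Ω)
    {L : Subfield Ω} (hL : L ≤ Ω0) (T : ι → Ω0) :
    Orth p (rsO Ω0 O) (rst Ω0 L) T ↔ Orth p O L (fun i => (T i : Ω)) := by
  have hmon : ∀ α : ι → Fin p, ((mon T α : Ω0) : Ω) = mon (fun i => (T i : Ω)) α := by
    intro α
    simp only [mon]
    push_cast
    rfl
  have hps : ∀ u : (ι → Fin p) → Ω0, ((psum T u : Ω0) : Ω) =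
      psum (fun i => (T i : Ω)) (fun α => (u α : Ω)) := by
    intro u
    simp only [psum]
    push_cast
    exact Finset.sum_congr rfl fun α _ => by rw [hmon]
  constructor
  · intro h u hu α
    have h1 := h (fun α => ⟨u α, hL (hu α)⟩) hu α
    rw [rsO_val_le, hps] at h1
    push_cast at h1
    rw [hmon] at h1
    exact h1
  · intro h u hu α
    have h1 := h (fun α => (u α : Ω)) hu α
    rw [rsO_val_le, hps]
    push_cast
    rw [hmon]
    exact h1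

end Pool.Agent.H92.Tilt
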