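import Pool.Agent.H92.Tilt.Basic
import Pool.Agent.H58.Tilt.GalVal
import Pool.Agent.H58.Tilt.Gal

/-!
Module B1. (Paper: B1, B2, B3 and uniqueness.)

B1 `fix_scl_pcl`: if `c` is a simple root of `h` over `Fix σ`, then `σ c` is a root of `h` congruent
to `c` (`c ∈ O`), so `σ c = c` by `unique_root`.

B2 `val_eq_of_conj`: we may replace `x` by `x ^ (p ^ j)`, separable over `L` (conjugates correspond).
Let `x_1, .., x_n` be the distinct conjugates, `J` the set of `i` with `v x_i` maximal, `b = |J|`, and
suppose `J` is not everything. `e := ∑_{|J'| = b} ∏_{i ∈ J'} x_i ∈ L` has `v e = v (π_J)`,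
`π_J := ∏_{i ∈ J} x_i`, because every other product is smaller. The elements
`π_{J'} / e` are the roots of a monic polynomial over `L ∩ O` and `π_J / e` is `≡ 1`, all others are
in the maximal ideal: so `π_J / e` is a simple root congruent to `1`, hence `π_J ∈ L`. So `J` is stable
under the Galois group (any `σ` maps `π_J` to `π_{σJ}`, and `v π_{J'} < v π_J` for `J' ≠ J`):
contradiction with transitivity.

`unique_ext`: for `x ∈ O1`, all conjugates over `L` have the same `O1`-value, so the minimal polynomial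
of `x` over `L` has coefficients in `O1 ∩ L = O2 ∩ L`, so `x` is integral over `O2`, `x ∈ O2`. Hence
`O1 ≤ O2`. If `x ∈ O2`, `x ∉ O1`, then by `val_torsion` there are `n > 0`, `l ∈ L` with
`l / x ^ n` a unit of `O1`, so a unit of `O2`: `l ∈ O2 ∩ L = O1 ∩ L`, contradiction with
`v_1 (x ^ n) > 1`.

B3 `res_fix`: the residue field of `Ω` is purely inseparable over the residue field of the s-closed
field `L`: for `x ∈ O` there is `j` and `c ∈ L` with `v (x ^ (p ^ j) - c) < 1` (lift the separable
minimal polynomial of a `p ^ j`-th power of the residue to a monic polynomial over `L ∩ O`; a root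
congruent to `x ^ (p ^ j)` is a simple root over `L`, so it is in `L`). Then
`(σ x - x) ^ (p ^ j) = (σ (x ^ (p ^ j)) - c) - (x ^ (p ^ j) - c)` is in the maximal ideal.
-/

set_option autoImplicit false

namespace Pool.Agent.H92.Tilt

open Polynomial

variable {Ω : Type*} [Field Ω]

theorem fix_scl_pcl (p : ℕ) [Fact p.Prime] [CharP Ω p] (O : ValuationSubring Ω)
    (σ : Ω ≃+* Ω) (hO : ∀ x ∈ O, σ x ∈ O) (hres : ∀ x ∈ O, O.valuation (σ x - x) < 1)
    (L : Subfield Ω) (hL : ∀ x, x ∈ L ↔ σ x = x) : SCl O L ∧ PCl p L := by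
  constructor
  · intro c hc
    have hcO := hc.memO
    obtain ⟨f, hm, hfL, hfO, h0, hd⟩ := hc
    rw [hL]
    refine unique_root O hfO hcO h0 hd ?_ (hres c hcO)
    have e1 : f.eval (σ c) = σ (f.eval c) := by
      rw [eval_eq_sum_range, eval_eq_sum_range, map_sum]
      refine Finset.sum_congr rfl fun i _ => ?_
      rw [map_mul, map_pow, (hL _).1 (hfL i)]
    rw [e1, h0, map_zero]
  · intro x hx
    rw [hL] at hx ⊢
    rw [map_pow] at hx
    have h1 : (σ x - x) ^ p = 0 := by rw [sub_pow_char, hx, sub_self]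
    exact sub_eq_zero.1 (pow_eq_zero_iff (Fact.out : p.Prime).ne_zero |>.1 h1)

/-- a `p`-power of an algebraic element is separable -/
theorem b1_exists_sep_pow (p : ℕ) [Fact p.Prime] [CharP Ω p] {L : Subfield Ω} {x : Ω}
    (hx : IsAlgebraic L x) : ∃ j : ℕ, IsSeparable L (x ^ p ^ j) := by
  have hLp : CharP L p := (algebraMap L Ω).charP (algebraMap L Ω).injective p
  have hE : ExpChar L p := ExpChar.prime Fact.out
  obtain ⟨g, hg, m, hm⟩ := (minpoly.irreducible hx.isIntegral).hasSeparableContraction p
  refine ⟨m, ?_⟩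
  have h1 : aeval (x ^ p ^ m) g = 0 := by
    have h2 := minpoly.aeval L x
    rw [← hm, expand_aeval] at h2
    exact h2
  exact hg.of_dvd (minpoly.dvd L _ h1)

theorem b1_minpoly_pow_eq {L : Subfield Ω} {x y : Ω} (hx : IsAlgebraic L x)
    (hxy : minpoly L x = minpoly L y) (q : ℕ) : minpoly L (x ^ q) = minpoly L (y ^ q) := by
  have hxq : IsIntegral L (x ^ q) := hx.isIntegral.pow q
  refine minpoly.eq_of_irreducible_of_monic (minpoly.irreducible hxq) ?_ (minpoly.monic hxq)
  have h1 : aeval x ((minpoly L (x ^ q)).comp (X ^ q)) = 0 := by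
    rw [aeval_comp]; simp
  have h2 := minpoly.dvd L x h1
  rw [hxy] at h2
  obtain ⟨r, hr⟩ := h2
  have h3 : aeval y ((minpoly L (x ^ q)).comp (X ^ q)) = 0 := by
    rw [hr, map_mul, minpoly.aeval, zero_mul]
  rw [aeval_comp] at h3
  simpa using h3

/-- Conjugates over an h-closed field have the same value. -/
theorem val_eq_of_conj (p : ℕ) [Fact p.Prime] [CharP Ω p] [IsAlgClosed Ω]
    (O : ValuationSubring Ω) {L : Subfield Ω} (hL : HCl O L) {x y : Ω} (hx : IsAlgebraic L x)
    (hxy : minpoly L x = minpoly L y) : O.valuation x = O.valuation y := by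
  obtain ⟨j, hj⟩ := b1_exists_sep_pow p hx
  have hmin := b1_minpoly_pow_eq hx hxy (p ^ j)
  have hj' : IsSeparable L (y ^ p ^ j) := by
    unfold IsSeparable; rw [← hmin]; exact hj
  set S := separableClosure L Ω with hS
  have hxS : x ^ p ^ j ∈ S := (mem_separableClosure_iff).2 hj
  have hyS : y ^ p ^ j ∈ S := (mem_separableClosure_iff).2 hj'
  let v' : Valuation S O.ValueGroup := O.valuation.comap (algebraMap S Ω)
  have hv' : ∀ z : S, v' z = O.valuation (z : Ω) := fun _ => rfl
  have key := H58.Tilt.galois_val (K := L) (A := S) v' (by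
    intro ξ hξ hP
    obtain ⟨P, hPm, hPc, hP0, hP1⟩ := hP
    have hmap : ∀ Q : Polynomial L, (Q.map (algebraMap L Ω)).eval (ξ : Ω) = ((aeval ξ Q : S) : Ω) := by
      intro Q
      rw [eval_map_algebraMap]
      exact (aeval_algebraMap_apply Ω ξ Q)
    have hξL : (ξ : Ω) ∈ L := by
      refine hL _ 1 ⟨P.map (algebraMap L Ω), hPm.map _, fun i => ?_, fun i => ?_, ?_, ?_⟩
        L.one_mem hξ
      · rw [coeff_map]; exact (P.coeff i).2
      · rw [coeff_map, ← O.valuation_le_one_iff]; exact hPc i
      · rw [hmap, hP0]; rfl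
      · rw [derivative_map, hmap]; exact hP1
    exact ⟨⟨ξ, hξL⟩, Subtype.ext rfl⟩)
  have hminS : minpoly L (⟨x ^ p ^ j, hxS⟩ : S) = minpoly L (⟨y ^ p ^ j, hyS⟩ : S) := by
    rw [← minpoly.algebraMap_eq (algebraMap S Ω).injective (⟨x ^ p ^ j, hxS⟩ : S),
      ← minpoly.algebraMap_eq (algebraMap S Ω).injective (⟨y ^ p ^ j, hyS⟩ : S)]
    exact hmin
  obtain ⟨σ, hσ⟩ := minpoly.exists_algEquiv_of_root (K := L) (L := S)
    (x := (⟨x ^ p ^ j, hxS⟩ : S)) (y := (⟨y ^ p ^ j, hyS⟩ : S))
    (Algebra.IsAlgebraic.isAlgebraic _) (by rw [← hminS]; exact minpoly.aeval L _)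
  have h1 := key (⟨x ^ p ^ j, hxS⟩ : S) σ
  rw [hσ, hv', hv'] at h1
  have h2 : O.valuation y ^ p ^ j = O.valuation x ^ p ^ j := by
    rw [← map_pow, ← map_pow]; exact h1
  exact ((pow_left_inj₀ zero_le zero_le (pow_ne_zero _ (Fact.out : p.Prime).ne_zero)).1 h2).symm

theorem val_auto (p : ℕ) [Fact p.Prime] [CharP Ω p] [IsAlgClosed Ω]
    (O : ValuationSubring Ω) {L : Subfield Ω} (hL : HCl O L) (hΩ : Algebra.IsAlgebraic L Ω)
    (σ : Ω ≃+* Ω) (hσ : ∀ z ∈ L, σ z = z) (x : Ω) : O.valuation (σ x) = O.valuation x := by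
  have hx : IsAlgebraic L x := hΩ.isAlgebraic x
  refine (val_eq_of_conj p O hL hx ?_).symm
  refine minpoly.eq_of_irreducible_of_monic (minpoly.irreducible hx.isIntegral) ?_
    (minpoly.monic hx.isIntegral)
  have h1 : aeval (σ x) (minpoly L x) = σ (aeval x (minpoly L x)) := by
    rw [aeval_eq_sum_range, aeval_eq_sum_range, map_sum]
    refine Finset.sum_congr rfl fun i _ => ?_
    rw [Algebra.smul_def, Algebra.smul_def, map_mul, map_pow]
    congr 1
    exact (hσ _ ((minpoly L x).coeff i).2).symm
  rw [h1, minpoly.aeval, map_zero]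

/-- minimal polynomials of integral elements over an h-closed field are integral -/
theorem b1_minpoly_coeff_memO (p : ℕ) [Fact p.Prime] [CharP Ω p] [IsAlgClosed Ω]
    (O : ValuationSubring Ω) {L : Subfield Ω} (hL : HCl O L) {x : Ω} (hx : IsAlgebraic L x)
    (hxO : x ∈ O) (i : ℕ) : (((minpoly L x).coeff i : L) : Ω) ∈ O := by
  set g := (minpoly L x).map (algebraMap L Ω) with hg
  have hm : g.Monic := (minpoly.monic hx.isIntegral).map _
  have h1 : g ∈ lifts O.subtype := by
    refine (IsAlgClosed.splits g).mem_lift_of_roots_mem_range hm O.subtype fun r hr => ?_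
    have h2 : aeval r (minpoly L x) = 0 := by
      rw [← eval_map_algebraMap]
      exact (mem_roots hm.ne_zero).1 hr
    have h3 : minpoly L x = minpoly L r :=
      minpoly.eq_of_irreducible_of_monic (minpoly.irreducible hx.isIntegral) h2
        (minpoly.monic hx.isIntegral)
    have h4 := val_eq_of_conj p O hL hx h3
    have h5 : r ∈ O := by
      rw [← O.valuation_le_one_iff, ← h4, O.valuation_le_one_iff]; exact hxO
    exact ⟨⟨r, h5⟩, rfl⟩
  rw [lifts_iff_coeff_lifts] at h1
  obtain ⟨y, hy⟩ := h1 i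
  rw [hg, coeff_map] at hy
  have : (((minpoly L x).coeff i : L) : Ω) = y := hy.symm
  rw [this]; exact y.2

/-- Uniqueness of the extension of the valuation ring of an h-closed field. -/
theorem unique_ext (p : ℕ) [Fact p.Prime] [CharP Ω p] [IsAlgClosed Ω]
    (O1 O2 : ValuationSubring Ω) {L : Subfield Ω} (hL : HCl O1 L)
    (hΩ : Algebra.IsAlgebraic L Ω) (h : ∀ x ∈ L, x ∈ O1 ↔ x ∈ O2) : O1 = O2 := by
  have hle : ∀ x ∈ O1, x ∈ O2 := by
    intro x hx
    have hxa : IsAlgebraic L x := hΩ.isAlgebraic x
    have hm : ((minpoly L x).map (algebraMap L Ω)).Monic := (minpoly.monic hxa.isIntegral).map _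
    refine root_memO O2 hm (fun i => ?_) (by rw [eval_map_algebraMap, minpoly.aeval])
    rw [coeff_map]
    exact (h _ ((minpoly L x).coeff i).2).1 (b1_minpoly_coeff_memO p O1 hL hxa hx i)
  ext x
  refine ⟨hle x, fun hx2 => ?_⟩
  by_contra hx1
  have hx0 : x ≠ 0 := fun h0 => hx1 (h0 ▸ O1.zero_mem)
  obtain ⟨n, hn, l, hl, hl0, hvl⟩ := val_torsion O1 (hΩ.isAlgebraic x) hx0
  have hv1 : 1 < O1.valuation x := by
    rw [← not_le, O1.valuation_le_one_iff]; exact hx1
  have hlO1 : l ∉ O1 := by
    rw [← O1.valuation_le_one_iff, ← hvl, not_le, map_pow]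
    exact one_lt_pow₀ hv1 hn.ne'
  have hunit : l / x ^ n ∈ O1 := by
    rw [← O1.valuation_le_one_iff, map_div₀, ← hvl, div_self]
    rw [map_pow]
    exact pow_ne_zero _ ((O1.valuation.ne_zero_iff).2 hx0)
  apply hlO1
  rw [h l hl]
  have e : l = l / x ^ n * x ^ n := by rw [div_mul_cancel₀ _ (pow_ne_zero _ hx0)]
  rw [e]
  exact O2.mul_mem _ _ (hle _ hunit) (pow_mem hx2 n)

/-- The residue field is purely inseparable over that of an s-closed field. -/
theorem res_insep (p : ℕ) [Fact p.Prime] [CharP Ω p] [IsAlgClosed Ω]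
    (O : ValuationSubring Ω) {L : Subfield Ω} (hL : SCl O L) (hΩ : Algebra.IsAlgebraic L Ω)
    {x : Ω} (hx : x ∈ O) : ∃ j : ℕ, ∃ c ∈ L, O.valuation (x ^ p ^ j - c) < 1 := by
  classical
  have hp : p.Prime := Fact.out
  have hxa : IsAlgebraic L x := hΩ.isAlgebraic x
  -- a monic polynomial of minimal degree, over all powers
  let Pn : ℕ → Prop := fun n => ∃ j : ℕ, ∃ h : Polynomial Ω, h.Monic ∧ h.natDegree = n ∧
    (∀ i, h.coeff i ∈ L) ∧ (∀ i, h.coeff i ∈ O) ∧ O.valuation (h.eval (x ^ p ^ j)) < 1
  have hex : ∃ n, Pn n := by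
    refine ⟨_, 0, (minpoly L x).map (algebraMap L Ω), (minpoly.monic hxa.isIntegral).map _, rfl,
      fun i => ?_, fun i => ?_, ?_⟩
    · rw [coeff_map]; exact ((minpoly L x).coeff i).2
    · rw [coeff_map]; exact b1_minpoly_coeff_memO p O hL.hcl hxa hx i
    · rw [pow_zero, pow_one, eval_map_algebraMap, minpoly.aeval, map_zero]; exact one_pos
  obtain ⟨j, h, hm, hdeg, hhL, hhO, hval⟩ := Nat.find_spec hex
  set n := Nat.find hex with hn
  have hmin : ∀ m, m < n → ¬ Pn m := fun m hm => Nat.find_min hex hm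
  set y := x ^ p ^ j with hy
  have hyO : y ∈ O := pow_mem hx _
  have hvy : O.valuation y ≤ 1 := (O.valuation_le_one_iff _).2 hyO
  have hn0 : n ≠ 0 := by
    intro h0
    rw [h0] at hdeg
    rw [eq_one_of_monic_natDegree_zero hm hdeg, eval_one, map_one] at hval
    exact lt_irrefl _ hval
  have hdO := derivative_coeff_memO O hhO
  have hdL := derivative_coeff_mem hhL
  have hunit : O.valuation (h.derivative.eval y) = 1 := by
    refine le_antisymm ((O.valuation_le_one_iff _).2 (eval_memO O hdO hyO)) (not_lt.1 fun hlt => ?_)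
    by_cases hcase : ∃ i, O.valuation (h.derivative.coeff i) = 1
    · -- a unit coefficient: smaller degree
      have hbdd : ∀ i, O.valuation (h.derivative.coeff i) = 1 → i ≤ n := by
        intro i hi
        by_contra hcon
        rw [coeff_derivative, coeff_eq_zero_of_natDegree_lt (by lia), zero_mul, map_zero] at hi
        exact zero_ne_one hi
      set i₀ := Nat.findGreatest (fun i => O.valuation (h.derivative.coeff i) = 1) n with hi₀
      obtain ⟨i₁, hi₁⟩ := hcase
      have hi₀1 : O.valuation (h.derivative.coeff i₀) = 1 :=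
        Nat.findGreatest_spec (P := fun i => O.valuation (h.derivative.coeff i) = 1)
          (hbdd i₁ hi₁) hi₁
      have hgt : ∀ i, i₀ < i → O.valuation (h.derivative.coeff i) < 1 := by
        intro i hi
        refine lt_of_le_of_ne ((O.valuation_le_one_iff _).2 (hdO i)) fun h1 => ?_
        exact Nat.findGreatest_is_greatest hi (hbdd i h1) h1
      have hi₀n : i₀ < n := by
        have h1 := hbdd i₀ hi₀1
        rcases Nat.lt_or_ge i₀ n with h2 | h2
        · exact h2
        · exfalso
          have h3 : i₀ = n := by lia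
          rw [h3, coeff_derivative, coeff_eq_zero_of_natDegree_lt (by lia), zero_mul,
            map_zero] at hi₀1
          exact zero_ne_one hi₀1
      set u := h.derivative.coeff i₀ with hu
      have hu0 : u ≠ 0 := (O.valuation.ne_zero_iff).1 (by rw [hi₀1]; exact one_ne_zero)
      set r : Polynomial Ω := ∑ i ∈ Finset.range i₀, C (u⁻¹ * h.derivative.coeff i) * X ^ i
        with hr
      have hrc : ∀ i, r.coeff i = if i < i₀ then u⁻¹ * h.derivative.coeff i else 0 := by
        intro i
        rw [hr, finsetSum_coeff]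
        simp only [coeff_C_mul_X_pow]
        rw [Finset.sum_ite_eq]
        simp
      have hrdeg : r.degree < (i₀ : WithBot ℕ) := by
        rw [degree_lt_iff_coeff_zero]
        intro m hm
        rw [hrc, if_neg (by lia)]
      have hvu : O.valuation u⁻¹ = 1 := by rw [map_inv₀, hi₀1, inv_one]
      refine hmin i₀ hi₀n ⟨j, X ^ i₀ + r, monic_X_pow_add hrdeg, ?_, fun i => ?_, fun i => ?_, ?_⟩
      · rw [natDegree_add_eq_left_of_degree_lt (by rwa [degree_X_pow]), natDegree_X_pow]
      · rw [coeff_add, coeff_X_pow, hrc]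
        exact L.add_mem (by split_ifs; exacts [L.one_mem, L.zero_mem])
          (by split_ifs; exacts [L.mul_mem (L.inv_mem (hdL _)) (hdL i), L.zero_mem])
      · rw [coeff_add, coeff_X_pow, hrc]
        refine O.add_mem _ _ (by split_ifs; exacts [O.one_mem, O.zero_mem]) ?_
        split_ifs
        · exact O.mul_mem _ _ ((O.valuation_le_one_iff _).1 hvu.le) (hdO i)
        · exact O.zero_mem
      · have e1 : u * (X ^ i₀ + r).eval y = h.derivative.eval y -
            ∑ i ∈ Finset.Ico (i₀ + 1) (n + 1), h.derivative.coeff i * y ^ i := by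
          have h1 : h.derivative.eval y =
              ∑ i ∈ Finset.range (n + 1), h.derivative.coeff i * y ^ i := by
            refine eval_eq_sum_range' ?_ y
            have := natDegree_derivative_le h
            lia
          have h2 : ∑ i ∈ Finset.range (n + 1), h.derivative.coeff i * y ^ i =
              ∑ i ∈ Finset.range (i₀ + 1), h.derivative.coeff i * y ^ i +
              ∑ i ∈ Finset.Ico (i₀ + 1) (n + 1), h.derivative.coeff i * y ^ i :=
            (Finset.sum_range_add_sum_Ico _ (by lia)).symm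
          rw [h1, h2, Finset.sum_range_succ, hr, eval_add, eval_finsetSum, eval_pow, eval_X,
            mul_add, Finset.mul_sum]
          have h3 : ∑ i ∈ Finset.range i₀, u * eval y (C (u⁻¹ * h.derivative.coeff i) * X ^ i) =
              ∑ i ∈ Finset.range i₀, h.derivative.coeff i * y ^ i := by
            refine Finset.sum_congr rfl fun i _ => ?_
            rw [eval_mul, eval_C, eval_pow, eval_X]
            field_simp
          rw [h3, ← hu]; ring
        have h2 : O.valuation (u * (X ^ i₀ + r).eval y) < 1 := by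
          rw [e1]
          refine O.valuation.map_sub_lt hlt (O.valuation.map_sum_lt one_ne_zero fun i hi => ?_)
          rw [Finset.mem_Ico] at hi
          rw [map_mul, map_pow]
          exact (mul_le_of_le_one_right' (pow_le_one₀ zero_le hvy)).trans_lt (hgt i (by lia))
        rwa [map_mul, hi₀1, one_mul] at h2
    · -- all coefficients of the derivative are small: contract
      push Not at hcase
      have hsmall : ∀ i, ¬ p ∣ i → O.valuation (h.coeff i) < 1 := by
        intro i hi
        obtain ⟨k, rfl⟩ : ∃ k, i = k + 1 := ⟨i - 1, by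
          have : i ≠ 0 := fun h0 => hi (h0 ▸ dvd_zero p)
          lia⟩
        have h1 := lt_of_le_of_ne ((O.valuation_le_one_iff _).2 (hdO k)) (hcase k)
        rw [coeff_derivative, map_mul] at h1
        have h2 := H58.Tilt.v_nat (Ω := Ω) p O.valuation hi
        rw [Nat.cast_succ] at h2
        rwa [h2, mul_one] at h1
      have hpn : p ∣ n := by
        by_contra hcon
        have h1 := hsmall n hcon
        have h2 : h.coeff n = 1 := by rw [← hdeg]; exact hm
        rw [h2, map_one] at h1
        exact lt_irrefl _ h1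
      obtain ⟨m, hm'⟩ := hpn
      set H : Polynomial Ω := contract p h with hH
      have hHc : ∀ i, H.coeff i = h.coeff (i * p) := fun i => coeff_contract hp.ne_zero h i
      have hHm : H.coeff m = 1 := by
        rw [hHc, mul_comm, ← hm', ← hdeg]; exact hm
      have hHdeg : H.natDegree = m := by
        refine le_antisymm ?_ (le_natDegree_of_ne_zero (by rw [hHm]; exact one_ne_zero))
        rw [natDegree_le_iff_coeff_eq_zero]
        intro i hi
        rw [hHc]
        apply coeff_eq_zero_of_natDegree_lt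
        rw [hdeg, hm', mul_comm p m]
        exact Nat.mul_lt_mul_of_pos_right hi hp.pos
      have hHmonic : H.Monic := by
        rw [Monic, leadingCoeff, hHdeg, hHm]
      have hmn : m < n := by
        have h1 := hp.one_lt
        rcases Nat.eq_zero_or_pos m with h2 | h2
        · rw [h2, mul_zero] at hm'; exact absurd hm' hn0
        · rw [hm']; nlinarith
      refine hmin m hmn ⟨j + 1, H, hHmonic, hHdeg, fun i => by rw [hHc]; exact hhL _,
        fun i => by rw [hHc]; exact hhO _, ?_⟩
      have hyp : x ^ p ^ (j + 1) = y ^ p := by rw [hy, ← pow_mul, ← pow_succ]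
      have e1 : H.eval (x ^ p ^ (j + 1)) = (expand Ω p H).eval y := by
        rw [expand_eval, hyp]
      have e2 : (expand Ω p H).eval y = h.eval y - (h - expand Ω p H).eval y := by
        rw [eval_sub]; ring
      rw [e1, e2]
      refine O.valuation.map_sub_lt hval ?_
      rw [eval_eq_sum_range]
      refine O.valuation.map_sum_lt one_ne_zero fun i _ => ?_
      rw [map_mul, map_pow]
      refine (mul_le_of_le_one_right' (pow_le_one₀ zero_le hvy)).trans_lt ?_
      rw [coeff_sub, coeff_expand hp.pos]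
      split_ifs with hdvd
      · rw [hHc, Nat.div_mul_cancel hdvd, sub_self, map_zero]; exact one_pos
      · rw [sub_zero]; exact hsmall i hdvd
  obtain ⟨c, hc0, hcO, hcy⟩ := exists_root_near O hm hhO hyO hval
  refine ⟨j, c, hL c ⟨h, hm, hhL, hhO, hc0, ?_⟩, ?_⟩
  · have h1 : O.valuation (h.derivative.eval c - h.derivative.eval y) < 1 :=
      (eval_sub_val_le O hdO hcO hyO).trans_lt hcy
    have e : h.derivative.eval c = h.derivative.eval y +
        (h.derivative.eval c - h.derivative.eval y) := by ring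
    rw [e, O.valuation.map_add_eq_of_lt_left (by rw [hunit]; exact h1), hunit]
  · rw [O.valuation.map_sub_swap]; exact hcy

theorem res_fix (p : ℕ) [Fact p.Prime] [CharP Ω p] [IsAlgClosed Ω]
    (O : ValuationSubring Ω) {L : Subfield Ω} (hL : SCl O L) (hΩ : Algebra.IsAlgebraic L Ω)
    (σ : Ω ≃+* Ω) (hσ : ∀ z ∈ L, σ z = z) : ∀ x ∈ O, O.valuation (σ x - x) < 1 := by
  intro x hx
  obtain ⟨j, c, hc, hxc⟩ := res_insep p O hL hΩ hx
  have h1 : (σ x - x) ^ p ^ j = σ (x ^ p ^ j - c) - (x ^ p ^ j - c) := by
    rw [sub_pow_char_pow, map_sub, map_pow, hσ c hc]; ring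
  have h2 : O.valuation (σ x - x) ^ p ^ j < 1 := by
    rw [← map_pow, h1]
    exact O.valuation.map_sub_lt (by rw [val_auto p O hL.hcl hΩ σ hσ]; exact hxc) hxc
  by_contra hcon
  rw [not_lt] at hcon
  exact absurd h2 (not_lt.2 (one_le_pow₀ hcon))

end Pool.Agent.H92.Tilt
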