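import Pool.Agent.H92.Tilt.B1
import Pool.Agent.H58.Tilt.StepA

/-!
Module B4. Artin-Schreier steps.

For `σ` an automorphism of `Ω` over `L` and `x ≠ 0`: `x ^ (p ^ k) = l u` with `l ∈ L`, `u` a unit of
`O`, so `(σ x / x) ^ (p ^ k) = σ u / u ≡ 1` (`res_fix`) and `σ x / x ≡ 1` (so `v (σ x - x) < v x`).
Let `N` be a finite Galois extension of `L` in `Ω`. If a prime `q ≠ p` divides `|Gal(N/L)|`, take `σ`
of order `q`; for `w = σ x - x` nonzero `∑_{i<q} σ^i w = w (q + ε)`, `v ε < 1`, is nonzero since `q`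
is a unit in characteristic `p`, but it telescopes to `0`: so `σ = 1`. So `Gal(N/L)` is a `p`-group.
Let `N` be the normal closure of `L(x)`, `H` the group of `L(x)`, `H ≠ ⊤`. A subgroup `P ≥ H` of
index `p` is normal, hence there is a nonzero homomorphism `χ` to `ZMod p` which vanishes on `H`; and
with `b ∈ N` of trace `1` the element `y := - ∑_τ χ(τ) τ(b)` satisfies `σ y = y + χ(σ)`.
-/

set_option autoImplicit false

namespace Pool.Agent.H92.Tilt

open Polynomial

variable {Ω : Type*} [Field Ω]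

/-- a proper subgroup of a finite `p`-group is in the kernel of a nonzero homomorphism to
`ZMod p` -/
theorem b4_exists_hom {G : Type*} [Group G] [Finite G] (p : ℕ) [hp : Fact p.Prime]
    (hG : IsPGroup p G) (H : Subgroup G) (hH : H ≠ ⊤) :
    ∃ χ : G →* Multiplicative (ZMod p), (∀ h ∈ H, χ h = 1) ∧ ∃ g, χ g ≠ 1 := by
  obtain ⟨m, hm⟩ := hG.exists_card_eq
  obtain ⟨n, hn⟩ := (hG.to_subgroup H).exists_card_eq
  have hnm : n < m := by
    by_contra hcon
    push Not at hcon
    have h1 : Nat.card G ≤ Nat.card H := by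
      rw [hm, hn]; exact Nat.pow_le_pow_right hp.out.pos hcon
    exact hH (Subgroup.eq_top_of_le_card H h1)
  obtain ⟨K, hK, hHK⟩ := Sylow.exists_subgroup_card_pow_prime_le (G := G) p (n := n) (m := m - 1)
    (by rw [hm]; exact pow_dvd_pow p (Nat.sub_le _ _)) H hn (by omega)
  have hidx : K.index = p := by
    have h1 := K.card_mul_index
    rw [hK, hm] at h1
    have h2 : p ^ m = p ^ (m - 1) * p := by
      rw [← pow_succ]; congr 1; omega
    rw [h2] at h1
    exact Nat.eq_of_mul_eq_mul_left (pow_pos hp.out.pos _) h1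
  have hnorm : K.Normal := by
    apply Subgroup.normal_of_index_eq_minFac_card
    rw [hidx, hm, hp.out.pow_minFac (by omega)]
  have hcard : Nat.card (G ⧸ K) = p := hidx
  have hcard2 : Nat.card (Multiplicative (ZMod p)) = p := by
    simp
  refine ⟨(mulEquivOfPrimeCardEq hcard hcard2).toMonoidHom.comp (QuotientGroup.mk' K), ?_, ?_⟩
  · intro h hh
    have : (QuotientGroup.mk' K) h = 1 := (QuotientGroup.eq_one_iff h).2 (hHK hh)
    rw [MonoidHom.comp_apply, this, map_one]
  · by_contra hcon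
    push Not at hcon
    have hKtop : K = ⊤ := by
      rw [eq_top_iff]
      intro g _
      have h1 := hcon g
      rw [MonoidHom.comp_apply] at h1
      have h2 : (mulEquivOfPrimeCardEq hcard hcard2) ((QuotientGroup.mk' K) g) = 1 := h1
      rw [MulEquiv.map_eq_one_iff] at h2
      exact (QuotientGroup.eq_one_iff g).1 h2
    rw [hKtop, Subgroup.index_top] at hidx
    exact hp.out.one_lt.ne hidx

/-- `v (σ x - x) < v x` -/
theorem b4_auto_close (p : ℕ) [Fact p.Prime] [CharP Ω p] [IsAlgClosed Ω]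
    (O : ValuationSubring Ω) {L : Subfield Ω} (hL : SCl O L) (hΩ : Algebra.IsAlgebraic L Ω)
    (hv : ∀ x : Ω, x ≠ 0 → ∃ k : ℕ, ∃ l ∈ L, O.valuation (x ^ p ^ k) = O.valuation l)
    (σ : Ω ≃ₐ[L] Ω) {x : Ω} (hx : x ≠ 0) : O.valuation (σ x - x) < O.valuation x := by
  obtain ⟨k, l, hl, hxl⟩ := hv x hx
  have hvx : O.valuation x ≠ 0 := (Valuation.ne_zero_iff _).2 hx
  have hl0 : l ≠ 0 := by
    rintro rfl
    rw [map_zero, map_pow] at hxl
    exact pow_ne_zero _ hvx hxl
  have hvl : O.valuation l ≠ 0 := (Valuation.ne_zero_iff _).2 hl0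
  set u : Ω := x ^ p ^ k / l with hu
  have hvu : O.valuation u = 1 := by rw [hu, map_div₀, hxl, div_self hvl]
  have hu0 : u ≠ 0 := by
    intro h
    rw [h, map_zero] at hvu
    exact zero_ne_one hvu
  have h1 := res_fix p O hL hΩ (σ : Ω ≃+* Ω) (fun z hz => σ.commutes ⟨z, hz⟩) u
    ((O.valuation_le_one_iff u).1 hvu.le)
  have h1' : O.valuation (σ u - u) < 1 := h1
  have hσl : σ l = l := σ.commutes ⟨l, hl⟩
  have h2 : (σ x / x - 1) ^ p ^ k = (σ u - u) / u := by
    rw [sub_pow_char_pow, div_pow, one_pow, ← map_pow]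
    have h3 : x ^ p ^ k = l * u := by rw [hu]; field_simp
    rw [h3, map_mul, hσl]
    field_simp
  have h3 : O.valuation (σ x / x - 1) ^ p ^ k < 1 := by
    rw [← map_pow, h2, map_div₀, hvu, div_one]; exact h1'
  have h4 : O.valuation (σ x / x - 1) < 1 := by
    by_contra hcon
    push Not at hcon
    exact absurd h3 (not_lt.2 (one_le_pow₀ hcon))
  have h5 : σ x - x = (σ x / x - 1) * x := by field_simp
  rw [h5, map_mul]
  exact mul_lt_of_lt_one_left (zero_lt_iff.2 hvx) h4

/-- the Galois group of a finite Galois extension is a `p`-group -/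
theorem b4_gal_pgroup (p : ℕ) [Fact p.Prime] [CharP Ω p] [IsAlgClosed Ω]
    (O : ValuationSubring Ω) {L : Subfield Ω} (hL : SCl O L) (hΩ : Algebra.IsAlgebraic L Ω)
    (hv : ∀ x : Ω, x ≠ 0 → ∃ k : ℕ, ∃ l ∈ L, O.valuation (x ^ p ^ k) = O.valuation l)
    (N : IntermediateField L Ω) [FiniteDimensional L N] [IsGalois L N] :
    IsPGroup p (N ≃ₐ[L] N) := by
  have hnor : Normal L Ω := by
    have : IsAlgClosure L Ω := ⟨inferInstance, hΩ⟩
    infer_instance
  rw [IsPGroup.iff_card]
  have hfin : Finite (N ≃ₐ[L] N) := inferInstance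
  have hpr : ∀ q : ℕ, q.Prime → q ∣ Nat.card (N ≃ₐ[L] N) → q = p := by
    intro q hq hdvd
    by_contra hne
    have : Fact q.Prime := ⟨hq⟩
    obtain ⟨σ, hσ⟩ := exists_prime_orderOf_dvd_card' q hdvd
    have hpq : ¬ p ∣ q := fun h => hne ((Nat.prime_dvd_prime_iff_eq Fact.out hq).1 h).symm
    have hvq : O.valuation ((q : ℕ) : Ω) = 1 := Pool.Agent.H58.Tilt.v_nat p O.valuation hpq
    -- powers of `σ` move elements little
    have hmove : ∀ i : ℕ, ∀ w : N, w ≠ 0 →
        O.valuation (((σ ^ i) w : N) - (w : Ω)) < O.valuation (w : Ω) := by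
      intro i w hw
      have h1 := b4_auto_close p O hL hΩ hv ((σ ^ i).liftNormal Ω) (x := (w : Ω))
        (by simpa using hw)
      have h2 : (σ ^ i).liftNormal Ω (algebraMap N Ω w) = algebraMap N Ω ((σ ^ i) w) :=
        AlgEquiv.liftNormal_commutes _ _ _
      have h3 : (σ ^ i).liftNormal Ω (w : Ω) = (((σ ^ i) w : N) : Ω) := h2
      rw [h3] at h1
      exact h1
    have hone : σ = 1 := by
      ext z
      by_contra hz
      set w : N := σ z - z with hw
      have hw0 : w ≠ 0 := by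
        intro h
        apply hz
        rw [sub_eq_zero] at h
        rw [h]; rfl
      have htel : ∑ i ∈ Finset.range q, (σ ^ i) w = 0 := by
        have h1 : ∀ i ∈ Finset.range q, (σ ^ i) w = (σ ^ (i + 1)) z - (σ ^ i) z := by
          intro i _
          rw [hw, map_sub, pow_succ]
          rfl
        rw [Finset.sum_congr rfl h1, Finset.sum_range_sub (fun i => (σ ^ i) z), ← hσ,
          pow_orderOf_eq_one, pow_zero, sub_self]
      have hsum : O.valuation (∑ i ∈ Finset.range q, ((((σ ^ i) w : N) : Ω) - (w : Ω))) <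
          O.valuation (w : Ω) :=
        Valuation.map_sum_lt _ ((Valuation.ne_zero_iff _).2 (by simpa using hw0))
          fun i _ => hmove i w hw0
      rw [Finset.sum_sub_distrib, Finset.sum_const, Finset.card_range, nsmul_eq_mul] at hsum
      have hcast : ∑ i ∈ Finset.range q, (((σ ^ i) w : N) : Ω) = 0 := by
        have := congrArg (fun z : N => (z : Ω)) htel
        simpa using this
      rw [hcast, zero_sub, Valuation.map_neg, map_mul, hvq, one_mul] at hsum
      exact lt_irrefl _ hsum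
    rw [hone, orderOf_one] at hσ
    exact hq.one_lt.ne hσ
  have hpos : Nat.card (N ≃ₐ[L] N) ≠ 0 := Nat.card_pos.ne'
  exact ⟨_, Nat.eq_prime_pow_of_unique_prime_dvd hpos fun {q} hq hd => hpr q hq hd⟩

/-- additive Hilbert 90 for homomorphisms to `ZMod p` -/
theorem b4_exists_AS {K N : Type*} [Field K] [Field N] [Algebra K N] [FiniteDimensional K N]
    [IsGalois K N] (p : ℕ) [Fact p.Prime] [CharP N p]
    (χ : (N ≃ₐ[K] N) →* Multiplicative (ZMod p)) :
    ∃ y : N, ∀ σ : N ≃ₐ[K] N,
      σ y = y + ZMod.castHom (dvd_refl p) N (Multiplicative.toAdd (χ σ)) := by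
  classical
  set c : ZMod p →+* N := ZMod.castHom (dvd_refl p) N with hc
  obtain ⟨b, hb⟩ := Algebra.trace_surjective K N 1
  have hb1 : ∑ τ : N ≃ₐ[K] N, τ b = 1 := by
    rw [← trace_eq_sum_automorphisms, hb, map_one]
  refine ⟨-∑ τ : N ≃ₐ[K] N, c (Multiplicative.toAdd (χ τ)) * τ b, fun σ => ?_⟩
  have hσc : ∀ z : ZMod p, σ (c z) = c z := by
    intro z
    have : ((σ : N →+* N).comp c) = c := Subsingleton.elim _ _
    exact congrArg (fun f : ZMod p →+* N => f z) this
  have h1 : σ (∑ τ : N ≃ₐ[K] N, c (Multiplicative.toAdd (χ τ)) * τ b) =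
      ∑ τ : N ≃ₐ[K] N, (c (Multiplicative.toAdd (χ (σ * τ))) -
        c (Multiplicative.toAdd (χ σ))) * (σ * τ) b := by
    rw [map_sum]
    refine Finset.sum_congr rfl fun τ _ => ?_
    rw [map_mul, hσc, map_mul, toAdd_mul, map_add]
    rw [add_sub_cancel_left]
    rfl
  have h2 : ∑ τ : N ≃ₐ[K] N, (c (Multiplicative.toAdd (χ (σ * τ))) -
        c (Multiplicative.toAdd (χ σ))) * (σ * τ) b =
      ∑ τ : N ≃ₐ[K] N, (c (Multiplicative.toAdd (χ τ)) -
        c (Multiplicative.toAdd (χ σ))) * τ b :=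
    Fintype.sum_equiv (Equiv.mulLeft σ) _ _ fun τ => rfl
  rw [map_neg, h1, h2]
  have h3 : ∑ τ : N ≃ₐ[K] N, (c (Multiplicative.toAdd (χ τ)) -
        c (Multiplicative.toAdd (χ σ))) * τ b =
      ∑ τ : N ≃ₐ[K] N, c (Multiplicative.toAdd (χ τ)) * τ b -
        c (Multiplicative.toAdd (χ σ)) := by
    have h4 : ∀ τ ∈ (Finset.univ : Finset (N ≃ₐ[K] N)), (c (Multiplicative.toAdd (χ τ)) -
        c (Multiplicative.toAdd (χ σ))) * τ b = c (Multiplicative.toAdd (χ τ)) * τ b -
          c (Multiplicative.toAdd (χ σ)) * τ b := fun τ _ => sub_mul _ _ _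
    rw [Finset.sum_congr rfl h4, Finset.sum_sub_distrib, ← Finset.mul_sum, hb1, mul_one]
  rw [h3]
  ring

theorem artin_schreier_step (p : ℕ) [Fact p.Prime] [CharP Ω p] [IsAlgClosed Ω]
    (O : ValuationSubring Ω) {L : Subfield Ω} (hL : SCl O L) (hΩ : Algebra.IsAlgebraic L Ω)
    (hv : ∀ x : Ω, x ≠ 0 → ∃ k : ℕ, ∃ l ∈ L, O.valuation (x ^ p ^ k) = O.valuation l)
    {x : Ω} (hx : IsSeparable L x) (hxL : x ∉ L) :
    ∃ y ∈ adj L {x}, y ∉ L ∧ y ^ p - y ∈ L := by
  have hint : IsIntegral L x := (Algebra.IsAlgebraic.isAlgebraic x).isIntegral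
  set N : IntermediateField L Ω := IntermediateField.adjoin L ((minpoly L x).rootSet Ω) with hN
  have hspl : (minpoly L x).IsSplittingField L N :=
    IntermediateField.adjoin_rootSet_isSplittingField (IsAlgClosed.splits _)
  have hfd : FiniteDimensional L N := Polynomial.IsSplittingField.finiteDimensional N (minpoly L x)
  have hgal : IsGalois L N := IsGalois.of_separable_splitting_field (p := minpoly L x) hx
  have hchar : CharP N p := (algebraMap N Ω).charP (algebraMap N Ω).injective p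
  have hxN : x ∈ N := by
    apply IntermediateField.subset_adjoin
    rw [Polynomial.mem_rootSet]
    exact ⟨minpoly.ne_zero hint, minpoly.aeval L x⟩
  set x' : N := ⟨x, hxN⟩ with hx'
  set F : IntermediateField L N := IntermediateField.adjoin L {x'} with hF
  have hpg := b4_gal_pgroup p O hL hΩ hv N
  have hHtop : F.fixingSubgroup ≠ ⊤ := by
    intro h
    apply hxL
    have h1 : x' ∈ (⊥ : IntermediateField L N) := by
      rw [IsGalois.mem_bot_iff_fixed]
      intro f
      have h2 : f ∈ F.fixingSubgroup := by rw [h]; exact Subgroup.mem_top f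
      rw [IntermediateField.mem_fixingSubgroup_iff] at h2
      exact h2 x' (IntermediateField.subset_adjoin L _ (Set.mem_singleton x'))
    obtain ⟨l, hl⟩ := IntermediateField.mem_bot.1 h1
    have h3 := congrArg (fun z : N => (z : Ω)) hl
    have h4 : (l : Ω) = x := h3
    rw [← h4]
    exact l.2
  obtain ⟨χ, hχ1, g, hχ2⟩ := b4_exists_hom p hpg F.fixingSubgroup hHtop
  obtain ⟨y, hy⟩ := b4_exists_AS p χ
  refine ⟨(y : Ω), ?_, ?_, ?_⟩
  · -- `y` is fixed by the group of `F`
    have h1 : y ∈ F := by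
      rw [← IsGalois.fixedField_fixingSubgroup F, IntermediateField.mem_fixedField_iff]
      intro f hf
      rw [hy f, hχ1 f hf, toAdd_one, map_zero, add_zero]
    have h2 : (y : Ω) ∈ F.map N.val := ⟨y, h1, rfl⟩
    rw [hF, IntermediateField.adjoin_map, Set.image_singleton] at h2
    exact (mem_adjoin_iff L {x} (y : Ω)).1 h2
  · intro hyL
    have h1 : g y = y := by
      have h2 : y = algebraMap L N ⟨(y : Ω), hyL⟩ := by
        apply Subtype.ext
        rfl
      rw [h2, AlgEquiv.commutes]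
    rw [hy g] at h1
    have h2 : ZMod.castHom (dvd_refl p) N (Multiplicative.toAdd (χ g)) = 0 := by
      simpa using h1
    rw [map_eq_zero] at h2
    exact hχ2 (Multiplicative.toAdd.injective h2)
  · have h1 : y ^ p - y ∈ (⊥ : IntermediateField L N) := by
      rw [IsGalois.mem_bot_iff_fixed]
      intro f
      rw [map_sub, map_pow, hy f, add_pow_char, ← map_pow, ZMod.pow_card]
      ring
    obtain ⟨l, hl⟩ := IntermediateField.mem_bot.1 h1
    have h3 : (l : Ω) = (y : Ω) ^ p - (y : Ω) := congrArg (fun z : N => (z : Ω)) hl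
    rw [← h3]
    exact l.2

end Pool.Agent.H92.Tilt
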