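import Pool.Agent.H92.Tilt.Basic

/-!
Module B5. Elements of `O ∩ L(c)` for a simple root `c`: `x = G1(c) / G2(c)` with `G1, G2` over
`L ∩ O` and `G2(c)` a unit.

Proof. (Loc) Let `f = ∑ a_i X^i ∈ L[X]` be nonzero with `f(x) = 0`, `k` the largest index with `v a_k`
maximal, `b_i = a_i / a_k`, `u = ∑_{i ≥ k} b_i x^(i-k)`. Then `u ≡ 1`. For every embedding `s` of
`L(c)` in `Ω` over `L`: `s(u)` and `s(x) s(u)` are in `O`: if `s(x) ∈ O` this is clear; if not,
`s(u) = - ∑_{i<k} b_i s(x)^(i-k)` and `s(x) s(u) = - ∑_{i<k} b_i s(x)^(i-k+1)`.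
(Euler) `g := minpoly L c` divides `h`, all its roots `c_i` are in `O`, `g'(c)` is a unit, `g` is
separable. If `y = Y(c)`, `Y ∈ L[X]`, has `Y(c_i) ∈ O` for all `i`, then
`G := (Y g') mod g = ∑_j Y(c_j) ∏_{i ≠ j} (X - c_i)` (both sides have degree `< deg g` and agree at
the `c_j`: value `Y(c_j) g'(c_j)`) has coefficients in `O ∩ L` and `G(c) = y g'(c)`.
Apply (Euler) to `u` and to `x u`: `x = (xu)/u = G_{xu}(c) / G_u(c)`, `v (G_u(c)) = 1`.
-/

set_option autoImplicit false

namespace Pool.Agent.H92.Tilt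

open Polynomial

variable {Ω : Type*} [Field Ω]

namespace B5

/-- Polynomials with coefficients in `O`, as a subring. -/
def PO (O : ValuationSubring Ω) : Subring (Polynomial Ω) where
  carrier := {f | ∀ i, f.coeff i ∈ O}
  mul_mem' := by
    intro f g hf hg i
    rw [coeff_mul]
    exact O.toSubring.sum_mem fun x _ => O.mul_mem _ _ (hf _) (hg _)
  one_mem' := by
    intro i
    rw [coeff_one]
    split_ifs
    · exact O.one_mem
    · exact O.zero_mem
  add_mem' := by
    intro f g hf hg i
    rw [coeff_add]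
    exact O.add_mem _ _ (hf i) (hg i)
  zero_mem' := by
    intro i
    rw [coeff_zero]
    exact O.zero_mem
  neg_mem' := by
    intro f hf i
    rw [coeff_neg]
    exact O.neg_mem _ (hf i)

theorem mem_PO (O : ValuationSubring Ω) (f : Polynomial Ω) : f ∈ PO O ↔ ∀ i, f.coeff i ∈ O := Iff.rfl

theorem C_mem_PO (O : ValuationSubring Ω) {a : Ω} (ha : a ∈ O) : (C a : Polynomial Ω) ∈ PO O := by
  intro i
  rw [coeff_C]
  split_ifs
  · exact ha
  · exact O.zero_mem

theorem X_mem_PO (O : ValuationSubring Ω) : (X : Polynomial Ω) ∈ PO O := by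
  intro i
  rw [coeff_X]
  split_ifs
  · exact O.one_mem
  · exact O.zero_mem

/-- A monic polynomial with all roots in `O` has coefficients in `O`. -/
theorem mem_PO_of_roots [IsAlgClosed Ω] (O : ValuationSubring Ω) {f : Polynomial Ω}
    (hf : f.Monic) (h : ∀ a, f.eval a = 0 → a ∈ O) : f ∈ PO O := by
  have hs : f = (f.roots.map fun a => X - C a).prod :=
    ((IsAlgClosed.splits f).eq_prod_roots_of_monic hf)
  rw [hs]
  apply Subring.multiset_prod_mem
  intro q hq
  rw [Multiset.mem_map] at hq
  obtain ⟨a, ha, rfl⟩ := hq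
  refine (PO O).sub_mem (X_mem_PO O) (C_mem_PO O (h a ?_))
  exact (mem_roots hf.ne_zero).1 ha

/-- The minimal polynomial over `L` of a simple root. -/
theorem minpoly_data [IsAlgClosed Ω] (O : ValuationSubring Ω) {L : Subfield Ω} {c : Ω}
    (hc : SRoot O L c) :
    (∀ a, ((minpoly L c).map (algebraMap L Ω)).eval a = 0 → a ∈ O) ∧
      O.valuation (((minpoly L c).map (algebraMap L Ω)).derivative.eval c) = 1 ∧
      (minpoly L c).Monic := by
  obtain ⟨h, hm, hL, hO, hc0, hd⟩ := hc
  -- lift `h` to `L`
  have hlift : h ∈ Polynomial.lifts (algebraMap L Ω) := by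
    rw [Polynomial.lifts_iff_coeff_lifts]
    intro n
    exact ⟨⟨h.coeff n, hL n⟩, rfl⟩
  obtain ⟨hL', hh⟩ := hlift
  have hh' : hL'.map (algebraMap L Ω) = h := hh
  have hm' : hL'.Monic := by
    have : (hL'.map (algebraMap L Ω)).Monic := by rw [hh']; exact hm
    exact Polynomial.monic_of_injective (algebraMap L Ω).injective this
  have haev : aeval c hL' = 0 := by
    rw [aeval_def, eval₂_eq_eval_map, hh', hc0]
  have hint : IsIntegral L c := ⟨hL', hm', haev⟩
  have hdvd : minpoly L c ∣ hL' := minpoly.dvd L c haev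
  obtain ⟨q, hq⟩ := hdvd
  have hmin : (minpoly L c).Monic := minpoly.monic hint
  have hqm : q.Monic := by
    refine hmin.of_mul_monic_left ?_
    rw [← hq]; exact hm'
  set g := (minpoly L c).map (algebraMap L Ω) with hg
  set q' := q.map (algebraMap L Ω) with hq'
  have hfac : h = g * q' := by
    rw [← hh', hq, Polynomial.map_mul]
  have hgr : ∀ a, g.eval a = 0 → a ∈ O := by
    intro a ha
    apply root_memO O hm hO
    rw [hfac, eval_mul, ha, zero_mul]
  have hqr : ∀ a, q'.eval a = 0 → a ∈ O := by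
    intro a ha
    apply root_memO O hm hO
    rw [hfac, eval_mul, ha, mul_zero]
  have hgm : g.Monic := hmin.map _
  have hqm' : q'.Monic := hqm.map _
  have hcO : c ∈ O := root_memO O hm hO hc0
  have hgc : g.eval c = 0 := by
    rw [hg, eval_map_algebraMap, minpoly.aeval]
  refine ⟨hgr, ?_, hmin⟩
  have e1 : h.derivative.eval c = g.derivative.eval c * q'.eval c := by
    rw [hfac, derivative_mul, eval_add, eval_mul, eval_mul, hgc, zero_mul, add_zero]
  have v1 : O.valuation (g.derivative.eval c) ≤ 1 := by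
    rw [val_le_one]
    exact eval_memO O (derivative_coeff_memO O (mem_PO_of_roots O hgm hgr)) hcO
  have v2 : O.valuation (q'.eval c) ≤ 1 := by
    rw [val_le_one]
    exact eval_memO O (mem_PO_of_roots O hqm' hqr) hcO
  rw [e1, map_mul] at hd
  apply le_antisymm v1
  by_contra hlt
  rw [not_le] at hlt
  have : O.valuation (g.derivative.eval c) * O.valuation (q'.eval c) < 1 :=
    mul_lt_one_of_lt_of_le hlt v2
  exact absurd hd this.ne

/-- Euler's formula: if `Y` has values in `O` at all conjugates of `c` then `Y(c) g'(c)` is a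
polynomial in `c` with coefficients in `L ∩ O`. -/
theorem euler [IsAlgClosed Ω] (O : ValuationSubring Ω) {L : Subfield Ω} {c : Ω}
    (hc : SRoot O L c) (Y : Polynomial L)
    (hY : ∀ a, ((minpoly L c).map (algebraMap L Ω)).eval a = 0 →
      (Y.map (algebraMap L Ω)).eval a ∈ O) :
    ∃ G : Polynomial Ω, (∀ i, G.coeff i ∈ L) ∧ (∀ i, G.coeff i ∈ O) ∧
      G.eval c = (Y.map (algebraMap L Ω)).eval c *
        ((minpoly L c).map (algebraMap L Ω)).derivative.eval c := by
  classical
  obtain ⟨hr, hd, hmin⟩ := minpoly_data O hc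
  set g := (minpoly L c).map (algebraMap L Ω) with hg
  have hgm : g.Monic := hmin.map _
  have hint : IsIntegral L c := by
    by_contra hni
    have := minpoly.eq_zero hni
    rw [this] at hmin
    exact not_monic_zero hmin
  have hsep : (minpoly L c).Separable := by
    rw [separable_iff_derivative_ne_zero (minpoly.irreducible hint)]
    intro h0
    rw [hg, derivative_map, h0, Polynomial.map_zero, eval_zero, map_zero] at hd
    exact zero_ne_one hd
  have hgsep : g.Separable := hsep.map
  have hnodup : g.roots.Nodup := nodup_roots hgsep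
  set S : Finset Ω := g.roots.toFinset with hS
  have hmemS : ∀ a, a ∈ S ↔ g.eval a = 0 := by
    intro a
    rw [hS, Multiset.mem_toFinset, mem_roots hgm.ne_zero]
    rfl
  have hgprod : g = ∏ a ∈ S, (X - C a) := by
    have h1 : g = (g.roots.map fun a => X - C a).prod :=
      ((IsAlgClosed.splits g).eq_prod_roots_of_monic hgm)
    conv_lhs => rw [h1]
    rw [Finset.prod, hS, Multiset.toFinset_val, Multiset.dedup_eq_self.2 hnodup]
  have hcard : g.natDegree = S.card := by
    rw [hgprod, natDegree_prod_of_monic _ _ (fun a _ => monic_X_sub_C a)]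
    simp
  have hder : ∀ a ∈ S, g.derivative.eval a = ∏ b ∈ S.erase a, (a - b) := by
    intro a ha
    rw [hgprod, derivative_prod_finset, eval_finsetSum, Finset.sum_eq_single a]
    · rw [derivative_sub, derivative_X, derivative_C, sub_zero, mul_one, eval_prod]
      simp
    · intro b hb hba
      rw [eval_mul, eval_prod, Finset.prod_eq_zero (i := a), zero_mul]
      · exact Finset.mem_erase.2 ⟨hba.symm, ha⟩
      · simp
    · intro h; exact absurd ha h
  -- the two sides
  let G0 : Polynomial L := (Y * (minpoly L c).derivative) %ₘ (minpoly L c)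
  let R : Polynomial Ω := ∑ a ∈ S, C ((Y.map (algebraMap L Ω)).eval a) * ∏ b ∈ S.erase a, (X - C b)
  have hG0eval : ∀ a ∈ S, (G0.map (algebraMap L Ω)).eval a =
      (Y.map (algebraMap L Ω)).eval a * g.derivative.eval a := by
    intro a ha
    have h1 := modByMonic_add_div (Y * (minpoly L c).derivative) (minpoly L c)
    have h2 := congrArg (fun q => (Polynomial.map (algebraMap L Ω) q).eval a) h1
    simp only [Polynomial.map_add, Polynomial.map_mul, eval_add, eval_mul] at h2
    rw [← hg, (hmemS a).1 ha, zero_mul, add_zero] at h2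
    change (G0.map (algebraMap L Ω)).eval a = _ at h2
    rw [h2, hg, derivative_map]
  have hReval : ∀ a ∈ S, R.eval a = (Y.map (algebraMap L Ω)).eval a * g.derivative.eval a := by
    intro a ha
    rw [hder a ha]
    simp only [R]
    rw [eval_finsetSum, Finset.sum_eq_single a]
    · rw [eval_mul, eval_C, eval_prod]
      simp
    · intro b hb hba
      rw [eval_mul, eval_prod, Finset.prod_eq_zero (i := a), mul_zero]
      · exact Finset.mem_erase.2 ⟨hba.symm, ha⟩
      · simp
    · intro h; exact absurd ha h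
  have hSpos : 0 < S.card := by
    rw [← hcard, hg, natDegree_map]
    exact minpoly.natDegree_pos hint
  have hRdeg : R.degree < S.card := by
    refine lt_of_le_of_lt (degree_sum_le _ _) ?_
    rw [Finset.sup_lt_iff (by exact_mod_cast WithBot.bot_lt_coe _)]
    intro a ha
    refine lt_of_le_of_lt (degree_mul_le _ _) ?_
    have h1 : (∏ b ∈ S.erase a, (X - C b)).degree = ((S.card - 1 : ℕ) : WithBot ℕ) := by
      rw [degree_prod]
      simp [Finset.card_erase_of_mem ha]
    rw [h1]
    calc _ ≤ (0 : WithBot ℕ) + ((S.card - 1 : ℕ) : WithBot ℕ) := by gcongr; exact degree_C_le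
      _ < _ := by
        rw [zero_add]
        exact_mod_cast Nat.sub_lt hSpos one_pos
  have hGdeg : (G0.map (algebraMap L Ω)).degree < S.card := by
    rw [degree_map]
    have h1 : G0.degree < (minpoly L c).degree := degree_modByMonic_lt _ hmin
    have h2 : (minpoly L c).degree = S.card := by
      rw [← degree_map (minpoly L c) (algebraMap L Ω), ← hg, degree_eq_natDegree hgm.ne_zero, hcard]
    rw [← h2]; exact h1
  have hEq : G0.map (algebraMap L Ω) = R := by
    apply eq_of_degrees_lt_of_eval_finset_eq S hGdeg hRdeg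
    intro a ha
    rw [hG0eval a ha, hReval a ha]
  refine ⟨G0.map (algebraMap L Ω), ?_, ?_, ?_⟩
  · intro i
    rw [coeff_map]
    exact (G0.coeff i).2
  · rw [hEq]
    change R ∈ PO O
    refine (PO O).sum_mem fun a ha => (PO O).mul_mem (C_mem_PO O (hY a ((hmemS a).1 ha))) ?_
    refine (PO O).prod_mem fun b hb => (PO O).sub_mem (X_mem_PO O) (C_mem_PO O ?_)
    exact hr b ((hmemS b).1 (Finset.mem_of_mem_erase hb))
  · apply hG0eval
    rw [hmemS, hg, eval_map_algebraMap, minpoly.aeval]

/-- Elements of `adj L {c}` are polynomials in `c` when `c` is algebraic. -/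
theorem exists_poly {L : Subfield Ω} {c : Ω} (hc : IsIntegral L c) {x : Ω} (hx : x ∈ adj L {c}) :
    ∃ Y : Polynomial L, (Y.map (algebraMap L Ω)).eval c = x := by
  rw [← mem_adjoin_iff] at hx
  have h1 : x ∈ (IntermediateField.adjoin L {c}).toSubalgebra := hx
  rw [IntermediateField.adjoin_simple_toSubalgebra_of_isAlgebraic hc.isAlgebraic,
    Algebra.adjoin_singleton_eq_range_aeval] at h1
  obtain ⟨Y, hY⟩ := h1
  refine ⟨Y, ?_⟩
  rw [eval_map_algebraMap]
  exact hY

/-- A coefficient of maximal value with largest index. -/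
theorem exists_last_max (O : ValuationSubring Ω) {f : Polynomial Ω} (hf : f ≠ 0) :
    ∃ k, f.coeff k ≠ 0 ∧ (∀ i, O.valuation (f.coeff i) ≤ O.valuation (f.coeff k)) ∧
      ∀ i, k < i → O.valuation (f.coeff i) < O.valuation (f.coeff k) := by
  classical
  have hne : f.support.Nonempty := support_nonempty.2 hf
  obtain ⟨k0, hk0, hmax⟩ := Finset.exists_max_image f.support (fun i => O.valuation (f.coeff i)) hne
  let T := f.support.filter fun i => O.valuation (f.coeff i) = O.valuation (f.coeff k0)
  have hT : T.Nonempty := ⟨k0, by simp only [T, Finset.mem_filter]; exact ⟨hk0, trivial⟩⟩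
  refine ⟨T.max' hT, ?_, ?_, ?_⟩
  · have := T.max'_mem hT
    simp only [T, Finset.mem_filter] at this
    exact mem_support_iff.1 this.1
  · intro i
    have h1 := T.max'_mem hT
    simp only [T, Finset.mem_filter] at h1
    by_cases hi : i ∈ f.support
    · rw [h1.2]; exact hmax i hi
    · rw [notMem_support_iff.1 hi, map_zero]
      exact zero_le
  · intro i hi
    have h1 := T.max'_mem hT
    simp only [T, Finset.mem_filter] at h1
    have hv0 : O.valuation (f.coeff k0) ≠ 0 := by
      rw [Ne, map_eq_zero]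
      exact mem_support_iff.1 hk0
    by_cases his : i ∈ f.support
    · refine lt_of_le_of_ne ?_ ?_
      · rw [h1.2]; exact hmax i his
      · intro heq
        rw [h1.2] at heq
        have : i ∈ T := by
          simp only [T, Finset.mem_filter]
          exact ⟨his, heq⟩
        exact absurd (T.le_max' i this) (not_le.2 hi)
    · rw [notMem_support_iff.1 his, map_zero, h1.2]
      exact zero_lt_iff.2 hv0

/-- The polynomial `∑_{i ≥ k} b_i X ^ (i - k)`. -/
theorem tail_value (O : ValuationSubring Ω) {b : ℕ → Ω} {n k : ℕ} (hk : k ≤ n)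
    (hb : ∀ i, b i ∈ O) {y : Ω} (hy : ∑ i ∈ Finset.range (n + 1), b i * y ^ i = 0) :
    (∑ i ∈ Finset.range (n + 1 - k), b (k + i) * y ^ i) ∈ O ∧
      y * (∑ i ∈ Finset.range (n + 1 - k), b (k + i) * y ^ i) ∈ O := by
  by_cases hyO : y ∈ O
  · have h1 : (∑ i ∈ Finset.range (n + 1 - k), b (k + i) * y ^ i) ∈ O :=
      O.toSubring.sum_mem fun i _ => O.mul_mem _ _ (hb _) (pow_mem hyO _)
    exact ⟨h1, O.mul_mem _ _ hyO h1⟩
  · have hyi : y⁻¹ ∈ O := (O.mem_or_inv_mem y).resolve_left hyO
    have hy0 : y ≠ 0 := fun h => hyO (h ▸ O.zero_mem)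
    have h2 : (∑ i ∈ Finset.range (n + 1 - k), b (k + i) * y ^ i) =
        - ∑ i ∈ Finset.range k, b i * (y⁻¹) ^ (k - i) := by
      have h3 : ∑ i ∈ Finset.range (n + 1), b i * y ^ i =
          (∑ i ∈ Finset.range k, b i * y ^ i) +
            ∑ i ∈ Finset.range (n + 1 - k), b (k + i) * y ^ (k + i) := by
        rw [← Finset.sum_range_add_sum_Ico _ (show k ≤ n + 1 by omega), Finset.sum_Ico_eq_sum_range]
      rw [hy] at h3
      have h4 : ∑ i ∈ Finset.range (n + 1 - k), b (k + i) * y ^ (k + i) =
          y ^ k * ∑ i ∈ Finset.range (n + 1 - k), b (k + i) * y ^ i := by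
        rw [Finset.mul_sum]
        apply Finset.sum_congr rfl
        intro i _
        rw [pow_add]; ring
      have h5 : ∑ i ∈ Finset.range k, b i * y ^ i =
          y ^ k * ∑ i ∈ Finset.range k, b i * (y⁻¹) ^ (k - i) := by
        rw [Finset.mul_sum]
        apply Finset.sum_congr rfl
        intro i hi
        rw [Finset.mem_range] at hi
        have : y ^ k = y ^ i * y ^ (k - i) := by rw [← pow_add]; congr 1; omega
        rw [this]
        have h6 : y ^ (k - i) * (y⁻¹) ^ (k - i) = 1 := by
          rw [← mul_pow, mul_inv_cancel₀ hy0, one_pow]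
        calc b i * y ^ i = b i * y ^ i * (y ^ (k - i) * (y⁻¹) ^ (k - i)) := by rw [h6, mul_one]
          _ = _ := by ring
      rw [h4, h5, ← mul_add] at h3
      have h6 := (mul_eq_zero.1 h3.symm).resolve_left (pow_ne_zero k hy0)
      rw [add_comm] at h6
      exact eq_neg_of_add_eq_zero_left h6
    rw [h2]
    constructor
    · refine O.neg_mem _ (O.toSubring.sum_mem fun i _ => O.mul_mem _ _ (hb _) (pow_mem hyi _))
    · have h7 : y * -∑ i ∈ Finset.range k, b i * (y⁻¹) ^ (k - i) =
          -∑ i ∈ Finset.range k, b i * (y⁻¹) ^ (k - i - 1) := by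
        rw [mul_neg, Finset.mul_sum]
        congr 1
        apply Finset.sum_congr rfl
        intro i hi
        rw [Finset.mem_range] at hi
        obtain ⟨d, hd⟩ : ∃ d, k - i = d + 1 := ⟨k - i - 1, by omega⟩
        rw [hd, pow_succ, Nat.add_sub_cancel]
        field_simp
      rw [h7]
      refine O.neg_mem _ (O.toSubring.sum_mem fun i _ => O.mul_mem _ _ (hb _) (pow_mem hyi _))

end B5

open B5 in
theorem sroot_repr [IsAlgClosed Ω] (O : ValuationSubring Ω) {L : Subfield Ω} {c : Ω}
    (hc : SRoot O L c) {x : Ω} (hx : x ∈ adj L {c}) (hxO : x ∈ O) :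
    ∃ G1 G2 : Polynomial Ω, (∀ i, G1.coeff i ∈ L) ∧ (∀ i, G1.coeff i ∈ O) ∧
      (∀ i, G2.coeff i ∈ L) ∧ (∀ i, G2.coeff i ∈ O) ∧
      O.valuation (G2.eval c) = 1 ∧ x * G2.eval c = G1.eval c := by
  classical
  have hcint : IsIntegral L c := hc.isAlgebraic.isIntegral
  obtain ⟨Y, hY⟩ := exists_poly hcint hx
  -- a polynomial for `x`
  have hxalg : IsAlgebraic L x := by
    apply isAlgebraic_adj (S := {c}) _ hx
    rintro y rfl
    exact hc.isAlgebraic
  obtain ⟨f0, hf0, hf0x⟩ := hxalg
  set f : Polynomial Ω := f0.map (algebraMap L Ω) with hf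
  have hfne : f ≠ 0 := by
    rw [hf, Ne, Polynomial.map_eq_zero]; exact hf0
  obtain ⟨k, hk0, hkmax, hklast⟩ := exists_last_max O hfne
  set a := f0.coeff k with ha
  have hak : f.coeff k = (a : Ω) := by rw [hf, coeff_map]; rfl
  have ha0 : (a : Ω) ≠ 0 := by rw [← hak]; exact hk0
  have ha0' : a ≠ 0 := fun h => ha0 (by rw [h]; rfl)
  let bL : ℕ → L := fun i => f0.coeff i / a
  let b : ℕ → Ω := fun i => (bL i : Ω)
  have hb : ∀ i, b i = f.coeff i / f.coeff k := by
    intro i
    simp only [b, bL]
    rw [hak, hf, coeff_map]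
    rfl
  have hvk : O.valuation (f.coeff k) ≠ 0 := by rw [Ne, map_eq_zero]; exact hk0
  have hbO : ∀ i, b i ∈ O := by
    intro i
    rw [← val_le_one, hb, map_div₀]
    exact div_le_one_of_le₀ (hkmax i) zero_le
  have hbk : b k = 1 := by rw [hb, div_self hk0]
  have hblt : ∀ i, k < i → O.valuation (b i) < 1 := by
    intro i hi
    rw [hb, map_div₀, div_lt_one₀ (zero_lt_iff.2 hvk)]
    exact hklast i hi
  set n := f0.natDegree with hn
  have hkn : k ≤ n := by
    apply le_natDegree_of_ne_zero
    rw [← ha]; exact ha0'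
  have hroot : ∀ y : Ω, f.eval y = 0 → ∑ i ∈ Finset.range (n + 1), b i * y ^ i = 0 := by
    intro y hy
    have h1 : f.eval y = ∑ i ∈ Finset.range (n + 1), f.coeff i * y ^ i := by
      rw [eval_eq_sum_range' (n := n + 1)]
      rw [hf, natDegree_map]
      exact Nat.lt_succ_self _
    rw [h1] at hy
    have h2 : ∑ i ∈ Finset.range (n + 1), b i * y ^ i =
        (∑ i ∈ Finset.range (n + 1), f.coeff i * y ^ i) / f.coeff k := by
      rw [Finset.sum_div]
      apply Finset.sum_congr rfl
      intro i _
      rw [hb]; ring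
    rw [h2, hy, zero_div]
  -- the unit `u`
  let U : Polynomial L := ∑ i ∈ Finset.range (n + 1 - k), C (bL (k + i)) * Y ^ i
  have hUeval : ∀ y : Ω, (U.map (algebraMap L Ω)).eval y =
      ∑ i ∈ Finset.range (n + 1 - k), b (k + i) * ((Y.map (algebraMap L Ω)).eval y) ^ i := by
    intro y
    simp only [U]
    rw [Polynomial.map_sum, eval_finsetSum]
    apply Finset.sum_congr rfl
    intro i _
    rw [Polynomial.map_mul, Polynomial.map_pow, map_C, eval_mul, eval_C, eval_pow]
    rfl
  -- all conjugates
  have hfY : ∀ y : Ω, ((minpoly L c).map (algebraMap L Ω)).eval y = 0 →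
      f.eval ((Y.map (algebraMap L Ω)).eval y) = 0 := by
    intro y hy
    have h1 : minpoly L c ∣ f0.comp Y := by
      apply minpoly.dvd
      rw [aeval_comp]
      have : aeval c Y = x := by rw [← hY, eval_map_algebraMap]
      rw [this]; exact hf0x
    obtain ⟨q, hq⟩ := h1
    have h2 := congrArg (fun r => (Polynomial.map (algebraMap L Ω) r).eval y) hq
    simp only [Polynomial.map_mul, eval_mul, hy, zero_mul, Polynomial.map_comp, eval_comp] at h2
    exact h2
  have hU : ∀ y, ((minpoly L c).map (algebraMap L Ω)).eval y = 0 →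
      (U.map (algebraMap L Ω)).eval y ∈ O := by
    intro y hy
    rw [hUeval]
    exact (tail_value O hkn hbO (hroot _ (hfY y hy))).1
  have hYU : ∀ y, ((minpoly L c).map (algebraMap L Ω)).eval y = 0 →
      ((Y * U).map (algebraMap L Ω)).eval y ∈ O := by
    intro y hy
    rw [Polynomial.map_mul, eval_mul, hUeval]
    exact (tail_value O hkn hbO (hroot _ (hfY y hy))).2
  obtain ⟨G2, hG2L, hG2O, hG2⟩ := euler O hc U hU
  obtain ⟨G1, hG1L, hG1O, hG1⟩ := euler O hc (Y * U) hYU
  refine ⟨G1, G2, hG1L, hG1O, hG2L, hG2O, ?_, ?_⟩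
  · rw [hG2, map_mul, (minpoly_data O hc).2.1, mul_one]
    -- `u` is congruent to `1`
    rw [hUeval, hY]
    have hsplit : ∑ i ∈ Finset.range (n + 1 - k), b (k + i) * x ^ i =
        1 + ∑ i ∈ Finset.range (n - k), b (k + (i + 1)) * x ^ (i + 1) := by
      rw [show n + 1 - k = (n - k) + 1 by omega, Finset.sum_range_succ', add_comm]
      simp [hbk]
    rw [hsplit]
    have hsmall : O.valuation (∑ i ∈ Finset.range (n - k), b (k + (i + 1)) * x ^ (i + 1)) < 1 := by
      apply Valuation.map_sum_lt
      · exact one_ne_zero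
      · intro i _
        rw [map_mul, map_pow]
        have h1 := hblt (k + (i + 1)) (by omega)
        have h2 : O.valuation x ^ (i + 1) ≤ 1 := pow_le_one' ((val_le_one O).2 hxO) _
        exact mul_lt_one_of_lt_of_le h1 h2
    rw [Valuation.map_add_eq_of_lt_left]
    · exact map_one _
    · rw [map_one]; exact hsmall
  · rw [hG2, hG1, Polynomial.map_mul, eval_mul, hY]
    ring

/-- A simple root congruent to an element of `L` does not change the residue field. -/
theorem resEq_sroot [IsAlgClosed Ω] (O : ValuationSubring Ω) {L : Subfield Ω} {c a : Ω}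
    (hc : SRoot O L c) (ha : a ∈ L) (hca : O.valuation (c - a) < 1) :
    ResEq O L (adj L {c}) := by
  intro x hx hxO
  obtain ⟨G1, G2, h1L, h1O, h2L, h2O, hv, he⟩ := sroot_repr O hc hx hxO
  have hcO : c ∈ O := hc.memO
  have haO : a ∈ O := by
    have h1 : c - a ∈ O := (val_le_one O).1 hca.le
    have h2 : a = c - (c - a) := by ring
    rw [h2]
    exact O.toSubring.sub_mem hcO h1
  have d1 := lt_of_le_of_lt (eval_sub_val_le O h1O hcO haO) hca
  have d2 := lt_of_le_of_lt (eval_sub_val_le O h2O hcO haO) hca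
  have hv2 : O.valuation (G2.eval a) = 1 := by
    have : G2.eval a = G2.eval c + -(G2.eval c - G2.eval a) := by ring
    rw [this, Valuation.map_add_eq_of_lt_left]
    · exact hv
    · rw [Valuation.map_neg, hv]; exact d2
  have hne1 : G2.eval c ≠ 0 := by
    intro h; rw [h, map_zero] at hv; exact zero_ne_one hv
  have hne2 : G2.eval a ≠ 0 := by
    intro h; rw [h, map_zero] at hv2; exact zero_ne_one hv2
  refine ⟨G1.eval a / G2.eval a, L.div_mem (eval_mem h1L ha) (eval_mem h2L ha), ?_⟩
  have hx' : x - G1.eval a / G2.eval a =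
      ((G1.eval c - G1.eval a) - G1.eval a / G2.eval a * (G2.eval c - G2.eval a)) / G2.eval c := by
    rw [eq_div_iff hne1]
    have h9 : G1.eval a / G2.eval a * G2.eval a = G1.eval a := div_mul_cancel₀ _ hne2
    linear_combination he - h9
  rw [hx', map_div₀, hv, div_one]
  apply Valuation.map_sub_lt
  · exact d1
  · rw [map_mul, map_div₀, hv2, div_one]
    have : O.valuation (G1.eval a) ≤ 1 := (val_le_one O).2 (eval_memO O h1O haO)
    exact lt_of_le_of_lt (mul_le_of_le_one_left' this) d2

end Pool.Agent.H92.Tilt
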