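import Pool.Agent.H92.Tilt.B1
import Pool.Agent.H92.Tilt.B5

/-!
Modules B6a (U1, U2), B6b (U3), B6c (B7, B8), B6d (coarsening). (paper: B6, B7, B8). Unramified theory over perfect h-closed fields. The ambient field
need not be algebraic over `F`; `val_eq_of_conj` and an ambient-free formulation of the Galois
action (automorphisms of `acl F` over `F`, which is an algebraically closed field; `acl F` is
`algebraicClosure F Ω`) are used.

U1 `alg_pcl_hcl`: for `F` perfect h-closed and `x` algebraic over `F`, `F(x)` is perfect and h-closed.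
(Perfect: algebraic extension of a perfect field. h-closed: `c` a simple root over `F(x)`, `c ≡ a`;
every automorphism `τ` of `acl F` over `F(x)` preserves values by B2, so `τ c ≡ τ a = a ≡ c`,
both are roots of the same `h`, so `τ c = c` by `unique_root`.)
U2 `sroot_gauss`: `1, c, .., c^(n-1)` are residually independent, `n = deg minpoly F c`.
(The conjugates `c_i` of `c` are pairwise incongruent, because `v (g'(c_i)) = v (g'(c)) = 1`
for `g = minpoly F c`, and automorphisms act on residues over `k_F`; so the residue of `c` has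
`n` distinct conjugates over `k_F`, and no nontrivial combination of lower degree vanishes.)
U3 `mem_cl_iff`: `cl F` is the union of the `F(c)`, `c` a simple root over `F`.
(Compositum: `F(c1, c2)` has the residue field `k_F(c1, c2)`, generated by a separable `d`; lift it
to a simple root `d` over `F`, `d ∈ F(c1,c2)` by U1; degrees by U2 over `F` and over `F(c1)` give
`F(d) = F(c1, c2)`. A simple root over `F(c)` : same argument.)
B7 `desc`; B8 `inherit`: see the statements and the paper.
B7 proof: `F' = clN N X` is perfect, h-closed (`clN_pcl`, `clN_hcl`). `s ∈ cl F'`, so `s ∈ F'(c)`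
(U3). `ResEq F' F'(s)`: an element `x` of `F'(s) ∩ O` has residue separable over `k_{F'}` (perfect),
lift it to a simple root over `F'` congruent to `x ∈ N`: it is in `N` (h-closed), so in `F'`.
By U2 over `F'` and over `F'(s)` the element `c` has the same degree over both, so `s ∈ F'`.
B8 proof: `B` is perfect and h-closed because `K` is and `B` is relatively algebraically closed in `K`.
For `ν` algebraic over `B`: `ν ∈ K(c)`, `c` simple over `K`; the residue of `c` is algebraic over
`k_K = k_B`, lift its minimal polynomial to `B ∩ O`, get `c0` simple over `B`, `c0 ≡ c`, and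
`K(c) = K(c0)` (both are h-closed). Degrees: `[B(c0,ν):B] = [K(c0,ν):K] = [K(c0):K] = [B(c0):B]`
(`minpoly_rac` and primitive elements, everything is separable), so `ν ∈ B(c0) ⊆ cl B`.
-/

set_option autoImplicit false

namespace Pool.Agent.H92.Tilt

open Polynomial

section Aux

variable {Ω : Type*} [Field Ω]

/-- A polynomial over `Ω` with coefficients in `L` comes from `L`. -/
theorem exists_map_of_coeff {L : Subfield Ω} {h : Polynomial Ω} (hh : ∀ i, h.coeff i ∈ L) :
    ∃ q : Polynomial L, q.map (algebraMap L Ω) = h := by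
  have h1 : h ∈ Polynomial.lifts (algebraMap L Ω) := by
    rw [Polynomial.lifts_iff_coeff_lifts]
    intro n
    exact ⟨⟨h.coeff n, hh n⟩, rfl⟩
  exact (Polynomial.mem_lifts h).1 h1

theorem minpoly_eq_of_root {L : Subfield Ω} {x y : Ω} (hx : IsAlgebraic L x)
    (h : aeval y (minpoly L x) = 0) : minpoly L x = minpoly L y :=
  minpoly.eq_of_irreducible_of_monic (minpoly.irreducible hx.isIntegral) h
    (minpoly.monic hx.isIntegral)

/-- Conjugates are roots of the same polynomials. -/
theorem conj_root {L : Subfield Ω} {x y : Ω} (hxy : minpoly L x = minpoly L y)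
    {h : Polynomial Ω} (hh : ∀ i, h.coeff i ∈ L) (hx : h.eval x = 0) : h.eval y = 0 := by
  obtain ⟨q, rfl⟩ := exists_map_of_coeff hh
  have h1 : aeval x q = 0 := by rwa [Polynomial.aeval_def, ← Polynomial.eval_map]
  have h2 : minpoly L x ∣ q := minpoly.dvd L x h1
  rw [hxy] at h2
  obtain ⟨r, hr⟩ := h2
  rw [Polynomial.eval_map, ← Polynomial.aeval_def, hr, map_mul, minpoly.aeval, zero_mul]

/-- A polynomial over `L` takes conjugate values at conjugates. -/
theorem conj_eval {L : Subfield Ω} {x y : Ω} (hx : IsAlgebraic L x)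
    (hxy : minpoly L x = minpoly L y) {P : Polynomial Ω} (hP : ∀ i, P.coeff i ∈ L) :
    IsAlgebraic L (P.eval x) ∧ minpoly L (P.eval x) = minpoly L (P.eval y) := by
  have hal : IsAlgebraic L (P.eval x) := by
    refine isAlgebraic_adj (S := {x}) ?_ (eval_mem (fun i => le_adj L {x} (hP i))
      (subset_adj L {x} rfl))
    intro y hy
    rw [Set.mem_singleton_iff.1 hy]
    exact hx
  refine ⟨hal, minpoly_eq_of_root hal ?_⟩
  obtain ⟨q, rfl⟩ := exists_map_of_coeff hP
  set M := minpoly L ((q.map (algebraMap L Ω)).eval x) with hM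
  have h1 : ((M.comp q).map (algebraMap L Ω)).eval x = 0 := by
    rw [Polynomial.map_comp, Polynomial.eval_comp, Polynomial.eval_map (x := _),
      ← Polynomial.aeval_def]
    exact minpoly.aeval _ _
  have h2 := conj_root hxy (h := (M.comp q).map (algebraMap L Ω))
    (fun i => by rw [Polynomial.coeff_map]; exact ((M.comp q).coeff i).2) h1
  rw [Polynomial.map_comp, Polynomial.eval_comp, Polynomial.eval_map (x := _),
      ← Polynomial.aeval_def] at h2
  exact h2

/-- Conjugates over a bigger field are conjugates over a smaller one. -/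
theorem conj_mono {F L : Subfield Ω} (hF : F ≤ L) {x y : Ω} (hx : IsAlgebraic F x)
    (hxy : minpoly L x = minpoly L y) : minpoly F x = minpoly F y := by
  refine minpoly_eq_of_root hx ?_
  have h1 := conj_root hxy (h := (minpoly F x).map (algebraMap F Ω))
    (fun i => by rw [Polynomial.coeff_map]; exact hF ((minpoly F x).coeff i).2)
    (by rw [Polynomial.eval_map, ← Polynomial.aeval_def]; exact minpoly.aeval _ _)
  rwa [Polynomial.eval_map, ← Polynomial.aeval_def] at h1

/-- An element separable over `L` and not in `L` has another conjugate. -/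
theorem exists_conj_ne [IsAlgClosed Ω] {L : Subfield Ω} {c : Ω} (hs : IsSeparable L c)
    (hc : c ∉ L) : ∃ c', c' ≠ c ∧ minpoly L c = minpoly L c' := by
  classical
  have hint : IsIntegral L c := hs.isIntegral
  set g := (minpoly L c).map (algebraMap L Ω) with hg
  have hsep : g.Separable := Polynomial.Separable.map hs
  have hcard : g.roots.card = g.natDegree :=
    (Polynomial.splits_iff_card_roots.1 (IsAlgClosed.splits g))
  have hdeg : g.natDegree = (minpoly L c).natDegree := Polynomial.natDegree_map _
  have h2 : 2 ≤ (minpoly L c).natDegree := by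
    have h1 : 0 < (minpoly L c).natDegree := minpoly.natDegree_pos hint
    have h3 : (minpoly L c).natDegree ≠ 1 := by
      intro h
      obtain ⟨y, hy⟩ := minpoly.natDegree_eq_one_iff.1 h
      exact hc (hy ▸ y.2)
    omega
  have h4 : 1 < g.roots.toFinset.card := by
    rw [Multiset.toFinset_card_of_nodup (Polynomial.nodup_roots hsep), hcard, hdeg]
    omega
  obtain ⟨c', h5, h6⟩ := Finset.exists_mem_ne h4 c
  refine ⟨c', h6, minpoly_eq_of_root hint.isAlgebraic ?_⟩
  have h7 := (Polynomial.mem_roots'.1 (Multiset.mem_toFinset.1 h5)).2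
  rwa [Polynomial.IsRoot.def, hg, Polynomial.eval_map, ← Polynomial.aeval_def] at h7

end Aux

variable {Ω : Type*} [Field Ω] (p : ℕ) [Fact p.Prime] [CharP Ω p] [IsAlgClosed Ω]
  (O : ValuationSubring Ω)

/-- Over a perfect field algebraic elements are separable. -/
theorem PCl.isSeparable {F : Subfield Ω} (h1 : PCl p F) {x : Ω} (hx : IsAlgebraic F x) :
    IsSeparable F x := by
  have : CharP F p := (algebraMap F Ω).charP (algebraMap F Ω).injective p
  have : PerfectRing F p := by
    refine PerfectRing.ofSurjective F p ?_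
    intro y
    obtain ⟨z, hz⟩ := IsAlgClosed.exists_pow_nat_eq (y : Ω) (Fact.out (p := p.Prime)).pos
    refine ⟨⟨z, h1 z (hz ▸ y.2)⟩, ?_⟩
    apply Subtype.ext
    exact hz
  have : PerfectField F := PerfectRing.toPerfectField F p
  exact PerfectField.separable_of_irreducible (minpoly.irreducible hx.isIntegral)

theorem alg_pcl_hcl {F F' : Subfield Ω} (h1 : PCl p F) (h2 : HCl O F) (hF : F ≤ F')
    (halg : ∀ x ∈ F', IsAlgebraic F x) : PCl p F' ∧ HCl O F' := by
  constructor
  · intro x hx
    have hax : IsAlgebraic F x := (halg _ hx).of_pow (Fact.out (p := p.Prime)).pos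
    have hs : IsSeparable F x := PCl.isSeparable p h1 hax
    have h3 := IntermediateField.adjoin_simple_eq_adjoin_pow_expChar_of_isSeparable F Ω hs p
    have h4 : x ∈ adj F {x ^ p} := by
      rw [← mem_adjoin_iff, ← h3, mem_adjoin_iff]
      exact subset_adj F {x} rfl
    exact adj_le hF (Set.singleton_subset_iff.2 hx) h4
  · intro c a hc ha hca
    by_contra hcF
    obtain ⟨c', hne, hconj⟩ := exists_conj_ne hc.isSeparable hcF
    have hcalg : IsAlgebraic F c :=
      isAlgebraic_trans halg hc.isAlgebraic
    have h3 := conj_eval (P := X - C a) hc.isAlgebraic hconj (by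
      intro i
      rw [Polynomial.coeff_sub]
      refine F'.sub_mem ?_ ?_
      · rw [Polynomial.coeff_X]; split_ifs
        · exact F'.one_mem
        · exact F'.zero_mem
      · rw [Polynomial.coeff_C]; split_ifs
        · exact ha
        · exact F'.zero_mem)
    simp only [Polynomial.eval_sub, Polynomial.eval_X, Polynomial.eval_C] at h3
    have h4 : IsAlgebraic F (c - a) := isAlgebraic_trans halg h3.1
    have h5 := val_eq_of_conj p O h2 h4 (conj_mono hF h4 h3.2)
    obtain ⟨h, hm, hL, hO, hr, hd⟩ := hc
    have hcO : c ∈ O := root_memO O hm hO hr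
    refine hne (unique_root O hO hcO hr hd (conj_root hconj hL hr) ?_)
    have h6 : c' - c = (c' - a) - (c - a) := by ring
    rw [h6]
    exact lt_of_le_of_lt (Valuation.map_sub _ _ _) (max_lt (h5 ▸ hca) hca)

include p in
/-- The conjugates of a simple root over an h-closed field are pairwise incongruent. -/
theorem sroot_incong {F : Subfield Ω} (h2 : HCl O F) {c : Ω} (hc : SRoot O F c) {r r' : Ω}
    (hr : minpoly F c = minpoly F r) (hr' : minpoly F c = minpoly F r') (hne : r' ≠ r) :
    r ∈ O ∧ r' ∈ O ∧ O.valuation (r' - r) = 1 := by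
  have hcalg := hc.isAlgebraic
  obtain ⟨h, hm, hL, hO, hroot, hd⟩ := hc
  have hr0 := conj_root hr hL hroot
  have hr0' := conj_root hr' hL hroot
  have hrO : r ∈ O := root_memO O hm hO hr0
  have hrO' : r' ∈ O := root_memO O hm hO hr0'
  refine ⟨hrO, hrO', ?_⟩
  have h3 := conj_eval hcalg hr (P := h.derivative) (derivative_coeff_mem hL)
  have h4 := val_eq_of_conj p O h2 h3.1 h3.2
  have h5 : O.valuation (r' - r) ≤ 1 := (val_le_one O).2 (O.sub_mem hrO' hrO)
  by_contra h6
  have h7 : O.valuation (r' - r) < 1 := lt_of_le_of_ne h5 h6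
  exact hne (unique_root O hO hrO hr0 (h4 ▸ hd) hr0' h7)

theorem sroot_gauss {F : Subfield Ω} (h1 : PCl p F) (h2 : HCl O F) {c : Ω} (hc : SRoot O F c)
    (P : Polynomial Ω) (hP : ∀ i, P.coeff i ∈ F) (hd : P.natDegree < (minpoly F c).natDegree)
    (i : ℕ) : O.valuation (P.coeff i) ≤ O.valuation (P.eval c) := by
  classical
  have hcalg := hc.isAlgebraic
  have hs : IsSeparable F c := hc.isSeparable
  set g := (minpoly F c).map (algebraMap F Ω) with hg
  have hsep : g.Separable := Polynomial.Separable.map hs
  have hcard : g.roots.card = g.natDegree :=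
    (Polynomial.splits_iff_card_roots.1 (IsAlgClosed.splits g))
  have hdeg : g.natDegree = (minpoly F c).natDegree := Polynomial.natDegree_map _
  set R := g.roots.toFinset with hR
  have hRc : R.card = (minpoly F c).natDegree := by
    rw [hR, Multiset.toFinset_card_of_nodup (Polynomial.nodup_roots hsep), hcard, hdeg]
  have hconj : ∀ r ∈ R, minpoly F c = minpoly F r := by
    intro r hr
    refine minpoly_eq_of_root hcalg ?_
    have h7 := (Polynomial.mem_roots'.1 (Multiset.mem_toFinset.1 hr)).2
    rwa [Polynomial.IsRoot.def, hg, Polynomial.eval_map, ← Polynomial.aeval_def] at h7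
  have hval : ∀ r ∈ R, O.valuation (P.eval r) = O.valuation (P.eval c) := by
    intro r hr
    have h3 := conj_eval hcalg (hconj r hr) hP
    exact (val_eq_of_conj p O h2 h3.1 h3.2).symm
  have hPdeg : P.degree < R.card := by
    rw [hRc]
    exact lt_of_le_of_lt Polynomial.degree_le_natDegree (by exact_mod_cast hd)
  have hint := Lagrange.eq_interpolate (s := R) (v := id) (f := P)
    (Set.injOn_id _) hPdeg
  have hbasis : ∀ r ∈ R, Lagrange.basis R id r ∈ Polynomial.lifts (O.subtype) := by
    intro r hr
    rw [Lagrange.basis]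
    refine Subsemiring.prod_mem _ ?_
    intro r' hr'
    have hne : r' ≠ r := (Finset.mem_erase.1 hr').1
    have hr'R := (Finset.mem_erase.1 hr').2
    obtain ⟨hrO, hrO', h8⟩ := sroot_incong p O h2 hc (hconj r hr) (hconj r' hr'R) hne
    rw [Lagrange.basisDivisor]
    have h9 : (r - r')⁻¹ ∈ O := by
      rw [← val_le_one O, map_inv₀, Valuation.map_sub_swap, h8, inv_one]
    refine Subsemiring.mul_mem _ ?_ ?_
    · exact Polynomial.C'_mem_lifts (R := O) ⟨⟨_, h9⟩, rfl⟩
    · rw [sub_eq_add_neg, ← Polynomial.C_neg]
      refine Subsemiring.add_mem _ (Polynomial.X_mem_lifts _) ?_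
      exact Polynomial.C'_mem_lifts (R := O) ⟨⟨_, neg_mem hrO'⟩, rfl⟩
  refine le_of_eq_of_le (congrArg (fun f => O.valuation (f.coeff i)) hint) ?_
  simp only [Lagrange.interpolate_apply, Polynomial.finsetSum_coeff]
  refine Valuation.map_sum_le _ ?_
  intro r hr
  rw [Polynomial.coeff_C_mul, map_mul]
  obtain ⟨⟨y, hy⟩, hy2⟩ := (Polynomial.lifts_iff_coeff_lifts _).1 (hbasis r hr) i
  have h10 : O.valuation ((Lagrange.basis R id r).coeff i) ≤ 1 := by
    rw [← hy2]
    exact (val_le_one O).2 hy
  have h11 := hval r hr
  calc _ ≤ O.valuation (P.eval (id r)) * 1 := mul_le_mul' le_rfl h10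
    _ = _ := by rw [mul_one]; exact h11

end Pool.Agent.H92.Tilt
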