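import Pool.Agent.H92.Tilt.B6a

/-! Module B6b: see the comment in B6a. -/

set_option autoImplicit false

namespace Pool.Agent.H92.Tilt

open Polynomial

section Residue

variable {Ω : Type*} [Field Ω] (O : ValuationSubring Ω)

/-- The subring `F ∩ O` of `O`. -/
def OF (F : Subfield Ω) : Subring O := F.toSubring.comap O.subtype

theorem mem_OF (F : Subfield Ω) (x : O) : x ∈ OF O F ↔ (x : Ω) ∈ F := Iff.rfl

theorem res_zero_iff (x : O) : IsLocalRing.residue O x = 0 ↔ O.valuation (x : Ω) < 1 := by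
  rw [IsLocalRing.residue_eq_zero_iff]
  exact ValuationSubring.valuation_lt_one_iff O x

theorem res_eq_iff (x y : O) : IsLocalRing.residue O x = IsLocalRing.residue O y ↔
    O.valuation ((x : Ω) - y) < 1 := by
  rw [← sub_eq_zero, ← map_sub, res_zero_iff]
  rfl

/-- The residue field of `F`. -/
noncomputable def resF (F : Subfield Ω) : Subfield (IsLocalRing.ResidueField O) where
  __ := (OF O F).map (IsLocalRing.residue O)
  inv_mem' := by
    intro x hx
    obtain ⟨y, hy, rfl⟩ := hx
    by_cases h0 : IsLocalRing.residue O y = 0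
    · refine ⟨0, (OF O F).zero_mem, ?_⟩
      rw [h0, inv_zero]
      exact map_zero _
    · have h1 : O.valuation (y : Ω) = 1 := by
        have h2 : ¬ O.valuation (y : Ω) < 1 := fun h => h0 ((res_zero_iff O y).2 h)
        exact le_antisymm ((val_le_one O).2 y.2) (not_lt.1 h2)
      have h3 : (y : Ω)⁻¹ ∈ O := by rw [← val_le_one O, map_inv₀, h1, inv_one]
      refine ⟨⟨(y : Ω)⁻¹, h3⟩, ?_, ?_⟩
      · exact F.inv_mem hy
      · refine eq_inv_of_mul_eq_one_left ?_
        have h4 : (y : Ω) ≠ 0 := by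
          intro h
          rw [h, map_zero] at h1
          exact zero_ne_one h1
        have h5 : (⟨(y : Ω)⁻¹, h3⟩ : O) * y = 1 := Subtype.ext (inv_mul_cancel₀ h4)
        change IsLocalRing.residue O _ * IsLocalRing.residue O y = 1
        rw [← map_mul, h5, map_one]

theorem mem_resF (F : Subfield Ω) (x : IsLocalRing.ResidueField O) :
    x ∈ resF O F ↔ ∃ y : O, (y : Ω) ∈ F ∧ IsLocalRing.residue O y = x := Iff.rfl

/-- The residue map of `F`. -/
noncomputable def toResF (F : Subfield Ω) : OF O F →+* resF O F :=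
  ((IsLocalRing.residue O).comp (OF O F).subtype).codRestrict (resF O F)
    (fun x => ⟨x.1, x.2, rfl⟩)

theorem toResF_surj (F : Subfield Ω) : Function.Surjective (toResF O F) := by
  rintro ⟨x, y, hy, rfl⟩
  exact ⟨⟨y, hy⟩, rfl⟩

theorem coe_toResF (F : Subfield Ω) (x : OF O F) :
    ((toResF O F x : resF O F) : IsLocalRing.ResidueField O) = IsLocalRing.residue O x.1 := rfl

/-- Evaluation of a polynomial over `F ∩ O` and residues. -/
theorem residue_eval (F : Subfield Ω) (q : Polynomial (OF O F)) (x : O) :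
    IsLocalRing.residue O (eval₂ (OF O F).subtype x q) =
      aeval (IsLocalRing.residue O x) (q.map (toResF O F)) := by
  rw [Polynomial.hom_eval₂, Polynomial.aeval_def, Polynomial.eval₂_map]
  rfl

theorem coe_eval (F : Subfield Ω) (q : Polynomial (OF O F)) (x : O) :
    ((eval₂ (OF O F).subtype x q : O) : Ω) =
      (q.map ((O.subtype).comp (OF O F).subtype)).eval (x : Ω) := by
  have h := Polynomial.hom_eval₂ q (OF O F).subtype O.subtype x
  rw [Polynomial.eval_map]
  exact h

end Residue

section Lift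

variable {Ω : Type*} [Field Ω] (p : ℕ) [Fact p.Prime] [CharP Ω p] [IsAlgClosed Ω]
  (O : ValuationSubring Ω)

include p in
omit [IsAlgClosed Ω] in
theorem charP_res : CharP (IsLocalRing.ResidueField O) p := by
  rw [CharP.charP_iff_prime_eq_zero Fact.out]
  have h1 : ((p : O) : Ω) = 0 := by
    rw [← CharP.cast_eq_zero Ω p]
    push_cast
    rfl
  have h2 : (p : O) = 0 := Subtype.ext h1
  rw [← map_natCast (IsLocalRing.residue O), h2, map_zero]

theorem resF_perfect {F : Subfield Ω} (h1 : PCl p F) : PerfectField (resF O F) := by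
  have hc := charP_res p O
  have : CharP (resF O F) p :=
    (algebraMap (resF O F) (IsLocalRing.ResidueField O)).charP
      (algebraMap (resF O F) (IsLocalRing.ResidueField O)).injective p
  have : PerfectRing (resF O F) p := by
    refine PerfectRing.ofSurjective _ p ?_
    rintro ⟨x, y, hy, rfl⟩
    obtain ⟨z, hz⟩ := IsAlgClosed.exists_pow_nat_eq (y : Ω) (Fact.out (p := p.Prime)).pos
    have hzF : z ∈ F := h1 z (by rw [hz]; exact hy)
    have hzO : z ∈ O := by
      rw [← val_le_one O]
      by_contra h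
      have h2 : 1 < O.valuation z ^ p :=
        one_lt_pow₀ (not_le.1 h) (Fact.out (p := p.Prime)).ne_zero
      rw [← map_pow, hz] at h2
      exact absurd h2 (not_lt.2 ((val_le_one O).2 y.2))
    refine ⟨⟨IsLocalRing.residue O ⟨z, hzO⟩, ⟨z, hzO⟩, hzF, rfl⟩, ?_⟩
    apply Subtype.ext
    change (IsLocalRing.residue O ⟨z, hzO⟩) ^ p = IsLocalRing.residue O y
    rw [← map_pow]
    congr 1
    exact Subtype.ext hz
  exact PerfectRing.toPerfectField (resF O F) p

omit [Fact p.Prime] [CharP Ω p] [IsAlgClosed Ω] in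
/-- The residue of an element algebraic over `F` is algebraic over the residue field of `F`. -/
theorem residue_alg {F : Subfield Ω} {x : O} (hx : IsAlgebraic F (x : Ω)) :
    IsAlgebraic (resF O F) (IsLocalRing.residue O x) := by
  obtain ⟨h, h0, hF, hr⟩ := (isAlgebraic_iff F (x : Ω)).1 hx
  have hne : h.support.Nonempty := Polynomial.support_nonempty.2 h0
  obtain ⟨j, hj, hmax⟩ := Finset.exists_max_image h.support (fun i => O.valuation (h.coeff i)) hne
  have hj0 : h.coeff j ≠ 0 := Polynomial.mem_support_iff.1 hj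
  set g := C (h.coeff j)⁻¹ * h with hg
  have hgc : ∀ i, g.coeff i ∈ F ∧ g.coeff i ∈ O := by
    intro i
    rw [hg, Polynomial.coeff_C_mul]
    refine ⟨F.mul_mem (F.inv_mem (hF j)) (hF i), ?_⟩
    rw [← val_le_one O, map_mul, map_inv₀]
    by_cases hi : i ∈ h.support
    · have h2 : O.valuation (h.coeff j) ≠ 0 := by
        rwa [Valuation.ne_zero_iff]
      calc (O.valuation (h.coeff j))⁻¹ * O.valuation (h.coeff i)
          ≤ (O.valuation (h.coeff j))⁻¹ * O.valuation (h.coeff j) :=
            mul_le_mul' le_rfl (hmax i hi)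
        _ = 1 := inv_mul_cancel₀ h2
    · rw [Polynomial.notMem_support_iff.1 hi, map_zero, mul_zero]
      exact zero_le_one
  have hlift : g ∈ Polynomial.lifts ((O.subtype).comp (OF O F).subtype) := by
    rw [Polynomial.lifts_iff_coeff_lifts]
    intro n
    exact ⟨⟨⟨g.coeff n, (hgc n).2⟩, (hgc n).1⟩, rfl⟩
  obtain ⟨q, hq⟩ := (Polynomial.mem_lifts g).1 hlift
  refine ⟨q.map (toResF O F), ?_, ?_⟩
  · intro h3
    have h4 := congrArg (fun f => f.coeff j) h3
    simp only [Polynomial.coeff_map, Polynomial.coeff_zero] at h4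
    have h5 : g.coeff j = 1 := by
      rw [hg, Polynomial.coeff_C_mul, inv_mul_cancel₀ hj0]
    have h6 : q.coeff j = 1 := by
      rw [← hq, Polynomial.coeff_map] at h5
      exact Subtype.ext (Subtype.ext h5)
    rw [h6, map_one] at h4
    exact one_ne_zero h4
  · rw [← residue_eval, res_zero_iff, coe_eval, hq, hg, Polynomial.eval_mul, hr, mul_zero,
      map_zero]
    exact zero_lt_one

/-- A residue algebraic over the residue field of a perfect field is the residue of a simple
root. -/
theorem exists_sroot_near {F : Subfield Ω} (h1 : PCl p F) {x : O}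
    (hx : IsAlgebraic (resF O F) (IsLocalRing.residue O x)) :
    ∃ d : Ω, SRoot O F d ∧ O.valuation (d - x) < 1 := by
  have hperf := resF_perfect p O h1
  set m := minpoly (resF O F) (IsLocalRing.residue O x) with hm
  have hmon : m.Monic := minpoly.monic hx.isIntegral
  have hsep : m.Separable :=
    PerfectField.separable_of_irreducible (minpoly.irreducible hx.isIntegral)
  have hl : m ∈ Polynomial.lifts (toResF O F) := by
    rw [Polynomial.lifts_iff_coeff_lifts]
    exact fun n => toResF_surj O F _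
  obtain ⟨q, hq, -, hqm⟩ := Polynomial.lifts_and_natDegree_eq_and_monic hl hmon
  set H := q.map ((O.subtype).comp (OF O F).subtype) with hH
  have hHm : H.Monic := hqm.map _
  have hHF : ∀ i, H.coeff i ∈ F := by
    intro i
    rw [hH, Polynomial.coeff_map]
    exact (q.coeff i).2
  have hHO : ∀ i, H.coeff i ∈ O := by
    intro i
    rw [hH, Polynomial.coeff_map]
    exact (q.coeff i).1.2
  have h2 : O.valuation (H.eval (x : Ω)) < 1 := by
    rw [hH, ← coe_eval, ← res_zero_iff, residue_eval, hq]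
    exact minpoly.aeval _ _
  have h3 : ¬ O.valuation (H.derivative.eval (x : Ω)) < 1 := by
    rw [hH, Polynomial.derivative_map, ← coe_eval, ← res_zero_iff, residue_eval,
      ← Polynomial.derivative_map, hq]
    exact hsep.aeval_derivative_ne_zero (minpoly.aeval _ _)
  obtain ⟨c, hc1, hc2, hc3⟩ := exists_root_near O hHm hHO x.2 h2
  have h4 := eval_sub_val_le O (derivative_coeff_memO O hHO) hc2 x.2
  have h5 : O.valuation (H.derivative.eval c) ≤ 1 :=
    (val_le_one O).2 (eval_memO O (derivative_coeff_memO O hHO) hc2)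
  refine ⟨c, ⟨H, hHm, hHF, hHO, hc1, ?_⟩, hc3⟩
  refine le_antisymm h5 (not_lt.1 fun h6 => h3 ?_)
  have h7 : H.derivative.eval (x : Ω) =
      H.derivative.eval c - (H.derivative.eval c - H.derivative.eval (x : Ω)) := by ring
  rw [h7]
  exact lt_of_le_of_lt (Valuation.map_sub _ _ _) (max_lt h6 (lt_of_le_of_lt h4 hc3))

omit [IsAlgClosed Ω] in
/-- Elements with residue in `k_F(δ)` are congruent to elements of `F(d)`, `d ≡ δ`. -/
theorem exists_approx {F : Subfield Ω} {δ y : O}
    (hδ : IsAlgebraic (resF O F) (IsLocalRing.residue O δ))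
    (hy : IsLocalRing.residue O y ∈
      IntermediateField.adjoin (resF O F) {IsLocalRing.residue O δ}) {d : Ω}
    (hd : O.valuation (d - δ) < 1) :
    ∃ a ∈ adj F {d}, a ∈ O ∧ O.valuation ((y : Ω) - a) < 1 := by
  have hdO : d ∈ O := by
    have h : d = (d - δ) + δ := by ring
    rw [h]
    exact add_mem ((val_le_one O).1 hd.le) δ.2
  have hy2 : IsLocalRing.residue O y ∈
      (IntermediateField.adjoin (resF O F) {IsLocalRing.residue O δ}).toSubalgebra := hy
  rw [IntermediateField.adjoin_simple_toSubalgebra_of_isAlgebraic hδ,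
    Algebra.adjoin_singleton_eq_range_aeval] at hy2
  obtain ⟨m, hm⟩ := hy2
  obtain ⟨q, hq⟩ := Polynomial.map_surjective (toResF O F) (toResF_surj O F) m
  have hres : IsLocalRing.residue O ⟨d, hdO⟩ = IsLocalRing.residue O δ :=
    (res_eq_iff O _ _).2 hd
  refine ⟨((eval₂ (OF O F).subtype ⟨d, hdO⟩ q : O) : Ω), ?_, Subtype.property _, ?_⟩
  · rw [coe_eval]
    refine eval_mem (fun i => ?_) (subset_adj F {d} rfl)
    rw [Polynomial.coeff_map]
    exact le_adj F {d} (q.coeff i).2
  · rw [← res_eq_iff, residue_eval, hres, hq]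
    exact hm.symm

/-- Finitely many algebraic elements of `O` are approximated by elements of one unramified
extension `F(d)`. -/
theorem exists_sroot_approx {F : Subfield Ω} (h1 : PCl p F) (S : Finset Ω)
    (hS : ∀ x ∈ S, x ∈ O ∧ IsAlgebraic F x) :
    ∃ d, SRoot O F d ∧ ∀ x ∈ S, ∃ a ∈ adj F {d}, a ∈ O ∧ O.valuation (x - a) < 1 := by
  classical
  have hperf := resF_perfect p O h1
  set R : Set (IsLocalRing.ResidueField O) :=
    {r | ∃ x : O, (x : Ω) ∈ S ∧ IsLocalRing.residue O x = r} with hR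
  have hRfin : R.Finite := by
    have : R ⊆ (S.attach.image (fun x => IsLocalRing.residue O ⟨x.1, (hS x.1 x.2).1⟩) :
        Finset (IsLocalRing.ResidueField O)) := by
      rintro r ⟨x, hx, rfl⟩
      simp only [Finset.coe_image, Set.mem_image]
      exact ⟨⟨x, hx⟩, Finset.mem_coe.2 (Finset.mem_attach _ _), rfl⟩
    exact (Finset.finite_toSet _).subset this
  have hRalg : ∀ r ∈ R, IsIntegral (resF O F) r := by
    rintro r ⟨x, hx, rfl⟩
    exact (residue_alg O (hS x hx).2).isIntegral
  have : Finite R := hRfin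
  have hfd : FiniteDimensional (resF O F) (IntermediateField.adjoin (resF O F) R) :=
    IntermediateField.finiteDimensional_adjoin hRalg
  have hsep : Algebra.IsSeparable (resF O F) (IntermediateField.adjoin (resF O F) R) :=
    Algebra.IsAlgebraic.isSeparable_of_perfectField
  obtain ⟨α, hα⟩ := Field.exists_primitive_element (resF O F)
    (IntermediateField.adjoin (resF O F) R)
  obtain ⟨δ, hδ⟩ := IsLocalRing.residue_surjective (α : IsLocalRing.ResidueField O)
  have hδalg : IsAlgebraic (resF O F) (IsLocalRing.residue O δ) := by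
    rw [hδ]
    have h2 : IsAlgebraic (resF O F) α := Algebra.IsAlgebraic.isAlgebraic α
    exact h2.algebraMap
  obtain ⟨d, hd1, hd2⟩ := exists_sroot_near p O h1 hδalg
  refine ⟨d, hd1, fun x hx => ?_⟩
  refine exists_approx O (y := ⟨x, (hS x hx).1⟩) hδalg ?_ hd2
  have h3 : IsLocalRing.residue O ⟨x, (hS x hx).1⟩ ∈ IntermediateField.adjoin (resF O F) R :=
    IntermediateField.subset_adjoin _ _ ⟨⟨x, (hS x hx).1⟩, hx, rfl⟩
  rw [hδ]
  have h4 : (⟨_, h3⟩ : IntermediateField.adjoin (resF O F) R) ∈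
      IntermediateField.adjoin (resF O F) {α} := by
    rw [hα]
    exact IntermediateField.mem_top
  have h5 : IntermediateField.lift (IntermediateField.adjoin (resF O F) {α}) =
      IntermediateField.adjoin (resF O F) {(α : IsLocalRing.ResidueField O)} := by
    rw [IntermediateField.lift_adjoin_simple]
  rw [← h5]
  exact ⟨_, h4, rfl⟩

end Lift

section Main

variable {Ω : Type*} [Field Ω] (p : ℕ) [Fact p.Prime] [CharP Ω p] [IsAlgClosed Ω]
  (O : ValuationSubring Ω)

omit [IsAlgClosed Ω] in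
theorem sroot_adj_alg {F : Subfield Ω} {c : Ω} (hc : SRoot O F c) :
    ∀ x ∈ adj F {c}, IsAlgebraic F x := by
  intro x hx
  refine isAlgebraic_adj (S := {c}) ?_ hx
  intro y hy
  rw [Set.mem_singleton_iff.1 hy]
  exact hc.isAlgebraic

theorem sroot_adj_closed {F : Subfield Ω} (h1 : PCl p F) (h2 : HCl O F) {c : Ω}
    (hc : SRoot O F c) : PCl p (adj F {c}) ∧ HCl O (adj F {c}) :=
  alg_pcl_hcl p O h1 h2 (le_adj F {c}) (sroot_adj_alg O hc)

/-- Finitely many simple roots are contained in one `F(d)`, together with one more element of `O`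
up to congruence. -/
theorem sroot_directed {F : Subfield Ω} (h1 : PCl p F) (h2 : HCl O F) (S T : Finset Ω)
    (hS : ∀ c ∈ S, SRoot O F c) (hT : ∀ x ∈ T, x ∈ O ∧ IsAlgebraic F x) :
    ∃ d, SRoot O F d ∧ (∀ c ∈ S, c ∈ adj F {d}) ∧
      ∀ x ∈ T, ∃ a ∈ adj F {d}, O.valuation (x - a) < 1 := by
  classical
  obtain ⟨d, hd, hd2⟩ := exists_sroot_approx p O h1 (S ∪ T) (by
    intro x hx
    rcases Finset.mem_union.1 hx with h | h
    · exact ⟨(hS x h).memO, (hS x h).isAlgebraic⟩
    · exact hT x h)
  refine ⟨d, hd, fun c hc => ?_, fun x hx => ?_⟩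
  · obtain ⟨a, ha, -, ha2⟩ := hd2 c (Finset.mem_union_left _ hc)
    exact (sroot_adj_closed p O h1 h2 hd).2 c a ((hS c hc).mono (le_adj _ _)) ha ha2
  · obtain ⟨a, ha, -, ha2⟩ := hd2 x (Finset.mem_union_right _ hx)
    exact ⟨a, ha, ha2⟩

/-- Finitely many elements of the union of the `F(c)` lie in one of them. -/
theorem sroot_directed' {F : Subfield Ω} (h1 : PCl p F) (h2 : HCl O F) (S T : Finset Ω)
    (hS : ∀ x ∈ S, ∃ c, SRoot O F c ∧ x ∈ adj F {c})
    (hT : ∀ x ∈ T, x ∈ O ∧ IsAlgebraic F x) :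
    ∃ d, SRoot O F d ∧ (∀ x ∈ S, x ∈ adj F {d}) ∧
      ∀ x ∈ T, ∃ a ∈ adj F {d}, O.valuation (x - a) < 1 := by
  classical
  choose! f hf1 hf2 using hS
  obtain ⟨d, hd, hd2, hd3⟩ := sroot_directed p O h1 h2 (S.image f) T (by
    intro c hc
    obtain ⟨x, hx, rfl⟩ := Finset.mem_image.1 hc
    exact hf1 x hx) hT
  refine ⟨d, hd, fun x hx => ?_, hd3⟩
  exact adj_le (le_adj F {d}) (Set.singleton_subset_iff.2
    (hd2 (f x) (Finset.mem_image_of_mem f hx))) (hf2 x hx)

/-- The union of the `F(c)`, `c` a simple root over `F`. -/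
def clU {F : Subfield Ω} (h1 : PCl p F) (h2 : HCl O F) : Subfield Ω where
  carrier := {x | ∃ c, SRoot O F c ∧ x ∈ adj F {c}}
  mul_mem' := by
    classical
    intro x y hx hy
    obtain ⟨d, hd, hd2, -⟩ := sroot_directed' p O h1 h2 {x, y} ∅ (by
      intro z hz
      rcases Finset.mem_insert.1 hz with rfl | hz
      · exact hx
      · rw [Finset.mem_singleton.1 hz]; exact hy) (by simp)
    exact ⟨d, hd, (adj F {d}).mul_mem (hd2 x (by simp)) (hd2 y (by simp))⟩
  one_mem' := ⟨1, SRoot.of_mem F.one_mem O.one_mem, (adj F {1}).one_mem⟩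
  add_mem' := by
    classical
    intro x y hx hy
    obtain ⟨d, hd, hd2, -⟩ := sroot_directed' p O h1 h2 {x, y} ∅ (by
      intro z hz
      rcases Finset.mem_insert.1 hz with rfl | hz
      · exact hx
      · rw [Finset.mem_singleton.1 hz]; exact hy) (by simp)
    exact ⟨d, hd, (adj F {d}).add_mem (hd2 x (by simp)) (hd2 y (by simp))⟩
  zero_mem' := ⟨1, SRoot.of_mem F.one_mem O.one_mem, (adj F {1}).zero_mem⟩
  neg_mem' := by
    rintro x ⟨c, hc, hx⟩
    exact ⟨c, hc, (adj F {c}).neg_mem hx⟩
  inv_mem' := by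
    rintro x ⟨c, hc, hx⟩
    exact ⟨c, hc, (adj F {c}).inv_mem hx⟩

theorem mem_cl_iff {F : Subfield Ω} (h1 : PCl p F) (h2 : HCl O F) (x : Ω) :
    x ∈ cl p O F ↔ ∃ c, SRoot O F c ∧ x ∈ adj F {c} := by
  classical
  constructor
  · intro hx
    have h3 : cl p O F ≤ clU p O h1 h2 := by
      refine cl_min ?_ ?_ ?_
      · intro y hy
        exact ⟨1, SRoot.of_mem F.one_mem O.one_mem, le_adj F {1} hy⟩
      · rintro y ⟨c, hc, hy⟩
        exact ⟨c, hc, (sroot_adj_closed p O h1 h2 hc).1 y hy⟩
      · intro c' hc'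
        have hc'O := hc'.memO
        have hc'alg : IsAlgebraic F c' := by
          refine isAlgebraic_trans ?_ hc'.isAlgebraic
          rintro y ⟨c, hc, hy⟩
          exact sroot_adj_alg O hc y hy
        obtain ⟨h, hm, hL, hO, hr, hd⟩ := hc'
        obtain ⟨d, hd1, hd2, hd3⟩ := sroot_directed' p O h1 h2
          (h.support.image h.coeff) {c'} (by
            intro y hy
            obtain ⟨i, -, rfl⟩ := Finset.mem_image.1 hy
            exact hL i) (by
            intro y hy
            rw [Finset.mem_singleton.1 hy]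
            exact ⟨hc'O, hc'alg⟩)
        obtain ⟨a, ha, ha2⟩ := hd3 c' (Finset.mem_singleton_self _)
        refine ⟨d, hd1, (sroot_adj_closed p O h1 h2 hd1).2 c' a ⟨h, hm, ?_, hO, hr, hd⟩ ha ha2⟩
        intro i
        by_cases hi : i ∈ h.support
        · exact hd2 _ (Finset.mem_image_of_mem _ hi)
        · rw [Polynomial.notMem_support_iff.1 hi]
          exact (adj F {d}).zero_mem
    exact h3 hx
  · rintro ⟨c, hc, hx⟩
    refine adj_le (le_cl F) (Set.singleton_subset_iff.2 ?_) hx
    exact cl_scl F c (hc.mono (le_cl F))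

/-- A finite subset of `cl F` is contained in one `F(c)`. -/
theorem cl_finset {F : Subfield Ω} (h1 : PCl p F) (h2 : HCl O F) (S : Finset Ω)
    (hS : ∀ s ∈ S, s ∈ cl p O F) : ∃ c, SRoot O F c ∧ ∀ s ∈ S, s ∈ adj F {c} := by
  obtain ⟨d, hd, hd2, -⟩ := sroot_directed' p O h1 h2 S ∅
    (fun s hs => (mem_cl_iff p O h1 h2 s).1 (hS s hs)) (by simp)
  exact ⟨d, hd, hd2⟩

omit [IsAlgClosed Ω] [CharP Ω p] [Fact p.Prime] in
/-- Elements of `F(c)` are polynomials in `c` of degree less than that of `c`. -/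
theorem adj_repr {F : Subfield Ω} {c : Ω} (hc : IsAlgebraic F c) {x : Ω} (hx : x ∈ adj F {c}) :
    ∃ P : Polynomial Ω, (∀ i, P.coeff i ∈ F) ∧ P.natDegree < (minpoly F c).natDegree ∧
      x = P.eval c := by
  rw [← mem_adjoin_iff] at hx
  have hx2 : x ∈ (IntermediateField.adjoin F {c}).toSubalgebra := hx
  rw [IntermediateField.adjoin_simple_toSubalgebra_of_isAlgebraic hc,
    Algebra.adjoin_singleton_eq_range_aeval] at hx2
  obtain ⟨m, hm⟩ := hx2
  have hmon := minpoly.monic hc.isIntegral
  refine ⟨(m %ₘ minpoly F c).map (algebraMap F Ω), ?_, ?_, ?_⟩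
  · intro i
    rw [Polynomial.coeff_map]
    exact Subtype.property _
  · rw [Polynomial.natDegree_map]
    exact Polynomial.natDegree_modByMonic_lt m hmon (minpoly.ne_one F c)
  · rw [Polynomial.eval_map, ← Polynomial.aeval_def,
      Polynomial.aeval_modByMonic_eq_self_of_root (minpoly.aeval F c)]
    exact hm.symm

/-- The value of `P(c)` is the value of a coefficient. -/
theorem val_eval_sroot {F : Subfield Ω} (h1 : PCl p F) (h2 : HCl O F) {c : Ω}
    (hc : SRoot O F c) {P : Polynomial Ω} (hP : ∀ i, P.coeff i ∈ F)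
    (hd : P.natDegree < (minpoly F c).natDegree) :
    ∃ j, O.valuation (P.eval c) = O.valuation (P.coeff j) := by
  obtain ⟨j, hj, hmax⟩ := Finset.exists_max_image (Finset.range (P.natDegree + 1))
    (fun i => O.valuation (P.coeff i)) ⟨0, by simp⟩
  refine ⟨j, le_antisymm ?_ (sroot_gauss p O h1 h2 hc P hP hd j)⟩
  rw [Polynomial.eval_eq_sum_range]
  refine Valuation.map_sum_le _ fun i hi => ?_
  rw [map_mul, map_pow]
  calc O.valuation (P.coeff i) * O.valuation c ^ i ≤ O.valuation (P.coeff j) * 1 :=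
        mul_le_mul' (hmax i hi) (pow_le_one' ((val_le_one O).2 hc.memO) i)
    _ = _ := mul_one _

/-- The value group does not change in `cl F`. -/
theorem valEq_cl {F : Subfield Ω} (h1 : PCl p F) (h2 : HCl O F) : ValEq O F (cl p O F) := by
  intro x hx hx0
  obtain ⟨c, hc, hxc⟩ := (mem_cl_iff p O h1 h2 x).1 hx
  obtain ⟨P, hP, hd, rfl⟩ := adj_repr hc.isAlgebraic hxc
  obtain ⟨j, hj⟩ := val_eval_sroot p O h1 h2 hc hP hd
  exact ⟨P.coeff j, hP j, hj⟩

/-- The value group of the algebraic closure of a field with `W`. -/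
theorem W.valEq_acl {B : Subfield Ω} (h : W p O B) : ValEq O B (acl B) := by
  intro x hx hx0
  exact valEq_cl p O h.pcl h.hcl x (h.alg x ((mem_acl B x).1 hx)) hx0

end Main

end Pool.Agent.H92.Tilt
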