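import Pool.Agent.H92.Tilt.B6b

/-! Module B6c: see the comment in B6a. -/

set_option autoImplicit false

namespace Pool.Agent.H92.Tilt

open Polynomial

variable {Ω : Type*} [Field Ω] (p : ℕ) [Fact p.Prime] [CharP Ω p] [IsAlgClosed Ω]
  (O : ValuationSubring Ω)

/-- An element `s` of an unramified extension of `F` such that `F(s)` has the same residue field
is in `F`. -/
theorem mem_of_resEq {F : Subfield Ω} (h1 : PCl p F) (h2 : HCl O F) {s : Ω}
    (hs : s ∈ cl p O F) (hres : ResEq O F (adj F {s})) : s ∈ F := by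
  obtain ⟨c, hc, hsc⟩ := (mem_cl_iff p O h1 h2 s).1 hs
  obtain ⟨P, hP, hd, hsP⟩ := adj_repr hc.isAlgebraic hsc
  have hpos : 0 < (minpoly F c).natDegree := lt_of_le_of_lt (Nat.zero_le _) hd
  set Q := P - C (P.coeff 0) with hQ
  have hQF : ∀ i, Q.coeff i ∈ F := by
    intro i
    rw [hQ, Polynomial.coeff_sub, Polynomial.coeff_C]
    refine F.sub_mem (hP i) ?_
    split_ifs
    · exact hP 0
    · exact F.zero_mem
  have hQ0 : Q.coeff 0 = 0 := by simp [hQ]
  have hQd : Q.natDegree < (minpoly F c).natDegree := by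
    refine lt_of_le_of_lt (Polynomial.natDegree_sub_le _ _) ?_
    rw [Polynomial.natDegree_C]
    exact max_lt hd hpos
  have hsF : s = P.coeff 0 + Q.eval c := by
    rw [hsP, hQ, Polynomial.eval_sub, Polynomial.eval_C]
    ring
  by_cases hQz : Q = 0
  · rw [hsF, hQz, Polynomial.eval_zero, add_zero]
    exact hP 0
  exfalso
  obtain ⟨j, hj, hmax⟩ := Finset.exists_max_image Q.support (fun i => O.valuation (Q.coeff i))
    (Polynomial.support_nonempty.2 hQz)
  have hj0 : Q.coeff j ≠ 0 := Polynomial.mem_support_iff.1 hj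
  have hjpos : j ≠ 0 := by
    rintro rfl
    exact hj0 hQ0
  have hvj : O.valuation (Q.coeff j) ≠ 0 := by rwa [Valuation.ne_zero_iff]
  set R := C (Q.coeff j)⁻¹ * Q with hR
  have hRF : ∀ i, R.coeff i ∈ F := by
    intro i
    rw [hR, Polynomial.coeff_C_mul]
    exact F.mul_mem (F.inv_mem (hQF j)) (hQF i)
  have hRO : ∀ i, R.coeff i ∈ O := by
    intro i
    rw [hR, Polynomial.coeff_C_mul, ← val_le_one O, map_mul, map_inv₀]
    by_cases hi : i ∈ Q.support
    · calc (O.valuation (Q.coeff j))⁻¹ * O.valuation (Q.coeff i)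
          ≤ (O.valuation (Q.coeff j))⁻¹ * O.valuation (Q.coeff j) :=
            mul_le_mul' le_rfl (hmax i hi)
        _ = 1 := inv_mul_cancel₀ hvj
    · rw [Polynomial.notMem_support_iff.1 hi, map_zero, mul_zero]
      exact zero_le_one
  have hRj : R.coeff j = 1 := by rw [hR, Polynomial.coeff_C_mul, inv_mul_cancel₀ hj0]
  have hRd : R.natDegree < (minpoly F c).natDegree :=
    lt_of_le_of_lt (Polynomial.natDegree_C_mul_le _ _) hQd
  have hReval : R.eval c ∈ adj F {s} := by
    have h3 : R.eval c = (Q.coeff j)⁻¹ * (s - P.coeff 0) := by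
      rw [hR, Polynomial.eval_mul, Polynomial.eval_C, hsF]
      ring
    rw [h3]
    exact (adj F {s}).mul_mem ((adj F {s}).inv_mem (le_adj F {s} (hQF j)))
      ((adj F {s}).sub_mem (subset_adj F {s} rfl) (le_adj F {s} (hP 0)))
  obtain ⟨b, hb, hb2⟩ := hres _ hReval (eval_memO O hRO hc.memO)
  have h4 := sroot_gauss p O h1 h2 hc (R - C b) (by
    intro i
    rw [Polynomial.coeff_sub, Polynomial.coeff_C]
    refine F.sub_mem (hRF i) ?_
    split_ifs
    · exact hb
    · exact F.zero_mem) (by
    refine lt_of_le_of_lt (Polynomial.natDegree_sub_le _ _) ?_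
    rw [Polynomial.natDegree_C]
    exact max_lt hRd hpos) j
  rw [Polynomial.coeff_sub, Polynomial.coeff_C, if_neg hjpos, sub_zero, hRj, map_one,
    Polynomial.eval_sub, Polynomial.eval_C] at h4
  exact absurd hb2 (not_lt.2 h4)

theorem desc {X N : Subfield Ω} (hXN : X ≤ N) (h1 : PCl p N) (h2 : HCl O N) {s : Ω}
    (hs : s ∈ cl p O X) (hsN : s ∈ N) : s ∈ clN p O N X := by
  have h3 : PCl p (clN p O N X) := clN_pcl h1 hXN
  have h4 : HCl O (clN p O N X) := clN_hcl h2 hXN
  refine mem_of_resEq p O h3 h4 (cl_mono (le_clN N X) hs) ?_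
  intro x hx hxO
  have hxN : x ∈ N :=
    adj_le (clN_le hXN) (Set.singleton_subset_iff.2 hsN) hx
  have hxalg : IsAlgebraic (clN p O N X) x := by
    refine isAlgebraic_adj (S := {s}) ?_ hx
    intro y hy
    rw [Set.mem_singleton_iff.1 hy]
    exact isAlgebraic_mono (le_clN N X) (clN_alg ⊤ X hs)
  obtain ⟨e, he, he2⟩ := exists_sroot_near p O h3 (x := ⟨x, hxO⟩) (residue_alg O hxalg)
  have heN : e ∈ N := h2 e x (he.mono (clN_le hXN)) hxN he2
  refine ⟨e, (clN_clIn N X).2 e heN he, ?_⟩
  rw [Valuation.map_sub_swap]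
  exact he2

/-- For a field with `W` in a field with the same residue field: relatively algebraically
closed. -/
theorem W.rac {B K : Subfield Ω} (hB : W p O B) (hBK : B ≤ K) (hres : ResEq O B K) :
    RAC B K := by
  intro x hx hxalg
  refine mem_of_resEq p O hB.pcl hB.hcl (hB.alg x hxalg) ?_
  intro y hy hyO
  exact hres y (adj_le hBK (Set.singleton_subset_iff.2 hx) hy) hyO

omit [IsAlgClosed Ω] [CharP Ω p] [Fact p.Prime] in
theorem resF_eq {K B : Subfield Ω} (hB : B ≤ K) (hres : ResEq O B K) :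
    resF O K = resF O B := by
  apply le_antisymm
  · rintro x ⟨y, hy, rfl⟩
    obtain ⟨b, hb, hb2⟩ := hres y hy y.2
    have hbO : b ∈ O := by
      have h : b = (y : Ω) - (y - b) := by ring
      rw [h]
      exact sub_mem y.2 ((val_le_one O).1 hb2.le)
    refine ⟨⟨b, hbO⟩, hb, ?_⟩
    refine (res_eq_iff O _ _).2 ?_
    rw [Valuation.map_sub_swap]
    exact hb2
  · rintro x ⟨y, hy, rfl⟩
    exact ⟨y, hB hy, rfl⟩

/-- Over a relatively algebraically closed subfield the coefficients of the representation of an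
algebraic element descend. -/
theorem coeff_descend {K B : Subfield Ω} (hBK : B ≤ K) (hp : PCl p B) (hrac : RAC B K) {c : Ω}
    (hc : IsAlgebraic B c) {P : Polynomial Ω} (hP : ∀ i, P.coeff i ∈ K)
    (hd : P.natDegree < (minpoly K c).natDegree) (hal : IsAlgebraic B (P.eval c)) :
    ∀ i, P.coeff i ∈ B := by
  classical
  have hcK : IsAlgebraic K c := isAlgebraic_mono hBK hc
  have hs : IsSeparable B c := PCl.isSeparable p hp hc
  set g := (minpoly B c).map (algebraMap B Ω) with hg
  have hgK : (minpoly K c).map (algebraMap K Ω) = g := minpoly_rac hBK hrac c hc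
  have hsep : g.Separable := Polynomial.Separable.map hs
  have hcard : g.roots.card = g.natDegree :=
    (Polynomial.splits_iff_card_roots.1 (IsAlgClosed.splits g))
  have hdeg : g.natDegree = (minpoly K c).natDegree := by
    rw [← hgK]
    exact Polynomial.natDegree_map _
  set R := g.roots.toFinset with hR
  have hRc : R.card = (minpoly K c).natDegree := by
    rw [hR, Multiset.toFinset_card_of_nodup (Polynomial.nodup_roots hsep), hcard, hdeg]
  have hroot : ∀ r ∈ R, g.eval r = 0 := fun r hr =>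
    (Polynomial.mem_roots'.1 (Multiset.mem_toFinset.1 hr)).2
  have hconj : ∀ r ∈ R, minpoly K c = minpoly K r := by
    intro r hr
    refine minpoly_eq_of_root hcK ?_
    rw [Polynomial.aeval_def, ← Polynomial.eval_map, hgK]
    exact hroot r hr
  have hralg : ∀ r ∈ R, r ∈ acl B := by
    intro r hr
    rw [mem_acl, isAlgebraic_iff]
    refine ⟨g, hsep.ne_zero, fun i => ?_, hroot r hr⟩
    rw [hg, Polynomial.coeff_map]
    exact Subtype.property _
  have hval : ∀ r ∈ R, P.eval r ∈ acl B := by
    intro r hr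
    rw [mem_acl, isAlgebraic_iff]
    refine ⟨(minpoly B (P.eval c)).map (algebraMap B Ω), ?_, fun i => ?_, ?_⟩
    · exact ((minpoly.monic hal.isIntegral).map _).ne_zero
    · rw [Polynomial.coeff_map]
      exact Subtype.property _
    · obtain ⟨q, hq⟩ := exists_map_of_coeff hP
      have h3 := conj_root (hconj r hr)
        (h := ((minpoly B (P.eval c)).map (algebraMap B Ω)).comp P) (by
          intro i
          have h4 : ((minpoly B (P.eval c)).map (algebraMap B Ω)).comp P ∈
              Polynomial.lifts (K.subtype) := by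
            have h5 : ((minpoly B (P.eval c)).map (algebraMap B Ω)) =
                ((minpoly B (P.eval c)).map (Subfield.inclusion hBK)).map K.subtype := by
              rw [Polynomial.map_map]
              rfl
            rw [h5, ← hq]
            exact (Polynomial.mem_lifts _).2 ⟨_, Polynomial.map_comp _ _ _⟩
          obtain ⟨y, hy⟩ := (Polynomial.lifts_iff_coeff_lifts _).1 h4 i
          rw [← hy]
          exact y.2) (by
          rw [Polynomial.eval_comp, Polynomial.eval_map, ← Polynomial.aeval_def]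
          exact minpoly.aeval _ _)
      rwa [Polynomial.eval_comp] at h3
  have hPdeg : P.degree < R.card := by
    rw [hRc]
    exact lt_of_le_of_lt Polynomial.degree_le_natDegree (by exact_mod_cast hd)
  have hint := Lagrange.eq_interpolate (s := R) (v := id) (f := P)
    (Set.injOn_id _) hPdeg
  have hmem : P ∈ Polynomial.lifts ((acl B).subtype) := by
    rw [hint, Lagrange.interpolate_apply]
    refine Subsemiring.sum_mem _ fun r hr => Subsemiring.mul_mem _ ?_ ?_
    · exact Polynomial.C'_mem_lifts (R := acl B) ⟨⟨_, hval r hr⟩, rfl⟩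
    · rw [Lagrange.basis]
      refine Subsemiring.prod_mem _ fun r' hr' => ?_
      have hr'R := (Finset.mem_erase.1 hr').2
      rw [Lagrange.basisDivisor]
      refine Subsemiring.mul_mem _ ?_ ?_
      · exact Polynomial.C'_mem_lifts (R := acl B)
          ⟨⟨_, inv_mem (sub_mem (hralg r hr) (hralg r' hr'R))⟩, rfl⟩
      · rw [sub_eq_add_neg, ← Polynomial.C_neg]
        refine Subsemiring.add_mem _ (Polynomial.X_mem_lifts _) ?_
        exact Polynomial.C'_mem_lifts (R := acl B) ⟨⟨_, neg_mem (hralg r' hr'R)⟩, rfl⟩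
  intro i
  obtain ⟨y, hy⟩ := (Polynomial.lifts_iff_coeff_lifts _).1 hmem i
  exact hrac _ (hP i) ((mem_acl B _).1 (by rw [← hy]; exact y.2))

theorem inherit {K B : Subfield Ω} (hK : W p O K) (hB : B ≤ K) (hrac : RAC B K)
    (hres : ResEq O B K) : W p O B := by
  have hpcl : PCl p B := by
    intro x hx
    exact hrac x (hK.pcl x (hB hx))
      ((isAlgebraic_of_mem hx).of_pow (Fact.out (p := p.Prime)).pos)
  have hhcl : HCl O B := by
    intro c a hc ha hca
    exact hrac c (hK.hcl c a (hc.mono hB) (hB ha) hca) hc.isAlgebraic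
  refine ⟨hpcl, hhcl, fun x hx => ?_⟩
  obtain ⟨c, hc, hxc⟩ := (mem_cl_iff p O hK.pcl hK.hcl x).1 (hK.alg x (isAlgebraic_mono hB hx))
  have h3 : IsAlgebraic (resF O B) (IsLocalRing.residue O ⟨c, hc.memO⟩) := by
    rw [← resF_eq O hB hres]
    exact residue_alg O hc.isAlgebraic
  obtain ⟨c0, hc0, hcc0⟩ := exists_sroot_near p O hpcl h3
  have hc0K : SRoot O K c0 := hc0.mono hB
  have h4 : c ∈ adj K {c0} :=
    (sroot_adj_closed p O hK.pcl hK.hcl hc0K).2 c c0 (hc.mono (le_adj K {c0}))
      (subset_adj K {c0} rfl) (by rw [Valuation.map_sub_swap]; exact hcc0)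
  have h5 : x ∈ adj K {c0} := adj_le (le_adj K {c0}) (Set.singleton_subset_iff.2 h4) hxc
  obtain ⟨P, hP, hd, rfl⟩ := adj_repr hc0K.isAlgebraic h5
  have h6 := coeff_descend p hB hpcl hrac hc0.isAlgebraic hP hd hx
  exact (mem_cl_iff p O hpcl hhcl _).2 ⟨c0, hc0,
    eval_mem (fun i => le_adj B {c0} (h6 i)) (subset_adj B {c0} rfl)⟩

end Pool.Agent.H92.Tilt
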