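import Pool.Agent.H92.Tilt.B6

/-!
Module B9. The fixed field of a package satisfies `W` for the coarse valuation ring `O1 = O[1/t]`.

`K` is perfect (uniqueness of `p`-th roots) and h-closed (automorphisms in `G` preserve `O1` and the
maximal ideal of `O1`, so they fix a simple root congruent to an element of `K`).
Let `a` be algebraic over `K`, `θ` as in `hP4`. The orbit of `a` under `G` is finite, so the orbit of
`θ` is finite (`g a = g' a` implies `g θ = g' θ`), and `h = ∏ (X - θ')` over the orbit has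
coefficients in `K ∩ O1` and `h'(θ) = ∏_{θ' ≠ θ} (θ - θ')` is a unit of `O1`: `θ` is a simple root.
Lagrange interpolation: `P = ∑ a' ∏_{θ'' ≠ θ'} (X - θ'')` has coefficients in `K` and
`P(θ) = a h'(θ)`, so `a ∈ K(θ)`.
-/

set_option autoImplicit false

namespace Pool.Agent.H92.Tilt

open Polynomial

variable {Ω : Type*} [Field Ω]

section B9

variable (O1 : ValuationSubring Ω) (G : Subgroup (RingAut Ω))
    (hG : ∀ g ∈ G, ∀ x ∈ O1, g x ∈ O1)

include hG in
theorem b9_memO {g : RingAut Ω} (hg : g ∈ G) (x : Ω) : g x ∈ O1 ↔ x ∈ O1 := by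
  constructor
  · intro h
    have h1 := hG g⁻¹ (G.inv_mem hg) _ h
    have h2 : g⁻¹ (g x) = x := by
      change (g⁻¹ * g) x = x
      rw [inv_mul_cancel]
      rfl
    rwa [h2] at h1
  · exact hG g hg x

include hG in
theorem b9_val_lt {g : RingAut Ω} (hg : g ∈ G) {x : Ω} (hx : O1.valuation x < 1) :
    O1.valuation (g x) < 1 := by
  by_cases h0 : x = 0
  · rw [h0, map_zero]; simp
  have h1 : x ∈ O1 := (O1.valuation_le_one_iff x).1 hx.le
  have h2 : g x ∈ O1 := hG g hg x h1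
  rcases lt_or_eq_of_le ((O1.valuation_le_one_iff (g x)).2 h2) with h | h
  · exact h
  exfalso
  have h3 : O1.valuation (g x)⁻¹ ≤ 1 := by rw [map_inv₀, h, inv_one]
  have h4 : (g x)⁻¹ ∈ O1 := (O1.valuation_le_one_iff _).1 h3
  have h5 : g x⁻¹ ∈ O1 := by rw [map_inv₀]; exact h4
  have h6 : x⁻¹ ∈ O1 := (b9_memO O1 G hG hg _).1 h5
  have h7 : O1.valuation x⁻¹ ≤ 1 := (O1.valuation_le_one_iff _).2 h6
  rw [map_inv₀] at h7
  have h8 : O1.valuation x ≠ 0 := (_root_.map_ne_zero _).2 h0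
  have h9 : (1 : O1.ValueGroup) < (O1.valuation x)⁻¹ := by
    rw [one_lt_inv₀ (zero_lt_iff.2 h8)]
    exact hx
  exact absurd h7 (not_le.2 h9)

/-- The orbit of `a`. -/
def b9_orb (a : Ω) : Set Ω := {b | ∃ g ∈ G, g a = b}

theorem b9_orb_finite {a : Ω} {f : Polynomial Ω} (hf : f ≠ 0)
    (hc : ∀ i, ∀ g ∈ G, g (f.coeff i) = f.coeff i) (ha : f.eval a = 0) :
    (b9_orb G a).Finite := by
  classical
  refine (f.roots.toFinset.finite_toSet).subset ?_
  rintro b ⟨g, hg, rfl⟩
  have h1 : f.map (g : Ω →+* Ω) = f := by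
    ext i
    rw [Polynomial.coeff_map]
    exact hc i g hg
  have h2 : f.eval (g a) = 0 := by
    have h3 := Polynomial.eval_map_apply (f := (g : Ω →+* Ω)) (p := f) a
    rw [h1, ha, map_zero] at h3
    exact h3
  simp only [Finset.mem_coe, Multiset.mem_toFinset]
  exact (Polynomial.mem_roots hf).2 h2

theorem b9_main {a θ : Ω} (hθ : θ ∈ O1)
    (h4 : ∀ g ∈ G, (g a = a → g θ = θ) ∧ (g a ≠ a → O1.valuation (g θ - θ) = 1))
    (hfin : (b9_orb G a).Finite) (hGO : ∀ g ∈ G, ∀ x ∈ O1, g x ∈ O1) :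
    ∃ h P : Polynomial Ω, h.Monic ∧ (∀ i, ∀ g ∈ G, g (h.coeff i) = h.coeff i) ∧
      (∀ i, h.coeff i ∈ O1) ∧ h.eval θ = 0 ∧ O1.valuation (h.derivative.eval θ) = 1 ∧
      (∀ i, ∀ g ∈ G, g (P.coeff i) = P.coeff i) ∧ P.eval θ = a * h.derivative.eval θ := by
  classical
  set A : Finset Ω := hfin.toFinset with hA
  have memA : ∀ b, b ∈ A ↔ ∃ g ∈ G, g a = b := by
    intro b
    rw [hA, Set.Finite.mem_toFinset]
    rfl
  have haA : a ∈ A := (memA a).2 ⟨1, G.one_mem, rfl⟩
  have hmulA : ∀ g g' : RingAut Ω, ∀ x, (g * g') x = g (g' x) := fun g g' x => rfl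
  have hτ : ∃ τ : Ω → Ω, ∀ g ∈ G, τ (g a) = g θ := by
    refine ⟨fun b => if h : ∃ g ∈ G, g a = b then h.choose θ else 0, ?_⟩
    intro g hg
    have hex : ∃ g' ∈ G, g' a = g a := ⟨g, hg, rfl⟩
    simp only [dif_pos hex]
    have h1 := hex.choose_spec
    set g1 := hex.choose
    have h2 : (g⁻¹ * g1) a = a := by
      rw [hmulA, h1.2, ← hmulA, inv_mul_cancel]
      rfl
    have h3 := (h4 _ (G.mul_mem (G.inv_mem hg) h1.1)).1 h2
    have h5 : g ((g⁻¹ * g1) θ) = g θ := by rw [h3]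
    rw [← hmulA, ← mul_assoc, mul_inv_cancel, one_mul] at h5
    exact h5
  obtain ⟨τ, hτ⟩ := hτ
  have hτa : τ a = θ := hτ 1 G.one_mem
  have hτg : ∀ g ∈ G, ∀ b ∈ A, τ (g b) = g (τ b) := by
    intro g hg b hb
    obtain ⟨g', hg', rfl⟩ := (memA b).1 hb
    rw [← hmulA, hτ _ (G.mul_mem hg hg'), hτ _ hg']
    rfl
  have hgA : ∀ g ∈ G, ∀ b ∈ A, g b ∈ A := by
    intro g hg b hb
    obtain ⟨g', hg', rfl⟩ := (memA b).1 hb
    exact (memA _).2 ⟨g * g', G.mul_mem hg hg', rfl⟩
  have himg : ∀ g ∈ G, A.image g = A := by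
    intro g hg
    apply Finset.eq_of_subset_of_card_le
    · intro b hb
      obtain ⟨c, hc, rfl⟩ := Finset.mem_image.1 hb
      exact hgA g hg c hc
    · rw [Finset.card_image_of_injective _ g.injective]
  have hmapnod : ∀ g ∈ G, ∀ s ⊆ A, (Lagrange.nodal s τ).map (g : Ω →+* Ω) =
      Lagrange.nodal (s.image g) τ := by
    intro g hg s hs
    rw [Lagrange.nodal, Lagrange.nodal, Polynomial.map_prod,
      Finset.prod_image (fun x _ y _ h => g.injective h)]
    refine Finset.prod_congr rfl fun b hb => ?_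
    rw [Polynomial.map_sub, Polynomial.map_X, Polynomial.map_C, hτg g hg b (hs hb)]
    rfl
  refine ⟨Lagrange.nodal A τ, ∑ b ∈ A, C b * Lagrange.nodal (A.erase b) τ, ?_, ?_, ?_, ?_, ?_, ?_, ?_⟩
  · exact Lagrange.nodal_monic
  · intro i g hg
    have h1 := hmapnod g hg A (Finset.Subset.refl _)
    rw [himg g hg] at h1
    have h2 := congrArg (fun q => Polynomial.coeff q i) h1
    simpa using h2
  · intro i
    have h1 : Lagrange.nodal A τ ∈ Polynomial.lifts (O1.subtype) := by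
      rw [Lagrange.nodal]
      refine Subsemiring.prod_mem _ ?_
      intro b hb
      obtain ⟨g, hg, rfl⟩ := (memA b).1 hb
      have h2 : g θ ∈ O1 := hGO g hg θ hθ
      rw [hτ g hg]
      refine (Polynomial.mem_lifts _).2 ⟨X - C (⟨g θ, h2⟩ : O1), ?_⟩
      simp
    obtain ⟨q, hq⟩ := (Polynomial.mem_lifts _).1 h1
    rw [← hq, Polynomial.coeff_map]
    exact (q.coeff i).2
  · rw [← hτa]
    exact Lagrange.eval_nodal_at_node haA
  · rw [← hτa, Lagrange.eval_nodal_derivative_eval_node_eq haA, Lagrange.eval_nodal, map_prod]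
    refine Finset.prod_eq_one fun b hb => ?_
    obtain ⟨hne, hbA⟩ := Finset.mem_erase.1 hb
    obtain ⟨g, hg, rfl⟩ := (memA b).1 hbA
    rw [hτa, hτ g hg, Valuation.map_sub_swap]
    exact (h4 g hg).2 hne
  · intro i g hg
    have h1 : (∑ b ∈ A, C b * Lagrange.nodal (A.erase b) τ).map (g : Ω →+* Ω) =
        ∑ b ∈ A, C b * Lagrange.nodal (A.erase b) τ := by
      rw [Polynomial.map_sum]
      have h2 : ∀ b ∈ A, (C b * Lagrange.nodal (A.erase b) τ).map (g : Ω →+* Ω) =
          C (g b) * Lagrange.nodal (A.erase (g b)) τ := by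
        intro b hb
        rw [Polynomial.map_mul, Polynomial.map_C, hmapnod g hg _ (Finset.erase_subset _ _),
          Finset.image_erase g.injective, himg g hg]
        rfl
      rw [Finset.sum_congr rfl h2]
      conv_rhs => rw [← himg g hg]
      rw [Finset.sum_image (fun x _ y _ h => g.injective h)]
      refine Finset.sum_congr rfl fun b _ => ?_
      rw [himg g hg]
    have h2 := congrArg (fun q => Polynomial.coeff q i) h1
    simpa using h2
  · rw [Polynomial.eval_finsetSum, Finset.sum_eq_single a]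
    · rw [Polynomial.eval_mul, Polynomial.eval_C]
      congr 1
      conv_rhs => rw [← hτa]
      rw [Lagrange.eval_nodal_derivative_eval_node_eq haA, hτa]
    · intro b hb hba
      rw [Polynomial.eval_mul, ← hτa,
        Lagrange.eval_nodal_at_node (Finset.mem_erase.2 ⟨Ne.symm hba, haA⟩), mul_zero]
    · intro h
      exact absurd haA h

end B9

variable (p : ℕ) [Fact p.Prime] [CharP Ω p] [IsAlgClosed Ω]

theorem W_of_group (O1 : ValuationSubring Ω) (G : Subgroup (RingAut Ω))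
    (hG : ∀ g ∈ G, ∀ x ∈ O1, g x ∈ O1) (K : Subfield Ω) (hK : ∀ x, x ∈ K ↔ ∀ g ∈ G, g x = x)
    (hP4 : ∀ a : Ω, ∃ θ ∈ O1, ∀ g ∈ G, (g a = a → g θ = θ) ∧
      (g a ≠ a → O1.valuation (g θ - θ) = 1)) : W p O1 K := by
  refine ⟨?_, ?_, ?_⟩
  · intro x hx
    rw [hK] at hx ⊢
    intro g hg
    have h1 := hx g hg
    rw [map_pow] at h1
    exact frobenius_inj Ω p h1
  · rintro c a ⟨h, hm, h1, h2, h3, h4⟩ ha hca
    have hcO : c ∈ O1 := root_memO O1 hm h2 h3
    rw [hK]
    intro g hg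
    have e1 : h.map (g : Ω →+* Ω) = h := by
      ext i
      rw [Polynomial.coeff_map]
      exact (hK _).1 (h1 i) g hg
    have e2 : h.eval (g c) = 0 := by
      have e3 := Polynomial.eval_map_apply (f := (g : Ω →+* Ω)) (p := h) c
      rw [e1, h3, map_zero] at e3
      exact e3
    have e3 : O1.valuation (g c - c) < 1 := by
      have e4 : g c - c = g (c - a) - (c - a) := by
        rw [map_sub, (hK a).1 ha g hg]
        ring
      rw [e4]
      exact lt_of_le_of_lt (O1.valuation.map_sub _ _)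
        (max_lt (b9_val_lt O1 G hG hg hca) hca)
    exact unique_root O1 h2 hcO h3 h4 e2 e3
  · intro x hx
    obtain ⟨f, hf0, hf1, hf2⟩ := (isAlgebraic_iff K x).1 hx
    obtain ⟨θ, hθ, h4⟩ := hP4 x
    have hfin : (b9_orb G x).Finite :=
      b9_orb_finite G hf0 (fun i => (hK _).1 (hf1 i)) hf2
    obtain ⟨h, P, k1, k2, k3, k4, k5, k6, k7⟩ := b9_main O1 G hθ h4 hfin hG
    have hs : SRoot O1 K θ := ⟨h, k1, fun i => (hK _).2 (k2 i), k3, k4, k5⟩
    have hθcl : θ ∈ cl p O1 K := cl_scl K θ (hs.mono (le_cl K))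
    have hPcl : P.eval θ ∈ cl p O1 K :=
      eval_mem (fun i => le_cl K ((hK _).2 (k6 i))) hθcl
    have hdcl : h.derivative.eval θ ∈ cl p O1 K :=
      eval_mem (derivative_coeff_mem (fun i => le_cl K ((hK _).2 (k2 i)))) hθcl
    have hd0 : h.derivative.eval θ ≠ 0 := by
      intro h0
      rw [h0, map_zero] at k5
      exact zero_ne_one k5
    have : x = P.eval θ / h.derivative.eval θ := by
      rw [k7]
      field_simp
    rw [this]
    exact (cl p O1 K).div_mem hPcl hdcl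

end Pool.Agent.H92.Tilt
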