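import Pool.Agent.H92.Tilt.Defs

/-!
Elementary API (module BASIC, helper92).
-/

set_option autoImplicit false

namespace Pool.Agent.H92.Tilt

open Polynomial

variable {Ω : Type*} [Field Ω]

section Adj

theorem le_adj (L : Subfield Ω) (S : Set Ω) : L ≤ adj L S := le_sup_left

theorem subset_adj (L : Subfield Ω) (S : Set Ω) : S ⊆ adj L S :=
  fun _ hx => (le_sup_right : Subfield.closure S ≤ adj L S) (Subfield.subset_closure hx)

theorem adj_le {L F : Subfield Ω} {S : Set Ω} (h : L ≤ F) (hS : S ⊆ F) : adj L S ≤ F :=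
  sup_le h (Subfield.closure_le.2 hS)

theorem adj_mono {L L' : Subfield Ω} {S S' : Set Ω} (h : L ≤ L') (hS : S ⊆ S') :
    adj L S ≤ adj L' S' := adj_le (h.trans (le_adj _ _)) (hS.trans (subset_adj _ _))

theorem adj_adj (L : Subfield Ω) (S S' : Set Ω) : adj (adj L S) S' = adj L (S ∪ S') := by
  apply le_antisymm
  · exact adj_le (adj_mono le_rfl Set.subset_union_left)
      (Set.subset_union_right.trans (subset_adj _ _))
  · refine adj_le ((le_adj _ _).trans (le_adj _ _)) (Set.union_subset ?_ (subset_adj _ _))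
    exact (subset_adj L S).trans (le_adj (adj L S) S')

theorem adj_eq_self {L : Subfield Ω} {S : Set Ω} (h : S ⊆ L) : adj L S = L :=
  le_antisymm (adj_le le_rfl h) (le_adj _ _)

/-- Link with `IntermediateField.adjoin`. -/
theorem adjoin_eq_adj (L : Subfield Ω) (S : Set Ω) :
    (IntermediateField.adjoin L S).toSubfield = adj L S := by
  rw [IntermediateField.adjoin_toSubfield, Subfield.closure_union]
  have : Set.range (algebraMap L Ω) = (L : Set Ω) := by
    ext x
    constructor
    · rintro ⟨y, rfl⟩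
      exact y.2
    · intro hx
      exact ⟨⟨x, hx⟩, rfl⟩
  rw [this, Subfield.closure_eq]
  rfl

theorem mem_adjoin_iff (L : Subfield Ω) (S : Set Ω) (x : Ω) :
    x ∈ IntermediateField.adjoin L S ↔ x ∈ adj L S := by
  rw [← adjoin_eq_adj]
  rfl

end Adj

section Alg

/-- lift a polynomial with coefficients in `L` -/
theorem exists_lift {L : Subfield Ω} {h : Polynomial Ω} (hh : ∀ i, h.coeff i ∈ L) :
    ∃ g : Polynomial L, g.map (algebraMap L Ω) = h := by
  refine ⟨∑ i ∈ Finset.range (h.natDegree + 1), Polynomial.monomial i ⟨h.coeff i, hh i⟩, ?_⟩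
  rw [Polynomial.map_sum]
  conv_rhs => rw [h.as_sum_range]
  refine Finset.sum_congr rfl fun i _ => ?_
  rw [Polynomial.map_monomial]
  rfl

theorem isAlgebraic_iff (L : Subfield Ω) (x : Ω) :
    IsAlgebraic L x ↔ ∃ h : Polynomial Ω, h ≠ 0 ∧ (∀ i, h.coeff i ∈ L) ∧ h.eval x = 0 := by
  constructor
  · rintro ⟨g, hg0, hg⟩
    refine ⟨g.map (algebraMap L Ω), ?_, ?_, ?_⟩
    · exact (Polynomial.map_ne_zero_iff (algebraMap L Ω).injective).2 hg0
    · intro i
      rw [Polynomial.coeff_map]
      exact (g.coeff i).2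
    · rw [Polynomial.eval_map_algebraMap]
      exact hg
  · rintro ⟨h, h0, hh, hx⟩
    obtain ⟨g, hg⟩ := exists_lift hh
    refine ⟨g, ?_, ?_⟩
    · rintro rfl
      simp at hg
      exact h0 hg.symm
    · rw [← Polynomial.eval_map_algebraMap, hg]
      exact hx

theorem isAlgebraic_mono {L L' : Subfield Ω} (h : L ≤ L') {x : Ω} (hx : IsAlgebraic L x) :
    IsAlgebraic L' x := by
  rw [isAlgebraic_iff] at hx ⊢
  obtain ⟨f, h0, h1, h2⟩ := hx
  exact ⟨f, h0, fun i => h (h1 i), h2⟩

theorem isAlgebraic_of_mem {L : Subfield Ω} {x : Ω} (hx : x ∈ L) : IsAlgebraic L x :=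
  isAlgebraic_algebraMap (⟨x, hx⟩ : L)

/-- The intermediate field of elements algebraic over `L`, membership. -/
theorem mem_acl (L : Subfield Ω) (x : Ω) : x ∈ acl L ↔ IsAlgebraic L x := by
  unfold acl
  rw [IntermediateField.mem_toSubfield, mem_algebraicClosure_iff]

theorem isAlgebraic_trans {L F : Subfield Ω} (hF : ∀ y ∈ F, IsAlgebraic L y) {x : Ω}
    (hx : IsAlgebraic F x) : IsAlgebraic L x := by
  have hle : F ≤ acl L := fun y hy => (mem_acl L y).2 (hF y hy)
  have h1 : IsAlgebraic (acl L) x := isAlgebraic_mono hle hx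
  have h2 : IsAlgebraic (algebraicClosure L Ω) x := h1
  have h3 : Algebra.IsAlgebraic L (algebraicClosure L Ω) := inferInstance
  exact h2.restrictScalars L

theorem isAlgebraic_adj {L : Subfield Ω} {S : Set Ω} (hS : ∀ y ∈ S, IsAlgebraic L y) {x : Ω}
    (hx : x ∈ adj L S) : IsAlgebraic L x := by
  have : adj L S ≤ acl L := adj_le (fun y hy => (mem_acl L y).2 (isAlgebraic_of_mem hy))
    (fun y hy => (mem_acl L y).2 (hS y hy))
  exact (mem_acl L x).1 (this hx)

theorem le_acl (L : Subfield Ω) : L ≤ acl L := fun _ hx => (mem_acl L _).2 (isAlgebraic_of_mem hx)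

theorem acl_mono {L L' : Subfield Ω} (h : L ≤ L') : acl L ≤ acl L' :=
  fun x hx => (mem_acl L' x).2 (isAlgebraic_mono h ((mem_acl L x).1 hx))

theorem acl_rac (L : Subfield Ω) : RAC (acl L) ⊤ := fun x _ hx =>
  (mem_acl L x).2 (isAlgebraic_trans (fun y hy => (mem_acl L y).1 hy) hx)

/-- Minimal polynomials over a relatively algebraically closed subfield. -/
theorem minpoly_rac {B K : Subfield Ω} (hBK : B ≤ K) (h : RAC B K) [IsAlgClosed Ω] (x : Ω)
    (hx : IsAlgebraic B x) : (minpoly K x).map (algebraMap K Ω) =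
      (minpoly B x).map (algebraMap B Ω) := by
  have hxi : IsIntegral B x := hx.isIntegral
  have hxK : IsIntegral K x := (isAlgebraic_mono hBK hx).isIntegral
  set g := (minpoly K x).map (algebraMap K Ω) with hg
  have hgm : g.Monic := (minpoly.monic hxK).map _
  -- `g` divides the minimal polynomial over `B`
  have hdvd : g ∣ (minpoly B x).map (algebraMap B Ω) := by
    obtain ⟨f, hf⟩ := exists_lift (L := K) (h := (minpoly B x).map (algebraMap B Ω))
      (fun i => by rw [Polynomial.coeff_map]; exact hBK ((minpoly B x).coeff i).2)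
    rw [← hf]
    refine Polynomial.map_dvd _ (minpoly.dvd K x ?_)
    rw [← Polynomial.eval_map_algebraMap, hf, Polynomial.eval_map_algebraMap, minpoly.aeval]
  have hsplit : g.Splits := IsAlgClosed.splits g
  -- the coefficients of `g` are algebraic over `B`
  have hco : ∀ i, g.coeff i ∈ B := by
    intro i
    apply h
    · rw [hg, Polynomial.coeff_map]
      exact ((minpoly K x).coeff i).2
    · rw [← mem_acl]
      have hroots : ∀ r ∈ g.roots, r ∈ acl B := by
        intro r hr
        rw [mem_acl]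
        have h1 : g.eval r = 0 := (Polynomial.mem_roots'.1 hr).2
        obtain ⟨q, hq⟩ := hdvd
        refine ⟨minpoly B x, minpoly.ne_zero hxi, ?_⟩
        rw [← Polynomial.eval_map_algebraMap, hq, Polynomial.eval_mul, h1, zero_mul]
      have hprod : g = (g.roots.map (fun a => Polynomial.X - Polynomial.C a)).prod := by
        have := hsplit.eq_prod_roots
        rw [hgm.leadingCoeff, Polynomial.C_1, one_mul] at this
        exact this
      have hlift : g ∈ Polynomial.lifts (acl B).subtype := by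
        rw [hprod]
        apply Subsemiring.multiset_prod_mem
        intro a ha
        obtain ⟨r, hr, rfl⟩ := Multiset.mem_map.1 ha
        exact ⟨Polynomial.X - Polynomial.C ⟨r, hroots r hr⟩, by simp⟩
      rw [Polynomial.lifts_iff_coeff_lifts] at hlift
      obtain ⟨y, hy⟩ := hlift i
      rw [← hy]
      exact y.2
  obtain ⟨f, hf⟩ := exists_lift hco
  have hfm : f.Monic := by
    have := hgm
    rw [← hf] at this
    exact Polynomial.monic_of_injective (algebraMap B Ω).injective this
  have hfx : aeval x f = 0 := by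
    rw [← Polynomial.eval_map_algebraMap, hf, hg, Polynomial.eval_map_algebraMap, minpoly.aeval]
  have h2 : minpoly B x ∣ f := minpoly.dvd B x hfx
  have h3 : (minpoly B x).map (algebraMap B Ω) ∣ g := by
    rw [← hf]
    exact Polynomial.map_dvd _ h2
  exact Polynomial.eq_of_monic_of_associated hgm ((minpoly.monic hxi).map _)
    (associated_of_dvd_dvd hdvd h3)

end Alg

section Val

variable (O : ValuationSubring Ω)

theorem val_le_one {x : Ω} : O.valuation x ≤ 1 ↔ x ∈ O := O.valuation_le_one_iff x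

theorem eval_mem {h : Polynomial Ω} {L : Subfield Ω} (hh : ∀ i, h.coeff i ∈ L) {x : Ω}
    (hx : x ∈ L) : h.eval x ∈ L := by
  rw [Polynomial.eval_eq_sum]
  exact sum_mem fun i _ => L.mul_mem (hh i) (pow_mem hx i)

theorem eval_memO {h : Polynomial Ω} (hh : ∀ i, h.coeff i ∈ O) {x : Ω}
    (hx : x ∈ O) : h.eval x ∈ O := by
  rw [Polynomial.eval_eq_sum]
  exact sum_mem fun i _ => O.mul_mem _ _ (hh i) (pow_mem hx i)

theorem derivative_coeff_mem {h : Polynomial Ω} {L : Subfield Ω} (hh : ∀ i, h.coeff i ∈ L) :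
    ∀ i, h.derivative.coeff i ∈ L := by
  intro i
  rw [Polynomial.coeff_derivative]
  exact L.mul_mem (hh _) (L.add_mem (natCast_mem L i) L.one_mem)

theorem derivative_coeff_memO {h : Polynomial Ω} (hh : ∀ i, h.coeff i ∈ O) :
    ∀ i, h.derivative.coeff i ∈ O := by
  intro i
  rw [Polynomial.coeff_derivative]
  exact O.mul_mem _ _ (hh _) (O.add_mem _ _ (natCast_mem O i) O.one_mem)

/-- Values of a polynomial over `O` at close points are close. -/
theorem eval_sub_val_le {h : Polynomial Ω} (hh : ∀ i, h.coeff i ∈ O) {x y : Ω}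
    (hx : x ∈ O) (hy : y ∈ O) :
    O.valuation (h.eval x - h.eval y) ≤ O.valuation (x - y) := by
  have key : ∃ c ∈ O, h.eval x - h.eval y = (x - y) * c := by
    rw [Polynomial.eval_eq_sum, Polynomial.eval_eq_sum, Polynomial.sum, Polynomial.sum,
      ← Finset.sum_sub_distrib]
    have : ∀ i ∈ h.support, ∃ c ∈ O, h.coeff i * x ^ i - h.coeff i * y ^ i = (x - y) * c := by
      intro i _
      obtain ⟨c, hc, hc2⟩ : ∃ c ∈ O, x ^ i - y ^ i = (x - y) * c := by
        refine ⟨∑ j ∈ Finset.range i, x ^ j * y ^ (i - 1 - j), ?_, ?_⟩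
        · exact sum_mem fun j _ => O.mul_mem _ _ (pow_mem hx j) (pow_mem hy _)
        · rw [mul_comm, (Commute.all x y).geom_sum₂_mul]
      refine ⟨h.coeff i * c, O.mul_mem _ _ (hh i) hc, ?_⟩
      rw [← mul_sub, hc2]; ring
    choose! c hc1 hc2 using this
    refine ⟨∑ i ∈ h.support, c i, sum_mem fun i hi => hc1 i hi, ?_⟩
    rw [Finset.mul_sum]
    exact Finset.sum_congr rfl fun i hi => hc2 i hi
  obtain ⟨c, hc, hc2⟩ := key
  rw [hc2, map_mul]
  exact mul_le_of_le_one_right' ((O.valuation_le_one_iff c).2 hc)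

/-- A root of a monic polynomial over `O` is in `O`. -/
theorem root_memO {h : Polynomial Ω} (hm : h.Monic) (hh : ∀ i, h.coeff i ∈ O) {x : Ω}
    (hx : h.eval x = 0) : x ∈ O := by
  have hi : IsIntegral O x := by
    have hlift : h ∈ Polynomial.lifts (algebraMap O Ω) := by
      rw [Polynomial.lifts_iff_coeff_lifts]
      intro i
      exact ⟨⟨h.coeff i, hh i⟩, rfl⟩
    obtain ⟨q, hq, _, hqm⟩ := Polynomial.lifts_and_degree_eq_and_monic hlift hm
    refine ⟨q, hqm, ?_⟩
    rw [← Polynomial.eval_map, hq, hx]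
  have := (IsIntegrallyClosed.isIntegral_iff (R := O) (K := Ω)).1 hi
  obtain ⟨y, hy⟩ := this
  rw [← hy]
  exact y.2

/-- Values of an algebraic extension are torsion over the values of the base. -/
theorem val_torsion {L : Subfield Ω} {x : Ω} (hx : IsAlgebraic L x) (h0 : x ≠ 0) :
    ∃ n : ℕ, 0 < n ∧ ∃ l ∈ L, l ≠ 0 ∧ O.valuation (x ^ n) = O.valuation l := by
  rw [isAlgebraic_iff] at hx
  obtain ⟨f, hf0, hfL, hfx⟩ := hx
  -- two terms of the vanishing sum have equal values
  have hex : ∃ i ∈ f.support, ∃ j ∈ f.support, i < j ∧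
      O.valuation (f.coeff i * x ^ i) = O.valuation (f.coeff j * x ^ j) := by
    by_contra hcon
    push Not at hcon
    have hne : f.support.Nonempty := Polynomial.support_nonempty.2 hf0
    obtain ⟨k, hk, hkmax⟩ := Finset.exists_max_image f.support
      (fun i => O.valuation (f.coeff i * x ^ i)) hne
    have hlt : ∀ i ∈ f.support.erase k,
        O.valuation (f.coeff i * x ^ i) < O.valuation (f.coeff k * x ^ k) := by
      intro i hi
      have hik := (Finset.mem_erase.1 hi).1
      have hi' := (Finset.mem_erase.1 hi).2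
      refine lt_of_le_of_ne (hkmax i hi') ?_
      rcases lt_or_gt_of_ne hik with h | h
      · exact hcon i hi' k hk h
      · exact (hcon k hk i hi' h).symm
    have hk0 : f.coeff k * x ^ k ≠ 0 :=
      mul_ne_zero (Polynomial.mem_support_iff.1 hk) (pow_ne_zero k h0)
    have hsum : O.valuation (∑ i ∈ f.support.erase k, f.coeff i * x ^ i) <
        O.valuation (f.coeff k * x ^ k) :=
      Valuation.map_sum_lt _ ((Valuation.ne_zero_iff _).2 hk0) hlt
    have htot : f.coeff k * x ^ k + ∑ i ∈ f.support.erase k, f.coeff i * x ^ i = 0 := by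
      rw [Finset.add_sum_erase _ (fun i => f.coeff i * x ^ i) hk]
      rw [Polynomial.eval_eq_sum, Polynomial.sum] at hfx
      exact hfx
    have : f.coeff k * x ^ k = - ∑ i ∈ f.support.erase k, f.coeff i * x ^ i :=
      eq_neg_of_add_eq_zero_left htot
    rw [this, Valuation.map_neg] at hsum
    exact lt_irrefl _ hsum
  obtain ⟨i, hi, j, hj, hij, heq⟩ := hex
  refine ⟨j - i, Nat.sub_pos_of_lt hij, f.coeff i / f.coeff j, L.div_mem (hfL i) (hfL j),
    div_ne_zero (Polynomial.mem_support_iff.1 hi) (Polynomial.mem_support_iff.1 hj), ?_⟩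
  have h1 : O.valuation (f.coeff j) ≠ 0 :=
    (Valuation.ne_zero_iff _).2 (Polynomial.mem_support_iff.1 hj)
  have h2 : O.valuation (x ^ i) ≠ 0 := (Valuation.ne_zero_iff _).2 (pow_ne_zero i h0)
  rw [map_div₀, eq_div_iff h1]
  have h3 : x ^ j = x ^ (j - i) * x ^ i := by rw [← pow_add, Nat.sub_add_cancel hij.le]
  rw [h3, map_mul, map_mul, map_mul] at heq
  apply mul_right_cancel₀ h2
  rw [heq, mul_assoc, mul_left_comm]


theorem exists_liftO {O : ValuationSubring Ω} {h : Polynomial Ω} (hh : ∀ i, h.coeff i ∈ O) :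
    ∃ g : Polynomial O, g.map (algebraMap O Ω) = h := by
  refine ⟨∑ i ∈ Finset.range (h.natDegree + 1), Polynomial.monomial i ⟨h.coeff i, hh i⟩, ?_⟩
  rw [Polynomial.map_sum]
  conv_rhs => rw [h.as_sum_range]
  refine Finset.sum_congr rfl fun i _ => ?_
  rw [Polynomial.map_monomial]
  rfl

/-- Second order expansion with a remainder in `O`. -/
theorem taylor2 {h : Polynomial Ω} (hh : ∀ i, h.coeff i ∈ O) {c d : Ω} (hc : c ∈ O)
    (hd : d ∈ O) : ∃ k ∈ O, h.eval (c + d) = h.eval c + h.derivative.eval c * d + k * d ^ 2 := by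
  obtain ⟨g, rfl⟩ := exists_liftO hh
  obtain ⟨k, hk⟩ := Polynomial.binomExpansion g ⟨c, hc⟩ ⟨d, hd⟩
  refine ⟨k, k.2, ?_⟩
  have := congrArg (algebraMap O Ω) hk
  simp only [map_add, map_mul, map_pow] at this
  rw [← Polynomial.eval_map_apply, ← Polynomial.eval_map_apply, ← Polynomial.eval_map_apply] at this
  rw [Polynomial.derivative_map]
  exact this

/-- Uniqueness of a simple root in its residue class. -/
theorem unique_root {h : Polynomial Ω} (hh : ∀ i, h.coeff i ∈ O) {c c' : Ω}
    (hc : c ∈ O) (hc' : h.eval c = 0) (h1 : O.valuation (h.derivative.eval c) = 1)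
    (h2 : h.eval c' = 0) (h3 : O.valuation (c' - c) < 1) : c' = c := by
  by_contra hne
  have hd : c' - c ≠ 0 := sub_ne_zero.2 hne
  obtain ⟨k, hk, hk2⟩ := taylor2 O hh hc ((O.valuation_le_one_iff _).1 h3.le)
  rw [add_sub_cancel, h2, hc', zero_add] at hk2
  have h4 : h.derivative.eval c + k * (c' - c) = 0 := by
    apply mul_right_cancel₀ hd
    rw [zero_mul, hk2]; ring
  have h5 : O.valuation (k * (c' - c)) < 1 := by
    rw [map_mul]
    exact lt_of_le_of_lt (mul_le_of_le_one_left' ((O.valuation_le_one_iff k).2 hk)) h3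
  rw [eq_neg_of_add_eq_zero_left h4, Valuation.map_neg] at h1
  exact absurd h1 h5.ne

/-- Existence of a root of a monic polynomial near an approximate root. -/
theorem exists_root_near [IsAlgClosed Ω] {h : Polynomial Ω} (hm : h.Monic)
    (hh : ∀ i, h.coeff i ∈ O) {a : Ω} (ha : a ∈ O) (h1 : O.valuation (h.eval a) < 1) :
    ∃ c, h.eval c = 0 ∧ c ∈ O ∧ O.valuation (c - a) < 1 := by
  have hsplit : h.Splits := IsAlgClosed.splits h
  have hprod : h = (h.roots.map (fun b => Polynomial.X - Polynomial.C b)).prod := by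
    have := hsplit.eq_prod_roots
    rw [hm.leadingCoeff, Polynomial.C_1, one_mul] at this
    exact this
  by_contra hcon
  push Not at hcon
  have hroots : ∀ r ∈ h.roots, r ∈ O ∧ h.eval r = 0 := by
    intro r hr
    have h2 : h.eval r = 0 := (Polynomial.mem_roots'.1 hr).2
    exact ⟨root_memO O hm hh h2, h2⟩
  have hev : h.eval a = (h.roots.map (fun b => a - b)).prod := by
    conv_lhs => rw [hprod]
    rw [Polynomial.eval_multiset_prod, Multiset.map_map]
    simp
  have hone : O.valuation (h.eval a) = 1 := by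
    rw [hev, map_multiset_prod, Multiset.map_map]
    apply Multiset.prod_eq_one
    intro x hx
    obtain ⟨b, hb, rfl⟩ := Multiset.mem_map.1 hx
    have hb' := hroots b hb
    have h3 := hcon b hb'.2 hb'.1
    have h4 : O.valuation (a - b) ≤ 1 :=
      (O.valuation_le_one_iff _).2 (sub_mem ha hb'.1)
    have h5 : O.valuation (b - a) = O.valuation (a - b) := Valuation.map_sub_swap _ _ _
    rw [h5] at h3
    exact le_antisymm h4 (not_lt.1 (by simpa using h3))
  exact absurd hone h1.ne

end Val

/-- Polynomials with coefficients in a subring form a subsemiring. -/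
theorem mem_lifts_subring (S : Subring Ω) (f : Polynomial Ω) :
    f ∈ Polynomial.lifts S.subtype ↔ ∀ i, f.coeff i ∈ S := by
  rw [Polynomial.lifts_iff_coeff_lifts]
  constructor
  · intro h i
    obtain ⟨y, hy⟩ := h i
    rw [← hy]; exact y.2
  · intro h i
    exact ⟨⟨_, h i⟩, rfl⟩

section SRoot

variable {O : ValuationSubring Ω}

theorem SRoot.mono {L L' : Subfield Ω} (h : L ≤ L') {c : Ω} (hc : SRoot O L c) :
    SRoot O L' c := by
  obtain ⟨f, h1, h2, h3, h4, h5⟩ := hc
  exact ⟨f, h1, fun i => h (h2 i), h3, h4, h5⟩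

theorem SRoot.memO {L : Subfield Ω} {c : Ω} (hc : SRoot O L c) : c ∈ O := by
  obtain ⟨f, h1, h2, h3, h4, h5⟩ := hc
  exact root_memO O h1 h3 h4

theorem SRoot.isAlgebraic {L : Subfield Ω} {c : Ω} (hc : SRoot O L c) : IsAlgebraic L c := by
  obtain ⟨f, h1, h2, h3, h4, h5⟩ := hc
  exact (isAlgebraic_iff L c).2 ⟨f, h1.ne_zero, h2, h4⟩

theorem SRoot.isSeparable {L : Subfield Ω} {c : Ω} (hc : SRoot O L c) : IsSeparable L c := by
  have hint : IsIntegral L c := (SRoot.isAlgebraic hc).isIntegral
  obtain ⟨f, h1, h2, h3, h4, h5⟩ := hc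
  obtain ⟨g, rfl⟩ := exists_lift h2
  have hirr := minpoly.irreducible hint
  have hd : minpoly L c ∣ g := minpoly.dvd L c (by
    rw [← Polynomial.eval_map_algebraMap]; exact h4)
  obtain ⟨q, hq⟩ := hd
  unfold IsSeparable
  rw [Polynomial.separable_iff_derivative_ne_zero hirr]
  intro h0
  have : ((g.map (algebraMap L Ω)).derivative).eval c = 0 := by
    rw [Polynomial.derivative_map, hq, Polynomial.derivative_mul, h0, zero_mul, zero_add,
      Polynomial.map_mul, Polynomial.eval_mul, Polynomial.eval_map_algebraMap, minpoly.aeval,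
      zero_mul]
  rw [this, map_zero] at h5
  exact zero_ne_one h5

theorem SRoot.of_mem {L : Subfield Ω} {c : Ω} (hc : c ∈ L) (hO : c ∈ O) : SRoot O L c := by
  refine ⟨X - C c, monic_X_sub_C c, ?_, ?_, by simp, by simp⟩
  · have : X - C c ∈ Polynomial.lifts L.toSubring.subtype :=
      ⟨X - C ⟨c, hc⟩, by simp⟩
    exact (mem_lifts_subring _ _).1 this
  · have : X - C c ∈ Polynomial.lifts O.toSubring.subtype :=
      ⟨X - C ⟨c, hO⟩, by simp⟩
    exact (mem_lifts_subring _ _).1 this

/-- The derivative at a close point. -/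
theorem deriv_near {h : Polynomial Ω} (h2 : ∀ i, h.coeff i ∈ O) {a c : Ω} (ha : a ∈ O)
    (hc : c ∈ O) (hca : O.valuation (c - a) < 1) (h4 : O.valuation (h.derivative.eval a) = 1) :
    O.valuation (h.derivative.eval c) = 1 := by
  have h5 := eval_sub_val_le O (derivative_coeff_memO O h2) hc ha
  have h6 : h.derivative.eval c = (h.derivative.eval c - h.derivative.eval a) +
    h.derivative.eval a := by ring
  rw [h6, Valuation.map_add_eq_of_lt_right]
  · exact h4
  · rw [h4]; exact lt_of_le_of_lt h5 hca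

theorem HCl.hensel [IsAlgClosed Ω] {L L0 : Subfield Ω} (hL : HCl O L) (hL0 : L0 ≤ L)
    {h : Polynomial Ω} (hm : h.Monic)
    (h1 : ∀ i, h.coeff i ∈ L0) (h2 : ∀ i, h.coeff i ∈ O) {a : Ω} (ha : a ∈ L) (haO : a ∈ O)
    (h3 : O.valuation (h.eval a) < 1) (h4 : O.valuation (h.derivative.eval a) = 1) :
    ∃ c ∈ L, h.eval c = 0 ∧ O.valuation (c - a) < 1 ∧ SRoot O L0 c := by
  obtain ⟨c, hc, hcO, hca⟩ := exists_root_near O hm h2 haO h3
  have h5 : SRoot O L0 c := ⟨h, hm, h1, h2, hc, deriv_near h2 haO hcO hca h4⟩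
  exact ⟨c, hL c a (h5.mono hL0) ha hca, hc, hca, h5⟩

/-- Artin-Schreier roots of elements of `L ∩ O` are simple roots. -/
theorem sroot_as (p : ℕ) [Fact p.Prime] [CharP Ω p] {L : Subfield Ω} {f y : Ω} (hf : f ∈ L)
    (hO : f ∈ O) (hy : y ^ p - y = f) : SRoot O L y := by
  have hp : 1 < p := (Fact.out : p.Prime).one_lt
  refine ⟨X ^ p + (- X - C f), ?_, ?_, ?_, ?_, ?_⟩
  · apply Polynomial.monic_X_pow_add
    refine lt_of_le_of_lt (Polynomial.degree_sub_le _ _) ?_
    rw [Polynomial.degree_neg, Polynomial.degree_X]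
    refine max_lt (by exact_mod_cast hp) (lt_of_le_of_lt Polynomial.degree_C_le ?_)
    exact_mod_cast (lt_trans zero_lt_one hp)
  · have : X ^ p + (- X - C f) ∈ Polynomial.lifts L.toSubring.subtype :=
      ⟨X ^ p + (- X - C ⟨f, hf⟩), by simp⟩
    exact (mem_lifts_subring _ _).1 this
  · have : X ^ p + (- X - C f) ∈ Polynomial.lifts O.toSubring.subtype :=
      ⟨X ^ p + (- X - C ⟨f, hO⟩), by simp⟩
    exact (mem_lifts_subring _ _).1 this
  · simp only [eval_add, eval_pow, eval_X, eval_sub, eval_neg, eval_C]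
    rw [← hy]; ring
  · simp only [derivative_add, derivative_X_pow, derivative_sub, derivative_neg, derivative_X,
      derivative_C, eval_add, eval_sub, eval_neg, eval_one, eval_zero,
      CharP.cast_eq_zero, map_zero, zero_mul]
    simp


/-- Hensel's lemma for polynomials that need not be monic, in an s-closed field. -/
theorem SCl.hensel_nonmonic {L : Subfield Ω} (hL : SCl O L) {h : Polynomial Ω}
    (h1 : ∀ i, h.coeff i ∈ L) (h2 : ∀ i, h.coeff i ∈ O) {a x : Ω} (ha : a ∈ L)
    (hx : x ∈ O) (hxa : O.valuation (x - a) < 1) (h3 : h.eval x = 0)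
    (h4 : O.valuation (h.derivative.eval x) = 1) : x ∈ L := by
  classical
  have haO : a ∈ O := by
    have : a = x - (x - a) := by ring
    rw [this]
    exact sub_mem hx ((O.valuation_le_one_iff _).1 hxa.le)
  set S : Subring Ω := L.toSubring ⊓ O.toSubring with hS
  have hcomp : ∀ i, (h.comp (X + C a)).coeff i ∈ S := by
    rw [← mem_lifts_subring]
    have hh : h ∈ Polynomial.lifts S.subtype := (mem_lifts_subring S h).2 fun i => ⟨h1 i, h2 i⟩
    obtain ⟨g, hg⟩ := (Polynomial.mem_lifts _).1 hh
    refine (Polynomial.mem_lifts _).2 ⟨g.comp (X + C ⟨a, ha, haO⟩), ?_⟩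
    rw [Polynomial.map_comp, hg]
    simp
  set H := h.comp (X + C a) with hH
  set y := x - a with hy
  have hHy : H.eval y = 0 := by
    rw [hH, Polynomial.eval_comp]
    simp [hy, h3]
  set c := fun i => H.coeff i with hc
  have hcL : ∀ i, c i ∈ L := fun i => (hcomp i).1
  have hcO : ∀ i, c i ∈ O := fun i => (hcomp i).2
  have hvc : ∀ i, O.valuation (c i) ≤ 1 := fun i => (O.valuation_le_one_iff _).2 (hcO i)
  have hyO : y ∈ O := (O.valuation_le_one_iff _).1 hxa.le
  have hda : O.valuation (h.derivative.eval a) = 1 := by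
    refine deriv_near h2 hx haO ?_ h4
    rw [Valuation.map_sub_swap]; exact hxa
  have hc1 : c 1 = h.derivative.eval a := by
    have : c 1 = H.derivative.eval 0 := by
      rw [← Polynomial.coeff_zero_eq_eval_zero, Polynomial.coeff_derivative]
      simp [hc]
    rw [this, hH, Polynomial.derivative_comp]
    simp
  have hvc1 : O.valuation (c 1) = 1 := by rw [hc1]; exact hda
  have hc10 : c 1 ≠ 0 := by
    intro h0
    rw [h0, map_zero] at hvc1
    exact zero_ne_one hvc1
  set n := H.natDegree + 2 with hn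
  have hsum : c 0 + c 1 * y + ∑ j ∈ Finset.Icc 2 n, c j * y ^ j = 0 := by
    have h5 : H.eval y = ∑ j ∈ Finset.range (n + 1), c j * y ^ j := by
      rw [Polynomial.eval_eq_sum_range' (n := n + 1) (by omega)]
    rw [hHy] at h5
    have h6 : Finset.range (n + 1) = insert 0 (insert 1 (Finset.Icc 2 n)) := by
      ext j
      simp only [Finset.mem_range, Finset.mem_insert, Finset.mem_Icc]
      omega
    rw [h6, Finset.sum_insert (by simp), Finset.sum_insert (by simp)] at h5
    rw [← add_assoc] at h5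
    simpa using h5.symm
  by_cases hc0 : c 0 = 0
  · -- both `y` and `0` are simple roots of `H`
    have hy0 : y = 0 := by
      have h7 : (0 : Ω) = y := by
        refine unique_root O (h := H) hcO hyO hHy ?_ ?_ ?_
        · rw [hH, Polynomial.derivative_comp]
          simp [hy, h4]
        · rw [← Polynomial.coeff_zero_eq_eval_zero]; exact hc0
        · rw [zero_sub, Valuation.map_neg]; exact hxa
      exact h7.symm
    have : x = a := sub_eq_zero.1 hy0
    rw [this]; exact ha
  · -- put `u = - c_1 y / c_0`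
    have hvy : O.valuation y < 1 := hxa
    have hrest : O.valuation (∑ j ∈ Finset.Icc 2 n, c j * y ^ j) ≤ O.valuation y * O.valuation y := by
      apply Valuation.map_sum_le
      intro j hj
      have hj2 : 2 ≤ j := (Finset.mem_Icc.1 hj).1
      obtain ⟨k, rfl⟩ := Nat.exists_eq_add_of_le hj2
      rw [map_mul, map_pow, pow_add, pow_two]
      calc O.valuation (c (2 + k)) * (O.valuation y * O.valuation y * O.valuation y ^ k)
          ≤ 1 * (O.valuation y * O.valuation y * 1) := by
            refine mul_le_mul' (hvc _) (mul_le_mul' le_rfl ?_)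
            exact pow_le_one' hvy.le k
        _ = O.valuation y * O.valuation y := by rw [one_mul, mul_one]
    have hy0 : y ≠ 0 := by
      intro h0
      apply hc0
      rw [h0] at hsum
      have : ∑ j ∈ Finset.Icc 2 n, c j * (0 : Ω) ^ j = 0 := by
        apply Finset.sum_eq_zero
        intro j hj
        have hj2 : 2 ≤ j := (Finset.mem_Icc.1 hj).1
        rw [zero_pow (by omega), mul_zero]
      rw [this, mul_zero, add_zero, add_zero] at hsum
      exact hsum
    have hvy0 : O.valuation y ≠ 0 := (Valuation.ne_zero_iff _).2 hy0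
    have hvyy : O.valuation y * O.valuation y < O.valuation y := by
      calc O.valuation y * O.valuation y < O.valuation y * 1 :=
            mul_lt_mul_of_pos_left hvy (zero_lt_iff.2 hvy0)
        _ = O.valuation y := mul_one _
    have hvc0 : O.valuation (c 0) = O.valuation y := by
      have h8 : c 0 = -(c 1 * y + ∑ j ∈ Finset.Icc 2 n, c j * y ^ j) := by
        rw [add_assoc] at hsum
        exact eq_neg_of_add_eq_zero_left hsum
      rw [h8, Valuation.map_neg, Valuation.map_add_eq_of_lt_left]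
      · rw [map_mul, hvc1, one_mul]
      · rw [map_mul, hvc1, one_mul]
        exact lt_of_le_of_lt hrest hvyy
    set w := - (c 0 / c 1) / y with hw
    have hvw : O.valuation w = 1 := by
      rw [hw, map_div₀, Valuation.map_neg, map_div₀, hvc1, div_one, hvc0, div_self hvy0]
    have hw0 : w ≠ 0 := by
      intro h0
      rw [h0, map_zero] at hvw
      exact zero_ne_one hvw
    -- `y = - (c 0 / c 1) / w`
    have hyw : y = - (c 0 / c 1) / w := by
      rw [hw]; field_simp
    set b := fun j => c j * (- 1 / c 1) ^ j * c 0 ^ (j - 1) with hb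
    have hbL : ∀ j, b j ∈ L := fun j => L.mul_mem (L.mul_mem (hcL j)
      (pow_mem (L.div_mem (neg_mem L.one_mem) (hcL 1)) j)) (pow_mem (hcL 0) _)
    have hvb : ∀ j, 2 ≤ j → O.valuation (b j) < 1 := by
      intro j hj
      obtain ⟨k, rfl⟩ := Nat.exists_eq_add_of_le hj
      have e1 : (2 + k - 1) = k + 1 := by omega
      rw [hb]
      simp only [e1]
      rw [map_mul, map_mul, map_pow, map_div₀, Valuation.map_neg, map_one, hvc1, div_one, one_pow,
        mul_one, map_pow, pow_succ, hvc0]
      calc O.valuation (c (2 + k)) * (O.valuation y ^ k * O.valuation y)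
          ≤ 1 * (1 * O.valuation y) := by
            refine mul_le_mul' (hvc _) (mul_le_mul' (pow_le_one' hvy.le k) le_rfl)
        _ < 1 := by rw [one_mul, one_mul]; exact hvy
    have hbO : ∀ j, 2 ≤ j → b j ∈ O := fun j hj => (O.valuation_le_one_iff _).1 (hvb j hj).le
    have hbsum : w - 1 + ∑ j ∈ Finset.Icc 2 n, b j * (w / w ^ j) = 0 := by
      have h9 : ∀ j ∈ Finset.Icc 2 n, b j * (w / w ^ j) = c j * y ^ j * (w / c 0) := by
        intro j hj
        have hj2 : 2 ≤ j := (Finset.mem_Icc.1 hj).1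
        have hyw' : y = (-1 / c 1) * c 0 / w := by rw [hyw]; field_simp
        have hcj : c 0 ^ j = c 0 ^ (j - 1) * c 0 := by
          rw [← pow_succ, (by omega : j - 1 + 1 = j)]
        have hwj : w ^ j ≠ 0 := pow_ne_zero _ hw0
        have hyj : y ^ j = (-1 / c 1) ^ j * (c 0 ^ (j - 1) * c 0) / w ^ j := by
          rw [hyw', div_pow (-1 / c 1 * c 0) w j, mul_pow, hcj]
        simp only [hb]
        rw [hyj]
        generalize (-1 / c 1) ^ j = A
        generalize w ^ j = B at hwj
        field_simp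
      rw [Finset.sum_congr rfl h9, ← Finset.sum_mul]
      have h10 : ∑ j ∈ Finset.Icc 2 n, c j * y ^ j = -(c 0 + c 1 * y) :=
        eq_neg_of_add_eq_zero_right hsum
      rw [h10]
      have h11 : c 1 * y = - c 0 / w := by
        rw [hyw]; field_simp
      rw [h11]
      field_simp
      ring
    set G : Polynomial Ω := X ^ n + (- X ^ (n - 1) + ∑ j ∈ Finset.Icc 2 n, C (b j) * X ^ (n - j))
      with hG
    have hGm : G.Monic := by
      apply Polynomial.monic_X_pow_add
      refine lt_of_le_of_lt (Polynomial.degree_add_le _ _) (max_lt ?_ ?_)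
      · rw [Polynomial.degree_neg, Polynomial.degree_X_pow]
        exact_mod_cast (by omega : n - 1 < n)
      · refine lt_of_le_of_lt (Polynomial.degree_sum_le _ _) ?_
        rw [Finset.sup_lt_iff (by exact_mod_cast (WithBot.bot_lt_coe n))]
        intro j hj
        have hj2 := Finset.mem_Icc.1 hj
        refine lt_of_le_of_lt (Polynomial.degree_C_mul_X_pow_le _ _) ?_
        exact_mod_cast (by omega : n - j < n)
    have hGS : ∀ i, G.coeff i ∈ S := by
      rw [← mem_lifts_subring]
      refine Subsemiring.add_mem _ ((Polynomial.mem_lifts _).2 ⟨X ^ n, by simp⟩)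
        (Subsemiring.add_mem _ ((Polynomial.mem_lifts _).2 ⟨- X ^ (n - 1), by simp⟩) ?_)
      refine Subsemiring.sum_mem _ fun j hj => ?_
      exact (Polynomial.mem_lifts _).2 ⟨C ⟨b j, hbL j, hbO j (Finset.mem_Icc.1 hj).1⟩ * X ^ (n - j),
        by simp⟩
    have hGw : G.eval w = 0 := by
      have h12 : G.eval w = w ^ (n - 1) *
          (w - 1 + ∑ j ∈ Finset.Icc 2 n, b j * (w / w ^ j)) := by
        rw [hG]
        simp only [eval_add, eval_pow, eval_X, eval_neg, Polynomial.eval_finsetSum, eval_mul,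
          eval_C]
        rw [mul_add, mul_sub, mul_one, Finset.mul_sum, ← pow_succ,
          (by omega : n - 1 + 1 = n), ← add_assoc, ← sub_eq_add_neg]
        congr 1
        refine Finset.sum_congr rfl fun j hj => ?_
        have hj2 := Finset.mem_Icc.1 hj
        have e2 : w ^ (n - 1) * (w / w ^ j) = w ^ (n - j) := by
          rw [← mul_div_assoc, ← pow_succ, (by omega : n - 1 + 1 = n), pow_sub₀ _ hw0 hj2.2,
            div_eq_mul_inv]
        rw [mul_left_comm, e2]
      rw [h12, hbsum, mul_zero]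
    have hw1 : O.valuation (w - 1) < 1 := by
      have h13 : w - 1 = - ∑ j ∈ Finset.Icc 2 n, b j * (w / w ^ j) :=
        eq_neg_of_add_eq_zero_left hbsum
      rw [h13, Valuation.map_neg]
      apply Valuation.map_sum_lt _ one_ne_zero
      intro j hj
      rw [map_mul, map_div₀, map_pow, hvw, one_pow, div_one, mul_one]
      exact hvb j (Finset.mem_Icc.1 hj).1
    have hG1 : O.valuation (G.derivative.eval 1) = 1 := by
      have h14 : G.derivative.eval 1 = 1 + ∑ j ∈ Finset.Icc 2 n, b j * ((n - j : ℕ) : Ω) := by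
        rw [hG]
        simp only [derivative_add, derivative_X_pow, derivative_neg, Polynomial.derivative_sum,
          derivative_C_mul_X_pow, eval_add, eval_mul, eval_natCast, eval_pow, eval_X, one_pow,
          mul_one, eval_neg, Polynomial.eval_finsetSum, eval_C, map_natCast]
        have e3 : ((n - 1 : ℕ) : Ω) = (n : Ω) - 1 := by
          rw [Nat.cast_sub (by omega)]; simp
        rw [e3]; ring
      rw [h14, Valuation.map_add_eq_of_lt_left]
      · exact map_one _
      · rw [map_one]
        apply Valuation.map_sum_lt _ one_ne_zero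
        intro j hj
        rw [map_mul]
        refine lt_of_le_of_lt (mul_le_mul' le_rfl
          ((O.valuation_le_one_iff _).2 (natCast_mem O (n - j)))) ?_
        rw [mul_one]
        exact hvb j (Finset.mem_Icc.1 hj).1
    have hwO : w ∈ O := (O.valuation_le_one_iff _).1 hvw.le
    have hwL : w ∈ L := by
      apply hL
      refine ⟨G, hGm, fun i => (hGS i).1, fun i => (hGS i).2, hGw, ?_⟩
      exact deriv_near (fun i => (hGS i).2) O.one_mem hwO hw1 hG1
    have hyL : y ∈ L := by
      rw [hyw]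
      exact L.div_mem (neg_mem (L.div_mem (hcL 0) (hcL 1))) hwL
    have : x = y + a := by rw [hy]; ring
    rw [this]
    exact L.add_mem hyL ha

theorem SCl.hcl {L : Subfield Ω} (h : SCl O L) : HCl O L := fun c _ hc _ _ => h c hc

end SRoot

section Closures

variable {O : ValuationSubring Ω}

theorem le_HC (L : Subfield Ω) : L ≤ HC O L := le_sInf fun _ hF => hF.1

theorem HC_scl (L : Subfield Ω) : SCl O (HC O L) := by
  intro c hc
  refine Subfield.mem_sInf.2 fun F hF => hF.2 c (hc.mono (sInf_le hF))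

theorem HC_min {L F : Subfield Ω} (h : L ≤ F) (hF : SCl O F) : HC O L ≤ F := sInf_le ⟨h, hF⟩

theorem HC_mono {L L' : Subfield Ω} (h : L ≤ L') : HC O L ≤ HC O L' :=
  HC_min (h.trans (le_HC _)) (HC_scl _)

theorem HC_alg (L : Subfield Ω) {x : Ω} (hx : x ∈ HC O L) : IsAlgebraic L x := by
  rw [← mem_acl]
  exact HC_min (le_acl L) (fun c hc => (mem_acl L c).2
    (isAlgebraic_trans (fun y hy => (mem_acl L y).1 hy) hc.isAlgebraic)) hx

theorem HC_sep (L : Subfield Ω) {x : Ω} (hx : x ∈ HC O L) : IsSeparable L x := by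
  have key : HC O L ≤ (separableClosure L Ω).toSubfield := by
    apply HC_min
    · intro y hy
      exact (separableClosure L Ω).algebraMap_mem ⟨y, hy⟩
    · intro c hc
      have h1 : IsSeparable (separableClosure L Ω) c := hc.isSeparable
      exact mem_separableClosure_iff.2 (IsSeparable.of_algebra_isSeparable_of_isSeparable L h1)
  exact mem_separableClosure_iff.1 (key hx)

/-- An element of `HC (adj L Z)` lies in `HC (adj L Z0)` for a finite subset `Z0` of `Z`. -/
theorem HC_finite (L : Subfield Ω) (Z : Set Ω) {x : Ω} (hx : x ∈ HC O (adj L Z)) :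
    ∃ Z0 : Finset Ω, (Z0 : Set Ω) ⊆ Z ∧ x ∈ HC O (adj L (Z0 : Set Ω)) := by
  classical
  let I := {Z0 : Finset Ω // (Z0 : Set Ω) ⊆ Z}
  let f : I → Subfield Ω := fun Z0 => HC O (adj L (Z0.1 : Set Ω))
  have hdir : Directed (· ≤ ·) f := by
    intro a b
    refine ⟨⟨a.1 ∪ b.1, by simpa using ⟨a.2, b.2⟩⟩, ?_, ?_⟩
    · exact HC_mono (adj_mono le_rfl (by simp))
    · exact HC_mono (adj_mono le_rfl (by simp))
  have : Nonempty I := ⟨⟨∅, by simp⟩⟩
  have key : HC O (adj L Z) ≤ ⨆ i, f i := by
    apply HC_min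
    · apply adj_le
      · exact le_trans ((le_adj L _).trans (le_HC _)) (le_iSup f ⟨∅, by simp⟩)
      · intro z hz
        have h1 : f ⟨{z}, by simpa using hz⟩ ≤ ⨆ i, f i := le_iSup f _
        apply h1
        exact le_HC _ (subset_adj _ _ (by simp))
    · intro c hc
      obtain ⟨h, hm, h1, h2, h3, h4⟩ := hc
      have h5 : ∀ i, ∃ j : I, h.coeff i ∈ f j := fun i =>
        (Subfield.mem_iSup_of_directed hdir).1 (h1 i)
      choose g hg using h5
      obtain ⟨j, hj⟩ := hdir.finset_le (Finset.image g h.support)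
      refine (Subfield.mem_iSup_of_directed hdir).2 ⟨j, ?_⟩
      apply HC_scl
      refine ⟨h, hm, ?_, h2, h3, h4⟩
      intro i
      by_cases hi : i ∈ h.support
      · exact hj (g i) (Finset.mem_image_of_mem g hi) (hg i)
      · rw [Polynomial.notMem_support_iff.1 hi]
        exact zero_mem _
  obtain ⟨j, hj⟩ := (Subfield.mem_iSup_of_directed hdir).1 (key hx)
  exact ⟨j.1, j.2, hj⟩

variable {p : ℕ}

theorem le_clN (N L : Subfield Ω) : L ≤ clN p O N L := le_sInf fun _ hF => hF.1

theorem clN_clIn (N L : Subfield Ω) : ClIn p O N (clN p O N L) := by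
  constructor
  · intro y hy hyp
    refine Subfield.mem_sInf.2 fun F hF => hF.2.1 y hy ?_
    exact (Subfield.mem_sInf.1 hyp) F hF
  · intro c hc hcr
    refine Subfield.mem_sInf.2 fun F hF => hF.2.2 c hc (hcr.mono (sInf_le hF))

theorem clN_min {N L F : Subfield Ω} (h : L ≤ F) (hF : ClIn p O N F) : clN p O N L ≤ F :=
  sInf_le ⟨h, hF⟩

theorem clN_le {N L : Subfield Ω} (h : L ≤ N) : clN p O N L ≤ N :=
  clN_min h ⟨fun _ hy _ => hy, fun _ hc _ => hc⟩

theorem clN_mono {N L L' : Subfield Ω} (h : L ≤ L') : clN p O N L ≤ clN p O N L' :=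
  clN_min (h.trans (le_clN _ _)) (clN_clIn _ _)

theorem clN_mono_left {N N' L : Subfield Ω} (h : N ≤ N') : clN p O N L ≤ clN p O N' L :=
  clN_min (le_clN _ _) ⟨fun y hy => (clN_clIn N' L).1 y (h hy),
    fun c hc => (clN_clIn N' L).2 c (h hc)⟩

theorem le_cl (L : Subfield Ω) : L ≤ cl p O L := le_clN _ _

theorem cl_pcl (L : Subfield Ω) : PCl p (cl p O L) :=
  fun x hx => (clN_clIn ⊤ L).1 x (Subfield.mem_top x) hx

theorem cl_scl (L : Subfield Ω) : SCl O (cl p O L) :=
  fun c hc => (clN_clIn ⊤ L).2 c (Subfield.mem_top c) hc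

theorem cl_min {L F : Subfield Ω} (h : L ≤ F) (h1 : PCl p F) (h2 : SCl O F) : cl p O L ≤ F :=
  clN_min h ⟨fun y _ => h1 y, fun c _ => h2 c⟩

theorem cl_mono {L L' : Subfield Ω} (h : L ≤ L') : cl p O L ≤ cl p O L' := clN_mono h

theorem HC_le_cl (L : Subfield Ω) : HC O L ≤ cl p O L := HC_min (le_cl L) (cl_scl L)

theorem clN_alg [Fact p.Prime] (N L : Subfield Ω) {x : Ω} (hx : x ∈ clN p O N L) :
    IsAlgebraic L x := by
  rw [← mem_acl]
  refine clN_min (le_acl L) ⟨?_, ?_⟩ hx
  · intro y _ hy
    rw [mem_acl] at hy ⊢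
    exact hy.of_pow (Fact.out : p.Prime).pos
  · intro c _ hc
    exact (mem_acl L c).2
      (isAlgebraic_trans (fun y hy => (mem_acl L y).1 hy) hc.isAlgebraic)

/-- The closure in an h-closed, perfect field is h-closed and perfect. -/
theorem clN_pcl {N L : Subfield Ω} (hN : PCl p N) (h : L ≤ N) : PCl p (clN p O N L) := by
  intro x hx
  exact (clN_clIn N L).1 x (hN x (clN_le h hx)) hx

theorem clN_hcl {N L : Subfield Ω} (hN : HCl O N) (h : L ≤ N) : HCl O (clN p O N L) := by
  intro c a hc ha hca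
  exact (clN_clIn N L).2 c (hN c a (hc.mono (clN_le h)) (clN_le h ha) hca) hc

end Closures

section Galois

variable [IsAlgClosed Ω]

theorem exists_auto {L : Subfield Ω} (h : Algebra.IsAlgebraic L Ω) {x y : Ω}
    (hxy : minpoly L x = minpoly L y) :
    ∃ σ : Ω ≃+* Ω, (∀ z ∈ L, σ z = z) ∧ σ x = y := by
  have : IsAlgClosure L Ω := ⟨inferInstance, h⟩
  have : Normal L Ω := IsAlgClosure.normal L Ω
  obtain ⟨σ, hσ⟩ := (isConjRoot_iff_exists_algEquiv (K := L) (x := y) (y := x)).1 hxy.symm
  exact ⟨σ.toRingEquiv, fun z hz => σ.commutes ⟨z, hz⟩, hσ⟩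

theorem mem_of_fixed_sep {L : Subfield Ω} (h : Algebra.IsAlgebraic L Ω) {x : Ω}
    (hs : IsSeparable L x)
    (hx : ∀ σ : Ω ≃+* Ω, (∀ z ∈ L, σ z = z) → σ x = x) : x ∈ L := by
  classical
  have hint : IsIntegral L x := hs.isIntegral
  have hroots : ∀ y ∈ (minpoly L x).rootSet Ω, y = x := by
    intro y hy
    have h1 : aeval y (minpoly L x) = 0 := (Polynomial.mem_rootSet.1 hy).2
    have h2 : minpoly L x = minpoly L y :=
      minpoly.eq_of_irreducible_of_monic (minpoly.irreducible hint) h1 (minpoly.monic hint)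
    obtain ⟨σ, h3, h4⟩ := exists_auto h h2
    rw [← h4, hx σ h3]
  have hcard : Fintype.card ((minpoly L x).rootSet Ω) = (minpoly L x).natDegree :=
    Polynomial.card_rootSet_eq_natDegree hs (IsAlgClosed.splits _)
  have hle : Fintype.card ((minpoly L x).rootSet Ω) ≤ 1 := by
    rw [Fintype.card_le_one_iff]
    rintro ⟨a, ha⟩ ⟨b, hb⟩
    exact Subtype.ext ((hroots a ha).trans (hroots b hb).symm)
  have hd : (minpoly L x).natDegree = 1 := by
    have h5 := minpoly.natDegree_pos hint
    omega
  have h6 := (minpoly.natDegree_eq_one_iff).1 hd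
  obtain ⟨y, hy⟩ := h6
  rw [← hy]
  exact y.2

/-- An element fixed by all automorphisms over a perfect field is in that field. -/
theorem mem_of_fixed (p : ℕ) [Fact p.Prime] [CharP Ω p] {L : Subfield Ω} (hL : PCl p L)
    (h : Algebra.IsAlgebraic L Ω) {x : Ω}
    (hx : ∀ σ : Ω ≃+* Ω, (∀ z ∈ L, σ z = z) → σ x = x) : x ∈ L := by
  have : CharP L p := (algebraMap L Ω).charP (algebraMap L Ω).injective p
  have : ExpChar L p := ExpChar.prime (Fact.out : p.Prime)
  have h1 : IsPurelyInseparable (separableClosure L Ω) Ω := inferInstance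
  have : ExpChar (separableClosure L Ω) p :=
    expChar_of_injective_algebraMap (algebraMap L (separableClosure L Ω)).injective p
  obtain ⟨n, y, hy⟩ := (isPurelyInseparable_iff_pow_mem (separableClosure L Ω) p).1 h1 x
  have h2 : IsSeparable L (x ^ p ^ n) := by
    rw [← hy]
    exact mem_separableClosure_iff.1 y.2
  have h3 : x ^ p ^ n ∈ L := by
    apply mem_of_fixed_sep h h2
    intro σ hσ
    rw [map_pow, hx σ hσ]
  clear hy h2
  induction n with
  | zero => simpa using h3
  | succ n ih =>
    apply ih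
    rw [pow_succ, pow_mul] at h3
    exact hL _ h3

end Galois

end Pool.Agent.H92.Tilt
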