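import Pool.Agent.H92.Tilt.Basic

/-!
Module C (paper C1, C2, C3): p-bases. `PB p F T` is defined in `Defs`; characteristic `p`.

C1 `pb_sep`: `F ≤ F'` separable algebraic, `PB F T` implies `PB F' T`. For a separable
extension with basis `e_l`, the `e_l ^ p` are linearly independent over `F`.
C2 `pb_rational`: `A` perfect and `T` algebraically independent over `A` give `PB (A(T)) T`
(clear denominators and compare exponents modulo `p`).
C3 `pb_of_ind`: `F ≤ L` algebraic, `PB F T` and `PInd L T` give `PB L T` and `L / F` separable: if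
`x` is not separable, its minimal polynomial is `g(X ^ p)`; writing the coefficients of `g` in the
`p`-basis gives a relation of smaller degree for `x`.
-/

set_option autoImplicit false

namespace Pool.Agent.H92.Tilt

open Polynomial

namespace CAux

variable {Ω : Type*} [Field Ω] (p : ℕ) [Fact p.Prime] [CharP Ω p] [IsAlgClosed Ω]
variable {ι : Type*} [Fintype ι] [DecidableEq ι]

omit [IsAlgClosed Ω] [DecidableEq ι] [CharP Ω p] in
theorem mon_mul (T : ι → Ω) (α β : ι → Fin p) :
    mon T α * mon T β = (∏ i, T i ^ (((α i : ℕ) + (β i : ℕ)) / p)) ^ p *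
      mon T (fun i => (⟨((α i : ℕ) + (β i : ℕ)) % p,
        Nat.mod_lt _ (Fact.out : p.Prime).pos⟩ : Fin p)) := by
  unfold mon
  rw [← Finset.prod_pow, ← Finset.prod_mul_distrib, ← Finset.prod_mul_distrib]
  refine Finset.prod_congr rfl fun i _ => ?_
  rw [← pow_add, ← pow_mul, ← pow_add]
  congr 1
  simp only
  rw [mul_comm]
  exact (Nat.div_add_mod _ _).symm

omit [Fact p.Prime] [IsAlgClosed Ω] [DecidableEq ι] [CharP Ω p] in
theorem mon_mem {F : Subfield Ω} {T : ι → Ω} (hT : ∀ i, T i ∈ F) (α : ι → Fin p) :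
    mon T α ∈ F := prod_mem fun i _ => pow_mem (hT i) _

omit [Fact p.Prime] [IsAlgClosed Ω] [CharP Ω p] in
theorem psum_mem {F : Subfield Ω} {T : ι → Ω} (hT : ∀ i, T i ∈ F) {u : (ι → Fin p) → Ω}
    (hu : ∀ α, u α ∈ F) : psum T u ∈ F :=
  sum_mem fun α _ => mul_mem (pow_mem (hu α) _) (mon_mem p hT α)

/-- The field of all `∑ u_α ^ p T ^ α` with `u_α ∈ F`. -/
def PS (F : Subfield Ω) (T : ι → Ω) (hT : ∀ i, T i ∈ F) : Subfield Ω := by
  classical
  have hp0 : p ≠ 0 := (Fact.out : p.Prime).ne_zero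
  have hadd : ∀ {a b : Ω}, (∃ u : (ι → Fin p) → Ω, (∀ α, u α ∈ F) ∧ a = psum T u) →
      (∃ u : (ι → Fin p) → Ω, (∀ α, u α ∈ F) ∧ b = psum T u) →
      (∃ u : (ι → Fin p) → Ω, (∀ α, u α ∈ F) ∧ a + b = psum T u) := by
    rintro a b ⟨u, hu, rfl⟩ ⟨v, hv, rfl⟩
    refine ⟨fun α => u α + v α, fun α => add_mem (hu α) (hv α), ?_⟩
    unfold psum
    rw [← Finset.sum_add_distrib]
    refine Finset.sum_congr rfl fun α _ => ?_
    rw [add_pow_char, add_mul]
  have hmon : ∀ (g : Ω), g ∈ F → ∀ γ : ι → Fin p,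
      (∃ u : (ι → Fin p) → Ω, (∀ α, u α ∈ F) ∧ g ^ p * mon T γ = psum T u) := by
    intro g hg γ
    refine ⟨Pi.single γ g, fun α => ?_, ?_⟩
    · by_cases h : α = γ
      · subst h
        simpa using hg
      · rw [Pi.single_eq_of_ne h]
        exact zero_mem F
    · unfold psum
      rw [Finset.sum_eq_single γ]
      · simp
      · intro b _ hb
        rw [Pi.single_eq_of_ne hb, zero_pow hp0, zero_mul]
      · intro h
        exact absurd (Finset.mem_univ _) h
  have hzero : (∃ u : (ι → Fin p) → Ω, (∀ α, u α ∈ F) ∧ (0 : Ω) = psum T u) := by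
    refine ⟨fun _ => 0, fun _ => zero_mem F, ?_⟩
    unfold psum
    simp [zero_pow hp0]
  have hsum : ∀ {κ : Type _} (s : Finset κ) (g : κ → Ω),
      (∀ k ∈ s, (∃ u : (ι → Fin p) → Ω, (∀ α, u α ∈ F) ∧ g k = psum T u)) →
      (∃ u : (ι → Fin p) → Ω, (∀ α, u α ∈ F) ∧ ∑ k ∈ s, g k = psum T u) := by
    intro κ s g
    induction s using Finset.induction_on with
    | empty =>
      intro _
      rw [Finset.sum_empty]
      exact hzero
    | insert a s ha ih =>
      intro h
      rw [Finset.sum_insert ha]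
      exact hadd (h a (Finset.mem_insert_self _ _))
        (ih fun k hk => h k (Finset.mem_insert_of_mem hk))
  have hmul : ∀ {a b : Ω}, (∃ u : (ι → Fin p) → Ω, (∀ α, u α ∈ F) ∧ a = psum T u) →
      (∃ u : (ι → Fin p) → Ω, (∀ α, u α ∈ F) ∧ b = psum T u) →
      (∃ u : (ι → Fin p) → Ω, (∀ α, u α ∈ F) ∧ a * b = psum T u) := by
    rintro a b ⟨u, hu, rfl⟩ ⟨v, hv, rfl⟩
    unfold psum
    rw [Finset.sum_mul]
    refine hsum _ _ fun α _ => ?_
    rw [Finset.mul_sum]
    refine hsum _ _ fun β _ => ?_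
    have : u α ^ p * mon T α * (v β ^ p * mon T β) =
        (u α * v β * ∏ i, T i ^ (((α i : ℕ) + (β i : ℕ)) / p)) ^ p *
          mon T (fun i => (⟨((α i : ℕ) + (β i : ℕ)) % p,
            Nat.mod_lt _ (Fact.out : p.Prime).pos⟩ : Fin p)) := by
      have h := mon_mul p T α β
      calc u α ^ p * mon T α * (v β ^ p * mon T β)
          = (u α ^ p * v β ^ p) * (mon T α * mon T β) := by ring
        _ = _ := by rw [h]; ring
    rw [this]
    exact hmon _ (mul_mem (mul_mem (hu α) (hv β)) (prod_mem fun i _ => pow_mem (hT i) _)) _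
  have hpow : ∀ {a : Ω}, a ∈ F →
      (∃ u : (ι → Fin p) → Ω, (∀ α, u α ∈ F) ∧ a ^ p = psum T u) := by
    intro a ha
    have := hmon a ha (fun _ => ⟨0, (Fact.out : p.Prime).pos⟩)
    simpa [mon] using this
  have hone : (∃ u : (ι → Fin p) → Ω, (∀ α, u α ∈ F) ∧ (1 : Ω) = psum T u) := by
    simpa using hpow (one_mem F)
  refine
    { carrier := {f | ∃ u : (ι → Fin p) → Ω, (∀ α, u α ∈ F) ∧ f = psum T u}
      mul_mem' := fun {a b} ha hb => hmul ha hb
      one_mem' := hone
      add_mem' := fun {a b} ha hb => hadd ha hb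
      zero_mem' := hzero
      neg_mem' := ?_
      inv_mem' := ?_ }
  · intro a ha
    have h1 : (-1 : Ω) ∈ F := neg_mem (one_mem F)
    have h2 : ((-1 : Ω)) ^ p = -1 := by
      have := (frobenius Ω p).map_neg 1
      simpa [frobenius_def] using this
    have h3 := hmul (hpow h1) ha
    rw [h2, neg_one_mul] at h3
    exact h3
  · intro a ha
    by_cases h0 : a = 0
    · subst h0
      rw [inv_zero]
      exact hzero
    · have haF : a ∈ F := by
        obtain ⟨u, hu, rfl⟩ := ha
        exact psum_mem p hT hu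
      have hpw : ∀ n : ℕ, (∃ u : (ι → Fin p) → Ω, (∀ α, u α ∈ F) ∧ a ^ n = psum T u) := by
        intro n
        induction n with
        | zero => rw [pow_zero]; exact hone
        | succ n ih => rw [pow_succ]; exact hmul ih ha
      have h4 := hmul (hpw (p - 1)) (hpow (inv_mem haF))
      have h5 : a ^ (p - 1) * a⁻¹ ^ p = a⁻¹ := by
        have : p = (p - 1) + 1 := (Nat.succ_pred_eq_of_pos (Fact.out : p.Prime).pos).symm
        conv_lhs => rw [this]
        rw [Nat.add_sub_cancel, pow_succ, ← mul_assoc, ← mul_pow, mul_inv_cancel₀ h0, one_pow,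
          one_mul]
      rw [h5] at h4
      exact h4

omit [IsAlgClosed Ω] in
theorem mem_PS {F : Subfield Ω} {T : ι → Ω} {hT : ∀ i, T i ∈ F} {f : Ω} :
    f ∈ PS p F T hT ↔ ∃ u : (ι → Fin p) → Ω, (∀ α, u α ∈ F) ∧ f = psum T u := Iff.rfl

omit [IsAlgClosed Ω] in
theorem pow_mul_mon_mem_PS {F : Subfield Ω} {T : ι → Ω} {hT : ∀ i, T i ∈ F} {a : Ω}
    (ha : a ∈ F) (γ : ι → Fin p) : a ^ p * mon T γ ∈ PS p F T hT := by
  classical
  refine (mem_PS p).2 ⟨Function.update (fun _ => 0) γ a, fun α => ?_, ?_⟩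
  · by_cases h : α = γ
    · subst h
      simpa using ha
    · rw [Function.update_of_ne h]
      exact zero_mem F
  · unfold psum
    rw [Finset.sum_eq_single γ]
    · simp
    · intro b _ hb
      rw [Function.update_of_ne hb, zero_pow (Fact.out : p.Prime).ne_zero, zero_mul]
    · intro h
      exact absurd (Finset.mem_univ _) h

omit [IsAlgClosed Ω] in
theorem pow_mem_PS {F : Subfield Ω} {T : ι → Ω} {hT : ∀ i, T i ∈ F} {a : Ω} (ha : a ∈ F) :
    a ^ p ∈ PS p F T hT := by
  have h := pow_mul_mon_mem_PS p (hT := hT) ha (fun _ => ⟨0, (Fact.out : p.Prime).pos⟩)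
  simpa [mon] using h

omit [IsAlgClosed Ω] in
theorem T_mem_PS {F : Subfield Ω} {T : ι → Ω} {hT : ∀ i, T i ∈ F} (i : ι) :
    T i ∈ PS p F T hT := by
  classical
  have hp := (Fact.out : p.Prime)
  let γ : ι → Fin p := Function.update (fun _ => ⟨0, hp.pos⟩) i ⟨1, hp.one_lt⟩
  have h : mon T γ = T i := by
    unfold mon
    rw [Finset.prod_eq_single i]
    · simp [γ]
    · intro j _ hj
      simp [γ, Function.update_of_ne hj]
    · intro h
      exact absurd (Finset.mem_univ _) h
  have h2 := pow_mul_mon_mem_PS p (hT := hT) (one_mem F) γ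
  rw [one_pow, one_mul, h] at h2
  exact h2

omit [IsAlgClosed Ω] in
theorem pb_sep_span {F F' : Subfield Ω} {T : ι → Ω} (h : PB p F T) (hF : F ≤ F')
    (hs : ∀ x ∈ F', IsSeparable F x) (f : Ω) (hf : f ∈ F') :
    f ∈ PS p F' T (fun i => hF (h.mem i)) := by
  have : CharP F p := inferInstance
  have : ExpChar F p := ExpChar.prime Fact.out
  let E' : IntermediateField F Ω := Subfield.extendScalars hF
  have : Algebra.IsSeparable F E' := ⟨fun x => IsSeparable.of_algHom E'.val (hs x x.2)⟩
  have h1 : Submodule.span F (Set.range (id : E' → E')) = ⊤ := by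
    rw [Set.range_id, Submodule.span_univ]
  have h2 := Field.span_map_pow_expChar_pow_eq_top_of_isSeparable p 1 h1
  have h3 : (⟨f, hf⟩ : E') ∈ Submodule.span F (Set.range ((id : E' → E') · ^ p ^ 1)) := by
    rw [h2]
    trivial
  have h4 : ∀ y : E', y ∈ Submodule.span F (Set.range ((id : E' → E') · ^ p ^ 1)) →
      (y : Ω) ∈ PS p F' T (fun i => hF (h.mem i)) := by
    intro y hy
    induction hy using Submodule.span_induction with
    | mem y hy =>
      obtain ⟨z, rfl⟩ := hy
      have : ((z : Ω)) ^ p ∈ PS p F' T (fun i => hF (h.mem i)) := pow_mem_PS p z.2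
      simpa using this
    | zero => exact zero_mem _
    | add a b _ _ ha hb => exact add_mem ha hb
    | smul c x _ hx =>
      have hc : (c : Ω) ∈ PS p F' T (fun i => hF (h.mem i)) := by
        obtain ⟨u, hu, hcu⟩ := h.span c c.2
        exact (mem_PS p).2 ⟨u, fun α => hF (hu α), hcu⟩
      exact mul_mem hc hx
  exact h4 _ h3

omit [IsAlgClosed Ω] in
theorem pb_sep_ind {F F' : Subfield Ω} {T : ι → Ω} (h : PB p F T) (hF : F ≤ F')
    (hs : ∀ x ∈ F', IsSeparable F x) : PInd p F' T := by
  classical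
  have : CharP F p := inferInstance
  have : ExpChar F p := ExpChar.prime Fact.out
  let E' : IntermediateField F Ω := Subfield.extendScalars hF
  have : CharP E' p := inferInstance
  have : Algebra.IsSeparable F E' := ⟨fun x => IsSeparable.of_algHom E'.val (hs x x.2)⟩
  let b := Module.Basis.ofVectorSpace F E'
  have hli := b.linearIndependent.map_pow_expChar_pow_of_isSeparable p 1
  intro u hu hsum
  let w : (ι → Fin p) → E' := fun α => ⟨u α, hu α⟩
  let S := Finset.univ.biUnion (fun α => (b.repr (w α)).support)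
  have hw : ∀ α, w α = ∑ l ∈ S, b.repr (w α) l • b l := by
    intro α
    conv_lhs => rw [← b.linearCombination_repr (w α)]
    rw [Finsupp.linearCombination_apply]
    exact Finsupp.sum_of_support_subset _
      (Finset.subset_biUnion_of_mem (fun α => (b.repr (w α)).support) (Finset.mem_univ α)) _
      (fun i _ => zero_smul _ _)
  let M : (ι → Fin p) → F := fun α => ⟨mon T α, mon_mem p h.mem α⟩
  have h1 : ∑ α, (w α) ^ p * algebraMap F E' (M α) = 0 := by
    apply Subtype.ext
    have : (((∑ α, (w α) ^ p * algebraMap F E' (M α) : E')) : Ω) = psum T u := by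
      unfold psum
      push_cast
      rfl
    rw [this, hsum]
    rfl
  have h2 : ∀ α, (w α) ^ p * algebraMap F E' (M α) =
      ∑ l ∈ S, ((b.repr (w α) l) ^ p * M α) • (b l ^ p ^ 1) := by
    intro α
    conv_lhs => rw [hw α]
    rw [sum_pow_char, Finset.sum_mul]
    refine Finset.sum_congr rfl fun l _ => ?_
    rw [_root_.smul_pow, pow_one, Algebra.smul_def, Algebra.smul_def, map_mul, map_pow]
    ring
  have h3 : ∑ l ∈ S, (∑ α, (b.repr (w α) l) ^ p * M α) • (b l ^ p ^ 1) = 0 := by
    rw [← h1]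
    simp_rw [h2, Finset.sum_smul]
    exact Finset.sum_comm
  have h4 : ∀ l ∈ S, ∑ α, (b.repr (w α) l) ^ p * M α = 0 :=
    linearIndependent_iff'.1 hli S _ h3
  intro α
  have h5 : w α = 0 := by
    rw [hw α]
    refine Finset.sum_eq_zero fun l hl => ?_
    have h6 := h4 l hl
    have h7 := h.ind (fun α => ((b.repr (w α) l : F) : Ω)) (fun α => (b.repr (w α) l).2) (by
      have := congrArg (fun x : F => (x : Ω)) h6
      unfold psum
      simpa using this) α
    have h8 : b.repr (w α) l = 0 := Subtype.ext h7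
    rw [h8, zero_smul]
  exact congrArg (fun x : E' => (x : Ω)) h5

omit [DecidableEq ι] [Fintype ι] [IsAlgClosed Ω] [CharP Ω p] [Fact p.Prime] in
theorem common_den {A : Subfield Ω} {T : ι → Ω} {κ : Type*} [Fintype κ] (u : κ → Ω)
    (hu : ∀ k, u k ∈ adj A (Set.range T)) :
    ∃ D : Ω, D ≠ 0 ∧ ∀ k, ∃ P : MvPolynomial ι A, u k * D = MvPolynomial.aeval T P := by
  classical
  have h1 : ∀ k, ∃ P Q : MvPolynomial ι A, MvPolynomial.aeval T Q ≠ 0 ∧
      u k * MvPolynomial.aeval T Q = MvPolynomial.aeval T P := by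
    intro k
    have h2 := (mem_adjoin_iff A (Set.range T) (u k)).2 (hu k)
    rw [IntermediateField.mem_adjoin_range_iff] at h2
    obtain ⟨r, s, hrs⟩ := h2
    by_cases hs : MvPolynomial.aeval T s = 0
    · rw [hs, div_zero] at hrs
      refine ⟨0, 1, ?_, ?_⟩
      · rw [map_one]
        exact one_ne_zero
      · rw [hrs, map_zero, zero_mul]
    · refine ⟨r, s, hs, ?_⟩
      rw [hrs, div_mul_cancel₀ _ hs]
  choose P Q hQ hPQ using h1
  refine ⟨∏ k, MvPolynomial.aeval T (Q k), Finset.prod_ne_zero_iff.2 fun k _ => hQ k, fun k => ?_⟩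
  refine ⟨P k * ∏ j ∈ Finset.univ.erase k, Q j, ?_⟩
  rw [map_mul, map_prod, ← hPQ k, ← Finset.mul_prod_erase Finset.univ _ (Finset.mem_univ k)]
  ring

/-- The exponent vector. -/
noncomputable def ev (α : ι → Fin p) : ι →₀ ℕ := Finsupp.equivFunOnFinite.symm (fun i => (α i : ℕ))

omit [DecidableEq ι] [CharP Ω p] [IsAlgClosed Ω] [Fact p.Prime] in
theorem aeval_ev {A : Subfield Ω} (T : ι → Ω) (α : ι → Fin p) :
    MvPolynomial.aeval T (MvPolynomial.monomial (ev p α) (1 : A)) = mon T α := by
  rw [MvPolynomial.aeval_monomial, map_one, one_mul, Finsupp.prod_fintype _ _ fun i => pow_zero _]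
  rfl

omit [IsAlgClosed Ω] in
theorem pb_rational_ind {A : Subfield Ω} {T : ι → Ω}
    (hT : AlgebraicIndependent A T) : PInd p (adj A (Set.range T)) T := by
  classical
  have hp := (Fact.out : p.Prime)
  intro u hu hs
  obtain ⟨D, hD, hP⟩ := common_den u hu
  choose P hP using hP
  have hq : ∑ β, P β ^ p * MvPolynomial.monomial (ev p β) (1 : A) = 0 := by
    apply hT
    rw [map_zero, map_sum]
    have : ∀ β, MvPolynomial.aeval T (P β ^ p * MvPolynomial.monomial (ev p β) (1 : A)) =
        D ^ p * (u β ^ p * mon T β) := by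
      intro β
      rw [map_mul, map_pow, ← hP β, aeval_ev, mul_pow]
      ring
    simp_rw [this]
    rw [← Finset.mul_sum]
    change D ^ p * psum T u = 0
    rw [hs, mul_zero]
  intro α
  have hPα : P α = 0 := by
    ext m
    have h1 := congrArg (MvPolynomial.coeff (p • m + ev p α)) hq
    rw [MvPolynomial.coeff_sum, MvPolynomial.coeff_zero, Finset.sum_eq_single α] at h1
    · rw [MvPolynomial.coeff_mul_monomial, mul_one, ← MvPolynomial.map_frobenius_expand p,
        MvPolynomial.coeff_map, MvPolynomial.coeff_expand_smul p hp.ne_zero, frobenius_def] at h1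
      rw [(pow_eq_zero_iff hp.ne_zero).1 h1, MvPolynomial.coeff_zero]
    · intro β _ hβ
      rw [MvPolynomial.coeff_mul_monomial']
      split_ifs with hle
      · rw [mul_one, ← MvPolynomial.map_frobenius_expand p, MvPolynomial.coeff_map]
        obtain ⟨i, hi⟩ := Function.ne_iff.1 hβ
        rw [MvPolynomial.coeff_expand_of_not_dvd (i := i), map_zero]
        intro hdvd
        apply hi
        have h2 : (β i : ℕ) ≤ p * m i + (α i : ℕ) := by simpa [ev] using hle i
        have h3 : p ∣ p * m i + (α i : ℕ) - (β i : ℕ) := by simpa [ev] using hdvd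
        obtain ⟨c, hc⟩ := h3
        have h4 : p * m i + (α i : ℕ) = p * c + (β i : ℕ) := by omega
        have h5 := congrArg (· % p) h4
        simp only [Nat.mul_add_mod, Nat.mod_eq_of_lt (α i).2, Nat.mod_eq_of_lt (β i).2] at h5
        exact Fin.ext h5.symm
      · rfl
    · intro h
      exact absurd (Finset.mem_univ _) h
  have h2 := hP α
  rw [hPα, map_zero, mul_eq_zero] at h2
  exact h2.resolve_right hD

omit [IsAlgClosed Ω] in
theorem sep_of_ind {F L : Subfield Ω} {T : ι → Ω} (h : PB p F T) (hF : F ≤ L)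
    (ha : ∀ x ∈ L, IsAlgebraic F x) (hi : PInd p L T) (x : Ω) (hx : x ∈ L) :
    IsSeparable F x := by
  classical
  have hp := (Fact.out : p.Prime)
  have : CharP F p := inferInstance
  by_contra hns
  have hint : IsIntegral F x := (ha x hx).isIntegral
  rcases separable_or p (minpoly.irreducible hint) with h1 | ⟨_, g, hg, hgx⟩
  · exact hns h1
  · have h2 : ∀ j, ∃ u : (ι → Fin p) → F, ((g.coeff j : F) : Ω) = psum T (fun α => (u α : Ω)) := by
      intro j
      obtain ⟨u, hu, hju⟩ := h.span (g.coeff j) (g.coeff j).2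
      exact ⟨fun α => ⟨u α, hu α⟩, hju⟩
    choose u hu using h2
    let N := g.natDegree
    let G : (ι → Fin p) → F[X] := fun α => ∑ j ∈ Finset.range (N + 1), monomial j (u j α)
    have h3 : psum T (fun α => aeval x (G α)) = 0 := by
      have h4 : aeval x (minpoly F x) = 0 := minpoly.aeval F x
      rw [← hgx, expand_aeval, aeval_eq_sum_range] at h4
      rw [← h4]
      have h5 : ∀ j, (g.coeff j) • (x ^ p) ^ j =
          ∑ α, (((u j α : F) : Ω) * x ^ j) ^ p * mon T α := by
        intro j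
        rw [Algebra.smul_def]
        change ((g.coeff j : F) : Ω) * _ = _
        rw [hu j]
        unfold psum
        rw [Finset.sum_mul]
        refine Finset.sum_congr rfl fun α _ => ?_
        rw [mul_pow, ← pow_mul, ← pow_mul, mul_comm p j]
        ring
      simp_rw [h5]
      rw [Finset.sum_comm]
      unfold psum
      refine Finset.sum_congr rfl fun α _ => ?_
      rw [← Finset.sum_mul, ← sum_pow_char]
      congr 2
      simp only [G, map_sum, aeval_monomial]
      rfl
    have h6 : ∀ α, aeval x (G α) = 0 := by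
      apply hi _ _ h3
      intro α
      simp only [G, map_sum, aeval_monomial]
      exact sum_mem fun j _ => mul_mem (hF (u j α).2) (pow_mem hx j)
    have hdeg : (minpoly F x).natDegree = N * p := by
      rw [← hgx, natDegree_expand]
    have hpos : 0 < (minpoly F x).natDegree := minpoly.natDegree_pos hint
    have hlt : N < (minpoly F x).natDegree := by
      rw [hdeg] at hpos ⊢
      have hN : 0 < N := Nat.pos_of_mul_pos_right hpos
      have := hp.one_lt
      nlinarith
    have h7 : ∀ α, G α = 0 := by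
      intro α
      by_contra hne
      have h8 := natDegree_le_natDegree (minpoly.degree_le_of_ne_zero F x hne (h6 α))
      have h9 : (G α).natDegree ≤ N := by
        refine natDegree_sum_le_of_forall_le _ _ fun j hj => ?_
        exact (natDegree_monomial_le _).trans (Nat.lt_succ_iff.1 (Finset.mem_range.1 hj))
      omega
    have h8 : ∀ j ≤ N, ∀ α, u j α = 0 := by
      intro j hj α
      have h9 := congrArg (fun q : F[X] => q.coeff j) (h7 α)
      simpa [G, finsetSum_coeff, coeff_monomial, Nat.lt_succ_iff.2 hj] using h9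
    apply hg.ne_zero
    ext j
    by_cases hj : j ≤ N
    · rw [hu j]
      unfold psum
      rw [coeff_zero]
      simp [h8 j hj, hp.ne_zero]
    · rw [coeff_eq_zero_of_natDegree_lt (not_le.1 hj), coeff_zero]

end CAux

open CAux

variable {Ω : Type*} [Field Ω] (p : ℕ) [Fact p.Prime] [CharP Ω p] [IsAlgClosed Ω]
variable {ι : Type*} [Fintype ι] [DecidableEq ι]

theorem pb_sep {F F' : Subfield Ω} {T : ι → Ω} (h : PB p F T) (hF : F ≤ F')
    (hs : ∀ x ∈ F', IsSeparable F x) : PB p F' T :=
  ⟨fun i => hF (h.mem i), pb_sep_ind p h hF hs, fun f hf => (mem_PS p).1 (pb_sep_span p h hF hs f hf)⟩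

theorem pb_rational {A : Subfield Ω} (hA : PCl p A) {T : ι → Ω}
    (hT : AlgebraicIndependent A T) : PB p (adj A (Set.range T)) T := by
  have hmem : ∀ i, T i ∈ adj A (Set.range T) := fun i => subset_adj A _ ⟨i, rfl⟩
  refine ⟨hmem, pb_rational_ind p hT, fun f hf => (mem_PS p (hT := hmem)).1 ?_⟩
  refine adj_le (F := PS p (adj A (Set.range T)) T hmem) ?_ ?_ hf
  · intro a ha
    obtain ⟨b, hb⟩ := IsAlgClosed.exists_pow_nat_eq a (Fact.out : p.Prime).pos
    have hbA : b ∈ A := hA b (hb ▸ ha)
    rw [← hb]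
    exact pow_mem_PS p (le_adj A _ hbA)
  · rintro _ ⟨i, rfl⟩
    exact T_mem_PS p i

theorem pb_of_ind {F L : Subfield Ω} {T : ι → Ω} (h : PB p F T) (hF : F ≤ L)
    (ha : ∀ x ∈ L, IsAlgebraic F x) (hi : PInd p L T) :
    PB p L T ∧ ∀ x ∈ L, IsSeparable F x :=
  ⟨pb_sep p h hF (sep_of_ind p h hF ha hi), sep_of_ind p h hF ha hi⟩

/-- Orthogonality implies independence. -/
theorem pind_of_orth (O : ValuationSubring Ω) {L : Subfield Ω} {T : ι → Ω}
    (hT0 : ∀ i, T i ≠ 0) (h : Orth p O L T) : PInd p L T := by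
  intro u hu hs α
  have h1 := h u hu α
  rw [hs, map_zero, le_zero_iff, map_eq_zero, mul_eq_zero] at h1
  rcases h1 with h1 | h1
  · exact pow_eq_zero_iff (Fact.out : p.Prime).ne_zero |>.1 h1
  · exact absurd h1 (Finset.prod_ne_zero_iff.2 fun i _ => pow_ne_zero _ (hT0 i))

end Pool.Agent.H92.Tilt
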