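import Pool.Agent.H92.Tilt.C

/-!
Module C4: the exact Artin-Schreier lemma.

`M` algebraically closed, `T` algebraically independent over `M`, `F / M(T)` separable algebraic,
`f ∈ F`. `PB F T` (C1, C2). Let `P(f) := u_0` for `f = ∑ u_α^p T^α`. `P` is additive, `P(a^p f) = a P(f)`.
(1) The iterates `P^k(f)` lie in a finite dimensional `M`-space: `L = M(T)(f)`, `e_l` a basis of `L`
over `M(T)`, `e_j = ∑_l (b_jl / Q^p) e_l^p`, `f = ∑ (a_l / Q^2) e_l` with `a, b, Q ∈ M[T]`.
`V_n = {∑ (a_l / Q^2) e_l : deg a_l ≤ n}` satisfies `P V_n ⊆ V_n` when `n ≥ max deg (b_jl Q^(p-2))`, since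
`P((a/Q^2) e_j) = ∑_l (e_l / Q^2) P(a b_jl Q^(p-2))` and `P` on `M[T]` divides total degrees by `p`.
(2) `v := P(f)`, `v_i := P^i(v)`. There is `m` with `v_m = ∑_{i<m} c_i v_i`, `c_i ∈ M`. If `m = 0`, then
`v = 0`, take `g = 0`. Otherwise let `s ∈ M` be a root of `X^(p^m) = 1 + ∑_{i<m} c_i^(p^i) X^(p^i)` and
`x_i := (1 + ∑_{j≤i} (s c_j)^(p^j))^(1/p^i) ∈ M`, so `x_0 = 1 + s c_0`, `x_i = x_{i-1}^(1/p) + s c_i`,
`x_{m-1} = s^p`. `g := ∑_{i<m} x_i v_i` satisfies `g - P(g) = v`: so `P(f + g - g^p) = v + P(g) - g = 0`.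
-/

set_option autoImplicit false
set_option linter.unusedSectionVars false

namespace Pool.Agent.H92.Tilt

open Polynomial

variable {Ω : Type*} [Field Ω] (p : ℕ) [Fact p.Prime] [CharP Ω p] [IsAlgClosed Ω]
variable {ι : Type*} [Fintype ι] [DecidableEq ι]

namespace C4

section Psum

omit [IsAlgClosed Ω] in
theorem psum_add {T : ι → Ω} (u v : (ι → Fin p) → Ω) :
    psum T u + psum T v = psum T (u + v) := by
  unfold psum
  rw [← Finset.sum_add_distrib]
  refine Finset.sum_congr rfl fun α _ => ?_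
  rw [Pi.add_apply, add_pow_char (R := Ω) (u α) (v α) p, add_mul]

omit [Fact p.Prime] [CharP Ω p] [IsAlgClosed Ω] in
theorem psum_smul {T : ι → Ω} (a : Ω) (u : (ι → Fin p) → Ω) :
    psum T (fun α => a * u α) = a ^ p * psum T u := by
  unfold psum
  rw [Finset.mul_sum]
  refine Finset.sum_congr rfl fun α _ => ?_
  rw [mul_pow, mul_assoc]

omit [CharP Ω p] [IsAlgClosed Ω] in
theorem psum_single {T : ι → Ω} (α : ι → Fin p) (x : Ω) :
    psum T (Pi.single α x) = x ^ p * mon T α := by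
  unfold psum
  rw [Finset.sum_eq_single α]
  · rw [Pi.single_eq_same]
  · intro β _ hβ
    rw [Pi.single_eq_of_ne hβ, zero_pow (Fact.out : p.Prime).ne_zero, zero_mul]
  · intro h
    exact absurd (Finset.mem_univ _) h

omit [CharP Ω p] [IsAlgClosed Ω] [DecidableEq ι] in
theorem mon_zero' (T : ι → Ω) : mon T (0 : ι → Fin p) = 1 := by
  unfold mon
  refine Finset.prod_eq_one fun i _ => ?_
  simp

/-- The component operator. -/
theorem exists_comp {F : Subfield Ω} {T : ι → Ω} (h : PB p F T) :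
    ∃ P : Ω → Ω, ∀ u : (ι → Fin p) → Ω, (∀ α, u α ∈ F) → P (psum T u) = u 0 := by
  classical
  refine ⟨fun x => if h' : ∃ u : (ι → Fin p) → Ω, (∀ α, u α ∈ F) ∧ x = psum T u then
    (h'.choose) 0 else 0, fun u hu => ?_⟩
  have h' : ∃ w : (ι → Fin p) → Ω, (∀ α, w α ∈ F) ∧ psum T u = psum T w := ⟨u, hu, rfl⟩
  show (if h' : ∃ w : (ι → Fin p) → Ω, (∀ α, w α ∈ F) ∧ psum T u = psum T w then
    (h'.choose) 0 else 0) = u 0
  rw [dif_pos h']
  obtain ⟨h1, h2⟩ := h'.choose_spec
  set w := h'.choose with hw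
  have h3 : psum T (u + fun α => (-1 : Ω) * w α) = 0 := by
    rw [← psum_add, psum_smul, ← h2]
    have h4 : (-1 : Ω) ^ p = -1 := by
      have := add_pow_char (R := Ω) 1 (-1) p
      rw [one_pow, add_neg_cancel, zero_pow (Fact.out : p.Prime).ne_zero] at this
      exact (neg_eq_of_add_eq_zero_right this.symm).symm
    rw [h4]
    ring
  have h5 := h.ind _ (fun α => ?_) h3 0
  · have h6 : u 0 + (-1) * w 0 = 0 := h5
    have : u 0 = w 0 := by linear_combination h6
    exact this.symm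
  · exact add_mem (hu α) (mul_mem (neg_mem (one_mem F)) (h1 α))

end Psum

section DD

variable (M : Subfield Ω) (T : ι → Ω)

/-- Values of polynomials of total degree at most `n`. -/
def DD (n : ℕ) : Submodule M Ω :=
  Submodule.span M {x | ∃ β : ι → ℕ, ∑ i, β i ≤ n ∧ x = ∏ i, T i ^ β i}

omit [IsAlgClosed Ω] [DecidableEq ι] in
theorem DD_mono {m n : ℕ} (h : m ≤ n) : DD M T m ≤ DD M T n := by
  refine Submodule.span_mono ?_
  rintro x ⟨β, h1, h2⟩
  exact ⟨β, h1.trans h, h2⟩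

omit [IsAlgClosed Ω] [DecidableEq ι] in
theorem DD_mon {n : ℕ} (β : ι → ℕ) (h : ∑ i, β i ≤ n) : ∏ i, T i ^ β i ∈ DD M T n :=
  Submodule.subset_span ⟨β, h, rfl⟩

omit [IsAlgClosed Ω] [DecidableEq ι] in
theorem DD_one (n : ℕ) : (1 : Ω) ∈ DD M T n := by
  have := DD_mon M T (n := n) 0 (by simp)
  simpa using this

omit [IsAlgClosed Ω] [DecidableEq ι] in
theorem DD_mul {m n : ℕ} {x y : Ω} (hx : x ∈ DD M T m) (hy : y ∈ DD M T n) :
    x * y ∈ DD M T (m + n) := by
  have h := Submodule.mul_mem_mul hx hy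
  unfold DD at h ⊢
  rw [Submodule.span_mul_span] at h
  refine Submodule.span_mono ?_ h
  rintro z ⟨a, ⟨β, h1, rfl⟩, b, ⟨γ, h2, rfl⟩, rfl⟩
  refine ⟨β + γ, ?_, ?_⟩
  · simp only [Pi.add_apply, Finset.sum_add_distrib]
    omega
  · simp only [Pi.add_apply, pow_add, Finset.prod_mul_distrib]

omit [IsAlgClosed Ω] [DecidableEq ι] in
theorem DD_aeval (q : MvPolynomial ι M) : MvPolynomial.aeval T q ∈ DD M T q.totalDegree := by
  rw [MvPolynomial.aeval_def, MvPolynomial.eval₂_eq']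
  refine Submodule.sum_mem _ fun β hβ => ?_
  have h : (algebraMap M Ω) (MvPolynomial.coeff β q) * ∏ i, T i ^ β i =
      (MvPolynomial.coeff β q) • ∏ i, T i ^ β i := by
    rw [Algebra.smul_def]
  rw [h]
  refine Submodule.smul_mem _ _ (DD_mon M T _ ?_)
  have := MvPolynomial.le_totalDegree hβ
  rwa [Finsupp.sum_fintype _ _ (fun _ => rfl)] at this

omit [IsAlgClosed Ω] in
theorem DD_fg (n : ℕ) : {x : Ω | ∃ β : ι → ℕ, ∑ i, β i ≤ n ∧ x = ∏ i, T i ^ β i}.Finite := by
  have h : (Set.Iic (fun _ : ι => n) : Set (ι → ℕ)).Finite := Set.finite_Iic _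
  refine (h.image (fun β => ∏ i, T i ^ β i)).subset ?_
  rintro x ⟨β, h1, rfl⟩
  refine ⟨β, ?_, rfl⟩
  intro i
  exact (Finset.single_le_sum (fun _ _ => Nat.zero_le _) (Finset.mem_univ i)).trans h1

omit [IsAlgClosed Ω] [DecidableEq ι] in
theorem DD_le {F : Subfield Ω} (hMF : M ≤ F) (hTF : ∀ i, T i ∈ F) {n : ℕ} {x : Ω}
    (hx : x ∈ DD M T n) : x ∈ F := by
  unfold DD at hx
  induction hx using Submodule.span_induction with
  | mem x h =>
    obtain ⟨β, _, rfl⟩ := h
    exact prod_mem fun i _ => pow_mem (hTF i) _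
  | zero => exact zero_mem F
  | add x y _ _ hx hy => exact add_mem hx hy
  | smul a x _ hx =>
    rw [Subfield.smul_def, smul_eq_mul]
    exact mul_mem (hMF a.2) hx

omit [IsAlgClosed Ω] in
/-- Common denominators. -/
theorem common_denom {J : Type*} [Fintype J] [DecidableEq J] (x : J → Ω)
    (hx : ∀ j, x j ∈ adj M (Set.range T)) :
    ∃ (Q : Ω) (n : ℕ), Q ≠ 0 ∧ Q ∈ DD M T n ∧ ∀ j, Q * x j ∈ DD M T n := by
  have h1 : ∀ j, ∃ (A B : Ω) (n : ℕ), A ∈ DD M T n ∧ B ∈ DD M T n ∧ B ≠ 0 ∧ x j = A / B := by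
    intro j
    have h := (mem_adjoin_iff M (Set.range T) (x j)).2 (hx j)
    rw [IntermediateField.mem_adjoin_range_iff] at h
    obtain ⟨r, s, hrs⟩ := h
    by_cases hs : MvPolynomial.aeval T s = 0
    · rw [hs, div_zero] at hrs
      exact ⟨0, 1, 0, zero_mem _, DD_one M T 0, one_ne_zero, by rw [hrs]; simp⟩
    · exact ⟨_, _, max r.totalDegree s.totalDegree,
        DD_mono M T (le_max_left _ _) (DD_aeval M T r),
        DD_mono M T (le_max_right _ _) (DD_aeval M T s), hs, hrs⟩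
  choose A B n hA hB hB0 hAB using h1
  have hprod : ∀ s : Finset J, ∏ j ∈ s, B j ∈ DD M T (∑ j ∈ s, n j) := by
    intro s
    induction s using Finset.induction_on with
    | empty => simpa using DD_one M T 0
    | insert a s ha ih =>
      rw [Finset.prod_insert ha, Finset.sum_insert ha]
      exact DD_mul M T (hB a) ih
  refine ⟨∏ j, B j, ∑ j, n j, Finset.prod_ne_zero_iff.2 fun j _ => hB0 j, hprod _, fun j => ?_⟩
  rw [← Finset.mul_prod_erase Finset.univ B (Finset.mem_univ j),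
    ← Finset.add_sum_erase Finset.univ n (Finset.mem_univ j), hAB j]
  have : B j * (∏ k ∈ Finset.univ.erase j, B k) * (A j / B j) =
      A j * ∏ k ∈ Finset.univ.erase j, B k := by
    field_simp [hB0 j]
  rw [this]
  exact DD_mul M T (hA j) (hprod _)

end DD

section Comp

variable {F M : Subfield Ω} {T : ι → Ω} {P : Ω → Ω}

omit [IsAlgClosed Ω] in
theorem P_mem (h : PB p F T)
    (hP : ∀ u : (ι → Fin p) → Ω, (∀ α, u α ∈ F) → P (psum T u) = u 0) {x : Ω} (hx : x ∈ F) :
    P x ∈ F := by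
  obtain ⟨u, hu, rfl⟩ := h.span x hx
  rw [hP u hu]
  exact hu 0

omit [IsAlgClosed Ω] in
theorem P_add (h : PB p F T)
    (hP : ∀ u : (ι → Fin p) → Ω, (∀ α, u α ∈ F) → P (psum T u) = u 0) {x y : Ω} (hx : x ∈ F)
    (hy : y ∈ F) : P (x + y) = P x + P y := by
  obtain ⟨u, hu, rfl⟩ := h.span x hx
  obtain ⟨v, hv, rfl⟩ := h.span y hy
  rw [psum_add, hP u hu, hP v hv, hP (u + v) fun α => add_mem (hu α) (hv α)]
  rfl

omit [IsAlgClosed Ω] in
theorem P_mul (h : PB p F T)
    (hP : ∀ u : (ι → Fin p) → Ω, (∀ α, u α ∈ F) → P (psum T u) = u 0) {a x : Ω} (ha : a ∈ F)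
    (hx : x ∈ F) : P (a ^ p * x) = a * P x := by
  obtain ⟨u, hu, rfl⟩ := h.span x hx
  rw [← psum_smul, hP u hu, hP _ fun α => mul_mem ha (hu α)]

omit [CharP Ω p] [IsAlgClosed Ω] in
theorem P_pow (hP : ∀ u : (ι → Fin p) → Ω, (∀ α, u α ∈ F) → P (psum T u) = u 0) {a : Ω}
    (ha : a ∈ F) : P (a ^ p) = a := by
  have h1 : psum T (Pi.single (0 : ι → Fin p) a) = a ^ p := by
    rw [psum_single, mon_zero', mul_one]
  rw [← h1, hP]
  · rw [Pi.single_eq_same]
  · intro α
    by_cases h : α = 0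
    · rw [h, Pi.single_eq_same]
      exact ha
    · rw [Pi.single_eq_of_ne h]
      exact zero_mem F

omit [CharP Ω p] [IsAlgClosed Ω] in
theorem P_zero (hP : ∀ u : (ι → Fin p) → Ω, (∀ α, u α ∈ F) → P (psum T u) = u 0) : P 0 = 0 := by
  have := P_pow p (F := F) hP (zero_mem F)
  rwa [zero_pow (Fact.out : p.Prime).ne_zero] at this

omit [CharP Ω p] [IsAlgClosed Ω] in
/-- `P` of a monomial is a monomial of smaller degree or zero. -/
theorem P_mon (hP : ∀ u : (ι → Fin p) → Ω, (∀ α, u α ∈ F) → P (psum T u) = u 0)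
    (hTF : ∀ i, T i ∈ F) (β : ι → ℕ) {n : ℕ} (hβ : ∑ i, β i ≤ n) :
    P (∏ i, T i ^ β i) ∈ DD M T (n / p) := by
  have hp : 0 < p := (Fact.out : p.Prime).pos
  set α : ι → Fin p := fun i => ⟨β i % p, Nat.mod_lt _ hp⟩ with hα
  set γ : Ω := ∏ i, T i ^ (β i / p) with hγ
  have hγF : γ ∈ F := prod_mem fun i _ => pow_mem (hTF i) _
  have h1 : ∏ i, T i ^ β i = psum T (Pi.single α γ) := by
    rw [psum_single, hγ, ← Finset.prod_pow]
    unfold mon
    rw [← Finset.prod_mul_distrib]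
    refine Finset.prod_congr rfl fun i _ => ?_
    rw [← pow_mul, ← pow_add]
    congr 1
    show β i = β i / p * p + β i % p
    rw [Nat.div_add_mod']
  rw [h1, hP]
  · by_cases h : (0 : ι → Fin p) = α
    · rw [h, Pi.single_eq_same]
      refine DD_mon M T _ ?_
      rw [Nat.le_div_iff_mul_le hp, Finset.sum_mul]
      refine le_trans (Finset.sum_le_sum fun i _ => Nat.div_mul_le_self _ _) hβ
    · rw [Pi.single_eq_of_ne h]
      exact zero_mem _
  · intro α'
    by_cases h : α' = α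
    · rw [h, Pi.single_eq_same]
      exact hγF
    · rw [Pi.single_eq_of_ne h]
      exact zero_mem F

omit [IsAlgClosed Ω] in
/-- `P` on a span. -/
theorem P_span (h : PB p F T)
    (hP : ∀ u : (ι → Fin p) → Ω, (∀ α, u α ∈ F) → P (psum T u) = u 0) (hMF : M ≤ F)
    (hMp : ∀ c ∈ M, ∃ c' ∈ M, c' ^ p = c) (S : Set Ω) (hS : ∀ x ∈ S, x ∈ F)
    (V : Submodule M Ω) (hV : ∀ x ∈ S, P x ∈ V) {x : Ω} (hx : x ∈ Submodule.span M S) :
    x ∈ F ∧ P x ∈ V := by
  induction hx using Submodule.span_induction with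
  | mem x h => exact ⟨hS x h, hV x h⟩
  | zero =>
    refine ⟨zero_mem F, ?_⟩
    rw [P_zero p hP]
    exact zero_mem V
  | add x y _ _ hx hy =>
    refine ⟨add_mem hx.1 hy.1, ?_⟩
    rw [P_add p h hP hx.1 hy.1]
    exact add_mem hx.2 hy.2
  | smul a x _ hx =>
    obtain ⟨c, hc, hca⟩ := hMp a a.2
    refine ⟨?_, ?_⟩
    · rw [Subfield.smul_def, smul_eq_mul]
      exact mul_mem (hMF a.2) hx.1
    · rw [Subfield.smul_def, smul_eq_mul, ← hca, P_mul p h hP (hMF hc) hx.1]
      exact V.smul_mem (⟨c, hc⟩ : M) hx.2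

omit [IsAlgClosed Ω] in
theorem P_DD (h : PB p F T)
    (hP : ∀ u : (ι → Fin p) → Ω, (∀ α, u α ∈ F) → P (psum T u) = u 0) (hMF : M ≤ F)
    (hTF : ∀ i, T i ∈ F) (hMp : ∀ c ∈ M, ∃ c' ∈ M, c' ^ p = c) {n : ℕ} {x : Ω}
    (hx : x ∈ DD M T n) : P x ∈ DD M T (n / p) := by
  refine (P_span p h hP hMF hMp _ ?_ _ ?_ hx).2
  · rintro x ⟨β, _, rfl⟩
    exact prod_mem fun i _ => pow_mem (hTF i) _
  · rintro x ⟨β, hβ, rfl⟩
    exact P_mon p hP hTF β hβ

omit [IsAlgClosed Ω] in
theorem P_sum (h : PB p F T)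
    (hP : ∀ u : (ι → Fin p) → Ω, (∀ α, u α ∈ F) → P (psum T u) = u 0) {J : Type*}
    (s : Finset J) (a b : J → Ω) (ha : ∀ j, a j ∈ F) (hb : ∀ j, b j ∈ F) :
    P (∑ j ∈ s, a j ^ p * b j) = ∑ j ∈ s, a j * P (b j) := by
  classical
  induction s using Finset.induction_on with
  | empty => simpa using P_zero p hP
  | insert j s hj ih =>
    rw [Finset.sum_insert hj, Finset.sum_insert hj, P_add p h hP
      (mul_mem (pow_mem (ha j) _) (hb j)) (sum_mem fun k _ => mul_mem (pow_mem (ha k) _) (hb k)),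
      P_mul p h hP (ha j) (hb j), ih]

end Comp

/-- Elements `e_l` with `f` and every `e_l` in the span of the `e_l ^ p`. -/
theorem exists_gens {K : Subfield Ω} {f : Ω} (hf : IsSeparable K f) :
    ∃ (N : ℕ) (s : Fin N → Ω) (r : Fin N → Fin N → Ω), (∀ l, s l ∈ K) ∧ (∀ l m, r l m ∈ K) ∧
      f = ∑ l, s l * (f ^ (l : ℕ)) ^ p ∧
      ∀ l : Fin N, f ^ (l : ℕ) = ∑ m, r l m * (f ^ (m : ℕ)) ^ p := by
  have : CharP K p := RingHom.charP (algebraMap K Ω) (algebraMap K Ω).injective p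
  have : ExpChar K p := ExpChar.prime (Fact.out : p.Prime)
  have h1 := IntermediateField.adjoin_simple_eq_adjoin_pow_expChar_of_isSeparable K Ω hf p
  have hfi : IsIntegral K f := hf.isIntegral
  have hfpi : IsIntegral K (f ^ p) := hfi.pow p
  set N := (minpoly K (f ^ p)).natDegree with hN
  have hNpos : 0 < N := minpoly.natDegree_pos hfpi
  have key : ∀ j : ℕ, ∃ c : Fin N → Ω, (∀ l, c l ∈ K) ∧ f ^ j = ∑ l, c l * (f ^ (l : ℕ)) ^ p := by
    intro j
    have h2 : f ^ j ∈ IntermediateField.adjoin K {f ^ p} := by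
      rw [← h1]
      exact pow_mem (IntermediateField.mem_adjoin_simple_self K f) j
    have h3 : f ^ j ∈ (IntermediateField.adjoin K {f ^ p}).toSubalgebra := h2
    rw [IntermediateField.adjoin_simple_toSubalgebra_of_isAlgebraic hfpi.isAlgebraic,
      Algebra.adjoin_singleton_eq_range_aeval] at h3
    obtain ⟨q, hq⟩ := h3
    have hq' : aeval (f ^ p) q = f ^ j := hq
    set q' := q %ₘ minpoly K (f ^ p) with hq'd
    have hm := minpoly.monic hfpi
    have h4 : aeval (f ^ p) q' = f ^ j := by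
      have h5 := Polynomial.modByMonic_add_div q (minpoly K (f ^ p))
      have h6 : aeval (f ^ p) (q %ₘ minpoly K (f ^ p) +
          minpoly K (f ^ p) * (q /ₘ minpoly K (f ^ p))) = aeval (f ^ p) q := by rw [h5]
      rw [map_add, map_mul, minpoly.aeval, zero_mul, add_zero, hq'] at h6
      exact h6
    have h5 : q'.natDegree < N :=
      Polynomial.natDegree_modByMonic_lt q hm (by
        intro h
        rw [h, Polynomial.natDegree_one] at hN
        omega)
    rw [Polynomial.aeval_eq_sum_range' h5] at h4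
    refine ⟨fun l => (q'.coeff l : Ω), fun l => (q'.coeff l).2, ?_⟩
    rw [← h4, Finset.sum_range]
    refine Finset.sum_congr rfl fun l _ => ?_
    rw [Subfield.smul_def, smul_eq_mul, ← pow_mul, ← pow_mul, mul_comm p]
  choose c hc1 hc2 using key
  refine ⟨N, c 1, fun l => c l, hc1 1, fun l m => hc1 l m, ?_, fun l => hc2 l⟩
  have := hc2 1
  rwa [pow_one] at this

/-- A finite dimensional stable space. -/
theorem exists_stable {F M : Subfield Ω} {T : ι → Ω} {P : Ω → Ω} (h : PB p F T)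
    (hP : ∀ u : (ι → Fin p) → Ω, (∀ α, u α ∈ F) → P (psum T u) = u 0) (hMF : M ≤ F)
    (hTF : ∀ i, T i ∈ F) (hMp : ∀ c ∈ M, ∃ c' ∈ M, c' ^ p = c)
    (hs : ∀ x ∈ F, IsSeparable (adj M (Set.range T)) x) {f : Ω} (hf : f ∈ F) :
    ∃ V : Submodule M Ω, V.FG ∧ (∀ x ∈ V, x ∈ F) ∧ P f ∈ V ∧ ∀ x ∈ V, P x ∈ V := by
  classical
  have hp2 : 2 ≤ p := (Fact.out : p.Prime).two_le
  obtain ⟨N, s, r, hsK, hrK, hfs, her⟩ := exists_gens p (hs f hf)
  obtain ⟨Q, n0, hQ0, hQ, hQx⟩ := common_denom M T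
    (fun j : Fin N ⊕ (Fin N × Fin N) => Sum.elim s (fun j => r j.1 j.2) j) (by
      rintro (l | ⟨l, m⟩)
      · exact hsK l
      · exact hrK l m)
  have hQs : ∀ l, Q * s l ∈ DD M T n0 := fun l => hQx (Sum.inl l)
  have hQr : ∀ l m, Q * r l m ∈ DD M T n0 := fun l m => hQx (Sum.inr (l, m))
  have hQpow : ∀ k : ℕ, Q ^ k ∈ DD M T (k * n0) := by
    intro k
    induction k with
    | zero => simpa using DD_one M T 0
    | succ k ih =>
      rw [pow_succ, add_mul, one_mul]
      exact DD_mul M T ih hQ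
  have hQF : Q ∈ F := DD_le M T hMF hTF hQ
  -- the degree bound
  set d : ℕ := p * n0 with hd
  set e : Fin N → Ω := fun l => f ^ (l : ℕ) with he
  have heF : ∀ l, e l ∈ F := fun l => pow_mem hf _
  have heQF : ∀ l, e l / Q ∈ F := fun l => div_mem (heF l) hQF
  set S : Set Ω := {x | ∃ (l : Fin N) (y : Ω),
    (∃ β : ι → ℕ, ∑ i, β i ≤ d ∧ y = ∏ i, T i ^ β i) ∧ x = (e l / Q) * y} with hS
  set V : Submodule M Ω := Submodule.span M S with hV
  have hSF : ∀ x ∈ S, x ∈ F := by
    rintro x ⟨l, y, ⟨β, _, rfl⟩, rfl⟩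
    exact mul_mem (heQF l) (prod_mem fun i _ => pow_mem (hTF i) _)
  have hVF : ∀ x ∈ V, x ∈ F := by
    intro x hx
    induction hx using Submodule.span_induction with
    | mem x h => exact hSF x h
    | zero => exact zero_mem F
    | add x y _ _ hx hy => exact add_mem hx hy
    | smul a x _ hx =>
      rw [Subfield.smul_def, smul_eq_mul]
      exact mul_mem (hMF a.2) hx
  have hVD : ∀ (l : Fin N) (y : Ω), y ∈ DD M T d → (e l / Q) * y ∈ V := by
    intro l y hy
    unfold DD at hy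
    induction hy using Submodule.span_induction with
    | mem x h =>
      obtain ⟨β, h1, rfl⟩ := h
      exact Submodule.subset_span ⟨l, _, ⟨β, h1, rfl⟩, rfl⟩
    | zero =>
      rw [mul_zero]
      exact zero_mem V
    | add x y _ _ hx hy =>
      rw [mul_add]
      exact add_mem hx hy
    | smul a x _ hx =>
      rw [mul_smul_comm]
      exact V.smul_mem a hx
  have hDF : ∀ {n : ℕ} {x : Ω}, x ∈ DD M T n → x ∈ F := fun hx => DD_le M T hMF hTF hx
  refine ⟨V, ?_, hVF, ?_, ?_⟩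
  · -- finitely generated
    have hfin : S.Finite := by
      have h1 := DD_fg T d
      have h2 : (Set.univ ×ˢ {x : Ω | ∃ β : ι → ℕ, ∑ i, β i ≤ d ∧ x = ∏ i, T i ^ β i} :
          Set (Fin N × Ω)).Finite := Set.finite_univ.prod h1
      refine (h2.image (fun j => (e j.1 / Q) * j.2)).subset ?_
      rintro x ⟨l, y, hy, rfl⟩
      exact ⟨(l, y), ⟨Set.mem_univ _, hy⟩, rfl⟩
    exact Submodule.fg_span hfin
  · -- `P f ∈ V`
    have h1 : f = ∑ l, (e l / Q) ^ p * (Q ^ (p - 1) * (Q * s l)) := by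
      conv_lhs => rw [hfs]
      refine Finset.sum_congr rfl fun l _ => ?_
      have h2 : Q ^ p = Q ^ (p - 1) * Q := by
        rw [← pow_succ]
        congr 1
        omega
      rw [div_pow, h2]
      field_simp
      rfl
    rw [h1, P_sum p h hP _ _ _ heQF fun l => mul_mem (pow_mem hQF _) (hDF (hQs l))]
    refine Submodule.sum_mem _ fun l _ => hVD l _ ?_
    have h2 : Q ^ (p - 1) * (Q * s l) ∈ DD M T ((p - 1) * n0 + n0) :=
      DD_mul M T (hQpow _) (hQs l)
    have h3 := P_DD p h hP hMF hTF hMp h2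
    refine DD_mono M T ?_ h3
    have h4 : (p - 1) * n0 + n0 = p * n0 := by
      rw [← Nat.succ_mul]
      congr 1
      omega
    rw [h4, hd]
    exact Nat.div_le_self _ _
  · intro x hx
    refine (P_span p h hP hMF hMp S hSF V ?_ hx).2
    rintro x ⟨l, y, ⟨β, hβ, rfl⟩, rfl⟩
    set y : Ω := ∏ i, T i ^ β i with hy
    have hyD : y ∈ DD M T d := DD_mon M T β hβ
    have h1 : (e l / Q) * y = ∑ m, (e m / Q) ^ p * (Q ^ (p - 2) * (Q * r l m) * y) := by
      have h2 : e l = ∑ m, r l m * (e m) ^ p := her l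
      rw [h2, Finset.sum_div, Finset.sum_mul]
      refine Finset.sum_congr rfl fun m _ => ?_
      have h2 : Q ^ p = Q ^ (p - 2) * Q * Q := by
        rw [← pow_succ, ← pow_succ]
        congr 1
        omega
      rw [div_pow, h2]
      field_simp
    rw [h1, P_sum p h hP _ _ _ heQF fun m =>
      mul_mem (mul_mem (pow_mem hQF _) (hDF (hQr l m))) (hDF hyD)]
    refine Submodule.sum_mem _ fun m _ => hVD m _ ?_
    have h2 : Q ^ (p - 2) * (Q * r l m) * y ∈ DD M T ((p - 2) * n0 + n0 + d) :=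
      DD_mul M T (DD_mul M T (hQpow _) (hQr l m)) hyD
    have h3 := P_DD p h hP hMF hTF hMp h2
    refine DD_mono M T ?_ h3
    have h4 : (p - 2) * n0 + n0 ≤ d := by
      rw [← Nat.succ_mul, hd]
      refine Nat.mul_le_mul_right _ ?_
      omega
    refine Nat.div_le_of_le_mul ?_
    nlinarith

/-- The equation `g - P g = v` in a stable space. -/
theorem exists_solution {F M : Subfield Ω} {T : ι → Ω} {P : Ω → Ω} (h : PB p F T)
    (hP : ∀ u : (ι → Fin p) → Ω, (∀ α, u α ∈ F) → P (psum T u) = u 0) (hMF : M ≤ F)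
    (hM : ∀ x, IsAlgebraic M x → x ∈ M) (V : Submodule M Ω) (hV : V.FG)
    (hVF : ∀ x ∈ V, x ∈ F) (hPV : ∀ x ∈ V, P x ∈ V) {v : Ω} (hv : v ∈ V) :
    ∃ g ∈ F, g - P g = v := by
  classical
  have hp1 : 1 < p := (Fact.out : p.Prime).one_lt
  -- the iterates
  set w : ℕ → Ω := fun i => P^[i] v with hw
  have hw0 : w 0 = v := rfl
  have hws : ∀ i, w (i + 1) = P (w i) := fun i => Function.iterate_succ_apply' P i v
  have hwV : ∀ i, w i ∈ V := by
    intro i
    induction i with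
    | zero => exact hv
    | succ i ih =>
      rw [hws]
      exact hPV _ ih
  have hwF : ∀ i, w i ∈ F := fun i => hVF _ (hwV i)
  -- a linear relation
  have hrel : ∃ m : ℕ, w m ∈ Submodule.span M (w '' Set.Iio m) := by
    have : Module.Finite M V := Module.Finite.iff_fg.2 hV
    let G : ℕ →o Submodule M V :=
      ⟨fun n => Submodule.span M ((fun i => (⟨w i, hwV i⟩ : V)) '' Set.Iio n),
        fun a b hab => Submodule.span_mono (Set.image_mono (Set.Iio_subset_Iio hab))⟩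
    obtain ⟨n, hn⟩ := monotone_stabilizes_iff_noetherian.2 (inferInstance : IsNoetherian M V) G
    have h1 : (⟨w n, hwV n⟩ : V) ∈ G (n + 1) :=
      Submodule.subset_span ⟨n, Nat.lt_succ_self n, rfl⟩
    rw [← hn (n + 1) (Nat.le_succ n)] at h1
    have h2 := Submodule.mem_map_of_mem (f := V.subtype) h1
    refine ⟨n, ?_⟩
    have h3 : Submodule.map V.subtype (G n) = Submodule.span M (w '' Set.Iio n) := by
      show Submodule.map V.subtype
        (Submodule.span M ((fun i => (⟨w i, hwV i⟩ : V)) '' Set.Iio n)) = _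
      rw [Submodule.map_span, ← Set.image_comp]
      rfl
    rw [h3] at h2
    exact h2
  obtain ⟨m, hm⟩ := hrel
  have hcoef : ∃ c : ℕ → Ω, (∀ i, c i ∈ M) ∧ w m = ∑ i ∈ Finset.range m, c i * w i := by
    have h1 : (w '' Set.Iio m) = (w '' (Finset.range m : Set ℕ)) := by
      congr 1
      ext i
      simp
    rw [h1, Submodule.mem_span_image_finset_iff_exists_fun] at hm
    obtain ⟨c, hc⟩ := hm
    refine ⟨fun i => if h : i ∈ Finset.range m then (c ⟨i, h⟩ : Ω) else 0, ?_, ?_⟩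
    · intro i
      dsimp only
      split_ifs with h
      · exact (c ⟨i, h⟩).2
      · exact zero_mem M
    · rw [← hc, ← Finset.sum_coe_sort (Finset.range m)
        (fun i => (if h : i ∈ Finset.range m then (c ⟨i, h⟩ : Ω) else 0) * w i)]
      refine Finset.sum_congr rfl fun i _ => ?_
      rw [dif_pos i.2, Subfield.smul_def, smul_eq_mul]
  obtain ⟨c, hc, hcm⟩ := hcoef
  rcases Nat.eq_zero_or_pos m with hm0 | hmpos
  · refine ⟨0, zero_mem F, ?_⟩
    subst hm0
    rw [Finset.range_zero, Finset.sum_empty, hw0] at hcm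
    rw [P_zero p hP, hcm, sub_zero]
  · -- the equation for `s`
    have hs : ∃ s : Ω, s ∈ M ∧ s ^ p ^ m = 1 + ∑ i ∈ Finset.range m, (s * c i) ^ p ^ i := by
      set r : Polynomial M := 1 + ∑ i ∈ Finset.range m,
        Polynomial.C ((⟨c i, hc i⟩ : M) ^ p ^ i) * Polynomial.X ^ (p ^ i) with hr
      have hrdeg : r.degree < ((p ^ m : ℕ) : WithBot ℕ) := by
        rw [← Polynomial.mem_degreeLT, hr]
        refine add_mem ?_ (sum_mem fun i hi => ?_)
        · rw [Polynomial.mem_degreeLT]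
          refine lt_of_le_of_lt Polynomial.degree_one_le ?_
          exact_mod_cast pow_pos (by omega) m
        · rw [Polynomial.mem_degreeLT]
          refine lt_of_le_of_lt (Polynomial.degree_C_mul_X_pow_le _ _) ?_
          have := Nat.pow_lt_pow_right hp1 (Finset.mem_range.1 hi)
          exact_mod_cast this
      have hdeg : (Polynomial.X ^ (p ^ m) - r).degree = ((p ^ m : ℕ) : WithBot ℕ) := by
        rw [Polynomial.degree_sub_eq_left_of_degree_lt (by rwa [Polynomial.degree_X_pow]),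
          Polynomial.degree_X_pow]
      have hdeg0 : (Polynomial.X ^ (p ^ m) - r).degree ≠ 0 := by
        rw [hdeg]
        have : p ^ m ≠ 0 := pow_ne_zero _ (by omega)
        exact_mod_cast this
      obtain ⟨s, hs⟩ := IsAlgClosed.exists_aeval_eq_zero Ω _ hdeg0
      refine ⟨s, hM s ⟨_, ?_, hs⟩, ?_⟩
      · intro h
        rw [h, Polynomial.degree_zero] at hdeg
        exact WithBot.natCast_ne_bot (p ^ m) hdeg.symm
      · rw [map_sub, hr, map_add, map_one, map_sum, map_pow, Polynomial.aeval_X,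
          sub_eq_zero] at hs
        rw [hs]
        congr 1
        refine Finset.sum_congr rfl fun i _ => ?_
        rw [map_mul, Polynomial.aeval_C, map_pow, map_pow, Polynomial.aeval_X, mul_pow, mul_comm]
        rfl
    obtain ⟨s, hsM, hs⟩ := hs
    -- the coefficients
    have hpow : ∀ (k : ℕ) (z : Ω), ∃ y : Ω, y ^ p ^ k = z := by
      intro k z
      exact IsAlgClosed.exists_pow_nat_eq z (pow_pos (by omega) k)
    choose rt hrt using hpow
    set x : ℕ → Ω := fun i => rt i (1 + ∑ j ∈ Finset.range (i + 1), (s * c j) ^ p ^ j) with hx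
    have hxp : ∀ i, x i ^ p ^ i = 1 + ∑ j ∈ Finset.range (i + 1), (s * c j) ^ p ^ j :=
      fun i => hrt i _
    have hinj : ∀ (k : ℕ) (y z : Ω), y ^ p ^ k = z ^ p ^ k → y = z := by
      intro k y z h
      have h1 : (y - z) ^ p ^ k = 0 := by
        rw [sub_pow_char_pow, h, sub_self]
      exact sub_eq_zero.1 (pow_eq_zero_iff (pow_ne_zero _ (by omega)) |>.1 h1)
    have hxM : ∀ i, x i ∈ M := by
      intro i
      refine hM _ (IsAlgebraic.of_pow (pow_pos (by omega : 0 < p) i) ?_)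
      rw [hxp]
      have : (1 + ∑ j ∈ Finset.range (i + 1), (s * c j) ^ p ^ j) ∈ M :=
        add_mem (one_mem M) (sum_mem fun j _ => pow_mem (mul_mem hsM (hc j)) _)
      exact isAlgebraic_of_mem this
    have hx0 : x 0 = 1 + s * c 0 := by
      have := hxp 0
      simpa using this
    have hxs : ∀ i, x (i + 1) ^ p = x i + (s * c (i + 1)) ^ p := by
      intro i
      apply hinj i
      rw [add_pow_char_pow, hxp i, ← pow_mul, ← pow_mul, ← pow_succ', hxp (i + 1),
        Finset.sum_range_succ _ (i + 1), add_assoc]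
    obtain ⟨k, rfl⟩ : ∃ k, m = k + 1 := ⟨m - 1, by omega⟩
    have hxm : x k = s ^ p := by
      apply hinj k
      rw [hxp, ← pow_mul, ← pow_succ', hs]
    set y : ℕ → Ω := fun i => if i < k then x (i + 1) - s * c (i + 1) else s with hy
    have hyM : ∀ i, y i ∈ M := by
      intro i
      rw [hy]
      dsimp only
      split_ifs
      · exact sub_mem (hxM _) (mul_mem hsM (hc _))
      · exact hsM
    have hyp : ∀ i, i ≤ k → y i ^ p = x i := by
      intro i hi
      rw [hy]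
      dsimp only
      split_ifs with h
      · rw [sub_pow_char, hxs]
        ring
      · have : i = k := by omega
        rw [this, hxm]
    have hPg : P (∑ i ∈ Finset.range (k + 1), x i * w i) =
        ∑ i ∈ Finset.range (k + 1), y i * w (i + 1) := by
      have h1 : ∑ i ∈ Finset.range (k + 1), x i * w i =
          ∑ i ∈ Finset.range (k + 1), y i ^ p * w i := by
        refine Finset.sum_congr rfl fun i hi => ?_
        rw [hyp i (by have := Finset.mem_range.1 hi; omega)]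
      rw [h1, P_sum p h hP _ _ _ (fun i => hMF (hyM i)) hwF]
      exact Finset.sum_congr rfl fun i _ => by rw [hws]
    refine ⟨∑ i ∈ Finset.range (k + 1), x i * w i,
      sum_mem fun i _ => mul_mem (hMF (hxM i)) (hwF i), ?_⟩
    rw [hPg, Finset.sum_range_succ (fun i => y i * w (i + 1)), hcm]
    have hyk : y k = s := by
      rw [hy]
      simp
    have h2 : ∑ i ∈ Finset.range k, y i * w (i + 1) =
        ∑ i ∈ Finset.range k, x (i + 1) * w (i + 1) -
          s * ∑ i ∈ Finset.range k, c (i + 1) * w (i + 1) := by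
      rw [Finset.mul_sum, ← Finset.sum_sub_distrib]
      refine Finset.sum_congr rfl fun i hi => ?_
      rw [hy]
      dsimp only
      rw [if_pos (Finset.mem_range.1 hi)]
      ring
    rw [h2, hyk, Finset.sum_range_succ' (fun i => x i * w i),
      Finset.sum_range_succ' (fun i => c i * w i), hx0, hw0]
    ring

end C4

theorem exact_as {F M : Subfield Ω} {T : ι → Ω} (hM : ∀ x, IsAlgebraic M x → x ∈ M)
    (hT : AlgebraicIndependent M T) (hMF : M ≤ F) (hTF : ∀ i, T i ∈ F)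
    (hs : ∀ x ∈ F, IsSeparable (adj M (Set.range T)) x) {f : Ω} (hf : f ∈ F) :
    ∃ g ∈ F, ∃ u : (ι → Fin p) → Ω, (∀ α, u α ∈ F) ∧ u 0 = 0 ∧ f + g - g ^ p = psum T u := by
  have hp : 0 < p := (Fact.out : p.Prime).pos
  have hroot : ∀ x : Ω, x ^ p ∈ M → x ∈ M := fun x hx =>
    hM x (IsAlgebraic.of_pow hp (isAlgebraic_of_mem hx))
  have h : PB p F T := by
    refine pb_sep p (pb_rational p hroot hT) (adj_le hMF ?_) hs
    rintro x ⟨i, rfl⟩
    exact hTF i
  have hMp : ∀ c ∈ M, ∃ c' ∈ M, c' ^ p = c := by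
    intro c hc
    obtain ⟨z, hz⟩ := IsAlgClosed.exists_pow_nat_eq c hp
    exact ⟨z, hroot z (by rwa [hz]), hz⟩
  obtain ⟨P, hP⟩ := C4.exists_comp p h
  obtain ⟨V, hVfg, hVF, hfV, hPV⟩ := C4.exists_stable p h hP hMF hTF hMp hs hf
  obtain ⟨g, hg, hgP⟩ := C4.exists_solution p h hP hMF hM V hVfg hVF hPV hfV
  have h1 : f + g - g ^ p ∈ F := sub_mem (add_mem hf hg) (pow_mem hg _)
  obtain ⟨u, hu, hfu⟩ := h.span _ h1
  refine ⟨g, hg, u, hu, ?_, hfu⟩
  have h2 : P (f + g - g ^ p) = u 0 := by rw [hfu, hP u hu]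
  have h3 : P (f + g - g ^ p + g ^ p) = P (f + g - g ^ p) + P (g ^ p) :=
    C4.P_add p h hP h1 (pow_mem hg _)
  rw [sub_add_cancel, C4.P_add p h hP hf hg, C4.P_pow p (F := F) hP hg] at h3
  rw [← h2]
  linear_combination -h3 - hgP

end Pool.Agent.H92.Tilt
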