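import Pool.Agent.H92.Tilt.B6

/-!
Module RES: residue fields of a coarser valuation ring `O'`.
`rs O' x` is the residue of `x` (zero outside `O'`), `resO` the image of a finer valuation ring `O`,
`resL` the image of a subfield. Proofs: see helper92's paper, E1 (details below each statement).
-/

set_option autoImplicit false

namespace Pool.Agent.H92.Tilt

open Polynomial

variable {Ω : Type*} [Field Ω]

/-- The residue field. -/
abbrev kap (O' : ValuationSubring Ω) : Type _ := IsLocalRing.ResidueField O'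

open Classical in
/-- Residue map, zero outside `O'`. -/
noncomputable def rs (O' : ValuationSubring Ω) (x : Ω) : kap O' :=
  if h : x ∈ O' then IsLocalRing.residue O' ⟨x, h⟩ else 0

variable (O' : ValuationSubring Ω)

theorem rs_of_mem {x : Ω} (hx : x ∈ O') : rs O' x = IsLocalRing.residue O' ⟨x, hx⟩ := dif_pos hx

theorem rs_zero : rs O' 0 = 0 := by
  rw [rs_of_mem O' O'.zero_mem]
  exact map_zero (IsLocalRing.residue O')

theorem rs_one : rs O' 1 = 1 := by
  rw [rs_of_mem O' O'.one_mem]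
  exact map_one (IsLocalRing.residue O')

theorem rs_add {x y : Ω} (hx : x ∈ O') (hy : y ∈ O') : rs O' (x + y) = rs O' x + rs O' y := by
  rw [rs_of_mem O' hx, rs_of_mem O' hy, rs_of_mem O' (O'.add_mem _ _ hx hy), ← map_add]
  rfl

theorem rs_mul {x y : Ω} (hx : x ∈ O') (hy : y ∈ O') : rs O' (x * y) = rs O' x * rs O' y := by
  rw [rs_of_mem O' hx, rs_of_mem O' hy, rs_of_mem O' (O'.mul_mem _ _ hx hy), ← map_mul]
  rfl

theorem rs_neg {x : Ω} (hx : x ∈ O') : rs O' (-x) = - rs O' x := by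
  rw [rs_of_mem O' hx, rs_of_mem O' (O'.neg_mem _ hx), ← map_neg]
  rfl

theorem rs_sub {x y : Ω} (hx : x ∈ O') (hy : y ∈ O') : rs O' (x - y) = rs O' x - rs O' y := by
  rw [sub_eq_add_neg, rs_add O' hx (O'.neg_mem _ hy), rs_neg O' hy, sub_eq_add_neg]

theorem rs_eq_zero {x : Ω} (hx : x ∈ O') : rs O' x = 0 ↔ O'.valuation x < 1 := by
  rw [rs_of_mem O' hx, IsLocalRing.residue_eq_zero_iff, O'.valuation_lt_one_iff]

theorem rs_surj (y : kap O') : ∃ x ∈ O', rs O' x = y := by
  obtain ⟨x, rfl⟩ := IsLocalRing.residue_surjective y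
  exact ⟨x, x.2, rs_of_mem O' x.2⟩

theorem rs_eq_iff {x y : Ω} (hx : x ∈ O') (hy : y ∈ O') :
    rs O' x = rs O' y ↔ O'.valuation (x - y) < 1 := by
  rw [← rs_eq_zero O' (O'.sub_mem hx hy), rs_sub O' hx hy, sub_eq_zero]

theorem rs_pow {x : Ω} (hx : x ∈ O') (n : ℕ) : rs O' (x ^ n) = rs O' x ^ n := by
  induction n with
  | zero => rw [pow_zero, pow_zero, rs_one]
  | succ n ih => rw [pow_succ, pow_succ, rs_mul O' (pow_mem hx n) hx, ih]

theorem rs_sum {ι : Type*} (s : Finset ι) (f : ι → Ω) (hf : ∀ i ∈ s, f i ∈ O') :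
    rs O' (∑ i ∈ s, f i) = ∑ i ∈ s, rs O' (f i) := by
  classical
  induction s using Finset.induction_on with
  | empty => simp [rs_zero]
  | insert a s ha ih =>
    rw [Finset.sum_insert ha, Finset.sum_insert ha, rs_add O' (hf a (Finset.mem_insert_self a s))
      (sum_mem fun i hi => hf i (Finset.mem_insert_of_mem hi)),
      ih fun i hi => hf i (Finset.mem_insert_of_mem hi)]

/-- Inverse of a unit of `O'`. -/
theorem rs_inv {x : Ω} (hx : x ∈ O') (h0 : rs O' x ≠ 0) :
    x⁻¹ ∈ O' ∧ rs O' x⁻¹ = (rs O' x)⁻¹ := by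
  have h1 : ¬ O'.valuation x < 1 := fun h => h0 ((rs_eq_zero O' hx).2 h)
  have hx1 : O'.valuation x = 1 := le_antisymm ((O'.valuation_le_one_iff x).2 hx) (not_lt.1 h1)
  have hx0 : x ≠ 0 := by
    rintro rfl
    simp at hx1
  have hi : x⁻¹ ∈ O' := by
    rw [← O'.valuation_le_one_iff, map_inv₀, hx1, inv_one]
  refine ⟨hi, ?_⟩
  apply eq_inv_of_mul_eq_one_left
  rw [← rs_mul O' hi hx, inv_mul_cancel₀ hx0, rs_one]

theorem rs_ne_zero_iff {x : Ω} (hx : x ∈ O') : rs O' x ≠ 0 ↔ O'.valuation x = 1 := by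
  rw [Ne, rs_eq_zero O' hx, not_lt]
  exact ⟨fun h => le_antisymm ((O'.valuation_le_one_iff x).2 hx) h, fun h => h.ge⟩

variable {O'} in
theorem val_lt_one_iff_inv {y : Ω} (O : ValuationSubring Ω) (h0 : y ≠ 0) :
    O.valuation y < 1 ↔ y⁻¹ ∉ O := by
  rw [← O.valuation_le_one_iff, map_inv₀, not_le]
  have h1 : O.valuation y ≠ 0 := (O.valuation.ne_zero_iff).2 h0
  rw [one_lt_inv₀ (zero_lt_iff.2 h1)]

variable {O'} in
theorem val_lt_one_of_le {O : ValuationSubring Ω} (h : O ≤ O') {x : Ω}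
    (hx : O'.valuation x < 1) : O.valuation x < 1 := by
  by_cases h0 : x = 0
  · rw [h0, map_zero]
    exact zero_lt_one
  · rw [val_lt_one_iff_inv O h0]
    rw [val_lt_one_iff_inv O' h0] at hx
    exact fun hh => hx (h hh)

/-- The image in the residue field of a finer valuation ring. -/
def resO (O : ValuationSubring Ω) (h : O ≤ O') : ValuationSubring (kap O') where
  carrier := {y | ∃ x ∈ O, rs O' x = y}
  mul_mem' := by
    rintro a b ⟨x, hx, rfl⟩ ⟨y, hy, rfl⟩
    exact ⟨x * y, O.mul_mem _ _ hx hy, rs_mul O' (h hx) (h hy)⟩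
  one_mem' := ⟨1, O.one_mem, rs_one O'⟩
  add_mem' := by
    rintro a b ⟨x, hx, rfl⟩ ⟨y, hy, rfl⟩
    exact ⟨x + y, O.add_mem _ _ hx hy, rs_add O' (h hx) (h hy)⟩
  zero_mem' := ⟨0, O.zero_mem, rs_zero O'⟩
  neg_mem' := by
    rintro a ⟨x, hx, rfl⟩
    exact ⟨-x, O.neg_mem _ hx, rs_neg O' (h hx)⟩
  mem_or_inv_mem' := by
    intro y
    obtain ⟨x, hx, rfl⟩ := rs_surj O' y
    by_cases h0 : rs O' x = 0
    · exact Or.inl ⟨0, O.zero_mem, by rw [rs_zero, h0]⟩
    · rcases O.mem_or_inv_mem x with h1 | h1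
      · exact Or.inl ⟨x, h1, rfl⟩
      · exact Or.inr ⟨x⁻¹, h1, (rs_inv O' hx h0).2⟩

/-- The image of a subfield in the residue field. -/
def resL (L : Subfield Ω) : Subfield (kap O') where
  carrier := {y | ∃ x ∈ L, x ∈ O' ∧ rs O' x = y}
  mul_mem' := by
    rintro a b ⟨x, hx, hx', rfl⟩ ⟨y, hy, hy', rfl⟩
    exact ⟨x * y, L.mul_mem hx hy, O'.mul_mem _ _ hx' hy', rs_mul O' hx' hy'⟩
  one_mem' := ⟨1, L.one_mem, O'.one_mem, rs_one O'⟩
  add_mem' := by
    rintro a b ⟨x, hx, hx', rfl⟩ ⟨y, hy, hy', rfl⟩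
    exact ⟨x + y, L.add_mem hx hy, O'.add_mem _ _ hx' hy', rs_add O' hx' hy'⟩
  zero_mem' := ⟨0, L.zero_mem, O'.zero_mem, rs_zero O'⟩
  neg_mem' := by
    rintro a ⟨x, hx, hx', rfl⟩
    exact ⟨-x, L.neg_mem hx, O'.neg_mem _ hx', rs_neg O' hx'⟩
  inv_mem' := by
    rintro a ⟨x, hx, hx', rfl⟩
    by_cases h0 : rs O' x = 0
    · exact ⟨0, L.zero_mem, O'.zero_mem, by rw [rs_zero, h0, inv_zero]⟩
    · exact ⟨x⁻¹, L.inv_mem hx, (rs_inv O' hx' h0).1, (rs_inv O' hx' h0).2⟩

theorem mem_resO {O : ValuationSubring Ω} (h : O ≤ O') {x : Ω} (hx : x ∈ O') :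
    rs O' x ∈ resO O' O h ↔ x ∈ O := by
  constructor
  · rintro ⟨y, hy, hxy⟩
    have h1 : O.valuation (y - x) < 1 :=
      val_lt_one_of_le h ((rs_eq_iff O' (h hy) hx).1 hxy)
    have h2 : y - x ∈ O := (O.valuation_le_one_iff _).1 h1.le
    have h3 := O.sub_mem hy h2
    rwa [sub_sub_cancel] at h3
  · intro hxO
    exact ⟨x, hxO, rfl⟩

theorem mem_resL {L : Subfield Ω} (y : kap O') :
    y ∈ resL O' L ↔ ∃ x ∈ L, x ∈ O' ∧ rs O' x = y := Iff.rfl

theorem rs_mem_resL {L : Subfield Ω} {x : Ω} (hx : x ∈ L) (hx' : x ∈ O') : rs O' x ∈ resL O' L :=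
  ⟨x, hx, hx', rfl⟩

theorem resO_val_lt {O : ValuationSubring Ω} (h : O ≤ O') {x : Ω} (hx : x ∈ O') :
    (resO O' O h).valuation (rs O' x) < 1 ↔ O.valuation x < 1 := by
  by_cases h0 : rs O' x = 0
  · rw [h0, map_zero]
    exact ⟨fun _ => val_lt_one_of_le h ((rs_eq_zero O' hx).1 h0), fun _ => zero_lt_one⟩
  · have hx0 : x ≠ 0 := by
      rintro rfl
      exact h0 (rs_zero O')
    rw [val_lt_one_iff_inv _ h0, val_lt_one_iff_inv _ hx0, ← (rs_inv O' hx h0).2,
      mem_resO O' h (rs_inv O' hx h0).1]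

/-- Comparison of values of elements outside the maximal ideal of `O'`. -/
theorem resO_val_le {O : ValuationSubring Ω} (h : O ≤ O') {x y : Ω} (hx : x ∈ O') (hy : y ∈ O')
    (hx0 : rs O' x ≠ 0) (hy0 : rs O' y ≠ 0) :
    (resO O' O h).valuation (rs O' x) ≤ (resO O' O h).valuation (rs O' y) ↔
      O.valuation x ≤ O.valuation y := by
  have hy0' : y ≠ 0 := by
    rintro rfl
    exact hy0 (rs_zero O')
  have h1 : (resO O' O h).valuation (rs O' y) ≠ 0 := (Valuation.ne_zero_iff _).2 hy0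
  have h2 : O.valuation y ≠ 0 := (Valuation.ne_zero_iff _).2 hy0'
  rw [← div_le_one₀ (zero_lt_iff.2 h1), ← div_le_one₀ (zero_lt_iff.2 h2), ← map_div₀, ← map_div₀,
    ValuationSubring.valuation_le_one_iff, ValuationSubring.valuation_le_one_iff, div_eq_mul_inv,
    div_eq_mul_inv, ← (rs_inv O' hy hy0).2, ← rs_mul O' hx (rs_inv O' hy hy0).1,
    mem_resO O' h (O'.mul_mem _ _ hx (rs_inv O' hy hy0).1)]

theorem resO_val_eq_one {O : ValuationSubring Ω} (h : O ≤ O') {x : Ω} (hx : x ∈ O') :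
    (resO O' O h).valuation (rs O' x) = 1 ↔ O.valuation x = 1 := by
  have key : ∀ {K : Type _} [Field K] (V : ValuationSubring K) (z : K),
      V.valuation z = 1 ↔ z ∈ V ∧ ¬ V.valuation z < 1 := by
    intro K _ V z
    rw [← V.valuation_le_one_iff, not_lt]
    exact ⟨fun h => ⟨h.le, h.ge⟩, fun h => le_antisymm h.1 h.2⟩
  rw [key, key, mem_resO O' h hx, resO_val_lt O' h hx]

section Red

/-- Reduction of a polynomial. -/
noncomputable def rsP (h : Polynomial Ω) : Polynomial (kap O') :=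
  ∑ i ∈ Finset.range (h.natDegree + 1), monomial i (rs O' (h.coeff i))

theorem rsP_coeff (h : Polynomial Ω) (i : ℕ) : (rsP O' h).coeff i = rs O' (h.coeff i) := by
  rw [rsP, finsetSum_coeff]
  simp only [coeff_monomial]
  rw [Finset.sum_ite_eq' (Finset.range (h.natDegree + 1)) i]
  split_ifs with hi
  · rfl
  · rw [coeff_eq_zero_of_natDegree_lt (by simpa [Nat.lt_succ_iff] using hi), rs_zero]

theorem rsP_natDegree_le (h : Polynomial Ω) : (rsP O' h).natDegree ≤ h.natDegree := by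
  rw [natDegree_le_iff_coeff_eq_zero]
  intro N hN
  rw [rsP_coeff, coeff_eq_zero_of_natDegree_lt hN, rs_zero]

theorem rsP_natDegree {h : Polynomial Ω} (hm : h.Monic) : (rsP O' h).natDegree = h.natDegree := by
  apply le_antisymm (rsP_natDegree_le O' h)
  apply le_natDegree_of_ne_zero
  rw [rsP_coeff, hm.coeff_natDegree, rs_one]
  exact one_ne_zero

theorem rsP_monic {h : Polynomial Ω} (hm : h.Monic) : (rsP O' h).Monic := by
  rw [Monic, leadingCoeff, rsP_natDegree O' hm, rsP_coeff, hm.coeff_natDegree, rs_one]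

theorem rsP_eval {h : Polynomial Ω} (hh : ∀ i, h.coeff i ∈ O') {x : Ω} (hx : x ∈ O') :
    (rsP O' h).eval (rs O' x) = rs O' (h.eval x) := by
  rw [eval_eq_sum_range' (n := h.natDegree + 1)
    (Nat.lt_succ_of_le (rsP_natDegree_le O' h)), eval_eq_sum_range, rs_sum O']
  · refine Finset.sum_congr rfl fun i _ => ?_
    rw [rsP_coeff, rs_mul O' (hh i) (pow_mem hx i), rs_pow O' hx]
  · exact fun i _ => O'.mul_mem _ _ (hh i) (pow_mem hx i)

theorem rs_natCast (n : ℕ) : rs O' (n : Ω) = (n : kap O') := by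
  have h1 : (n : Ω) ∈ O' := natCast_mem O' n
  rw [rs_of_mem O' h1, ← map_natCast (IsLocalRing.residue O') n]
  rfl

theorem rsP_derivative {h : Polynomial Ω} (hh : ∀ i, h.coeff i ∈ O') :
    rsP O' h.derivative = (rsP O' h).derivative := by
  ext i
  rw [rsP_coeff, coeff_derivative, coeff_derivative, rsP_coeff, rs_mul O' (hh _), rs_add O',
    rs_natCast, rs_one]
  · exact natCast_mem O' i
  · exact O'.one_mem
  · exact O'.add_mem _ _ (natCast_mem O' i) O'.one_mem

/-- Lifting a polynomial. -/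
theorem res_exists_lift {L : Subfield Ω} (q : Polynomial (kap O')) (hq : ∀ i, q.coeff i ∈ resL O' L) :
    ∃ h : Polynomial Ω, (∀ i, h.coeff i ∈ L) ∧ (∀ i, h.coeff i ∈ O') ∧ rsP O' h = q ∧
      h.natDegree = q.natDegree ∧ (q.Monic → h.Monic) := by
  classical
  choose f hf using hq
  set n := q.natDegree with hn
  have h1 : ∀ i, ∃ a ∈ L, a ∈ O' ∧ rs O' a = q.coeff i ∧ (q.coeff i = 0 → a = 0) ∧
      (q.coeff i = 1 → a = 1) := by
    intro i
    by_cases h0 : q.coeff i = 0
    · exact ⟨0, L.zero_mem, O'.zero_mem, by rw [h0, rs_zero], fun _ => rfl, fun h1 => by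
        rw [h0] at h1
        exact absurd h1 zero_ne_one⟩
    by_cases h1 : q.coeff i = 1
    · exact ⟨1, L.one_mem, O'.one_mem, by rw [h1, rs_one], fun h => absurd h h0, fun _ => rfl⟩
    · exact ⟨f i, (hf i).1, (hf i).2.1, (hf i).2.2, fun h => absurd h h0, fun h => absurd h h1⟩
  choose a ha using h1
  let h : Polynomial Ω := ∑ i ∈ Finset.range (n + 1), monomial i (a i)
  have hc : ∀ i, h.coeff i = a i := by
    intro i
    change (∑ i ∈ Finset.range (n + 1), monomial i (a i)).coeff i = a i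
    rw [finsetSum_coeff]
    simp only [coeff_monomial]
    rw [Finset.sum_ite_eq' (Finset.range (n + 1)) i]
    split_ifs with hi
    · rfl
    · exact ((ha i).2.2.2.1 (coeff_eq_zero_of_natDegree_lt
        (by simpa [Nat.lt_succ_iff] using hi))).symm
  have hd : h.natDegree = n := by
    apply le_antisymm
    · rw [natDegree_le_iff_coeff_eq_zero]
      intro N hN
      rw [hc, (ha N).2.2.2.1 (coeff_eq_zero_of_natDegree_lt hN)]
    · by_cases hq0 : n = 0
      · rw [hq0]
        exact Nat.zero_le _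
      · apply le_natDegree_of_ne_zero
        rw [hc]
        intro h0
        have h2 := (ha n).2.2.1
        rw [h0, rs_zero] at h2
        have h3 : q.leadingCoeff ≠ 0 := by
          rw [Ne, leadingCoeff_eq_zero]
          rintro rfl
          exact hq0 (by rw [hn, natDegree_zero])
        exact h3 h2.symm
  refine ⟨h, fun i => ?_, fun i => ?_, ?_, hd, fun hm => ?_⟩
  · rw [hc]
    exact (ha i).1
  · rw [hc]
    exact (ha i).2.1
  · ext i
    rw [rsP_coeff, hc]
    exact (ha i).2.2.1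
  · rw [Monic, leadingCoeff, hd, hc]
    exact (ha n).2.2.2.2 hm

/-- Normalisation of a nonzero polynomial over `L`. -/
theorem exists_normalize {L : Subfield Ω} {f : Polynomial Ω} (h0 : f ≠ 0)
    (hf : ∀ i, f.coeff i ∈ L) :
    ∃ b ∈ L, b ≠ 0 ∧ ∃ g : Polynomial Ω, f = C b * g ∧ (∀ i, g.coeff i ∈ L) ∧
      (∀ i, g.coeff i ∈ O') ∧ rsP O' g ≠ 0 := by
  obtain ⟨k, hk, hmax⟩ := f.support.exists_max_image (fun i => O'.valuation (f.coeff i))
    (Polynomial.nonempty_support_iff.2 h0)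
  have hb : f.coeff k ≠ 0 := mem_support_iff.1 hk
  have hb' : O'.valuation (f.coeff k) ≠ 0 := (Valuation.ne_zero_iff _).2 hb
  refine ⟨f.coeff k, hf k, hb, C (f.coeff k)⁻¹ * f, ?_, fun i => ?_, fun i => ?_, ?_⟩
  · rw [← mul_assoc, ← C_mul, mul_inv_cancel₀ hb, C_1, one_mul]
  · rw [coeff_C_mul]
    exact L.mul_mem (L.inv_mem (hf k)) (hf i)
  · rw [coeff_C_mul, ← O'.valuation_le_one_iff, map_mul, map_inv₀,
      inv_mul_le_one₀ (zero_lt_iff.2 hb')]
    by_cases hi : i ∈ f.support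
    · exact hmax i hi
    · rw [notMem_support_iff.1 hi, map_zero]
      exact zero_le
  · intro h
    have h2 : (rsP O' (C (f.coeff k)⁻¹ * f)).coeff k = 0 := by rw [h, coeff_zero]
    rw [rsP_coeff, coeff_C_mul, inv_mul_cancel₀ hb, rs_one] at h2
    exact one_ne_zero h2

/-- A root of the reduction of a monic polynomial lifts. -/
theorem exists_root_lift [IsAlgClosed Ω] {h : Polynomial Ω} (hm : h.Monic)
    (hh : ∀ i, h.coeff i ∈ O') {c : kap O'} (hc : (rsP O' h).eval c = 0) :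
    ∃ c0 ∈ O', h.eval c0 = 0 ∧ rs O' c0 = c := by
  obtain ⟨c1, hc1, rfl⟩ := rs_surj O' c
  rw [rsP_eval O' hh hc1, rs_eq_zero O' (eval_memO O' hh hc1)] at hc
  obtain ⟨c0, h1, h2, h3⟩ := exists_root_near O' hm hh hc1 hc
  exact ⟨c0, h2, h1, (rs_eq_iff O' h2 hc1).2 h3⟩

end Red

instance kap_isAlgClosed [IsAlgClosed Ω] : IsAlgClosed (kap O') := by
  apply IsAlgClosed.of_exists_root
  intro q hm hirr
  obtain ⟨h, -, h2, h3, -, h5⟩ := res_exists_lift O' (L := ⊤) q (fun i => by
    obtain ⟨x, hx, hxi⟩ := rs_surj O' (q.coeff i)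
    exact ⟨x, Subfield.mem_top x, hx, hxi⟩)
  have h6 : h.degree ≠ 0 := by
    intro h7
    have h8 : q.natDegree = 0 := by
      rw [← h3, rsP_natDegree O' (h5 hm)]
      exact natDegree_eq_of_degree_eq_some h7
    exact hirr.natDegree_pos.ne' h8
  obtain ⟨x, hx⟩ := IsAlgClosed.exists_root h h6
  have hxO : x ∈ O' := root_memO O' (h5 hm) h2 hx
  refine ⟨rs O' x, ?_⟩
  rw [← h3, rsP_eval O' h2 hxO, hx, rs_zero]

theorem kap_charP (p : ℕ) [Fact p.Prime] [CharP Ω p] : CharP (kap O') p := by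
  rw [CharP.charP_iff_prime_eq_zero Fact.out, ← rs_natCast, CharP.cast_eq_zero, rs_zero]

theorem resL_mono {L L' : Subfield Ω} (h : L ≤ L') : resL O' L ≤ resL O' L' := by
  rintro y ⟨x, hx, hx', rfl⟩
  exact ⟨x, h hx, hx', rfl⟩

theorem rsP_coeff_mem {L : Subfield Ω} {h : Polynomial Ω} (h1 : ∀ i, h.coeff i ∈ L)
    (h2 : ∀ i, h.coeff i ∈ O') : ∀ i, (rsP O' h).coeff i ∈ resL O' L := by
  intro i
  rw [rsP_coeff]
  exact rs_mem_resL O' (h1 i) (h2 i)

/-- The residue of a root of a polynomial over `L` is algebraic over the residue field. -/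
theorem rs_alg {L : Subfield Ω} {x : Ω} (hx : IsAlgebraic L x) (hxO : x ∈ O') :
    IsAlgebraic (resL O' L) (rs O' x) := by
  rw [isAlgebraic_iff] at hx ⊢
  obtain ⟨f, h0, h1, h2⟩ := hx
  obtain ⟨b, hb, hb0, g, hg, hg1, hg2, hg3⟩ := exists_normalize O' h0 h1
  refine ⟨rsP O' g, hg3, rsP_coeff_mem O' hg1 hg2, ?_⟩
  rw [rsP_eval O' hg2 hxO]
  rw [hg, eval_mul, eval_C] at h2
  rw [(mul_eq_zero.1 h2).resolve_left hb0, rs_zero]

/-- An algebraic element over the residue field lifts to an algebraic element. -/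
theorem exists_alg_lift [IsAlgClosed Ω] {L : Subfield Ω} {y : kap O'}
    (hy : IsAlgebraic (resL O' L) y) :
    ∃ x ∈ O', IsAlgebraic L x ∧ rs O' x = y := by
  obtain ⟨q, h0, h1, h2⟩ := (isAlgebraic_iff _ _).1 hy
  have hl : q.leadingCoeff ≠ 0 := leadingCoeff_ne_zero.2 h0
  set q1 := C q.leadingCoeff⁻¹ * q with hq1
  have hm : q1.Monic := by
    rw [hq1, mul_comm]
    exact monic_mul_leadingCoeff_inv h0
  have h3 : ∀ i, q1.coeff i ∈ resL O' L := by
    intro i
    rw [hq1, coeff_C_mul]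
    exact (resL O' L).mul_mem ((resL O' L).inv_mem (h1 _)) (h1 i)
  have h4 : q1.eval y = 0 := by rw [hq1, eval_mul, h2, mul_zero]
  obtain ⟨h, g1, g2, g3, -, g5⟩ := res_exists_lift O' q1 h3
  rw [← g3] at h4
  obtain ⟨x, hx, hx1, hx2⟩ := exists_root_lift O' (g5 hm) g2 h4
  exact ⟨x, hx, (isAlgebraic_iff _ _).2 ⟨h, (g5 hm).ne_zero, g1, hx1⟩, hx2⟩

/-- Reduction of a simple root for the finer ring. -/
theorem sroot_red {F : Subfield Ω} {O : ValuationSubring Ω} (h : O ≤ O') {c : Ω}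
    (hc : SRoot O F c) : SRoot (resO O' O h) (resL O' F) (rs O' c) := by
  obtain ⟨f, h1, h2, h3, h4, h5⟩ := hc
  have hcO : c ∈ O := root_memO O h1 h3 h4
  have h3' : ∀ i, f.coeff i ∈ O' := fun i => h (h3 i)
  have h6 : ∀ i, f.derivative.coeff i ∈ O := derivative_coeff_memO O h3
  refine ⟨rsP O' f, rsP_monic O' h1, rsP_coeff_mem O' h2 h3', fun i => ?_, ?_, ?_⟩
  · rw [rsP_coeff, mem_resO O' h (h3' i)]
    exact h3 i
  · rw [rsP_eval O' h3' (h hcO), h4, rs_zero]
  · rw [← rsP_derivative O' h3', rsP_eval O' (fun i => h (h6 i)) (h hcO),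
      resO_val_eq_one O' h (h (eval_memO O h6 hcO))]
    exact h5

/-- Elements of a simple extension are quotients of polynomial values. -/
theorem mem_adj_simple {L : Subfield Ω} {z x : Ω} (hx : x ∈ adj L {z}) :
    ∃ f g : Polynomial Ω, (∀ i, f.coeff i ∈ L) ∧ (∀ i, g.coeff i ∈ L) ∧ g.eval z ≠ 0 ∧
      x = f.eval z / g.eval z := by
  rw [← mem_adjoin_iff, IntermediateField.mem_adjoin_simple_iff] at hx
  obtain ⟨r, s, hrs⟩ := hx
  by_cases h0 : aeval z s = 0
  · refine ⟨0, 1, fun i => ?_, fun i => ?_, ?_, ?_⟩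
    · rw [coeff_zero]
      exact L.zero_mem
    · rw [coeff_one]
      split_ifs
      · exact L.one_mem
      · exact L.zero_mem
    · rw [eval_one]
      exact one_ne_zero
    · rw [hrs, h0, div_zero, eval_zero, zero_div]
  · refine ⟨r.map (algebraMap L Ω), s.map (algebraMap L Ω), fun i => ?_, fun i => ?_, ?_, ?_⟩
    · rw [coeff_map]
      exact (r.coeff i).2
    · rw [coeff_map]
      exact (s.coeff i).2
    · rw [eval_map_algebraMap]
      exact h0
    · rw [eval_map_algebraMap, eval_map_algebraMap]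
      exact hrs

/-- A larger subfield as a subspace. -/
def subM {κ : Type*} [Field κ] {K F : Subfield κ} (h : K ≤ F) : Submodule K κ where
  carrier := F
  add_mem' := fun ha hb => F.add_mem ha hb
  zero_mem' := F.zero_mem
  smul_mem' := fun c x hx => F.mul_mem (h c.2) hx

section

variable (p : ℕ) [Fact p.Prime] [CharP Ω p] [IsAlgClosed Ω]

theorem resL_pcl {L : Subfield Ω} (h : PCl p L) : PCl p (resL O' L) := by
  rintro y ⟨x, hx, hx', hxy⟩
  obtain ⟨z, hz⟩ := IsAlgClosed.exists_pow_nat_eq x (Fact.out : p.Prime).pos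
  have hzO : z ∈ O' := by
    rw [← O'.valuation_le_one_iff, ← pow_le_one_iff (Fact.out : p.Prime).ne_zero, ← map_pow, hz,
      O'.valuation_le_one_iff]
    exact hx'
  have hzL : z ∈ L := h z (by rwa [hz])
  haveI := kap_charP O' p
  haveI : ExpChar (kap O') p := ExpChar.prime Fact.out
  have h1 : rs O' z ^ p = y ^ p := by rw [← rs_pow O' hzO, hz, hxy]
  have h2 : rs O' z = y := frobenius_inj (kap O') p (by rw [frobenius_def, frobenius_def, h1])
  exact ⟨z, hzL, hzO, h2⟩

/-- A simple root over the residue field lifts. -/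
theorem sroot_lift {F : Subfield Ω} {O : ValuationSubring Ω} (h : O ≤ O') {c : kap O'}
    (hc : SRoot (resO O' O h) (resL O' F) c) : ∃ c0, SRoot O F c0 ∧ rs O' c0 = c := by
  obtain ⟨q, h1, h2, h3, h4, h5⟩ := hc
  obtain ⟨f, g1, g2, g3, -, g5⟩ := res_exists_lift O' q h2
  have hm := g5 h1
  have g6 : ∀ i, f.coeff i ∈ O := by
    intro i
    rw [← mem_resO O' h (g2 i), ← rsP_coeff, g3]
    exact h3 i
  rw [← g3] at h4
  obtain ⟨c0, hc0, hc1, rfl⟩ := exists_root_lift O' hm g2 h4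
  have hcO : c0 ∈ O := root_memO O hm g6 hc1
  have g7 : ∀ i, f.derivative.coeff i ∈ O := derivative_coeff_memO O g6
  refine ⟨c0, ⟨f, hm, g1, g6, hc1, ?_⟩, rfl⟩
  rw [← g3, ← rsP_derivative O' g2, rsP_eval O' (fun i => h (g7 i)) hc0,
    resO_val_eq_one O' h (h (eval_memO O g7 hcO))] at h5
  exact h5

/-- If `F` is perfect and h-closed for `O ≤ O'`, its residue field is h-closed for `resO`. -/
theorem resL_hcl {F : Subfield Ω} {O : ValuationSubring Ω} (h : O ≤ O') (h1 : PCl p F)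
    (h2 : HCl O F) : HCl (resO O' O h) (resL O' F) := by
  intro c a hc ha hca
  obtain ⟨c0, hc0, rfl⟩ := sroot_lift O' h hc
  obtain ⟨a0, ha0, ha1, rfl⟩ := ha
  have hcO : c0 ∈ O' := h hc0.memO
  rw [← rs_sub O' hcO ha1, resO_val_lt O' h (O'.sub_mem hcO ha1)] at hca
  exact rs_mem_resL O' (h2 c0 a0 hc0 ha0 hca) hcO

/-- Residue field of `L(c)` for a simple root `c` (from B5). -/
theorem resL_adj_sroot {L : Subfield Ω} {c : Ω} (hc : SRoot O' L c) :
    resL O' (adj L {c}) = adj (resL O' L) {rs O' c} := by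
  have hcO : c ∈ O' := hc.memO
  apply le_antisymm
  · rintro y ⟨x, hx, hxO, rfl⟩
    obtain ⟨G1, G2, g1, g2, g3, g4, g5, g6⟩ := sroot_repr O' hc hx hxO
    have h1 : rs O' x * (rsP O' G2).eval (rs O' c) = (rsP O' G1).eval (rs O' c) := by
      rw [rsP_eval O' g4 hcO, rsP_eval O' g2 hcO, ← rs_mul O' hxO (eval_memO O' g4 hcO), g6]
    have h2 : (rsP O' G2).eval (rs O' c) ≠ 0 := by
      rw [rsP_eval O' g4 hcO, rs_ne_zero_iff O' (eval_memO O' g4 hcO)]
      exact g5
    have hle := le_adj (resL O' L) {rs O' c}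
    have hmem : rs O' c ∈ adj (resL O' L) {rs O' c} := subset_adj _ _ rfl
    rw [← eq_div_iff h2] at h1
    rw [h1]
    exact div_mem (eval_mem (fun i => hle (rsP_coeff_mem O' g1 g2 i)) hmem)
      (eval_mem (fun i => hle (rsP_coeff_mem O' g3 g4 i)) hmem)
  · apply adj_le (resL_mono O' (le_adj _ _))
    rintro y rfl
    exact rs_mem_resL O' (subset_adj _ _ rfl) hcO

/-- `W` passes to the residue field: a root algebraic over the residue field lifts to an element
algebraic over `B`, which lies in `B(c)` for an `O`-simple root `c`; by B5 for `O'` its residue is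
in `resL B (rs c)`, and `rs c` is a simple root for `resO`. -/
theorem resL_W {B : Subfield Ω} {O : ValuationSubring Ω} (h : O ≤ O') (hB : W p O B) :
    W p (resO O' O h) (resL O' B) := by
  refine ⟨resL_pcl O' p hB.pcl, resL_hcl O' p h hB.pcl hB.hcl, ?_⟩
  intro y hy
  obtain ⟨x, hxO, hx, rfl⟩ := exists_alg_lift O' hy
  obtain ⟨c, hc, hxc⟩ := (mem_cl_iff p O hB.pcl hB.hcl x).1 (hB.alg x hx)
  have h1 : rs O' x ∈ adj (resL O' B) {rs O' c} := by
    rw [← resL_adj_sroot O' (hc.coarser O h)]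
    exact rs_mem_resL O' hxc hxO
  have h2 : rs O' c ∈ cl p (resO O' O h) (resL O' B) :=
    cl_scl _ _ ((sroot_red O' h hc).mono (le_cl _))
  exact adj_le (le_cl _) (Set.singleton_subset_iff.2 h2) h1

/-- Residue field of `B(z)` for `z` residually transcendental over `B`. -/
theorem resL_adj_transc {B : Subfield Ω} {z : Ω} (hz : z ∈ O')
    (ht : ¬ IsAlgebraic (resL O' B) (rs O' z)) :
    resL O' (adj B {z}) = adj (resL O' B) {rs O' z} ∧ ¬ IsAlgebraic B z := by
  constructor
  · apply le_antisymm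
    · rintro y ⟨x, hx, hxO, rfl⟩
      have hle := le_adj (resL O' B) {rs O' z}
      have hmem : rs O' z ∈ adj (resL O' B) {rs O' z} := subset_adj _ _ rfl
      have htr : ∀ q : Polynomial (kap O'), q ≠ 0 → (∀ i, q.coeff i ∈ resL O' B) →
          q.eval (rs O' z) ≠ 0 := fun q h0 h1 h2 => ht ((isAlgebraic_iff _ _).2 ⟨q, h0, h1, h2⟩)
      obtain ⟨f, g, hf, hg, hg0, rfl⟩ := mem_adj_simple hx
      by_cases hf0 : f = 0
      · rw [hf0, eval_zero, zero_div, rs_zero]
        exact zero_mem _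
      have hgne : g ≠ 0 := by
        rintro rfl
        exact hg0 eval_zero
      obtain ⟨b, hb, hb0, f1, hf1, hf2, hf3, hf4⟩ := exists_normalize O' hf0 hf
      obtain ⟨c, hc, hc0, g1, hg1, hg2, hg3, hg4⟩ := exists_normalize O' hgne hg
      have e1 := rsP_eval O' hf3 hz
      have e2 := rsP_eval O' hg3 hz
      have n1 : rs O' (f1.eval z) ≠ 0 := by
        rw [← e1]
        exact htr _ hf4 (rsP_coeff_mem O' hf2 hf3)
      have n2 : rs O' (g1.eval z) ≠ 0 := by
        rw [← e2]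
        exact htr _ hg4 (rsP_coeff_mem O' hg2 hg3)
      have m1 := eval_memO O' hf3 hz
      have m2 := eval_memO O' hg3 hz
      have n1' : f1.eval z ≠ 0 := by
        intro h0
        rw [h0, rs_zero] at n1
        exact n1 rfl
      have n2' : g1.eval z ≠ 0 := by
        intro h0
        rw [h0, rs_zero] at n2
        exact n2 rfl
      have e3 : f.eval z / g.eval z = (b / c) * (f1.eval z * (g1.eval z)⁻¹) := by
        rw [hf1, hg1, eval_mul, eval_mul, eval_C, eval_C]
        field_simp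
      have e4 : b / c = (f.eval z / g.eval z) * (g1.eval z * (f1.eval z)⁻¹) := by
        rw [e3]
        field_simp
      have m3 : b / c ∈ O' := by
        rw [e4]
        exact O'.mul_mem _ _ hxO (O'.mul_mem _ _ m2 (rs_inv O' m1 n1).1)
      rw [e3, rs_mul O' m3 (O'.mul_mem _ _ m1 (rs_inv O' m2 n2).1), rs_mul O' m1
        (rs_inv O' m2 n2).1, (rs_inv O' m2 n2).2, ← e1, ← e2]
      exact mul_mem (hle (rs_mem_resL O' (B.div_mem hb hc) m3))
        (mul_mem (eval_mem (fun i => hle (rsP_coeff_mem O' hf2 hf3 i)) hmem)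
          (inv_mem (eval_mem (fun i => hle (rsP_coeff_mem O' hg2 hg3 i)) hmem)))
    · apply adj_le (resL_mono O' (le_adj _ _))
      rintro y rfl
      exact rs_mem_resL O' (subset_adj _ _ rfl) hz
  · exact fun h => ht (rs_alg O' h hz)

/-- Residue fields of algebraic extensions are algebraic. -/
theorem resL_alg {L E : Subfield Ω} (h : ∀ x ∈ E, IsAlgebraic L x) {y : kap O'}
    (hy : y ∈ resL O' E) : IsAlgebraic (resL O' L) y := by
  obtain ⟨x, hx, hxO, rfl⟩ := hy
  exact rs_alg O' (h x hx) hxO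

/-- Residue fields of finite extensions are finite: with `E` generated over `L` by a finite set and
algebraic over `L`, the residue field of `E` is generated by a finite set. -/
theorem resL_fg {L : Subfield Ω} (S : Finset Ω) (h : ∀ s ∈ S, IsAlgebraic L s) :
    ∃ S' : Finset (kap O'), (∀ s ∈ S', IsAlgebraic (resL O' L) s) ∧
      resL O' (adj L (S : Set Ω)) = adj (resL O' L) (S' : Set (kap O')) := by
  classical
  set E := adj L (S : Set Ω) with hE
  have hEalg : ∀ x ∈ E, IsAlgebraic L x := fun x hx => isAlgebraic_adj (S := (S : Set Ω)) h hx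
  have hKE : resL O' L ≤ resL O' E := resL_mono O' (le_adj _ _)
  let W := subM hKE
  let A := IntermediateField.adjoin L (S : Set Ω)
  haveI : FiniteDimensional L A :=
    IntermediateField.finiteDimensional_adjoin fun x hx => (h x hx).isIntegral
  have hA : ∀ x, x ∈ A ↔ x ∈ E := fun x => mem_adjoin_iff L (S : Set Ω) x
  have hrk : Module.rank (resL O' L) W ≤ (Module.finrank L A : ℕ) := by
    apply rank_le
    intro s hs
    have hl : ∀ i : s, ∃ x : A, (x : Ω) ∈ O' ∧ rs O' (x : Ω) = ((i : W) : kap O') := by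
      intro i
      obtain ⟨x, hx, hxO, hxi⟩ := (i : W).2
      exact ⟨⟨x, (hA x).2 hx⟩, hxO, hxi⟩
    choose x hxO hxr using hl
    have hli : LinearIndependent L x := by
      rw [Fintype.linearIndependent_iff]
      intro g hg
      by_contra hcon
      push Not at hcon
      obtain ⟨i0, hi0⟩ := hcon
      obtain ⟨k, -, hk⟩ := Finset.exists_max_image Finset.univ
        (fun i => O'.valuation (g i : Ω)) ⟨i0, Finset.mem_univ i0⟩
      have hk0 : (g k : Ω) ≠ 0 := by
        intro h0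
        have h1 := hk i0 (Finset.mem_univ i0)
        rw [h0, map_zero] at h1
        have h2 : O'.valuation (g i0 : Ω) = 0 := le_antisymm h1 zero_le
        exact hi0 (Subtype.ext ((Valuation.zero_iff _).1 h2))
      have hkv : O'.valuation (g k : Ω) ≠ 0 := (Valuation.ne_zero_iff _).2 hk0
      have hc : ∀ i, ((g k : Ω))⁻¹ * (g i : Ω) ∈ O' := by
        intro i
        rw [← O'.valuation_le_one_iff, map_mul, map_inv₀, inv_mul_le_one₀ (zero_lt_iff.2 hkv)]
        exact hk i (Finset.mem_univ i)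
      have hcL : ∀ i, ((g k : Ω))⁻¹ * (g i : Ω) ∈ L := fun i =>
        L.mul_mem (L.inv_mem (g k).2) (g i).2
      have hsum : ∑ i, (((g k : Ω))⁻¹ * (g i : Ω)) * (x i : Ω) = 0 := by
        have h1 : ((∑ i, g i • x i : A) : Ω) = 0 := by rw [hg]; rfl
        rw [AddSubmonoidClass.coe_finsetSum] at h1
        simp_rw [mul_assoc]
        rw [← Finset.mul_sum]
        have h2 : ∑ i, (g i : Ω) * (x i : Ω) = 0 := h1
        rw [h2, mul_zero]
      have hsum2 : ∑ i, rs O' (((g k : Ω))⁻¹ * (g i : Ω)) * ((i : W) : kap O') = 0 := by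
        have h3 := congrArg (rs O') hsum
        rw [rs_sum O' _ _ (fun i _ => O'.mul_mem _ _ (hc i) (hxO i)), rs_zero] at h3
        rw [← h3]
        exact Finset.sum_congr rfl fun i _ => by rw [rs_mul O' (hc i) (hxO i), hxr]
      rw [Fintype.linearIndependent_iff] at hs
      have h4 := hs (fun i => ⟨rs O' (((g k : Ω))⁻¹ * (g i : Ω)), rs_mem_resL O' (hcL i) (hc i)⟩)
        (by
          apply Subtype.ext
          rw [AddSubmonoidClass.coe_finsetSum]
          exact hsum2) k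
      have h5 := congrArg Subtype.val h4
      change rs O' (((g k : Ω))⁻¹ * (g k : Ω)) = 0 at h5
      rw [inv_mul_cancel₀ hk0, rs_one] at h5
      exact one_ne_zero h5
    have h6 := hli.fintype_card_le_finrank
    rwa [Fintype.card_coe] at h6
  have hfin : Module.Finite (resL O' L) W := by
    rw [← Module.rank_lt_aleph0_iff]
    exact lt_of_le_of_lt hrk (Cardinal.nat_lt_aleph0 _)
  obtain ⟨T, hT⟩ := (Submodule.fg_iff_finiteDimensional W).2 hfin
  have hTW : ∀ t ∈ T, t ∈ resL O' E := by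
    intro t ht
    have h1 : t ∈ W := by
      rw [← hT]
      exact Submodule.subset_span ht
    exact h1
  refine ⟨T, fun t ht => resL_alg O' hEalg (hTW t ht), le_antisymm ?_ ?_⟩
  · intro y hy
    have h1 : y ∈ W := hy
    rw [← hT] at h1
    have h2 : Submodule.span (resL O' L) (T : Set (kap O')) ≤
        subM (le_adj (resL O' L) (T : Set (kap O'))) := by
      rw [Submodule.span_le]
      exact subset_adj _ _
    exact h2 h1
  · exact adj_le hKE hTW

end

end Pool.Agent.H92.Tilt
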