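import Pool.Agent.H92.Tilt.B4
import Pool.Agent.H92.Tilt.B5
import Pool.Agent.H92.Tilt.C4
import Pool.Agent.H92.Tilt.Res

/-!
Module D0 (and D1): stability.

D0. Suppose `x ∈ L`, `x ∉ F`. By C3 (`PInd L T` from `Orth`) `x` is separable over `F` and
`PB F(x) T`. By B4 there is `y ∈ F(x)`, `y ∉ F`, `f := y^p - y ∈ F`. By C4 there is `g ∈ F` with
`f + g - g^p = psum T u`, `u 0 = 0`. Put `y1 := y - g`; then `y1^p - y1 = f + g - g^p`. Write
`y1 = psum T w` with `w ∈ F(x)`. Then `y1^p = psum T (u-part) + y1`; comparing the components at `0`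
(uniqueness, `PInd L T`): `y1 = w_0` as `p`-th powers, i.e. `y1^p = w_0^p`. Hence
`v(y1)^p = v(w_0^p) ≤ v(psum T w) = v(y1)` by `Orth`, so `v(y1) ≤ 1`: `y1 ∈ O`, `y1^p - y1 ∈ F ∩ O` and
`y1 ∈ F` (`sroot_as`), so `y ∈ F`: contradiction. [Comparison: `y1^p - w_0^p` and the others:
`psum T u = y1^p - psum T w`, i.e. `psum` of (`u 0 = 0`) equals `psum` of the family with `0`-component
`y1 - w_0` (`(y1 - w_0)^p = y1^p - w_0^p`) and `α`-component `- w_α` (up to the sign of `(-1)^p`).]

D1: `Orth O E T` passes to `HC O E` (`orth_HC`): Zorn; for a simple root `c` over `L` with `Orth L T`,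
`k_{L(c)} = k_L(c)` is separable over `k_L` so the residues of `T ^ α` stay linearly independent over
`k_{L(c)} ^ p` (if `e_i` is a basis of `k_{L(c)}` over `k_L` then so is `e_i ^ p`). Then D0 applies
to `F = HC (A(T))`, `L = HC E`, `M = acl A` (contained in `HC A`).
-/

set_option autoImplicit false

namespace Pool.Agent.H92.Tilt

open Polynomial

variable {Ω : Type*} [Field Ω] (p : ℕ) [Fact p.Prime] [CharP Ω p] [IsAlgClosed Ω]
  (O : ValuationSubring Ω)
variable {ι : Type*} [Fintype ι] [DecidableEq ι]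

theorem mon_zero (T : ι → Ω) : mon T (0 : ι → Fin p) = 1 := by
  simp [mon]

theorem psum_sub (T : ι → Ω) (a b : (ι → Fin p) → Ω) :
    psum T (fun α => a α - b α) = psum T a - psum T b := by
  unfold psum
  rw [← Finset.sum_sub_distrib]
  refine Finset.sum_congr rfl fun α _ => ?_
  rw [sub_pow_char]
  ring

theorem psum_single (T : ι → Ω) (y : Ω) :
    psum T (fun α : ι → Fin p => if α = 0 then y else 0) = y ^ p := by
  unfold psum
  rw [Finset.sum_eq_single (0 : ι → Fin p)]
  · dsimp only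
    rw [if_pos rfl, mon_zero, mul_one]
  · intro α _ hα
    dsimp only
    rw [if_neg hα, zero_pow (Fact.out : p.Prime).ne_zero, zero_mul]
  · intro h
    exact absurd (Finset.mem_univ _) h

theorem D0 {F L M : Subfield Ω} {T : ι → Ω} (hΩ : Algebra.IsAlgebraic F Ω) (hF : SCl O F)
    (hv : ∀ x : Ω, x ≠ 0 → ∃ k : ℕ, ∃ l ∈ F, O.valuation (x ^ p ^ k) = O.valuation l)
    (hM : ∀ x, IsAlgebraic M x → x ∈ M) (hMF : M ≤ F) (hT : AlgebraicIndependent M T)
    (hTF : ∀ i, T i ∈ F) (hs : ∀ x ∈ F, IsSeparable (adj M (Set.range T)) x)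
    (hFL : F ≤ L) (ho : Orth p O L T) : L ≤ F := by
  have hMp : PCl p M := by
    intro x hx
    apply hM
    refine ⟨Polynomial.X ^ p - Polynomial.C (⟨x ^ p, hx⟩ : M), ?_, ?_⟩
    · exact (Polynomial.monic_X_pow_sub_C _ (Fact.out : p.Prime).ne_zero).ne_zero
    · rw [map_sub, map_pow, aeval_X, aeval_C, sub_eq_zero]
      rfl
  have hMT : adj M (Set.range T) ≤ F := adj_le hMF (by rintro _ ⟨i, rfl⟩; exact hTF i)
  have hPB : PB p F T := pb_sep p (pb_rational p hMp hT) hMT hs
  have hT0 : ∀ i, T i ≠ 0 := fun i => by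
    intro h0
    have h1 : Transcendental M (T i) := hT.transcendental i
    rw [h0] at h1
    exact h1 isAlgebraic_zero
  have hind : PInd p L T := pind_of_orth p O hT0 ho
  obtain ⟨hPL, hsep⟩ := pb_of_ind p hPB hFL (fun x _ => hΩ.isAlgebraic x) hind
  intro x hxL
  by_contra hxF
  obtain ⟨y, hy, hyF, hyf⟩ := artin_schreier_step p O hF hΩ hv (hsep x hxL) hxF
  have hyL : y ∈ L := (adj_le hFL (by simpa using hxL) : adj F {x} ≤ L) hy
  obtain ⟨g, hg, u, hu, hu0, hgu⟩ := exact_as p hM hT hMF hTF hs hyf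
  have hy1L : y - g ∈ L := L.sub_mem hyL (hFL hg)
  have hyp : (y - g) ^ p - (y - g) = psum T u := by
    rw [← hgu, sub_pow_char]
    ring
  obtain ⟨w, hw, hyw⟩ := hPL.span (y - g) hy1L
  have hz := hind (fun α => ((if α = 0 then y - g else 0) - w α) - u α) (fun α => by
      refine L.sub_mem (L.sub_mem ?_ (hw α)) (hFL (hu α))
      split_ifs
      · exact hy1L
      · exact L.zero_mem) (by
      rw [psum_sub, psum_sub, psum_single, ← hyw, ← hyp]
      ring) 0
  have hy0 : y - g = w 0 := by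
    simp only [if_pos, hu0, sub_zero] at hz
    exact sub_eq_zero.mp hz
  have hval := ho w hw 0
  rw [← hyw, mon_zero, mul_one, ← hy0] at hval
  have hle : O.valuation (y - g) ≤ 1 := by
    by_contra hgt
    rw [not_le] at hgt
    rw [map_pow] at hval
    have h1 : O.valuation (y - g) < O.valuation (y - g) ^ p :=
      lt_self_pow₀ hgt (Fact.out : p.Prime).one_lt
    exact absurd hval (not_le.mpr h1)
  have hyO : y - g ∈ O := (val_le_one O).mp hle
  have hfF : (y - g) ^ p - (y - g) ∈ F := by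
    rw [hyp, ← hgu]
    exact F.sub_mem (F.add_mem hyf hg) (F.pow_mem hg p)
  have hfO : (y - g) ^ p - (y - g) ∈ O := O.sub_mem (O.pow_mem hyO p) hyO
  have hroot := hF _ (sroot_as p (O := O) hfF hfO rfl)
  apply hyF
  have := F.add_mem hroot hg
  rwa [sub_add_cancel] at this

section

omit [IsAlgClosed Ω]

theorem rs_coe (x : O) : rs O (x : Ω) = IsLocalRing.residue O x := by
  simp [rs]

theorem rs_mem {x : Ω} (hx : x ∈ O) : rs O x = IsLocalRing.residue O ⟨x, hx⟩ := by
  simp [rs, hx]

/-- The reduction of a polynomial over `O`. -/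
theorem exists_red (h : Polynomial Ω) (hh : ∀ i, h.coeff i ∈ O) :
    ∃ h' : Polynomial (kap O), (∀ i, h'.coeff i = rs O (h.coeff i)) ∧
      (∀ x ∈ O, rs O (h.eval x) = h'.eval (rs O x)) ∧ (h.Monic → h'.Monic) ∧
      (∀ x ∈ O, rs O (h.derivative.eval x) = h'.derivative.eval (rs O x)) := by
  have hl : h ∈ Polynomial.lifts (algebraMap O Ω) := by
    rw [Polynomial.lifts_iff_coeff_lifts]
    intro i
    exact ⟨⟨h.coeff i, hh i⟩, rfl⟩
  obtain ⟨q, hq⟩ := hl
  have hev : ∀ (q : Polynomial O) (x : O), rs O ((q.map (algebraMap O Ω)).eval (x : Ω)) =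
      (q.map (IsLocalRing.residue O)).eval (IsLocalRing.residue O x) := by
    intro q x
    have h1 : (q.map (algebraMap O Ω)).eval (x : Ω) = ((q.eval x : O) : Ω) := by
      rw [eval_map]
      exact (Polynomial.hom_eval₂ q (RingHom.id O) (algebraMap O Ω) x).symm
    rw [h1, rs_coe, eval_map, Polynomial.eval₂_at_apply]
  change q.map (algebraMap O Ω) = h at hq
  refine ⟨q.map (IsLocalRing.residue O), ?_, ?_, ?_, ?_⟩
  · intro i
    rw [coeff_map, ← hq, coeff_map]
    exact (rs_coe O _).symm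
  · intro x hx
    rw [← hq, rs_mem O hx]
    exact hev q ⟨x, hx⟩
  · intro hm
    rw [← hq] at hm
    have hqm : q.Monic := Polynomial.monic_of_injective Subtype.val_injective hm
    exact hqm.map _
  · intro x hx
    rw [← hq, rs_mem O hx, derivative_map, derivative_map]
    exact hev q.derivative ⟨x, hx⟩

/-- The residue of a simple root is separable. -/
theorem rs_isSeparable {E : Subfield Ω} {c : Ω} (hc : SRoot O E c) :
    IsSeparable (resL O E) (rs O c) := by
  have hcO := hc.memO
  obtain ⟨h, hm, hE, hO, h0, h1⟩ := hc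
  obtain ⟨h', hc', he', hm', hd'⟩ := exists_red O h hO
  refine SRoot.isSeparable (O := (⊤ : ValuationSubring (kap O)))
    ⟨h', hm' hm, ?_, fun i => ValuationSubring.mem_top _, ?_, ?_⟩
  · intro i
    rw [hc']
    exact ⟨h.coeff i, hE i, hO i, rfl⟩
  · rw [← he' c hcO, h0, rs_eq_zero O O.zero_mem, map_zero]
    exact zero_lt_one
  · have h2 : h'.derivative.eval (rs O c) ≠ 0 := by
      rw [← hd' c hcO, Ne, rs_eq_zero O (eval_memO O (derivative_coeff_memO O hO) hcO), h1]
      exact lt_irrefl _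
    apply le_antisymm
    · exact (ValuationSubring.valuation_le_one_iff _ _).mpr (ValuationSubring.mem_top _)
    · have h3 : (⊤ : ValuationSubring (kap O)).valuation (h'.derivative.eval (rs O c))⁻¹ ≤ 1 :=
        (ValuationSubring.valuation_le_one_iff _ _).mpr (ValuationSubring.mem_top _)
      rw [map_inv₀] at h3
      have h4 : 0 < (⊤ : ValuationSubring (kap O)).valuation (h'.derivative.eval (rs O c)) :=
        zero_lt_iff.mpr ((Valuation.ne_zero_iff _).mpr h2)
      exact (inv_le_one₀ h4).mp h3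

omit [Fact p.Prime] [CharP Ω p] [DecidableEq ι] in
theorem mon_val {T : ι → Ω} (hT1 : ∀ i, O.valuation (T i) = 1) (α : ι → Fin p) :
    O.valuation (mon T α) = 1 := by
  rw [mon, map_prod]
  exact Finset.prod_eq_one fun i _ => by rw [map_pow, hT1, one_pow]

omit [Fact p.Prime] [CharP Ω p] in
/-- The residue of a `p`-sum. -/
theorem rs_psum {T : ι → Ω} (hT1 : ∀ i, O.valuation (T i) = 1) (u : (ι → Fin p) → Ω)
    (hu : ∀ α, u α ∈ O) : psum T u ∈ O ∧
      rs O (psum T u) = psum (fun i => rs O (T i)) (fun α => rs O (u α)) := by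
  have hTO : ∀ i, T i ∈ O := fun i => (val_le_one O).mp (hT1 i).le
  have h1 : psum T u = ((∑ α : ι → Fin p, (⟨u α, hu α⟩ : O) ^ p *
      ∏ i, (⟨T i, hTO i⟩ : O) ^ (α i : ℕ) : O) : Ω) := by
    simp [psum, mon]
  refine ⟨h1 ▸ SetLike.coe_mem _, ?_⟩
  rw [h1, rs_coe, map_sum]
  refine Finset.sum_congr rfl fun α _ => ?_
  rw [map_mul, map_pow, map_prod, mon]
  congr 1
  · dsimp only
    rw [rs_mem O (hu α)]
  · refine Finset.prod_congr rfl fun i _ => ?_
    rw [map_pow, rs_mem O (hTO i)]

/-- `p`-independence of the residues from orthogonality. -/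
theorem pind_res {E : Subfield Ω} {T : ι → Ω}
    (hT1 : ∀ i, O.valuation (T i) = 1) (ho : Orth p O E T) :
    PInd p (resL O E) (fun i => rs O (T i)) := by
  intro u hu h0 α
  have h1 : ∀ α, ∃ x ∈ E, x ∈ O ∧ rs O x = u α := fun α => (mem_resL O (u α)).mp (hu α)
  choose x hxE hxO hxu using h1
  obtain ⟨hm, hr⟩ := rs_psum p O hT1 x hxO
  have h2 : O.valuation (psum T x) < 1 := by
    rw [← rs_eq_zero O hm, hr]
    simpa only [hxu] using h0
  have h3 := (ho x hxE α).trans_lt h2
  rw [map_mul, mon_val p O hT1, mul_one, map_pow] at h3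
  rw [← hxu, rs_eq_zero O (hxO α)]
  by_contra hge
  rw [not_lt] at hge
  exact absurd h3 (not_lt.mpr (one_le_pow₀ hge))

end

/-- `p`-independence passes to separable extensions. -/
theorem pind_sep {K : Type*} [Field K] [CharP K p] {E : Subfield K} {T : ι → K}
    (hTE : ∀ i, T i ∈ E) (hi : PInd p E T) {c : K} (hc : IsSeparable E c) :
    PInd p (adj E {c}) T := by
  have : FiniteDimensional E (IntermediateField.adjoin E {c}) :=
    IntermediateField.adjoin.finiteDimensional hc.isIntegral
  have : Algebra.IsSeparable E (IntermediateField.adjoin E {c}) :=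
    (IntermediateField.isSeparable_adjoin_simple_iff_isSeparable E K).mpr hc
  let b := Module.finBasis E (IntermediateField.adjoin E {c})
  have : ExpChar E p := ExpChar.prime Fact.out
  have hb : LinearIndependent E (fun i => (b i) ^ p) := by
    have := b.linearIndependent.map_pow_expChar_pow_of_isSeparable p 1
    simpa using this
  intro u hu h0
  have hu' : ∀ α, u α ∈ IntermediateField.adjoin E {c} := fun α =>
    (mem_adjoin_iff E {c} (u α)).mpr (hu α)
  let a : (ι → Fin p) → Fin _ → E := fun α i => b.repr ⟨u α, hu' α⟩ i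
  have hua : ∀ α, u α = ∑ i, (a α i : K) * (b i : K) := by
    intro α
    have := congrArg (fun z : IntermediateField.adjoin E {c} => (z : K))
      (b.sum_repr ⟨u α, hu' α⟩)
    simp only [IntermediateField.coe_sum] at this
    exact this.symm
  have hup : ∀ α, u α ^ p = ∑ i, (a α i : K) ^ p * (b i : K) ^ p := by
    intro α
    rw [hua α, sum_pow_char]
    exact Finset.sum_congr rfl fun i _ => mul_pow _ _ _
  have hmE : ∀ α : ι → Fin p, mon T α ∈ E := fun α => by
    rw [mon]
    exact Subfield.prod_mem _ fun i _ => E.pow_mem (hTE i) _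
  have hsE : ∀ i, psum T (fun α => (a α i : K)) ∈ E := fun i => by
    rw [psum]
    exact Subfield.sum_mem _ fun α _ => E.mul_mem (E.pow_mem (a α i).2 _) (hmE α)
  have hsum : ∑ i, (⟨psum T (fun α => (a α i : K)), hsE i⟩ : E) • (b i) ^ p = 0 := by
    apply Subtype.val_injective
    have h1 : psum T u = ∑ i, psum T (fun α => (a α i : K)) * (b i : K) ^ p := by
      unfold psum
      rw [Finset.sum_congr rfl (fun α _ => by rw [hup α, Finset.sum_mul]), Finset.sum_comm]
      refine Finset.sum_congr rfl fun i _ => ?_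
      rw [Finset.sum_mul]
      exact Finset.sum_congr rfl fun α _ => by ring
    rw [h0] at h1
    rw [IntermediateField.coe_sum]
    exact h1.symm
  have hzero := Fintype.linearIndependent_iff.mp hb _ hsum
  intro α
  rw [hua α]
  refine Finset.sum_eq_zero fun i _ => ?_
  have h2 : psum T (fun α => (a α i : K)) = 0 := congrArg Subtype.val (hzero i)
  have h3 := hi (fun α => (a α i : K)) (fun α => (a α i).2) h2 α
  rw [h3, zero_mul]

/-- Orthogonality for residually `p`-independent units passes to a simple root. -/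
theorem orth_sroot {E : Subfield Ω} {T : ι → Ω} (hTE : ∀ i, T i ∈ E)
    (hT1 : ∀ i, O.valuation (T i) = 1) (ho : Orth p O E T) {c : Ω} (hc : SRoot O E c) :
    Orth p O (adj E {c}) T := by
  have := kap_charP O p
  have hTO : ∀ i, T i ∈ O := fun i => (val_le_one O).mp (hT1 i).le
  have hK : PInd p (resL O (adj E {c})) (fun i => rs O (T i)) := by
    rw [resL_adj_sroot O hc]
    exact pind_sep (E := resL O E) p (fun i => (mem_resL O _).mpr ⟨T i, hTE i, hTO i, rfl⟩)
      (pind_res p O hT1 ho) (rs_isSeparable O hc)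
  intro u hu α
  have hne : Nonempty (ι → Fin p) := ⟨α⟩
  obtain ⟨β, hβ⟩ := Finite.exists_max (fun α => O.valuation (u α))
  by_cases hβ0 : u β = 0
  · have h1 : u α = 0 := by
      have := hβ α
      rw [hβ0, map_zero] at this
      exact (Valuation.zero_iff _).mp (le_zero_iff.mp this)
    rw [h1, zero_pow (Fact.out : p.Prime).ne_zero, zero_mul, map_zero]
    exact zero_le
  have hvβ : 0 < O.valuation (u β) := zero_lt_iff.mpr ((Valuation.ne_zero_iff _).mpr hβ0)
  have hu' : ∀ α, u α / u β ∈ O := by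
    intro α
    rw [← val_le_one O, map_div₀]
    exact div_le_one_of_le₀ (hβ α) hvβ.le
  obtain ⟨hm, hr⟩ := rs_psum p O hT1 (fun α => u α / u β) hu'
  have h1 : ¬ O.valuation (psum T (fun α => u α / u β)) < 1 := by
    rw [← rs_eq_zero O hm, hr]
    intro h0
    have h2 := hK (fun α => rs O (u α / u β)) (fun α => ⟨u α / u β,
      (adj E {c}).div_mem (hu α) (hu β), hu' α, rfl⟩) h0 β
    rw [div_self hβ0, rs_one] at h2
    exact one_ne_zero h2
  rw [not_lt] at h1
  have h2 : psum T u = u β ^ p * psum T (fun α => u α / u β) := by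
    unfold psum
    rw [Finset.mul_sum]
    refine Finset.sum_congr rfl fun α _ => ?_
    rw [div_pow]
    field_simp
  rw [h2, map_mul, map_mul, mon_val p O hT1, mul_one, map_pow, map_pow]
  calc O.valuation (u α) ^ p ≤ O.valuation (u β) ^ p := pow_le_pow_left₀ zero_le (hβ α) p
    _ ≤ O.valuation (u β) ^ p * O.valuation (psum T (fun α => u α / u β)) :=
        le_mul_of_one_le_right' h1

/-- Orthogonality for residually `p`-independent units passes to simple roots. -/
theorem orth_HC {E : Subfield Ω} {T : ι → Ω} (hTE : ∀ i, T i ∈ E)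
    (hT1 : ∀ i, O.valuation (T i) = 1) (ho : Orth p O E T) : Orth p O (HC O E) T := by
  let S : Set (Subfield Ω) := {L | E ≤ L ∧ Orth p O L T}
  obtain ⟨L, hEL, hLm⟩ := zorn_le_nonempty₀ S (by
    intro C hC hCc L hL
    refine ⟨sSup C, ⟨?_, ?_⟩, fun z hz => le_sSup hz⟩
    · exact (hC hL).1.trans (le_sSup hL)
    · intro u hu α
      have hd : DirectedOn (· ≤ ·) C := hCc.directedOn
      have : ∃ L' ∈ C, ∀ α, u α ∈ L' := by
        have h1 : ∀ α, ∃ L' : C, u α ∈ (L' : Subfield Ω) := by
          intro α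
          obtain ⟨L', hL', h⟩ := (Subfield.mem_sSup_of_directedOn ⟨L, hL⟩ hd).mp (hu α)
          exact ⟨⟨L', hL'⟩, h⟩
        choose f hf using h1
        have : Nonempty C := ⟨⟨L, hL⟩⟩
        have hdir : Directed (· ≤ ·) (fun L' : C => (L' : Subfield Ω)) := hd.directed_val
        obtain ⟨z, hz⟩ := hdir.finite_le f
        exact ⟨z, z.2, fun α => hz α (hf α)⟩
      obtain ⟨L', hL', hu'⟩ := this
      exact (hC hL').2 u hu' α) E ⟨le_rfl, ho⟩
  have hL := hLm.prop
  have hscl : SCl O L := by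
    intro c hc
    have h1 : Orth p O (adj L {c}) T := orth_sroot p O (fun i => hEL (hTE i)) hT1 hL.2 hc
    have h2 := hLm.le_of_ge (y := adj L {c}) ⟨hEL.trans (le_adj _ _), h1⟩ (le_adj _ _)
    exact h2 (subset_adj L {c} rfl)
  have hle : HC O E ≤ L := HC_min hEL hscl
  intro u hu α
  exact hL.2 u (fun α => hle (hu α)) α

theorem isSeparable_mono' {L L' : Subfield Ω} (h : L ≤ L') {x : Ω} (hx : IsSeparable L x) :
    IsSeparable L' x := by
  let _ : Algebra L L' := (Subfield.inclusion h).toAlgebra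
  have : IsScalarTower L L' Ω := IsScalarTower.of_algebraMap_eq (fun _ => rfl)
  exact hx.tower_top L'

theorem D1 {A E : Subfield Ω} {T : ι → Ω} (hA : PCl p A) (hM : acl A ≤ HC O A) (hAE : A ≤ E)
    (hTE : ∀ i, T i ∈ E) (hT1 : ∀ i, O.valuation (T i) = 1) (hT : AlgebraicIndependent A T)
    (ho : Orth p O E T) (hΩ : Algebra.IsAlgebraic (adj A (Set.range T)) Ω)
    (hv : ValEq O A ⊤) : E ≤ HC O (adj A (Set.range T)) := by
  have hAT : A ≤ adj A (Set.range T) := le_adj _ _
  have hATE : adj A (Set.range T) ≤ E := adj_le hAE (by rintro _ ⟨i, rfl⟩; exact hTE i)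
  have hTF : ∀ i, T i ∈ HC O (adj A (Set.range T)) := fun i =>
    le_HC _ (subset_adj A (Set.range T) ⟨i, rfl⟩)
  have hMF : acl A ≤ HC O (adj A (Set.range T)) := hM.trans (HC_mono hAT)
  have hfin : HC O E ≤ HC O (adj A (Set.range T)) := by
    refine D0 p O (M := acl A) (T := T) ⟨fun x => ?_⟩ (HC_scl _) ?_ ?_ hMF ?_ hTF ?_
      (HC_mono hATE) (orth_HC p O hTE hT1 ho)
    · exact isAlgebraic_mono (le_HC _) (hΩ.isAlgebraic x)
    · intro x hx
      obtain ⟨b, hb, hxb⟩ := hv x (Subfield.mem_top x) hx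
      exact ⟨0, b, le_HC _ (hAT hb), by simpa using hxb⟩
    · intro x hx
      exact acl_rac A x (Subfield.mem_top x) hx
    · let _ : Algebra A (acl A) := (Subfield.inclusion (le_acl A)).toAlgebra
      have : IsScalarTower A (acl A) Ω := IsScalarTower.of_algebraMap_eq (fun _ => rfl)
      have : Algebra.IsAlgebraic A (acl A) := ⟨fun x => by
        have h1 : IsAlgebraic A (algebraMap (acl A) Ω x) := (mem_acl A _).mp x.2
        exact (isAlgebraic_algebraMap_iff (algebraMap (acl A) Ω).injective).mp h1⟩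
      exact hT.extendScalars (acl A)
    · intro x hx
      exact isSeparable_mono' (adj_mono (le_acl A) le_rfl) (HC_sep _ hx)
  exact (le_HC E).trans hfin

end Pool.Agent.H92.Tilt
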