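import Pool.Agent.H92.Tilt.B5
import Pool.Agent.H92.Tilt.C

/-!
Auxiliary lemmas for module D2: separability in towers of subfields, values of sums with distinct
values, the property `NP` and the derivation `z d/dz`.
-/

set_option autoImplicit false

namespace Pool.Agent.H92.Tilt

open Polynomial

variable {Ω : Type*} [Field Ω]

namespace D2

section Sep

theorem sep_mono {L F : Subfield Ω} (h : L ≤ F) {x : Ω} (hx : IsSeparable L x) :
    IsSeparable F x := by
  let _ : Algebra L F := (Subfield.inclusion h).toAlgebra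
  have : IsScalarTower L F Ω := IsScalarTower.of_algebraMap_eq fun _ => rfl
  exact hx.tower_top F

theorem sep_trans {L F : Subfield Ω} (h : L ≤ F) (hF : ∀ y ∈ F, IsSeparable L y) {x : Ω}
    (hx : IsSeparable F x) : IsSeparable L x := by
  let _ : Algebra L F := (Subfield.inclusion h).toAlgebra
  have : IsScalarTower L F Ω := IsScalarTower.of_algebraMap_eq fun _ => rfl
  have : Algebra.IsSeparable L F := by
    constructor
    intro y
    have := hF y y.2
    exact (isSeparable_map_iff (IsScalarTower.toAlgHom L F Ω)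
      (algebraMap F Ω).injective).1 this
  exact IsSeparable.of_algebra_isSeparable_of_isSeparable L hx

theorem sep_adj {L : Subfield Ω} {S : Set Ω} (hS : ∀ y ∈ S, IsSeparable L y) {x : Ω}
    (hx : x ∈ adj L S) : IsSeparable L x := by
  rw [← mem_adjoin_iff] at hx
  have h1 : Algebra.IsSeparable L (IntermediateField.adjoin L S) :=
    (IntermediateField.isSeparable_adjoin_iff_isSeparable L Ω).2 hS
  exact IntermediateField.isSeparable_of_mem_isSeparable L Ω hx

end Sep

section Val

variable (O : ValuationSubring Ω)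

/-- Terms with distinct values do not cancel. -/
theorem val_sum {ι : Type*} (s : Finset ι) (a : ι → Ω)
    (hd : ∀ i ∈ s, ∀ j ∈ s, i ≠ j → a i ≠ 0 → a j ≠ 0 →
      O.valuation (a i) ≠ O.valuation (a j)) :
    (∀ j ∈ s, O.valuation (a j) ≤ O.valuation (∑ i ∈ s, a i)) ∧
      (s.Nonempty → ∃ j ∈ s, O.valuation (∑ i ∈ s, a i) = O.valuation (a j)) := by
  classical
  rcases s.eq_empty_or_nonempty with rfl | hs
  · simp
  obtain ⟨k, hk, hmax⟩ := Finset.exists_max_image s (fun i => O.valuation (a i)) hs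
  by_cases h0 : a k = 0
  · have hz : ∀ j ∈ s, a j = 0 := by
      intro j hj
      have := hmax j hj
      rw [h0, map_zero] at this
      exact (map_eq_zero _).1 (le_zero_iff.1 this)
    have hsum : ∑ i ∈ s, a i = 0 := Finset.sum_eq_zero hz
    refine ⟨fun j hj => by rw [hz j hj, hsum], fun _ => ⟨k, hk, by rw [hsum, h0]⟩⟩
  · have hlt : ∀ i ∈ s, i ≠ k → O.valuation (a i) < O.valuation (a k) := by
      intro i hi hik
      refine lt_of_le_of_ne (hmax i hi) ?_
      by_cases hi0 : a i = 0
      · rw [hi0, map_zero]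
        exact fun h => h0 ((map_eq_zero _).1 h.symm)
      · exact hd i hi k hk hik hi0 h0
    have hsum : O.valuation (∑ i ∈ s, a i) = O.valuation (a k) := by
      rw [← Finset.add_sum_erase s a hk]
      apply Valuation.map_add_eq_of_lt_left
      apply Valuation.map_sum_lt
      · rw [Ne, map_eq_zero]; exact h0
      · intro i hi
        rw [Finset.mem_erase] at hi
        exact hlt i hi.2 hi.1
    exact ⟨fun j hj => by rw [hsum]; exact hmax j hj, fun _ => ⟨k, hk, hsum⟩⟩

/-- No element of `L` has a `p`-th power with the value of `z`. -/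
def NP (p : ℕ) (z : Ω) (L : Subfield Ω) : Prop := ∀ x ∈ L, O.valuation (x ^ p) ≠ O.valuation z

variable {O}

theorem NP.coprime {p : ℕ} {z : Ω} {L : Subfield Ω} (h : NP O p z L) (hz : z ∈ L) (hz0 : z ≠ 0)
    {n m : ℕ} (hnm : n < m) (hmp : m < n + p) (hp : p.Prime) {x y : Ω} (hx : x ∈ L) (hy : y ∈ L)
    (hx0 : x ≠ 0) (hy0 : y ≠ 0) :
    O.valuation (x ^ p * z ^ n) ≠ O.valuation (y ^ p * z ^ m) := by
  intro he
  have hvz : O.valuation z ≠ 0 := by rw [Ne, map_eq_zero]; exact hz0
  have hvx : O.valuation x ≠ 0 := by rw [Ne, map_eq_zero]; exact hx0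
  have hvy : O.valuation y ≠ 0 := by rw [Ne, map_eq_zero]; exact hy0
  obtain ⟨d, rfl⟩ : ∃ d, m = n + d := ⟨m - n, by omega⟩
  have hd0 : 0 < d := by omega
  have hdp : d < p := by omega
  have hcop : IsCoprime (d : ℤ) (p : ℤ) := by
    rw [Nat.isCoprime_iff_coprime]
    exact (Nat.coprime_of_lt_prime hd0.ne' hdp hp).symm
  obtain ⟨α, β, hαβ⟩ := hcop
  have h1 : O.valuation z ^ (d : ℤ) = O.valuation (x / y) ^ (p : ℤ) := by
    rw [map_mul, map_mul, map_pow, map_pow, map_pow, map_pow, pow_add] at he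
    rw [map_div₀, zpow_natCast, zpow_natCast, div_pow, eq_div_iff (pow_ne_zero _ hvy)]
    have h2 : O.valuation z ^ n ≠ 0 := pow_ne_zero _ hvz
    apply mul_left_cancel₀ h2
    calc O.valuation z ^ n * (O.valuation z ^ d * O.valuation y ^ p) =
        O.valuation y ^ p * (O.valuation z ^ n * O.valuation z ^ d) := by
          rw [← mul_assoc, mul_comm]
      _ = O.valuation x ^ p * O.valuation z ^ n := he.symm
      _ = _ := mul_comm _ _
  have h2 : O.valuation z = O.valuation (((x / y) ^ α * z ^ β) ^ p) := by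
    calc O.valuation z = O.valuation z ^ (1 : ℤ) := (zpow_one _).symm
      _ = O.valuation z ^ (α * d + β * p) := by rw [hαβ]
      _ = (O.valuation z ^ (d : ℤ)) ^ α * (O.valuation z ^ β) ^ (p : ℤ) := by
          rw [zpow_add₀ hvz, zpow_mul, zpow_mul, zpow_comm]
      _ = _ := by
          rw [h1, map_pow, map_mul, map_zpow₀, map_zpow₀, mul_pow, zpow_comm, zpow_natCast, zpow_natCast]
  refine h ((x / y) ^ α * z ^ β) ?_ h2.symm
  exact L.mul_mem (zpow_mem (L.div_mem hx hy) _) (zpow_mem hz _)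

end Val

section Theta

/-- The derivation `z d/dz` of a field with `p`-basis `z`. -/
theorem exists_theta {K : Type*} [Field K] (p : ℕ) [Fact p.Prime] [CharP K p] (z : K)
    (hind : ∀ u : Fin p → K, ∑ i, u i ^ p * z ^ (i : ℕ) = 0 → ∀ i, u i = 0)
    (hspan : ∀ f : K, ∃ u : Fin p → K, f = ∑ i, u i ^ p * z ^ (i : ℕ)) :
    ∃ θ : Derivation ℤ K K, ∀ u : Fin p → K,
      θ (∑ i, u i ^ p * z ^ (i : ℕ)) = ∑ i : Fin p, ((i : ℕ) : K) * (u i ^ p * z ^ (i : ℕ)) := by
  classical
  have hp : p.Prime := Fact.out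
  choose U hU using hspan
  have huniq : ∀ u w : Fin p → K, ∑ i, u i ^ p * z ^ (i : ℕ) = ∑ i, w i ^ p * z ^ (i : ℕ) →
      u = w := by
    intro u w h
    have h1 : ∑ i, (u i - w i) ^ p * z ^ (i : ℕ) = 0 := by
      rw [← sub_eq_zero] at h
      rw [← h, ← Finset.sum_sub_distrib]
      apply Finset.sum_congr rfl
      intro i _
      rw [sub_pow_char]
      ring
    funext i
    exact sub_eq_zero.1 (hind _ h1 i)
  let t : K → K := fun f => ∑ i : Fin p, ((i : ℕ) : K) * (U f i ^ p * z ^ (i : ℕ))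
  have ht : ∀ u : Fin p → K,
      t (∑ i, u i ^ p * z ^ (i : ℕ)) = ∑ i : Fin p, ((i : ℕ) : K) * (u i ^ p * z ^ (i : ℕ)) := by
    intro u
    have h1 : U (∑ i, u i ^ p * z ^ (i : ℕ)) = u := huniq _ _ (hU _).symm
    simp only [t]
    rw [h1]
  have hadd : ∀ f g, t (f + g) = t f + t g := by
    intro f g
    have h1 : f + g = ∑ i, (U f i + U g i) ^ p * z ^ (i : ℕ) := by
      conv_lhs => rw [hU f, hU g]
      rw [← Finset.sum_add_distrib]
      apply Finset.sum_congr rfl
      intro i _
      rw [add_pow_char]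
      ring
    rw [h1, ht]
    simp only [t]
    rw [← Finset.sum_add_distrib]
    apply Finset.sum_congr rfl
    intro i _
    rw [add_pow_char]
    ring
  let T : K →+ K :=
    { toFun := t
      map_zero' := by
        have := hadd 0 0
        rw [add_zero] at this
        exact left_eq_add.1 this
      map_add' := hadd }
  have hT : ∀ f, T f = t f := fun _ => rfl
  -- homogeneous elements
  have hhom : ∀ (u : K) (n : ℕ), T (u ^ p * z ^ n) = (n : K) * (u ^ p * z ^ n) := by
    intro u n
    have hlt : n % p < p := Nat.mod_lt _ hp.pos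
    have h1 : u ^ p * z ^ n =
        ∑ i : Fin p, (if i = ⟨n % p, hlt⟩ then u * z ^ (n / p) else 0) ^ p * z ^ (i : ℕ) := by
      rw [Finset.sum_eq_single ⟨n % p, hlt⟩]
      · rw [if_pos rfl, mul_pow, ← pow_mul, mul_assoc, ← pow_add]
        congr 2
        rw [mul_comm]
        exact (Nat.div_add_mod n p).symm
      · intro b _ hb
        rw [if_neg hb, zero_pow hp.ne_zero, zero_mul]
      · intro h
        exact absurd (Finset.mem_univ _) h
    have h2 : ((n % p : ℕ) : K) = (n : K) := by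
      have h3 := congrArg (Nat.cast : ℕ → K) (Nat.div_add_mod n p)
      push_cast at h3
      rw [← h3, CharP.cast_eq_zero K p, zero_mul, zero_add]
    rw [hT]
    conv_lhs => rw [h1, ht]
    rw [Finset.sum_eq_single ⟨n % p, hlt⟩]
    · rw [if_pos rfl, h2]
      congr 1
      rw [mul_pow, ← pow_mul, mul_assoc, ← pow_add]
      congr 2
      rw [mul_comm]
      exact Nat.div_add_mod n p
    · intro b _ hb
      rw [if_neg hb, zero_pow hp.ne_zero, zero_mul, mul_zero]
    · intro h
      exact absurd (Finset.mem_univ _) h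
  refine ⟨Derivation.mk' (T.toIntLinearMap) ?_, ?_⟩
  · intro f g
    change T (f * g) = f • T g + g • T f
    rw [smul_eq_mul, smul_eq_mul]
    have hf := hU f
    have hg := hU g
    have e1 : f * g = ∑ i : Fin p, ∑ j : Fin p, (U f i * U g j) ^ p * z ^ ((i : ℕ) + (j : ℕ)) := by
      conv_lhs => rw [hf, hg, Finset.sum_mul_sum]
      apply Finset.sum_congr rfl
      intro i _
      apply Finset.sum_congr rfl
      intro j _
      rw [mul_pow, pow_add]
      ring
    have e2 : f * T g = ∑ i : Fin p, ∑ j : Fin p,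
        ((j : ℕ) : K) * ((U f i * U g j) ^ p * z ^ ((i : ℕ) + (j : ℕ))) := by
      have : T g = ∑ i : Fin p, ((i : ℕ) : K) * (U g i ^ p * z ^ (i : ℕ)) := rfl
      rw [this]
      conv_lhs => rw [hf]
      rw [Finset.sum_mul_sum]
      apply Finset.sum_congr rfl
      intro i _
      apply Finset.sum_congr rfl
      intro j _
      rw [mul_pow, pow_add]
      ring
    have e3 : g * T f = ∑ i : Fin p, ∑ j : Fin p,
        ((i : ℕ) : K) * ((U f i * U g j) ^ p * z ^ ((i : ℕ) + (j : ℕ))) := by
      have : T f = ∑ i : Fin p, ((i : ℕ) : K) * (U f i ^ p * z ^ (i : ℕ)) := rfl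
      rw [this]
      conv_lhs => rw [hg]
      rw [mul_comm, Finset.sum_mul_sum]
      apply Finset.sum_congr rfl
      intro i _
      apply Finset.sum_congr rfl
      intro j _
      rw [mul_pow, pow_add]
      ring
    rw [e1, e2, e3, map_sum, ← Finset.sum_add_distrib]
    apply Finset.sum_congr rfl
    intro i _
    rw [map_sum, ← Finset.sum_add_distrib]
    apply Finset.sum_congr rfl
    intro j _
    rw [hhom]
    push_cast
    ring
  · intro u
    exact ht u

end Theta

section PBone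

theorem psum_unit {p : ℕ} (z : Ω) (u : (Unit → Fin p) → Ω) :
    psum (fun _ : Unit => z) u = ∑ i : Fin p, u (fun _ => i) ^ p * z ^ (i : ℕ) := by
  unfold psum mon
  refine Fintype.sum_equiv (Equiv.funUnique Unit (Fin p)) _ _ ?_
  intro α
  have : (fun _ : Unit => (Equiv.funUnique Unit (Fin p)) α) = α := by
    funext x
    cases x
    rfl
  rw [this]
  simp

theorem PB.one {p : ℕ} {z : Ω} {L : Subfield Ω} (h : PB p L (fun _ : Unit => z)) :
    z ∈ L ∧ (∀ u : Fin p → Ω, (∀ i, u i ∈ L) → ∑ i, u i ^ p * z ^ (i : ℕ) = 0 → ∀ i, u i = 0) ∧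
      ∀ f ∈ L, ∃ u : Fin p → Ω, (∀ i, u i ∈ L) ∧ f = ∑ i, u i ^ p * z ^ (i : ℕ) := by
  refine ⟨h.mem (), ?_, ?_⟩
  · intro u hu h0 i
    have := h.ind (fun α => u (α ())) (fun α => hu _) (by rw [psum_unit]; exact h0) (fun _ => i)
    exact this
  · intro f hf
    obtain ⟨u, hu, hfu⟩ := h.span f hf
    exact ⟨fun i => u (fun _ => i), fun i => hu _, by rw [hfu, psum_unit]⟩

/-- `NP` gives orthogonality of `1, z, ..`. -/
theorem NP.orth {p : ℕ} [Fact p.Prime] {O : ValuationSubring Ω} {z : Ω} {L : Subfield Ω}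
    (h : NP O p z L) (hz : z ∈ L) (hz0 : z ≠ 0) {u : Fin p → Ω} (hu : ∀ i, u i ∈ L) :
    ∀ j : Fin p, O.valuation (u j ^ p * z ^ (j : ℕ)) ≤
      O.valuation (∑ i, u i ^ p * z ^ (i : ℕ)) := by
  have hp : p.Prime := Fact.out
  have key := (val_sum O Finset.univ (fun i : Fin p => u i ^ p * z ^ (i : ℕ)) ?_).1
  · intro j
    exact key j (Finset.mem_univ _)
  · have haux : ∀ i j : Fin p, i < j → u i ^ p * z ^ (i : ℕ) ≠ 0 → u j ^ p * z ^ (j : ℕ) ≠ 0 →
        O.valuation (u i ^ p * z ^ (i : ℕ)) ≠ O.valuation (u j ^ p * z ^ (j : ℕ)) := by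
      intro i j hij hi hj
      have hi0 : u i ≠ 0 := fun h0 => hi (by rw [h0, zero_pow hp.ne_zero, zero_mul])
      have hj0 : u j ≠ 0 := fun h0 => hj (by rw [h0, zero_pow hp.ne_zero, zero_mul])
      exact h.coprime hz hz0 hij (by have := j.2; omega) hp (hu i) (hu j) hi0 hj0
    intro i _ j _ hij hi hj
    rcases lt_or_gt_of_ne hij with hlt | hgt
    · exact haux i j hlt hi hj
    · exact (haux j i hgt hj hi).symm

theorem NP.Orth {p : ℕ} [Fact p.Prime] {O : ValuationSubring Ω} {z : Ω} {L : Subfield Ω}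
    (h : NP O p z L) (hz : z ∈ L) (hz0 : z ≠ 0) : Orth p O L (fun _ : Unit => z) := by
  intro u hu α
  rw [psum_unit]
  have h1 := NP.orth h hz hz0 (u := fun i => u (fun _ => i)) (fun i => hu _) (α ())
  have h2 : (fun _ : Unit => α ()) = α := by
    funext x
    cases x
    rfl
  rw [h2] at h1
  simpa [mon] using h1

variable (p : ℕ) [Fact p.Prime] [CharP Ω p] [IsAlgClosed Ω] {O : ValuationSubring Ω}

/-- `NP` passes to simple roots. -/
theorem NP.sroot {z : Ω} {L : Subfield Ω} (hPB : PB p L (fun _ : Unit => z)) (hz0 : z ≠ 0)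
    (hNP : NP O p z L) {c : Ω} (hc : SRoot O L c) : NP O p z (adj L {c}) := by
  have hp : p.Prime := Fact.out
  have hzL : z ∈ L := hPB.mem ()
  have hle : L ≤ adj L {c} := le_adj _ _
  have hsep : ∀ x ∈ adj L {c}, IsSeparable L x := fun x hx =>
    sep_adj (S := {c}) (by rintro y rfl; exact hc.isSeparable) hx
  have hPB' : PB p (adj L {c}) (fun _ : Unit => z) := pb_sep p hPB hle hsep
  obtain ⟨hzL', hind', hspan'⟩ := PB.one hPB'
  obtain ⟨-, -, hspan⟩ := PB.one hPB
  have hcL' : c ∈ adj L {c} := subset_adj L {c} (Set.mem_singleton c)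
  have : CharP (adj L {c}) p :=
    (RingHom.charP_iff (algebraMap (adj L {c}) Ω) (algebraMap (adj L {c}) Ω).injective p).2
      inferInstance
  let zK : adj L {c} := ⟨z, hzL'⟩
  have hcoe : ∀ u : Fin p → adj L {c},
      ((∑ i, u i ^ p * zK ^ (i : ℕ) : adj L {c}) : Ω) = ∑ i, (u i : Ω) ^ p * z ^ (i : ℕ) := by
    intro u
    push_cast
    rfl
  obtain ⟨θ, hθ⟩ := exists_theta p zK
    (by
      intro u hu i
      have h1 := congrArg (Subtype.val) hu
      rw [hcoe] at h1
      exact Subtype.ext (hind' (fun i => (u i : Ω)) (fun i => (u i).2) h1 i))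
    (by
      intro f
      obtain ⟨u, hu, hfu⟩ := hspan' f f.2
      refine ⟨fun i => ⟨u i, hu i⟩, Subtype.ext ?_⟩
      rw [hcoe]
      exact hfu)
  have hnat : ∀ n : ℕ, O.valuation (n : Ω) ≤ 1 := fun n => (val_le_one O).2 (natCast_mem O n)
  -- the subring of elements with small derivative
  let I : Subring (adj L {c}) :=
    { carrier := {x | (x : Ω) ∈ O ∧ O.valuation ((θ x : adj L {c}) : Ω) < 1}
      mul_mem' := by
        rintro a b ⟨ha, ha'⟩ ⟨hb, hb'⟩
        refine ⟨O.mul_mem _ _ ha hb, ?_⟩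
        rw [θ.leibniz]
        push_cast
        apply Valuation.map_add_lt
        · change O.valuation ((a : Ω) * ((θ b : adj L {c}) : Ω)) < 1
          rw [map_mul]
          exact lt_of_le_of_lt (mul_le_of_le_one_left' ((val_le_one O).2 ha)) hb'
        · change O.valuation ((b : Ω) * ((θ a : adj L {c}) : Ω)) < 1
          rw [map_mul]
          exact lt_of_le_of_lt (mul_le_of_le_one_left' ((val_le_one O).2 hb)) ha'
      one_mem' := by
        refine ⟨O.one_mem, ?_⟩
        rw [θ.map_one_eq_zero]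
        simp
      add_mem' := by
        rintro a b ⟨ha, ha'⟩ ⟨hb, hb'⟩
        refine ⟨O.add_mem _ _ ha hb, ?_⟩
        rw [map_add]
        push_cast
        exact Valuation.map_add_lt _ ha' hb'
      zero_mem' := by
        refine ⟨O.zero_mem, ?_⟩
        rw [map_zero]
        simp
      neg_mem' := by
        rintro a ⟨ha, ha'⟩
        refine ⟨O.neg_mem _ ha, ?_⟩
        rw [map_neg]
        push_cast
        rw [Valuation.map_neg]
        exact ha' }
  -- elements of `L ∩ O`
  have hLI : ∀ a : adj L {c}, (a : Ω) ∈ L → (a : Ω) ∈ O → a ∈ I := by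
    intro a haL haO
    refine ⟨haO, ?_⟩
    obtain ⟨u, hu, hau⟩ := hspan a haL
    have hau' : a = ∑ i, (⟨u i, hle (hu i)⟩ : adj L {c}) ^ p * zK ^ (i : ℕ) := by
      apply Subtype.ext
      rw [hcoe]
      exact hau
    rw [hau', hθ]
    push_cast
    apply Valuation.map_sum_lt _ one_ne_zero
    intro i _
    rw [map_mul]
    have hterm := NP.orth hNP hzL hz0 hu i
    rw [← hau] at hterm
    have hterm1 : O.valuation (u i ^ p * z ^ (i : ℕ)) ≤ 1 := hterm.trans ((val_le_one O).2 haO)
    by_cases hi0 : (i : ℕ) = 0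
    · rw [hi0]
      simp
    · refine lt_of_le_of_lt (mul_le_of_le_one_left' (hnat _)) ?_
      refine lt_of_le_of_ne hterm1 ?_
      by_cases hui : u i = 0
      · change O.valuation (u i ^ p * z ^ (i : ℕ)) ≠ 1
        rw [hui, zero_pow hp.ne_zero, zero_mul, map_zero]
        exact zero_ne_one
      · have := hNP.coprime (n := 0) (m := i) hzL hz0 (Nat.pos_of_ne_zero hi0)
          (by have := i.2; omega) hp L.one_mem (hu i) one_ne_zero hui
        rw [one_pow, pow_zero, one_mul, map_one] at this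
        exact this.symm
  -- values of polynomials
  let cK : adj L {c} := ⟨c, hcL'⟩
  have hcO : c ∈ O := hc.memO
  have heval : ∀ G : Polynomial Ω, ∀ hG : ∀ i, G.coeff i ∈ L,
      G.eval c = ((∑ i ∈ Finset.range (G.natDegree + 1),
        (⟨G.coeff i, hle (hG i)⟩ : adj L {c}) * cK ^ i : adj L {c}) : Ω) := by
    intro G hG
    rw [eval_eq_sum_range]
    push_cast
    rfl
  have hcI : cK ∈ I := by
    refine ⟨hcO, ?_⟩
    obtain ⟨h, hm, hL, hO, hc0, hd⟩ := hc
    have h0 := heval h hL
    rw [hc0] at h0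
    have h1 : (∑ i ∈ Finset.range (h.natDegree + 1),
        (⟨h.coeff i, hle (hL i)⟩ : adj L {c}) * cK ^ i : adj L {c}) = 0 := Subtype.ext h0.symm
    have h2 := congrArg θ h1
    rw [map_zero, map_sum] at h2
    have h3 : (∑ i ∈ Finset.range (h.natDegree + 1),
          cK ^ i * θ (⟨h.coeff i, hle (hL i)⟩ : adj L {c})) +
        (∑ i ∈ Finset.range (h.natDegree + 1),
          (⟨h.coeff i, hle (hL i)⟩ : adj L {c}) * ((i : ℕ) * cK ^ (i - 1))) * θ cK = 0 := by
      rw [Finset.sum_mul, ← Finset.sum_add_distrib, ← h2]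
      apply Finset.sum_congr rfl
      intro i _
      rw [θ.leibniz, θ.leibniz_pow]
      simp only [smul_eq_mul, nsmul_eq_mul]
      ring
    have h4 : h.derivative.eval c =
        ((∑ i ∈ Finset.range (h.natDegree + 1),
          (⟨h.coeff i, hle (hL i)⟩ : adj L {c}) * ((i : ℕ) * cK ^ (i - 1)) : adj L {c}) : Ω) := by
      rw [derivative_eval, Polynomial.sum_over_range]
      · push_cast
        apply Finset.sum_congr rfl
        intro i _
        simp only [cK]
        ring
      · intro n; simp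
    have h5 := congrArg (Subtype.val) h3
    rw [Subfield.coe_add, Subfield.coe_mul, ← h4] at h5
    have h6 : O.valuation ((∑ i ∈ Finset.range (h.natDegree + 1),
          cK ^ i * θ (⟨h.coeff i, hle (hL i)⟩ : adj L {c}) : adj L {c}) : Ω) < 1 := by
      push_cast
      apply Valuation.map_sum_lt _ one_ne_zero
      intro i _
      rw [map_mul, map_pow]
      refine lt_of_le_of_lt (mul_le_of_le_one_left' (pow_le_one' ((val_le_one O).2 hcO) _)) ?_
      exact (hLI _ (hL i) (hO i)).2
    have h7 : O.valuation (h.derivative.eval c * ((θ cK : adj L {c}) : Ω)) < 1 := by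
      have h8 : h.derivative.eval c * ((θ cK : adj L {c}) : Ω) =
          -((∑ i ∈ Finset.range (h.natDegree + 1),
          cK ^ i * θ (⟨h.coeff i, hle (hL i)⟩ : adj L {c}) : adj L {c}) : Ω) := by
        rw [eq_neg_iff_add_eq_zero, add_comm]
        exact h5
      rw [h8, Valuation.map_neg]
      exact h6
    rw [map_mul, hd, one_mul] at h7
    exact h7
  have hGI : ∀ G : Polynomial Ω, (∀ i, G.coeff i ∈ L) → (∀ i, G.coeff i ∈ O) →
      ∃ y ∈ I, (y : Ω) = G.eval c := by
    intro G hG hGO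
    refine ⟨_, ?_, (heval G hG).symm⟩
    exact I.sum_mem fun i _ => I.mul_mem (hLI _ (hG i) (hGO i)) (I.pow_mem hcI _)
  -- every element of `L(c) ∩ O` has a small derivative
  have hall : ∀ x : adj L {c}, (x : Ω) ∈ O → O.valuation ((θ x : adj L {c}) : Ω) < 1 := by
    intro x hxO
    obtain ⟨G1, G2, h1L, h1O, h2L, h2O, hv, he⟩ := sroot_repr O hc x.2 hxO
    obtain ⟨y1, hy1, hy1e⟩ := hGI G1 h1L h1O
    obtain ⟨y2, hy2, hy2e⟩ := hGI G2 h2L h2O
    have h1 : x * y2 = y1 := by
      apply Subtype.ext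
      push_cast
      rw [hy1e, hy2e]
      exact he
    have h2 := congrArg θ h1
    rw [θ.leibniz] at h2
    simp only [smul_eq_mul] at h2
    have h3 : ((y2 : adj L {c}) : Ω) * ((θ x : adj L {c}) : Ω) =
        ((θ y1 : adj L {c}) : Ω) - (x : Ω) * ((θ y2 : adj L {c}) : Ω) := by
      have h4 := congrArg (Subtype.val) h2
      rw [Subfield.coe_add, Subfield.coe_mul, Subfield.coe_mul] at h4
      rw [← h4]
      ring
    have h4 : O.valuation (((y2 : adj L {c}) : Ω) * ((θ x : adj L {c}) : Ω)) < 1 := by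
      rw [h3]
      apply Valuation.map_sub_lt
      · exact hy1.2
      · rw [map_mul]
        exact lt_of_le_of_lt (mul_le_of_le_one_left' ((val_le_one O).2 hxO)) hy2.2
    rw [map_mul, hy2e, hv, one_mul] at h4
    exact h4
  -- conclusion
  intro y hy hyz
  have hvz : O.valuation z ≠ 0 := by rw [Ne, map_eq_zero]; exact hz0
  have hy0 : y ≠ 0 := by
    intro h
    rw [h, zero_pow hp.ne_zero, map_zero] at hyz
    exact hvz hyz.symm
  let yK : adj L {c} := ⟨y, hy⟩
  let i1 : Fin p := ⟨1, hp.one_lt⟩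
  have hw : (yK⁻¹) ^ p * zK = ∑ i : Fin p, (if i = i1 then yK⁻¹ else 0) ^ p * zK ^ (i : ℕ) := by
    rw [Finset.sum_eq_single i1]
    · rw [if_pos rfl]
      simp [i1]
    · intro b _ hb
      rw [if_neg hb, zero_pow hp.ne_zero, zero_mul]
    · intro h
      exact absurd (Finset.mem_univ _) h
  have hθw : θ ((yK⁻¹) ^ p * zK) = (yK⁻¹) ^ p * zK := by
    conv_lhs => rw [hw, hθ]
    rw [Finset.sum_eq_single i1]
    · rw [if_pos rfl]
      simp [i1]
    · intro b _ hb
      rw [if_neg hb, zero_pow hp.ne_zero, zero_mul, mul_zero]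
    · intro h
      exact absurd (Finset.mem_univ _) h
  have hvw : O.valuation ((((yK⁻¹) ^ p * zK : adj L {c})) : Ω) = 1 := by
    push_cast
    change O.valuation ((y⁻¹) ^ p * z) = 1
    rw [inv_pow, map_mul, map_inv₀, hyz, inv_mul_cancel₀ hvz]
  have := hall ((yK⁻¹) ^ p * zK) ((val_le_one O).1 hvw.le)
  rw [hθw, hvw] at this
  exact lt_irrefl _ this

end PBone

section Root

variable {O : ValuationSubring Ω}

theorem NP.pow_ne {p : ℕ} {z : Ω} {L : Subfield Ω} (h : NP O p z L) (hz : z ∈ L) (hz0 : z ≠ 0)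
    {n : ℕ} (hn : n.Coprime p) {y : Ω} (hy : y ∈ L) :
    O.valuation (z ^ n) ≠ O.valuation (y ^ p) := by
  intro he
  have hvz : O.valuation z ≠ 0 := by rw [Ne, map_eq_zero]; exact hz0
  have hcop : IsCoprime (n : ℤ) (p : ℤ) := Nat.isCoprime_iff_coprime.2 hn
  obtain ⟨α, β, hαβ⟩ := hcop
  have h1 : O.valuation z ^ (n : ℤ) = O.valuation y ^ (p : ℤ) := by
    rw [zpow_natCast, zpow_natCast, ← map_pow, ← map_pow, he]
  have h2 : O.valuation z = O.valuation ((y ^ α * z ^ β) ^ p) := by
    calc O.valuation z = O.valuation z ^ (1 : ℤ) := (zpow_one _).symm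
      _ = O.valuation z ^ (α * n + β * p) := by rw [hαβ]
      _ = (O.valuation z ^ (n : ℤ)) ^ α * (O.valuation z ^ β) ^ (p : ℤ) := by
          rw [zpow_add₀ hvz, zpow_mul, zpow_mul, zpow_comm]
      _ = _ := by
          rw [h1, map_pow, map_mul, map_zpow₀, map_zpow₀, mul_pow, zpow_comm, zpow_natCast, zpow_natCast]
  exact h (y ^ α * z ^ β) (L.mul_mem (zpow_mem hy _) (zpow_mem hz _)) h2.symm

theorem val_natCast (p : ℕ) [CharP Ω p] {n : ℕ} (hn : n.Coprime p) :
    O.valuation (n : Ω) = 1 := by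
  obtain ⟨α, β, hαβ⟩ := Nat.isCoprime_iff_coprime.2 hn
  have h1 : (α : Ω) * (n : Ω) = 1 := by
    have := congrArg (Int.cast : ℤ → Ω) hαβ
    push_cast at this
    rw [CharP.cast_eq_zero Ω p, mul_zero, add_zero] at this
    exact this
  have h2 : O.valuation (α : Ω) ≤ 1 := (val_le_one O).2 (intCast_mem O α)
  have h3 : O.valuation (n : Ω) ≤ 1 := (val_le_one O).2 (natCast_mem O n)
  have h4 : O.valuation (α : Ω) * O.valuation (n : Ω) = 1 := by rw [← map_mul, h1, map_one]
  apply le_antisymm h3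
  by_contra hlt
  rw [not_le] at hlt
  exact absurd h4 (lt_of_le_of_lt (mul_le_of_le_one_left' h2) hlt).ne

theorem val_eq_one_of_pow {x : Ω} {n : ℕ} (hn : n ≠ 0) (h : O.valuation (x ^ n) = 1) :
    O.valuation x = 1 := by
  rw [map_pow] at h
  exact (pow_eq_one_iff.1 h).resolve_right hn

/-- A root `s` of `X ^ n - w`, `w ∈ L ∩ O` a unit, is a simple root. -/
theorem sroot_of_pow (p : ℕ) [CharP Ω p] {L : Subfield Ω} {n : ℕ} (hn : n.Coprime p) (hn0 : n ≠ 0)
    {s w : Ω} (hw : w ∈ L) (hv : O.valuation w = 1) (hs : s ^ n = w) : SRoot O L s := by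
  refine ⟨X ^ n - C w, monic_X_pow_sub_C w hn0, ?_, ?_, ?_, ?_⟩
  · intro i
    rw [coeff_sub, coeff_X_pow, coeff_C]
    refine L.sub_mem ?_ ?_
    · split_ifs
      · exact L.one_mem
      · exact L.zero_mem
    · split_ifs
      · exact hw
      · exact L.zero_mem
  · intro i
    rw [coeff_sub, coeff_X_pow, coeff_C]
    refine O.toSubring.sub_mem ?_ ?_
    · split_ifs
      · exact O.one_mem
      · exact O.zero_mem
    · split_ifs
      · exact (val_le_one O).1 hv.le
      · exact O.zero_mem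
  · rw [eval_sub, eval_pow, eval_X, eval_C, hs, sub_self]
  · rw [derivative_sub, derivative_X_pow, derivative_C, sub_zero, eval_mul, eval_pow, eval_X,
      eval_C, map_mul, map_pow, val_natCast (O := O) p hn, one_mul]
    have : O.valuation s = 1 := val_eq_one_of_pow hn0 (by rw [hs]; exact hv)
    rw [this, one_pow]

theorem sep_of_pow (p : ℕ) [CharP Ω p] {L : Subfield Ω} {n : ℕ} (hn : n.Coprime p) (_hn0 : n ≠ 0)
    {s w : Ω} (hw : w ∈ L) (hw0 : w ≠ 0) (hs : s ^ n = w) : IsSeparable L s := by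
  have hsep : (X ^ n - C (⟨w, hw⟩ : L)).Separable := by
    apply separable_X_pow_sub_C
    · intro h
      have h1 := congrArg (Subtype.val) h
      push_cast at h1
      obtain ⟨α, β, hαβ⟩ := Nat.isCoprime_iff_coprime.2 hn
      have h2 := congrArg (Int.cast : ℤ → Ω) hαβ
      push_cast at h2
      rw [h1, CharP.cast_eq_zero Ω p, mul_zero, mul_zero, add_zero] at h2
      exact zero_ne_one h2
    · intro h
      exact hw0 (congrArg (Subtype.val) h)
  refine hsep.of_dvd (minpoly.dvd L s ?_)
  rw [map_sub, map_pow, aeval_X, aeval_C, hs]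
  exact sub_self _

/-- Adjoining a root `s` of prime degree `q ≠ p` to an s-closed field. -/
theorem NP.root (p : ℕ) [Fact p.Prime] [CharP Ω p] {z : Ω} {L : Subfield Ω}
    (hNP : NP O p z L) (hzL : z ∈ L) (hz0 : z ≠ 0) (hL : SCl O L) {q : ℕ} (hq : q.Prime)
    (hqp : q ≠ p) {s w : Ω} (hw : w ∈ L) (hw0 : w ≠ 0) (hs : s ^ q = w) :
    s ∈ L ∨ NP O p z (adj L {s}) := by
  have hp : p.Prime := Fact.out
  have hcop : q.Coprime p := (Nat.coprime_primes hq hp).2 hqp
  by_cases hex : ∃ y ∈ L, O.valuation w = O.valuation (y ^ q)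
  · left
    obtain ⟨y, hy, hwy⟩ := hex
    have hy0 : y ≠ 0 := by
      intro h
      rw [h, zero_pow hq.ne_zero, map_zero, map_eq_zero] at hwy
      exact hw0 hwy
    have h1 : (s / y) ∈ L := by
      apply hL
      refine sroot_of_pow p hcop hq.ne_zero (w := w / y ^ q) (L.div_mem hw (L.pow_mem hy _)) ?_ ?_
      · rw [map_div₀, hwy, div_self]
        rw [Ne, map_eq_zero]
        exact pow_ne_zero _ hy0
      · rw [div_pow, hs]
    have h2 : s = (s / y) * y := by field_simp
    rw [h2]
    exact L.mul_mem h1 hy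
  · right
    push Not at hex
    have hNPw : NP O q w L := fun y hy h => hex y hy h.symm
    intro x hx hxz
    -- representation of `x`
    have hsint : IsIntegral L s := by
      refine ⟨X ^ q - C (⟨w, hw⟩ : L), monic_X_pow_sub_C _ hq.ne_zero, ?_⟩
      rw [eval₂_sub, eval₂_pow, eval₂_X, eval₂_C, hs]
      exact sub_self _
    obtain ⟨Y, hY⟩ := B5.exists_poly hsint hx
    set f : Polynomial L := X ^ q - C (⟨w, hw⟩ : L) with hf
    have hfm : f.Monic := monic_X_pow_sub_C _ hq.ne_zero
    have hfs : (f.map (algebraMap L Ω)).eval s = 0 := by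
      rw [hf, Polynomial.map_sub, Polynomial.map_pow, map_X, map_C, eval_sub, eval_pow, eval_X,
        eval_C, hs]
      exact sub_self _
    set R : Polynomial L := Y %ₘ f with hR
    have hRs : (R.map (algebraMap L Ω)).eval s = x := by
      have h1 := modByMonic_add_div Y f
      have h2 := congrArg (fun r => (Polynomial.map (algebraMap L Ω) r).eval s) h1
      simp only [Polynomial.map_add, Polynomial.map_mul, eval_add, eval_mul] at h2
      rw [hfs, zero_mul, add_zero, hY] at h2
      exact h2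
    have hRdeg : R.natDegree < q := by
      have h1 : R.degree < f.degree := degree_modByMonic_lt _ hfm
      have h2 : f.degree = q := degree_X_pow_sub_C hq.pos _
      rw [h2] at h1
      by_cases hR0 : R = 0
      · rw [hR0, natDegree_zero]; exact hq.pos
      · exact (natDegree_lt_iff_degree_lt hR0).2 h1
    have hsum : x = ∑ i ∈ Finset.range q, (R.coeff i : Ω) * s ^ i := by
      rw [← hRs, eval_eq_sum_range' (n := q) (by rw [natDegree_map]; exact hRdeg)]
      apply Finset.sum_congr rfl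
      intro i _
      rw [coeff_map]
      rfl
    -- distinct values
    have haux : ∀ i j : ℕ, i < j → j < q → (R.coeff i : Ω) * s ^ i ≠ 0 →
        (R.coeff j : Ω) * s ^ j ≠ 0 →
        O.valuation ((R.coeff i : Ω) * s ^ i) ≠ O.valuation ((R.coeff j : Ω) * s ^ j) := by
      intro i j hij hjq hi hj he
      have hi0 : (R.coeff i : Ω) ≠ 0 := left_ne_zero_of_mul hi
      have hj0 : (R.coeff j : Ω) ≠ 0 := left_ne_zero_of_mul hj
      refine hNPw.coprime hw hw0 hij (by omega) hq (R.coeff i).2 (R.coeff j).2 hi0 hj0 ?_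
      have h1 : ∀ i : ℕ, (R.coeff i : Ω) ^ q * w ^ i = ((R.coeff i : Ω) * s ^ i) ^ q := by
        intro i
        rw [mul_pow, ← hs]
        ring
      rw [h1, h1, map_pow, map_pow, he]
    have hval := (val_sum O (Finset.range q) (fun i => (R.coeff i : Ω) * s ^ i) (by
      intro i hi j hj hij hi0 hj0
      rw [Finset.mem_range] at hi hj
      rcases lt_or_gt_of_ne hij with h | h
      · exact haux i j h hj hi0 hj0
      · exact (haux j i h hi hj0 hi0).symm)).2 ⟨0, Finset.mem_range.2 hq.pos⟩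
    obtain ⟨i, -, hi⟩ := hval
    rw [← hsum] at hi
    -- contradiction
    refine hNP.pow_ne hzL hz0 hcop (y := (R.coeff i : Ω) ^ q * w ^ i)
      (L.mul_mem (L.pow_mem (R.coeff i).2 _) (L.pow_mem hw _)) ?_
    have h1 : (R.coeff i : Ω) ^ q * w ^ i = ((R.coeff i : Ω) * s ^ i) ^ q := by
      rw [mul_pow, ← hs]
      ring
    calc O.valuation (z ^ q) = O.valuation z ^ q := map_pow _ _ _
      _ = (O.valuation (x ^ p)) ^ q := by rw [hxz]
      _ = ((O.valuation x) ^ q) ^ p := by rw [map_pow, ← pow_mul, ← pow_mul, mul_comm]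
      _ = (O.valuation ((R.coeff i : Ω) * s ^ i) ^ q) ^ p := by rw [hi]
      _ = _ := by rw [h1, map_pow, map_pow]

end Root

end D2

end Pool.Agent.H92.Tilt
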