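import Pool.Agent.H92.Tilt.D0
import Pool.Agent.H92.Tilt.D2x

/-!
Module D2: the value-transcendental case.

`E / B(z)` is algebraic, no `x ∈ E` has `v(x^p) = v z`, so `1, z, .., z^(p-1)` are orthogonal over `E^p`
(distinct values), C3 gives `PB E z` (one-element family) and `E / B(z)` separable.
`NP(L)`: no `x ∈ L` with `v(x^p) = v z`. For `E ≤ L` separable algebraic `PB L z` (C1) and `NP(L)` is
equivalent to: `θ(L ∩ O) ⊆ m`, where `θ(∑ u_i^p z^i) = ∑ i u_i^p z^i` is a derivation (`z d/dz`):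
if `NP(L)`, the terms of `x = ∑ u_i^p z^i ∈ O` have distinct values, none of value `1` for `i ≠ 0`;
conversely if `v(x^p) = v z`, `θ(z/x^p) = z/x^p` is a unit. `NP` passes to
(a) `L(c)`, `c` a simple root over `L`: with `g = minpoly`, `θ(c) = - g^θ(c)/g'(c) ∈ m` and B5
(`x G2(c) = G1(c)`) gives `θ(x) ∈ m`;
(b) `L(s)`, `L` s-closed, `s^q = w ∈ L` with `w^n' = z`, `q ≠ p` prime, roots of unity in `acl B ⊆ L`: if
`v w` is the value of a `q`-th power in `L` then `s ∈ L`; otherwise the values of `1, s, .., s^(q-1)` are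
distinct modulo the values of `L`, `x = ∑ a_i s^i` has `v x = v(a_i s^i)` for some `i`, so
`v(z^q) = v((a_i^q w^i)^p)` and `NP(L)` fails since `gcd(p,q) = 1`;
(c) unions of chains.
Zorn: `Em` maximal with `E ≤ Em` separable algebraic, `NP(Em)`. It is s-closed, contains `acl B`
(`acl B ≤ HC B`) and all `s` with `s^n = z`, `n` prime to `p` (induction on `n`, (b)). Apply D0 to
`F = HC (acl B (Z))`, `L = Em`, `M = acl B`, `T = (z)`: `hv` holds since every value `v x`
satisfies `v(x^n) = v(z^k a)`, `n = p^j n'`, `a = a'^n'`, `z = s^n'`.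
-/

set_option autoImplicit false

namespace Pool.Agent.H92.Tilt

open Polynomial

variable {Ω : Type*} [Field Ω] (p : ℕ) [Fact p.Prime] [CharP Ω p] [IsAlgClosed Ω]
  (O : ValuationSubring Ω)

namespace D2

omit [Fact p.Prime] [CharP Ω p] in
/-- Values of `M(z)`, `M` algebraically closed, `v z` not a value of `M`. -/
theorem val_rational {M : Subfield Ω} (hM : ∀ x, IsAlgebraic M x → x ∈ M) {z : Ω}
    (hzM : ∀ b ∈ M, O.valuation z ≠ O.valuation b) {x : Ω} (hx : x ∈ adj M {z}) (hx0 : x ≠ 0) :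
    ∃ a ∈ M, ∃ n : ℤ, O.valuation x = O.valuation (a * z ^ n) := by
  have hz0 : z ≠ 0 := by
    intro h
    exact hzM 0 M.zero_mem (by rw [h])
  -- polynomials
  have hpoly : ∀ P : Polynomial M, aeval z P ≠ 0 →
      ∃ a ∈ M, ∃ n : ℕ, O.valuation (aeval z P) = O.valuation (a * z ^ n) := by
    intro P _
    have hsum : aeval z P = ∑ i ∈ Finset.range (P.natDegree + 1), (P.coeff i : Ω) * z ^ i := by
      rw [aeval_eq_sum_range]
      apply Finset.sum_congr rfl
      intro i _
      rw [Algebra.smul_def]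
      rfl
    have haux : ∀ i j : ℕ, i < j → (P.coeff i : Ω) * z ^ i ≠ 0 → (P.coeff j : Ω) * z ^ j ≠ 0 →
        O.valuation ((P.coeff i : Ω) * z ^ i) ≠ O.valuation ((P.coeff j : Ω) * z ^ j) := by
      intro i j hij hi hj he
      have hi0 : (P.coeff i : Ω) ≠ 0 := left_ne_zero_of_mul hi
      have hj0 : (P.coeff j : Ω) ≠ 0 := left_ne_zero_of_mul hj
      obtain ⟨d, rfl⟩ : ∃ d, j = i + d := ⟨j - i, by omega⟩
      have hd : 0 < d := by omega
      obtain ⟨b, hb⟩ := IsAlgClosed.exists_pow_nat_eq ((P.coeff i : Ω) / (P.coeff (i + d) : Ω)) hd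
      have hbM : b ∈ M := by
        apply hM
        refine ⟨X ^ d - C (P.coeff i / P.coeff (i + d)), X_pow_sub_C_ne_zero hd _, ?_⟩
        rw [map_sub, map_pow, aeval_X, aeval_C, hb]
        exact sub_self _
      refine hzM b hbM ?_
      have h1 : O.valuation z ^ d = O.valuation b ^ d := by
        rw [← map_pow, ← map_pow, hb, map_div₀, eq_div_iff (by rwa [Ne, map_eq_zero]), ← map_mul]
        have hvi : O.valuation (z ^ i) ≠ 0 := by rw [Ne, map_eq_zero]; exact pow_ne_zero _ hz0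
        apply mul_left_cancel₀ hvi
        rw [← map_mul, ← map_mul]
        have e1 : z ^ i * (z ^ d * (P.coeff (i + d) : Ω)) = (P.coeff (i + d) : Ω) * z ^ (i + d) := by
          rw [pow_add]; ring
        have e2 : z ^ i * (P.coeff i : Ω) = (P.coeff i : Ω) * z ^ i := mul_comm _ _
        rw [e1, e2, he]
      exact (pow_left_inj₀ zero_le zero_le hd.ne').1 h1
    have hval := (val_sum O (Finset.range (P.natDegree + 1)) (fun i => (P.coeff i : Ω) * z ^ i) (by
      intro i _ j _ hij hi0 hj0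
      rcases lt_or_gt_of_ne hij with h | h
      · exact haux i j h hi0 hj0
      · exact (haux j i h hj0 hi0).symm)).2 ⟨0, Finset.mem_range.2 (Nat.succ_pos _)⟩
    obtain ⟨i, -, hi⟩ := hval
    exact ⟨_, (P.coeff i).2, i, by rw [hsum, hi]⟩
  rw [← mem_adjoin_iff, IntermediateField.mem_adjoin_simple_iff] at hx
  obtain ⟨r, s, rfl⟩ := hx
  have hr : aeval z r ≠ 0 := fun h => hx0 (by rw [h, zero_div])
  have hs : aeval z s ≠ 0 := fun h => hx0 (by rw [h, div_zero])
  obtain ⟨a, ha, n, han⟩ := hpoly r hr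
  obtain ⟨b, hb, m, hbm⟩ := hpoly s hs
  refine ⟨a / b, M.div_mem ha hb, (n : ℤ) - m, ?_⟩
  rw [map_div₀, han, hbm, ← map_div₀]
  congr 1
  rw [zpow_sub₀ hz0, zpow_natCast, zpow_natCast]
  rw [div_mul_div_comm]

end D2

open D2 in
theorem D2 {B E : Subfield Ω} {z : Ω} (hB : PCl p B) (hM : acl B ≤ HC O B) (hBE : B ≤ E)
    (hz : z ∈ E) (hzM : ∀ b ∈ acl B, O.valuation z ≠ O.valuation b)
    (hnp : ∀ x ∈ E, O.valuation (x ^ p) ≠ O.valuation z)
    (hΩ : Algebra.IsAlgebraic (adj B {z}) Ω) :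
    E ≤ HC O (adj (acl B) {s | ∃ n : ℕ, n.Coprime p ∧ s ^ n = z}) := by
  classical
  have hp : p.Prime := Fact.out
  have hz0 : z ≠ 0 := by
    intro h
    exact hzM 0 (acl B).zero_mem (by rw [h])
  have hzB : ¬ IsAlgebraic B z := fun h => hzM z ((mem_acl B z).2 h) rfl
  have hMclosed : ∀ x, IsAlgebraic (acl B) x → x ∈ acl B := fun x hx =>
    acl_rac B x (Subfield.mem_top x) hx
  set T : Unit → Ω := fun _ => z with hT
  have hrange : Set.range T = {z} := Set.range_const
  -- p-bases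
  have hTB : AlgebraicIndependent B T := algebraicIndependent_unique_type_iff.2 hzB
  have hPB0 : PB p (adj B {z}) T := by
    have := pb_rational p hB hTB
    rwa [hrange] at this
  have hadjE : adj B {z} ≤ E := adj_le hBE (Set.singleton_subset_iff.2 hz)
  have hPBE : PB p E T :=
    (pb_of_ind p hPB0 hadjE (fun x _ => hΩ.isAlgebraic x)
      (pind_of_orth p O (fun _ => hz0) (NP.Orth (L := E) hnp hz hz0))).1
  -- Zorn
  let S : Set (Subfield Ω) := {L | E ≤ L ∧ (∀ x ∈ L, IsSeparable E x) ∧ NP O p z L}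
  have hES : E ∈ S := ⟨le_rfl, fun x hx => isSeparable_algebraMap (⟨x, hx⟩ : E), hnp⟩
  obtain ⟨Em, hEm, hmax⟩ := zorn_le_nonempty₀ S (by
    intro c hc hchain y hy
    have hdir : DirectedOn (· ≤ ·) c := hchain.directedOn
    refine ⟨sSup c, ⟨(hc hy).1.trans (le_sSup hy), ?_, ?_⟩, fun _ hw => le_sSup hw⟩
    · intro x hx
      obtain ⟨L, hL, hxL⟩ := (Subfield.mem_sSup_of_directedOn ⟨y, hy⟩ hdir).1 hx
      exact (hc hL).2.1 x hxL
    · intro x hx
      obtain ⟨L, hL, hxL⟩ := (Subfield.mem_sSup_of_directedOn ⟨y, hy⟩ hdir).1 hx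
      exact (hc hL).2.2 x hxL) E hES
  obtain ⟨⟨hEEm, hEmsep, hEmNP⟩, hEmmax⟩ := hmax
  have hzEm : z ∈ Em := hEEm hz
  have hPBEm : PB p Em T := pb_sep p hPBE hEEm hEmsep
  have hadd : ∀ c : Ω, IsSeparable Em c → NP O p z (adj Em {c}) → c ∈ Em := by
    intro c hc hNP
    have h1 : adj Em {c} ∈ S := by
      refine ⟨hEEm.trans (le_adj _ _), ?_, hNP⟩
      intro x hx
      exact sep_trans hEEm hEmsep (sep_adj (S := {c}) (by rintro y rfl; exact hc) hx)
    exact hEmmax h1 (le_adj _ _) (subset_adj Em {c} (Set.mem_singleton c))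
  have hscl : SCl O Em := fun c hc => hadd c hc.isSeparable (NP.sroot p hPBEm hz0 hEmNP hc)
  have hMEm : acl B ≤ Em := hM.trans (HC_min (hBE.trans hEEm) hscl)
  have hroots : ∀ n : ℕ, n.Coprime p → ∀ s : Ω, s ^ n = z → s ∈ Em := by
    intro n
    induction n using Nat.strong_induction_on with
    | _ n ih =>
      intro hn s hs
      by_cases h1 : n = 1
      · rw [h1, pow_one] at hs
        rw [hs]; exact hzEm
      · have hq : n.minFac.Prime := Nat.minFac_prime h1
        obtain ⟨n', hn'⟩ := Nat.minFac_dvd n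
        have hn0 : n ≠ 0 := by
          intro h
          rw [h, Nat.coprime_zero_left] at hn
          exact hp.one_lt.ne' hn
        have hn'0 : n' ≠ 0 := by
          rintro rfl
          exact hn0 (by rw [hn', mul_zero])
        have hlt : n' < n := by
          calc n' = 1 * n' := (one_mul _).symm
            _ < n.minFac * n' := Nat.mul_lt_mul_of_pos_right hq.one_lt (Nat.pos_of_ne_zero hn'0)
            _ = n := hn'.symm
        have hcn' : n'.Coprime p := Nat.Coprime.coprime_dvd_left ⟨n.minFac, by rw [mul_comm]; exact hn'⟩ hn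
        have hcq : n.minFac.Coprime p := Nat.Coprime.coprime_dvd_left (Nat.minFac_dvd n) hn
        have hqp : n.minFac ≠ p := by
          intro h
          rw [h, Nat.coprime_self] at hcq
          exact hp.one_lt.ne' hcq
        have hw : s ^ n.minFac ∈ Em := ih n' hlt hcn' _ (by rw [← pow_mul, ← hn', hs])
        have hs0 : s ≠ 0 := by
          rintro rfl
          rw [zero_pow hn0] at hs
          exact hz0 hs.symm
        rcases NP.root p hEmNP hzEm hz0 hscl hq hqp hw (pow_ne_zero _ hs0) rfl with h | h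
        · exact h
        · exact hadd s (sep_of_pow p hcq hq.ne_zero hw (pow_ne_zero _ hs0) rfl) h
  -- application of D0
  set Z : Set Ω := {s | ∃ n : ℕ, n.Coprime p ∧ s ^ n = z} with hZ
  have hzZ : z ∈ Z := ⟨1, Nat.coprime_one_left p, pow_one z⟩
  have hF1 : acl B ≤ HC O (adj (acl B) Z) := (le_adj _ _).trans (le_HC _)
  have hZF : Z ⊆ HC O (adj (acl B) Z) := fun s hs => le_HC _ (subset_adj _ _ hs)
  have hadjF : adj B {z} ≤ HC O (adj (acl B) Z) :=
    adj_le ((le_acl B).trans hF1) (Set.singleton_subset_iff.2 (hZF hzZ))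
  have hzadj : z ∈ adj (acl B) {z} := subset_adj _ _ (Set.mem_singleton z)
  have hadjle : adj (acl B) {z} ≤ adj (acl B) Z :=
    adj_mono le_rfl (Set.singleton_subset_iff.2 hzZ)
  refine hEEm.trans (D0 p O (T := T) (M := acl B) ?_ (HC_scl _) ?_ hMclosed hF1 ?_ ?_ ?_ ?_ ?_)
  · constructor
    intro x
    exact isAlgebraic_mono hadjF (hΩ.isAlgebraic x)
  · -- values
    intro x hx0
    have hxalg : IsAlgebraic (adj (acl B) {z}) x :=
      isAlgebraic_mono (adj_mono (le_acl B) le_rfl) (hΩ.isAlgebraic x)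
    obtain ⟨N, hN, l0, hl0, hl00, hxl⟩ := val_torsion O hxalg hx0
    obtain ⟨a, ha, n, han⟩ := val_rational O hMclosed hzM hl0 hl00
    obtain ⟨k, n', hn', hNn⟩ := Nat.exists_eq_pow_mul_and_not_dvd hN.ne' p hp.one_lt.ne'
    have hn'0 : 0 < n' := by
      apply Nat.pos_of_ne_zero
      rintro rfl
      exact hn' (dvd_zero _)
    have hcop : n'.Coprime p := ((Nat.Prime.coprime_iff_not_dvd hp).2 hn').symm
    obtain ⟨s, hs⟩ := IsAlgClosed.exists_pow_nat_eq z hn'0
    obtain ⟨a', ha'⟩ := IsAlgClosed.exists_pow_nat_eq a hn'0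
    have ha'M : a' ∈ acl B := by
      apply hMclosed
      refine ⟨X ^ n' - C (⟨a, ha⟩ : acl B), X_pow_sub_C_ne_zero hn'0 _, ?_⟩
      rw [map_sub, map_pow, aeval_X, aeval_C, ha']
      exact sub_self _
    refine ⟨k, a' * s ^ n, Subfield.mul_mem _ (hF1 ha'M) (zpow_mem (hZF ⟨n', hcop, hs⟩) _), ?_⟩
    have h1 : O.valuation (x ^ p ^ k) ^ n' = O.valuation (a' * s ^ n) ^ n' := by
      rw [← map_pow, ← pow_mul, ← hNn, hxl, han, ← map_pow, mul_pow, ha', ← hs]
      congr 2
      rw [← zpow_natCast, ← zpow_natCast, zpow_comm]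
    exact (pow_left_inj₀ zero_le zero_le hn'0.ne').1 h1
  · -- independence
    refine algebraicIndependent_unique_type_iff.2 ?_
    intro h
    exact hzM z (hMclosed z h) rfl
  · intro _
    exact hZF hzZ
  · -- separability
    intro x hx
    rw [hrange]
    refine sep_trans hadjle ?_ (HC_sep _ hx)
    intro y hy
    have hy' : y ∈ adj (adj (acl B) {z}) Z := adj_mono (le_adj _ _) le_rfl hy
    refine sep_adj ?_ hy'
    rintro s ⟨n, hn, hs⟩
    have hn0 : n ≠ 0 := by
      intro h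
      rw [h, Nat.coprime_zero_left] at hn
      exact hp.one_lt.ne' hn
    exact sep_of_pow p hn hn0 hzadj hz0 hs
  · -- `F ≤ Em`
    refine HC_min (adj_le hMEm ?_) hscl
    rintro s ⟨n, hn, hs⟩
    exact hroots n hn s hs
  · exact NP.Orth hEmNP hzEm hz0

end Pool.Agent.H92.Tilt
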