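import Pool.Agent.H92.Tilt.B4
import Pool.Agent.H58.Tilt.Bridge

/-!
Module D3: rank one immediate extensions of an algebraically closed field.

`Ω / M` is immediate: `himm`. (So every `x ∈ O` is congruent to an element of `M`, and `Ω` and `M` have
the same values.) `approx`: every element of `HC (M(z))` can be approximated arbitrarily well by
`Q(z)`, `Q ∈ M[X]`. Proof: the closure `C` of `M[z]` in `Ω` is a ring; it is a field
(`x ≠ 0`: `v(x-a) < v x`, `a ∈ M`, geometric series, `Arch`); it is s-closed (Newton iteration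
from `a ∈ M` with `c ≡ a`, `Arch`); it contains `M(z)`.

D3. Induction on the degree of `F(S)` over `F = HC (M(z))`. If `S ⊆ F`, `z1 = z`. Otherwise B4 gives
`y ∈ F(S)`, `y ∉ F`, `y^p - y = f ∈ F`. By `approx` and `sroot_as` (a root of `X^p - X = δ`, `v δ < 1`, is
in `F`) we may assume `y^p - y = Q(z)`, `Q ∈ M[X]`. For `a ∈ M` expand `Q(z) = ∑ Q_j(a) (z-a)^j` and
replace `c (z-a)^(p^e m)` by `c^(1/p^e) (z-a)^m` (changing `y` by an element of `M[z]`), and remove the
constant term (solve `X^p - X = const` in `M`): `y_a^p - y_a = ∑_{m ≥ 1, (m,p)=1} g_m(a) (z-a)^m`,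
`g_m(a) = ∑_e Q_{p^e m}(a)^(1/p^e)`. `g_m(a)^(p^E)` is a polynomial in `a` over `M`, so `v(g_m(a))` is
constant for `a` close to `z` (`v(a-α) = v(z-α)` for the roots `α ∈ M`, once `v(z-a) < v(z-α)`); there
are `a ∈ M` arbitrarily close in the sense that `v(z-a)` is below finitely many `v(z-α)`, and `v(z-a)`
has no minimum. So for `a` close enough a unique `m0` dominates the values `v(g_m(a)(z-a)^m)`. The
maximum is `> 1` (otherwise `y_a ∈ F` by `sroot_as`). Compare the linear coefficient of the reduced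
form at a closer centre `a'` (the reduced form is unique: if `∑_{(m,p)=1} g_m X^m = h^p - h` modulo
constants then all `g_m = 0`): with `b = a' - a`, `v b = v(z-a)`, it is
`∑_e (∑_m g_m(a) binom(m, p^e) b^(m-p^e))^(1/p^e)`; the `e = 0` term has value
`v(g_{m0}(a)) v(z-a)^(m0-1)` and the others are strictly smaller, because
`V := v(g_{m0}(a)(z-a)^{m0}) > 1` and `V^(1/p^e) < V`. So `v(g_1(a')) = v(g_{m0}(a)) v(z-a)^(m0-1)`;
the left side is constant for `a'` close to `z`, so `m0 = 1`. Then, with `d ∈ M`, `v d = v(z-a)`,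
`ζ = (z-a)/d` is a root of `X + ∑_{m≥2} ε_m X^m - w/(g_1 d)`, `v ε_m < 1`, `w = y_a^p - y_a`, congruent to
`w/(g_1 d)`: `ζ ∈ HC (M(y_a))` (`SCl.hensel_nonmonic`). So `z ∈ HC (M(y_a))`,
`F(y) ≤ HC (M(y_a)) ≤ HC (M(z, S))`, and the degree of `S` drops.
-/

set_option autoImplicit false

namespace Pool.Agent.H92.Tilt

open Polynomial

variable {Ω : Type*} [Field Ω] [IsAlgClosed Ω] (O : ValuationSubring Ω)

/-- Approximation of elements of `HC (M(z))` by polynomials in `z`. -/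
theorem approx (harch : Arch O) {M : Subfield Ω}
    (himm : ∀ x : Ω, x ≠ 0 → ∃ a ∈ M, O.valuation (x - a) < O.valuation x) (z : Ω) {x : Ω}
    (hx : x ∈ HC O (adj M {z})) {ε : Ω} (hε : ε ≠ 0) :
    ∃ Q : Polynomial Ω, (∀ i, Q.coeff i ∈ M) ∧ O.valuation (x - Q.eval z) < O.valuation ε := by
  rw [← H58.Tilt.hc_eq_92, ← H58.Tilt.adj_eq_92] at hx
  obtain ⟨P, hP⟩ := H58.Tilt.HC_le_closI (H58.Tilt.r1_of_arch O harch) himm z hx ε hε
  refine ⟨P.map (algebraMap M Ω), fun i => ?_, ?_⟩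
  · rw [coeff_map]; exact (P.coeff i).2
  · rwa [eval_map_algebraMap]

theorem D3 (p : ℕ) [Fact p.Prime] [CharP Ω p] (harch : Arch O) {M : Subfield Ω} (hM : ∀ x, IsAlgebraic M x → x ∈ M)
    (himm : ∀ x : Ω, x ≠ 0 → ∃ a ∈ M, O.valuation (x - a) < O.valuation x)
    {z : Ω} (hz : z ∉ M) (hΩ : Algebra.IsAlgebraic (adj M {z}) Ω) (S : Finset Ω)
    (hS : ∀ s ∈ S, IsSeparable (adj M {z}) s) :
    ∃ z1, HC O (adj M (insert z (S : Set Ω))) = HC O (adj M {z1}) := by
  have hMc : IsAlgClosed M := H58.Tilt.algClosed_of hM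
  have hadj : ∀ T : Set Ω, H58.Tilt.adj M T = adj M T := H58.Tilt.adj_eq_92 M
  have hB2 : ∀ L : Subfield Ω, M ≤ L → H58.Tilt.SCl O.valuation L → Algebra.IsAlgebraic L Ω →
      H58.Tilt.VInv O.valuation L := by
    intro L _ hL halg
    exact H58.Tilt.vinv_of O fun σ hσ x =>
      val_auto p O ((H58.Tilt.scl_iff_92 O L).1 hL).hcl halg σ hσ x
  have hB4 : ∀ L : Subfield Ω, M ≤ L → H58.Tilt.SCl O.valuation L → Algebra.IsAlgebraic L Ω →
      ∀ x : Ω, IsSeparable L x → x ∉ L →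
        ∃ y ∈ H58.Tilt.adj L {x}, y ∉ L ∧ y ^ p - y ∈ L := by
    intro L hML hL halg x hx hxL
    rw [H58.Tilt.adj_eq_92]
    refine artin_schreier_step p O ((H58.Tilt.scl_iff_92 O L).1 hL) halg (fun w hw => ?_) hx hxL
    obtain ⟨a, ha, hwa⟩ := himm w hw
    refine ⟨0, a, hML ha, ?_⟩
    have e : a = w - (w - a) := by ring
    rw [pow_zero, pow_one, e, O.valuation.map_sub_eq_of_lt_left hwa]
  have halg : Algebra.IsAlgebraic (H58.Tilt.adj M {z}) Ω := by rw [hadj]; exact hΩ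
  have hsep : ∀ s ∈ insert z (S : Set Ω), IsSeparable (H58.Tilt.adj M {z}) s := by
    intro s hs
    rw [hadj]
    rcases Set.mem_insert_iff.1 hs with rfl | hs
    · exact isSeparable_algebraMap (⟨s, subset_adj M {s} rfl⟩ : adj M {s})
    · exact hS s hs
  obtain ⟨z₁, _, _, h⟩ := H58.Tilt.d3 (v := O.valuation) p (H58.Tilt.r1_of_arch O harch) himm hB2
    hB4 (S := insert z (S : Set Ω)) (S.finite_toSet.insert z) hz
    (H58.Tilt.subset_adj M _ (Set.mem_insert z _)) halg hsep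
  refine ⟨z₁, ?_⟩
  rw [← hadj, ← hadj, ← H58.Tilt.hc_eq_92, ← H58.Tilt.hc_eq_92, h]

end Pool.Agent.H92.Tilt
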