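import Pool.Agent.H92.Tilt.D4a
import Pool.Agent.H92.Tilt.B6
import Pool.Agent.H58.Tilt.D4x

/-!
Module D4: rank one descent.

If `S ⊆ B` take any `z ∈ B'`, `z ∉ B`. Let `M = acl B`; `Ω / M` is immediate. Enlarge `S` by a separating
transcendence element `z0` of `B(S)/B` (`B` perfect; Mathlib: SeparablyGenerated). D3:
`Φ := HC (M(S)) = HC (M(z1))`. A w-automorphism is `σ : Ω ≃+* Ω` over `M` with `v(σ x) = v x` for all
`x`; put `D x = σ x - x`. For `a ∈ M`: `v(D z1) < v(z1 - a)`.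
CUT = `{d : v d < v(z1 - a) for all a ∈ M}`. For a polynomial `Q` over `M` and `d ∈ CUT`:
`v(Q_j(z1) d^j) < v(Q(z1))` for `j ≥ 1` (`Q_j` Hasse derivatives; factor `Q` over `M`).

(Lip) If `η ∈ HC (M(z1))`, `d0 ∈ CUT`, `v η < v d0`, then `v(D η) < v(D z1)` for all w-automorphisms with
`D z1 ≠ 0` [if `v(D z1) ≥ v d0` clear; otherwise approximate `η` by `R(z1)` better than `D z1`, and use
`v(R_j(z1) d0^j) ≤ v η`].

(Lin) Let `τ ∈ Aut(Ω/B')`, `u := τ z1`. (`τ` preserves `O`, `M`, `S`, `Φ`; so `u ∈ HC (M(z1))`,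
`z1 ∈ HC (M(u))`, and the cut of `u` is that of `z1`.) Suppose some w-automorphism moves `z1`, let
`d0` be its `D z1`. There is `β ∈ M`, `v β = 1`, with `v(D u - β D z1) < v(D z1)` for all
w-automorphisms with `D z1 ≠ 0`. Proof: choose `Q*` over `M` with `v(z1 - Q*(u)) < v d0`, then `Q` with
`η = u - Q(z1)` so small that `v(η) < v(d0)` and `v(Q*_j(u) η^j) < v d0` for all `j ≥ 1`.
`R := Q*(Q(X)) - X` has `v(R(z1)) < v d0`. For `r ∈ CUT` with `v r ≥ v d0`: `v(R_j(z1) r^j) < v r`. Normalize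
`q(ξ) = (Q(z1 + rξ) - Q(z1))/s`, `q*(ξ) = (Q*(Q(z1) + sξ) - Q*(Q(z1)))/s'` to have content `1`;
`s' q*(q(ξ)) = r ξ + (R(z1 + rξ) - R(z1))`, so modulo `m` the composition of the two nonconstant
residue polynomials is `c ξ`: both are linear. So `v(Q_1(z1) r) > v(Q_j(z1) r^j)`, `j ≥ 2`, for
all `r ∈ CUT` (for smaller `r` it follows). Take `β ∈ M` with `v(Q_1(z1) - β) < v(Q_1(z1))`. Then
`D u = Q_1(z1) D z1 + (smaller) + D η`, `v(D η) < v(D z1)`. `v β = 1`: `D_σ(τ x) = τ(D_{τ⁻¹στ} x)`, iterate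
along the finite orbit of `z1` under `τ`: if `v(Q_1) > 1`, `a_k(σ) := v(D_σ(τ^k z1))` satisfies
`a_1(σ) > a_0(σ)` for all `σ` with `a_0(σ) ≠ 0` and `a_{k+1}(σ) = a_k(τ⁻¹στ)`, so `a_{k+1}(σ) > a_k(σ)`, but
the orbit is finite; if `v(Q_1) < 1` the `a_k` decrease strictly (none of them is `0`: a
w-automorphism over `M` fixing one `τ^k z1` fixes `HC (M(τ^k z1)) = Φ`, B1).

End: `z1 ∈ HC B' `, so `z1 ∈ N`, `N` finite Galois over `B'`, generated by simple roots,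
`G = Gal(N/B')` acts faithfully on residues, and as `k_B = k_{B'}` every residue of `N` is the residue of
an element of `N ∩ M`. By Dedekind there is `λ ∈ N ∩ M ∩ O` with `∑_τ β_τ τ(λ)` a unit. `z := ∑_τ τ(λ z1)`
is in `B'`, and `v(D z) = v(D z1)` for all w-automorphisms. If `L = cl (M(z))` and `σ ∈ Aut(Ω/L)`, then
`σ` is a w-automorphism with `σ x ≡ x` on `O` (B2, B3), `D z = 0`, so `D z1 = 0`; `Fix σ` is s-closed
(B1), contains `M(z1)`, so contains `Φ ⊇ S`. `L` is perfect: `S ⊆ L` (`mem_of_fixed`). If no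
w-automorphism moves `z1`, the same argument with `L = cl M` gives `S ⊆ M ∩ B' = B`. `z ∉ B`, since
otherwise all w-automorphisms fix `z`, so `z1`, so `S ⊆ B`.
-/

set_option autoImplicit false

namespace Pool.Agent.H92.Tilt

open Polynomial

variable {Ω : Type*} [Field Ω] (p : ℕ) [Fact p.Prime] [CharP Ω p] [IsAlgClosed Ω]
  (O : ValuationSubring Ω)

/-- An element of `HC (M(z1))` lies in `cl (M(z))` if the value-preserving automorphisms over `M(z)`
fix `z1`. -/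
theorem mem_cl_of_fix {M : Subfield Ω}
    (himm : ∀ x : Ω, x ≠ 0 → ∃ a ∈ M, O.valuation (x - a) < O.valuation x) {z z1 s : Ω}
    (halg : ∀ x : Ω, IsAlgebraic (adj M {z}) x)
    (hfix : ∀ σ : Ω ≃+* Ω, WAut O M σ → σ z = z → σ z1 = z1) (hs : s ∈ HC O (adj M {z1})) :
    s ∈ cl p O (adj M {z}) := by
  have h1 : Algebra.IsAlgebraic (cl p O (adj M {z})) Ω :=
    ⟨fun x => isAlgebraic_mono (le_cl _) (halg x)⟩
  refine mem_of_fixed p (cl_pcl _) h1 fun σ hσ => ?_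
  have hW : WAut O M σ := ⟨fun x hx => hσ x (le_cl _ (le_adj M {z} hx)),
    fun x => val_auto p O (cl_scl _).hcl h1 σ hσ x⟩
  exact hW.fix_HC O himm (hfix σ hW (hσ z (le_cl _ (subset_adj M {z} rfl)))) hs

theorem D4 (harch : Arch O) {B B' : Subfield Ω} (hBB' : B ≤ B') (hW : W p O B)
    (hW' : W p O B') (hres : ResEq O B B') (hval : ValEq O B B')
    (hΩ : Algebra.IsAlgebraic B' Ω) (htr : Tr1 B B') (S : Finset Ω) (hS : (S : Set Ω) ⊆ B') :
    ∃ z ∈ B', z ∉ B ∧ ∀ s ∈ S, s ∈ cl p O (adj (acl B) {z}) := by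
  have hM : ∀ x, IsAlgebraic (acl B) x → x ∈ acl B := fun x hx =>
    acl_rac B x (Subfield.mem_top x) hx
  have hMc : IsAlgClosed (acl B) := H58.Tilt.algClosed_of hM
  have himm := H58.Tilt.imm_acl O p hW' hres hval hΩ
  obtain ⟨z', hz'B', hz't, hz'alg⟩ := htr
  have hz'M : ¬ IsAlgebraic (acl B) z' := fun h => hz't ((mem_acl B z').1 (hM z' h))
  have hall' : ∀ x : Ω, IsAlgebraic (adj (acl B) {z'}) x := fun x =>
    isAlgebraic_trans (F := B') (fun y hy =>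
      isAlgebraic_mono (adj_mono (le_acl B) le_rfl) (hz'alg y hy)) (hΩ.isAlgebraic x)
  by_cases hSM : ∃ s ∈ S, ¬ IsAlgebraic (acl B) s
  · obtain ⟨z0, hz0S, hz0t, hsep⟩ := H58.Tilt.exists_sep p hall' S hSM
    have hz0M : z0 ∉ acl B := fun h => hz0t (isAlgebraic_of_mem h)
    have halg0 : Algebra.IsAlgebraic (adj (acl B) {z0}) Ω :=
      ⟨H58.Tilt.exch hall' hz0t⟩
    obtain ⟨z1, hz1⟩ := D3 O p harch hM himm hz0M halg0 S hsep
    have hadj : adj (acl B) (insert z0 (S : Set Ω)) = adj (acl B) (S : Set Ω) :=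
      le_antisymm (adj_le (le_adj _ _) (Set.insert_subset hz0S (subset_adj _ _)))
        (adj_mono le_rfl (Set.subset_insert _ _))
    rw [hadj] at hz1
    have hsΦ : ∀ s ∈ S, s ∈ HC O (adj (acl B) {z1}) := fun s hs => by
      rw [← hz1]; exact le_HC _ (subset_adj _ _ hs)
    have hz1Φ : z1 ∈ HC O (adj (acl B) (S : Set Ω)) := by
      rw [hz1]; exact le_HC _ (subset_adj _ {z1} rfl)
    have hτv : ∀ τ : Ω ≃+* Ω, (∀ x ∈ B', τ x = x) → ∀ x, O.valuation (τ x) = O.valuation x :=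
      fun τ hτ x => val_auto p O hW'.hcl hΩ τ hτ x
    have hτM : ∀ τ : Ω ≃+* Ω, (∀ x ∈ B', τ x = x) → ∀ x ∈ acl B, τ x ∈ acl B :=
      fun τ hτ x hx => H58.Tilt.map_mem_acl (fun y hy => hτ y (hBB' hy)) hx
    have hτ1 : ∀ τ : Ω ≃+* Ω, (∀ x ∈ B', τ x = x) → τ z1 ∈ HC O (adj (acl B) {z1}) := by
      intro τ hτ
      rw [← hz1]
      refine H58.Tilt.map_mem_HC O (hτv τ hτ) (fun x hx => ?_) hz1Φ
      refine H58.Tilt.map_mem_adj (hτM τ hτ) (fun s hs => ?_) hx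
      rw [hτ s (hS hs)]
      exact subset_adj _ _ hs
    have hτ2 : ∀ τ : Ω ≃+* Ω, (∀ x ∈ B', τ x = x) → z1 ∈ HC O (adj (acl B) {τ z1}) := by
      intro τ hτ
      have hτs : ∀ x ∈ B', τ.symm x = x := fun x hx => by
        rw [RingEquiv.symm_apply_eq, hτ x hx]
      have h1 := hτ1 τ.symm hτs
      have h2 : τ (τ.symm z1) ∈ HC O (adj (acl B) {τ z1}) := by
        refine H58.Tilt.map_mem_HC O (hτv τ hτ) (fun x hx => ?_) h1
        refine H58.Tilt.map_mem_adj (hτM τ hτ) (fun s hs => ?_) hx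
        rw [Set.mem_singleton_iff] at hs
        rw [hs]
        exact subset_adj _ {τ z1} rfl
      rwa [RingEquiv.apply_symm_apply] at h2
    by_cases hmove : ∃ σ0 : Ω ≃+* Ω, WAut O (acl B) σ0 ∧ σ0 z1 ≠ z1
    · obtain ⟨σ0, hσ0, h0⟩ := hmove
      obtain ⟨z, hzB', hz⟩ := H58.Tilt.exists_trace O p harch hW' hres hBB' hΩ himm hτ1 hτ2 hσ0 h0
      have hzM : z ∉ acl B := fun h => hz σ0 hσ0 h0 (hσ0.fix z h)
      have hzt : ¬ IsAlgebraic (acl B) z := fun h => hzM (hM z h)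
      refine ⟨z, hzB', fun h => hzM (le_acl B h), fun s hs => ?_⟩
      refine mem_cl_of_fix p O himm (H58.Tilt.exch hall' hzt) (fun σ hσ hσz => ?_) (hsΦ s hs)
      by_contra hne
      exact hz σ hσ hne hσz
    · push Not at hmove
      refine ⟨z', hz'B', fun h => hz't (isAlgebraic_of_mem h), fun s hs => ?_⟩
      exact mem_cl_of_fix p O himm hall' (fun σ hσ _ => hmove σ hσ) (hsΦ s hs)
  · push Not at hSM
    refine ⟨z', hz'B', fun h => hz't (isAlgebraic_of_mem h), fun s hs => ?_⟩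
    exact le_cl _ (le_adj _ _ (hM s (hSM s hs)))

end Pool.Agent.H92.Tilt
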