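import Pool.Agent.H92.Tilt.D3
import Pool.Agent.H58.Tilt.Lin

/-! Module D4a: (Lin), see the comment in D4. -/

set_option autoImplicit false

namespace Pool.Agent.H92.Tilt

open Polynomial

variable {Ω : Type*} [Field Ω] [IsAlgClosed Ω] (O : ValuationSubring Ω)

/-- Automorphisms over `M` preserving values. -/
structure WAut (M : Subfield Ω) (σ : Ω ≃+* Ω) : Prop where
  fix : ∀ x ∈ M, σ x = x
  val : ∀ x, O.valuation (σ x) = O.valuation x

/-- Approximate linearity of `u` as a function of `z1` beyond the cut. -/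
theorem lin_raw (harch : Arch O) {M : Subfield Ω} (hM : ∀ x, IsAlgebraic M x → x ∈ M)
    (himm : ∀ x : Ω, x ≠ 0 → ∃ a ∈ M, O.valuation (x - a) < O.valuation x)
    {z1 u : Ω} (hu : u ∈ HC O (adj M {z1})) (hz : z1 ∈ HC O (adj M {u}))
    (hcut : ∀ d : Ω, (∀ a ∈ M, O.valuation d < O.valuation (z1 - a)) ↔
      (∀ a ∈ M, O.valuation d < O.valuation (u - a)))
    (σ0 : Ω ≃+* Ω) (hσ0 : WAut O M σ0) (h0 : σ0 z1 ≠ z1) :
    ∃ β ∈ M, β ≠ 0 ∧ ∀ σ : Ω ≃+* Ω, WAut O M σ → σ z1 ≠ z1 →
      (O.valuation (σ u - u - β * (σ z1 - z1)) < O.valuation (σ z1 - z1) ∨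
        O.valuation (σ u - u - β * (σ z1 - z1)) < O.valuation (β * (σ z1 - z1))) := by
  have hMc : IsAlgClosed M := H58.Tilt.algClosed_of hM
  have hr := H58.Tilt.r1_of_arch O harch
  have hu' : H58.Tilt.InC O.valuation M z1 u := by
    rw [← H58.Tilt.hc_eq_92, ← H58.Tilt.adj_eq_92] at hu
    exact H58.Tilt.HC_le_closI hr himm z1 hu
  have hz' : H58.Tilt.InC O.valuation M u z1 := by
    rw [← H58.Tilt.hc_eq_92, ← H58.Tilt.adj_eq_92] at hz
    exact H58.Tilt.HC_le_closI hr himm u hz
  obtain ⟨β, h1, h2, h3⟩ := H58.Tilt.lin_core O himm hu' hz' σ0 hσ0.fix hσ0.val h0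
  exact ⟨β, h1, h2, fun σ hσ hσz => Or.inr (h3 σ hσ.fix hσ.val hσz)⟩

/-- A value-preserving automorphism over `M` that fixes `z1` fixes `HC (M(z1))`. -/
theorem WAut.fix_HC {M : Subfield Ω}
    (himm : ∀ x : Ω, x ≠ 0 → ∃ a ∈ M, O.valuation (x - a) < O.valuation x)
    {σ : Ω ≃+* Ω} (h : WAut O M σ) {z1 : Ω} (hz : σ z1 = z1) {x : Ω}
    (hx : x ∈ HC O (adj M {z1})) : σ x = x := by
  let F : Subfield Ω :=
    { carrier := {y | σ y = y}
      mul_mem' := fun {a b} ha hb => by
        show σ (a * b) = a * b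
        rw [map_mul, show σ a = a from ha, show σ b = b from hb]
      one_mem' := map_one σ
      add_mem' := fun {a b} ha hb => by
        show σ (a + b) = a + b
        rw [map_add, show σ a = a from ha, show σ b = b from hb]
      zero_mem' := map_zero σ
      neg_mem' := fun {a} ha => by
        show σ (-a) = -a
        rw [map_neg, show σ a = a from ha]
      inv_mem' := fun a ha => by
        show σ a⁻¹ = a⁻¹
        rw [map_inv₀, show σ a = a from ha] }
  have hF : ∀ y, y ∈ F ↔ σ y = y := fun y => Iff.rfl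
  have h1 : HC O (adj M {z1}) ≤ F := by
    refine HC_min (adj_le (fun y hy => (hF y).2 (h.fix y hy)) ?_) fun c hc => ?_
    · rintro y rfl
      exact (hF y).2 hz
    · rw [hF]
      have hcO := hc.memO
      obtain ⟨f, hm, hL, hO, h0, hd⟩ := hc
      refine unique_root O hO hcO h0 hd ?_ ?_
      · have e1 : f.eval (σ c) = σ (f.eval c) := by
          rw [eval_eq_sum_range, eval_eq_sum_range, map_sum]
          refine Finset.sum_congr rfl fun i _ => ?_
          rw [map_mul, map_pow]
          congr 1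
          exact ((hF _).1 (hL i)).symm
        rw [e1, h0, map_zero]
      · rcases eq_or_ne c 0 with rfl | hc0
        · simp
        · exact (H58.Tilt.waut_lt himm h.fix h.val hc0).trans_le
            ((O.valuation_le_one_iff c).2 hcO)
  exact (hF x).1 (h1 hx)

end Pool.Agent.H92.Tilt
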