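import Mathlib

/-!
Definitions for the converse transfer of decidability (MP_db217e_lc): valuation theory inside a
fixed algebraically closed field `Ω` with a valuation ring `O`. All subfields are `Subfield Ω`.
Values are `O.valuation x` (multiplicative); `O.valuation x ≤ 1` iff `x ∈ O`, and the maximal ideal
is `{x | O.valuation x < 1}`.
-/

set_option autoImplicit false

namespace Pool.Agent.H92.Tilt

open Polynomial

section Val

variable {Ω : Type*} [Field Ω]

/-- The field generated by `L` and `S`. -/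
def adj (L : Subfield Ω) (S : Set Ω) : Subfield Ω := L ⊔ Subfield.closure S

/-- Relative algebraic closure of `L` in `Ω`. -/
def acl (L : Subfield Ω) : Subfield Ω := (algebraicClosure L Ω).toSubfield

/-- `c` is a simple root over `L`: it is a root of a monic polynomial `h` over `L ∩ O` with
`h'(c)` a unit. -/
def SRoot (O : ValuationSubring Ω) (L : Subfield Ω) (c : Ω) : Prop :=
  ∃ h : Polynomial Ω, h.Monic ∧ (∀ i, h.coeff i ∈ L) ∧ (∀ i, h.coeff i ∈ O) ∧ h.eval c = 0 ∧
    O.valuation (h.derivative.eval c) = 1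

/-- `L` is h-closed: simple roots over `L` congruent to an element of `L` lie in `L`. -/
def HCl (O : ValuationSubring Ω) (L : Subfield Ω) : Prop :=
  ∀ c a : Ω, SRoot O L c → a ∈ L → O.valuation (c - a) < 1 → c ∈ L

/-- `L` is s-closed: every simple root over `L` lies in `L`. -/
def SCl (O : ValuationSubring Ω) (L : Subfield Ω) : Prop :=
  ∀ c : Ω, SRoot O L c → c ∈ L

/-- `L` is closed under `p`-th roots. -/
def PCl (p : ℕ) (L : Subfield Ω) : Prop := ∀ x : Ω, x ^ p ∈ L → x ∈ L

/-- Smallest s-closed subfield containing `L`. -/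
def HC (O : ValuationSubring Ω) (L : Subfield Ω) : Subfield Ω :=
  sInf {F | L ≤ F ∧ SCl O F}

/-- `F` is closed under `p`-th roots and simple roots that lie in `N`. -/
def ClIn (p : ℕ) (O : ValuationSubring Ω) (N F : Subfield Ω) : Prop :=
  (∀ y ∈ N, y ^ p ∈ F → y ∈ F) ∧ (∀ c ∈ N, SRoot O F c → c ∈ F)

/-- Smallest subfield containing `L` and closed under `p`-th roots and simple roots lying
in `N`. It is used for `L ≤ N`, and then it is contained in `N`. -/
def clN (p : ℕ) (O : ValuationSubring Ω) (N L : Subfield Ω) : Subfield Ω :=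
  sInf {F | L ≤ F ∧ ClIn p O N F}

/-- Smallest subfield containing `L` and closed under `p`-th roots and simple roots. -/
def cl (p : ℕ) (O : ValuationSubring Ω) (L : Subfield Ω) : Subfield Ω := clN p O ⊤ L

/-- `B` is perfect, h-closed, and every element algebraic over `B` is in `cl B`. -/
structure W (p : ℕ) (O : ValuationSubring Ω) (B : Subfield Ω) : Prop where
  pcl : PCl p B
  hcl : HCl O B
  alg : ∀ x : Ω, IsAlgebraic B x → x ∈ cl p O B

/-- The residue field of `K` is that of `B` (used for `B ≤ K`). -/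
def ResEq (O : ValuationSubring Ω) (B K : Subfield Ω) : Prop :=
  ∀ x ∈ K, x ∈ O → ∃ b ∈ B, O.valuation (x - b) < 1

/-- The value group of `K` is that of `B` (used for `B ≤ K`). -/
def ValEq (O : ValuationSubring Ω) (B K : Subfield Ω) : Prop :=
  ∀ x ∈ K, x ≠ 0 → ∃ b ∈ B, O.valuation x = O.valuation b

/-- `B` is relatively algebraically closed in `K`. -/
def RAC (B K : Subfield Ω) : Prop := ∀ x ∈ K, IsAlgebraic B x → x ∈ B

/-- `B'` has transcendence degree one over `B`. -/
def Tr1 (B B' : Subfield Ω) : Prop :=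
  ∃ z ∈ B', ¬ IsAlgebraic B z ∧ ∀ x ∈ B', IsAlgebraic (adj B {z}) x

/-- The valuation has rank at most one. -/
def Arch (O : ValuationSubring Ω) : Prop :=
  ∀ x y : Ω, O.valuation x < 1 → y ≠ 0 → ∃ n : ℕ, O.valuation (x ^ n) < O.valuation y

/-- The family `T` is residually algebraically independent over `A`: the valuation of a polynomial
over `A` evaluated at `T` is the Gauss norm. -/
def GaussInd {ι : Type*} (O : ValuationSubring Ω) (A : Subfield Ω) (T : ι → Ω) : Prop :=
  (∀ i, T i ∈ O) ∧ ∀ P : MvPolynomial ι Ω, (∀ m, P.coeff m ∈ A) →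
    ∀ m, O.valuation (P.coeff m) ≤ O.valuation (MvPolynomial.eval T P)

section PB

variable {ι : Type*} [Fintype ι] [DecidableEq ι]

/-- The monomial `T ^ α`. -/
def mon {p : ℕ} (T : ι → Ω) (α : ι → Fin p) : Ω := ∏ i, T i ^ (α i : ℕ)

/-- The combination `∑ u_α ^ p T ^ α`. -/
def psum {p : ℕ} (T : ι → Ω) (u : (ι → Fin p) → Ω) : Ω := ∑ α, u α ^ p * mon T α

/-- The monomials `T ^ α` are linearly independent over `L ^ p`. -/
def PInd (p : ℕ) (L : Subfield Ω) (T : ι → Ω) : Prop :=
  ∀ u : (ι → Fin p) → Ω, (∀ α, u α ∈ L) → psum T u = 0 → ∀ α, u α = 0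

/-- `T` is a `p`-basis of `F`. -/
structure PB (p : ℕ) (F : Subfield Ω) (T : ι → Ω) : Prop where
  mem : ∀ i, T i ∈ F
  ind : PInd p F T
  span : ∀ f ∈ F, ∃ u : (ι → Fin p) → Ω, (∀ α, u α ∈ F) ∧ f = psum T u

/-- Orthogonality of the monomials `T ^ α` over `L ^ p` with respect to the valuation. -/
def Orth (p : ℕ) (O : ValuationSubring Ω) (L : Subfield Ω) (T : ι → Ω) : Prop :=
  ∀ u : (ι → Fin p) → Ω, (∀ α, u α ∈ L) → ∀ α,
    O.valuation (u α ^ p * mon T α) ≤ O.valuation (psum T u)

end PB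

end Val

section Emb

variable {Ω Ω' : Type*} [Field Ω] [Field Ω']

/-- `e` restricts to a ring homomorphism on the subfield `F`. -/
structure HomOn (F : Subfield Ω) (e : Ω → Ω') : Prop where
  one : e 1 = 1
  add : ∀ x ∈ F, ∀ y ∈ F, e (x + y) = e x + e y
  mul : ∀ x ∈ F, ∀ y ∈ F, e (x * y) = e x * e y

/-- `lam` is an approximate ring homomorphism `N ∩ O → K' ∩ O'` (a ring homomorphism modulo the
maximal ideal of `O'`) whose kernel is the maximal ideal. -/
structure AHom (O : ValuationSubring Ω) (N : Subfield Ω) (O' : ValuationSubring Ω')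
    (K' : Subfield Ω') (lam : Ω → Ω') : Prop where
  rng : ∀ x ∈ N, x ∈ O → lam x ∈ K' ∧ lam x ∈ O'
  one : O'.valuation (lam 1 - 1) < 1
  add : ∀ x ∈ N, x ∈ O → ∀ y ∈ N, y ∈ O → O'.valuation (lam (x + y) - (lam x + lam y)) < 1
  mul : ∀ x ∈ N, x ∈ O → ∀ y ∈ N, y ∈ O → O'.valuation (lam (x * y) - lam x * lam y) < 1
  ker : ∀ x ∈ N, x ∈ O → (O'.valuation (lam x) < 1 ↔ O.valuation x < 1)

/-- `e` is an embedding of the valued field `F` in `K'` that induces `lam` on residues. -/
structure Good (O : ValuationSubring Ω) (O' : ValuationSubring Ω') (K' : Subfield Ω')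
    (lam : Ω → Ω') (F : Subfield Ω) (e : Ω → Ω') : Prop where
  hom : HomOn F e
  rng : ∀ x ∈ F, e x ∈ K'
  res : ∀ x ∈ F, x ∈ O → O'.valuation (e x - lam x) < 1

end Emb

end Pool.Agent.H92.Tilt
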