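import Pool.Agent.H92.Tilt.D0
import Pool.Agent.H92.Tilt.B6
import Pool.Agent.H92.Tilt.Amb
import Pool.Agent.H92.Tilt.Res
import Pool.Agent.H92.Tilt.C

/-!
Module E0: the residue extension.

Choose a finite part `T0` of `T` with `S` algebraic over `A(T0)`; `E := A(T0, S)`. The residue field
`k_E` is finite over `k_A(T0)` (residues), so it is a finitely generated extension of the perfect
field `k_A`, of transcendence degree `|T0|`; choose `T'` in `E ∩ O` lifting a separating
transcendence basis of `k_E / k_A`. Then `T'` is a `p`-basis of `k_E`, so `Orth p O E T'`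
(divide a combination by the coefficient of largest value), and `E` is algebraic over `A(T')`
(`T'` algebraically independent over `A`, same cardinality). Work in `Ω0 = acl E`: all values there
are values of `A` (`valEq_acl`: the values of `A` are divisible; those of `Ka` are those of `A`). D1 in
`Ω0` gives `S ≤ HC (A(T')) ≤ cl (A(T'))`, and `desc` gives `S ≤ clN Ka (A(T'))`.
-/

set_option autoImplicit false

namespace Pool.Agent.H92.Tilt

open Polynomial

namespace E0x

section transfer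

theorem aeval_transfer {R B Ω : Type*} [CommRing R] [CommRing B] [Algebra R B] [Field Ω]
    {L : Subfield Ω} (f : R →+* L) (g : B →+* Ω)
    (h : ∀ r, g (algebraMap R B r) = (f r : Ω)) (z : B) (P : Polynomial R) :
    aeval (g z) (P.map f) = g (aeval z P) := by
  rw [aeval_def, aeval_def, eval₂_map, hom_eval₂]
  congr 1
  ext r
  exact (h r).symm

theorem alg_transfer {R B Ω : Type*} [CommRing R] [CommRing B] [Algebra R B] [Field Ω]
    {L : Subfield Ω} (f : R →+* L) (hf : Function.Injective f) (g : B →+* Ω)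
    (h : ∀ r, g (algebraMap R B r) = (f r : Ω)) {z : B} (hz : IsAlgebraic R z) :
    IsAlgebraic L (g z) := by
  obtain ⟨P, hP0, hP⟩ := hz
  refine ⟨P.map f, (Polynomial.map_ne_zero_iff hf).2 hP0, ?_⟩
  rw [aeval_transfer f g h, hP, map_zero]

theorem sep_transfer {R B Ω : Type*} [Field R] [CommRing B] [Algebra R B] [Field Ω]
    {L : Subfield Ω} (f : R →+* L) (g : B →+* Ω)
    (h : ∀ r, g (algebraMap R B r) = (f r : Ω)) {z : B} (hz : IsSeparable R z) :
    IsSeparable L (g z) := by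
  have h1 : (minpoly R z).Separable := hz
  have h2 : aeval (g z) ((minpoly R z).map f) = 0 := by
    rw [aeval_transfer f g h, minpoly.aeval, map_zero]
  exact (Polynomial.Separable.map h1 (f := f)).of_dvd (minpoly.dvd L (g z) h2)

end transfer

section general

variable {Ω : Type*} [Field Ω]

theorem mem_adj_finset {A : Subfield Ω} {ι : Type*} (T : ι → Ω) {x : Ω}
    (hx : x ∈ adj A (Set.range T)) :
    ∃ T0 : Finset ι, x ∈ adj A (T '' (T0 : Set ι)) := by
  classical
  rw [← mem_adjoin_iff] at hx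
  obtain ⟨V, hV, hxV⟩ := IntermediateField.exists_finset_of_mem_adjoin hx
  rw [mem_adjoin_iff] at hxV
  have h1 : ∀ v : V, ∃ i, T i = v := fun v => hV v.2
  choose f hf using h1
  refine ⟨Finset.univ.image f, ?_⟩
  refine adj_mono le_rfl ?_ hxV
  intro v hv
  exact ⟨f ⟨v, hv⟩, by simp, hf ⟨v, hv⟩⟩

theorem alg_finset {A : Subfield Ω} {ι : Type*} (T : ι → Ω) {x : Ω}
    (hx : IsAlgebraic (adj A (Set.range T)) x) :
    ∃ T0 : Finset ι, IsAlgebraic (adj A (T '' (T0 : Set ι))) x := by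
  classical
  obtain ⟨h, h0, hc, hx⟩ := (isAlgebraic_iff _ _).1 hx
  have h1 : ∀ i, ∃ T0 : Finset ι, h.coeff i ∈ adj A (T '' (T0 : Set ι)) :=
    fun i => mem_adj_finset T (hc i)
  choose T0 hT0 using h1
  refine ⟨h.support.biUnion T0, (isAlgebraic_iff _ _).2 ⟨h, h0, fun i => ?_, hx⟩⟩
  by_cases hi : i ∈ h.support
  · refine adj_mono le_rfl ?_ (hT0 i)
    apply Set.image_mono
    intro j hj
    rw [Finset.mem_coe] at hj ⊢
    exact Finset.mem_biUnion.2 ⟨i, hi, hj⟩
  · rw [Polynomial.notMem_support_iff.1 hi]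
    exact Subfield.zero_mem _

theorem alg_finset' {A : Subfield Ω} {ι : Type*} (T : ι → Ω) (S : Finset Ω)
    (hx : ∀ x ∈ S, IsAlgebraic (adj A (Set.range T)) x) :
    ∃ T0 : Finset ι, ∀ x ∈ S, IsAlgebraic (adj A (T '' (T0 : Set ι))) x := by
  classical
  have h1 : ∀ x : S, ∃ T0 : Finset ι, IsAlgebraic (adj A (T '' (T0 : Set ι))) (x : Ω) :=
    fun x => alg_finset T (hx x x.2)
  choose T0 hT0 using h1
  refine ⟨Finset.univ.biUnion T0, fun x hx => ?_⟩
  refine isAlgebraic_mono (adj_mono le_rfl ?_) (hT0 ⟨x, hx⟩)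
  apply Set.image_mono
  intro j hj
  rw [Finset.mem_coe] at hj ⊢
  exact Finset.mem_biUnion.2 ⟨⟨x, hx⟩, Finset.mem_univ _, hj⟩

/-- Representation of the elements of a generated field. -/
theorem adj_repr {A : Subfield Ω} {ι : Type*} (T : ι → Ω) {x : Ω}
    (hx : x ∈ adj A (Set.range T)) : ∃ P Q : MvPolynomial ι Ω, (∀ m, P.coeff m ∈ A) ∧
      (∀ m, Q.coeff m ∈ A) ∧ x = MvPolynomial.eval T P / MvPolynomial.eval T Q := by
  rw [← mem_adjoin_iff, IntermediateField.mem_adjoin_range_iff] at hx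
  obtain ⟨r, s, h⟩ := hx
  refine ⟨r.map (algebraMap A Ω), s.map (algebraMap A Ω), fun m => ?_, fun m => ?_, ?_⟩
  · rw [MvPolynomial.coeff_map]; exact (r.coeff m).2
  · rw [MvPolynomial.coeff_map]; exact (s.coeff m).2
  · rw [h, MvPolynomial.eval_map, MvPolynomial.eval_map]; rfl

/-- Algebraicity over the field generated, as intermediate field or as subfield. -/
theorem alg_adjoin_iff (A : Subfield Ω) (S : Set Ω) (z : Ω) :
    IsAlgebraic (IntermediateField.adjoin A S) z ↔ IsAlgebraic (adj A S) z := by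
  constructor
  · intro h
    refine alg_transfer (L := adj A S) (R := IntermediateField.adjoin A S)
      (B := Ω)
      { toFun := fun r => ⟨r, (mem_adjoin_iff A _ _).1 r.2⟩
        map_one' := rfl
        map_mul' := fun _ _ => rfl
        map_zero' := rfl
        map_add' := fun _ _ => rfl } ?_ (RingHom.id Ω) ?_ h
    · intro a b hab
      exact Subtype.ext (congrArg (fun u : adj A S => (u : Ω)) hab)
    · intro r; rfl
  · rintro ⟨P, hP0, hP⟩
    let f : adj A S →+* IntermediateField.adjoin A S :=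
      { toFun := fun r => ⟨r, (mem_adjoin_iff A _ _).2 r.2⟩
        map_one' := rfl
        map_mul' := fun _ _ => rfl
        map_zero' := rfl
        map_add' := fun _ _ => rfl }
    refine ⟨P.map f, (Polynomial.map_ne_zero_iff f.injective).2 hP0, ?_⟩
    rw [aeval_def, eval₂_map]
    rw [aeval_def] at hP
    exact hP

/-- Algebraicity over a family of the right cardinality. -/
theorem alg_of_card_top (A : Subfield Ω) {a b : ℕ} (x : Fin a → Ω)
    (y : Fin b → Ω) (hy : AlgebraicIndependent A y)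
    (hx : ∀ z : Ω, IsAlgebraic (adj A (Set.range x)) z) (hc : a ≤ b) (z : Ω) :
    IsAlgebraic (adj A (Set.range y)) z := by
  have h0 : Algebra.IsAlgebraic (IntermediateField.adjoin A (Set.range x)) Ω :=
    ⟨fun w => (alg_adjoin_iff A _ w).2 (hx w)⟩
  have h1 : Algebra.IsAlgebraic (Algebra.adjoin A (Set.range x)) Ω :=
    IntermediateField.isAlgebraic_adjoin_iff_top.1 h0
  have htr : Algebra.trdeg A Ω ≤ (b : Cardinal) := by
    refine (Algebra.IsAlgebraic.trdeg_le_cardinalMk A (Set.range x)).trans ?_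
    have h2 : Cardinal.lift (Cardinal.mk (Set.range x)) ≤ Cardinal.lift (Cardinal.mk (Fin a)) :=
      Cardinal.mk_range_le_lift
    rw [Cardinal.mk_fin, Cardinal.lift_natCast] at h2
    have h3 : Cardinal.mk (Set.range x) ≤ (a : Cardinal) := by
      rw [← Cardinal.lift_le, Cardinal.lift_natCast]
      exact h2
    exact h3.trans (by exact_mod_cast hc)
  have hb : IsTranscendenceBasis A y := by
    refine hy.isTranscendenceBasis_of_lift_trdeg_le_of_finite ?_
    rw [Cardinal.mk_fin, Cardinal.lift_natCast, Cardinal.lift_uzero]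
    exact htr
  have h2 := hb.isAlgebraic
  have h3 := IntermediateField.isAlgebraic_adjoin_iff_top.2 h2
  exact (alg_adjoin_iff A _ z).1 (h3.isAlgebraic z)

theorem alg_of_card (A : Subfield Ω) {a b : ℕ} (x : Fin a → Ω)
    (y : Fin b → Ω) (hy : AlgebraicIndependent A y)
    (hyx : ∀ j, IsAlgebraic (adj A (Set.range x)) (y j)) (hc : a ≤ b) {z : Ω}
    (hz : IsAlgebraic (adj A (Set.range x)) z) : IsAlgebraic (adj A (Set.range y)) z := by
  set Ω0 := acl (adj A (Set.range x)) with hΩ0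
  have hA : A ≤ Ω0 := (le_adj _ _).trans (le_acl _)
  have hxm : ∀ i, x i ∈ Ω0 := fun i => le_acl _ (subset_adj _ _ ⟨i, rfl⟩)
  have hym : ∀ i, y i ∈ Ω0 := fun i => (mem_acl _ _).2 (hyx i)
  set x0 : Fin a → Ω0 := fun i => ⟨x i, hxm i⟩ with hx0
  set y0 : Fin b → Ω0 := fun i => ⟨y i, hym i⟩ with hy0
  have hxr : ((↑) : Ω0 → Ω) '' Set.range x0 = Set.range x := by
    rw [← Set.range_comp]; rfl
  have hyr : ((↑) : Ω0 → Ω) '' Set.range y0 = Set.range y := by
    rw [← Set.range_comp]; rfl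
  have hadjx : adj A (Set.range x) ≤ Ω0 := le_acl _
  have hadjy : adj A (Set.range y) ≤ Ω0 := adj_le hA (by rintro _ ⟨i, rfl⟩; exact hym i)
  have e1 := adj_rst Ω0 hA (Set.range x0)
  have e2 := adj_rst Ω0 hA (Set.range y0)
  rw [hxr] at e1
  rw [hyr] at e2
  have h := alg_of_card_top (rst Ω0 A) x0 y0 ((algIndep_rst Ω0 hA y0).2 hy) (fun w => by
    rw [← e1, isAlgebraic_rst Ω0 hadjx]
    exact (mem_acl _ _).1 w.2) hc ⟨z, (mem_acl _ _).2 hz⟩
  rw [← e2, isAlgebraic_rst Ω0 hadjy] at h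
  exact h

/-- A finitely generated extension of a perfect field has a separating transcendence basis. -/
theorem sep_basis (p : ℕ) [Fact p.Prime] [CharP Ω p] [IsAlgClosed Ω] {k : Subfield Ω}
    (hk : PCl p k) (V : Finset Ω) : ∃ (n : ℕ) (t : Fin n → Ω), (∀ i, t i ∈ adj k (V : Set Ω)) ∧
      AlgebraicIndependent k t ∧
      ∀ x ∈ adj k (V : Set Ω), IsSeparable (adj k (Set.range t)) x := by
  classical
  have hcp : CharP k p := (algebraMap k Ω).charP (algebraMap k Ω).injective p
  have : ExpChar k p := ExpChar.prime Fact.out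
  have : PerfectRing k p := by
    refine PerfectRing.ofSurjective k p fun x => ?_
    obtain ⟨y, hy⟩ := IsAlgClosed.exists_pow_nat_eq (x : Ω) (Fact.out : p.Prime).pos
    refine ⟨⟨y, hk y (by rw [hy]; exact x.2)⟩, ?_⟩
    exact Subtype.ext (by simpa [frobenius_def] using hy)
  have : PerfectField k := PerfectRing.toPerfectField k p
  set K := IntermediateField.adjoin k (V : Set Ω) with hK
  have : Algebra.EssFiniteType k K := by
    rw [IntermediateField.essFiniteType_iff]
    exact IntermediateField.fg_adjoin_finset V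
  obtain ⟨s, hs, hsep⟩ := exists_isTranscendenceBasis_and_isSeparable_of_perfectField (k := k)
    (K := K)
  set e := s.equivFin.symm with he
  refine ⟨s.card, fun i => ((e i : K) : Ω), fun i => ?_, ?_, fun x hx => ?_⟩
  · exact (mem_adjoin_iff k _ _).1 (e i : K).2
  · have h1 : AlgebraicIndependent k (fun i => (e i : K)) := by
      have := (algebraicIndependent_equiv e (f := ((↑) : s → K)) ).2 hs.1
      exact this
    exact h1.map' (f := K.val) K.val.injective
  · have hxK : x ∈ K := (mem_adjoin_iff k _ _).2 hx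
    have h1 : IsSeparable (IntermediateField.adjoin k (s : Set K)) (⟨x, hxK⟩ : K) :=
      hsep.isSeparable' (⟨x, hxK⟩ : K)
    have hr : Set.range (fun i => ((e i : K) : Ω)) = K.val '' (s : Set K) := by
      ext w
      constructor
      · rintro ⟨i, rfl⟩
        exact ⟨_, (e i).2, rfl⟩
      · rintro ⟨u, hu, rfl⟩
        exact ⟨e.symm ⟨u, hu⟩, by simp⟩
    have hmem : ∀ r : IntermediateField.adjoin k (s : Set K), ((r : K) : Ω) ∈
        adj k (Set.range (fun i => ((e i : K) : Ω))) := by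
      intro r
      rw [hr, ← mem_adjoin_iff, ← IntermediateField.adjoin_map]
      exact ⟨r, r.2, rfl⟩
    let f : IntermediateField.adjoin k (s : Set K) →+*
        adj k (Set.range (fun i => ((e i : K) : Ω))) :=
      { toFun := fun r => ⟨((r : K) : Ω), hmem r⟩
        map_one' := rfl
        map_mul' := fun _ _ => rfl
        map_zero' := rfl
        map_add' := fun _ _ => rfl }
    have h2 := sep_transfer f (K.val : K →+* Ω) (fun r => by
      rw [IntermediateField.algebraMap_apply]; rfl) h1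
    exact h2

end general

section general2

variable {Ω : Type*} [Field Ω]

theorem card_le_top (A : Subfield Ω) {a b : ℕ} (x : Fin a → Ω) (y : Fin b → Ω)
    (hx : AlgebraicIndependent A x) (hy : ∀ z : Ω, IsAlgebraic (adj A (Set.range y)) z) :
    a ≤ b := by
  have h0 : Algebra.IsAlgebraic (IntermediateField.adjoin A (Set.range y)) Ω :=
    ⟨fun w => (alg_adjoin_iff A _ w).2 (hy w)⟩
  have h1 : Algebra.IsAlgebraic (Algebra.adjoin A (Set.range y)) Ω :=
    IntermediateField.isAlgebraic_adjoin_iff_top.1 h0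
  have htr : Algebra.trdeg A Ω ≤ (b : Cardinal) := by
    refine (Algebra.IsAlgebraic.trdeg_le_cardinalMk A (Set.range y)).trans ?_
    have h2 : Cardinal.lift (Cardinal.mk (Set.range y)) ≤ Cardinal.lift (Cardinal.mk (Fin b)) :=
      Cardinal.mk_range_le_lift
    rw [Cardinal.mk_fin, Cardinal.lift_natCast] at h2
    rw [← Cardinal.lift_le, Cardinal.lift_natCast]
    exact h2
  have h3 := hx.lift_cardinalMk_le_trdeg
  rw [Cardinal.mk_fin, Cardinal.lift_natCast, Cardinal.lift_uzero] at h3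
  exact_mod_cast h3.trans htr

theorem card_le (A : Subfield Ω) {a b : ℕ} (x : Fin a → Ω) (y : Fin b → Ω)
    (hx : AlgebraicIndependent A x) (hy : ∀ i, IsAlgebraic (adj A (Set.range y)) (x i)) :
    a ≤ b := by
  set Ω0 := acl (adj A (Set.range y)) with hΩ0
  have hA : A ≤ Ω0 := (le_adj _ _).trans (le_acl _)
  have hym : ∀ i, y i ∈ Ω0 := fun i => le_acl _ (subset_adj _ _ ⟨i, rfl⟩)
  have hxm : ∀ i, x i ∈ Ω0 := fun i => (mem_acl _ _).2 (hy i)
  set x0 : Fin a → Ω0 := fun i => ⟨x i, hxm i⟩ with hx0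
  set y0 : Fin b → Ω0 := fun i => ⟨y i, hym i⟩ with hy0
  have hyr : ((↑) : Ω0 → Ω) '' Set.range y0 = Set.range y := by
    rw [← Set.range_comp]; rfl
  have hadjy : adj A (Set.range y) ≤ Ω0 := le_acl _
  have e2 := adj_rst Ω0 hA (Set.range y0)
  rw [hyr] at e2
  refine card_le_top (rst Ω0 A) x0 y0 ((algIndep_rst Ω0 hA x0).2 hx) (fun w => ?_)
  rw [← e2, isAlgebraic_rst Ω0 hadjy]
  exact (mem_acl _ _).1 w.2

end general2

section residues

variable {Ω : Type*} [Field Ω] (O : ValuationSubring Ω)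

theorem rs_zero' : rs O (0 : Ω) = 0 := by
  rw [rs_eq_zero O O.zero_mem, map_zero]
  exact zero_lt_one

/-- Elements of `A ∩ O`. -/
def AO (A : Subfield Ω) : Subring Ω := A.toSubring ⊓ O.toSubring

theorem mem_AO {A : Subfield Ω} {x : Ω} : x ∈ AO O A ↔ x ∈ A ∧ x ∈ O := Iff.rfl

/-- The residue map on `A ∩ O`. -/
noncomputable def phi (A : Subfield Ω) : AO O A →+* resL O A where
  toFun x := ⟨rs O x, ⟨x, x.2.1, x.2.2, rfl⟩⟩
  map_one' := Subtype.ext (rs_one O)
  map_mul' x y := Subtype.ext (rs_mul O x.2.2 y.2.2)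
  map_zero' := Subtype.ext (rs_zero' O)
  map_add' x y := Subtype.ext (rs_add O x.2.2 y.2.2)

theorem phi_coe (A : Subfield Ω) (x : AO O A) : ((phi O A x : resL O A) : kap O) = rs O x := rfl

theorem phi_surj (A : Subfield Ω) : Function.Surjective (phi O A) := by
  rintro ⟨y, x, hx, hxO, rfl⟩
  exact ⟨⟨x, hx, hxO⟩, rfl⟩

theorem rs_eval {A : Subfield Ω} {ι : Type*} {T : ι → Ω} (hT : ∀ i, T i ∈ O)
    (P : MvPolynomial ι (AO O A)) :
    MvPolynomial.eval T (P.map (AO O A).subtype) ∈ O ∧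
    rs O (MvPolynomial.eval T (P.map (AO O A).subtype)) =
      MvPolynomial.aeval (fun i => rs O (T i)) (P.map (phi O A)) := by
  induction P using MvPolynomial.induction_on with
  | C a =>
    rw [MvPolynomial.map_C, MvPolynomial.map_C, MvPolynomial.eval_C, MvPolynomial.aeval_C]
    exact ⟨a.2.2, rfl⟩
  | add P Q hP hQ =>
    rw [map_add, map_add, map_add, map_add, rs_add O hP.1 hQ.1, hP.2, hQ.2]
    exact ⟨O.add_mem _ _ hP.1 hQ.1, rfl⟩
  | mul_X P i hP =>
    rw [map_mul, map_mul, map_mul, map_mul, MvPolynomial.map_X, MvPolynomial.map_X,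
      MvPolynomial.eval_X, MvPolynomial.aeval_X, rs_mul O hP.1 (hT i), hP.2]
    exact ⟨O.mul_mem _ _ hP.1 (hT i), rfl⟩

theorem lift_poly {A : Subfield Ω} {ι : Type*} (P : MvPolynomial ι Ω)
    (hP : ∀ m, P.coeff m ∈ A ∧ P.coeff m ∈ O) :
    ∃ P0 : MvPolynomial ι (AO O A), P0.map (AO O A).subtype = P := by
  classical
  refine ⟨∑ m ∈ P.support, MvPolynomial.monomial m ⟨P.coeff m, hP m⟩, ?_⟩
  rw [map_sum]
  conv_rhs => rw [← P.support_sum_monomial_coeff]
  refine Finset.sum_congr rfl fun m _ => ?_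
  rw [MvPolynomial.map_monomial]
  rfl

/-- Normalisation of a polynomial over `A`. -/
theorem normalise {A : Subfield Ω} {ι : Type*} (P : MvPolynomial ι Ω)
    (hP : ∀ m, P.coeff m ∈ A) (h0 : P ≠ 0) : ∃ d ∈ A, d ≠ 0 ∧
      (∀ m, O.valuation (P.coeff m) ≤ O.valuation d) ∧
      ∃ P0 : MvPolynomial ι (AO O A), P0.map (AO O A).subtype = MvPolynomial.C d⁻¹ * P ∧
        ∃ m, P0.coeff m = 1 := by
  classical
  have hne : P.support.Nonempty := by
    rw [Finset.nonempty_iff_ne_empty]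
    intro h
    exact h0 (MvPolynomial.support_eq_empty.1 h)
  obtain ⟨m0, hm0, hmax⟩ := Finset.exists_max_image P.support
    (fun m => O.valuation (P.coeff m)) hne
  have hd0 : P.coeff m0 ≠ 0 := MvPolynomial.mem_support_iff.1 hm0
  have hle : ∀ m, O.valuation (P.coeff m) ≤ O.valuation (P.coeff m0) := by
    intro m
    by_cases hm : m ∈ P.support
    · exact hmax m hm
    · rw [MvPolynomial.notMem_support_iff.1 hm, map_zero]
      exact zero_le
  have hv0 : O.valuation (P.coeff m0) ≠ 0 := (Valuation.ne_zero_iff _).2 hd0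
  obtain ⟨P0, hP0⟩ := lift_poly O (A := A) (MvPolynomial.C (P.coeff m0)⁻¹ * P) (fun m => by
    rw [MvPolynomial.coeff_C_mul]
    refine ⟨A.mul_mem (A.inv_mem (hP m0)) (hP m), ?_⟩
    rw [← O.valuation_le_one_iff, map_mul, map_inv₀]
    rw [inv_mul_le_iff₀ (zero_lt_iff.2 hv0), mul_one]
    exact hle m)
  refine ⟨P.coeff m0, hP m0, hd0, hle, P0, hP0, m0, ?_⟩
  apply Subtype.ext
  have h := congrArg (MvPolynomial.coeff m0) hP0
  rw [MvPolynomial.coeff_map, MvPolynomial.coeff_C_mul, inv_mul_cancel₀ hd0] at h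
  exact h

theorem gauss_alg {A : Subfield Ω} {ι : Type*} {T : ι → Ω} (h : GaussInd O A T) :
    AlgebraicIndependent (resL O A) (fun i => rs O (T i)) := by
  rw [algebraicIndependent_iff]
  intro p hp
  obtain ⟨P0, rfl⟩ := MvPolynomial.map_surjective _ (phi_surj O A) p
  obtain ⟨h1, h2⟩ := rs_eval O h.1 P0
  rw [hp] at h2
  have h3 := (rs_eq_zero O h1).1 h2
  ext m
  rw [MvPolynomial.coeff_map, MvPolynomial.coeff_zero, ZeroMemClass.coe_zero, phi_coe,
    rs_eq_zero O (P0.coeff m).2.2]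
  refine lt_of_le_of_lt ?_ h3
  have h4 := h.2 (P0.map (AO O A).subtype) (fun m => by
    rw [MvPolynomial.coeff_map]; exact (P0.coeff m).2.1) m
  rw [MvPolynomial.coeff_map] at h4
  exact h4

/-- Values of evaluations at residually independent elements. -/
theorem val_eval {A : Subfield Ω} {ι : Type*} {T : ι → Ω} (hT : ∀ i, T i ∈ O)
    (h : AlgebraicIndependent (resL O A) (fun i => rs O (T i)))
    (P0 : MvPolynomial ι (AO O A)) (m : ι →₀ ℕ) (hm : P0.coeff m = 1) :
    O.valuation (MvPolynomial.eval T (P0.map (AO O A).subtype)) = 1 := by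
  obtain ⟨h1, h2⟩ := rs_eval O hT P0
  refine le_antisymm ((O.valuation_le_one_iff _).2 h1) ?_
  by_contra hlt
  rw [not_le, ← rs_eq_zero O h1, h2] at hlt
  have h3 := (algebraicIndependent_iff.1 h) _ hlt
  have h4 := congrArg (MvPolynomial.coeff m) h3
  rw [MvPolynomial.coeff_map, hm, map_one, MvPolynomial.coeff_zero] at h4
  exact one_ne_zero h4

theorem alg_gauss {A : Subfield Ω} {ι : Type*} {T : ι → Ω} (hT : ∀ i, T i ∈ O)
    (h : AlgebraicIndependent (resL O A) (fun i => rs O (T i))) : GaussInd O A T := by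
  refine ⟨hT, fun P hP m => ?_⟩
  by_cases h0 : P = 0
  · rw [h0, MvPolynomial.coeff_zero, map_zero]
    exact zero_le
  obtain ⟨d, hd, hd0, hle, P0, hP0, m0, hm0⟩ := normalise O P hP h0
  have h1 := val_eval O hT h P0 m0 hm0
  rw [hP0, map_mul, MvPolynomial.eval_C, map_mul, map_inv₀] at h1
  have hv0 : O.valuation d ≠ 0 := (Valuation.ne_zero_iff _).2 hd0
  rw [inv_mul_eq_one₀ hv0] at h1
  rw [← h1]
  exact hle m

theorem gauss_indep {A : Subfield Ω} {ι : Type*} {T : ι → Ω} (h : GaussInd O A T) :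
    AlgebraicIndependent A T := by
  rw [algebraicIndependent_iff]
  intro p hp
  have h1 : MvPolynomial.eval T (p.map (algebraMap A Ω)) = 0 := by
    rw [MvPolynomial.eval_map]; exact hp
  ext m
  have h2 := h.2 (p.map (algebraMap A Ω)) (fun m => by
    rw [MvPolynomial.coeff_map]; exact (p.coeff m).2) m
  rw [h1, map_zero, MvPolynomial.coeff_map] at h2
  have h3 := (map_eq_zero O.valuation).1 (le_antisymm h2 zero_le)
  rw [MvPolynomial.coeff_zero]
  exact h3

theorem resL_mono {A B : Subfield Ω} (h : A ≤ B) : resL O A ≤ resL O B := by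
  rintro y ⟨x, hx, hxO, rfl⟩
  exact ⟨x, h hx, hxO, rfl⟩

/-- The residue field of `A(T)`. -/
theorem resL_gauss {A : Subfield Ω} {ι : Type*} {T : ι → Ω} (h : GaussInd O A T) :
    resL O (adj A (Set.range T)) = adj (resL O A) (Set.range fun i => rs O (T i)) := by
  apply le_antisymm
  · rintro y ⟨x, hx, hxO, rfl⟩
    obtain ⟨P, Q, hP, hQ, hxe⟩ := adj_repr T hx
    by_cases hQ0 : MvPolynomial.eval T Q = 0
    · rw [hxe, hQ0, div_zero, rs_zero']
      exact Subfield.zero_mem _
    have hQne : Q ≠ 0 := by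
      rintro rfl
      exact hQ0 (map_zero _)
    obtain ⟨d, hd, hd0, -, Q0, hQ0', m0, hm0⟩ := normalise O Q hQ hQne
    have hvQ := val_eval O h.1 (gauss_alg O h) Q0 m0 hm0
    obtain ⟨q1, q2⟩ := rs_eval O h.1 Q0
    set q := MvPolynomial.eval T (Q0.map (AO O A).subtype) with hq
    -- the numerator
    have hnum : MvPolynomial.eval T (MvPolynomial.C d⁻¹ * P) = x * q := by
      rw [hq, hQ0', map_mul, map_mul, MvPolynomial.eval_C, hxe]
      field_simp
    have hcoef : ∀ m, (MvPolynomial.C d⁻¹ * P).coeff m ∈ A ∧ (MvPolynomial.C d⁻¹ * P).coeff m ∈ O := by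
      intro m
      have hA : ∀ m, (MvPolynomial.C d⁻¹ * P).coeff m ∈ A := fun m => by
        rw [MvPolynomial.coeff_C_mul]
        exact A.mul_mem (A.inv_mem hd) (hP m)
      refine ⟨hA m, ?_⟩
      rw [← O.valuation_le_one_iff]
      refine (h.2 _ hA m).trans ?_
      rw [hnum, O.valuation_le_one_iff]
      exact O.mul_mem _ _ hxO q1
    obtain ⟨P0, hP0⟩ := lift_poly O (A := A) _ hcoef
    obtain ⟨p1, p2⟩ := rs_eval O h.1 P0
    rw [hP0, hnum] at p1 p2
    rw [rs_mul O hxO q1] at p2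
    have hqne : rs O q ≠ 0 := by
      intro h0
      have := (rs_eq_zero O q1).1 h0
      rw [hvQ] at this
      exact lt_irrefl _ this
    have hmem : ∀ R0 : MvPolynomial ι (AO O A),
        MvPolynomial.aeval (fun i => rs O (T i)) (R0.map (phi O A)) ∈
          adj (resL O A) (Set.range fun i => rs O (T i)) := by
      intro R0
      rw [← mem_adjoin_iff, IntermediateField.mem_adjoin_range_iff]
      exact ⟨R0.map (phi O A), 1, by rw [map_one, div_one]⟩
    have : rs O x = (rs O x * rs O q) / rs O q := by field_simp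
    rw [this, p2]
    refine Subfield.div_mem _ (hmem P0) ?_
    rw [q2]
    exact hmem Q0
  · refine adj_le (resL_mono O (le_adj _ _)) ?_
    rintro _ ⟨i, rfl⟩
    exact ⟨T i, subset_adj _ _ ⟨i, rfl⟩, h.1 i, rfl⟩

theorem rs_sum {α : Type*} (s : Finset α) (f : α → Ω) (hf : ∀ i ∈ s, f i ∈ O) :
    ∑ i ∈ s, f i ∈ O ∧ rs O (∑ i ∈ s, f i) = ∑ i ∈ s, rs O (f i) := by
  classical
  induction s using Finset.induction_on with
  | empty => simp only [Finset.sum_empty]; exact ⟨O.zero_mem, rs_zero' O⟩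
  | insert a s ha ih =>
    obtain ⟨h1, h2⟩ := ih (fun i hi => hf i (Finset.mem_insert_of_mem hi))
    have h3 := hf a (Finset.mem_insert_self a s)
    rw [Finset.sum_insert ha, Finset.sum_insert ha, rs_add O h3 h1, h2]
    exact ⟨O.add_mem _ _ h3 h1, rfl⟩

theorem rs_prod {α : Type*} (s : Finset α) (f : α → Ω) (hf : ∀ i ∈ s, f i ∈ O) :
    ∏ i ∈ s, f i ∈ O ∧ rs O (∏ i ∈ s, f i) = ∏ i ∈ s, rs O (f i) := by
  classical
  induction s using Finset.induction_on with
  | empty => simp only [Finset.prod_empty]; exact ⟨O.one_mem, rs_one O⟩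
  | insert a s ha ih =>
    obtain ⟨h1, h2⟩ := ih (fun i hi => hf i (Finset.mem_insert_of_mem hi))
    have h3 := hf a (Finset.mem_insert_self a s)
    rw [Finset.prod_insert ha, Finset.prod_insert ha, rs_mul O h3 h1, h2]
    exact ⟨O.mul_mem _ _ h3 h1, rfl⟩

theorem rs_pow {x : Ω} (hx : x ∈ O) (n : ℕ) : x ^ n ∈ O ∧ rs O (x ^ n) = rs O x ^ n := by
  induction n with
  | zero => rw [pow_zero, pow_zero]; exact ⟨O.one_mem, rs_one O⟩
  | succ n ih =>
    rw [pow_succ, pow_succ, rs_mul O ih.1 hx, ih.2]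
    exact ⟨O.mul_mem _ _ ih.1 hx, rfl⟩

variable {ι : Type*} [Fintype ι] [DecidableEq ι]

theorem rs_mon {p : ℕ} {T : ι → Ω} (hT : ∀ i, T i ∈ O) (α : ι → Fin p) :
    mon T α ∈ O ∧ rs O (mon T α) = mon (fun i => rs O (T i)) α := by
  unfold mon
  obtain ⟨h1, h2⟩ := rs_prod O Finset.univ (fun i => T i ^ (α i : ℕ))
    (fun i _ => (rs_pow O (hT i) _).1)
  refine ⟨h1, h2.trans ?_⟩
  exact Finset.prod_congr rfl fun i _ => (rs_pow O (hT i) _).2

theorem rs_psum {p : ℕ} {T : ι → Ω} (hT : ∀ i, T i ∈ O) (w : (ι → Fin p) → Ω)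
    (hw : ∀ α, w α ∈ O) : psum T w ∈ O ∧
      rs O (psum T w) = psum (fun i => rs O (T i)) (fun α => rs O (w α)) := by
  unfold psum
  obtain ⟨h1, h2⟩ := rs_sum O Finset.univ (fun α => w α ^ p * mon T α)
    (fun α _ => O.mul_mem _ _ (rs_pow O (hw α) p).1 (rs_mon O hT α).1)
  refine ⟨h1, h2.trans ?_⟩
  refine Finset.sum_congr rfl fun α _ => ?_
  rw [rs_mul O (rs_pow O (hw α) p).1 (rs_mon O hT α).1, (rs_pow O (hw α) p).2, (rs_mon O hT α).2]

theorem orth_of_residue {p : ℕ} [Fact p.Prime] {E : Subfield Ω} {T : ι → Ω}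
    (hT1 : ∀ i, O.valuation (T i) = 1)
    (hind : PInd p (resL O E) (fun i => rs O (T i))) : Orth p O E T := by
  intro u hu α
  have hT : ∀ i, T i ∈ O := fun i => (O.valuation_le_one_iff _).1 (hT1 i).le
  have hmon : ∀ β : ι → Fin p, O.valuation (mon T β) = 1 := by
    intro β
    unfold mon
    rw [map_prod]
    refine Finset.prod_eq_one fun i _ => ?_
    rw [map_pow, hT1, one_pow]
  have hne : (Finset.univ : Finset (ι → Fin p)).Nonempty := ⟨α, Finset.mem_univ _⟩
  obtain ⟨α0, -, hmax⟩ := Finset.exists_max_image Finset.univ (fun β => O.valuation (u β)) hne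
  rw [map_mul, hmon, mul_one, map_pow]
  have h1 : O.valuation (u α) ^ p ≤ O.valuation (u α0) ^ p :=
    pow_le_pow_left₀ zero_le (hmax α (Finset.mem_univ _)) p
  refine h1.trans ?_
  by_cases hd : u α0 = 0
  · rw [hd, map_zero, zero_pow (Fact.out : p.Prime).ne_zero]
    exact zero_le
  have hv0 : O.valuation (u α0) ≠ 0 := (Valuation.ne_zero_iff _).2 hd
  set w : (ι → Fin p) → Ω := fun β => u β / u α0 with hw
  have hwE : ∀ β, w β ∈ E := fun β => E.div_mem (hu β) (hu α0)
  have hwO : ∀ β, w β ∈ O := fun β => by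
    rw [← O.valuation_le_one_iff, hw, map_div₀]
    exact div_le_one_of_le₀ (hmax β (Finset.mem_univ _)) zero_le
  have hps : psum T u = u α0 ^ p * psum T w := by
    unfold psum
    rw [Finset.mul_sum]
    refine Finset.sum_congr rfl fun β _ => ?_
    show u β ^ p * mon T β = u α0 ^ p * ((u β / u α0) ^ p * mon T β)
    rw [div_pow]
    have hdp : u α0 ^ p ≠ 0 := pow_ne_zero _ hd
    field_simp
  obtain ⟨h2, h3⟩ := rs_psum O hT w hwO
  have h4 : O.valuation (psum T w) = 1 := by
    refine le_antisymm ((O.valuation_le_one_iff _).2 h2) ?_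
    by_contra hlt
    rw [not_le, ← rs_eq_zero O h2, h3] at hlt
    have h5 := hind (fun β => rs O (w β)) (fun β => ⟨w β, hwE β, hwO β, rfl⟩) hlt α0
    have h6 : w α0 = 1 := div_self hd
    rw [h6, rs_one] at h5
    exact one_ne_zero h5
  rw [hps, map_mul, h4, mul_one, map_pow]

end residues

end E0x

variable {Ω : Type*} [Field Ω] (p : ℕ) [Fact p.Prime] [CharP Ω p] [IsAlgClosed Ω]
  (O : ValuationSubring Ω)

/-- The values of `acl E` when `E` has the values of `A` with `W`. -/
theorem E0x.valEq {A E : Subfield Ω} (hA : W p O A) (hv : ValEq O A E) :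
    ValEq O A (acl E) := by
  intro x hx hx0
  obtain ⟨n, hn, l, hl, hl0, hxl⟩ := val_torsion O ((mem_acl _ _).1 hx) hx0
  obtain ⟨b, hb, hlb⟩ := hv l hl hl0
  obtain ⟨c, hc⟩ := IsAlgClosed.exists_pow_nat_eq b hn
  have hb0 : b ≠ 0 := by
    rintro rfl
    rw [map_zero] at hlb
    exact hl0 ((map_eq_zero O.valuation).1 hlb)
  have hc0 : c ≠ 0 := by
    rintro rfl
    rw [zero_pow hn.ne'] at hc
    exact hb0 hc.symm
  have hcA : c ∈ acl A := by
    rw [mem_acl, isAlgebraic_iff]
    refine ⟨X ^ n - C b, (monic_X_pow_sub_C b hn.ne').ne_zero, fun i => ?_, ?_⟩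
    · rw [coeff_sub, coeff_X_pow, coeff_C]
      refine A.sub_mem ?_ ?_
      · split_ifs
        · exact A.one_mem
        · exact A.zero_mem
      · split_ifs
        · exact hb
        · exact A.zero_mem
    · simp [hc]
  obtain ⟨b', hb', hcb'⟩ := W.valEq_acl p O hA c hcA hc0
  refine ⟨b', hb', ?_⟩
  rw [← hcb']
  have h1 : O.valuation x ^ n = O.valuation c ^ n := by
    rw [← map_pow, ← map_pow, hxl, hlb, hc]
  exact (pow_left_inj₀ zero_le zero_le hn.ne').1 h1

theorem E0 {A Ka : Subfield Ω} (hA : W p O A) (hAK : A ≤ Ka) (hp : PCl p Ka) (hh : HCl O Ka)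
    (hv : ValEq O A Ka) {ι : Type*} (T : ι → Ω) (hTK : ∀ i, T i ∈ Ka) (hT : GaussInd O A T)
    (halg : ∀ x ∈ Ka, IsAlgebraic (adj A (Set.range T)) x) (S : Finset Ω)
    (hS : (S : Set Ω) ⊆ Ka) :
    ∃ (n : ℕ) (T' : Fin n → Ω), (∀ i, T' i ∈ Ka) ∧ GaussInd O A T' ∧
      ∀ s ∈ S, s ∈ clN p O Ka (adj A (Set.range T')) := by
  classical
  -- a finite part of `T`
  obtain ⟨T0, hT0⟩ := E0x.alg_finset' T S (fun x hx => halg x (hS hx))
  set a := T0.card with ha
  set e0 := T0.equivFin.symm with he0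
  set T1 : Fin a → Ω := fun i => T (e0 i) with hT1
  have hr1 : Set.range T1 = T '' (T0 : Set ι) := by
    ext w
    constructor
    · rintro ⟨i, rfl⟩
      exact ⟨e0 i, (e0 i).2, rfl⟩
    · rintro ⟨j, hj, rfl⟩
      exact ⟨e0.symm ⟨j, hj⟩, by simp [hT1]⟩
  have hG1 : GaussInd O A T1 := by
    refine E0x.alg_gauss O (fun i => hT.1 _) ?_
    exact (E0x.gauss_alg O hT).comp (fun i => (e0 i : ι))
      (fun i j hij => e0.injective (Subtype.ext hij))
  set F0 := adj A (Set.range T1) with hF0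
  have hSF : ∀ s ∈ S, IsAlgebraic F0 s := by
    intro s hs
    rw [hF0, hr1]
    exact hT0 s hs
  set E := adj F0 (S : Set Ω) with hE
  have hAF : A ≤ F0 := le_adj _ _
  have hFE : F0 ≤ E := le_adj _ _
  have hAE : A ≤ E := hAF.trans hFE
  have hFK : F0 ≤ Ka := adj_le hAK (by rintro _ ⟨i, rfl⟩; exact hTK _)
  have hEK : E ≤ Ka := adj_le hFK hS
  have hEalg : ∀ x ∈ E, IsAlgebraic F0 x := fun x hx => isAlgebraic_adj (fun y hy => hSF y hy) hx
  -- residue fields
  have hcp : CharP (kap O) p := kap_charP O p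
  obtain ⟨S', hS'alg, hS'⟩ := resL_fg O S hSF
  set kA := resL O A with hkA
  have hkF : resL O F0 = adj kA (Set.range fun i => rs O (T1 i)) := E0x.resL_gauss O hG1
  set V : Finset (kap O) := Finset.univ.image (fun i => rs O (T1 i)) ∪ S' with hV
  have hkE : resL O E = adj kA (V : Set (kap O)) := by
    rw [hE, hS', hkF, adj_adj, hV]
    congr 1
    ext y
    simp
  obtain ⟨n, t, htm, hti, hts⟩ := E0x.sep_basis p (k := kA) (resL_pcl O p hA.pcl) V
  rw [← hkE] at htm hts
  choose T' hT'E hT'O hT't using htm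
  have hG' : GaussInd O A T' := by
    refine E0x.alg_gauss O hT'O ?_
    have : (fun i => rs O (T' i)) = t := funext hT't
    rw [this]; exact hti
  have hT'1 : ∀ i, O.valuation (T' i) = 1 := by
    intro i
    refine le_antisymm ((O.valuation_le_one_iff _).2 (hT'O i)) ?_
    by_contra hlt
    rw [not_le, ← rs_eq_zero O (hT'O i), hT't] at hlt
    exact hti.ne_zero i hlt
  have hT'i := E0x.gauss_indep O hG'
  -- cardinalities
  have han : a ≤ n := by
    refine E0x.card_le kA (fun i => rs O (T1 i)) t (E0x.gauss_alg O hG1) (fun i => ?_)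
    have h1 : rs O (T1 i) ∈ resL O E :=
      ⟨T1 i, hFE (subset_adj _ _ ⟨i, rfl⟩), hG1.1 i, rfl⟩
    exact (hts _ h1).isIntegral.isAlgebraic
  have hEalg' : ∀ x ∈ E, IsAlgebraic (adj A (Set.range T')) x := by
    intro x hx
    exact E0x.alg_of_card A T1 T' hT'i (fun j => hEalg _ (hT'E j)) han (hEalg x hx)
  -- orthogonality
  have hPB : PB p (resL O E) t := by
    refine pb_sep p (pb_rational p (resL_pcl O p hA.pcl) hti) ?_ hts
    refine adj_le (E0x.resL_mono O hAE) ?_
    rintro _ ⟨i, rfl⟩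
    exact ⟨T' i, hT'E i, hT'O i, hT't i⟩
  have horth : Orth p O E T' := by
    refine E0x.orth_of_residue O hT'1 ?_
    have : (fun i => rs O (T' i)) = t := funext hT't
    rw [this]
    exact hPB.ind
  -- the ambient field `acl E`
  set Ω0 := acl E with hΩ0
  have hEΩ : E ≤ Ω0 := le_acl E
  have hAΩ : A ≤ Ω0 := hAE.trans hEΩ
  have h0 : ∀ x, IsAlgebraic Ω0 x → x ∈ Ω0 := fun x hx => acl_rac E x (Subfield.mem_top x) hx
  have : IsAlgClosed Ω0 := isAlgClosed_sub Ω0 h0
  have : CharP Ω0 p := (algebraMap Ω0 Ω).charP (algebraMap Ω0 Ω).injective p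
  set T2 : Fin n → Ω0 := fun i => ⟨T' i, hEΩ (hT'E i)⟩ with hT2
  have hr2 : ((↑) : Ω0 → Ω) '' Set.range T2 = Set.range T' := by
    rw [← Set.range_comp]; rfl
  have hadj : adj A (Set.range T') ≤ Ω0 :=
    adj_le hAΩ (by rintro _ ⟨i, rfl⟩; exact hEΩ (hT'E i))
  have e2 := adj_rst Ω0 hAΩ (Set.range T2)
  rw [hr2] at e2
  have hHCA : acl A ≤ HC O A := by
    intro x hx
    have h1 := hA.alg x ((mem_acl _ _).1 hx)
    have h2 : PCl p (HC O A) :=
      (alg_pcl_hcl p O hA.pcl hA.hcl (le_HC A) (fun x hx => HC_alg A hx)).1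
    exact cl_min (le_HC A) h2 (HC_scl A) h1
  have hD := D1 p (rsO Ω0 O) (A := rst Ω0 A) (E := rst Ω0 E) (T := T2)
    ((pcl_rst Ω0 h0 hAΩ).2 hA.pcl)
    (fun x hx => (HC_rst Ω0 h0 O hAΩ x).2 (hHCA ((acl_rst Ω0 hAΩ x).1 hx)))
    (fun x hx => hAE hx) (fun i => hT'E i)
    (fun i => by
      have h1 := (rsO_val_eq Ω0 O (T2 i) 1).2 (by
        rw [hT2]
        simp only [OneMemClass.coe_one, map_one]
        exact hT'1 i)
      rw [h1, map_one])
    ((algIndep_rst Ω0 hAΩ T2).2 hT'i)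
    ((orth_rst Ω0 O hEΩ T2).2 horth)
    (by
      rw [← e2]
      refine algebra_isAlgebraic_rst Ω0 hadj (fun x hx => ?_)
      exact isAlgebraic_trans hEalg' ((mem_acl _ _).1 hx))
    (by
      have h1 := (valEq_rst Ω0 O hAΩ le_rfl).2 (E0x.valEq p O hA (fun x hx => hv x (hEK hx)))
      intro x _ hx0
      exact h1 x x.2 hx0)
  refine ⟨n, T', fun i => hEK (hT'E i), hG', fun s hs => ?_⟩
  have hsE : s ∈ E := subset_adj _ _ hs
  have h1 := hD (show (⟨s, hEΩ hsE⟩ : Ω0) ∈ rst Ω0 E from hsE)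
  rw [← e2, HC_rst Ω0 h0 O hadj] at h1
  refine desc p O (adj_le hAK (by rintro _ ⟨i, rfl⟩; exact hEK (hT'E i))) hp hh ?_ (hS hs)
  exact HC_le_cl _ h1

end Pool.Agent.H92.Tilt
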