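import Pool.Agent.H92.Tilt.D2
import Pool.Agent.H92.Tilt.B6

/-!
Module E1a: transcendence degree one, the values grow.

`acl B ≤ HC B` (`mem_cl_iff`), `B` and `acl B` have the same values, which are divisible. Choose
`z0 ∈ B'` whose value is not a value of `B`. `E := B(z0, S)` is algebraic over `B(z0)`, finite over it. There is `z ∈ E`
with `v z` not a value of `acl B` and `v(x^p) ≠ v z` for all `x ∈ E`: otherwise there are `x_n ∈ E` with
`v(x_n^(p^n)) = v z0` for all `n`, the values of `1, x_n, .., x_n^(p^n - 1)` are distinct modulo the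
values of `B(z0)` (all of the form `v(b z0^k)`), so they are linearly independent over `B(z0)`,
contradiction with `[E : B(z0)] < ∞`. D2: `E ≤ HC (acl B (Z))`; by `HC_finite` and since roots of unity
of order prime to `p` are in `acl B`, `S ≤ HC (acl B (s))` with `s^n = z`, `n` prime to `p`. The values of `B'` are
divisible (`W.valEq_acl` for `B'`), residues of `B'` are residues of `B`, and a unit `≡ 1` of `B'` has an
`n`-th root in `B'` (h-closed): so `z = b^n u0` with `b ∈ B'`, `u0 ∈ B`; `s/b ∈ acl B`, so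
`acl B (s) = acl B (b)`, `S ≤ HC (acl B (b)) ≤ cl (B(b))`, `desc` with `N = B'`. The value of `b` is not a
value of `B`, so `b ∉ B`. (Ω is algebraic over `B'`, so over `B(z)`.)
-/

set_option autoImplicit false

namespace Pool.Agent.H92.Tilt

open Polynomial

section E1aAux

variable {Ω : Type*} [Field Ω]

open scoped IntermediateField.algebraAdjoinAdjoin in
theorem e1a_isAlg_adj (B : Subfield Ω) (S : Set Ω) (x : Ω) :
    IsAlgebraic (Algebra.adjoin B S) x ↔ IsAlgebraic (adj B S) x := by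
  rw [IsFractionRing.isAlgebraic_iff (Algebra.adjoin B S) (IntermediateField.adjoin B S) Ω]
  rw [← adjoin_eq_adj]
  rfl

theorem e1a_exch {B : Subfield Ω} {z t : Ω} (hz : ¬ IsAlgebraic B z)
    (h : IsAlgebraic (adj B {t}) z) : IsAlgebraic (adj B {z}) t := by
  by_contra hcon
  rw [← e1a_isAlg_adj] at hcon h
  have h1 : AlgebraicIndependent B (fun _ : Unit => z) :=
    (algebraicIndependent_unique_type_iff).2 hz
  have h2 : AlgebraicIndependent B (fun o : Option Unit => o.elim t (fun _ => z)) := by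
    rw [h1.option_iff_transcendental]
    rw [Set.range_const]
    exact hcon
  have h3 := h2.transcendental_adjoin (s := {none}) (i := some ()) (by simp)
  rw [Set.image_singleton] at h3
  exact h3 h

theorem e1a_tr1 {B B' : Subfield Ω} (htr : Tr1 B B') {z : Ω} (hz : z ∈ B')
    (hzt : ¬ IsAlgebraic B z) {x : Ω} (hx : IsAlgebraic B' x) : IsAlgebraic (adj B {z}) x := by
  obtain ⟨t, ht, htt, hB'⟩ := htr
  have h1 : IsAlgebraic (adj B {z}) t := e1a_exch hzt (hB' z hz)
  have h2 : ∀ y ∈ B', IsAlgebraic (adj B {z}) y := by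
    intro y hy
    refine isAlgebraic_trans (F := adj (adj B {z}) {t}) ?_ ?_
    · intro w hw
      refine isAlgebraic_adj ?_ hw
      intro y hy
      rw [Set.mem_singleton_iff] at hy
      rw [hy]
      exact h1
    · refine isAlgebraic_mono ?_ (hB' y hy)
      rw [adj_adj]
      exact adj_mono le_rfl Set.subset_union_right
  exact isAlgebraic_trans h2 hx

variable (O : ValuationSubring Ω)

/-- A nonzero combination with terms of distinct values has a dominating term. -/
theorem e1a_dom {ι : Type*} (s : Finset ι) (f : ι → Ω)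
    (hd : ∀ i ∈ s, ∀ j ∈ s, f i ≠ 0 → f j ≠ 0 → O.valuation (f i) = O.valuation (f j) → i = j)
    (hne : ∃ i ∈ s, f i ≠ 0) :
    ∃ i ∈ s, f i ≠ 0 ∧ O.valuation (∑ j ∈ s, f j) = O.valuation (f i) := by
  classical
  obtain ⟨i0, hi0, hfi0⟩ := hne
  obtain ⟨k, hk, hkmax⟩ := Finset.exists_max_image s (fun i => O.valuation (f i)) ⟨i0, hi0⟩
  have hk0 : f k ≠ 0 := by
    intro h0
    have := hkmax i0 hi0
    simp only [h0, map_zero] at this
    exact hfi0 ((Valuation.zero_iff _).1 (le_antisymm this zero_le))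
  refine ⟨k, hk, hk0, ?_⟩
  apply Valuation.map_sum_eq_of_lt _ hk
  intro j hj
  rw [Finset.mem_sdiff, Finset.mem_singleton] at hj
  refine lt_of_le_of_ne (hkmax j hj.1) ?_
  intro he
  by_cases h0 : f j = 0
  · rw [h0, map_zero] at he
    exact (Valuation.ne_zero_iff _).2 hk0 he.symm
  · exact hj.2 (hd j hj.1 k hk h0 hk0 he)

theorem e1a_pow_inj {x y : Ω} {n : ℕ} (hn : 0 < n)
    (h : O.valuation (x ^ n) = O.valuation (y ^ n)) : O.valuation x = O.valuation y := by
  rw [map_pow, map_pow] at h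
  rcases lt_trichotomy (O.valuation x) (O.valuation y) with h1 | h1 | h1
  · exact absurd h (pow_lt_pow_left₀ h1 zero_le hn.ne').ne
  · exact h1
  · exact absurd h (pow_lt_pow_left₀ h1 zero_le hn.ne').ne'

/-- No power of `z0` has a value in `B`. -/
def E1aFree (B : Subfield Ω) (z0 : Ω) : Prop :=
  ∀ e : ℤ, e ≠ 0 → ∀ b ∈ B, O.valuation (z0 ^ e) ≠ O.valuation b

/-- Values of `B(z0)`. -/
theorem e1a_val_adj {B : Subfield Ω} {z0 : Ω} (h0 : z0 ≠ 0) (hz : E1aFree O B z0)
    {u : Ω} (hu : u ∈ adj B {z0}) (hu0 : u ≠ 0) :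
    ∃ b ∈ B, b ≠ 0 ∧ ∃ k : ℤ, O.valuation u = O.valuation (b * z0 ^ k) := by
  have hpoly : ∀ P : Polynomial B, aeval z0 P ≠ 0 →
      ∃ b ∈ B, b ≠ 0 ∧ ∃ k : ℤ, O.valuation (aeval z0 P) = O.valuation (b * z0 ^ k) := by
    intro P hP
    have hP0 : P ≠ 0 := by
      rintro rfl
      exact hP (map_zero _)
    have hsum : aeval z0 P = ∑ i ∈ P.support, ((P.coeff i : B) : Ω) * z0 ^ i := by
      rw [aeval_eq_sum_range' (lt_add_one P.natDegree)]
      symm
      rw [Finset.sum_subset (s₂ := Finset.range (P.natDegree + 1))]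
      · rfl
      · exact P.supp_subset_range_natDegree_succ
      · intro i _ hi
        rw [Polynomial.notMem_support_iff.1 hi]
        simp
    obtain ⟨i, hi, hfi, hv⟩ := e1a_dom O P.support (fun i => ((P.coeff i : B) : Ω) * z0 ^ i) (by
      intro i hi j hj hfi hfj hv
      by_contra hne
      have hci : ((P.coeff i : B) : Ω) ≠ 0 := left_ne_zero_of_mul hfi
      have hcj : ((P.coeff j : B) : Ω) ≠ 0 := left_ne_zero_of_mul hfj
      have hvj : O.valuation ((P.coeff j : B) : Ω) ≠ 0 := (Valuation.ne_zero_iff _).2 hcj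
      have hvi : O.valuation (z0 ^ i) ≠ 0 := (Valuation.ne_zero_iff _).2 (pow_ne_zero i h0)
      refine hz ((j : ℤ) - i) (by omega) (((P.coeff i : B) : Ω) / ((P.coeff j : B) : Ω))
        (B.div_mem (P.coeff i).2 (P.coeff j).2) ?_
      rw [zpow_sub₀ h0, zpow_natCast, zpow_natCast, map_div₀, map_div₀, div_eq_div_iff hvi hvj]
      simp only [map_mul] at hv
      rw [hv]
      exact mul_comm _ _) (by
      obtain ⟨i, hi⟩ := Polynomial.support_nonempty.2 hP0
      refine ⟨i, hi, mul_ne_zero ?_ (pow_ne_zero i h0)⟩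
      simpa using Polynomial.mem_support_iff.1 hi)
    refine ⟨((P.coeff i : B) : Ω), (P.coeff i).2, left_ne_zero_of_mul hfi, i, ?_⟩
    rw [hsum, hv, zpow_natCast]
  rw [← mem_adjoin_iff, IntermediateField.mem_adjoin_simple_iff] at hu
  obtain ⟨r, s, hrs⟩ := hu
  have hr : aeval z0 r ≠ 0 := by
    intro h
    rw [h, zero_div] at hrs
    exact hu0 hrs
  have hs : aeval z0 s ≠ 0 := by
    intro h
    rw [h, div_zero] at hrs
    exact hu0 hrs
  obtain ⟨b, hb, hb0, k, hk⟩ := hpoly r hr
  obtain ⟨c, hc, hc0, l, hl⟩ := hpoly s hs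
  refine ⟨b / c, B.div_mem hb hc, div_ne_zero hb0 hc0, k - l, ?_⟩
  rw [hrs, map_div₀, hk, hl, ← map_div₀]
  congr 1
  rw [zpow_sub₀ h0]
  field_simp

/-- Bound for the exponents. -/
theorem e1a_bound {B : Subfield Ω} {z0 : Ω} (h0 : z0 ≠ 0) (hz : E1aFree O B z0)
    {q : ℕ} {x : Ω} (hx : x ^ q ≠ 0) (hv : O.valuation (x ^ q) = O.valuation z0)
    (hi : IsIntegral (adj B {z0}) x) : q ≤ (minpoly (adj B {z0}) x).natDegree := by
  by_contra hcon
  push Not at hcon
  have hq : 0 < q := by omega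
  have hx0 : x ≠ 0 := by
    rintro rfl
    rw [zero_pow hq.ne'] at hx
    exact hx rfl
  set P := minpoly (adj B {z0}) x with hP
  have hsum : ∑ i ∈ Finset.range (P.natDegree + 1), ((P.coeff i : adj B {z0}) : Ω) * x ^ i = 0 := by
    have := minpoly.aeval (adj B {z0}) x
    rw [← hP, aeval_eq_sum_range] at this
    exact this
  obtain ⟨i, hi', hfi, hvi⟩ := e1a_dom O (Finset.range (P.natDegree + 1))
    (fun i => ((P.coeff i : adj B {z0}) : Ω) * x ^ i) (by
      -- reduction to `i < j`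
      have key : ∀ i j : ℕ, i < j → j < q → ((P.coeff i : adj B {z0}) : Ω) ≠ 0 →
          ((P.coeff j : adj B {z0}) : Ω) ≠ 0 →
          O.valuation (((P.coeff i : adj B {z0}) : Ω) * x ^ i) ≠
          O.valuation (((P.coeff j : adj B {z0}) : Ω) * x ^ j) := by
        intro i j hij hjq hci hcj hvv
        obtain ⟨b, hb, hb0, k, hk⟩ := e1a_val_adj O h0 hz (P.coeff i).2 hci
        obtain ⟨c, hc, hc0, l, hl⟩ := e1a_val_adj O h0 hz (P.coeff j).2 hcj
        have h1 : O.valuation (b * z0 ^ k) * O.valuation x ^ i =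
            O.valuation (c * z0 ^ l) * O.valuation x ^ j := by
          rw [← hk, ← hl, ← map_pow, ← map_pow, ← map_mul, ← map_mul]
          exact hvv
        -- raise to the power `q`
        have h2 : O.valuation (b * z0 ^ k) ^ q * O.valuation z0 ^ i =
            O.valuation (c * z0 ^ l) ^ q * O.valuation z0 ^ j := by
          rw [← hv, map_pow]
          have := congrArg (fun w => w ^ q) h1
          simp only [mul_pow] at this
          rw [← pow_mul, ← pow_mul] at this
          rw [← pow_mul, ← pow_mul, mul_comm q i, mul_comm q j]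
          exact this
        have h3 : O.valuation ((b * z0 ^ k) ^ q * z0 ^ i) = O.valuation ((c * z0 ^ l) ^ q * z0 ^ j) := by
          simp only [map_mul, map_pow] at h2 ⊢
          exact h2
        refine hz ((j : ℤ) - i - (k - l) * q) ?_ (b ^ q / c ^ q)
          (B.div_mem (pow_mem hb q) (pow_mem hc q)) ?_
        · intro he
          have h4 : (k - l) * (q : ℤ) = (j : ℤ) - i := by linarith
          have h5 : 0 < (k - l) * (q : ℤ) := by rw [h4]; omega
          have h6 : 0 < k - l := by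
            by_contra hneg
            push Not at hneg
            have : (k - l) * (q : ℤ) ≤ 0 := mul_nonpos_of_nonpos_of_nonneg hneg (by positivity)
            omega
          have h7 : (q : ℤ) ≤ (k - l) * q := by nlinarith
          omega
        · have e1 : z0 ^ ((j : ℤ) - i - (k - l) * q) * ((b * z0 ^ k) ^ q * z0 ^ i) * c ^ q =
              b ^ q * ((c * z0 ^ l) ^ q * z0 ^ j) := by
            rw [mul_pow, mul_pow, ← zpow_natCast (z0 ^ k), ← zpow_natCast (z0 ^ l), ← zpow_mul,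
              ← zpow_mul, ← zpow_natCast z0 i, ← zpow_natCast z0 j]
            have e2 : z0 ^ ((j : ℤ) - i - (k - l) * q) * z0 ^ (k * (q : ℤ)) * z0 ^ (i : ℤ) =
                z0 ^ (l * (q : ℤ)) * z0 ^ (j : ℤ) := by
              rw [← zpow_add₀ h0, ← zpow_add₀ h0, ← zpow_add₀ h0]
              congr 1
              ring
            calc _ = (z0 ^ ((j : ℤ) - i - (k - l) * q) * z0 ^ (k * (q : ℤ)) * z0 ^ (i : ℤ)) *
                  (b ^ q * c ^ q) := by ring
              _ = _ := by rw [e2]; ring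
          have hne1 : O.valuation ((b * z0 ^ k) ^ q * z0 ^ i) ≠ 0 :=
            (Valuation.ne_zero_iff _).2 (mul_ne_zero (pow_ne_zero _ (mul_ne_zero hb0
              (zpow_ne_zero _ h0))) (pow_ne_zero _ h0))
          have hne2 : O.valuation (c ^ q) ≠ 0 := (Valuation.ne_zero_iff _).2 (pow_ne_zero _ hc0)
          have e3 := congrArg O.valuation e1
          rw [map_mul, map_mul, map_mul (O.valuation) (b ^ q), ← h3] at e3
          rw [map_div₀, eq_div_iff hne2]
          apply mul_right_cancel₀ hne1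
          rw [← e3]
          exact mul_right_comm _ _ _
      intro i hi1 j hj1 hfi hfj hvv
      rw [Finset.mem_range] at hi1 hj1
      rcases lt_trichotomy i j with h | h | h
      · exact absurd hvv (key i j h (by omega) (left_ne_zero_of_mul hfi) (left_ne_zero_of_mul hfj))
      · exact h
      · exact absurd hvv.symm (key j i h (by omega) (left_ne_zero_of_mul hfj)
          (left_ne_zero_of_mul hfi))) (by
      refine ⟨P.natDegree, Finset.self_mem_range_succ _, mul_ne_zero ?_ (pow_ne_zero _ hx0)⟩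
      have : P.coeff P.natDegree = 1 := (minpoly.monic hi)
      rw [this]
      exact one_ne_zero)
  rw [hsum, map_zero] at hvi
  exact (Valuation.ne_zero_iff _).2 hfi hvi.symm

end E1aAux


section E1aAux2

variable {Ω : Type*} [Field Ω] (p : ℕ) [Fact p.Prime] [CharP Ω p] [IsAlgClosed Ω]
  (O : ValuationSubring Ω)

theorem e1a_acl_le_HC {B : Subfield Ω} (hW : W p O B) : acl B ≤ HC O B := by
  intro x hx
  obtain ⟨c, hc, hxc⟩ := (mem_cl_iff p O hW.pcl hW.hcl x).1 (hW.alg x ((mem_acl B x).1 hx))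
  have hcH : c ∈ HC O B := HC_scl B c (hc.mono (le_HC B))
  exact adj_le (le_HC B) (Set.singleton_subset_iff.2 hcH) hxc

theorem e1a_free {B : Subfield Ω} (hW : W p O B) {z0 : Ω} (h0 : z0 ≠ 0)
    (hz : ∀ b ∈ B, O.valuation z0 ≠ O.valuation b) : E1aFree O B z0 := by
  have hpos : ∀ n : ℕ, 0 < n → ∀ b ∈ B, O.valuation (z0 ^ n) ≠ O.valuation b := by
    intro n hn b hb hv
    obtain ⟨c, hc⟩ := IsAlgClosed.exists_pow_nat_eq b hn
    have hcB : c ∈ acl B := by
      rw [mem_acl]
      refine IsAlgebraic.of_pow hn ?_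
      rw [hc]
      exact isAlgebraic_of_mem hb
    rw [← hc] at hv
    have hv' := e1a_pow_inj O hn hv
    have hc0 : c ≠ 0 := by
      rintro rfl
      rw [map_zero] at hv'
      exact h0 ((Valuation.zero_iff _).1 hv')
    obtain ⟨b', hb', hbv⟩ := hW.valEq_acl p O c hcB hc0
    exact hz b' hb' (hv'.trans hbv)
  intro e he b hb hv
  obtain ⟨n, rfl | rfl⟩ := e.eq_nat_or_neg
  · rw [zpow_natCast] at hv
    exact hpos n (by omega) b hb hv
  · rw [zpow_neg, zpow_natCast, map_inv₀] at hv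
    refine hpos n (by omega) b⁻¹ (B.inv_mem hb) ?_
    rw [map_inv₀, ← hv, inv_inv]

/-- The maximal `p`-divided value. -/
theorem e1a_exists_z {B : Subfield Ω} (hW : W p O B) {z0 : Ω} (h0 : z0 ≠ 0)
    (hz : ∀ b ∈ B, O.valuation z0 ≠ O.valuation b) (S : Finset Ω)
    (hS : ∀ s ∈ S, IsAlgebraic (adj B {z0}) s) :
    ∃ z ∈ adj B (insert z0 (S : Set Ω)), z ≠ 0 ∧ (∀ b ∈ B, O.valuation z ≠ O.valuation b) ∧
      ∀ x ∈ adj B (insert z0 (S : Set Ω)), O.valuation (x ^ p) ≠ O.valuation z := by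
  classical
  have hp := (Fact.out : p.Prime)
  have hfree := e1a_free p O hW h0 hz
  set K := IntermediateField.adjoin (adj B {z0}) (S : Set Ω) with hK
  have hfin : FiniteDimensional (adj B {z0}) K :=
    IntermediateField.finiteDimensional_adjoin (fun x hx => (hS x hx).isIntegral)
  have hKE : ∀ x, x ∈ K ↔ x ∈ adj B (insert z0 (S : Set Ω)) := by
    intro x
    rw [hK, mem_adjoin_iff, adj_adj, Set.insert_eq]
  set D := Module.finrank (adj B {z0}) K with hD
  -- bound
  have hbd : ∀ n : ℕ, (∃ x ∈ K, O.valuation (x ^ p ^ n) = O.valuation z0) → p ^ n ≤ D := by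
    rintro n ⟨x, hx, hv⟩
    have hx0 : x ^ p ^ n ≠ 0 := by
      intro h
      rw [h, map_zero] at hv
      exact h0 ((Valuation.zero_iff _).1 hv.symm)
    have hint : IsIntegral (adj B {z0}) (⟨x, hx⟩ : K) := IsIntegral.of_finite _ _
    have hint' : IsIntegral (adj B {z0}) x := by
      have := hint.map K.val
      exact this
    refine (e1a_bound O h0 hfree hx0 hv hint').trans ?_
    have h1 : minpoly (adj B {z0}) x = minpoly (adj B {z0}) (⟨x, hx⟩ : K) :=
      minpoly.algHom_eq K.val K.val.injective ⟨x, hx⟩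
    rw [h1]
    exact minpoly.natDegree_le _
  have hex0 : ∃ x ∈ K, O.valuation (x ^ p ^ 0) = O.valuation z0 := by
    refine ⟨z0, ?_, by simp⟩
    rw [hKE]
    exact subset_adj _ _ (Set.mem_insert _ _)
  -- maximal exponent
  let Q : ℕ → Prop := fun n => ∃ x ∈ K, O.valuation (x ^ p ^ n) = O.valuation z0
  have hmax : ∃ n, Q n ∧ ¬ Q (n + 1) := by
    by_contra hcon
    push Not at hcon
    have hall : ∀ n, Q n := by
      intro n
      induction n with
      | zero => exact hex0
      | succ n ih => exact hcon n ih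
    have h1 := hbd D (hall D)
    have h2 : D < p ^ D := Nat.lt_pow_self hp.one_lt
    omega
  obtain ⟨n, ⟨z, hzK, hzv⟩, hn⟩ := hmax
  refine ⟨z, (hKE z).1 hzK, ?_, ?_, ?_⟩
  · rintro rfl
    rw [zero_pow (pow_ne_zero n hp.ne_zero), map_zero] at hzv
    exact h0 ((Valuation.zero_iff _).1 hzv.symm)
  · intro b hb hv
    refine hz (b ^ p ^ n) (pow_mem hb _) ?_
    rw [← hzv, map_pow, map_pow, hv]
  · intro x hx hv
    apply hn
    refine ⟨x, (hKE x).2 hx, ?_⟩
    rw [pow_succ', pow_mul, map_pow, hv, ← map_pow, hzv]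


/-- Finitely many roots are generated by one. -/
theorem e1a_one_root {B : Subfield Ω} {z : Ω} (hz0 : z ≠ 0) (Z0 : Finset Ω)
    (hZ : (Z0 : Set Ω) ⊆ {s | ∃ n : ℕ, n.Coprime p ∧ s ^ n = z}) :
    ∃ σ : Ω, ∃ n : ℕ, 0 < n ∧ n.Coprime p ∧ σ ^ n = z ∧
      (Z0 : Set Ω) ⊆ adj (acl B) {σ} := by
  classical
  have hp := (Fact.out : p.Prime)
  have h1 : ∃ n : ℕ, n.Coprime p ∧ ∀ s ∈ Z0, ∃ k : ℕ, k ∣ n ∧ s ^ k = z := by
    induction Z0 using Finset.induction_on with
    | empty => exact ⟨1, Nat.coprime_one_left p, by simp⟩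
    | insert a t ha ih =>
      obtain ⟨n, hn, hns⟩ := ih (fun x hx => hZ (by
        rw [Finset.coe_insert]; exact Set.mem_insert_of_mem _ hx))
      obtain ⟨k, hk, hka⟩ := hZ (by rw [Finset.coe_insert]; exact Set.mem_insert _ _ : a ∈ _)
      refine ⟨k * n, Nat.Coprime.mul_left hk hn, ?_⟩
      intro s hs
      rw [Finset.mem_insert] at hs
      rcases hs with rfl | hs
      · exact ⟨k, dvd_mul_right _ _, hka⟩
      · obtain ⟨l, hl, hls⟩ := hns s hs
        exact ⟨l, hl.mul_left k, hls⟩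
  obtain ⟨n, hn, hns⟩ := h1
  have hn0 : 0 < n := by
    rcases Nat.eq_zero_or_pos n with h | h
    · rw [h, Nat.coprime_zero_left] at hn
      exact absurd hn hp.one_lt.ne'
    · exact h
  obtain ⟨σ, hσ⟩ := IsAlgClosed.exists_pow_nat_eq z hn0
  refine ⟨σ, n, hn0, hn, hσ, ?_⟩
  intro s hs
  obtain ⟨k, ⟨l, hl⟩, hk⟩ := hns s hs
  have hσ0 : σ ≠ 0 := by
    rintro rfl
    rw [zero_pow hn0.ne'] at hσ
    exact hz0 hσ.symm
  have hk0 : 0 < k := by
    rcases Nat.eq_zero_or_pos k with h | h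
    · rw [h, zero_mul] at hl; omega
    · exact h
  have hζ : (s / σ ^ l) ^ k = 1 := by
    rw [div_pow, ← pow_mul, mul_comm l k, ← hl, hσ, hk, div_self hz0]
  have hζB : s / σ ^ l ∈ acl B := by
    rw [mem_acl]
    refine IsAlgebraic.of_pow hk0 ?_
    rw [hζ]
    exact isAlgebraic_of_mem B.one_mem
  have : s = s / σ ^ l * σ ^ l := by field_simp
  rw [this]
  exact mul_mem (le_adj _ _ hζB) (pow_mem (subset_adj _ _ (Set.mem_singleton σ)) l)

end E1aAux2

variable {Ω : Type*} [Field Ω] (p : ℕ) [Fact p.Prime] [CharP Ω p] [IsAlgClosed Ω]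
  (O : ValuationSubring Ω)

theorem E1a {B B' : Subfield Ω} (hBB' : B ≤ B') (hW : W p O B) (hW' : W p O B')
    (hres : ResEq O B B') (hval : ¬ ValEq O B B') (htr : Tr1 B B')
    (hΩ : Algebra.IsAlgebraic B' Ω) (S : Finset Ω) (hS : (S : Set Ω) ⊆ B') :
    ∃ z ∈ B', z ∉ B ∧ ∀ s ∈ S, s ∈ clN p O B' (adj B {z}) := by
  classical
  have hp := (Fact.out : p.Prime)
  -- `z0`
  have hval' : ∃ z0 ∈ B', z0 ≠ 0 ∧ ∀ b ∈ B, O.valuation z0 ≠ O.valuation b := by
    unfold ValEq at hval
    push Not at hval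
    exact hval
  obtain ⟨z0, hz0B', hz00, hz0v⟩ := hval'
  -- elements with new values are transcendental
  have htrans : ∀ z : Ω, z ≠ 0 → (∀ b ∈ B, O.valuation z ≠ O.valuation b) → ¬ IsAlgebraic B z := by
    intro z hz hzv hza
    obtain ⟨b, hb, hbv⟩ := hW.valEq_acl p O z ((mem_acl B z).2 hza) hz
    exact hzv b hb hbv
  have halg : ∀ z ∈ B', z ≠ 0 → (∀ b ∈ B, O.valuation z ≠ O.valuation b) →
      ∀ x : Ω, IsAlgebraic (adj B {z}) x := by
    intro z hzB' hz hzv x
    exact e1a_tr1 htr hzB' (htrans z hz hzv) (hΩ.isAlgebraic x)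
  obtain ⟨z, hzE, hzne, hzv, hznp⟩ := e1a_exists_z p O hW hz00 hz0v S
    (fun s _ => halg z0 hz0B' hz00 hz0v s)
  set E := adj B (insert z0 (S : Set Ω)) with hE
  have hEB' : E ≤ B' := adj_le hBB' (Set.insert_subset hz0B' hS)
  have hzB' : z ∈ B' := hEB' hzE
  have hzalg : Algebra.IsAlgebraic (adj B {z}) Ω := ⟨fun x => halg z hzB' hzne hzv x⟩
  have hM := e1a_acl_le_HC p O hW
  have hD2 := D2 p O hW.pcl hM (le_adj _ _) hzE (by
    intro b hb hv
    have hb0 : b ≠ 0 := by
      rintro rfl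
      rw [map_zero] at hv
      exact hzne ((Valuation.zero_iff _).1 hv)
    obtain ⟨b', hb', hbv⟩ := hW.valEq_acl p O b hb hb0
    exact hzv b' hb' (hv.trans hbv)) hznp hzalg
  -- finitely many roots
  have hfin : ∃ Z0 : Finset Ω, (Z0 : Set Ω) ⊆ {s | ∃ n : ℕ, n.Coprime p ∧ s ^ n = z} ∧
      ∀ s ∈ S, s ∈ HC O (adj (acl B) (Z0 : Set Ω)) := by
    have hSE : ∀ s ∈ S, s ∈ HC O (adj (acl B) {s | ∃ n : ℕ, n.Coprime p ∧ s ^ n = z}) := by
      intro s hs
      exact hD2 (subset_adj _ _ (Set.mem_insert_of_mem _ hs))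
    have hgen : ∀ T : Finset Ω,
        (∀ s ∈ T, s ∈ HC O (adj (acl B) {s | ∃ n : ℕ, n.Coprime p ∧ s ^ n = z})) →
        ∃ Z0 : Finset Ω, (Z0 : Set Ω) ⊆ {s | ∃ n : ℕ, n.Coprime p ∧ s ^ n = z} ∧
          ∀ s ∈ T, s ∈ HC O (adj (acl B) (Z0 : Set Ω)) := by
      intro T
      induction T using Finset.induction_on with
      | empty => exact fun _ => ⟨∅, by simp, by simp⟩
      | insert a t ha ih =>
        intro h
        obtain ⟨Z1, hZ1, h1⟩ := ih (fun s hs => h s (Finset.mem_insert_of_mem hs))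
        obtain ⟨Z2, hZ2, h2⟩ := HC_finite _ _ (h a (Finset.mem_insert_self _ _))
        refine ⟨Z1 ∪ Z2, ?_, ?_⟩
        · rw [Finset.coe_union]
          exact Set.union_subset hZ1 hZ2
        · intro s hs
          rw [Finset.coe_union]
          rcases Finset.mem_insert.1 hs with rfl | hs
          · exact HC_mono (adj_mono le_rfl Set.subset_union_right) h2
          · exact HC_mono (adj_mono le_rfl Set.subset_union_left) (h1 s hs)
    exact hgen S hSE
  obtain ⟨Z0, hZ0, hSZ⟩ := hfin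
  obtain ⟨σ, n, hn0, hn, hσ, hZσ⟩ := e1a_one_root p (B := B) hzne Z0 hZ0
  have hσ0 : σ ≠ 0 := by
    rintro rfl
    rw [zero_pow hn0.ne'] at hσ
    exact hzne hσ.symm
  -- the element `b`
  obtain ⟨b1, hb1, hb1v⟩ := hW'.valEq_acl p O σ
    ((mem_acl B' σ).2 (hΩ.isAlgebraic σ)) hσ0
  have hb10 : b1 ≠ 0 := by
    rintro rfl
    rw [map_zero] at hb1v
    exact hσ0 ((Valuation.zero_iff _).1 hb1v)
  have hb1n : b1 ^ n ≠ 0 := pow_ne_zero n hb10
  have hw1 : O.valuation (z / b1 ^ n) = 1 := by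
    rw [map_div₀, map_pow, ← hb1v, ← map_pow, hσ, div_self]
    exact (Valuation.ne_zero_iff _).2 hzne
  have hwB' : z / b1 ^ n ∈ B' := B'.div_mem hzB' (pow_mem hb1 n)
  have hwO : z / b1 ^ n ∈ O := (val_le_one O).1 hw1.le
  obtain ⟨u0, hu0, hu0v⟩ := hres _ hwB' hwO
  have hu01 : O.valuation u0 = 1 := by
    have h1 : u0 = z / b1 ^ n - (z / b1 ^ n - u0) := by ring
    rw [h1, Valuation.map_sub_eq_of_lt_left, hw1]
    rw [hw1]
    exact hu0v
  have hu00 : u0 ≠ 0 := by
    rintro rfl
    rw [map_zero] at hu01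
    exact zero_ne_one hu01
  set w := z / b1 ^ n / u0 with hw
  have hwB'2 : w ∈ B' := B'.div_mem hwB' (hBB' hu0)
  have hwv : O.valuation w = 1 := by rw [hw, map_div₀, hw1, hu01, div_one]
  have hw1v : O.valuation (1 - w) < 1 := by
    have h1 : 1 - w = -(z / b1 ^ n - u0) / u0 := by
      rw [hw]
      field_simp
      ring
    rw [h1, map_div₀, Valuation.map_neg, hu01, div_one]
    exact hu0v
  have hwO2 : w ∈ O := (val_le_one O).1 hwv.le
  -- `n`-th root
  have hnunit : O.valuation ((n : ℕ) : Ω) = 1 := by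
    have h1 : ¬ (p : ℤ) ∣ n := by
      intro hd
      have hd' : p ∣ n := by exact_mod_cast hd
      have := Nat.Coprime.eq_one_of_dvd hn.symm hd'
      exact hp.one_lt.ne' this
    obtain ⟨a, c, hac⟩ : IsCoprime (n : ℤ) (p : ℤ) := Nat.isCoprime_iff_coprime.2 hn
    have h2 : ((a : ℤ) : Ω) * (n : Ω) = 1 := by
      have := congrArg (fun t : ℤ => (t : Ω)) hac
      push_cast at this
      rw [CharP.cast_eq_zero Ω p, mul_zero, add_zero] at this
      exact this
    have h3 : O.valuation ((n : ℕ) : Ω) ≤ 1 := (val_le_one O).2 (natCast_mem O n)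
    have h4 : O.valuation ((a : ℤ) : Ω) ≤ 1 := (val_le_one O).2 (intCast_mem O a)
    have h5 : O.valuation ((a : ℤ) : Ω) * O.valuation ((n : ℕ) : Ω) = 1 := by
      rw [← map_mul, h2, map_one]
    apply le_antisymm h3
    rw [← h5]
    exact mul_le_of_le_one_left' h4
  obtain ⟨r, hrB', hr0, hr1, _⟩ := HCl.hensel (O := O) (L := B') (L0 := B') hW'.hcl le_rfl
    (h := X ^ n - C w) (monic_X_pow_sub_C w hn0.ne') (by
      intro i
      rw [coeff_sub, coeff_X_pow, coeff_C]
      refine B'.sub_mem ?_ ?_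
      · split_ifs
        · exact B'.one_mem
        · exact B'.zero_mem
      · split_ifs
        · exact hwB'2
        · exact B'.zero_mem) (by
      intro i
      rw [coeff_sub, coeff_X_pow, coeff_C]
      refine O.sub_mem ?_ ?_
      · split_ifs
        · exact O.one_mem
        · exact O.zero_mem
      · split_ifs
        · exact hwO2
        · exact O.zero_mem) (a := 1) B'.one_mem O.one_mem (by
      rw [eval_sub, eval_pow, eval_X, eval_C, one_pow]
      exact hw1v) (by
      rw [derivative_sub, derivative_X_pow, derivative_C, sub_zero, eval_mul, eval_pow, eval_X,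
        one_pow, mul_one, eval_C]
      exact hnunit)
  have hrn : r ^ n = w := by
    rw [eval_sub, eval_pow, eval_X, eval_C] at hr0
    exact sub_eq_zero.1 hr0
  have hw0 : w ≠ 0 := by
    intro h
    rw [h, map_zero] at hwv
    exact zero_ne_one hwv
  have hr00 : r ≠ 0 := by
    rintro rfl
    rw [zero_pow hn0.ne'] at hrn
    exact hw0 hrn.symm
  set b := b1 * r with hb
  have hbB' : b ∈ B' := B'.mul_mem hb1 hrB'
  have hb0 : b ≠ 0 := mul_ne_zero hb10 hr00
  have hbz : z = b ^ n * u0 := by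
    rw [hb, mul_pow, hrn, hw]
    field_simp
  refine ⟨b, hbB', ?_, ?_⟩
  · intro hbB
    refine hzv (b ^ n * u0) (B.mul_mem (pow_mem hbB n) hu0) ?_
    rw [← hbz]
  · -- `σ / b` is algebraic over `B`
    have hσb : σ / b ∈ acl B := by
      rw [mem_acl]
      refine IsAlgebraic.of_pow hn0 ?_
      have : (σ / b) ^ n = u0 := by
        rw [div_pow, hσ, hbz]
        field_simp
      rw [this]
      exact isAlgebraic_of_mem hu0
    have hσadj : σ ∈ adj (acl B) {b} := by
      have : σ = σ / b * b := by field_simp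
      rw [this]
      exact mul_mem (le_adj _ _ hσb) (subset_adj _ _ (Set.mem_singleton b))
    have hadj : adj (acl B) {σ} ≤ adj (acl B) {b} :=
      adj_le (le_adj _ _) (Set.singleton_subset_iff.2 hσadj)
    have hHCcl : HC O (adj (acl B) {b}) ≤ cl p O (adj B {b}) := by
      refine HC_min (adj_le ?_ ?_) (cl_scl _)
      · exact (hM.trans (HC_le_cl (p := p) B)).trans (cl_mono (le_adj _ _))
      · exact (subset_adj B {b}).trans (le_cl _)
    intro s hs
    have h1 : s ∈ HC O (adj (acl B) (Z0 : Set Ω)) := hSZ s hs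
    have h2 : adj (acl B) (Z0 : Set Ω) ≤ adj (acl B) {b} :=
      (adj_le (le_adj _ _) hZσ).trans hadj
    have h3 : s ∈ cl p O (adj B {b}) := hHCcl (HC_mono h2 h1)
    exact desc p O (adj_le hBB' (Set.singleton_subset_iff.2 hbB')) hW'.pcl hW'.hcl h3 (hS hs)

end Pool.Agent.H92.Tilt
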