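import Pool.Agent.H92.Tilt.D4
import Pool.Agent.H92.Tilt.D0
import Pool.Agent.H92.Tilt.Res
import Pool.Agent.H91.Tilt.LiftR

/-!
Module E1b: transcendence degree one, same values, finitely many overrings.

Let `U` be the set of overrings `O1` of `O` such that some `x ∈ B' ∩ O1` has `v_1(x - a) = 1` or more
(`x - a ∉ m_1`) for all `a ∈ B`. `U` is upward closed, contains `⊤` (take `x ∉ B`), does not contain `O`
(`hres`). Overrings are totally ordered: let `O' = min U` and `O''` the largest overring not in `U`;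
nothing lies strictly between `O''` and `O'`. In `κ = kap O'` put `Õ = resO O''`: `Arch Õ`
(adjacency). `B̃ = resL B`, `B̃' = resL B'`. D4 applies to `B̃ ≤ B̃'`, `Õ`: `W` by `resL_W`
(with `W.coarser`), `ResEq` since `O'' ∉ U`, `ValEq` from the values of `O` (`x = b u`, `u` a unit of
`O`), `κ` algebraic over `B̃'`, `Tr1`: there is `z0 ∈ B' ∩ O'` with `rs z0 ∉ B̃`, so transcendental over
`B̃` (`W.rac`, or lift), and `B'` is algebraic over `B(z0)`.
`E := B(z0, S)`; `Ẽ = resL E` is generated over `B̃` by a finite set `S̃` (`resL_adj_transc`,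
`resL_fg`). D4: `z̃ ∈ B̃'`, `z̃ ∉ B̃`, `S̃ ≤ cl (acl B̃ (z̃)) = cl (B̃(z̃))`. Replace `z̃` by a `p`-power (same `cl`)
separable over `Ẽ`, lift it to `c ∈ B'`, an `O'`-simple root over `E` (Hensel in `B'`).
`E2 := E(c) ≤ B'`, `Ẽ2 = Ẽ(z̃)` (`resL_adj_sroot`). `Ẽ2` is finitely generated over the perfect field `B̃`,
`B̃` is relatively algebraically closed in it, so `z̃` is not in all `Ẽ2^(p^m)`: let `z̃ = z̃1^(p^m)`, `z̃1 ∈ Ẽ2`,
`z̃1 ∉ Ẽ2^p`; `z ∈ E2 ∩ O'` lifting `z̃1`. `1, z̃1, .., z̃1^(p-1)` are independent over `Ẽ2^p`: `Orth p O' E2 (z)`.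
D1 for `O'`, `A = B`, `T = (z)` (`W.coarser`, `acl B ≤ HC`): `E2 ≤ HC_{O'} (B(z))`.
`Fz := clN p O B' (B(z))`, perfect, h-closed for `O`, so for `O'`, `O''` (`hcl_coarser`).
(1) `Ẽ2 ≤ resL Fz`: `resL Fz` is perfect; if `c̃ ∈ B̃'` is an `Õ`-simple root over `resL Fz`, lift it to
`c1 ∈ B'`, an `O''`-simple root over `Fz` with residue `c̃` (Hensel in `B'` for `O''`; uniqueness of the
simple root in its class in the residue field); as `O'' ∉ U`, `c1 ≡ a` modulo `m''` with `a ∈ B`, so `c1 ∈ Fz`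
(h-closed for `O''`). So `resL Fz` is closed in `B̃'` and contains `z̃`, hence `S̃` (`desc` in the
residue field), hence `Ẽ2`.
(2) `E2 ≤ Fz`: let `N2` be maximal among the subfields `E2 ≤ L ≤ B'` with `resL L ≤ resL Fz` (Zorn).
`N2` is perfect (`resL Fz` is perfect) and h-closed for `O'` (`resL_adj_sroot`). `desc` for `O'`
and `X = B(z) ≤ N2`: `E2 ≤ clN p O' N2 (B(z))`, and `Fz` is closed: an `O'`-simple root `c ∈ N2` over `Fz` is
congruent modulo `m'` to an element of `Fz`, so it is in `Fz`; `p`-th roots in `B'` are in `Fz`.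
So `S ≤ E2 ≤ Fz`, and `z ∉ B` since `z̃1 ∉ B̃`.
-/

set_option autoImplicit false

namespace Pool.Agent.H92.Tilt

open Polynomial Pool.Agent.H91.Tilt

variable {Ω : Type*} [Field Ω] (p : ℕ) [Fact p.Prime] [CharP Ω p] [IsAlgClosed Ω]
  (O : ValuationSubring Ω)

theorem E1b (hfin : {O1 : ValuationSubring Ω | O ≤ O1}.Finite) {B B' : Subfield Ω}
    (hBB' : B ≤ B') (hW : W p O B) (hW' : W p O B')
    (hres : ResEq O B B') (hval : ValEq O B B') (htr : Tr1 B B')
    (hΩ : Algebra.IsAlgebraic B' Ω) (S : Finset Ω) (hS : (S : Set Ω) ⊆ B') :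
    ∃ z ∈ B', z ∉ B ∧ ∀ s ∈ S, s ∈ clN p O B' (adj B {z}) := by
  classical
  have hpp : p.Prime := Fact.out
  -- choice of the adjacent rings `O1 = O''` and `O2 = O'`
  let U : ValuationSubring Ω → Prop := fun R =>
    ∃ x ∈ B', x ∈ R ∧ ∀ a ∈ B, ¬ R.valuation (x - a) < 1
  have hUup : ∀ R1 R2 : ValuationSubring Ω, O ≤ R1 → R1 ≤ R2 → U R1 → U R2 := by
    rintro R1 R2 _ h ⟨x, hx, hxO, hxa⟩
    exact ⟨x, hx, h hxO, fun a ha hc => hxa a ha (fine_lt_one h hc)⟩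
  have hUtop : U ⊤ := by
    obtain ⟨x, hx, hxt, -⟩ := htr
    refine ⟨x, hx, ValuationSubring.mem_top x, fun a ha hc => ?_⟩
    have h1 : x - a ≠ 0 := by
      intro h0
      rw [sub_eq_zero.1 h0] at hxt
      exact hxt (isAlgebraic_of_mem ha)
    have h2 : (x - a)⁻¹ ∈ (⊤ : ValuationSubring Ω) := ValuationSubring.mem_top _
    have h3 := ((⊤ : ValuationSubring Ω).valuation_le_one_iff _).2 h2
    rw [map_inv₀] at h3
    have h4 : (⊤ : ValuationSubring Ω).valuation (x - a) ≠ 0 := (Valuation.ne_zero_iff _).2 h1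
    exact absurd h3 (not_le.2 ((one_lt_inv₀ (zero_lt_iff.2 h4)).2 hc))
  have hUO : ¬ U O := by
    rintro ⟨x, hx, hxO, hxa⟩
    obtain ⟨b, hb, hb'⟩ := hres x hx hxO
    exact hxa b hb hb'
  obtain ⟨O1, O2, hO1, h12, hU1, hU2, hadj⟩ := exists_adjacent O hfin U hUup hUtop hUO
  have hO2 : O ≤ O2 := hO1.trans h12
  have hres1 : ResEq O1 B B' := by
    intro x hx hxO
    by_contra hc
    push Not at hc
    exact hU1 ⟨x, hx, hxO, fun a ha => not_lt.2 (hc a ha)⟩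
  have hW1 : W p O1 B := W.coarser p O hW hO1
  have hW1' : W p O1 B' := W.coarser p O hW' hO1
  have hW2 : W p O2 B := W.coarser p O hW hO2
  have hW2' : W p O2 B' := W.coarser p O hW' hO2
  have hchar : CharP (kap O2) p := kap_charP O2 p
  -- the residue field of `O2`
  set Ot : ValuationSubring (kap O2) := resO O2 O1 h12 with hOt
  set Bt : Subfield (kap O2) := resL O2 B with hBt
  set Bt' : Subfield (kap O2) := resL O2 B' with hBt'
  have hBBt : Bt ≤ Bt' := resL_mono O2 hBB'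
  have harch : Arch Ot := arch_of_adjacent h12 hadj
  have hWt : W p Ot Bt := resL_W O2 p h12 hW1
  have hWt' : W p Ot Bt' := resL_W O2 p h12 hW1'
  have hrest : ResEq Ot Bt Bt' := by
    rintro y ⟨x, hx, hxO2, rfl⟩ hyO
    have hxO1 : x ∈ O1 := (mem_resO O2 h12 hxO2).1 hyO
    obtain ⟨a, ha, hxa⟩ := hres1 x hx hxO1
    have haO1 : a ∈ O1 := by
      have h1 := O1.sub_mem hxO1 (val_lt_one_memO hxa)
      rwa [sub_sub_cancel] at h1
    refine ⟨rs O2 a, ⟨a, ha, h12 haO1, rfl⟩, ?_⟩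
    rw [← rs_sub O2 hxO2 (h12 haO1)]
    exact (resO_val_lt O2 h12 (sub_mem hxO2 (h12 haO1))).2 hxa
  have hvalt : ValEq Ot Bt Bt' := by
    rintro y ⟨x, hx, hxO2, rfl⟩ hy0
    have hx0 : x ≠ 0 := by
      rintro rfl
      exact hy0 (rs_zero' O2)
    obtain ⟨b, hb, hxb⟩ := hval x hx hx0
    have hbO2 : b ∈ O2 := by
      rw [← O2.valuation_le_one_iff, ← coarse_eq hO2 hxb]
      exact (O2.valuation_le_one_iff _).2 hxO2
    have hb0 : rs O2 b ≠ 0 := by
      intro hc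
      have h1 := (rs_eq_zero O2 hbO2).1 hc
      rw [← coarse_eq hO2 hxb] at h1
      exact hy0 ((rs_eq_zero O2 hxO2).2 h1)
    refine ⟨rs O2 b, ⟨b, hb, hbO2, rfl⟩, ?_⟩
    have hxb1 := coarse_eq hO1 hxb
    exact le_antisymm ((resO_val_le O2 h12 hxO2 hbO2 hy0 hb0).2 hxb1.le)
      ((resO_val_le O2 h12 hbO2 hxO2 hb0 hy0).2 hxb1.ge)
  have hΩt : Algebra.IsAlgebraic Bt' (kap O2) := by
    refine ⟨fun y => ?_⟩
    obtain ⟨x, hxO, rfl⟩ := rs_surj O2 y
    exact resL_alg O2 (E := ⊤) (fun x _ => hΩ.isAlgebraic x) ⟨x, Subfield.mem_top x, hxO, rfl⟩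
  have hract : RAC Bt Bt' := W.rac p Ot hWt hBBt hrest
  -- a residually transcendental element
  obtain ⟨z0, hz0B, hz0O, hz0a⟩ := hU2
  have hz0t : rs O2 z0 ∉ Bt := by
    rintro ⟨a, ha, haO, har⟩
    exact hz0a a ha ((rs_eq_iff O2 hz0O haO).1 har.symm)
  have hz0t' : rs O2 z0 ∈ Bt' := ⟨z0, hz0B, hz0O, rfl⟩
  have hz0tr : ¬ IsAlgebraic Bt (rs O2 z0) := fun h => hz0t (hract _ hz0t' h)
  obtain ⟨hresz0, hz0trB⟩ := resL_adj_transc O2 hz0O hz0tr
  have halg0 : ∀ y ∈ B', IsAlgebraic (adj B {z0}) y := fun y hy => tr1_alg htr hz0B hz0trB hy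
  have htrt : Tr1 Bt Bt' := by
    refine ⟨rs O2 z0, hz0t', hz0tr, fun y hy => ?_⟩
    rw [← hresz0]
    exact resL_alg O2 halg0 hy
  -- the field generated by `S`
  obtain ⟨S', hS'alg, hS'⟩ := resL_fg O2 (L := adj B {z0}) S (fun s hs => halg0 s (hS hs))
  set E : Subfield Ω := adj (adj B {z0}) (S : Set Ω) with hE
  have hEB' : E ≤ B' := adj_le (adj_le hBB' (Set.singleton_subset_iff.2 hz0B)) hS
  have hEt : resL O2 E = adj (adj Bt {rs O2 z0}) (S' : Set (kap O2)) := by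
    rw [hS', hresz0]
  have hEtB' : resL O2 E ≤ Bt' := resL_mono O2 hEB'
  let St : Finset (kap O2) := insert (rs O2 z0) S'
  have hSt : (St : Set (kap O2)) ⊆ Bt' := by
    intro y hy
    rcases Finset.mem_insert.1 hy with rfl | hy
    · exact hz0t'
    · refine hEtB' ?_
      rw [hEt]
      exact subset_adj _ _ hy
  obtain ⟨w0, hw0B', hw0B, hw0⟩ := D4 p Ot harch hBBt hWt hWt' hrest hvalt hΩt htrt St hSt
  -- a `p`-power of it, separable over the residue field of `E`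
  have halgE : ∀ y ∈ Bt', IsAlgebraic (resL O2 E) y := by
    intro y hy
    refine isAlgebraic_mono (L := adj Bt {rs O2 z0}) ?_ (tr1_alg htrt hz0t' hz0tr hy)
    rw [hEt]
    exact le_adj _ _
  obtain ⟨k, hk⟩ := exists_sep_pow p (halgE w0 hw0B')
  set w : kap O2 := w0 ^ p ^ k with hwdef
  have hwB' : w ∈ Bt' := pow_mem hw0B' _
  have hwB : w ∉ Bt := fun h => hw0B (pcl_iter hWt.pcl k h)
  have hwtr : ¬ IsAlgebraic Bt w := fun h => hwB (hract _ hwB' h)
  have hclw : ∀ s ∈ St, s ∈ cl p Ot (adj Bt {w}) := by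
    intro s hs
    have h1 : adj (acl Bt) {w0} ≤ cl p Ot (adj Bt {w}) := by
      refine adj_le (fun x hx => ?_) (Set.singleton_subset_iff.2 ?_)
      · exact cl_mono (le_adj _ _) (hWt.alg x ((mem_acl _ _).1 hx))
      · exact pcl_iter (cl_pcl _) k (le_cl _ (subset_adj _ _ (Set.mem_singleton _)))
    exact cl_min h1 (cl_pcl _) (cl_scl _) (hw0 s hs)
  -- lift it to a simple root over `E`
  obtain ⟨c, hcB', hcs, hcw⟩ := lift_sep O2 hEB' hW2'.hcl hwB' hk
  set E2 : Subfield Ω := adj E {c} with hE2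
  have hE2B' : E2 ≤ B' := adj_le hEB' (Set.singleton_subset_iff.2 hcB')
  have hE2t : resL O2 E2 = adj (adj Bt {w}) (St : Set (kap O2)) := by
    rw [hE2, resL_adj_sroot O2 hcs, hEt, hcw, adj_adj, adj_adj, adj_adj]
    congr 1
    ext y
    simp only [Set.mem_union, Set.mem_singleton_iff, Finset.mem_coe, St, Finset.mem_insert]
    tauto
  obtain ⟨m, y, hyE2, hyw, hyp⟩ := exists_root_level p hwtr St
    (fun t ht => tr1_alg htrt hwB' hwtr (hSt ht))
  rw [← hE2t] at hyE2 hyp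
  have hyB' : y ∈ Bt' := resL_mono O2 hE2B' hyE2
  have hyB : y ∉ Bt := fun h => hwB (hyw ▸ pow_mem h _)
  have hytr : ¬ IsAlgebraic Bt y := fun h => hyB (hract _ hyB' h)
  obtain ⟨z, hzE2, hzO2, hzy⟩ := hyE2
  have hzB' : z ∈ B' := hE2B' hzE2
  have hztr : ¬ IsAlgebraic B z := (resL_adj_transc O2 hzO2 (by rw [hzy]; exact hytr)).2
  have hz1 : O2.valuation z = 1 := by
    refine val_one_of_rs_ne O2 hzO2 ?_
    rw [hzy]
    rintro rfl
    exact hyB Bt.zero_mem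
  have horth : Orth p O2 E2 (fun _ : Fin 1 => z) :=
    orth_one p hzE2 hzO2 (by rw [hzy]; exact hyp)
  have halgz : ∀ y ∈ B', IsAlgebraic (adj B {z}) y := fun y hy => tr1_alg htr hzB' hztr hy
  have hBE2 : B ≤ E2 := (le_adj B {z0}).trans ((le_adj _ _).trans (le_adj _ _))
  have hXB' : adj B {z} ≤ B' := adj_le hBB' (Set.singleton_subset_iff.2 hzB')
  -- stability
  have hrange : Set.range (fun _ : Fin 1 => z) = {z} := Set.range_const
  have hHC : E2 ≤ HC O2 (adj B {z}) := by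
    have hM : acl B ≤ HC O2 B := by
      have h1 : PCl p (HC O2 B) := (alg_pcl_hcl p O2 hW2.pcl hW2.hcl (le_HC B)
        (fun x hx => HC_alg B hx)).1
      intro x hx
      exact cl_min (le_HC B) h1 (HC_scl B) (hW2.alg x ((mem_acl _ _).1 hx))
    have hT : AlgebraicIndependent B (fun _ : Fin 1 => z) :=
      algebraicIndependent_unique_type_iff.2 hztr
    have hv : ValEq O2 B ⊤ := by
      intro x _ hx0
      obtain ⟨b', hb', hxb'⟩ := W.valEq_acl p O hW' x ((mem_acl _ _).2 (hΩ.isAlgebraic x)) hx0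
      have hb'0 : b' ≠ 0 := by
        rintro rfl
        rw [map_zero] at hxb'
        exact hx0 ((Valuation.zero_iff _).1 hxb')
      obtain ⟨b, hb, hb'b⟩ := hval b' hb' hb'0
      exact ⟨b, hb, coarse_eq hO2 (hxb'.trans hb'b)⟩
    have hΩ1 : Algebra.IsAlgebraic (adj B {z}) Ω := by
      refine ⟨fun x => ?_⟩
      exact isAlgebraic_trans (F := B') halgz (hΩ.isAlgebraic x)
    have h1 := D1 p O2 (A := B) (E := E2) (T := fun _ : Fin 1 => z) hW.pcl hM hBE2
      (fun _ => hzE2) (fun _ => hz1) hT horth (by rw [hrange]; exact hΩ1) hv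
    rwa [hrange] at h1
  -- the closure
  set Fz : Subfield Ω := clN p O B' (adj B {z}) with hFz
  have hXF : adj B {z} ≤ Fz := le_clN _ _
  have hFzB' : Fz ≤ B' := clN_le hXB'
  have hFp : PCl p Fz := clN_pcl hW'.pcl hXB'
  have hFh : HCl O Fz := clN_hcl hW'.hcl hXB'
  have hFh1 : HCl O1 Fz := hcl_coarser p O hFp hFh hO1
  have hFh2 : HCl O2 Fz := hcl_coarser p O hFp hFh hO2
  have hRp : PCl p (resL O2 Fz) := resL_pcl O2 p hFp
  have hBF : B ≤ Fz := (le_adj B {z}).trans hXF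
  have hRcl : ClIn p Ot Bt' (resL O2 Fz) := by
    refine ⟨fun y _ hy => hRp y hy, ?_⟩
    rintro y ⟨b, hb, hbO, rfl⟩ hy
    obtain ⟨c0, hc0, hc0y⟩ := sroot_lift O2 h12 hy
    have hc0O1 : c0 ∈ O1 := hc0.memO
    have hc0b : O1.valuation (c0 - b) < 1 :=
      fine_lt_one h12 ((rs_eq_iff O2 (h12 hc0O1) hbO).1 hc0y)
    have hc0B' : c0 ∈ B' := hW1'.hcl c0 b (hc0.mono hFzB') hb hc0b
    obtain ⟨a, ha, hac⟩ := hres1 c0 hc0B' hc0O1
    exact ⟨c0, hFh1 c0 a hc0 (hBF ha) hac, h12 hc0O1, hc0y⟩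
  have hX1 : adj Bt {w} ≤ resL O2 Fz := by
    refine adj_le (resL_mono O2 hBF) (Set.singleton_subset_iff.2 ?_)
    have h1 : y ∈ resL O2 Fz := ⟨z, hXF (subset_adj _ _ (Set.mem_singleton z)), hzO2, hzy⟩
    have h2 : y ^ p ^ m ∈ resL O2 Fz := pow_mem h1 _
    rw [hyw] at h2
    exact h2
  have hX2 : clN p Ot Bt' (adj Bt {w}) ≤ resL O2 Fz := clN_min hX1 hRcl
  have hXBt' : adj Bt {w} ≤ Bt' := adj_le hBBt (Set.singleton_subset_iff.2 hwB')
  have hStF : (St : Set (kap O2)) ⊆ resL O2 Fz := fun s hs =>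
    hX2 (desc p Ot hXBt' hWt'.pcl hWt'.hcl (hclw s hs) (hSt hs))
  have hE2R : resL O2 E2 ≤ resL O2 Fz := by
    rw [hE2t]
    exact adj_le hX1 hStF
  -- the maximal field with residue field in that of `Fz`
  obtain ⟨N, hE2N, hNB', hNR, hmax⟩ := exists_max_field hE2B' hE2R
  have hNp : PCl p N := max_pcl p hNB' hW'.pcl hRp hNR hmax
  have hNh : HCl O2 N := max_hcl p hNB' hW2'.hcl hNR hmax
  have hXN : adj B {z} ≤ N :=
    adj_le (hBE2.trans hE2N) (Set.singleton_subset_iff.2 (hE2N hzE2))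
  have hFcl : ClIn p O2 N Fz := by
    refine ⟨fun y _ hy => hFp y hy, ?_⟩
    intro c hcN hc
    have h1 : rs O2 c ∈ resL O2 Fz := hNR ⟨c, hcN, hc.memO, rfl⟩
    obtain ⟨a, ha, haO, hac⟩ := h1
    exact hFh2 c a hc ha ((rs_eq_iff O2 hc.memO haO).1 hac.symm)
  have hE2F : E2 ≤ Fz := by
    intro s hs
    have h1 : s ∈ cl p O2 (adj B {z}) := HC_le_cl _ (hHC hs)
    exact clN_min hXF hFcl (desc p O2 hXN hNp hNh h1 (hE2N hs))
  refine ⟨z, hzB', fun hzB => hztr (isAlgebraic_of_mem hzB), fun s hs => ?_⟩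
  have h1 : s ∈ E := subset_adj (adj B {z0}) (S : Set Ω) hs
  exact hE2F (le_adj E {c} h1)

end Pool.Agent.H92.Tilt
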