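import Pool.Agent.H92.Tilt.E1a
import Pool.Agent.H92.Tilt.E1b
import Pool.Agent.H92.Tilt.Amb

/-!
Module E2: reduction to finite rank.

`coeff_field`: `B` perfect and h-closed has a subfield `k0 ≤ B` contained in `O` such that every
element of `B ∩ O` is congruent to an element of `k0`, and `k0` is perfect (Zorn: a maximal subfield
contained in `B ∩ O`; it is perfect; an element of `B ∩ O` with residue transcendental over `k0` can be
adjoined; a residue algebraic over `k0` is separable and lifts to `B`, h-closed).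
`finite_overrings`: if `Ω0` is algebraic over `k0(X)`, `X` finite, `k0 ≤ O`, then `O` has finitely many
overrings in `Ω0`: for a chain `O_0 < O_1 < .. < O_n` of overrings choose `x_i ∈ O_i \ O_{i-1}`; they are
algebraically independent over `k0` (values of different archimedean size: monomials have distinct
values, coefficients in `k0` are units), so `n ≤ |X|`; overrings are totally ordered.
E2: choose `z0 ∈ B'` from `Tr1` and a finite `S0 ⊆ B` such that every `s ∈ S` is algebraic over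
`k0(S0, z0)`. `B0` := relative algebraic closure of `k0(S0)` in `K`, `B0'` := that of `k0(S0, z0)`
in `K`; `B0 ≤ B`, `B0' ≤ B'`, both are relatively algebraically closed in `K` and have the residue field of
`K`: `inherit` gives `W`. Work in `Ω0 = acl B0'` (module AMB), `finite_overrings`, then E1a or E1b give
`z ∈ B0'`, `z ∉ B0` with `S ≤ clN B0' (B0(z)) ≤ clN B' (B(z))`. `z ∉ B`: otherwise `z0` is algebraic over
`k0(S0, z) ≤ B`.
-/

set_option autoImplicit false

namespace Pool.Agent.H92.Tilt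

open Polynomial

variable {Ω : Type*} [Field Ω]

theorem e2_map_eq {O C : ValuationSubring Ω} (h : O ≤ C) {a b : Ω}
    (hab : O.valuation a = O.valuation b) : C.valuation a = C.valuation b := by
  rw [← ValuationSubring.mapOfLE_valuation_apply O C h, hab,
    ValuationSubring.mapOfLE_valuation_apply O C h]

theorem e2_unit {O : ValuationSubring Ω} {k0 : Subfield Ω} (hk : ∀ x ∈ k0, x ∈ O) {x : Ω}
    (hx : x ∈ k0) (h0 : x ≠ 0) : O.valuation x = 1 := by
  apply le_antisymm ((O.valuation_le_one_iff x).2 (hk x hx))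
  have h1 : O.valuation x⁻¹ ≤ 1 := (O.valuation_le_one_iff _).2 (hk _ (k0.inv_mem hx))
  have h2 : O.valuation x ≠ 0 := (Valuation.ne_zero_iff _).2 h0
  rw [map_inv₀] at h1
  rwa [inv_le_one₀ (zero_lt_iff.2 h2)] at h1

/-- Distinct monomials have distinct values. -/
theorem e2_mono {O : ValuationSubring Ω} {n : ℕ} (c : Fin (n + 1) → {S // O ≤ S})
    (hc : StrictMono c) (y : Fin n → Ω) (hy1 : ∀ i, y i ∈ (c i.succ).1)
    (hy2 : ∀ i, y i ∉ (c i.castSucc).1) (m m' : Fin n → ℕ)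
    (h : O.valuation (∏ i, y i ^ m i) = O.valuation (∏ i, y i ^ m' i)) : m = m' := by
  classical
  by_contra hne
  have hex : (Finset.univ.filter fun i => m i ≠ m' i).Nonempty := by
    obtain ⟨i, hi⟩ := Function.ne_iff.1 hne
    exact ⟨i, Finset.mem_filter.2 ⟨Finset.mem_univ _, hi⟩⟩
  obtain ⟨i, hi, hmax⟩ := Finset.exists_max_image _ id hex
  have hi' : m i ≠ m' i := (Finset.mem_filter.1 hi).2
  have hbig : ∀ j, i < j → m j = m' j := by
    intro j hj
    by_contra hjn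
    exact absurd (hmax j (Finset.mem_filter.2 ⟨Finset.mem_univ _, hjn⟩)) (not_le.2 hj)
  set C := (c i.castSucc).1 with hC
  have hOC : O ≤ C := (c i.castSucc).2
  have hsmall : ∀ j, j < i → C.valuation (y j) = 1 := by
    intro j hj
    have hle : (c j.succ) ≤ (c i.castSucc) := hc.monotone (by
      rw [Fin.le_iff_val_le_val]
      simp only [Fin.val_succ, Fin.val_castSucc]
      exact hj)
    have h1 : y j ∈ C := hle (hy1 j)
    have h2 : (y j)⁻¹ ∈ (c j.castSucc).1 := by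
      rcases (c j.castSucc).1.mem_or_inv_mem (y j) with h | h
      · exact absurd h (hy2 j)
      · exact h
    have hle2 : (c j.castSucc) ≤ (c i.castSucc) := hc.monotone (by
      rw [Fin.le_iff_val_le_val]
      simp only [Fin.val_castSucc]
      exact le_of_lt hj)
    have h3 : (y j)⁻¹ ∈ C := hle2 h2
    have h0 : y j ≠ 0 := by
      intro h0
      exact hy2 j (h0 ▸ zero_mem _)
    have h4 : C.valuation (y j) ≠ 0 := (Valuation.ne_zero_iff _).2 h0
    have h5 : C.valuation (y j) ≤ 1 := (C.valuation_le_one_iff _).2 h1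
    have h6 : C.valuation (y j)⁻¹ ≤ 1 := (C.valuation_le_one_iff _).2 h3
    rw [map_inv₀, inv_le_one₀ (zero_lt_iff.2 h4)] at h6
    exact le_antisymm h5 h6
  have hyi : 1 < C.valuation (y i) := by
    by_contra hn
    exact hy2 i ((C.valuation_le_one_iff _).1 (not_lt.1 hn))
  have hy0 : ∀ j, C.valuation (y j) ≠ 0 := by
    intro j
    refine (Valuation.ne_zero_iff _).2 ?_
    intro h0
    exact hy2 j (h0 ▸ zero_mem _)
  have hval := e2_map_eq hOC h
  rw [map_prod, map_prod, ← Finset.mul_prod_erase _ _ (Finset.mem_univ i),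
    ← Finset.mul_prod_erase _ _ (Finset.mem_univ i)] at hval
  have hrest : ∏ j ∈ Finset.univ.erase i, C.valuation (y j ^ m j) =
      ∏ j ∈ Finset.univ.erase i, C.valuation (y j ^ m' j) := by
    refine Finset.prod_congr rfl fun j hj => ?_
    have hji : j ≠ i := (Finset.mem_erase.1 hj).1
    rcases lt_or_gt_of_ne hji with h1 | h1
    · rw [map_pow, map_pow, hsmall j h1, one_pow, one_pow]
    · rw [hbig j h1]
  rw [hrest] at hval
  have hnz : ∏ j ∈ Finset.univ.erase i, C.valuation (y j ^ m' j) ≠ 0 := by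
    refine Finset.prod_ne_zero_iff.2 fun j _ => ?_
    rw [map_pow]
    exact pow_ne_zero _ (hy0 j)
  have h7 := mul_right_cancel₀ hnz hval
  rw [map_pow, map_pow] at h7
  exact hi' (pow_right_injective₀ (zero_lt_iff.2 (hy0 i)) hyi.ne' h7)

theorem e2_indep {O : ValuationSubring Ω} {k0 : Subfield Ω} (hk : ∀ x ∈ k0, x ∈ O) {n : ℕ}
    (c : Fin (n + 1) → {S // O ≤ S}) (hc : StrictMono c) (y : Fin n → Ω)
    (hy1 : ∀ i, y i ∈ (c i.succ).1) (hy2 : ∀ i, y i ∉ (c i.castSucc).1) :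
    AlgebraicIndependent k0 y := by
  classical
  rw [algebraicIndependent_iff]
  intro P hP
  by_contra hP0
  have hs : P.support.Nonempty := MvPolynomial.support_nonempty.2 hP0
  have hy0 : ∀ j, y j ≠ 0 := by
    intro j h0
    exact hy2 j (h0 ▸ zero_mem _)
  set f : (Fin n →₀ ℕ) → Ω := fun m => algebraMap k0 Ω (P.coeff m) * ∏ i, y i ^ m i with hf
  have hfv : ∀ m ∈ P.support, O.valuation (f m) = O.valuation (∏ i, y i ^ m i) := by
    intro m hm
    rw [hf]
    simp only [map_mul]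
    have h9 : algebraMap k0 Ω (P.coeff m) ≠ 0 := by
      intro h0
      exact (MvPolynomial.mem_support_iff.1 hm)
        ((map_eq_zero_iff _ (algebraMap k0 Ω).injective).1 h0)
    rw [show O.valuation (algebraMap k0 Ω (P.coeff m)) = 1 from e2_unit hk (P.coeff m).2 h9,
      one_mul]
  obtain ⟨m0, hm0, hmax⟩ := Finset.exists_max_image P.support (fun m => O.valuation (f m)) hs
  have hsum : ∑ m ∈ P.support, f m = 0 := by
    rw [← hP, MvPolynomial.aeval_def, MvPolynomial.eval₂_eq']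
  have hne0 : O.valuation (f m0) ≠ 0 := by
    rw [hfv m0 hm0]
    refine (Valuation.ne_zero_iff _).2 (Finset.prod_ne_zero_iff.2 fun j _ => pow_ne_zero _ (hy0 j))
  have hlt : O.valuation (∑ m ∈ P.support.erase m0, f m) < O.valuation (f m0) := by
    refine Valuation.map_sum_lt _ hne0 fun m hm => ?_
    obtain ⟨hm1, hm2⟩ := Finset.mem_erase.1 hm
    refine lt_of_le_of_ne (hmax m hm2) ?_
    intro heq
    rw [hfv m hm2, hfv m0 hm0] at heq
    exact hm1 (DFunLike.coe_injective (e2_mono c hc y hy1 hy2 _ _ heq))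
  rw [← Finset.add_sum_erase _ _ hm0] at hsum
  have h8 : f m0 = -∑ m ∈ P.support.erase m0, f m := by
    rw [← add_eq_zero_iff_eq_neg]
    exact hsum
  rw [h8, Valuation.map_neg] at hlt
  exact lt_irrefl _ hlt

theorem finite_overrings (O : ValuationSubring Ω) {k0 : Subfield Ω} (hk : ∀ x ∈ k0, x ∈ O) (X : Finset Ω)
    (hX : ∀ x : Ω, IsAlgebraic (adj k0 (X : Set Ω)) x) :
    {O1 : ValuationSubring Ω | O ≤ O1}.Finite := by
  classical
  have htr : Algebra.trdeg k0 Ω ≤ (X.card : Cardinal) := by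
    have hA : Algebra.IsAlgebraic (Algebra.adjoin k0 (X : Set Ω)) Ω := by
      constructor
      intro x
      have h1 := hX x
      rw [← adjoin_eq_adj] at h1
      have h2 : IsAlgebraic (IntermediateField.adjoin k0 (X : Set Ω)) x := h1
      exact IntermediateField.isAlgebraic_adjoin_iff.1 h2
    have h3 := @Algebra.IsAlgebraic.trdeg_le_cardinalMk k0 Ω _ _ _ (X : Set Ω) _ hA
    simpa using h3
  by_contra hinf
  have hinf' : (Set.univ : Set {S // O ≤ S}).Infinite := by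
    rw [Set.infinite_univ_iff]
    exact Set.infinite_coe_iff.2 hinf
  obtain ⟨t, -, ht⟩ := hinf'.exists_subset_card_eq (X.card + 2)
  set c : Fin (X.card + 1 + 1) → {S // O ≤ S} := fun i => t.orderEmbOfFin ht i
  have hc : StrictMono c := (t.orderEmbOfFin ht).strictMono
  have hy : ∀ i : Fin (X.card + 1), ∃ y, y ∈ (c i.succ).1 ∧ y ∉ (c i.castSucc).1 := by
    intro i
    have hlt : c i.castSucc < c i.succ := hc (Fin.castSucc_lt_succ)
    have hnl : ¬ (c i.succ).1 ≤ (c i.castSucc).1 := not_le_of_gt hlt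
    exact SetLike.not_le_iff_exists.1 hnl
  choose y hy1 hy2 using hy
  have hind := e2_indep hk c hc y hy1 hy2
  have h4 := hind.lift_cardinalMk_le_trdeg
  have h5 := h4.trans (Cardinal.lift_le.2 htr)
  simp only [Cardinal.mk_fin, Cardinal.lift_natCast, Nat.cast_le] at h5
  omega

section Coeff

variable (p : ℕ) [Fact p.Prime] [CharP Ω p] [IsAlgClosed Ω]

include p in
omit [IsAlgClosed Ω] in
theorem e2_bot (O : ValuationSubring Ω) : ∀ x ∈ (⊥ : Subfield Ω), x ∈ O := by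
  intro x hx
  have h1 : (⊥ : Subfield Ω) ≤ (frobenius Ω p).eqLocusField (RingHom.id Ω) := bot_le
  have h2 : x ^ p = x := h1 hx
  by_contra hn
  have h3 : 1 < O.valuation x := by
    by_contra h
    exact hn ((O.valuation_le_one_iff _).1 (not_lt.1 h))
  have h4 : O.valuation x ^ p = O.valuation x := by rw [← map_pow, h2]
  have h5 : O.valuation x ≠ 0 := ne_of_gt (lt_trans zero_lt_one h3)
  have h6 := pow_right_injective₀ (zero_lt_iff.2 h5) h3.ne' (h4.trans (pow_one _).symm)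
  exact (Fact.out : p.Prime).one_lt.ne' h6

theorem e2_perfect {L : Subfield Ω} (h : PCl p L) : PerfectField L := by
  have : CharP L p := (algebraMap L Ω).charP (algebraMap L Ω).injective p
  have : PerfectRing L p := by
    refine PerfectRing.ofSurjective L p fun x => ?_
    obtain ⟨y, hy⟩ := IsAlgClosed.exists_pow_nat_eq (x : Ω) (Fact.out : p.Prime).pos
    refine ⟨⟨y, h y (hy ▸ x.2)⟩, ?_⟩
    apply Subtype.ext
    exact hy
  exact PerfectRing.toPerfectField L p

theorem coeff_field (O : ValuationSubring Ω) {B : Subfield Ω} (h1 : PCl p B) (h2 : HCl O B) :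
    ∃ k0 : Subfield Ω, k0 ≤ B ∧ (∀ x ∈ k0, x ∈ O) ∧ PCl p k0 ∧ ResEq O k0 B := by
  classical
  set A : Set (Subfield Ω) := {k | k ≤ B ∧ ∀ x ∈ k, x ∈ O} with hA
  obtain ⟨k0, -, hk⟩ := zorn_le_nonempty₀ A (by
    intro c hcA hc y hy
    refine ⟨sSup c, ⟨sSup_le fun z hz => (hcA hz).1, ?_⟩, fun z hz => le_sSup hz⟩
    intro x hx
    obtain ⟨z, hz, hxz⟩ := (Subfield.mem_sSup_of_directedOn ⟨y, hy⟩ hc.directedOn).1 hx
    exact (hcA hz).2 x hxz) ⊥ ⟨bot_le, e2_bot p O⟩
  have hkA : k0 ≤ B ∧ ∀ x ∈ k0, x ∈ O := hk.1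
  have hmax : ∀ k : Subfield Ω, k ≤ B → (∀ x ∈ k, x ∈ O) → k0 ≤ k → k ≤ k0 :=
    fun k hkB hkO hle => hk.2 ⟨hkB, hkO⟩ hle
  have hpc : PCl p k0 := by
    intro x hx
    have := hmax (k0.comap (frobenius Ω p)) (fun z hz => h1 z (hkA.1 hz)) (by
      intro z hz
      have hz' : z ^ p ∈ O := hkA.2 _ hz
      rw [← O.valuation_le_one_iff, map_pow] at hz'
      rw [← O.valuation_le_one_iff]
      exact (pow_le_one_iff_of_nonneg bot_le (Fact.out : p.Prime).ne_zero).1 hz')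
      (fun z hz => k0.pow_mem hz p)
    exact this hx
  refine ⟨k0, hkA.1, hkA.2, hpc, ?_⟩
  intro x hxB hxO
  by_contra hno
  push Not at hno
  -- no element of `k0` is congruent to `x`
  by_cases hcase : ∃ P : Polynomial k0, P ≠ 0 ∧ O.valuation (aeval x P) < 1
  · -- the residue is algebraic
    obtain ⟨P, hP0, hPv⟩ := hcase
    set φ : k0 →+* O := k0.subtype.codRestrict O.toSubring (fun z => hkA.2 _ z.2) with hφ
    let _ : Algebra k0 (IsLocalRing.ResidueField O) := ((IsLocalRing.residue O).comp φ).toAlgebra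
    set xb : IsLocalRing.ResidueField O := IsLocalRing.residue O ⟨x, hxO⟩ with hxb
    have hev : ∀ Q : Polynomial k0, ∃ hQ : aeval x Q ∈ O,
        IsLocalRing.residue O ⟨aeval x Q, hQ⟩ = aeval xb Q := by
      intro Q
      have h5 : ((Q.eval₂ φ ⟨x, hxO⟩ : O) : Ω) = aeval x Q := by
        have := Polynomial.hom_eval₂ Q φ (O.subtype) ⟨x, hxO⟩
        rw [aeval_def]
        exact this
      refine ⟨h5 ▸ SetLike.coe_mem _, ?_⟩
      have h6 : (⟨aeval x Q, h5 ▸ SetLike.coe_mem _⟩ : O) = Q.eval₂ φ ⟨x, hxO⟩ :=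
        Subtype.ext h5.symm
      rw [h6, Polynomial.hom_eval₂]
      rfl
    have hlt : ∀ Q : Polynomial k0, O.valuation (aeval x Q) < 1 ↔ aeval xb Q = 0 := by
      intro Q
      obtain ⟨hQ, hQe⟩ := hev Q
      rw [← hQe, IsLocalRing.residue_eq_zero_iff, ValuationSubring.valuation_lt_one_iff]
    have := e2_perfect p hpc
    have halg : IsAlgebraic k0 xb := ⟨P, hP0, (hlt P).1 hPv⟩
    set q := minpoly k0 xb with hq
    have hqm : q.Monic := minpoly.monic halg.isIntegral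
    have hqi : Irreducible q := minpoly.irreducible halg.isIntegral
    have hqs : q.Separable := PerfectField.separable_of_irreducible hqi
    have hq0 : aeval xb q = 0 := minpoly.aeval _ _
    have hq1 : aeval xb (derivative q) ≠ 0 := hqs.aeval_derivative_ne_zero hq0
    obtain ⟨c, hcB, hc0, hcx, hcs⟩ := HCl.hensel (O := O) h2 hkA.1
      (h := q.map (algebraMap k0 Ω)) (hqm.map _)
      (fun i => by rw [coeff_map]; exact (q.coeff i).2)
      (fun i => by rw [coeff_map]; exact hkA.2 _ (q.coeff i).2) hxB hxO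
      (by rw [eval_map_algebraMap]; exact (hlt q).2 hq0)
      (by
        rw [derivative_map, eval_map_algebraMap]
        obtain ⟨hQ, hQe⟩ := hev (derivative q)
        refine le_antisymm ((O.valuation_le_one_iff _).2 hQ) (not_lt.1 fun h => hq1 ((hlt _).1 h)))
    have hcO : c ∈ O := hcs.memO
    have hci : IsIntegral k0 c := ⟨q, hqm, by rw [← eval_map]; exact hc0⟩
    have hk1 : ∀ y ∈ adj k0 {c}, y ∈ O := by
      intro y hy
      rw [← mem_adjoin_iff] at hy
      have hy' : y ∈ (IntermediateField.adjoin k0 {c}).toSubalgebra := hy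
      rw [IntermediateField.adjoin_simple_toSubalgebra_of_isAlgebraic hci.isAlgebraic,
        Algebra.adjoin_singleton_eq_range_aeval] at hy'
      obtain ⟨r, hr⟩ := hy'
      rw [← hr]
      have : (aeval c r : Ω) = (r.map (algebraMap k0 Ω)).eval c := by
        rw [eval_map_algebraMap]
      change aeval c r ∈ O
      rw [this]
      exact eval_memO O (fun i => by rw [coeff_map]; exact hkA.2 _ (r.coeff i).2) hcO
    have hc1 := hmax (adj k0 {c}) (adj_le hkA.1 (Set.singleton_subset_iff.2 hcB)) hk1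
      (le_adj _ _) (subset_adj _ _ rfl)
    refine absurd ?_ (not_lt.2 (hno c hc1))
    rw [← Valuation.map_neg, neg_sub]
    exact hcx
  · -- the residue is transcendental
    push Not at hcase
    have hk1 : ∀ y ∈ adj k0 {x}, y ∈ O := by
      intro y hy
      rw [← mem_adjoin_iff] at hy
      obtain ⟨r, s, rfl⟩ := (IntermediateField.mem_adjoin_simple_iff k0 y).1 hy
      by_cases hs : s = 0
      · rw [hs, map_zero, div_zero]
        exact O.zero_mem
      · have hrO : O.valuation (aeval x r) ≤ 1 := by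
          rw [O.valuation_le_one_iff, ← eval_map_algebraMap]
          exact eval_memO O (fun i => by rw [coeff_map]; exact hkA.2 _ (r.coeff i).2) hxO
        rw [← O.valuation_le_one_iff, map_div₀]
        refine (div_le_iff₀ ?_).2 ?_
        · exact lt_of_lt_of_le zero_lt_one (hcase s hs)
        · rw [one_mul]
          exact hrO.trans (hcase s hs)
    have hx1 := hmax (adj k0 {x}) (adj_le hkA.1 (Set.singleton_subset_iff.2 hxB)) hk1
      (le_adj _ _) (subset_adj _ _ rfl)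
    have := hno x hx1
    rw [sub_self, map_zero] at this
    exact absurd this (not_le.2 zero_lt_one)

end Coeff

section Fin

theorem e2_fin_mem {k0 B : Subfield Ω} (T : Set Ω) {x : Ω} (hx : x ∈ adj B T) :
    ∃ S0 : Finset Ω, (S0 : Set Ω) ⊆ B ∧ x ∈ adj k0 ((S0 : Set Ω) ∪ T) := by
  classical
  have hmon : ∀ {S1 S2 : Finset Ω}, S1 ⊆ S2 →
      adj k0 ((S1 : Set Ω) ∪ T) ≤ adj k0 ((S2 : Set Ω) ∪ T) := fun h =>
    adj_mono le_rfl (Set.union_subset_union_left _ (by exact_mod_cast h))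
  let M : Subfield Ω :=
    { carrier := {x | ∃ S0 : Finset Ω, (S0 : Set Ω) ⊆ B ∧ x ∈ adj k0 ((S0 : Set Ω) ∪ T)}
      mul_mem' := by
        rintro a b ⟨S1, h1, h1'⟩ ⟨S2, h2, h2'⟩
        refine ⟨S1 ∪ S2, by rw [Finset.coe_union]; exact Set.union_subset h1 h2, ?_⟩
        exact mul_mem (hmon Finset.subset_union_left h1') (hmon Finset.subset_union_right h2')
      one_mem' := ⟨∅, by simp, one_mem _⟩
      add_mem' := by
        rintro a b ⟨S1, h1, h1'⟩ ⟨S2, h2, h2'⟩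
        refine ⟨S1 ∪ S2, by rw [Finset.coe_union]; exact Set.union_subset h1 h2, ?_⟩
        exact add_mem (hmon Finset.subset_union_left h1') (hmon Finset.subset_union_right h2')
      zero_mem' := ⟨∅, by simp, zero_mem _⟩
      neg_mem' := by
        rintro a ⟨S1, h1, h1'⟩
        exact ⟨S1, h1, neg_mem h1'⟩
      inv_mem' := by
        rintro a ⟨S1, h1, h1'⟩
        exact ⟨S1, h1, inv_mem h1'⟩ }
  have hle : adj B T ≤ M := by
    refine adj_le ?_ ?_
    · intro y hy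
      exact ⟨{y}, by simpa using hy, subset_adj _ _ (Or.inl (by simp))⟩
    · intro y hy
      exact ⟨∅, by simp, subset_adj _ _ (Or.inr hy)⟩
  exact hle hx

theorem e2_fin_alg {k0 B : Subfield Ω} (T : Set Ω) {x : Ω}
    (hx : IsAlgebraic (adj B T) x) :
    ∃ S0 : Finset Ω, (S0 : Set Ω) ⊆ B ∧ IsAlgebraic (adj k0 ((S0 : Set Ω) ∪ T)) x := by
  classical
  obtain ⟨h, h0, hc, hx0⟩ := (isAlgebraic_iff _ _).1 hx
  choose S1 hS1 hS1' using fun i => e2_fin_mem (k0 := k0) T (hc i)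
  refine ⟨h.support.biUnion S1, ?_, (isAlgebraic_iff _ _).2 ⟨h, h0, ?_, hx0⟩⟩
  · intro y hy
    obtain ⟨i, -, hi⟩ := Finset.mem_biUnion.1 (Finset.mem_coe.1 hy)
    exact hS1 i hi
  · intro i
    by_cases hi : i ∈ h.support
    · refine adj_mono le_rfl (Set.union_subset_union_left _ ?_) (hS1' i)
      intro y hy
      exact Finset.mem_coe.2 (Finset.mem_biUnion.2 ⟨i, hi, hy⟩)
    · rw [notMem_support_iff.1 hi]
      exact zero_mem _

theorem e2_fin_alg_finset {k0 B : Subfield Ω} (T : Set Ω) (S : Finset Ω)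
    (hS : ∀ x ∈ S, IsAlgebraic (adj B T) x) :
    ∃ S0 : Finset Ω, (S0 : Set Ω) ⊆ B ∧
      ∀ x ∈ S, IsAlgebraic (adj k0 ((S0 : Set Ω) ∪ T)) x := by
  classical
  choose! S1 hS1 hS1' using fun x (hx : x ∈ S) => e2_fin_alg (k0 := k0) T (hS x hx)
  refine ⟨S.biUnion S1, ?_, ?_⟩
  · intro y hy
    obtain ⟨i, hi', hi⟩ := Finset.mem_biUnion.1 (Finset.mem_coe.1 hy)
    exact hS1 i hi' hi
  · intro x hx
    refine isAlgebraic_mono (adj_mono le_rfl (Set.union_subset_union_left _ ?_)) (hS1' x hx)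
    intro y hy
    exact Finset.mem_coe.2 (Finset.mem_biUnion.2 ⟨x, hx, hy⟩)

theorem e2_alg_adj_iff (B : Subfield Ω) (s : Set Ω) (x : Ω) :
    IsAlgebraic (adj B s) x ↔ IsAlgebraic (Algebra.adjoin B s) x := by
  rw [← adjoin_eq_adj]
  exact IntermediateField.isAlgebraic_adjoin_iff

/-- Exchange. -/
theorem e2_exchange {B : Subfield Ω} {z z0 : Ω} (hz : ¬ IsAlgebraic B z)
    (h : IsAlgebraic (adj B {z0}) z) : IsAlgebraic (adj B {z}) z0 := by
  have hcl : ∀ (s : Set Ω) (x : Ω), x ∈ (AlgebraicIndependent.matroid B Ω).closure s ↔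
      IsAlgebraic (adj B s) x := by
    intro s x
    rw [AlgebraicIndependent.matroid_closure_eq, e2_alg_adj_iff]
    rfl
  have h1 : z ∈ (AlgebraicIndependent.matroid B Ω).closure (insert z0 ∅) \
      (AlgebraicIndependent.matroid B Ω).closure ∅ := by
    refine ⟨(hcl _ _).2 (by rw [insert_empty_eq]; exact h), fun hn => hz ?_⟩
    have h2 := (hcl _ _).1 hn
    rwa [adj_eq_self (Set.empty_subset _)] at h2
  have h3 := Matroid.closure_exchange h1
  have h4 := (hcl _ _).1 h3.1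
  rwa [insert_empty_eq] at h4

end Fin


section E2

variable (p : ℕ) [Fact p.Prime] [CharP Ω p] [IsAlgClosed Ω] (O : ValuationSubring Ω)

theorem E2 {K B B' : Subfield Ω} (hK : W p O K) (hB'K : B' ≤ K) (hBB' : B ≤ B')
    (hB : RAC B K) (hB' : RAC B' K) (hres : ResEq O B K) (htr : Tr1 B B')
    (S : Finset Ω) (hS : (S : Set Ω) ⊆ B') :
    ∃ z ∈ B', z ∉ B ∧ ∀ s ∈ S, s ∈ clN p O B' (adj B {z}) := by
  classical
  have hBK : B ≤ K := hBB'.trans hB'K
  have hWB : W p O B := inherit p O hK hBK hB hres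
  obtain ⟨k0, hk0B, hk0O, hk0p, hk0r⟩ := coeff_field p O hWB.pcl hWB.hcl
  obtain ⟨z0, hz0B', hz0t, hz0a⟩ := htr
  obtain ⟨S0, hS0B, hS0⟩ := e2_fin_alg_finset (k0 := k0) {z0} S (fun x hx => hz0a x (hS hx))
  have hadjB : adj k0 (S0 : Set Ω) ≤ B := adj_le hk0B hS0B
  have hadjB' : adj k0 ((S0 : Set Ω) ∪ {z0}) ≤ B' :=
    adj_le (hk0B.trans hBB') (Set.union_subset (fun x hx => hBB' (hS0B hx))
      (Set.singleton_subset_iff.2 hz0B'))
  have hadj : adj k0 (S0 : Set Ω) ≤ adj k0 ((S0 : Set Ω) ∪ {z0}) :=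
    adj_mono le_rfl Set.subset_union_left
  obtain ⟨B0, hB0⟩ : ∃ B0 : Subfield Ω, B0 = acl (adj k0 (S0 : Set Ω)) ⊓ K := ⟨_, rfl⟩
  obtain ⟨B1, hB1⟩ : ∃ B1 : Subfield Ω, B1 = acl (adj k0 ((S0 : Set Ω) ∪ {z0})) ⊓ K := ⟨_, rfl⟩
  have mB0 : ∀ x, x ∈ B0 ↔ IsAlgebraic (adj k0 (S0 : Set Ω)) x ∧ x ∈ K := by
    intro x
    rw [hB0, ← mem_acl]
    exact Iff.rfl
  have mB1 : ∀ x, x ∈ B1 ↔ IsAlgebraic (adj k0 ((S0 : Set Ω) ∪ {z0})) x ∧ x ∈ K := by
    intro x
    rw [hB1, ← mem_acl]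
    exact Iff.rfl
  have hB0B : B0 ≤ B := fun x hx => hB x ((mB0 x).1 hx).2 (isAlgebraic_mono hadjB ((mB0 x).1 hx).1)
  have hB1B' : B1 ≤ B' :=
    fun x hx => hB' x ((mB1 x).1 hx).2 (isAlgebraic_mono hadjB' ((mB1 x).1 hx).1)
  have hB0K : B0 ≤ K := fun x hx => ((mB0 x).1 hx).2
  have hB1K : B1 ≤ K := fun x hx => ((mB1 x).1 hx).2
  have hB01 : B0 ≤ B1 := fun x hx =>
    (mB1 x).2 ⟨isAlgebraic_mono hadj ((mB0 x).1 hx).1, ((mB0 x).1 hx).2⟩
  have hrac0 : RAC B0 K := fun x hxK hx =>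
    (mB0 x).2 ⟨isAlgebraic_trans (fun y hy => ((mB0 y).1 hy).1) hx, hxK⟩
  have hrac1 : RAC B1 K := fun x hxK hx =>
    (mB1 x).2 ⟨isAlgebraic_trans (fun y hy => ((mB1 y).1 hy).1) hx, hxK⟩
  have hk0B0 : k0 ≤ B0 := fun x hx =>
    (mB0 x).2 ⟨isAlgebraic_of_mem (le_adj _ _ hx), hBK (hk0B hx)⟩
  have hres0 : ResEq O B0 K := by
    intro x hxK hxO
    obtain ⟨b, hbB, hb⟩ := hres x hxK hxO
    have hbO : b ∈ O := by
      have h1 : b = x - (x - b) := by ring
      rw [h1]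
      exact O.sub_mem hxO ((O.valuation_le_one_iff _).1 hb.le)
    obtain ⟨a, ha, hab⟩ := hk0r b hbB hbO
    refine ⟨a, hk0B0 ha, ?_⟩
    have h2 : x - a = (x - b) + (b - a) := by ring
    rw [h2]
    exact Valuation.map_add_lt _ hb hab
  have hres1 : ResEq O B1 K := fun x hxK hxO => by
    obtain ⟨b, hb, hb'⟩ := hres0 x hxK hxO
    exact ⟨b, hB01 hb, hb'⟩
  have hres01 : ResEq O B0 B1 := fun x hx hxO => hres0 x (hB1K hx) hxO
  have hW0 : W p O B0 := inherit p O hK hB0K hrac0 hres0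
  have hW1 : W p O B1 := inherit p O hK hB1K hrac1 hres1
  have hSB1 : ∀ s ∈ S, s ∈ B1 := fun s hs => (mB1 s).2 ⟨hS0 s hs, hB'K (hS hs)⟩
  have hz0B1 : z0 ∈ B1 :=
    (mB1 z0).2 ⟨isAlgebraic_of_mem (subset_adj _ _ (Or.inr rfl)), hB'K hz0B'⟩
  have hS0B0 : (S0 : Set Ω) ⊆ B0 := fun x hx =>
    (mB0 x).2 ⟨isAlgebraic_of_mem (subset_adj _ _ hx), hBK (hS0B hx)⟩
  have htr01 : Tr1 B0 B1 := by
    refine ⟨z0, hz0B1, fun h => hz0t (isAlgebraic_mono hB0B h), fun x hx => ?_⟩
    refine isAlgebraic_mono ?_ ((mB1 x).1 hx).1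
    refine adj_le (hk0B0.trans (le_adj _ _)) (Set.union_subset ?_ (subset_adj _ _))
    exact fun y hy => le_adj _ _ (hS0B0 hy)
  -- the ambient field
  obtain ⟨Ω0, hΩ0⟩ : ∃ Ω0 : Subfield Ω, Ω0 = acl B1 := ⟨_, rfl⟩
  have mΩ : ∀ x, x ∈ Ω0 ↔ IsAlgebraic B1 x := fun x => by rw [hΩ0, mem_acl]
  have h0 : ∀ x, IsAlgebraic Ω0 x → x ∈ Ω0 := fun x hx =>
    (mΩ x).2 (isAlgebraic_trans (fun y hy => (mΩ y).1 hy) hx)
  have hB1Ω : B1 ≤ Ω0 := fun x hx => (mΩ x).2 (isAlgebraic_of_mem hx)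
  have hB0Ω : B0 ≤ Ω0 := hB01.trans hB1Ω
  have hkΩ : k0 ≤ Ω0 := hk0B0.trans hB0Ω
  have i1 : IsAlgClosed Ω0 := isAlgClosed_sub Ω0 h0
  have i2 : CharP Ω0 p := (algebraMap Ω0 Ω).charP (algebraMap Ω0 Ω).injective p
  have hfin : {O1 : ValuationSubring Ω0 | rsO Ω0 O ≤ O1}.Finite := by
    refine finite_overrings (rsO Ω0 O) (k0 := rst Ω0 k0) (fun x hx => hk0O _ hx)
      (Finset.subtype (fun x => x ∈ Ω0) (insert z0 S0)) ?_
    intro x
    rw [← adj_rst Ω0 hkΩ]
    have him : ((↑) '' ((Finset.subtype (fun x => x ∈ Ω0) (insert z0 S0) : Finset Ω0) : Set Ω0) :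
        Set Ω) = (S0 : Set Ω) ∪ {z0} := by
      ext y
      constructor
      · rintro ⟨w, hw, rfl⟩
        have h1 := Finset.mem_subtype.1 (Finset.mem_coe.1 hw)
        rcases Finset.mem_insert.1 h1 with h | h
        · exact Or.inr h
        · exact Or.inl h
      · intro hy
        have hyΩ : y ∈ Ω0 := by
          rcases hy with h | h
          · exact hB0Ω (hS0B0 h)
          · rw [Set.mem_singleton_iff.1 h]
            exact hB1Ω hz0B1
        refine ⟨⟨y, hyΩ⟩, Finset.mem_coe.2 (Finset.mem_subtype.2 ?_), rfl⟩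
        rcases hy with h | h
        · exact Finset.mem_insert_of_mem h
        · exact Finset.mem_insert.2 (Or.inl h)
    rw [him]
    have hle : adj k0 ((S0 : Set Ω) ∪ {z0}) ≤ Ω0 :=
      adj_le hkΩ (Set.union_subset (fun y hy => hB0Ω (hS0B0 hy))
        (Set.singleton_subset_iff.2 (hB1Ω hz0B1)))
    rw [isAlgebraic_rst Ω0 hle]
    exact isAlgebraic_trans (fun y hy => ((mB1 y).1 hy).1) ((mΩ x).1 x.2)
  have hle1 : rst Ω0 B0 ≤ rst Ω0 B1 := fun x hx => hB01 hx
  have halg1 : Algebra.IsAlgebraic (rst Ω0 B1) Ω0 :=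
    algebra_isAlgebraic_rst Ω0 hB1Ω (fun x hx => (mΩ x).1 hx)
  have hW0' : W p (rsO Ω0 O) (rst Ω0 B0) := (W_rst Ω0 h0 O hB0Ω).2 hW0
  have hW1' : W p (rsO Ω0 O) (rst Ω0 B1) := (W_rst Ω0 h0 O hB1Ω).2 hW1
  have hr' : ResEq (rsO Ω0 O) (rst Ω0 B0) (rst Ω0 B1) := (resEq_rst Ω0 O hB0Ω hB1Ω).2 hres01
  have htr' : Tr1 (rst Ω0 B0) (rst Ω0 B1) := (tr1_rst Ω0 hB0Ω hB1Ω).2 htr01
  have hS1 : ((Finset.subtype (fun x => x ∈ Ω0) S : Finset Ω0) : Set Ω0) ⊆ rst Ω0 B1 := by
    intro x hx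
    exact hSB1 _ (Finset.mem_subtype.1 (Finset.mem_coe.1 hx))
  have hE : ∃ z ∈ rst Ω0 B1, z ∉ rst Ω0 B0 ∧
      ∀ s ∈ Finset.subtype (fun x => x ∈ Ω0) S,
        s ∈ clN p (rsO Ω0 O) (rst Ω0 B1) (adj (rst Ω0 B0) {z}) := by
    by_cases hval : ValEq (rsO Ω0 O) (rst Ω0 B0) (rst Ω0 B1)
    · exact E1b p (rsO Ω0 O) hfin hle1 hW0' hW1' hr' hval htr' halg1 _ hS1
    · exact E1a p (rsO Ω0 O) hle1 hW0' hW1' hr' hval htr' halg1 _ hS1
  obtain ⟨z, hz1, hz2, hz3⟩ := hE
  have hzB1 : (z : Ω) ∈ B1 := hz1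
  have hzB0 : (z : Ω) ∉ B0 := hz2
  have hzt : ¬ IsAlgebraic B0 (z : Ω) := fun h => hzB0 (hrac0 _ (hB1K hzB1) h)
  obtain ⟨z0', hz0'1, hz0'2, hz0'3⟩ := htr01
  have hz0z : IsAlgebraic (adj B0 {(z : Ω)}) z0 := by
    refine e2_exchange hzt ?_
    refine isAlgebraic_mono ?_ ((mB1 (z : Ω)).1 hzB1).1
    refine adj_le (hk0B0.trans (le_adj _ _)) (Set.union_subset ?_ (subset_adj _ _))
    exact fun y hy => le_adj _ _ (hS0B0 hy)
  refine ⟨z, hB1B' hzB1, ?_, ?_⟩
  · intro hzB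
    exact hz0t (isAlgebraic_mono (adj_le hB0B (Set.singleton_subset_iff.2 hzB)) hz0z)
  · intro s hs
    have hsΩ : s ∈ Ω0 := hB1Ω (hSB1 s hs)
    have h1 := hz3 ⟨s, hsΩ⟩ (Finset.mem_subtype.2 hs)
    have h2 : adj (rst Ω0 B0) {z} = rst Ω0 (adj B0 {(z : Ω)}) := by
      rw [← adj_rst Ω0 hB0Ω, Set.image_singleton]
    rw [h2, clN_rst Ω0 h0 O (adj_le hB01 (Set.singleton_subset_iff.2 hzB1)) hB1Ω] at h1
    exact clN_mono (adj_mono hB0B le_rfl) (clN_mono_left hB1B' h1)

end E2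

end Pool.Agent.H92.Tilt
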