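import Mathlib

/-!
Module ENUM, part 1 (helper53): propositional compactness for a computable family of conditions,
each of which involves three atoms (natural numbers).
-/

set_option autoImplicit false

namespace Pool.Agent.H92.Tilt.Enum

/-- A condition on a truth assignment: a tag, a flag and three atoms. -/
abbrev Cond := ℕ × Bool × ℕ × ℕ × ℕ

/-- The truth table of a condition. -/
def cnd (k : ℕ) (fl b1 b2 b3 : Bool) : Bool :=
  if k ≤ 1 then b1 == b2
  else if k = 2 then b1 == !b2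
  else if k = 3 then b1 == (b2 && b3)
  else if k = 4 then (!(fl || b1)) || (b1 == (!b2 || b3))
  else if k = 5 then (!(fl || b1)) || (b1 == b2)
  else b1

/-- The assignment `v` satisfies the condition `q`. -/
def sat (v : ℕ → Bool) (q : Cond) : Bool :=
  cnd q.1 q.2.1 (v q.2.2.1) (v q.2.2.2.1) (v q.2.2.2.2)

theorem primrec_cnd : Primrec fun x : ℕ × Bool × Bool × Bool × Bool =>
    cnd x.1 x.2.1 x.2.2.1 x.2.2.2.1 x.2.2.2.2 := by
  have hf : ∀ f : Bool × Bool × Bool × Bool → Bool, Primrec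
      fun x : ℕ × Bool × Bool × Bool × Bool => f x.2 := fun f =>
    (Primrec.dom_finite f).comp Primrec.snd
  unfold cnd
  refine Primrec.ite (PrimrecRel.comp Primrec.nat_le Primrec.fst (Primrec.const 1))
    (hf fun y => y.2.1 == y.2.2.1) ?_
  refine Primrec.ite (PrimrecRel.comp Primrec.eq Primrec.fst (Primrec.const 2))
    (hf fun y => y.2.1 == !y.2.2.1) ?_
  refine Primrec.ite (PrimrecRel.comp Primrec.eq Primrec.fst (Primrec.const 3))
    (hf fun y => y.2.1 == (y.2.2.1 && y.2.2.2)) ?_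
  refine Primrec.ite (PrimrecRel.comp Primrec.eq Primrec.fst (Primrec.const 4))
    (hf fun y => (!(y.1 || y.2.1)) || (y.2.1 == (!y.2.2.1 || y.2.2.2))) ?_
  refine Primrec.ite (PrimrecRel.comp Primrec.eq Primrec.fst (Primrec.const 5))
    (hf fun y => (!(y.1 || y.2.1)) || (y.2.1 == y.2.2.1)) ?_
  exact hf fun y => y.2.1

/-- the `a`-th bit of `w` -/
def bit (w a : ℕ) : Bool := decide (w / 2 ^ a % 2 = 1)

theorem bit_eq (w a : ℕ) : bit w a = w.testBit a := by
  rw [bit, Nat.testBit_eq_decide_div_mod_eq]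

theorem primrec_pow2 : Primrec fun n : ℕ => 2 ^ n := by
  have h : Primrec fun n : ℕ => (Nat.rec (motive := fun _ => ℕ) 1 (fun _ r => 2 * r) n : ℕ) :=
    Primrec.nat_rec' Primrec.id (Primrec.const 1)
      (Primrec.nat_mul.comp (Primrec.const 2) (Primrec.snd.comp Primrec.snd)).to₂
  refine h.of_eq fun n => ?_
  induction n with
  | zero => rfl
  | succ n ih => rw [pow_succ, ← ih]; exact Nat.mul_comm _ _

theorem primrec_bit : Primrec₂ bit := by
  unfold bit
  refine PrimrecPred.decide ?_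
  exact PrimrecRel.comp Primrec.eq
    (Primrec.nat_mod.comp (Primrec.nat_div.comp Primrec.fst (primrec_pow2.comp Primrec.snd))
      (Primrec.const 2)) (Primrec.const 1)

/-- `q` is violated by the assignment given by the bits of `w` below `n`. -/
def viol (q : Cond) (x : ℕ × ℕ) : Prop :=
  q.2.2.1 < x.1 ∧ q.2.2.2.1 < x.1 ∧ q.2.2.2.2 < x.1 ∧ sat (bit x.2) q = false

instance (q : Cond) (x : ℕ × ℕ) : Decidable (viol q x) := by unfold viol; infer_instance

theorem primrec_viol : PrimrecRel viol := by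
  unfold viol
  have hn : Primrec fun y : Cond × ℕ × ℕ => y.2.1 := Primrec.fst.comp Primrec.snd
  have hw : Primrec fun y : Cond × ℕ × ℕ => y.2.2 := Primrec.snd.comp Primrec.snd
  have h1 : Primrec fun y : Cond × ℕ × ℕ => y.1.2.2.1 :=
    Primrec.fst.comp (Primrec.snd.comp (Primrec.snd.comp Primrec.fst))
  have h2 : Primrec fun y : Cond × ℕ × ℕ => y.1.2.2.2.1 :=
    Primrec.fst.comp (Primrec.snd.comp (Primrec.snd.comp (Primrec.snd.comp Primrec.fst)))
  have h3 : Primrec fun y : Cond × ℕ × ℕ => y.1.2.2.2.2 :=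
    Primrec.snd.comp (Primrec.snd.comp (Primrec.snd.comp (Primrec.snd.comp Primrec.fst)))
  refine PrimrecPred.and (PrimrecRel.comp Primrec.nat_lt h1 hn)
    (PrimrecPred.and (PrimrecRel.comp Primrec.nat_lt h2 hn)
    (PrimrecPred.and (PrimrecRel.comp Primrec.nat_lt h3 hn) ?_))
  refine PrimrecRel.comp Primrec.eq ?_ (Primrec.const false)
  exact primrec_cnd.comp ((Primrec.fst.comp Primrec.fst).pair
    ((Primrec.fst.comp (Primrec.snd.comp Primrec.fst)).pair
      ((primrec_bit.comp hw h1).pair ((primrec_bit.comp hw h2).pair (primrec_bit.comp hw h3)))))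

/-- every assignment of the atoms below `n` violates one of the conditions in `L` -/
def Bad (L : List Cond) (n : ℕ) : Prop :=
  ∀ w < 2 ^ n, ∃ q ∈ L, viol q (n, w)

instance (L : List Cond) (n : ℕ) : Decidable (Bad L n) := by unfold Bad; infer_instance

theorem primrec_bad : Primrec₂ fun (L : List Cond) (n : ℕ) => decide (Bad L n) := by
  refine PrimrecPred.decide ?_
  have h1 : PrimrecRel fun (L : List Cond) (x : ℕ × ℕ) => ∃ q ∈ L, viol q x :=
    primrec_viol.exists_mem_list
  have h2 : PrimrecRel fun (w : ℕ) (y : List Cond × ℕ) => ∃ q ∈ y.1, viol q (y.2, w) :=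
    h1.comp (Primrec.fst.comp Primrec.snd) ((Primrec.snd.comp Primrec.snd).pair Primrec.fst)
  have h3 : PrimrecRel fun (W : List ℕ) (y : List Cond × ℕ) =>
      ∀ w ∈ W, ∃ q ∈ y.1, viol q (y.2, w) := h2.forall_mem_list
  have h4 : PrimrecPred fun y : List Cond × ℕ =>
      ∀ w ∈ List.range (2 ^ y.2), ∃ q ∈ y.1, viol q (y.2, w) :=
    h3.comp (Primrec.list_range.comp (primrec_pow2.comp Primrec.snd)) Primrec.id
  exact h4.of_eq fun y => by simp [Bad]

theorem exists_bits (v : ℕ → Bool) (n : ℕ) : ∃ w < 2 ^ n, ∀ a < n, bit w a = v a := by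
  refine ⟨Nat.ofBits (fun i : Fin n => v i), Nat.ofBits_lt_two_pow _, fun a ha => ?_⟩
  rw [bit_eq, Nat.testBit_ofBits_lt _ _ ha]

theorem bad_sound {L : List Cond} {n : ℕ} (h : Bad L n) (v : ℕ → Bool) :
    ∃ q ∈ L, sat v q = false := by
  obtain ⟨w, hw, hv⟩ := exists_bits v n
  obtain ⟨q, hq, h1, h2, h3, h4⟩ := h w hw
  refine ⟨q, hq, ?_⟩
  simp only [sat] at h4 ⊢
  rw [← hv _ h1, ← hv _ h2, ← hv _ h3]
  exact h4

theorem compact (q : ℕ → Cond) (h : ∀ n, ¬ Bad ((List.range n).map q) n) :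
    ∃ v : ℕ → Bool, ∀ i, sat v (q i) = true := by
  have h' : ∀ n, ∃ w : ℕ, ∀ i < n, ¬ viol (q i) (n, w) := by
    intro n
    have h1 := h n
    simp only [Bad, not_forall] at h1
    obtain ⟨w, hw, h2⟩ := h1
    refine ⟨w, fun i hi hv => h2 ⟨q i, ?_, hv⟩⟩
    exact List.mem_map.2 ⟨i, List.mem_range.2 hi, rfl⟩
  choose w hw using h'
  classical
  let U : Filter ℕ := (Filter.hyperfilter ℕ : Filter ℕ)
  refine ⟨fun a => decide (∀ᶠ n in U, bit (w n) a = true), fun i => ?_⟩
  have hv : ∀ a, ∀ᶠ n in U, bit (w n) a = decide (∀ᶠ n in U, bit (w n) a = true) := by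
    intro a
    by_cases ha : ∀ᶠ n in U, bit (w n) a = true
    · simp [ha]
    · have hb : ∀ᶠ n in U, ¬ bit (w n) a = true := (Ultrafilter.eventually_not).2 ha
      simpa [ha] using hb
  have hlt : ∀ a, ∀ᶠ n in U, a < n := by
    intro a
    have : Filter.atTop ≤ (Filter.cofinite : Filter ℕ) := by rw [Nat.cofinite_eq_atTop]
    have h1 : ∀ᶠ n in (Filter.cofinite : Filter ℕ), a < n := by
      rw [Nat.cofinite_eq_atTop]
      exact Filter.eventually_gt_atTop a
    exact Filter.hyperfilter_le_cofinite h1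
  have key := ((((((hlt (q i).2.2.1).and (hlt (q i).2.2.2.1)).and (hlt (q i).2.2.2.2)).and
    (hlt i)).and (hv (q i).2.2.1)).and (hv (q i).2.2.2.1)).and (hv (q i).2.2.2.2)
  obtain ⟨n, ⟨⟨⟨⟨⟨⟨h1, h2⟩, h3⟩, h4⟩, h5⟩, h6⟩, h7⟩⟩ := key.exists
  by_contra hc
  apply hw n i h4
  refine ⟨h1, h2, h3, ?_⟩
  simp only [sat] at hc ⊢
  rw [h5, h6, h7]
  exact Bool.not_eq_true _ ▸ hc

theorem computable_range_map {q : ℕ → ℕ → Cond} (hq : Computable₂ q) :
    Computable₂ fun c n => (List.range n).map (q c) := by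
  have h : Computable fun x : ℕ × ℕ => (Nat.rec (motive := fun _ => List Cond) []
      (fun y r => r ++ [q x.1 y]) x.2 : List Cond) :=
    Computable.nat_rec Computable.snd (Computable.const [])
      (Computable.list_concat.comp (Computable.snd.comp Computable.snd)
        (hq.comp (Computable.fst.comp Computable.fst) (Computable.fst.comp Computable.snd))).to₂
  refine h.of_eq fun x => ?_
  obtain ⟨c, n⟩ := x
  induction n with
  | zero => rfl
  | succ n ih =>
    change (_ : List Cond) ++ [q c n] = (List.range (n + 1)).map (q c)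
    rw [List.range_succ, List.map_append]
    exact congrArg (· ++ [q c n]) ih

theorem enum_cond (q : ℕ → ℕ → Cond) (hq : Computable₂ q) :
    ∃ step : ℕ → ℕ → Bool, Computable₂ step ∧
      ∀ c, (∃ n, step c n = true) ↔ ¬ ∃ v : ℕ → Bool, ∀ i, sat v (q c i) = true := by
  refine ⟨fun c n => decide (Bad ((List.range n).map (q c)) n), ?_, fun c => ?_⟩
  · exact primrec_bad.to_comp.comp (computable_range_map hq) Computable.snd
  · constructor
    · rintro ⟨n, hn⟩ ⟨v, hv⟩
      obtain ⟨r, hr, h1⟩ := bad_sound (of_decide_eq_true hn) v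
      obtain ⟨i, -, rfl⟩ := List.mem_map.1 hr
      rw [hv i] at h1
      exact Bool.noConfusion h1
    · intro h
      by_contra hc
      apply h
      apply compact
      intro n hn
      exact hc ⟨n, decide_eq_true hn⟩

end Pool.Agent.H92.Tilt.Enum
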