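import Pool.Agent.H92.Tilt.F1y

/-!
Module F1: extending Good embeddings.

F1 (closure): Zorn on Good extensions `(F, e1)` with `X ≤ F ≤ N` (or: transfinite union; unions of chains
of functions defined on subfields). One step for a simple root `c ∈ N` over `F`, via
`h`: `h^e` (coefficients `e (h_i)`) is monic over `K' ∩ O'`, `lam c ∈ K'` is an approximate root
(`h^e(lam c) ≡ lam (h(c)) ≡ 0`, because `e ≡ lam` on coefficients and `lam` is a homomorphism modulo `m'`), the
derivative is a unit there, so there is a root `c' ∈ K'`, `c' ≡ lam c` (`HCl.hensel`). Let `g` be the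
minimal polynomial of `c` over `F` (coefficients in `O`: its roots are), `h = g q`, `q(c)` a unit, so
`q^e(c')` is a unit and `g^e(c') = 0`: `c ↦ c'` defines an embedding of `F(c)`. Good by
B5 (`x G2(c) = G1(c)`). One step for `y ∈ N`, `y ^ p ∈ F`: `e (y) :=` the `p`-th root of `e (y^p)`; on
`F(y)` all `p`-th powers are in `F`; Good since `(e w - lam w)^p ≡ e (w^p) - lam (w^p)`.
F2a: `T_i ↦ lam (T_i)` defines `e1` on `A(T)`; a polynomial over `A` is `d` times a polynomial `P0` over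
`A ∩ O` with some coefficient `1`, `P0(T)` is a unit by `GaussInd`, and `P0^e(lam T) ≡ lam (P0(T))`.
F2bc: `z ∉ B` in `N`, `W(B)`, same residues. Put `D(a,j) = P_j(a) (z-a)^j` (Taylor expansion of `P` over `B`).
Case (b): `v(z - a0)` is not a value of `B` for some `a0 ∈ B`; the terms have distinct values (values of `B`
are divisible), one dominates. Case (c): otherwise `v(z - a)` has no minimum on `B` and, for
`a ∈ B` close enough to `z`, `v(P_j(a)(z-a)^j) < v(P(a))` for all `j ≥ 1`: for `α ∈ acl B`,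
`α = ∑ α_i c^i` (`cl_finset`, `sroot_gauss` over `B`, and over `N`-residues the powers of `c` stay
independent since `ResEq O B N`), `v(z-α) = max(v(z-α_0), v(α-α_0))`; so `v(z - a) < v(z-α)` for `a`
close, for each root `α` of `P`. In both cases the relations used are inequalities
`v(b (z-a)^j) < 1` with `b ∈ B`, which `hz'` transfers to `z'` (divisible values of `B`), and
`(z-a)/d ∈ O`, `(z'-e a)/e d ≡ lam ((z-a)/d)`.
-/

set_option autoImplicit false

namespace Pool.Agent.H92.Tilt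

open Polynomial

variable {Ω Ω' : Type*} [Field Ω] [Field Ω'] (p : ℕ) [Fact p.Prime] [CharP Ω p] [IsAlgClosed Ω]
  [CharP Ω' p] [IsAlgClosed Ω'] (O : ValuationSubring Ω) (O' : ValuationSubring Ω')

omit [Fact p.Prime] [CharP Ω p] [IsAlgClosed Ω] [CharP Ω' p] [IsAlgClosed Ω'] in
theorem Good.mono {K' : Subfield Ω'} {lam : Ω → Ω'} {F F' : Subfield Ω} {e : Ω → Ω'}
    {O : ValuationSubring Ω} {O' : ValuationSubring Ω'}
    (h : Good O O' K' lam F e) (hF : F' ≤ F) : Good O O' K' lam F' e :=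
  ⟨h.hom.mono hF, fun x hx => h.rng x (hF hx), fun x hx => h.res x (hF hx)⟩

theorem F1 {N : Subfield Ω} {K' : Subfield Ω'} {lam : Ω → Ω'} (hlam : AHom O N O' K' lam)
    (hp : PCl p K') (hh : HCl O' K') {X : Subfield Ω} (hX : X ≤ N) {e : Ω → Ω'}
    (he : Good O O' K' lam X e) :
    ∃ e1 : Ω → Ω', Good O O' K' lam (clN p O N X) e1 ∧ ∀ x ∈ X, e1 x = e x := by
  classical
  let S := {q : Subfield Ω × (Ω → Ω') // X ≤ q.1 ∧ q.1 ≤ N ∧ Good O O' K' lam q.1 q.2 ∧
    ∀ x ∈ X, q.2 x = e x}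
  let r : S → S → Prop := fun a b => a.1.1 ≤ b.1.1 ∧ ∀ x ∈ a.1.1, b.1.2 x = a.1.2 x
  have hbd : ∀ c : Set S, IsChain r c → ∃ ub, ∀ a ∈ c, r a ub := by
    intro c hc
    by_cases hne : c.Nonempty
    · obtain ⟨s0, hs0⟩ := hne
      let f : Ω → Ω' := fun x => if h : ∃ s ∈ c, x ∈ s.1.1 then h.choose.1.2 x else 0
      have hf : ∀ s ∈ c, ∀ x ∈ s.1.1, f x = s.1.2 x := by
        intro s hs x hx
        have hex : ∃ s ∈ c, x ∈ s.1.1 := ⟨s, hs, hx⟩
        have h1 : f x = hex.choose.1.2 x := dif_pos hex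
        rw [h1]
        obtain ⟨h2, h3⟩ := hex.choose_spec
        by_cases heq : hex.choose = s
        · rw [heq]
        · rcases hc h2 hs heq with h4 | h4
          · exact (h4.2 x h3).symm
          · exact h4.2 x hx
      have hdir : ∀ s ∈ c, ∀ s1 ∈ c, ∃ s2 ∈ c, s.1.1 ≤ s2.1.1 ∧ s1.1.1 ≤ s2.1.1 := by
        intro s hs s1 hs1
        by_cases heq : s = s1
        · exact ⟨s, hs, le_rfl, by rw [heq]⟩
        · rcases hc hs hs1 heq with h4 | h4
          · exact ⟨s1, hs1, h4.1, le_rfl⟩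
          · exact ⟨s, hs, le_rfl, h4.1⟩
      let U : Subfield Ω :=
        { carrier := {x | ∃ s ∈ c, x ∈ s.1.1}
          mul_mem' := by
            rintro a b ⟨s, hs, ha⟩ ⟨s1, hs1, hb⟩
            obtain ⟨s2, hs2, h1, h2⟩ := hdir s hs s1 hs1
            exact ⟨s2, hs2, s2.1.1.mul_mem (h1 ha) (h2 hb)⟩
          one_mem' := ⟨s0, hs0, s0.1.1.one_mem⟩
          add_mem' := by
            rintro a b ⟨s, hs, ha⟩ ⟨s1, hs1, hb⟩
            obtain ⟨s2, hs2, h1, h2⟩ := hdir s hs s1 hs1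
            exact ⟨s2, hs2, s2.1.1.add_mem (h1 ha) (h2 hb)⟩
          zero_mem' := ⟨s0, hs0, s0.1.1.zero_mem⟩
          neg_mem' := by
            rintro a ⟨s, hs, ha⟩
            exact ⟨s, hs, s.1.1.neg_mem ha⟩
          inv_mem' := by
            rintro a ⟨s, hs, ha⟩
            exact ⟨s, hs, s.1.1.inv_mem ha⟩ }
      have hU : ∀ x, x ∈ U ↔ ∃ s ∈ c, x ∈ s.1.1 := fun x => Iff.rfl
      refine ⟨⟨(U, f), ?_, ?_, ⟨⟨?_, ?_, ?_⟩, ?_, ?_⟩, ?_⟩, ?_⟩
      · intro x hx
        exact ⟨s0, hs0, s0.2.1 hx⟩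
      · rintro x ⟨s, hs, hx⟩
        exact s.2.2.1 hx
      · change f 1 = 1
        rw [hf s0 hs0 1 s0.1.1.one_mem]
        exact s0.2.2.2.1.hom.one
      · rintro x ⟨s, hs, hx⟩ y ⟨s1, hs1, hy⟩
        obtain ⟨s2, hs2, h1, h2⟩ := hdir s hs s1 hs1
        change f (x + y) = f x + f y
        rw [hf s2 hs2 x (h1 hx), hf s2 hs2 y (h2 hy),
          hf s2 hs2 _ (s2.1.1.add_mem (h1 hx) (h2 hy))]
        exact s2.2.2.2.1.hom.add x (h1 hx) y (h2 hy)
      · rintro x ⟨s, hs, hx⟩ y ⟨s1, hs1, hy⟩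
        obtain ⟨s2, hs2, h1, h2⟩ := hdir s hs s1 hs1
        change f (x * y) = f x * f y
        rw [hf s2 hs2 x (h1 hx), hf s2 hs2 y (h2 hy),
          hf s2 hs2 _ (s2.1.1.mul_mem (h1 hx) (h2 hy))]
        exact s2.2.2.2.1.hom.mul x (h1 hx) y (h2 hy)
      · rintro x ⟨s, hs, hx⟩
        change f x ∈ K'
        rw [hf s hs x hx]
        exact s.2.2.2.1.rng x hx
      · rintro x ⟨s, hs, hx⟩ hxO
        change O'.valuation (f x - lam x) < 1
        rw [hf s hs x hx]
        exact s.2.2.2.1.res x hx hxO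
      · intro x hx
        change f x = e x
        rw [hf s0 hs0 x (s0.2.1 hx)]
        exact s0.2.2.2.2 x hx
      · intro s hs
        exact ⟨fun x hx => ⟨s, hs, hx⟩, fun x hx => hf s hs x hx⟩
    · refine ⟨⟨(X, e), le_rfl, hX, he, fun x _ => rfl⟩, fun a ha => ?_⟩
      exact absurd ⟨a, ha⟩ hne
  obtain ⟨m, hm⟩ := exists_maximal_of_chains_bounded (r := r) hbd
    (fun {a b c} hab hbc => ⟨hab.1.trans hbc.1, fun x hx => by
      rw [hbc.2 x (hab.1 hx), hab.2 x hx]⟩)
  obtain ⟨⟨F, f⟩, h1, h2, h3, h4⟩ := m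
  have hcl : ClIn p O N F := by
    constructor
    · intro y hy hyp
      obtain ⟨e1, g1, g2⟩ := step_root hlam hp h2 h3
      have hFle : F ≤ prt p N F := fun x hx => mem_prt.2 ⟨h2 hx, F.pow_mem hx p⟩
      have h5 := hm ⟨(prt p N F, e1), h1.trans hFle, fun x hx => (mem_prt.1 hx).1, g1,
        fun x hx => (g2 x (h1 hx)).trans (h4 x hx)⟩ ⟨hFle, g2⟩
      exact h5.1 (mem_prt.2 ⟨hy, hyp⟩)
    · intro c hc hcr
      obtain ⟨e1, g1, g2⟩ := step_sroot hlam hh h2 h3 hc hcr
      have h5 := hm ⟨(adj F {c}, e1), h1.trans (le_adj F _),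
        adj_le h2 (Set.singleton_subset_iff.2 hc), g1,
        fun x hx => (g2 x (h1 hx)).trans (h4 x hx)⟩ ⟨le_adj F _, g2⟩
      exact h5.1 (subset_adj F {c} (Set.mem_singleton c))
  exact ⟨f, h3.mono (clN_min h1 hcl), h4⟩

/-- A nonzero polynomial over `A` is `d P0`, with `P0` over `A ∩ O` with a coefficient of
value one. -/
theorem mv_normalise {A : Subfield Ω} {ι : Type*} (P : MvPolynomial ι A) (hP : P ≠ 0) :
    ∃ (d : A) (P0 : MvPolynomial ι A), d ≠ 0 ∧ P = MvPolynomial.C d * P0 ∧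
      (∀ m, ((P0.coeff m : A) : Ω) ∈ O) ∧ ∃ m, O.valuation ((P0.coeff m : A) : Ω) = 1 := by
  have hne : P.support.Nonempty := by
    rw [Finset.nonempty_iff_ne_empty]
    intro h
    exact hP (MvPolynomial.support_eq_empty.1 h)
  obtain ⟨m0, hm0, hmax⟩ := Finset.exists_max_image P.support
    (fun m => O.valuation ((P.coeff m : A) : Ω)) hne
  have hd : P.coeff m0 ≠ 0 := MvPolynomial.mem_support_iff.1 hm0
  have hd' : ((P.coeff m0 : A) : Ω) ≠ 0 := fun h => hd (Subtype.ext h)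
  have hvd : O.valuation ((P.coeff m0 : A) : Ω) ≠ 0 := by
    rw [Ne, Valuation.zero_iff]
    exact hd'
  refine ⟨P.coeff m0, MvPolynomial.C (P.coeff m0)⁻¹ * P, hd, ?_, ?_, m0, ?_⟩
  · rw [← mul_assoc, ← MvPolynomial.C_mul, mul_inv_cancel₀ hd, MvPolynomial.C_1, one_mul]
  · intro m
    rw [MvPolynomial.coeff_C_mul]
    rw [← O.valuation_le_one_iff]
    have h1 : (((P.coeff m0)⁻¹ * P.coeff m : A) : Ω) =
        ((P.coeff m0 : A) : Ω)⁻¹ * ((P.coeff m : A) : Ω) := rfl
    rw [h1, map_mul, map_inv₀]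
    by_cases hm : m ∈ P.support
    · rw [← inv_mul_cancel₀ hvd]
      exact mul_le_mul_right (hmax m hm) _
    · rw [MvPolynomial.notMem_support_iff.1 hm]
      have h2 : ((0 : A) : Ω) = 0 := rfl
      rw [h2, map_zero, mul_zero]
      exact zero_le_one
  · rw [MvPolynomial.coeff_C_mul, inv_mul_cancel₀ hd]
    have h2 : ((1 : A) : Ω) = 1 := rfl
    rw [h2, map_one]

theorem F2a {N : Subfield Ω} {K' : Subfield Ω'} {lam : Ω → Ω'} (hlam : AHom O N O' K' lam)
    {A : Subfield Ω} (hA : A ≤ N) {e : Ω → Ω'} (he : Good O O' K' lam A e)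
    {n : ℕ} (T : Fin n → Ω) (hTN : ∀ i, T i ∈ N) (hT : GaussInd O A T) :
    ∃ e1 : Ω → Ω', Good O O' K' lam (adj A (Set.range T)) e1 ∧ ∀ x ∈ A, e1 x = e x := by
  obtain ⟨hTO, hTG⟩ := hT
  have hrT : ∀ i, Rl O O' N lam (T i) (lam (T i)) := fun i => Rl.of (hTN i) (hTO i)
  -- polynomials over `A`
  have hmapc : ∀ (P : MvPolynomial (Fin n) A) m,
      (MvPolynomial.map (algebraMap A Ω) P).coeff m = ((P.coeff m : A) : Ω) := by
    intro P m
    rw [MvPolynomial.coeff_map]
    rfl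
  have haev : ∀ P : MvPolynomial (Fin n) A, MvPolynomial.aeval T P =
      MvPolynomial.eval T (MvPolynomial.map (algebraMap A Ω) P) := by
    intro P
    rw [MvPolynomial.eval_map, MvPolynomial.aeval_def]
  have hG : ∀ (P : MvPolynomial (Fin n) A) m,
      O.valuation ((P.coeff m : A) : Ω) ≤ O.valuation (MvPolynomial.aeval T P) := by
    intro P m
    rw [haev, ← hmapc]
    exact hTG _ (fun m => by rw [hmapc]; exact (P.coeff m).2) m
  have hunit : ∀ P0 : MvPolynomial (Fin n) A, (∀ m, ((P0.coeff m : A) : Ω) ∈ O) →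
      (∃ m, O.valuation ((P0.coeff m : A) : Ω) = 1) →
      O.valuation (MvPolynomial.aeval T P0) = 1 := by
    rintro P0 h1 ⟨m, hm⟩
    refine le_antisymm ?_ ?_
    · rw [O.valuation_le_one_iff]
      exact (he.rl_mvEval hA hlam hrT P0 h1).memO
    · rw [← hm]
      exact hG P0 m
  have hker : ∀ P : MvPolynomial (Fin n) A, MvPolynomial.aeval T P = 0 ↔
      MvPolynomial.eval₂ he.hom.toHom (fun i => lam (T i)) P = 0 := by
    intro P
    by_cases hP : P = 0
    · rw [hP]
      simp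
    · obtain ⟨d, P0, hd, hP0, h1, h2⟩ := mv_normalise O P hP
      have h3 := hunit P0 h1 h2
      have h4 := ((he.rl_mvEval hA hlam hrT P0 h1).eq_iff hlam).2 h3
      constructor
      · intro h
        exfalso
        rw [hP0, map_mul, mul_eq_zero] at h
        rcases h with h | h
        · rw [MvPolynomial.aeval_C] at h
          exact hd ((map_eq_zero _).1 h)
        · rw [h, map_zero] at h3
          exact zero_ne_one h3
      · intro h
        exfalso
        rw [hP0, MvPolynomial.eval₂_mul, mul_eq_zero] at h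
        rcases h with h | h
        · rw [MvPolynomial.eval₂_C] at h
          exact hd ((map_eq_zero _).1 h)
        · rw [h, map_zero] at h4
          exact zero_ne_one h4
  obtain ⟨e1, h1, h2, h3, h4, h5⟩ := exists_ext_family he.hom T (fun i => lam (T i)) hker
  have hmem : ∀ P : MvPolynomial (Fin n) A,
      MvPolynomial.eval₂ he.hom.toHom (fun i => lam (T i)) P ∈ K' := by
    intro P
    rw [MvPolynomial.eval₂_eq]
    refine sum_mem fun m _ => K'.mul_mem (he.rng _ (P.coeff m).2) (prod_mem fun i _ => ?_)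
    exact K'.pow_mem (hlam.rng _ (hTN i) (hTO i)).1 _
  refine ⟨e1, ⟨h1, ?_, ?_⟩, h2⟩
  · intro x hx
    obtain ⟨P, Q, hQ, rfl⟩ := h4 x hx
    rw [h5 P Q hQ]
    exact K'.div_mem (hmem P) (hmem Q)
  · intro x hx hxO
    obtain ⟨P, Q, hQ, rfl⟩ := h4 x hx
    by_cases hP : P = 0
    · rw [hP, map_zero, zero_div, h1.map_zero]
      exact (Rl.zero hlam).res
    have hQne : Q ≠ 0 := fun h => hQ (by rw [h, map_zero])
    obtain ⟨d, P0, hd, hP0, p1, p2⟩ := mv_normalise O P hP
    obtain ⟨d', Q0, hd', hQ0, q1, q2⟩ := mv_normalise O Q hQne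
    have hu := hunit P0 p1 p2
    have hv := hunit Q0 q1 q2
    have hv0 : MvPolynomial.aeval T Q0 ≠ 0 := fun h => by
      rw [h, map_zero] at hv; exact zero_ne_one hv
    have hd1 : ((d : A) : Ω) ≠ 0 := fun h => hd (Subtype.ext h)
    have hd1' : ((d' : A) : Ω) ≠ 0 := fun h => hd' (Subtype.ext h)
    have hx2 : MvPolynomial.aeval T P / MvPolynomial.aeval T Q =
        ((d / d' : A) : Ω) * (MvPolynomial.aeval T P0 / MvPolynomial.aeval T Q0) := by
      rw [hP0, hQ0, map_mul, map_mul, MvPolynomial.aeval_C, MvPolynomial.aeval_C]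
      have h6 : ((d / d' : A) : Ω) = (d : Ω) / (d' : Ω) := rfl
      have h7 : ∀ a : A, algebraMap A Ω a = (a : Ω) := fun a => rfl
      rw [h6, h7, h7]
      field_simp
    have hbO : ((d / d' : A) : Ω) ∈ O := by
      rw [hx2, ← O.valuation_le_one_iff, map_mul, map_div₀ _ (MvPolynomial.aeval T P0), hu, hv,
        div_one, mul_one, O.valuation_le_one_iff] at hxO
      exact hxO
    have hrl := (he.rl hA (d / d' : A).2 hbO).mul hlam
      ((he.rl_mvEval hA hlam hrT P0 p1).div hlam (he.rl_mvEval hA hlam hrT Q0 q1) hv)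
    rw [← hx2] at hrl
    have hed' : e d' ≠ 0 := fun h => hd1' ((he.hom.eq_zero_iff d'.2).1 h)
    have hval : e1 (MvPolynomial.aeval T P / MvPolynomial.aeval T Q) =
        e ((d / d' : A) : Ω) * (MvPolynomial.eval₂ he.hom.toHom (fun i => lam (T i)) P0 /
          MvPolynomial.eval₂ he.hom.toHom (fun i => lam (T i)) Q0) := by
      rw [h5 P Q hQ, hP0, hQ0, MvPolynomial.eval₂_mul, MvPolynomial.eval₂_mul,
        MvPolynomial.eval₂_C, MvPolynomial.eval₂_C, HomOn.toHom_apply, HomOn.toHom_apply]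
      have h6 : ((d / d' : A) : Ω) = (d : Ω) / (d' : Ω) := rfl
      rw [h6, he.hom.map_div d.2 d'.2, div_mul_div_comm]
    rw [hval]
    exact hrl.res

end Pool.Agent.H92.Tilt
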