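import Pool.Agent.H92.Tilt.B6

/-!
Auxiliary lemmas for the modules F1, F2, F3b (helper30): homomorphisms on subfields, the relation
of being a lift, extension of homomorphisms by fractions.
-/

set_option autoImplicit false

namespace Pool.Agent.H92.Tilt

open Polynomial

variable {Ω Ω' : Type*} [Field Ω] [Field Ω']

section HomOn

variable {F : Subfield Ω} {e : Ω → Ω'}

theorem HomOn.map_zero (h : HomOn F e) : e 0 = 0 := by
  have := h.add 0 F.zero_mem 0 F.zero_mem
  simpa using this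

/-- The bundled homomorphism. -/
def HomOn.toHom (h : HomOn F e) : F →+* Ω' where
  toFun x := e x
  map_one' := h.one
  map_mul' x y := h.mul x x.2 y y.2
  map_zero' := h.map_zero
  map_add' x y := h.add x x.2 y y.2

@[simp] theorem HomOn.toHom_apply (h : HomOn F e) (x : F) : h.toHom x = e x := rfl

theorem HomOn.map_neg (h : HomOn F e) {x : Ω} (hx : x ∈ F) : e (-x) = - e x :=
  _root_.map_neg h.toHom (⟨x, hx⟩ : F)

theorem HomOn.map_sub (h : HomOn F e) {x y : Ω} (hx : x ∈ F) (hy : y ∈ F) :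
    e (x - y) = e x - e y :=
  _root_.map_sub h.toHom (⟨x, hx⟩ : F) ⟨y, hy⟩

theorem HomOn.map_inv (h : HomOn F e) {x : Ω} (hx : x ∈ F) : e x⁻¹ = (e x)⁻¹ :=
  _root_.map_inv₀ h.toHom (⟨x, hx⟩ : F)

theorem HomOn.map_div (h : HomOn F e) {x y : Ω} (hx : x ∈ F) (hy : y ∈ F) :
    e (x / y) = e x / e y :=
  _root_.map_div₀ h.toHom (⟨x, hx⟩ : F) ⟨y, hy⟩

theorem HomOn.map_pow (h : HomOn F e) {x : Ω} (hx : x ∈ F) (n : ℕ) : e (x ^ n) = (e x) ^ n :=
  _root_.map_pow h.toHom (⟨x, hx⟩ : F) n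

theorem HomOn.eq_zero_iff (h : HomOn F e) {x : Ω} (hx : x ∈ F) : e x = 0 ↔ x = 0 := by
  have := map_eq_zero h.toHom (a := (⟨x, hx⟩ : F))
  rw [HomOn.toHom_apply] at this
  rw [this]
  exact ⟨fun h => congrArg Subtype.val h, fun h => Subtype.ext h⟩

theorem HomOn.inj (h : HomOn F e) {x y : Ω} (hx : x ∈ F) (hy : y ∈ F) (hxy : e x = e y) :
    x = y := by
  have h1 : e (x - y) = 0 := by rw [h.map_sub hx hy, hxy, sub_self]
  rw [h.eq_zero_iff (F.sub_mem hx hy)] at h1
  exact sub_eq_zero.1 h1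

theorem HomOn.mono {F' : Subfield Ω} (h : HomOn F e) (hF : F' ≤ F) : HomOn F' e :=
  ⟨h.one, fun x hx y hy => h.add x (hF hx) y (hF hy), fun x hx y hy => h.mul x (hF hx) y (hF hy)⟩

end HomOn

section Ext

/-- Extension of a homomorphism to fractions. -/
theorem exists_ext_ring {R : Type*} [CommRing R] (A : R →+* Ω) (A' : R →+* Ω')
    (hker : ∀ r, A r = 0 ↔ A' r = 0) (E : Subfield Ω)
    (hE : ∀ x ∈ E, ∃ r s, A s ≠ 0 ∧ x = A r / A s) :
    ∃ e1 : Ω → Ω', HomOn E e1 ∧ ∀ r s, A s ≠ 0 → e1 (A r / A s) = A' r / A' s := by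
  classical
  have key : ∀ r s r1 s1, A s ≠ 0 → A s1 ≠ 0 → A r / A s = A r1 / A s1 →
      A' r / A' s = A' r1 / A' s1 := by
    intro r s r1 s1 hs hs1 h
    have hs' : A' s ≠ 0 := fun h => hs ((hker s).2 h)
    have hs1' : A' s1 ≠ 0 := fun h => hs1 ((hker s1).2 h)
    rw [div_eq_div_iff hs hs1] at h
    rw [div_eq_div_iff hs' hs1']
    have h2 : A (r * s1 - r1 * s) = 0 := by
      rw [_root_.map_sub, _root_.map_mul, _root_.map_mul, h, sub_self]
    rw [hker, _root_.map_sub, _root_.map_mul, _root_.map_mul] at h2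
    exact sub_eq_zero.1 h2
  let e1 : Ω → Ω' := fun x => if h : ∃ q : R × R, A q.2 ≠ 0 ∧ x = A q.1 / A q.2 then
    A' h.choose.1 / A' h.choose.2 else 0
  have he1 : ∀ r s, A s ≠ 0 → e1 (A r / A s) = A' r / A' s := by
    intro r s hs
    have hex : ∃ q : R × R, A q.2 ≠ 0 ∧ A r / A s = A q.1 / A q.2 := ⟨(r, s), hs, rfl⟩
    have : e1 (A r / A s) = A' hex.choose.1 / A' hex.choose.2 := dif_pos hex
    rw [this]
    exact key _ _ _ _ hex.choose_spec.1 hs hex.choose_spec.2.symm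
  refine ⟨e1, ⟨?_, ?_, ?_⟩, he1⟩
  · have := he1 1 1 (by rw [_root_.map_one]; exact one_ne_zero)
    simpa using this
  · intro x hx y hy
    obtain ⟨r, s, hs, rfl⟩ := hE x hx
    obtain ⟨r1, s1, hs1, rfl⟩ := hE y hy
    have hs' : A' s ≠ 0 := fun h => hs ((hker s).2 h)
    have hs1' : A' s1 ≠ 0 := fun h => hs1 ((hker s1).2 h)
    have h1 : A r / A s + A r1 / A s1 = A (r * s1 + s * r1) / A (s * s1) := by
      rw [div_add_div _ _ hs hs1, _root_.map_add, _root_.map_mul, _root_.map_mul, _root_.map_mul]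
    rw [h1, he1 _ _ (by rw [_root_.map_mul]; exact mul_ne_zero hs hs1), he1 _ _ hs, he1 _ _ hs1,
      div_add_div _ _ hs' hs1', _root_.map_add, _root_.map_mul, _root_.map_mul, _root_.map_mul]
  · intro x hx y hy
    obtain ⟨r, s, hs, rfl⟩ := hE x hx
    obtain ⟨r1, s1, hs1, rfl⟩ := hE y hy
    have hs' : A' s ≠ 0 := fun h => hs ((hker s).2 h)
    have hs1' : A' s1 ≠ 0 := fun h => hs1 ((hker s1).2 h)
    have h1 : A r / A s * (A r1 / A s1) = A (r * r1) / A (s * s1) := by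
      rw [div_mul_div_comm, _root_.map_mul, _root_.map_mul]
    rw [h1, he1 _ _ (by rw [_root_.map_mul]; exact mul_ne_zero hs hs1), he1 _ _ hs, he1 _ _ hs1,
      div_mul_div_comm, _root_.map_mul, _root_.map_mul]

/-- Extension to a simple extension, one variable. -/
theorem exists_ext_simple {F : Subfield Ω} {e : Ω → Ω'} (h : HomOn F e) (z : Ω) (z' : Ω')
    (hker : ∀ P : Polynomial F, aeval z P = 0 ↔ P.eval₂ h.toHom z' = 0) :
    ∃ e1 : Ω → Ω', HomOn (adj F {z}) e1 ∧ (∀ x ∈ F, e1 x = e x) ∧ e1 z = z' ∧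
      (∀ x ∈ adj F {z}, ∃ P Q : Polynomial F, aeval z Q ≠ 0 ∧ x = aeval z P / aeval z Q) ∧
      ∀ P Q : Polynomial F, aeval z Q ≠ 0 →
        e1 (aeval z P / aeval z Q) = P.eval₂ h.toHom z' / Q.eval₂ h.toHom z' := by
  have hE : ∀ x ∈ adj F {z}, ∃ P Q : Polynomial F, aeval z Q ≠ 0 ∧
      x = aeval z P / aeval z Q := by
    intro x hx
    rw [← mem_adjoin_iff, IntermediateField.mem_adjoin_simple_iff] at hx
    obtain ⟨r, s, hrs⟩ := hx
    by_cases hs : aeval z s = 0
    · refine ⟨0, 1, by simp, ?_⟩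
      rw [hrs, hs]
      simp
    · exact ⟨r, s, hs, hrs⟩
  obtain ⟨e1, he1, he2⟩ := exists_ext_ring (R := Polynomial F) (aeval z : Polynomial F →ₐ[F] Ω).toRingHom
    (eval₂RingHom h.toHom z') hker (adj F {z}) hE
  have he3 : ∀ P : Polynomial F, e1 (aeval z P) = P.eval₂ h.toHom z' := by
    intro P
    have := he2 P 1 (by simp)
    simpa using this
  refine ⟨e1, he1, ?_, ?_, hE, he2⟩
  · intro x hx
    have := he3 (C ⟨x, hx⟩)
    have h9 : e1 ((algebraMap F Ω) ⟨x, hx⟩) = e x := by simpa using this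
    exact h9
  · have := he3 X
    simpa using this

/-- Extension to an extension generated by a family. -/
theorem exists_ext_family {ι : Type*} {F : Subfield Ω} {e : Ω → Ω'} (h : HomOn F e) (z : ι → Ω)
    (z' : ι → Ω')
    (hker : ∀ P : MvPolynomial ι F, MvPolynomial.aeval z P = 0 ↔
      MvPolynomial.eval₂ h.toHom z' P = 0) :
    ∃ e1 : Ω → Ω', HomOn (adj F (Set.range z)) e1 ∧ (∀ x ∈ F, e1 x = e x) ∧
      (∀ i, e1 (z i) = z' i) ∧
      (∀ x ∈ adj F (Set.range z), ∃ P Q : MvPolynomial ι F, MvPolynomial.aeval z Q ≠ 0 ∧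
        x = MvPolynomial.aeval z P / MvPolynomial.aeval z Q) ∧
      ∀ P Q : MvPolynomial ι F, MvPolynomial.aeval z Q ≠ 0 →
        e1 (MvPolynomial.aeval z P / MvPolynomial.aeval z Q) =
          MvPolynomial.eval₂ h.toHom z' P / MvPolynomial.eval₂ h.toHom z' Q := by
  have hE : ∀ x ∈ adj F (Set.range z), ∃ P Q : MvPolynomial ι F, MvPolynomial.aeval z Q ≠ 0 ∧
      x = MvPolynomial.aeval z P / MvPolynomial.aeval z Q := by
    intro x hx
    rw [← mem_adjoin_iff, IntermediateField.mem_adjoin_range_iff] at hx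
    obtain ⟨r, s, hrs⟩ := hx
    by_cases hs : MvPolynomial.aeval z s = 0
    · refine ⟨0, 1, by simp, ?_⟩
      rw [hrs, hs]
      simp
    · exact ⟨r, s, hs, hrs⟩
  obtain ⟨e1, he1, he2⟩ := exists_ext_ring (R := MvPolynomial ι F)
    (MvPolynomial.aeval z : MvPolynomial ι F →ₐ[F] Ω).toRingHom
    (MvPolynomial.eval₂Hom h.toHom z') hker (adj F (Set.range z)) hE
  have he3 : ∀ P : MvPolynomial ι F, e1 (MvPolynomial.aeval z P) =
      MvPolynomial.eval₂ h.toHom z' P := by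
    intro P
    have := he2 P 1 (by simp)
    simpa using this
  refine ⟨e1, he1, ?_, ?_, hE, he2⟩
  · intro x hx
    have := he3 (MvPolynomial.C ⟨x, hx⟩)
    have h9 : e1 ((algebraMap F Ω) ⟨x, hx⟩) = e x := by simpa using this
    exact h9
  · intro i
    have := he3 (MvPolynomial.X i)
    simpa using this

end Ext

section Lift

theorem vlt_add (O : ValuationSubring Ω) {a b : Ω} (ha : O.valuation a < 1)
    (hb : O.valuation b < 1) : O.valuation (a + b) < 1 :=
  O.valuation.map_add_lt ha hb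

theorem vlt_neg (O : ValuationSubring Ω) {a : Ω} (ha : O.valuation a < 1) :
    O.valuation (-a) < 1 := by rwa [Valuation.map_neg]

theorem vlt_sub (O : ValuationSubring Ω) {a b : Ω} (ha : O.valuation a < 1)
    (hb : O.valuation b < 1) : O.valuation (a - b) < 1 := by
  rw [sub_eq_add_neg]
  exact vlt_add O ha (vlt_neg O hb)

theorem vlt_mul (O : ValuationSubring Ω) {a b : Ω} (ha : a ∈ O) (hb : O.valuation b < 1) :
    O.valuation (a * b) < 1 := by
  rw [map_mul]
  exact lt_of_le_of_lt (mul_le_of_le_one_left' ((O.valuation_le_one_iff a).2 ha)) hb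

theorem vlt_mem (O : ValuationSubring Ω) {a : Ω} (ha : O.valuation a < 1) : a ∈ O :=
  (O.valuation_le_one_iff a).1 ha.le

theorem vlt_zero (O : ValuationSubring Ω) : O.valuation (0 : Ω) < 1 := by
  rw [map_zero]
  exact zero_lt_one

/-- `x'` is a lift of `lam x`. -/
structure Rl (O : ValuationSubring Ω) (O' : ValuationSubring Ω') (N : Subfield Ω)
    (lam : Ω → Ω') (x : Ω) (x' : Ω') : Prop where
  mem : x ∈ N
  memO : x ∈ O
  res : O'.valuation (x' - lam x) < 1

variable {O : ValuationSubring Ω} {O' : ValuationSubring Ω'} {N : Subfield Ω} {K' : Subfield Ω'}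
  {lam : Ω → Ω'}

theorem Good.rl {F : Subfield Ω} {e : Ω → Ω'} (h : Good O O' K' lam F e) (hF : F ≤ N) {x : Ω}
    (hx : x ∈ F) (hxO : x ∈ O) : Rl O O' N lam x (e x) := ⟨hF hx, hxO, h.res x hx hxO⟩

theorem Rl.of {x : Ω} (hx : x ∈ N) (hxO : x ∈ O) : Rl O O' N lam x (lam x) :=
  ⟨hx, hxO, by rw [sub_self]; exact vlt_zero O'⟩

theorem Rl.memO' (hl : AHom O N O' K' lam) {x : Ω} {x' : Ω'} (h : Rl O O' N lam x x') :
    x' ∈ O' := by
  have h1 : x' = (x' - lam x) + lam x := by ring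
  rw [h1]
  exact O'.add_mem _ _ (vlt_mem O' h.res) (hl.rng x h.mem h.memO).2

theorem Rl.congr {x : Ω} {x' x'' : Ω'} (h : Rl O O' N lam x x')
    (h1 : O'.valuation (x'' - x') < 1) : Rl O O' N lam x x'' := by
  refine ⟨h.mem, h.memO, ?_⟩
  have h2 : x'' - lam x = (x'' - x') + (x' - lam x) := by ring
  rw [h2]
  exact vlt_add O' h1 h.res

theorem Rl.add (hl : AHom O N O' K' lam) {x y : Ω} {x' y' : Ω'} (hx : Rl O O' N lam x x')
    (hy : Rl O O' N lam y y') : Rl O O' N lam (x + y) (x' + y') := by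
  refine ⟨N.add_mem hx.mem hy.mem, O.add_mem _ _ hx.memO hy.memO, ?_⟩
  have h2 : x' + y' - lam (x + y) =
      (x' - lam x) + (y' - lam y) - (lam (x + y) - (lam x + lam y)) := by ring
  rw [h2]
  exact vlt_sub O' (vlt_add O' hx.res hy.res) (hl.add x hx.mem hx.memO y hy.mem hy.memO)

theorem Rl.mul (hl : AHom O N O' K' lam) {x y : Ω} {x' y' : Ω'} (hx : Rl O O' N lam x x')
    (hy : Rl O O' N lam y y') : Rl O O' N lam (x * y) (x' * y') := by
  refine ⟨N.mul_mem hx.mem hy.mem, O.mul_mem _ _ hx.memO hy.memO, ?_⟩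
  have h2 : x' * y' - lam (x * y) =
      x' * (y' - lam y) + lam y * (x' - lam x) - (lam (x * y) - (lam x * lam y)) := by ring
  rw [h2]
  exact vlt_sub O' (vlt_add O' (vlt_mul O' (hx.memO' hl) hy.res)
    (vlt_mul O' (hl.rng y hy.mem hy.memO).2 hx.res)) (hl.mul x hx.mem hx.memO y hy.mem hy.memO)

theorem Rl.zero (hl : AHom O N O' K' lam) : Rl O O' N lam 0 0 := by
  refine ⟨N.zero_mem, O.zero_mem, ?_⟩
  rw [zero_sub]
  exact vlt_neg O' ((hl.ker 0 N.zero_mem O.zero_mem).2 (vlt_zero O))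

theorem Rl.one (hl : AHom O N O' K' lam) : Rl O O' N lam 1 1 := by
  refine ⟨N.one_mem, O.one_mem, ?_⟩
  have := vlt_neg O' hl.one
  rwa [neg_sub] at this

theorem Rl.neg (hl : AHom O N O' K' lam) {x : Ω} {x' : Ω'} (hx : Rl O O' N lam x x') :
    Rl O O' N lam (-x) (-x') := by
  have hn : -x ∈ N := N.neg_mem hx.mem
  have hO : -x ∈ O := O.neg_mem _ hx.memO
  refine ⟨hn, hO, ?_⟩
  have h1 := hl.add x hx.mem hx.memO (-x) hn hO
  have h0 := (hl.ker 0 N.zero_mem O.zero_mem).2 (vlt_zero O)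
  rw [add_neg_cancel] at h1
  have h2 : -x' - lam (-x) = (lam 0 - (lam x + lam (-x))) - lam 0 - (x' - lam x) := by ring
  rw [h2]
  exact vlt_sub O' (vlt_sub O' h1 h0) hx.res

theorem Rl.sub (hl : AHom O N O' K' lam) {x y : Ω} {x' y' : Ω'} (hx : Rl O O' N lam x x')
    (hy : Rl O O' N lam y y') : Rl O O' N lam (x - y) (x' - y') := by
  rw [sub_eq_add_neg, sub_eq_add_neg]
  exact hx.add hl (hy.neg hl)

theorem Rl.pow (hl : AHom O N O' K' lam) {x : Ω} {x' : Ω'} (hx : Rl O O' N lam x x') (n : ℕ) :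
    Rl O O' N lam (x ^ n) (x' ^ n) := by
  induction n with
  | zero => rw [pow_zero, pow_zero]; exact Rl.one hl
  | succ n ih => rw [pow_succ, pow_succ]; exact ih.mul hl hx

theorem Rl.sum (hl : AHom O N O' K' lam) {ι : Type*} (s : Finset ι) {f : ι → Ω} {f' : ι → Ω'}
    (h : ∀ i ∈ s, Rl O O' N lam (f i) (f' i)) :
    Rl O O' N lam (∑ i ∈ s, f i) (∑ i ∈ s, f' i) := by
  classical
  induction s using Finset.induction_on with
  | empty => simpa using Rl.zero hl
  | insert a s ha ih =>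
    rw [Finset.sum_insert ha, Finset.sum_insert ha]
    exact (h a (Finset.mem_insert_self a s)).add hl
      (ih fun i hi => h i (Finset.mem_insert_of_mem hi))

theorem Rl.prod (hl : AHom O N O' K' lam) {ι : Type*} (s : Finset ι) {f : ι → Ω} {f' : ι → Ω'}
    (h : ∀ i ∈ s, Rl O O' N lam (f i) (f' i)) :
    Rl O O' N lam (∏ i ∈ s, f i) (∏ i ∈ s, f' i) := by
  classical
  induction s using Finset.induction_on with
  | empty => simpa using Rl.one hl
  | insert a s ha ih =>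
    rw [Finset.prod_insert ha, Finset.prod_insert ha]
    exact (h a (Finset.mem_insert_self a s)).mul hl
      (ih fun i hi => h i (Finset.mem_insert_of_mem hi))

theorem Rl.lt_iff (hl : AHom O N O' K' lam) {x : Ω} {x' : Ω'} (hx : Rl O O' N lam x x') :
    O'.valuation x' < 1 ↔ O.valuation x < 1 := by
  rw [← hl.ker x hx.mem hx.memO]
  constructor
  · intro h
    have h2 : lam x = x' - (x' - lam x) := by ring
    rw [h2]
    exact vlt_sub O' h hx.res
  · intro h
    have h2 : x' = lam x + (x' - lam x) := by ring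
    rw [h2]
    exact vlt_add O' h hx.res

theorem Rl.eq_iff (hl : AHom O N O' K' lam) {x : Ω} {x' : Ω'} (hx : Rl O O' N lam x x') :
    O'.valuation x' = 1 ↔ O.valuation x = 1 := by
  have h1 := (O'.valuation_le_one_iff x').2 (hx.memO' hl)
  have h2 := (O.valuation_le_one_iff x).2 hx.memO
  have h3 := hx.lt_iff hl
  constructor
  · intro h
    exact le_antisymm h2 (not_lt.1 fun h4 => by rw [← h3, h] at h4; exact lt_irrefl _ h4)
  · intro h
    exact le_antisymm h1 (not_lt.1 fun h4 => by rw [h3, h] at h4; exact lt_irrefl _ h4)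

/-- Replace `x` by a congruent element. -/
theorem Rl.congr_left (hl : AHom O N O' K' lam) {x y : Ω} {x' : Ω'} (hx : Rl O O' N lam x x')
    (hy : y ∈ N) (h : O.valuation (y - x) < 1) : Rl O O' N lam y x' := by
  have h1 : y - x ∈ N := N.sub_mem hy hx.mem
  have h2 : Rl O O' N lam (y - x) (lam (y - x)) := Rl.of h1 (vlt_mem O h)
  have h3 := hx.add hl h2
  have h4 : x + (y - x) = y := by ring
  rw [h4] at h3
  refine h3.congr ?_
  have h5 : x' - (x' + lam (y - x)) = - lam (y - x) := by ring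
  rw [h5]
  exact vlt_neg O' ((hl.ker _ h1 (vlt_mem O h)).2 h)

theorem Rl.inv (hl : AHom O N O' K' lam) {x : Ω} {x' : Ω'} (hx : Rl O O' N lam x x')
    (h1 : O.valuation x = 1) : Rl O O' N lam x⁻¹ x'⁻¹ := by
  have h0 : x ≠ 0 := fun h => by rw [h, map_zero] at h1; exact zero_ne_one h1
  have h1' : O'.valuation x' = 1 := (hx.eq_iff hl).2 h1
  have h0' : x' ≠ 0 := fun h => by rw [h, map_zero] at h1'; exact zero_ne_one h1'
  have hn : x⁻¹ ∈ N := N.inv_mem hx.mem
  have hO : x⁻¹ ∈ O := by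
    rw [← O.valuation_le_one_iff, map_inv₀, h1, inv_one]
  have h3 : Rl O O' N lam x⁻¹ (lam x⁻¹) := Rl.of hn hO
  have h4 := hx.mul hl h3
  rw [mul_inv_cancel₀ h0] at h4
  have h5 : O'.valuation (x' * lam x⁻¹ - 1) < 1 := by
    have h6 : x' * lam x⁻¹ - 1 = (x' * lam x⁻¹ - lam 1) + (lam 1 - 1) := by ring
    rw [h6]
    exact vlt_add O' h4.res hl.one
  refine h3.congr ?_
  have h7 : x'⁻¹ - lam x⁻¹ = x'⁻¹ * -(x' * lam x⁻¹ - 1) := by
    field_simp
    ring
  rw [h7]
  refine vlt_mul O' ?_ (vlt_neg O' h5)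
  rw [← O'.valuation_le_one_iff, map_inv₀, h1', inv_one]

theorem Rl.div (hl : AHom O N O' K' lam) {x y : Ω} {x' y' : Ω'} (hx : Rl O O' N lam x x')
    (hy : Rl O O' N lam y y') (h1 : O.valuation y = 1) : Rl O O' N lam (x / y) (x' / y') := by
  rw [div_eq_mul_inv, div_eq_mul_inv]
  exact hx.mul hl (hy.inv hl h1)

/-- Values of polynomials over `F ∩ O`. -/
theorem Good.rl_eval {F : Subfield Ω} {e : Ω → Ω'} (h : Good O O' K' lam F e) (hF : F ≤ N)
    (hl : AHom O N O' K' lam) {z : Ω} {z' : Ω'} (hz : Rl O O' N lam z z') (P : Polynomial F)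
    (hP : ∀ i, ((P.coeff i : F) : Ω) ∈ O) :
    Rl O O' N lam (aeval z P) (P.eval₂ h.hom.toHom z') := by
  rw [aeval_eq_sum_range, eval₂_eq_sum_range]
  refine Rl.sum hl _ fun i _ => ?_
  have h1 : P.coeff i • z ^ i = ((P.coeff i : F) : Ω) * z ^ i := Algebra.smul_def _ _
  rw [h1]
  exact (h.rl hF (P.coeff i).2 (hP i)).mul hl (hz.pow hl i)

theorem Good.rl_mvEval {F : Subfield Ω} {e : Ω → Ω'} (h : Good O O' K' lam F e) (hF : F ≤ N)
    (hl : AHom O N O' K' lam) {ι : Type*} {z : ι → Ω} {z' : ι → Ω'}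
    (hz : ∀ i, Rl O O' N lam (z i) (z' i)) (P : MvPolynomial ι F)
    (hP : ∀ m, ((P.coeff m : F) : Ω) ∈ O) :
    Rl O O' N lam (MvPolynomial.aeval z P) (MvPolynomial.eval₂ h.hom.toHom z' P) := by
  rw [MvPolynomial.aeval_def, MvPolynomial.eval₂_eq, MvPolynomial.eval₂_eq]
  refine Rl.sum hl _ fun m _ => ?_
  refine (h.rl hF (P.coeff m).2 (hP m)).mul hl (Rl.prod hl _ fun i _ => (hz i).pow hl _)

/-- Values of a Good embedding. -/
theorem Good.val_eq {F : Subfield Ω} {e : Ω → Ω'} (h : Good O O' K' lam F e) (hF : F ≤ N)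
    (hl : AHom O N O' K' lam) {x y : Ω} (hx : x ∈ F) (hy : y ∈ F) :
    O'.valuation (e x) < O'.valuation (e y) ↔ O.valuation x < O.valuation y := by
  by_cases hy0 : y = 0
  · rw [hy0, h.hom.map_zero, map_zero, map_zero]
    constructor <;> intro h <;> exact absurd h not_lt_zero
  have hey0 : e y ≠ 0 := fun h0 => hy0 ((h.hom.eq_zero_iff hy).1 h0)
  have h1 : O'.valuation (e x) < O'.valuation (e y) ↔ O'.valuation (e (x / y)) < 1 := by
    rw [h.hom.map_div hx hy, map_div₀, div_lt_one₀ (zero_lt_iff.2 (by simpa using hey0))]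
  have h2 : O.valuation x < O.valuation y ↔ O.valuation (x / y) < 1 := by
    rw [map_div₀, div_lt_one₀ (zero_lt_iff.2 (by simpa using hy0))]
  rw [h1, h2]
  have h3 : x / y ∈ F := F.div_mem hx hy
  by_cases hO : x / y ∈ O
  · exact (h.rl hF h3 hO).lt_iff hl
  · have h5 : x / y ≠ 0 := fun h => hO (by rw [h]; exact O.zero_mem)
    have h4 : O.valuation (x / y)⁻¹ < 1 := by
      rw [← O.valuation_le_one_iff, not_le] at hO
      rw [map_inv₀]
      exact inv_lt_one_of_one_lt₀ hO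
    have h6 := ((h.rl hF (F.inv_mem h3) (vlt_mem O h4)).lt_iff hl).2 h4
    rw [h.hom.map_inv h3, map_inv₀] at h6
    constructor
    · intro h7
      exfalso
      have h8 : O'.valuation (e (x / y)) ≠ 0 := by
        rw [Ne, Valuation.zero_iff, h.hom.eq_zero_iff h3]
        exact h5
      have h9 := lt_of_le_of_lt (mul_le_of_le_one_left' h6.le) h7
      rw [inv_mul_cancel₀ h8] at h9
      exact lt_irrefl _ h9
    · intro h7
      exact absurd (vlt_mem O h7) hO

theorem Good.val_one {F : Subfield Ω} {e : Ω → Ω'} (h : Good O O' K' lam F e) (hF : F ≤ N)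
    (hl : AHom O N O' K' lam) {x y : Ω} (hx : x ∈ F) (hy : y ∈ F) :
    O'.valuation (e x) ≤ O'.valuation (e y) ↔ O.valuation x ≤ O.valuation y := by
  rw [← not_lt, ← not_lt, h.val_eq hF hl hy hx]

end Lift

end Pool.Agent.H92.Tilt
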