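import Pool.Agent.H92.Tilt.F1x

/-!
Auxiliary steps for module F1 (helper30): one simple root, one `p`-th root, Zorn.
-/

set_option autoImplicit false

namespace Pool.Agent.H92.Tilt

open Polynomial

variable {Ω Ω' : Type*} [Field Ω] [Field Ω']

theorem exists_poly_lift {F : Subfield Ω} {G : Polynomial Ω} (h : ∀ i, G.coeff i ∈ F) :
    ∃ P : Polynomial F, P.map (algebraMap F Ω) = G := by
  rw [← Polynomial.mem_lifts, Polynomial.lifts_iff_coeff_lifts]
  intro n
  exact ⟨⟨G.coeff n, h n⟩, rfl⟩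

theorem coeff_map_sub {F : Subfield Ω} (P : Polynomial F) (i : ℕ) :
    (P.map (algebraMap F Ω)).coeff i = ((P.coeff i : F) : Ω) := by
  rw [Polynomial.coeff_map]
  rfl

theorem aeval_eq_eval_map {F : Subfield Ω} (P : Polynomial F) (z : Ω) :
    aeval z P = (P.map (algebraMap F Ω)).eval z := by
  rw [aeval_def, eval_map]

/-- A monic polynomial with all roots in `O` has coefficients in `O`. -/
theorem coeff_memO_of_roots [IsAlgClosed Ω] (O : ValuationSubring Ω) {g : Polynomial Ω}
    (hg : g.Monic) (h : ∀ x, g.eval x = 0 → x ∈ O) (i : ℕ) : g.coeff i ∈ O := by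
  have h1 : g ∈ Polynomial.lifts (algebraMap O Ω) := by
    rw [(IsAlgClosed.splits g).eq_prod_roots_of_monic hg]
    refine Subsemiring.multiset_prod_mem _ _ fun f hf => ?_
    rw [Multiset.mem_map] at hf
    obtain ⟨a, ha, rfl⟩ := hf
    rw [Polynomial.lifts_iff_coeff_lifts]
    have haO : a ∈ O := h a ((Polynomial.mem_roots hg.ne_zero).1 ha)
    intro n
    rcases n with _ | _ | n
    · exact ⟨-⟨a, haO⟩, by simp⟩
    · exact ⟨1, by simp⟩
    · exact ⟨0, by simp [Polynomial.coeff_X]⟩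
  rw [Polynomial.lifts_iff_coeff_lifts] at h1
  obtain ⟨x, hx⟩ := h1 i
  rw [← hx]
  exact x.2

/-- The minimal polynomial of a simple root. -/
theorem sroot_minpoly [IsAlgClosed Ω] {O : ValuationSubring Ω} {F : Subfield Ω} {c : Ω}
    (hc : SRoot O F c) : (∀ i, (((minpoly F c).coeff i : F) : Ω) ∈ O) ∧
      O.valuation (aeval c (derivative (minpoly F c))) = 1 := by
  have hcO := hc.memO
  have halg : IsAlgebraic F c := hc.isAlgebraic
  have hint : IsIntegral F c := halg.isIntegral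
  obtain ⟨h, h1, h2, h3, h4, h5⟩ := hc
  obtain ⟨P, rfl⟩ := exists_poly_lift h2
  have hPm : P.Monic := by
    rw [← Polynomial.monic_map_iff (f := algebraMap F Ω)]
    exact h1
  have hdvd : minpoly F c ∣ P := minpoly.dvd F c (by rw [aeval_eq_eval_map]; exact h4)
  obtain ⟨q, hq⟩ := hdvd
  have hgm : (minpoly F c).Monic := minpoly.monic hint
  have hqm : q.Monic := by
    rw [hq] at hPm
    exact hgm.of_mul_monic_left hPm
  have hmap : P.map (algebraMap F Ω) =
      (minpoly F c).map (algebraMap F Ω) * q.map (algebraMap F Ω) := by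
    rw [hq, Polynomial.map_mul]
  have hg : ∀ i, (((minpoly F c).coeff i : F) : Ω) ∈ O := by
    intro i
    rw [← coeff_map_sub]
    refine coeff_memO_of_roots O (hgm.map _) (fun x hx => ?_) i
    refine root_memO O h1 h3 ?_
    rw [hmap, eval_mul, hx, zero_mul]
  have hq2 : ∀ i, (q.map (algebraMap F Ω)).coeff i ∈ O := by
    intro i
    refine coeff_memO_of_roots O (hqm.map _) (fun x hx => ?_) i
    refine root_memO O h1 h3 ?_
    rw [hmap, eval_mul, hx, mul_zero]
  refine ⟨hg, ?_⟩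
  have hqc : (q.map (algebraMap F Ω)).eval c ∈ O := eval_memO O hq2 hcO
  have hgc : ((minpoly F c).map (algebraMap F Ω)).eval c = 0 := by
    rw [← aeval_eq_eval_map, minpoly.aeval]
  have hg2 : ∀ i, ((minpoly F c).map (algebraMap F Ω)).coeff i ∈ O := fun i => by
    rw [coeff_map_sub]; exact hg i
  have hgd : (derivative ((minpoly F c).map (algebraMap F Ω))).eval c ∈ O :=
    eval_memO O (derivative_coeff_memO O hg2) hcO
  rw [hmap, derivative_mul, eval_add, eval_mul, eval_mul, hgc, zero_mul, add_zero, map_mul] at h5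
  rw [aeval_eq_eval_map, ← Polynomial.derivative_map]
  rw [← O.valuation_le_one_iff] at hqc hgd
  refine le_antisymm hgd (not_lt.1 fun hlt => ?_)
  have := mul_le_of_le_one_right' (a := O.valuation
    (eval c (derivative (Polynomial.map (algebraMap (↥F) Ω) (minpoly (↥F) c))))) hqc
  rw [h5] at this
  exact absurd (lt_of_le_of_lt this hlt) (lt_irrefl _)

variable {O : ValuationSubring Ω} {O' : ValuationSubring Ω'} {N : Subfield Ω} {K' : Subfield Ω'}
  {lam : Ω → Ω'}

theorem eval₂_mem {F : Subfield Ω} {e : Ω → Ω'} (h : Good O O' K' lam F e) {z' : Ω'}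
    (hz : z' ∈ K') (P : Polynomial F) : P.eval₂ h.hom.toHom z' ∈ K' := by
  rw [eval₂_eq_sum_range]
  exact sum_mem fun i _ => K'.mul_mem (h.rng _ (P.coeff i).2) (K'.pow_mem hz i)

theorem step_sroot [IsAlgClosed Ω] [IsAlgClosed Ω'] (hlam : AHom O N O' K' lam)
    (hh : HCl O' K') {F : Subfield Ω} (hF : F ≤ N) {e : Ω → Ω'} (he : Good O O' K' lam F e)
    {c : Ω} (hc : c ∈ N) (hcr : SRoot O F c) :
    ∃ e1 : Ω → Ω', Good O O' K' lam (adj F {c}) e1 ∧ ∀ x ∈ F, e1 x = e x := by
  obtain ⟨hg, hgd⟩ := sroot_minpoly hcr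
  have hcO := hcr.memO
  have hint : IsIntegral F c := hcr.isAlgebraic.isIntegral
  have hgm : (minpoly F c).Monic := minpoly.monic hint
  have hrc : Rl O O' N lam c (lam c) := Rl.of hc hcO
  set φ := he.hom.toHom with hφ
  have hc1 : ∀ i, ((minpoly F c).map φ).coeff i ∈ K' := fun i => by
    rw [coeff_map]
    exact he.rng _ ((minpoly F c).coeff i).2
  have hc2 : ∀ i, ((minpoly F c).map φ).coeff i ∈ O' := fun i => by
    rw [coeff_map]
    exact (he.rl hF ((minpoly F c).coeff i).2 (hg i)).memO' hlam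
  have hv1 : O'.valuation (((minpoly F c).map φ).eval (lam c)) < 1 := by
    rw [eval_map]
    rw [(he.rl_eval hF hlam hrc (minpoly F c) hg).lt_iff hlam, minpoly.aeval]
    exact vlt_zero O
  have hgd2 : ∀ i, (((derivative (minpoly F c)).coeff i : F) : Ω) ∈ O := by
    intro i
    have h1 : ∀ i, ((minpoly F c).map (algebraMap F Ω)).coeff i ∈ O := fun i => by
      rw [coeff_map_sub]; exact hg i
    have h2 := derivative_coeff_memO O h1 i
    rw [Polynomial.derivative_map, coeff_map_sub] at h2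
    exact h2
  have hv2 : O'.valuation ((derivative ((minpoly F c).map φ)).eval (lam c)) = 1 := by
    rw [Polynomial.derivative_map, eval_map]
    rw [(he.rl_eval hF hlam hrc _ hgd2).eq_iff hlam]
    exact hgd
  obtain ⟨c', hc'K, hc'0, hc'1, -⟩ := HCl.hensel hh le_rfl (hgm.map φ) hc1 hc2
    (hlam.rng c hc hcO).1 (hlam.rng c hc hcO).2 hv1 hv2
  have hrc' : Rl O O' N lam c c' := ⟨hc, hcO, hc'1⟩
  have hker : ∀ P : Polynomial F, aeval c P = 0 ↔ P.eval₂ he.hom.toHom c' = 0 := by
    intro P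
    constructor
    · intro h
      obtain ⟨q, hq⟩ := minpoly.dvd F c h
      rw [hq, eval₂_mul, ← eval_map, hc'0, zero_mul]
    · intro h
      by_contra hne
      have hcop : IsCoprime (minpoly F c) P := by
        refine (Irreducible.coprime_iff_not_dvd (minpoly.irreducible hint)).2 fun hd => hne ?_
        obtain ⟨q, hq⟩ := hd
        rw [hq, map_mul, minpoly.aeval, zero_mul]
      obtain ⟨u, v, huv⟩ := hcop
      have := congrArg (fun R => eval₂ he.hom.toHom c' R) huv
      simp only [eval₂_add, eval₂_mul, eval₂_one] at this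
      rw [h, ← eval_map, ← eval_map, ← eval_map] at this
      rw [hc'0] at this
      simp at this
  obtain ⟨e1, h1, h2, h3, h4, h5⟩ := exists_ext_simple he.hom c c' hker
  refine ⟨e1, ⟨h1, ?_, ?_⟩, h2⟩
  · intro x hx
    obtain ⟨P, Q, hQ, rfl⟩ := h4 x hx
    rw [h5 P Q hQ]
    exact K'.div_mem (eval₂_mem he hc'K P) (eval₂_mem he hc'K Q)
  · intro x hx hxO
    obtain ⟨G1, G2, g1, g2, g3, g4, g5, g6⟩ := sroot_repr O hcr hx hxO
    obtain ⟨P, rfl⟩ := exists_poly_lift g1
    obtain ⟨Q, rfl⟩ := exists_poly_lift g3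
    rw [← aeval_eq_eval_map] at g5
    rw [← aeval_eq_eval_map, ← aeval_eq_eval_map] at g6
    have hQ0 : aeval c Q ≠ 0 := fun h => by rw [h, map_zero] at g5; exact zero_ne_one g5
    have hx2 : x = aeval c P / aeval c Q := by rw [← g6, mul_div_cancel_right₀ _ hQ0]
    rw [hx2, h5 P Q hQ0]
    refine (Rl.div hlam (he.rl_eval hF hlam hrc' P fun i => ?_)
      (he.rl_eval hF hlam hrc' Q fun i => ?_) g5).res
    · rw [← coeff_map_sub]; exact g2 i
    · rw [← coeff_map_sub]; exact g4 i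

/-- The field of elements of `N` with `p`-th power in `F`. -/
def prt (p : ℕ) [Fact p.Prime] [CharP Ω p] (N F : Subfield Ω) : Subfield Ω :=
  N ⊓ F.comap (frobenius Ω p)

theorem mem_prt {p : ℕ} [Fact p.Prime] [CharP Ω p] {N F : Subfield Ω} {x : Ω} :
    x ∈ prt p N F ↔ x ∈ N ∧ x ^ p ∈ F := by
  unfold prt
  rw [Subfield.mem_inf, Subfield.mem_comap, frobenius_def]

theorem step_root {p : ℕ} [Fact p.Prime] [CharP Ω p] [CharP Ω' p] [IsAlgClosed Ω']
    (hlam : AHom O N O' K' lam)
    (hp : PCl p K') {F : Subfield Ω} (hF : F ≤ N) {e : Ω → Ω'} (he : Good O O' K' lam F e) :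
    ∃ e1 : Ω → Ω', Good O O' K' lam (prt p N F) e1 ∧ ∀ x ∈ F, e1 x = e x := by
  have hp0 : 0 < p := (Fact.out : p.Prime).pos
  have hroot : ∀ y : Ω', ∃ r : Ω', r ^ p = y := fun y => IsAlgClosed.exists_pow_nat_eq y hp0
  choose r hr using hroot
  have hinj : ∀ a b : Ω', a ^ p = b ^ p → a = b := fun a b h => frobenius_inj Ω' p h
  refine ⟨fun w => r (e (w ^ p)), ⟨⟨?_, ?_, ?_⟩, ?_, ?_⟩, ?_⟩
  · apply hinj
    rw [hr, one_pow, one_pow, he.hom.one]
  · intro x hx y hy
    rw [mem_prt] at hx hy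
    apply hinj
    rw [hr, add_pow_char, add_pow_char, hr, hr]
    exact he.hom.add _ hx.2 _ hy.2
  · intro x hx y hy
    rw [mem_prt] at hx hy
    apply hinj
    rw [hr, mul_pow, mul_pow, hr, hr]
    exact he.hom.mul _ hx.2 _ hy.2
  · intro x hx
    rw [mem_prt] at hx
    apply hp
    rw [hr]
    exact he.rng _ hx.2
  · intro x hx hxO
    rw [mem_prt] at hx
    have h1 : Rl O O' N lam x (lam x) := Rl.of hx.1 hxO
    have h2 : Rl O O' N lam (x ^ p) ((lam x) ^ p) := h1.pow hlam p
    have h3 : Rl O O' N lam (x ^ p) (e (x ^ p)) := he.rl hF hx.2 (O.pow_mem hxO p)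
    have h4 : O'.valuation ((r (e (x ^ p)) - lam x) ^ p) < 1 := by
      rw [sub_pow_char, hr]
      have h5 : e (x ^ p) - lam x ^ p = (e (x ^ p) - lam (x ^ p)) - (lam x ^ p - lam (x ^ p)) := by
        ring
      rw [h5]
      exact vlt_sub O' h3.res h2.res
    rw [map_pow] at h4
    exact (pow_lt_one_iff hp0.ne').1 h4
  · intro x hx
    apply hinj
    rw [hr, he.hom.map_pow hx]

end Pool.Agent.H92.Tilt
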