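import Pool.Agent.H92.Tilt.F2x

/-!
Module F2 (see the comment in F1): transcendental elements, determined by their cut in `B`.
-/

set_option autoImplicit false

namespace Pool.Agent.H92.Tilt

open Polynomial

variable {Ω Ω' : Type*} [Field Ω] [Field Ω'] (p : ℕ) [Fact p.Prime] [CharP Ω p] [IsAlgClosed Ω]
  [CharP Ω' p] [IsAlgClosed Ω'] (O : ValuationSubring Ω) (O' : ValuationSubring Ω')

/-- `z'` realises over `e B` the linear conditions satisfied by `z` over `B`. -/
def LinType (lam : Ω → Ω') (B : Subfield Ω) (e : Ω → Ω') (z : Ω) (z' : Ω') : Prop :=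
  ∀ a ∈ B, z' - e a ≠ 0 ∧ ∀ d ∈ B, d ≠ 0 →
    ((z - a) / d ∈ O → O'.valuation ((z' - e a) / e d - lam ((z - a) / d)) < 1) ∧
    ((z - a) / d ∉ O → O'.valuation (e d / (z' - e a)) < 1)

omit [IsAlgClosed Ω'] [CharP Ω' p] in
/-- The linear conditions determine the residues of all `b (z - a) ^ m`. -/
theorem lin_transfer {N : Subfield Ω} {K' : Subfield Ω'} {lam : Ω → Ω'}
    (hlam : AHom O N O' K' lam) {B : Subfield Ω} (hB : B ≤ N) (hW : W p O B) {e : Ω → Ω'}
    (he : Good O O' K' lam B e) {z : Ω} (hz : z ∈ N) (hzB : z ∉ B) {z' : Ω'}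
    (hlin : LinType O O' lam B e z z') {a : Ω} (ha : a ∈ B) {b : Ω} (hb : b ∈ B) (m : ℤ)
    (hO : b * (z - a) ^ m ∈ O) :
    Rl O O' N lam (b * (z - a) ^ m) (e b * (z' - e a) ^ m) := by
  obtain ⟨hw', hlin'⟩ := hlin a ha
  have hw : z - a ≠ 0 := fun h => hzB (by rw [sub_eq_zero.1 h]; exact ha)
  have hvw : O.valuation (z - a) ≠ 0 := by rwa [Ne, Valuation.zero_iff]
  have hvw' : O'.valuation (z' - e a) ≠ 0 := by rwa [Ne, Valuation.zero_iff]
  have hwN : z - a ∈ N := N.sub_mem hz (hB ha)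
  by_cases hb0 : b = 0
  · rw [hb0, he.hom.map_zero, zero_mul, zero_mul]
    exact Rl.zero hlam
  have heb : e b ≠ 0 := fun h => hb0 ((he.hom.eq_zero_iff hb).1 h)
  have hvb : O.valuation b ≠ 0 := by rwa [Ne, Valuation.zero_iff]
  have hsmall : ∀ x x', x ∈ N → O.valuation x < 1 → O'.valuation x' < 1 →
      Rl O O' N lam x x' := by
    intro x x' h1 h2 h3
    refine ⟨h1, vlt_mem O h2, vlt_sub O' h3 ((hlam.ker x h1 (vlt_mem O h2)).2 h2)⟩
  by_cases hc : ∃ d ∈ B, O.valuation (z - a) = O.valuation d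
  · obtain ⟨d, hd, hdv⟩ := hc
    have hd0 : d ≠ 0 := fun h => hvw (by rw [hdv, h, map_zero])
    have hed : e d ≠ 0 := fun h => hd0 ((he.hom.eq_zero_iff hd).1 h)
    have hvd : O.valuation d ≠ 0 := by rwa [Ne, Valuation.zero_iff]
    have hu1 : O.valuation ((z - a) / d) = 1 := by rw [map_div₀, hdv, div_self hvd]
    have huO : (z - a) / d ∈ O := (O.valuation_le_one_iff _).1 hu1.le
    have hu : Rl O O' N lam ((z - a) / d) ((z' - e a) / e d) :=
      ⟨N.div_mem hwN (hB hd), huO, (hlin' d hd hd0).1 huO⟩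
    have huz : Rl O O' N lam (((z - a) / d) ^ m) (((z' - e a) / e d) ^ m) := by
      rcases m with n | n
      · rw [Int.ofNat_eq_natCast, zpow_natCast, zpow_natCast]
        exact hu.pow hlam n
      · rw [zpow_negSucc, zpow_negSucc]
        refine (hu.pow hlam (n + 1)).inv hlam ?_
        rw [map_pow, hu1, one_pow]
    have hdm : d ^ m ∈ B := B.zpow_mem hd m
    have hedm : e (d ^ m) = (e d) ^ m := _root_.map_zpow₀ he.hom.toHom (⟨d, hd⟩ : B) m
    have hbd : b * d ^ m ∈ B := B.mul_mem hb hdm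
    have hbdO : b * d ^ m ∈ O := by
      rw [← O.valuation_le_one_iff, map_mul, map_zpow₀] at hO ⊢
      rw [← hdv]
      exact hO
    have h1 := (he.rl hB hbd hbdO).mul hlam huz
    have h2 : b * d ^ m * ((z - a) / d) ^ m = b * (z - a) ^ m := by
      rw [div_zpow]
      have : d ^ m ≠ 0 := zpow_ne_zero m hd0
      field_simp
    have h3 : e (b * d ^ m) * ((z' - e a) / e d) ^ m = e b * (z' - e a) ^ m := by
      rw [he.hom.mul b hb _ hdm, hedm, div_zpow]
      have : e d ^ m ≠ 0 := zpow_ne_zero m hed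
      field_simp
    rw [h2, h3] at h1
    exact h1
  · push Not at hc
    rcases m with n | n
    · rw [Int.ofNat_eq_natCast, zpow_natCast, zpow_natCast] at *
      rcases Nat.eq_zero_or_pos n with hn | hn
      · rw [hn, pow_zero, mul_one] at hO ⊢
        rw [pow_zero, mul_one]
        exact he.rl hB hb hO
      · obtain ⟨d, hd, hd0, hdv⟩ := hW.divisible (B.inv_mem hb) (inv_ne_zero hb0) hn
        have hvd : O.valuation d ≠ 0 := by rwa [Ne, Valuation.zero_iff]
        have hed : e d ≠ 0 := fun h => hd0 ((he.hom.eq_zero_iff hd).1 h)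
        have hvbd : O.valuation b * O.valuation d ^ n = 1 := by
          rw [hdv, map_inv₀, mul_inv_cancel₀ hvb]
        have h1 : O.valuation (z - a) < O.valuation d := by
          refine lt_of_le_of_ne ?_ (hc d hd)
          rw [← O.valuation_le_one_iff, map_mul, map_pow, ← hvbd] at hO
          have h2 := (mul_le_mul_iff_right₀ (zero_lt_iff.2 hvb)).1 hO
          exact (pow_le_pow_iff_left₀ zero_le zero_le hn.ne').1 h2
        have h2 : O.valuation ((z - a) / d) < 1 := by
          rw [map_div₀, div_lt_one₀ (zero_lt_iff.2 hvd)]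
          exact h1
        have h3 : Rl O O' N lam ((z - a) / d) ((z' - e a) / e d) :=
          ⟨N.div_mem hwN (hB hd), vlt_mem O h2, (hlin' d hd hd0).1 (vlt_mem O h2)⟩
        have h4 := (h3.lt_iff hlam).2 h2
        have hbdB : b * d ^ n ∈ B := B.mul_mem hb (B.pow_mem hd n)
        have hvbd2 : O.valuation (b * d ^ n) = 1 := by rw [map_mul, map_pow]; exact hvbd
        have h5 : O'.valuation (e (b * d ^ n)) = 1 :=
          ((he.rl hB hbdB ((O.valuation_le_one_iff _).1 hvbd2.le)).eq_iff hlam).2 hvbd2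
        refine hsmall _ _ (N.mul_mem (hB hb) (N.pow_mem hwN n)) ?_ ?_
        · have h6 : b * (z - a) ^ n = (b * d ^ n) * ((z - a) / d) ^ n := by
            rw [div_pow]
            field_simp
          rw [h6, map_mul, hvbd2, one_mul, map_pow]
          exact pow_lt_one₀ zero_le h2 hn.ne'
        · have h6 : e b * (z' - e a) ^ n = e (b * d ^ n) * ((z' - e a) / e d) ^ n := by
            rw [he.hom.mul b hb _ (B.pow_mem hd n), he.hom.map_pow hd, div_pow]
            field_simp
          rw [h6, map_mul, h5, one_mul, map_pow]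
          exact pow_lt_one₀ zero_le h4 hn.ne'
    · rw [zpow_negSucc, zpow_negSucc] at *
      have hn : 0 < n + 1 := Nat.succ_pos n
      obtain ⟨d, hd, hd0, hdv⟩ := hW.divisible hb hb0 hn
      have hvd : O.valuation d ≠ 0 := by rwa [Ne, Valuation.zero_iff]
      have hed : e d ≠ 0 := fun h => hd0 ((he.hom.eq_zero_iff hd).1 h)
      have hvwn : O.valuation (z - a) ^ (n + 1) ≠ 0 := pow_ne_zero _ hvw
      have h1 : O.valuation d < O.valuation (z - a) := by
        refine lt_of_le_of_ne ?_ (hc d hd).symm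
        rw [← O.valuation_le_one_iff, map_mul, map_inv₀, map_pow, ← hdv, ← div_eq_mul_inv,
          div_le_one₀ (zero_lt_iff.2 hvwn)] at hO
        exact (pow_le_pow_iff_left₀ zero_le zero_le hn.ne').1 hO
      have h2 : O.valuation (d / (z - a)) < 1 := by
        rw [map_div₀, div_lt_one₀ (zero_lt_iff.2 hvw)]
        exact h1
      have hnO : (z - a) / d ∉ O := by
        rw [← O.valuation_le_one_iff, not_le, map_div₀, one_lt_div₀ (zero_lt_iff.2 hvd)]
        exact h1
      have h4 := (hlin' d hd hd0).2 hnO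
      have hbdB : b / d ^ (n + 1) ∈ B := B.div_mem hb (B.pow_mem hd _)
      have hvbd2 : O.valuation (b / d ^ (n + 1)) = 1 := by
        rw [map_div₀, map_pow, hdv, div_self hvb]
      have h5 : O'.valuation (e (b / d ^ (n + 1))) = 1 :=
        ((he.rl hB hbdB ((O.valuation_le_one_iff _).1 hvbd2.le)).eq_iff hlam).2 hvbd2
      refine hsmall _ _ (N.mul_mem (hB hb) (N.inv_mem (N.pow_mem hwN _))) ?_ ?_
      · have h6 : b * ((z - a) ^ (n + 1))⁻¹ = (b / d ^ (n + 1)) * (d / (z - a)) ^ (n + 1) := by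
          rw [div_pow]
          field_simp
        rw [h6, map_mul, hvbd2, one_mul, map_pow]
        exact pow_lt_one₀ zero_le h2 hn.ne'
      · have h6 : e b * ((z' - e a) ^ (n + 1))⁻¹ =
            e (b / d ^ (n + 1)) * (e d / (z' - e a)) ^ (n + 1) := by
          rw [he.hom.map_div hb (B.pow_mem hd _), he.hom.map_pow hd, div_pow]
          field_simp
        rw [h6, map_mul, h5, one_mul, map_pow]
        exact pow_lt_one₀ zero_le h4 hn.ne'

omit [IsAlgClosed Ω'] [CharP Ω' p] in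
/-- Division by the dominant term. -/
theorem dom_rl {N : Subfield Ω} {K' : Subfield Ω'} {lam : Ω → Ω'}
    (hlam : AHom O N O' K' lam) {B : Subfield Ω} (hB : B ≤ N) (hW : W p O B) {e : Ω → Ω'}
    (he : Good O O' K' lam B e) {z : Ω} (hz : z ∈ N) (hzB : z ∉ B) {z' : Ω'}
    (hlin : LinType O O' lam B e z z') {a : Ω} (ha : a ∈ B) {T : Polynomial B} {k : ℕ}
    (hT : DomK O T (z - a) k) :
    Rl O O' N lam (aeval (z - a) T / (((T.coeff k : B) : Ω) * (z - a) ^ k))
      (T.eval₂ he.hom.toHom (z' - e a) / (e (T.coeff k) * (z' - e a) ^ k)) ∧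
    O.valuation (aeval (z - a) T / (((T.coeff k : B) : Ω) * (z - a) ^ k)) = 1 := by
  obtain ⟨hw', -⟩ := hlin a ha
  have hw : z - a ≠ 0 := fun h => hzB (by rw [sub_eq_zero.1 h]; exact ha)
  have hk0 : ((T.coeff k : B) : Ω) ≠ 0 := fun h => hT.1 (Subtype.ext h)
  have hek0 : e (T.coeff k) ≠ 0 := fun h => hk0 ((he.hom.eq_zero_iff (T.coeff k).2).1 h)
  have hden : ((T.coeff k : B) : Ω) * (z - a) ^ k ≠ 0 := mul_ne_zero hk0 (pow_ne_zero _ hw)
  have hvden : O.valuation (((T.coeff k : B) : Ω) * (z - a) ^ k) ≠ 0 := by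
    rwa [Ne, Valuation.zero_iff]
  have hsum : aeval (z - a) T / (((T.coeff k : B) : Ω) * (z - a) ^ k) =
      ∑ i ∈ Finset.range (T.natDegree + 1), ((T.coeff i : B) : Ω) * (z - a) ^ i /
        (((T.coeff k : B) : Ω) * (z - a) ^ k) := by
    rw [aeval_eq_sum_range, Finset.sum_div]
    rfl
  have hterm : ∀ i, ((T.coeff i : B) : Ω) * (z - a) ^ i / (((T.coeff k : B) : Ω) * (z - a) ^ k) =
      ((T.coeff i : B) : Ω) / ((T.coeff k : B) : Ω) * (z - a) ^ ((i : ℤ) - (k : ℤ)) := by
    intro i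
    rw [zpow_sub₀ hw, zpow_natCast, zpow_natCast, mul_div_mul_comm]
  have hvle : ∀ i, i ≠ k → O.valuation (((T.coeff i : B) : Ω) * (z - a) ^ i /
      (((T.coeff k : B) : Ω) * (z - a) ^ k)) < 1 := by
    intro i hi
    rw [map_div₀, div_lt_one₀ (zero_lt_iff.2 hvden)]
    exact hT.2 i hi
  constructor
  · rw [hsum, eval₂_eq_sum_range, Finset.sum_div]
    refine Rl.sum hlam _ fun i _ => ?_
    have h1 : ((T.coeff i : B) : Ω) / ((T.coeff k : B) : Ω) ∈ B :=
      B.div_mem (T.coeff i).2 (T.coeff k).2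
    have h2 : ((T.coeff i : B) : Ω) / ((T.coeff k : B) : Ω) * (z - a) ^ ((i : ℤ) - (k : ℤ)) ∈ O := by
      rw [← hterm]
      by_cases hik : i = k
      · rw [hik, div_self hden]
        exact O.one_mem
      · exact vlt_mem O (hvle i hik)
    have h3 := lin_transfer p O O' hlam hB hW he hz hzB hlin ha h1 ((i : ℤ) - (k : ℤ)) h2
    rw [hterm]
    have h4 : he.hom.toHom (T.coeff i) * (z' - e a) ^ i / (e (T.coeff k) * (z' - e a) ^ k) =
        e (((T.coeff i : B) : Ω) / ((T.coeff k : B) : Ω)) *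
          (z' - e a) ^ ((i : ℤ) - (k : ℤ)) := by
      rw [zpow_sub₀ hw', zpow_natCast, zpow_natCast, he.hom.map_div (T.coeff i).2 (T.coeff k).2,
        HomOn.toHom_apply, mul_div_mul_comm]
    rw [h4]
    exact h3
  · have hkmem : k ∈ Finset.range (T.natDegree + 1) :=
      Finset.mem_range.2 (Nat.lt_succ_of_le (le_natDegree_of_ne_zero hT.1))
    rw [hsum, ← Finset.add_sum_erase _ _ hkmem, div_self hden]
    have h5 : O.valuation (∑ i ∈ (Finset.range (T.natDegree + 1)).erase k,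
        ((T.coeff i : B) : Ω) * (z - a) ^ i / (((T.coeff k : B) : Ω) * (z - a) ^ k)) <
        O.valuation (1 : Ω) := by
      rw [map_one]
      exact Valuation.map_sum_lt _ one_ne_zero fun i hi => hvle i (Finset.ne_of_mem_erase hi)
    rw [Valuation.map_add_eq_of_lt_left _ h5, map_one]

omit [IsAlgClosed Ω] [Fact p.Prime] [CharP Ω p] [IsAlgClosed Ω'] [CharP Ω' p] in
theorem aeval_taylor_sub {B : Subfield Ω} (P : Polynomial B) (a : B) (z : Ω) :
    aeval (z - a) (taylor a P) = aeval z P := by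
  rw [aeval_def, taylor_apply, eval₂_comp, eval₂_add, eval₂_X, eval₂_C, aeval_def]
  congr 1
  have : algebraMap B Ω a = (a : Ω) := rfl
  rw [this]
  ring

omit [IsAlgClosed Ω] [Fact p.Prime] [CharP Ω p] [IsAlgClosed Ω'] [CharP Ω' p] in
theorem eval₂_taylor_sub {B : Subfield Ω} (φ : B →+* Ω') (P : Polynomial B) (a : B) (z : Ω') :
    (taylor a P).eval₂ φ (z - φ a) = P.eval₂ φ z := by
  rw [taylor_apply, eval₂_comp, eval₂_add, eval₂_X, eval₂_C]
  congr 1
  ring

theorem F2bc {N : Subfield Ω} {K' : Subfield Ω'} {lam : Ω → Ω'} (hlam : AHom O N O' K' lam)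
    {B : Subfield Ω} (hB : B ≤ N) (hW : W p O B) (hres : ResEq O B N) {e : Ω → Ω'}
    (he : Good O O' K' lam B e) {z : Ω} (hz : z ∈ N) (hzB : z ∉ B) {z' : Ω'} (hz' : z' ∈ K')
    (hlin : LinType O O' lam B e z z') :
    ∃ e1 : Ω → Ω', Good O O' K' lam (adj B {z}) e1 ∧ ∀ x ∈ B, e1 x = e x := by
  have hne : ∀ x : Ω, O.valuation x = 1 → x ≠ 0 := fun x h h0 => by
    rw [h0, map_zero] at h; exact zero_ne_one h
  have hne' : ∀ x : Ω', O'.valuation x = 1 → x ≠ 0 := fun x h h0 => by
    rw [h0, map_zero] at h; exact zero_ne_one h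
  have hker : ∀ P : Polynomial B, aeval z P = 0 ↔ P.eval₂ he.hom.toHom z' = 0 := by
    intro P
    by_cases hP : P = 0
    · rw [hP]
      simp
    obtain ⟨a, k, -, hk, -⟩ := exists_dom hB hW hres hz hzB P P hP hP
    obtain ⟨h1, h2⟩ := dom_rl p O O' hlam hB hW he hz hzB hlin a.2 hk
    have h3 := hne _ h2
    have h4 := hne' _ ((h1.eq_iff hlam).2 h2)
    rw [aeval_taylor_sub] at h3
    have h5 : (z' - e a : Ω') = z' - he.hom.toHom a := rfl
    rw [h5, eval₂_taylor_sub] at h4
    constructor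
    · intro h
      rw [h, zero_div] at h3
      exact absurd rfl h3
    · intro h
      rw [h, zero_div] at h4
      exact absurd rfl h4
  obtain ⟨e1, h1, h2, h3, h4, h5⟩ := exists_ext_simple he.hom z z' hker
  refine ⟨e1, ⟨h1, ?_, ?_⟩, h2⟩
  · intro x hx
    obtain ⟨P, Q, hQ, rfl⟩ := h4 x hx
    rw [h5 P Q hQ]
    exact K'.div_mem (eval₂_mem he hz' P) (eval₂_mem he hz' Q)
  · intro x hx hxO
    obtain ⟨P, Q, hQ, rfl⟩ := h4 x hx
    by_cases hP : P = 0
    · rw [hP, map_zero, zero_div, h1.map_zero]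
      exact (Rl.zero hlam).res
    have hQne : Q ≠ 0 := fun h => hQ (by rw [h, map_zero])
    obtain ⟨a, k, l, hk, hl⟩ := exists_dom hB hW hres hz hzB P Q hP hQne
    obtain ⟨p1, p2⟩ := dom_rl p O O' hlam hB hW he hz hzB hlin a.2 hk
    obtain ⟨q1, q2⟩ := dom_rl p O O' hlam hB hW he hz hzB hlin a.2 hl
    obtain ⟨hw', -⟩ := hlin a a.2
    have hw : z - a ≠ 0 := fun h => hzB (by rw [sub_eq_zero.1 h]; exact a.2)
    have hkc : (((taylor a P).coeff k : B) : Ω) ≠ 0 := fun h => hk.1 (Subtype.ext h)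
    have hlc : (((taylor a Q).coeff l : B) : Ω) ≠ 0 := fun h => hl.1 (Subtype.ext h)
    have hek0 : e ((taylor a P).coeff k) ≠ 0 := fun h =>
      hkc ((he.hom.eq_zero_iff ((taylor a P).coeff k).2).1 h)
    have hel0 : e ((taylor a Q).coeff l) ≠ 0 := fun h =>
      hlc ((he.hom.eq_zero_iff ((taylor a Q).coeff l).2).1 h)
    have hbB : (((taylor a P).coeff k : B) : Ω) / (((taylor a Q).coeff l : B) : Ω) ∈ B :=
      B.div_mem ((taylor a P).coeff k).2 ((taylor a Q).coeff l).2
    have hx2 : aeval z P / aeval z Q =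
        ((((taylor a P).coeff k : B) : Ω) / (((taylor a Q).coeff l : B) : Ω) *
          (z - a) ^ ((k : ℤ) - (l : ℤ))) *
        (aeval (z - a) (taylor a P) / ((((taylor a P).coeff k : B) : Ω) * (z - a) ^ k) /
        (aeval (z - a) (taylor a Q) / ((((taylor a Q).coeff l : B) : Ω) * (z - a) ^ l))) := by
      rw [aeval_taylor_sub, aeval_taylor_sub, zpow_sub₀ hw, zpow_natCast, zpow_natCast]
      field_simp
    have hyO : (((taylor a P).coeff k : B) : Ω) / (((taylor a Q).coeff l : B) : Ω) *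
          (z - a) ^ ((k : ℤ) - (l : ℤ)) ∈ O := by
      rw [hx2, ← O.valuation_le_one_iff, map_mul, map_div₀ O.valuation (aeval _ _ / _), p2, q2,
        div_one, mul_one, O.valuation_le_one_iff] at hxO
      exact hxO
    have hrl := (lin_transfer p O O' hlam hB hW he hz hzB hlin a.2 hbB _ hyO).mul hlam
      (p1.div hlam q1 q2)
    rw [← hx2] at hrl
    have hval : e1 (aeval z P / aeval z Q) =
        e ((((taylor a P).coeff k : B) : Ω) / (((taylor a Q).coeff l : B) : Ω)) *
          (z' - e a) ^ ((k : ℤ) - (l : ℤ)) *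
        ((taylor a P).eval₂ he.hom.toHom (z' - e a) /
          (e ((taylor a P).coeff k) * (z' - e a) ^ k) /
        ((taylor a Q).eval₂ he.hom.toHom (z' - e a) /
          (e ((taylor a Q).coeff l) * (z' - e a) ^ l))) := by
      have h6 : ∀ R : Polynomial B, (taylor a R).eval₂ he.hom.toHom (z' - e a) =
          R.eval₂ he.hom.toHom z' := fun R => eval₂_taylor_sub he.hom.toHom R a z'
      have hQ' : Q.eval₂ he.hom.toHom z' ≠ 0 := fun h => hQ ((hker Q).2 h)
      rw [h5 P Q hQ, h6, h6, zpow_sub₀ hw', zpow_natCast, zpow_natCast,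
        he.hom.map_div ((taylor a P).coeff k).2 ((taylor a Q).coeff l).2]
      field_simp
    rw [hval]
    exact hrl.res

end Pool.Agent.H92.Tilt
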