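import Pool.Agent.H92.Tilt.F1

/-!
Auxiliary lemmas for module F2 (helper30): dominant Taylor terms.
-/

set_option autoImplicit false

namespace Pool.Agent.H92.Tilt

open Polynomial

section One

variable {Ω : Type*} [Field Ω]

/-- The value group of a field with `W` is divisible. -/
theorem W.divisible {p : ℕ} [Fact p.Prime] [CharP Ω p] [IsAlgClosed Ω] {O : ValuationSubring Ω}
    {B : Subfield Ω} (hW : W p O B) {b : Ω} (hb : b ∈ B) (hb0 : b ≠ 0) {n : ℕ} (hn : 0 < n) :
    ∃ d ∈ B, d ≠ 0 ∧ O.valuation d ^ n = O.valuation b := by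
  obtain ⟨y, hy⟩ := IsAlgClosed.exists_pow_nat_eq b hn
  have hy0 : y ≠ 0 := fun h => hb0 (by rw [← hy, h, zero_pow hn.ne'])
  have halg : y ∈ acl B := by
    rw [mem_acl]
    have h1 : IsAlgebraic B (y ^ n) := by
      rw [hy]
      exact isAlgebraic_of_mem hb
    exact h1.of_pow hn
  obtain ⟨d, hd, hd1⟩ := W.valEq_acl p O hW y halg hy0
  refine ⟨d, hd, ?_, ?_⟩
  · intro h
    rw [h, map_zero, Valuation.zero_iff] at hd1
    exact hy0 hd1
  · rw [← hd1, ← map_pow, hy]

/-- Dominant constant term at `w`. -/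
def Dom0 (O : ValuationSubring Ω) (T : Polynomial Ω) (w : Ω) : Prop :=
  T.coeff 0 ≠ 0 ∧ ∀ j, 0 < j → O.valuation (T.coeff j * w ^ j) < O.valuation (T.coeff 0)

theorem Dom0.mul {O : ValuationSubring Ω} {T S : Polynomial Ω} {w : Ω} (hT : Dom0 O T w)
    (hS : Dom0 O S w) : Dom0 O (T * S) w := by
  have h0 : (T * S).coeff 0 = T.coeff 0 * S.coeff 0 := Polynomial.mul_coeff_zero T S
  refine ⟨by rw [h0]; exact mul_ne_zero hT.1 hS.1, fun j hj => ?_⟩
  rw [h0, Polynomial.coeff_mul, Finset.sum_mul]
  have hT0 : O.valuation (T.coeff 0) ≠ 0 := by rw [Ne, Valuation.zero_iff]; exact hT.1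
  have hS0 : O.valuation (S.coeff 0) ≠ 0 := by rw [Ne, Valuation.zero_iff]; exact hS.1
  have hle : ∀ (R : Polynomial Ω), Dom0 O R w → ∀ i,
      O.valuation (R.coeff i * w ^ i) ≤ O.valuation (R.coeff 0) := by
    intro R hR i
    rcases Nat.eq_zero_or_pos i with h | h
    · rw [h, pow_zero, mul_one]
    · exact (hR.2 i h).le
  refine Valuation.map_sum_lt _ ?_ ?_
  · rw [Ne, Valuation.zero_iff]
    exact mul_ne_zero hT.1 hS.1
  · rintro ⟨a, b⟩ hab
    have hab : a + b = j := Finset.HasAntidiagonal.mem_antidiagonal.1 hab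
    have h1 : T.coeff a * S.coeff b * w ^ j = (T.coeff a * w ^ a) * (S.coeff b * w ^ b) := by
      rw [← hab, pow_add]; ring
    rw [h1, map_mul O.valuation (T.coeff a * w ^ a), map_mul O.valuation (T.coeff 0)]
    rcases Nat.eq_zero_or_pos a with h | h
    · have hb : 0 < b := by omega
      exact mul_lt_mul_of_le_of_lt_of_nonneg_of_pos (hle T hT a) (hS.2 b hb) zero_le
        (zero_lt_iff.2 hT0)
    · rw [mul_comm (O.valuation (T.coeff a * w ^ a)), mul_comm (O.valuation (T.coeff 0))]
      exact mul_lt_mul_of_le_of_lt_of_nonneg_of_pos (hle S hS b) (hT.2 a h) zero_le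
        (zero_lt_iff.2 hS0)

theorem Dom0.const {O : ValuationSubring Ω} {c w : Ω} (hc : c ≠ 0) : Dom0 O (C c) w := by
  refine ⟨by rwa [Polynomial.coeff_C_zero], fun j hj => ?_⟩
  rw [Polynomial.coeff_C_of_ne_zero hj.ne', zero_mul, map_zero, Polynomial.coeff_C_zero]
  exact zero_lt_iff.2 (by rwa [Ne, Valuation.zero_iff])

theorem Dom0.linear {O : ValuationSubring Ω} {β w : Ω} (h : O.valuation w < O.valuation β) :
    Dom0 O (X + C β) w := by
  have h0 : (X + C β : Polynomial Ω).coeff 0 = β := by simp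
  have hβ : β ≠ 0 := fun h1 => by
    rw [h1, map_zero] at h
    exact absurd h not_lt_zero
  refine ⟨by rwa [h0], fun j hj => ?_⟩
  rw [h0]
  rcases j with _ | _ | j
  · exact absurd hj (lt_irrefl 0)
  · simpa using h
  · have : (X + C β : Polynomial Ω).coeff (j + 1 + 1) = 0 := by
      simp [Polynomial.coeff_X]
    rw [this, zero_mul, map_zero]
    exact zero_lt_iff.2 (by rwa [Ne, Valuation.zero_iff])

/-- If all roots of `P` are farther from `z` than `a`, the Taylor expansion at `a` has a
dominant constant term. -/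
theorem dom0_taylor [IsAlgClosed Ω] {O : ValuationSubring Ω} {P : Polynomial Ω} (hP : P ≠ 0)
    {z a : Ω} (h : ∀ α, P.eval α = 0 → O.valuation (z - a) < O.valuation (z - α)) :
    Dom0 O (taylor a P) (z - a) := by
  have h1 : P = C P.leadingCoeff * (P.roots.map (fun α => X - C α)).prod :=
    (IsAlgClosed.splits P).eq_prod_roots
  have h2 : ∀ s : Multiset Ω, (∀ α ∈ s, O.valuation (z - a) < O.valuation (z - α)) →
      Dom0 O (taylor a (s.map (fun α => X - C α)).prod) (z - a) := by
    intro s
    induction s using Multiset.induction_on with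
    | empty =>
      intro _
      rw [Multiset.map_zero, Multiset.prod_zero, taylor_one]
      exact Dom0.const one_ne_zero
    | cons α s ih =>
      intro hs
      rw [Multiset.map_cons, Multiset.prod_cons, taylor_mul]
      refine Dom0.mul ?_ (ih fun β hβ => hs β (Multiset.mem_cons_of_mem hβ))
      have h3 : taylor a (X - C α) = X + C (a - α) := by
        rw [map_sub, taylor_X, taylor_C, C_sub]
        ring
      rw [h3]
      refine Dom0.linear ?_
      have h4 := hs α (Multiset.mem_cons_self α s)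
      have h5 : a - α = (z - α) + (a - z) := by ring
      have h6 : O.valuation (a - z) < O.valuation (z - α) := by
        rw [Valuation.map_sub_swap]; exact h4
      rw [h5, Valuation.map_add_eq_of_lt_left _ h6]
      exact h4
  rw [h1, taylor_mul, taylor_C]
  refine Dom0.mul (Dom0.const (leadingCoeff_ne_zero.2 hP)) (h2 _ fun α hα => h α ?_)
  exact (Polynomial.mem_roots hP).1 hα

/-- In the immediate case every algebraic element is farther from `z` than some element
of `B`. -/
theorem exists_closer {p : ℕ} [Fact p.Prime] [CharP Ω p] [IsAlgClosed Ω]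
    {O : ValuationSubring Ω} {N B : Subfield Ω} (hB : B ≤ N) (hW : W p O B)
    (hres : ResEq O B N) {z : Ω} (hz : z ∈ N) (hzB : z ∉ B)
    (hc : ∀ a ∈ B, ∃ d ∈ B, O.valuation (z - a) = O.valuation d) {α : Ω}
    (hα : IsAlgebraic B α) : ∃ a ∈ B, O.valuation (z - a) < O.valuation (z - α) := by
  obtain ⟨c, hcr, hαc⟩ := (mem_cl_iff p O hW.pcl hW.hcl α).1 (hW.alg α hα)
  have hint : IsIntegral B c := hcr.isAlgebraic.isIntegral
  rw [← mem_adjoin_iff] at hαc
  obtain ⟨P, hP⟩ : ∃ P : Polynomial B, aeval c P = α := by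
    have h1 : α ∈ (IntermediateField.adjoin B {c}).toSubalgebra := hαc
    rw [IntermediateField.adjoin_simple_toSubalgebra_of_isAlgebraic hcr.isAlgebraic,
      Algebra.adjoin_singleton_eq_range_aeval] at h1
    obtain ⟨P, hP⟩ := h1
    exact ⟨P, hP⟩
  set g := minpoly B c with hg
  have hgm : g.Monic := minpoly.monic hint
  have hgd : 0 < g.natDegree := minpoly.natDegree_pos hint
  set R := P %ₘ g with hR
  have hRα : aeval c R = α := by
    rw [hR, Polynomial.modByMonic_eq_sub_mul_div P g, map_sub, map_mul, minpoly.aeval, zero_mul,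
      sub_zero, hP]
  have hRd : R.natDegree < g.natDegree := by
    refine Polynomial.natDegree_modByMonic_lt P hgm ?_
    intro h
    rw [h, natDegree_one] at hgd
    exact lt_irrefl _ hgd
  set a0 : Ω := ((R.coeff 0 : B) : Ω) with ha0
  have ha0B : a0 ∈ B := (R.coeff 0).2
  obtain ⟨d, hd, hdv⟩ := hc a0 ha0B
  have hza : z - a0 ≠ 0 := fun h => hzB (by rw [sub_eq_zero.1 h]; exact ha0B)
  have hvz : O.valuation (z - a0) ≠ 0 := by rwa [Ne, Valuation.zero_iff]
  have hd0 : d ≠ 0 := fun h => by rw [hdv, h, map_zero] at hvz; exact hvz rfl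
  have hvd : O.valuation d ≠ 0 := by rwa [Ne, Valuation.zero_iff]
  have hu : O.valuation ((z - a0) / d) = 1 := by rw [map_div₀, hdv, div_self hvd]
  obtain ⟨b, hb, hbv⟩ := hres ((z - a0) / d) (N.div_mem (N.sub_mem hz (hB ha0B)) (hB hd))
    ((O.valuation_le_one_iff _).1 hu.le)
  have hbv1 : O.valuation b = 1 := by
    have h1 : b = (z - a0) / d + (b - (z - a0) / d) := by ring
    have h2 : O.valuation (b - (z - a0) / d) < O.valuation ((z - a0) / d) := by
      rw [hu, Valuation.map_sub_swap]; exact hbv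
    rw [h1, Valuation.map_add_eq_of_lt_left _ h2, hu]
  set a := a0 + b * d with ha
  have haB : a ∈ B := B.add_mem ha0B (B.mul_mem hb hd)
  have hzalt : O.valuation (z - a) < O.valuation d := by
    have h1 : z - a = d * ((z - a0) / d - b) := by
      rw [ha]; field_simp; ring
    rw [h1, map_mul]
    calc O.valuation d * O.valuation ((z - a0) / d - b) < O.valuation d * 1 :=
          mul_lt_mul_of_pos_left hbv (zero_lt_iff.2 hvd)
      _ = O.valuation d := mul_one _
  -- the polynomial `S = C (a) - R`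
  have haα : O.valuation d ≤ O.valuation (a - α) := by
    set S : Polynomial B := C ⟨a, haB⟩ - R with hS
    have hS1 : aeval c S = a - α := by
      rw [hS, map_sub, aeval_C, hRα]
      rfl
    have hS2 : S.natDegree < g.natDegree := by
      refine lt_of_le_of_lt (Polynomial.natDegree_sub_le _ _) (max_lt ?_ hRd)
      rw [natDegree_C]
      exact hgd
    have h1 := sroot_gauss p O hW.pcl hW.hcl hcr (S.map (algebraMap B Ω))
      (fun i => by rw [coeff_map_sub]; exact (S.coeff i).2)
      (by rw [Polynomial.natDegree_map]; exact hS2) 0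
    rw [coeff_map_sub, ← aeval_eq_eval_map, hS1] at h1
    have h2 : ((S.coeff 0 : B) : Ω) = b * d := by
      have h3 : ((S.coeff 0 : B) : Ω) = a - a0 := by
        rw [hS, coeff_sub, coeff_C_zero]
        rfl
      rw [h3, ha]; ring
    rw [h2, map_mul, hbv1, one_mul] at h1
    exact h1
  refine ⟨a, haB, ?_⟩
  have h7 : z - α = (a - α) + (z - a) := by ring
  have h8 := lt_of_lt_of_le hzalt haα
  rw [h7, Valuation.map_add_eq_of_lt_left _ h8]
  exact h8

theorem exists_closer_multi {p : ℕ} [Fact p.Prime] [CharP Ω p] [IsAlgClosed Ω]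
    {O : ValuationSubring Ω} {N B : Subfield Ω} (hB : B ≤ N) (hW : W p O B)
    (hres : ResEq O B N) {z : Ω} (hz : z ∈ N) (hzB : z ∉ B)
    (hc : ∀ a ∈ B, ∃ d ∈ B, O.valuation (z - a) = O.valuation d) (s : Multiset Ω)
    (hs : ∀ α ∈ s, IsAlgebraic B α) :
    ∃ a ∈ B, ∀ α ∈ s, O.valuation (z - a) < O.valuation (z - α) := by
  induction s using Multiset.induction_on with
  | empty => exact ⟨0, B.zero_mem, fun α hα => absurd hα (Multiset.notMem_zero α)⟩
  | cons α s ih =>
    obtain ⟨a1, h1, h2⟩ := ih fun β hβ => hs β (Multiset.mem_cons_of_mem hβ)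
    obtain ⟨a2, h3, h4⟩ := exists_closer hB hW hres hz hzB hc (hs α (Multiset.mem_cons_self α s))
    rcases le_total (O.valuation (z - a1)) (O.valuation (z - a2)) with h | h
    · refine ⟨a1, h1, fun β hβ => ?_⟩
      rcases Multiset.mem_cons.1 hβ with rfl | hβ
      · exact lt_of_le_of_lt h h4
      · exact h2 β hβ
    · refine ⟨a2, h3, fun β hβ => ?_⟩
      rcases Multiset.mem_cons.1 hβ with rfl | hβ
      · exact h4
      · exact lt_of_le_of_lt h (h2 β hβ)

/-- Dominant term of index `k` at `w`. -/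
def DomK (O : ValuationSubring Ω) {B : Subfield Ω} (T : Polynomial B) (w : Ω) (k : ℕ) : Prop :=
  T.coeff k ≠ 0 ∧ ∀ j, j ≠ k → O.valuation (((T.coeff j : B) : Ω) * w ^ j) <
    O.valuation (((T.coeff k : B) : Ω) * w ^ k)

/-- Common expansion point for two polynomials. -/
theorem exists_dom {p : ℕ} [Fact p.Prime] [CharP Ω p] [IsAlgClosed Ω]
    {O : ValuationSubring Ω} {N B : Subfield Ω} (hB : B ≤ N) (hW : W p O B)
    (hres : ResEq O B N) {z : Ω} (hz : z ∈ N) (hzB : z ∉ B) (P Q : Polynomial B)
    (hP : P ≠ 0) (hQ : Q ≠ 0) : ∃ (a : B) (k l : ℕ), DomK O (taylor a P) (z - a) k ∧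
      DomK O (taylor a Q) (z - a) l := by
  by_cases hc : ∀ a ∈ B, ∃ d ∈ B, O.valuation (z - a) = O.valuation d
  · have hinj : Function.Injective (algebraMap B Ω) := (algebraMap B Ω).injective
    have hP' : P.map (algebraMap B Ω) ≠ 0 := (Polynomial.map_ne_zero_iff hinj).2 hP
    have hQ' : Q.map (algebraMap B Ω) ≠ 0 := (Polynomial.map_ne_zero_iff hinj).2 hQ
    obtain ⟨a, ha, h1⟩ := exists_closer_multi hB hW hres hz hzB hc
      ((P.map (algebraMap B Ω)).roots + (Q.map (algebraMap B Ω)).roots) (by
        intro α hα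
        rcases Multiset.mem_add.1 hα with h | h
        · exact ⟨P, hP, by rw [aeval_eq_eval_map]; exact (Polynomial.mem_roots hP').1 h⟩
        · exact ⟨Q, hQ, by rw [aeval_eq_eval_map]; exact (Polynomial.mem_roots hQ').1 h⟩)
    have key : ∀ R : Polynomial B, R ≠ 0 → (∀ α, (R.map (algebraMap B Ω)).eval α = 0 →
        O.valuation (z - a) < O.valuation (z - α)) → DomK O (taylor ⟨a, ha⟩ R) (z - a) 0 := by
      intro R hR h2
      have h3 := dom0_taylor ((Polynomial.map_ne_zero_iff hinj).2 hR) h2
      have h4 : taylor a (R.map (algebraMap B Ω)) =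
          (taylor (⟨a, ha⟩ : B) R).map (algebraMap B Ω) := by
        rw [Polynomial.map_taylor]
        rfl
      rw [h4] at h3
      refine ⟨fun h5 => h3.1 ?_, fun j hj => ?_⟩
      · rw [coeff_map_sub, h5]
        rfl
      · have h6 := h3.2 j (Nat.pos_of_ne_zero hj)
        rw [coeff_map_sub, coeff_map_sub] at h6
        rw [pow_zero, mul_one]
        exact h6
    refine ⟨⟨a, ha⟩, 0, 0, key P hP fun α hα => h1 α ?_, key Q hQ fun α hα => h1 α ?_⟩
    · exact Multiset.mem_add.2 (Or.inl ((Polynomial.mem_roots hP').2 hα))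
    · exact Multiset.mem_add.2 (Or.inr ((Polynomial.mem_roots hQ').2 hα))
  · push Not at hc
    obtain ⟨a, ha, h1⟩ := hc
    have hw : z - a ≠ 0 := fun h => h1 0 B.zero_mem (by rw [h])
    have hvw : O.valuation (z - a) ≠ 0 := by rwa [Ne, Valuation.zero_iff]
    -- no power of the value of `z - a` is a value of `B`
    have h2 : ∀ n : ℕ, 0 < n → ∀ b ∈ B, b ≠ 0 → O.valuation (z - a) ^ n ≠ O.valuation b := by
      intro n hn b hb hb0 h3
      obtain ⟨d, hd, hd0, h4⟩ := hW.divisible hb hb0 hn
      rw [← h4] at h3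
      exact h1 d hd ((pow_left_inj₀ zero_le zero_le hn.ne').1 h3)
    have key : ∀ T : Polynomial B, T ≠ 0 → ∃ k, DomK O T (z - a) k := by
      intro T hT
      have hne : T.support.Nonempty := Polynomial.support_nonempty.2 hT
      obtain ⟨k, hk, hmax⟩ := Finset.exists_max_image T.support
        (fun j => O.valuation (((T.coeff j : B) : Ω) * (z - a) ^ j)) hne
      have hk0 : T.coeff k ≠ 0 := Polynomial.mem_support_iff.1 hk
      have hcoe : ∀ j, T.coeff j ≠ 0 → ((T.coeff j : B) : Ω) ≠ 0 := fun j hj h => hj (Subtype.ext h)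
      refine ⟨k, hk0, fun j hj => ?_⟩
      by_cases hj0 : T.coeff j = 0
      · rw [hj0]
        have h5 : ((0 : B) : Ω) = 0 := rfl
        rw [h5, zero_mul, map_zero]
        refine zero_lt_iff.2 ?_
        rw [Ne, Valuation.zero_iff]
        exact mul_ne_zero (hcoe k hk0) (pow_ne_zero _ hw)
      · refine lt_of_le_of_ne (hmax j (Polynomial.mem_support_iff.2 hj0)) fun h6 => ?_
        rw [map_mul, map_mul, map_pow, map_pow] at h6
        have hvj : O.valuation ((T.coeff j : B) : Ω) ≠ 0 := by
          rw [Ne, Valuation.zero_iff]; exact hcoe j hj0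
        have hvk : O.valuation ((T.coeff k : B) : Ω) ≠ 0 := by
          rw [Ne, Valuation.zero_iff]; exact hcoe k hk0
        rcases lt_or_gt_of_ne hj with h7 | h7
        · refine h2 (k - j) (by omega) (T.coeff j / T.coeff k : B) (T.coeff j / T.coeff k : B).2
            (by
              have : ((T.coeff j / T.coeff k : B) : Ω) =
                ((T.coeff j : B) : Ω) / ((T.coeff k : B) : Ω) := rfl
              rw [this]
              exact div_ne_zero (hcoe j hj0) (hcoe k hk0)) ?_
          have h8 : ((T.coeff j / T.coeff k : B) : Ω) =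
                ((T.coeff j : B) : Ω) / ((T.coeff k : B) : Ω) := rfl
          rw [h8, map_div₀, eq_div_iff hvk]
          have h9 : O.valuation (z - a) ^ k = O.valuation (z - a) ^ (k - j) *
              O.valuation (z - a) ^ j := by rw [← pow_add]; congr 1; omega
          rw [h9] at h6
          have h10 : O.valuation (z - a) ^ j ≠ 0 := pow_ne_zero _ hvw
          refine mul_right_cancel₀ h10 ?_
          rw [h6, mul_comm (O.valuation (z - a) ^ (k - j)) (O.valuation ((T.coeff k : B) : Ω)),
            mul_assoc]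
        · refine h2 (j - k) (by omega) (T.coeff k / T.coeff j : B) (T.coeff k / T.coeff j : B).2
            (by
              have : ((T.coeff k / T.coeff j : B) : Ω) =
                ((T.coeff k : B) : Ω) / ((T.coeff j : B) : Ω) := rfl
              rw [this]
              exact div_ne_zero (hcoe k hk0) (hcoe j hj0)) ?_
          have h8 : ((T.coeff k / T.coeff j : B) : Ω) =
                ((T.coeff k : B) : Ω) / ((T.coeff j : B) : Ω) := rfl
          rw [h8, map_div₀, eq_div_iff hvj]
          have h9 : O.valuation (z - a) ^ j = O.valuation (z - a) ^ (j - k) *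
              O.valuation (z - a) ^ k := by rw [← pow_add]; congr 1; omega
          rw [h9] at h6
          have h10 : O.valuation (z - a) ^ k ≠ 0 := pow_ne_zero _ hvw
          refine mul_right_cancel₀ h10 ?_
          rw [← h6, mul_comm (O.valuation (z - a) ^ (j - k)) (O.valuation ((T.coeff j : B) : Ω)),
            mul_assoc]
    have hT : ∀ R : Polynomial B, R ≠ 0 → taylor (⟨a, ha⟩ : B) R ≠ 0 := fun R hR h =>
      hR ((Polynomial.taylor_eq_zero _ _).1 h)
    obtain ⟨k, hk⟩ := key _ (hT P hP)
    obtain ⟨l, hl⟩ := key _ (hT Q hQ)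
    exact ⟨⟨a, ha⟩, k, l, hk, hl⟩

end One

end Pool.Agent.H92.Tilt
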