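import Pool.Agent.H92.Tilt.Up
import Pool.Agent.H92.Tilt.F2

/-! Module F3b: see the comment in F3. -/

set_option autoImplicit false

namespace Pool.Agent.H92.Tilt

variable {p : ℕ} [Fact p.Prime]

/-- `x ∈ t ^ n O`. -/
def Tn (M : Pk p) (n : ℕ) (x : M.Om) : Prop := ∃ y ∈ M.O, x = M.t ^ n * y

omit [Fact p.Prime] in
theorem Tn.add {M : Pk p} {n : ℕ} {x y : M.Om} (hx : Tn M n x) (hy : Tn M n y) :
    Tn M n (x + y) := by
  obtain ⟨a, ha, rfl⟩ := hx
  obtain ⟨b, hb, rfl⟩ := hy
  exact ⟨a + b, M.O.add_mem _ _ ha hb, by ring⟩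

omit [Fact p.Prime] in
theorem Tn.mul {M : Pk p} {n : ℕ} {x y : M.Om} (hx : Tn M n x) (hy : y ∈ M.O) :
    Tn M n (x * y) := by
  obtain ⟨a, ha, rfl⟩ := hx
  exact ⟨a * y, M.O.mul_mem _ _ ha hy, by ring⟩

omit [Fact p.Prime] in
theorem Tn.neg {M : Pk p} {n : ℕ} {x : M.Om} (hx : Tn M n x) : Tn M n (-x) := by
  obtain ⟨a, ha, rfl⟩ := hx
  exact ⟨-a, M.O.neg_mem _ ha, by ring⟩

omit [Fact p.Prime] in
theorem Tn.pred {M : Pk p} {n : ℕ} {x : M.Om} (hx : Tn M (n + 1) x) : Tn M n x := by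
  obtain ⟨a, ha, rfl⟩ := hx
  exact ⟨M.t * a, M.O.mul_mem _ _ M.t_mem ha, by ring⟩

omit [Fact p.Prime] in
theorem Tn.mono {M : Pk p} {n m : ℕ} (h : m ≤ n) {x : M.Om} (hx : Tn M n x) : Tn M m x := by
  obtain ⟨k, rfl⟩ := Nat.exists_eq_add_of_le h
  obtain ⟨a, ha, rfl⟩ := hx
  exact ⟨M.t ^ k * a, M.O.mul_mem _ _ (pow_mem M.t_mem k) ha, by ring⟩

omit [Fact p.Prime] in
/-- `1 - x` is a unit for `x ∈ t ^ (n + 1) O`. -/
theorem Tn.unit {M : Pk p} {n : ℕ} {x : M.Om} (hx : Tn M (n + 1) x) :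
    1 - x ≠ 0 ∧ (1 - x)⁻¹ ∈ M.O := by
  obtain ⟨a, ha, rfl⟩ := hx
  have h1 : M.O.valuation (M.t ^ (n + 1) * a) < 1 := by
    have h2 : M.t ^ (n + 1) * a = (M.t ^ n * a) * M.t := by ring
    rw [h2]
    exact vlt_mul M.O (M.O.mul_mem _ _ (pow_mem M.t_mem n) ha) M.tm
  have h3 : M.O.valuation (1 - M.t ^ (n + 1) * a) = 1 := by
    rw [sub_eq_add_neg, Valuation.map_add_eq_of_lt_left, map_one]
    rw [map_one, Valuation.map_neg]
    exact h1
  constructor
  · intro h
    rw [h, map_zero] at h3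
    exact zero_ne_one h3
  · rw [← M.O.valuation_le_one_iff, map_inv₀, h3, inv_one]

theorem Tn.of_lt {M : Pk p} {x : M.Om} (h : M.O1.valuation x < 1) (n : ℕ) : Tn M n x :=
  (Pk.val1_lt M x).1 h n

omit [Fact p.Prime] in
/-- A common power of `t` makes finitely many elements of `O1` integral. -/
theorem exists_common (M : Pk p) (D : Finset M.Om) (f : M.Om → M.Om) (h : ∀ x ∈ D, f x ∈ M.O1) :
    ∃ k : ℕ, ∀ x ∈ D, M.t ^ k * f x ∈ M.O := by
  classical
  induction D using Finset.induction_on with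
  | empty => exact ⟨0, fun x hx => absurd hx (Finset.notMem_empty x)⟩
  | insert a s _ ih =>
    obtain ⟨k, hk⟩ := ih fun x hx => h x (Finset.mem_insert_of_mem hx)
    obtain ⟨m, hm⟩ := (M.mem_O1 _).1 (h a (Finset.mem_insert_self a s))
    refine ⟨k + m, fun x hx => ?_⟩
    rcases Finset.mem_insert.1 hx with rfl | hx
    · have h1 : M.t ^ (k + m) * f x = M.t ^ k * (M.t ^ m * f x) := by ring
      rw [h1]
      exact M.O.mul_mem _ _ (pow_mem M.t_mem k) hm
    · have h1 : M.t ^ (k + m) * f x = M.t ^ m * (M.t ^ k * f x) := by ring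
      rw [h1]
      exact M.O.mul_mem _ _ (pow_mem M.t_mem m) (hk x hx)

section Fin

variable {M M' : Pk p} {N B : Subfield M.Om} {lam e : M.Om → M'.Om}

/-- An element in a given finite cut of values. -/
theorem exists_cut (hBN : B ≤ N) (hlam : AHom M.O1 N M'.O1 M'.K lam) (hW : W p M.O1 B)
    (he : Good M.O1 M'.O1 M'.K lam B e) {w : M.Om}
    (D : Finset M.Om) (hD : ∀ f ∈ D, f ∈ B ∧ f ≠ 0) (n : ℕ) :
    ∃ w' ∈ M'.K, w' ≠ 0 ∧ ∀ f ∈ D,
      (M.O1.valuation w < M.O1.valuation f → Tn M' n (w' / e f)) ∧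
      (M.O1.valuation f < M.O1.valuation w → Tn M' n (e f / w')) := by
  classical
  have hne : ∀ f ∈ B, f ≠ 0 → e f ≠ 0 := fun f hf h0 h => h0 ((he.hom.eq_zero_iff hf).1 h)
  have hv0 : ∀ f : M.Om, f ≠ 0 → M.O1.valuation f ≠ 0 := fun f hf => by
    rwa [Ne, Valuation.zero_iff]
  have htn : ∀ x ∈ B, ∀ y ∈ B, y ≠ 0 → M.O1.valuation x < M.O1.valuation y →
      Tn M' n (e x / e y) := by
    intro x hx y hy hy0 h
    have h1 : M.O1.valuation (x / y) < 1 := by
      rw [map_div₀, div_lt_one₀ (zero_lt_iff.2 (hv0 y hy0))]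
      exact h
    have h2 := ((he.rl hBN (B.div_mem hx hy) (vlt_mem _ h1)).lt_iff hlam).2 h1
    rw [he.hom.map_div hx hy] at h2
    exact Tn.of_lt h2 n
  have hO1 : ∀ x ∈ B, ∀ y ∈ B, y ≠ 0 → M.O1.valuation x ≤ M.O1.valuation y →
      e x / e y ∈ M'.O1 := by
    intro x hx y hy hy0 h
    have h1 : x / y ∈ M.O1 := by
      rw [← M.O1.valuation_le_one_iff, map_div₀, div_le_one₀ (zero_lt_iff.2 (hv0 y hy0))]
      exact h
    have h2 := (he.rl hBN (B.div_mem hx hy) h1).memO' hlam
    rwa [he.hom.map_div hx hy] at h2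
  set Dp := D.filter (fun f => M.O1.valuation w < M.O1.valuation f) with hDp
  set Dm := D.filter (fun f => M.O1.valuation f < M.O1.valuation w) with hDm
  have hDp1 : ∀ f, f ∈ Dp ↔ f ∈ D ∧ M.O1.valuation w < M.O1.valuation f := fun f =>
    Finset.mem_filter
  have hDm1 : ∀ f, f ∈ Dm ↔ f ∈ D ∧ M.O1.valuation f < M.O1.valuation w := fun f =>
    Finset.mem_filter
  rcases Dp.eq_empty_or_nonempty with hp | hp <;> rcases Dm.eq_empty_or_nonempty with hm | hm
  · refine ⟨1, M'.K.one_mem, one_ne_zero, fun f hf => ⟨fun h => ?_, fun h => ?_⟩⟩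
    · have := (hDp1 f).2 ⟨hf, h⟩
      rw [hp] at this
      exact absurd this (Finset.notMem_empty f)
    · have := (hDm1 f).2 ⟨hf, h⟩
      rw [hm] at this
      exact absurd this (Finset.notMem_empty f)
  · obtain ⟨d, hd, hmax⟩ := Finset.exists_max_image Dm (fun f => M.O1.valuation f) hm
    have hdD := ((hDm1 d).1 hd).1
    obtain ⟨hdB, hd0⟩ := hD d hdD
    obtain ⟨k, hk⟩ := exists_common M' (Dm.image e) (fun x => x / e d) (by
      intro x hx
      obtain ⟨f, hf, rfl⟩ := Finset.mem_image.1 hx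
      exact hO1 f (hD f ((hDm1 f).1 hf).1).1 d hdB hd0 (hmax f hf))
    have ht : M'.t ^ (n + k) ≠ 0 := pow_ne_zero _ M'.t0
    refine ⟨e d / M'.t ^ (n + k), M'.K.div_mem (he.rng d hdB) (M'.K.pow_mem M'.t_mem_K _),
      div_ne_zero (hne d hdB hd0) ht, fun f hf => ⟨fun h => ?_, fun h => ?_⟩⟩
    · have := (hDp1 f).2 ⟨hf, h⟩
      rw [hp] at this
      exact absurd this (Finset.notMem_empty f)
    · have h1 := hk (e f) (Finset.mem_image_of_mem e ((hDm1 f).2 ⟨hf, h⟩))
      refine ⟨M'.t ^ k * (e f / e d), h1, ?_⟩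
      have h2 := hne d hdB hd0
      field_simp
      ring
  · obtain ⟨d, hd, hmin⟩ := Finset.exists_min_image Dp (fun f => M.O1.valuation f) hp
    have hdD := ((hDp1 d).1 hd).1
    obtain ⟨hdB, hd0⟩ := hD d hdD
    obtain ⟨k, hk⟩ := exists_common M' (Dp.image e) (fun x => e d / x) (by
      intro x hx
      obtain ⟨f, hf, rfl⟩ := Finset.mem_image.1 hx
      have hfD := hD f ((hDp1 f).1 hf).1
      exact hO1 d hdB f hfD.1 hfD.2 (hmin f hf))
    have ht : M'.t ^ (n + k) ≠ 0 := pow_ne_zero _ M'.t0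
    refine ⟨e d * M'.t ^ (n + k), M'.K.mul_mem (he.rng d hdB) (M'.K.pow_mem M'.t_mem_K _),
      mul_ne_zero (hne d hdB hd0) ht, fun f hf => ⟨fun h => ?_, fun h => ?_⟩⟩
    · have h1 := hk (e f) (Finset.mem_image_of_mem e ((hDp1 f).2 ⟨hf, h⟩))
      refine ⟨M'.t ^ k * (e d / e f), h1, ?_⟩
      ring
    · have := (hDm1 f).2 ⟨hf, h⟩
      rw [hm] at this
      exact absurd this (Finset.notMem_empty f)
  · obtain ⟨d1, hd1, hmin⟩ := Finset.exists_min_image Dp (fun f => M.O1.valuation f) hp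
    obtain ⟨d2, hd2, hmax⟩ := Finset.exists_max_image Dm (fun f => M.O1.valuation f) hm
    obtain ⟨hd1B, hd10⟩ := hD d1 ((hDp1 d1).1 hd1).1
    obtain ⟨hd2B, hd20⟩ := hD d2 ((hDm1 d2).1 hd2).1
    have hlt : M.O1.valuation d2 < M.O1.valuation d1 :=
      ((hDm1 d2).1 hd2).2.trans ((hDp1 d1).1 hd1).2
    obtain ⟨d, hd, hd0, hdv⟩ := hW.divisible (B.mul_mem hd1B hd2B) (mul_ne_zero hd10 hd20)
      (n := 2) (by norm_num)
    rw [map_mul] at hdv
    have h1 : M.O1.valuation d < M.O1.valuation d1 := by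
      by_contra hcon
      have h2 := not_lt.1 hcon
      have h3 : M.O1.valuation d1 * M.O1.valuation d2 < M.O1.valuation d ^ 2 := by
        calc M.O1.valuation d1 * M.O1.valuation d2
            < M.O1.valuation d1 * M.O1.valuation d1 :=
              mul_lt_mul_of_pos_left hlt (zero_lt_iff.2 (hv0 d1 hd10))
          _ ≤ M.O1.valuation d * M.O1.valuation d := mul_le_mul' h2 h2
          _ = M.O1.valuation d ^ 2 := (sq _).symm
      rw [hdv] at h3
      exact lt_irrefl _ h3
    have h2 : M.O1.valuation d2 < M.O1.valuation d := by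
      by_contra hcon
      have h2 := not_lt.1 hcon
      have h3 : M.O1.valuation d ^ 2 < M.O1.valuation d1 * M.O1.valuation d2 := by
        calc M.O1.valuation d ^ 2 = M.O1.valuation d * M.O1.valuation d := sq _
          _ ≤ M.O1.valuation d2 * M.O1.valuation d2 := mul_le_mul' h2 h2
          _ < M.O1.valuation d1 * M.O1.valuation d2 :=
              mul_lt_mul_of_pos_right hlt (zero_lt_iff.2 (hv0 d2 hd20))
      rw [hdv] at h3
      exact lt_irrefl _ h3
    refine ⟨e d, he.rng d hd, hne d hd hd0, fun f hf => ⟨fun h => ?_, fun h => ?_⟩⟩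
    · have h3 := hmin f ((hDp1 f).2 ⟨hf, h⟩)
      exact htn d hd f (hD f hf).1 (hD f hf).2 (lt_of_lt_of_le h1 h3)
    · have h3 := hmax f ((hDm1 f).2 ⟨hf, h⟩)
      exact htn f (hD f hf).1 d hd hd0 (lt_of_le_of_lt h3 h2)

/-- Finite satisfiability. -/
theorem fin_real (hBN : B ≤ N) (hlam : AHom M.O1 N M'.O1 M'.K lam) (hW : W p M.O1 B)
    (hres : ResEq M.O1 B N) (he : Good M.O1 M'.O1 M'.K lam B e) {z : M.Om} (hz : z ∈ N)
    (hzB : z ∉ B) (S : Finset (M.Om × M.Om)) (n : ℕ) :
    ∃ z' ∈ M'.K, ∀ a d, (a, d) ∈ S → a ∈ B → d ∈ B → d ≠ 0 →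
      z' - e a ≠ 0 ∧
      ((z - a) / d ∈ M.O1 → Tn M' n ((z' - e a) / e d - lam ((z - a) / d))) ∧
      ((z - a) / d ∉ M.O1 → Tn M' n (e d / (z' - e a))) := by
  classical
  have hne : ∀ f ∈ B, f ≠ 0 → e f ≠ 0 := fun f hf h0 h => h0 ((he.hom.eq_zero_iff hf).1 h)
  have hv0 : ∀ f : M.Om, f ≠ 0 → M.O1.valuation f ≠ 0 := fun f hf => by
    rwa [Ne, Valuation.zero_iff]
  have htn : ∀ x ∈ B, ∀ y ∈ B, y ≠ 0 → M.O1.valuation x < M.O1.valuation y →
      Tn M' n (e x / e y) := by
    intro x hx y hy hy0 h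
    have h1 : M.O1.valuation (x / y) < 1 := by
      rw [map_div₀, div_lt_one₀ (zero_lt_iff.2 (hv0 y hy0))]
      exact h
    have h2 := ((he.rl hBN (B.div_mem hx hy) (vlt_mem _ h1)).lt_iff hlam).2 h1
    rw [he.hom.map_div hx hy] at h2
    exact Tn.of_lt h2 n
  by_cases hc : ∀ a ∈ B, ∃ d ∈ B, M.O1.valuation (z - a) = M.O1.valuation d
  · obtain ⟨a0, ha0, hclose⟩ := exists_closer_multi hBN hW hres hz hzB hc
      (((S.image Prod.fst).filter (fun a => a ∈ B)).val) (by
        intro α hα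
        have h1 : α ∈ (S.image Prod.fst).filter (fun a => a ∈ B) := hα
        exact isAlgebraic_of_mem (Finset.mem_filter.1 h1).2)
    refine ⟨e a0, he.rng a0 ha0, fun a d hS ha hd hd0 => ?_⟩
    have hlt : M.O1.valuation (z - a0) < M.O1.valuation (z - a) := by
      refine hclose a ?_
      have : a ∈ (S.image Prod.fst).filter (fun a => a ∈ B) :=
        Finset.mem_filter.2 ⟨Finset.mem_image_of_mem Prod.fst hS, ha⟩
      exact this
    have heq : M.O1.valuation (a0 - a) = M.O1.valuation (z - a) := by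
      have h1 : a0 - a = (z - a) + (a0 - z) := by ring
      rw [h1, Valuation.map_add_eq_of_lt_left]
      rw [Valuation.map_sub_swap]
      exact hlt
    have hza : z - a ≠ 0 := fun h => hzB (by rw [sub_eq_zero.1 h]; exact ha)
    have ha0a : a0 - a ≠ 0 := fun h => hv0 _ hza (by rw [← heq, h, map_zero])
    have ha0aB : a0 - a ∈ B := B.sub_mem ha0 ha
    have hsub : e a0 - e a = e (a0 - a) := (he.hom.map_sub ha0 ha).symm
    rw [hsub]
    refine ⟨hne _ ha0aB ha0a, fun h => ?_, fun h => ?_⟩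
    · have h1 : (a0 - a) / d ∈ M.O1 := by
        rw [← M.O1.valuation_le_one_iff, map_div₀] at h ⊢
        rw [heq]
        exact h
      have h2 := he.rl hBN (B.div_mem ha0aB hd) h1
      have h3 : M.O1.valuation ((z - a) / d - (a0 - a) / d) < 1 := by
        have h4 : (z - a) / d - (a0 - a) / d = (z - a0) / d := by ring
        rw [h4, map_div₀]
        rw [← M.O1.valuation_le_one_iff, map_div₀] at h
        have h5 := div_lt_div_of_pos_right hlt (zero_lt_iff.2 (hv0 d hd0))
        exact lt_of_lt_of_le h5 h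
      have h4 := h2.congr_left hlam (N.div_mem (N.sub_mem hz (hBN ha)) (hBN hd)) h3
      rw [← he.hom.map_div ha0aB hd]
      exact Tn.of_lt h4.res n
    · refine htn d hd _ ha0aB ha0a ?_
      rw [← M.O1.valuation_le_one_iff, not_le, map_div₀,
        one_lt_div₀ (zero_lt_iff.2 (hv0 d hd0))] at h
      rw [heq]
      exact h
  · push Not at hc
    obtain ⟨a0, ha0, hval⟩ := hc
    set w := z - a0 with hw
    have hw0 : w ≠ 0 := fun h => hval 0 B.zero_mem (by rw [h])
    obtain ⟨w', hw'K, hw'0, hcut⟩ := exists_cut hBN hlam hW he (w := w)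
      (((S.image Prod.snd) ∪ (S.image (fun q => q.1 - a0))).filter (fun f => f ∈ B ∧ f ≠ 0))
      (fun f hf => (Finset.mem_filter.1 hf).2) (n + 1)
    refine ⟨e a0 + w', M'.K.add_mem (he.rng a0 ha0) hw'K, fun a d hS ha hd hd0 => ?_⟩
    have hbB : a - a0 ∈ B := B.sub_mem ha ha0
    have hcutd := hcut d (Finset.mem_filter.2 ⟨Finset.mem_union_left _
      (Finset.mem_image.2 ⟨(a, d), hS, rfl⟩), hd, hd0⟩)
    have hcutb : a - a0 ≠ 0 → _ := fun h0 => hcut (a - a0) (Finset.mem_filter.2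
      ⟨Finset.mem_union_right _ (Finset.mem_image.2 ⟨(a, d), hS, rfl⟩), hbB, h0⟩)
    have hsub : e a0 + w' - e a = w' - e (a - a0) := by
      rw [he.hom.map_sub ha ha0]; ring
    have hsub2 : z - a = w - (a - a0) := by rw [hw]; ring
    rw [hsub, hsub2]
    generalize a - a0 = b at *
    have hed := hne d hd hd0
    have hvd := zero_lt_iff.2 (hv0 d hd0)
    have hwN : w ∈ N := N.sub_mem hz (hBN ha0)
    rcases lt_or_gt_of_ne (hval b hbB).symm with hlt | hlt
    · -- `v b < v w`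
      have hvwb : M.O1.valuation (w - b) = M.O1.valuation w := by
        rw [sub_eq_add_neg, Valuation.map_add_eq_of_lt_left]
        rw [Valuation.map_neg]
        exact hlt
      have hT : Tn M' (n + 1) (e b / w') := by
        by_cases hb0 : b = 0
        · rw [hb0, he.hom.map_zero, zero_div]
          exact ⟨0, M'.O.zero_mem, by ring⟩
        · exact (hcutb hb0).2 hlt
      obtain ⟨hu0, huO⟩ := hT.unit
      have hfac : w' - e b = w' * (1 - e b / w') := by field_simp
      refine ⟨by rw [hfac]; exact mul_ne_zero hw'0 hu0, fun h => ?_, fun h => ?_⟩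
      · rw [← M.O1.valuation_le_one_iff, map_div₀, div_le_one₀ hvd, hvwb] at h
        have h1 : M.O1.valuation w < M.O1.valuation d := lt_of_le_of_ne h (hval d hd)
        have h2 : -b / d ∈ M.O1 := by
          rw [← M.O1.valuation_le_one_iff, map_div₀, Valuation.map_neg, div_le_one₀ hvd]
          exact (hlt.trans h1).le
        have h3 := he.rl hBN (B.div_mem (B.neg_mem hbB) hd) h2
        have h4 : M.O1.valuation ((w - b) / d - -b / d) < 1 := by
          have h5 : (w - b) / d - -b / d = w / d := by ring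
          rw [h5, map_div₀, div_lt_one₀ hvd]
          exact h1
        have h6 := h3.congr_left hlam (N.div_mem (N.sub_mem hwN (hBN hbB)) (hBN hd)) h4
        rw [he.hom.map_div (B.neg_mem hbB) hd, he.hom.map_neg hbB] at h6
        have h7 := (hcutd.1 h1).pred.add (Tn.of_lt h6.res n)
        have h8 : (w' - e b) / e d - lam ((w - b) / d) =
            w' / e d + (-e b / e d - lam ((w - b) / d)) := by ring
        rw [h8]
        exact h7
      · rw [← M.O1.valuation_le_one_iff, not_le, map_div₀, one_lt_div₀ hvd, hvwb] at h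
        have h1 := ((hcutd.2 h).pred).mul huO
        have h2 : e d / (w' - e b) = e d / w' * (1 - e b / w')⁻¹ := by
          rw [hfac, div_mul_eq_div_div, div_eq_mul_inv (e d / w')]
        rw [h2]
        exact h1
    · -- `v w < v b`
      have hlt' : M.O1.valuation w < M.O1.valuation b := hlt
      have hb0 : b ≠ 0 := fun h => by rw [h, map_zero] at hlt'; exact absurd hlt' not_lt_zero
      have heb := hne b hbB hb0
      have hvwb : M.O1.valuation (w - b) = M.O1.valuation b := by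
        have h1 : w - b = -b + w := by ring
        rw [h1, Valuation.map_add_eq_of_lt_left, Valuation.map_neg]
        rw [Valuation.map_neg]
        exact hlt'
      have hT : Tn M' (n + 1) (w' / e b) := (hcutb hb0).1 hlt'
      obtain ⟨hu0, huO⟩ := hT.unit
      have hfac : w' - e b = -(e b * (1 - w' / e b)) := by field_simp; ring
      refine ⟨by rw [hfac]; exact neg_ne_zero.2 (mul_ne_zero heb hu0), fun h => ?_, fun h => ?_⟩
      · rw [← M.O1.valuation_le_one_iff, map_div₀, div_le_one₀ hvd, hvwb] at h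
        have h1 : M.O1.valuation w < M.O1.valuation d := lt_of_lt_of_le hlt' h
        have h2 : -b / d ∈ M.O1 := by
          rw [← M.O1.valuation_le_one_iff, map_div₀, Valuation.map_neg, div_le_one₀ hvd]
          exact h
        have h3 := he.rl hBN (B.div_mem (B.neg_mem hbB) hd) h2
        have h4 : M.O1.valuation ((w - b) / d - -b / d) < 1 := by
          have h5 : (w - b) / d - -b / d = w / d := by ring
          rw [h5, map_div₀, div_lt_one₀ hvd]
          exact h1
        have h6 := h3.congr_left hlam (N.div_mem (N.sub_mem hwN (hBN hbB)) (hBN hd)) h4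
        rw [he.hom.map_div (B.neg_mem hbB) hd, he.hom.map_neg hbB] at h6
        have h7 := (hcutd.1 h1).pred.add (Tn.of_lt h6.res n)
        have h8 : (w' - e b) / e d - lam ((w - b) / d) =
            w' / e d + (-e b / e d - lam ((w - b) / d)) := by ring
        rw [h8]
        exact h7
      · rw [← M.O1.valuation_le_one_iff, not_le, map_div₀, one_lt_div₀ hvd, hvwb] at h
        have h1 := ((htn d hd b hbB hb0 h).mul huO).neg
        have h2 : e d / (w' - e b) = -(e d / e b * (1 - w' / e b)⁻¹) := by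
          rw [hfac, div_neg, div_mul_eq_div_div, div_eq_mul_inv (e d / e b)]
        rw [h2]
        exact h1

end Fin

section Ult

variable {I : Type} {U : Ultrafilter I} {M : I → Pk p} {N : Pk p} {mk : (∀ i, (M i).Om) → N.Om}

omit [Fact p.Prime] in
theorem IsUp.zero (h : IsUp U M N mk) : mk (fun _ => 0) = 0 := by
  have := h.add (fun _ => 0) (fun _ => 0)
  simp only [add_zero] at this
  exact left_eq_add.1 this

omit [Fact p.Prime] in
theorem IsUp.sub (h : IsUp U M N mk) (x y : ∀ i, (M i).Om) :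
    mk (fun i => x i - y i) = mk x - mk y := by
  have := h.add (fun i => x i - y i) y
  simp only [sub_add_cancel] at this
  rw [this]
  ring

omit [Fact p.Prime] in
theorem IsUp.ne_zero (h : IsUp U M N mk) {x : ∀ i, (M i).Om}
    (hx : ∀ᶠ i in (U : Filter I), x i ≠ 0) : mk x ≠ 0 := by
  intro h0
  rw [← h.zero, h.eq] at h0
  obtain ⟨i, h1, h2⟩ := (hx.and h0).exists
  exact h1 h2

omit [Fact p.Prime] in
theorem IsUp.div (h : IsUp U M N mk) {x y : ∀ i, (M i).Om}
    (hy : ∀ᶠ i in (U : Filter I), y i ≠ 0) : mk (fun i => x i / y i) = mk x / mk y := by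
  rw [eq_div_iff (h.ne_zero hy), ← h.mul, h.eq]
  filter_upwards [hy] with i hi
  exact div_mul_cancel₀ _ hi

omit [Fact p.Prime] in
theorem IsUp.tpow (h : IsUp U M N mk) (n : ℕ) : mk (fun i => (M i).t ^ n) = N.t ^ n := by
  induction n with
  | zero => simpa using h.one
  | succ n ih =>
    rw [pow_succ, ← ih, ← h.t, ← h.mul]
    simp only [pow_succ]

theorem IsUp.val1 (h : IsUp U M N mk) {x : ∀ i, (M i).Om}
    (hx : ∀ n, ∀ᶠ i in (U : Filter I), Tn (M i) n (x i)) : N.O1.valuation (mk x) < 1 := by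
  rw [Pk.val1_lt]
  intro n
  refine ⟨mk (fun i => x i / (M i).t ^ n), ?_, ?_⟩
  · rw [h.memO]
    filter_upwards [hx n] with i hi
    obtain ⟨y, hy, hxy⟩ := hi
    rw [hxy, mul_div_cancel_left₀ _ (pow_ne_zero _ (M i).t0)]
    exact hy
  · rw [← h.tpow, ← h.mul, h.eq]
    filter_upwards with i
    rw [mul_div_cancel₀]
    exact pow_ne_zero _ (M i).t0

end Ult

theorem realize {M M' : Pk p} {N B : Subfield M.Om} (hBN : B ≤ N) {lam e : M.Om → M'.Om}
    (hlam : AHom M.O1 N M'.O1 M'.K lam) (hW : W p M.O1 B) (hres : ResEq M.O1 B N)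
    (he : Good M.O1 M'.O1 M'.K lam B e) {z : M.Om} (hz : z ∈ N) (hzB : z ∉ B) :
    ∃ (M1 : Pk p) (j : M'.Om → M1.Om) (z' : M1.Om), EExt M' M1 j ∧ z' ∈ M1.K ∧
      LinType M.O1 M1.O1 (j ∘ lam) B (j ∘ e) z z' := by
  classical
  have hfin := fun s : Finset (M.Om × M.Om) × ℕ => fin_real hBN hlam hW hres he hz hzB s.1 s.2
  choose y hyK hy using hfin
  let U : Ultrafilter (Finset (M.Om × M.Om) × ℕ) := Ultrafilter.of Filter.atTop
  have hU : ∀ (a d : M.Om) (n : ℕ), ∀ᶠ s in (U : Filter (Finset (M.Om × M.Om) × ℕ)),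
      (a, d) ∈ s.1 ∧ n ≤ s.2 := by
    intro a d n
    have h1 : ∀ᶠ s in (Filter.atTop : Filter (Finset (M.Om × M.Om) × ℕ)),
        (a, d) ∈ s.1 ∧ n ≤ s.2 := by
      filter_upwards [Filter.eventually_ge_atTop (({(a, d)}, n) : Finset (M.Om × M.Om) × ℕ)]
        with s hs
      exact ⟨hs.1 (Finset.mem_singleton_self _), hs.2⟩
    exact Ultrafilter.of_le _ h1
  obtain ⟨M1, mk, hup⟩ := exists_up U (fun _ => M')
  have hext := hup.eext (M0 := M') (fun _ => id) (fun _ => EExt.refl M')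
  refine ⟨M1, fun x => mk (fun _ => x), mk y, hext, ?_, ?_⟩
  · rw [hup.memK]
    exact Filter.Eventually.of_forall hyK
  · intro a ha
    have hsub : mk y - mk (fun _ => e a) = mk (fun s => y s - e a) := (hup.sub _ _).symm
    have hne : ∀ᶠ s in (U : Filter (Finset (M.Om × M.Om) × ℕ)), y s - e a ≠ 0 := by
      filter_upwards [hU a 1 0] with s hs
      exact (hy s a 1 hs.1 ha B.one_mem one_ne_zero).1
    refine ⟨?_, fun d hd hd0 => ⟨fun h => ?_, fun h => ?_⟩⟩
    · change mk y - mk (fun _ => e a) ≠ 0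
      rw [hsub]
      exact hup.ne_zero hne
    · have hed : e d ≠ 0 := fun h => hd0 ((he.hom.eq_zero_iff hd).1 h)
      change M1.O1.valuation ((mk y - mk (fun _ => e a)) / mk (fun _ => e d) -
        mk (fun _ => lam ((z - a) / d))) < 1
      rw [hsub, ← hup.div (Filter.Eventually.of_forall fun _ => hed), ← hup.sub]
      refine hup.val1 fun n => ?_
      filter_upwards [hU a d n] with s hs
      exact ((hy s a d hs.1 ha hd hd0).2.1 h).mono hs.2
    · change M1.O1.valuation (mk (fun _ => e d) / (mk y - mk (fun _ => e a))) < 1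
      rw [hsub, ← hup.div hne]
      refine hup.val1 fun n => ?_
      filter_upwards [hU a d n] with s hs
      exact ((hy s a d hs.1 ha hd hd0).2.2 h).mono hs.2

end Pool.Agent.H92.Tilt
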