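import Pool.Agent.H92.Tilt.Res

/-! Auxiliary lemmas for module F3: residually independent families, residue fields and values of the
relative algebraic closure of `A(T)` for a maximal residually independent family `T`. -/

set_option autoImplicit false

namespace Pool.Agent.H92.Tilt

open Polynomial

section Gauss

variable {Ω : Type*} [Field Ω] (O : ValuationSubring Ω) {A : Subfield Ω}

/-- Values of a polynomial at integral elements are bounded by the Gauss norm. -/
theorem f3_eval_le {ι : Type*} {T : ι → Ω} (hT : ∀ i, T i ∈ O) (P : MvPolynomial ι Ω) :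
    MvPolynomial.eval T P = 0 ∨ ∃ m, O.valuation (MvPolynomial.eval T P) ≤
      O.valuation (P.coeff m) := by
  classical
  by_cases h0 : P = 0
  · left
    rw [h0, map_zero]
  right
  have hne : P.support.Nonempty := by
    rw [Finset.nonempty_iff_ne_empty, Ne, MvPolynomial.support_eq_empty]
    exact h0
  obtain ⟨m, hm, hmax⟩ := P.support.exists_max_image (fun i => O.valuation (P.coeff i)) hne
  refine ⟨m, ?_⟩
  rw [MvPolynomial.eval_eq]
  refine Valuation.map_sum_le _ fun d hd => ?_
  rw [map_mul]
  have h1 : O.valuation (∏ i ∈ d.support, T i ^ d i) ≤ 1 := by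
    rw [O.valuation_le_one_iff]
    exact prod_mem fun i _ => pow_mem (hT i) _
  calc O.valuation (P.coeff d) * O.valuation (∏ i ∈ d.support, T i ^ d i)
      ≤ O.valuation (P.coeff d) * 1 := by gcongr
    _ ≤ O.valuation (P.coeff m) := by
      rw [mul_one]
      exact hmax d hd

theorem f3_gauss_comp {ι κ : Type*} {T : ι → Ω} (hT : GaussInd O A T) {f : κ → ι}
    (hf : Function.Injective f) : GaussInd O A (T ∘ f) := by
  refine ⟨fun i => hT.1 _, fun P hP m => ?_⟩
  have h1 := hT.2 (MvPolynomial.rename f P) (fun d => ?_) (m.mapDomain f)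
  · rw [MvPolynomial.coeff_rename_mapDomain f hf, MvPolynomial.eval_rename] at h1
    exact h1
  · by_cases h0 : (MvPolynomial.rename f P).coeff d = 0
    · rw [h0]
      exact A.zero_mem
    · obtain ⟨u, rfl, -⟩ := MvPolynomial.coeff_rename_ne_zero f P d h0
      rw [MvPolynomial.coeff_rename_mapDomain f hf]
      exact hP u

theorem f3_gauss_of_finset {ι : Type*} {T : ι → Ω}
    (h : ∀ s : Finset ι, GaussInd O A (fun i : s => T i)) : GaussInd O A T := by
  refine ⟨fun i => (h {i}).1 ⟨i, Finset.mem_singleton_self i⟩, fun P hP m => ?_⟩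
  obtain ⟨s, q, rfl⟩ := MvPolynomial.exists_finset_rename P
  have hinj : Function.Injective (fun i : s => (i : ι)) := Subtype.val_injective
  by_cases h0 : (MvPolynomial.rename (fun i : s => (i : ι)) q).coeff m = 0
  · have h0' : (MvPolynomial.rename ((↑) : s → ι) q).coeff m = 0 := h0
    rw [h0', map_zero]
    exact zero_le
  · obtain ⟨u, rfl, -⟩ := MvPolynomial.coeff_rename_ne_zero (fun i : s => (i : ι)) q m h0
    have hq : ∀ d, q.coeff d ∈ A := by
      intro d
      have := hP (d.mapDomain (fun i : s => (i : ι)))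
      rw [MvPolynomial.coeff_rename_mapDomain _ hinj] at this
      exact this
    have h1 := (h s).2 q hq u
    rw [MvPolynomial.coeff_rename_mapDomain _ hinj, MvPolynomial.eval_rename]
    exact h1

theorem f3_gauss_empty {ι : Type*} [IsEmpty ι] (T : ι → Ω) : GaussInd O A T := by
  refine ⟨fun i => isEmptyElim i, fun P _ m => ?_⟩
  have h1 : P = MvPolynomial.C (P.coeff 0) := MvPolynomial.eq_C_of_isEmpty P
  have hm : m = 0 := Subsingleton.elim _ _
  have h2 : MvPolynomial.eval T P = P.coeff 0 := by
    conv_lhs => rw [h1]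
    rw [MvPolynomial.eval_C]
  rw [h2, hm]

/-- A maximal residually independent subset of `K`. -/
theorem f3_exists_max (K : Subfield Ω) : ∃ T : Set Ω,
    Maximal (fun T : Set Ω => T ⊆ K ∧ GaussInd O A (fun t : T => (t : Ω))) T := by
  classical
  refine zorn_subset {T : Set Ω | T ⊆ K ∧ GaussInd O A (fun t : T => (t : Ω))} ?_
  intro c hc hch
  rcases c.eq_empty_or_nonempty with rfl | hne
  · refine ⟨∅, ⟨Set.empty_subset _, f3_gauss_empty O _⟩, fun s hs => ?_⟩
    exact absurd hs (Set.notMem_empty s)
  refine ⟨⋃₀ c, ⟨Set.sUnion_subset fun s hs => (hc hs).1, ?_⟩,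
    fun s hs => Set.subset_sUnion_of_mem hs⟩
  refine f3_gauss_of_finset O fun s => ?_
  -- the finite set `s` lies in a member of the chain
  obtain ⟨t, ht, hst⟩ : ∃ t ∈ c, ∀ x ∈ s, (x : Ω) ∈ t := by
    induction s using Finset.induction_on with
    | empty =>
      obtain ⟨t, ht⟩ := hne
      exact ⟨t, ht, fun x hx => absurd hx (Finset.notMem_empty x)⟩
    | insert a s _ ih =>
      obtain ⟨t, ht, hst⟩ := ih
      obtain ⟨u, hu, hau⟩ := a.2
      rcases hch.total ht hu with h | h
      · refine ⟨u, hu, fun x hx => ?_⟩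
        rcases Finset.mem_insert.1 hx with rfl | hx
        · exact hau
        · exact h (hst x hx)
      · refine ⟨t, ht, fun x hx => ?_⟩
        rcases Finset.mem_insert.1 hx with rfl | hx
        · exact h hau
        · exact hst x hx
  have hf : Function.Injective (fun i : s => (⟨(i : Ω), hst i i.2⟩ : t)) := by
    intro x y hxy
    have h1 : ((x : ⋃₀ c) : Ω) = ((y : ⋃₀ c) : Ω) := congrArg (fun z : t => (z : Ω)) hxy
    exact Subtype.ext (Subtype.ext h1)
  exact f3_gauss_comp O (hc ht).2 hf

/-- Value of a one variable polynomial at a residually transcendental element. -/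
theorem f3_transc {F : Subfield Ω} {x : Ω} (hx : x ∈ O)
    (ht : ¬ IsAlgebraic (resL O F) (rs O x)) {Q : Polynomial Ω} (hQ : ∀ i, Q.coeff i ∈ F) (i : ℕ) :
    O.valuation (Q.coeff i) ≤ O.valuation (Q.eval x) := by
  by_cases h0 : Q = 0
  · simp [h0]
  obtain ⟨b, hb, hb0, g, hg, hgF, hgO, hgr⟩ := exists_normalize O h0 hQ
  have e1 := rsP_eval O hgO hx
  have n1 : rs O (g.eval x) ≠ 0 := by
    rw [← e1]
    intro h
    exact ht ((isAlgebraic_iff _ _).2 ⟨rsP O g, hgr, rsP_coeff_mem O hgF hgO, h⟩)
  have n2 : O.valuation (g.eval x) = 1 := (rs_ne_zero_iff O (eval_memO O hgO hx)).1 n1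
  rw [hg, coeff_C_mul, eval_mul, eval_C, map_mul, map_mul, n2]
  gcongr
  exact (O.valuation_le_one_iff _).2 (hgO i)

/-- Adding a residually transcendental element to a residually independent family. -/
theorem f3_gauss_option {ι : Type*} {T : ι → Ω} (hT : GaussInd O A T) {F : Subfield Ω}
    (hAF : A ≤ F) (hTF : ∀ i, T i ∈ F) {x : Ω} (hx : x ∈ O)
    (ht : ¬ IsAlgebraic (resL O F) (rs O x)) :
    GaussInd O A (fun o : Option ι => o.elim x T) := by
  refine ⟨fun o => ?_, fun P hP m => ?_⟩
  · cases o with
    | none => exact hx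
    | some i => exact hT.1 i
  · have h1 : MvPolynomial.eval (fun o : Option ι => o.elim x T) P =
        Polynomial.eval x (Polynomial.map (MvPolynomial.eval T)
          (MvPolynomial.optionEquivLeft Ω ι P)) := MvPolynomial.optionEquivLeft_elim_eval Ω ι T x P
    set R := MvPolynomial.optionEquivLeft Ω ι P with hR
    have hcA : ∀ (n : ℕ) (d : ι →₀ ℕ), (R.coeff n).coeff d ∈ A := by
      intro n d
      rw [hR, MvPolynomial.optionEquivLeft_coeff_coeff]
      exact hP _
    have hF : ∀ n, (R.map (MvPolynomial.eval T)).coeff n ∈ F := by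
      intro n
      rw [coeff_map, MvPolynomial.eval_eq]
      exact sum_mem fun d _ => F.mul_mem (hAF (hcA n d)) (prod_mem fun i _ => pow_mem (hTF i) _)
    have h2 := f3_transc O hx ht hF (m none)
    rw [h1]
    refine le_trans ?_ h2
    rw [coeff_map]
    have h3 := hT.2 (R.coeff (m none)) (hcA _) m.some
    rw [hR, MvPolynomial.optionEquivLeft_coeff_some_coeff_none] at h3
    exact h3

/-- The value group of `A(T)`. -/
theorem f3_valEq_adj {ι : Type*} {T : ι → Ω} (hT : GaussInd O A T) {y : Ω}
    (hy : y ∈ adj A (Set.range T)) (hy0 : y ≠ 0) :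
    ∃ a ∈ A, O.valuation y = O.valuation a := by
  have key : ∀ r : MvPolynomial ι A, MvPolynomial.aeval T r ≠ 0 →
      ∃ a ∈ A, O.valuation (MvPolynomial.aeval T r) = O.valuation a := by
    intro r hr
    have h1 : MvPolynomial.aeval T r = MvPolynomial.eval T (MvPolynomial.map A.subtype r) := by
      rw [MvPolynomial.eval_map, MvPolynomial.aeval_def]
      rfl
    rw [h1] at hr ⊢
    have hc : ∀ m, (MvPolynomial.map A.subtype r).coeff m ∈ A := by
      intro m
      rw [MvPolynomial.coeff_map]
      exact (r.coeff m).2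
    obtain h0 | ⟨m, hm⟩ := f3_eval_le O hT.1 (MvPolynomial.map A.subtype r)
    · exact absurd h0 hr
    · exact ⟨_, hc m, le_antisymm hm (hT.2 _ hc m)⟩
  obtain ⟨r, s, hrs⟩ := (IntermediateField.mem_adjoin_range_iff A T y).1
    ((mem_adjoin_iff A (Set.range T) y).2 hy)
  have hr : MvPolynomial.aeval T r ≠ 0 := by
    intro h
    rw [hrs, h, zero_div] at hy0
    exact hy0 rfl
  have hs : MvPolynomial.aeval T s ≠ 0 := by
    intro h
    rw [hrs, h, div_zero] at hy0
    exact hy0 rfl
  obtain ⟨a, ha, ha'⟩ := key r hr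
  obtain ⟨b, hb, hb'⟩ := key s hs
  refine ⟨a / b, A.div_mem ha hb, ?_⟩
  rw [hrs, map_div₀, map_div₀, ha', hb']

end Gauss

section Lift

variable {Ω : Type*} [Field Ω] (p : ℕ) [Fact p.Prime] [CharP Ω p] [IsAlgClosed Ω]
  (O : ValuationSubring Ω)

/-- A residue algebraic over the residue field of a perfect field is the residue of a simple
root. -/
theorem f3_lift {F : Subfield Ω} (h1 : PCl p F) {x : Ω} (hx : x ∈ O)
    (ha : IsAlgebraic (resL O F) (rs O x)) : ∃ c, SRoot O F c ∧ O.valuation (x - c) < 1 := by
  have hp0 : 0 < p := (Fact.out : p.Prime).pos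
  have := kap_charP O p
  have hcl : IsAlgClosed (kap O) := kap_isAlgClosed O
  have hpc : PCl p (resL O F) := resL_pcl O p h1
  have hchar : CharP (resL O F) p := by
    constructor
    intro n
    rw [← CharP.cast_eq_zero_iff (kap O) p n]
    constructor
    · intro h
      have h2 := congrArg (fun z : resL O F => (z : kap O)) h
      simpa using h2
    · intro h
      apply Subtype.ext
      simpa using h
  have hperf : PerfectRing (resL O F) p := by
    refine PerfectRing.ofSurjective _ p fun y => ?_
    obtain ⟨z, hz⟩ := IsAlgClosed.exists_pow_nat_eq (y : kap O) hp0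
    have hzm : z ∈ resL O F := hpc z (by rw [hz]; exact y.2)
    exact ⟨⟨z, hzm⟩, Subtype.ext hz⟩
  have hpf : PerfectField (resL O F) := PerfectRing.toPerfectField _ p
  have hint : IsIntegral (resL O F) (rs O x) := ha.isIntegral
  have hsep : (minpoly (resL O F) (rs O x)).Separable :=
    PerfectField.separable_of_irreducible (minpoly.irreducible hint)
  set q : Polynomial (kap O) := (minpoly (resL O F) (rs O x)).map (algebraMap _ _) with hq
  have hqm : q.Monic := (minpoly.monic hint).map _
  have hqc : ∀ i, q.coeff i ∈ resL O F := by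
    intro i
    rw [hq, coeff_map]
    exact ((minpoly (resL O F) (rs O x)).coeff i).2
  have hq0 : q.eval (rs O x) = 0 := by
    rw [hq, eval_map_algebraMap]
    exact minpoly.aeval _ _
  have hq1 : q.derivative.eval (rs O x) ≠ 0 := by
    have hs : q.Separable := hsep.map
    exact hs.eval₂_derivative_ne_zero (RingHom.id _) (by simpa [eval₂_id] using hq0)
  obtain ⟨h, hF, hO, hred, -, hm⟩ := res_exists_lift O q hqc
  have hmon := hm hqm
  have e1 : O.valuation (h.eval x) < 1 := by
    rw [← rs_eq_zero O (eval_memO O hO hx), ← rsP_eval O hO hx, hred, hq0]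
  obtain ⟨c, hc0, hcO, hcx⟩ := exists_root_near O hmon hO hx e1
  refine ⟨c, ⟨h, hmon, hF, hO, hc0, ?_⟩, ?_⟩
  · have hO' := derivative_coeff_memO O hO
    have hrc : rs O c = rs O x := by
      rw [rs_eq_iff O hcO hx]
      exact hcx
    rw [← rs_ne_zero_iff O (eval_memO O hO' hcO), ← rsP_eval O hO' hcO, rsP_derivative O hO,
      hred, hrc]
    exact hq1
  · rw [Valuation.map_sub_swap]
    exact hcx

end Lift

end Pool.Agent.H92.Tilt
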