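import Pool.Agent.H92.Tilt.F3a
import Pool.Agent.H92.Tilt.F3b
import Pool.Agent.H92.Tilt.F3x
import Pool.Agent.H92.Tilt.E0
import Pool.Agent.H92.Tilt.E2

/-!
Module F3: the lifting theorem.

`compactness`: if for every finite `S ⊆ N` there is an elementary extension of `M'` with a Good
extension of `e` to a field containing `S`, then there is one for `N`: ultraproduct over the directed
set of finite subsets (`U` contains all `{S | S0 ⊆ S}`), `e1 x := mk (fun S => e_S x)`; Good since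
`v_1(y) < 1` iff `y ∈ t^n O` for all `n` (`Pk.val1_lt`).

`realize`: for `z ∈ N`, `z ∉ B`, `W(B)`, `B ≤ N`, `ResEq B N` and `e` Good on `B` there is an elementary
extension `M''` of `M'` and `z' ∈ M''.K` with `LinType`. Case (c): for all `a ∈ B`, `v_1(z-a)` is a value of `B`;
then `v_1(z-a)` has no minimum on `B`; for finitely many `(a_i, d_i)` choose `a ∈ B` with
`v_1(z-a) < v_1(z-a_i)` for all `i`; `z' := e a` satisfies the conditions of the `(a_i,d_i)`. Take
an ultraproduct over the finite sets of pairs. Case (b): `v_1(z - a0)` is not a value of `B`, we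
may take `a0 = 0` (translate): the conditions say `v_1 z' < v_1 (e d)` for `v_1 z < v_1 d`
and `v_1 z' > v_1(e d)` for `v_1 z > v_1 d`; `v_1(y) < 1` means `y ∈ t^n O` for all `n`. For finitely many
`d`'s and `n ≤ n0` there is a solution in `M'.K`: between the closest ones `d_-`, `d_+`:
`z' = e d` with `d^p = d_- d_+^(p-1)`; if there is only an upper one: `e d_+ t^n0`, only a lower one:
`e d_- t^(-n0)`; none: `1`.

F3. Put `Λ = lam`. Step 1: a family `T` in `K ∩ O1` of lifts of a transcendence basis of the residue field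
of `K` over that of `A` (Zorn for `GaussInd`), `Ka :=` relative algebraic closure of `A(T)` in
`K`: perfect, h-closed, `ResEq Ka K`, `ValEq A Ka` (values of `A(T)` are those of `A`, divisible by
`W.valEq_acl`), `W Ka` by `inherit`. For finite `S ⊆ Ka`: E0, F2a, F1. `compactness` gives `Ka`.
Step 2: if `B ≤ B' ≤ K` are relatively algebraically closed in `K`, `Ka ≤ B`, `Tr1 B B'`: for
finite `S ⊆ B'`: E2 gives `z`, `realize` and F2bc give `B(z)`, F1 gives `clN B' (B(z)) ∋ S`; `compactness`.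
Step 3: for finite `S ⊆ K`: adjoin the elements of `S` one by one, taking relative algebraic
closures in `K` (each step is trivial or has `Tr1`); `compactness` for `N = K`. In all steps the target
changes to an elementary extension; use `AHom.comp`, `Good.comp`, `EExt.comp`.
-/

set_option autoImplicit false

namespace Pool.Agent.H92.Tilt

section RacAux

variable {Ω : Type*} [Field Ω] {K : Subfield Ω}

/-- Relative algebraic closure of `L` in `K`. -/
def racl (K L : Subfield Ω) : Subfield Ω := acl L ⊓ K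

theorem mem_racl {L : Subfield Ω} {x : Ω} : x ∈ racl K L ↔ IsAlgebraic L x ∧ x ∈ K := by
  rw [racl, Subfield.mem_inf, mem_acl]

theorem le_racl {L : Subfield Ω} (h : L ≤ K) : L ≤ racl K L := fun _ hx =>
  mem_racl.2 ⟨isAlgebraic_of_mem hx, h hx⟩

theorem racl_le (L : Subfield Ω) : racl K L ≤ K := fun _ hx => (mem_racl.1 hx).2

theorem rac_racl (L : Subfield Ω) : RAC (racl K L) K := fun _ hxK hx =>
  mem_racl.2 ⟨isAlgebraic_trans (fun _ hy => (mem_racl.1 hy).1) hx, hxK⟩

theorem RAC.pcl {p : ℕ} (hp : 0 < p) {B : Subfield Ω} (h : RAC B K) (hBK : B ≤ K)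
    (hK : PCl p K) : PCl p B := by
  intro x hx
  exact h x (hK x (hBK hx)) (IsAlgebraic.of_pow hp (isAlgebraic_of_mem hx))

theorem RAC.hcl {O : ValuationSubring Ω} {B : Subfield Ω} (h : RAC B K) (hBK : B ≤ K)
    (hK : HCl O K) : HCl O B := by
  intro c a hc ha hca
  exact h c (hK c a (hc.mono hBK) (hBK ha) hca) hc.isAlgebraic

end RacAux

section AHomAux

variable {Ω Ω' : Type*} [Field Ω] [Field Ω'] {O : ValuationSubring Ω} {O' : ValuationSubring Ω'}

theorem AHom.mono {N N' : Subfield Ω} {K' : Subfield Ω'} {lam : Ω → Ω'}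
    (h : AHom O N O' K' lam) (hN : N' ≤ N) : AHom O N' O' K' lam where
  rng x hx := h.rng x (hN hx)
  one := h.one
  add x hx hxO y hy := h.add x (hN hx) hxO y (hN hy)
  mul x hx hxO y hy := h.mul x (hN hx) hxO y (hN hy)
  ker x hx := h.ker x (hN hx)

end AHomAux

variable {p : ℕ} [Fact p.Prime]

/-- Step 1: from `A` to the relative algebraic closure of `A(T)`. -/
theorem f3_step1 {M M' : Pk p} {A Ka : Subfield M.Om} (hW : W p M.O1 A) (hAK : A ≤ Ka)
    (hKaK : Ka ≤ M.K) (hp : PCl p Ka) (hh : HCl M.O1 Ka) (hv : ValEq M.O1 A Ka)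
    {ι : Type*} (T : ι → M.Om) (hTK : ∀ i, T i ∈ Ka) (hT : GaussInd M.O1 A T)
    (halg : ∀ x ∈ Ka, IsAlgebraic (adj A (Set.range T)) x)
    {lam e : M.Om → M'.Om} (hlam : AHom M.O1 M.K M'.O1 M'.K lam)
    (he : Good M.O1 M'.O1 M'.K lam A e) :
    ∃ (M1 : Pk p) (j : M'.Om → M1.Om) (e1 : M.Om → M1.Om),
      EExt M' M1 j ∧ Good M.O1 M1.O1 M1.K (j ∘ lam) Ka e1 ∧ ∀ x ∈ A, e1 x = j (e x) := by
  have hl : AHom M.O1 Ka M'.O1 M'.K lam := hlam.mono hKaK
  refine compactness hAK hl he fun S hS => ?_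
  obtain ⟨n, T', hT'K, hT', hS'⟩ := E0 p M.O1 hW hAK hp hh hv T hTK hT halg S hS
  obtain ⟨e1, h1, h2⟩ := F2a M.O1 M'.O1 hl hAK he T' hT'K hT'
  have hX : adj A (Set.range T') ≤ Ka := adj_le hAK (by rintro _ ⟨i, rfl⟩; exact hT'K i)
  obtain ⟨e2, h3, h4⟩ := F1 p M.O1 M'.O1 hl M'.W_K.pcl M'.W_K.hcl hX h1
  refine ⟨M', id, clN p M.O1 Ka (adj A (Set.range T')), e2, EExt.refl M',
    (le_adj _ _).trans (le_clN _ _), clN_le hX, fun s hs => hS' s hs, h3, fun x hx => ?_⟩
  rw [h4 x (le_adj _ _ hx), h2 x hx]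
  rfl

/-- Step 2: an extension of transcendence degree one. -/
theorem f3_step2 {M M' : Pk p} {B B' : Subfield M.Om} (hB'K : B' ≤ M.K) (hBB' : B ≤ B')
    (hB : RAC B M.K) (hB' : RAC B' M.K) (hres : ResEq M.O1 B M.K) (htr : Tr1 B B')
    {lam e : M.Om → M'.Om} (hlam : AHom M.O1 M.K M'.O1 M'.K lam)
    (he : Good M.O1 M'.O1 M'.K lam B e) :
    ∃ (M1 : Pk p) (j : M'.Om → M1.Om) (e1 : M.Om → M1.Om),
      EExt M' M1 j ∧ Good M.O1 M1.O1 M1.K (j ∘ lam) B' e1 ∧ ∀ x ∈ B, e1 x = j (e x) := by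
  have hl : AHom M.O1 B' M'.O1 M'.K lam := hlam.mono hB'K
  have hWB : W p M.O1 B := inherit p M.O1 M.W_K (hBB'.trans hB'K) hB hres
  have hresB : ResEq M.O1 B B' := fun x hx => hres x (hB'K hx)
  refine compactness hBB' hl he fun S hS => ?_
  obtain ⟨z, hz, hzB, hSz⟩ := E2 p M.O1 M.W_K hB'K hBB' hB hB' hres htr S hS
  obtain ⟨M1, j, z', hj, hz', hlin⟩ := realize hBB' hl hWB hresB he hz hzB
  have hl1 := hl.comp hj
  obtain ⟨e1, h1, h2⟩ := F2bc p M.O1 M1.O1 hl1 hBB' hWB hresB (he.comp hBB' hl hj) hz hzB hz' hlin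
  have hX : adj B {z} ≤ B' := adj_le hBB' (Set.singleton_subset_iff.2 hz)
  obtain ⟨e2, h3, h4⟩ := F1 p M.O1 M1.O1 hl1 M1.W_K.pcl M1.W_K.hcl hX h1
  refine ⟨M1, j, clN p M.O1 B' (adj B {z}), e2, hj, (le_adj _ _).trans (le_clN _ _), clN_le hX,
    fun s hs => hSz s hs, h3, fun x hx => ?_⟩
  rw [h4 x (le_adj _ _ hx), h2 x hx]
  rfl

/-- Step 3: finitely many elements. -/
theorem f3_step3 {M : Pk p} {B : Subfield M.Om} (hBK : B ≤ M.K)
    (hB : RAC B M.K) (hres : ResEq M.O1 B M.K) (S : Finset M.Om) (hS : (S : Set M.Om) ⊆ M.K) :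
    ∀ (M' : Pk p) (lam e : M.Om → M'.Om), AHom M.O1 M.K M'.O1 M'.K lam →
      Good M.O1 M'.O1 M'.K lam B e →
      ∃ (M1 : Pk p) (j : M'.Om → M1.Om) (F : Subfield M.Om) (e1 : M.Om → M1.Om),
        EExt M' M1 j ∧ B ≤ F ∧ F ≤ M.K ∧ (S : Set M.Om) ⊆ F ∧
        Good M.O1 M1.O1 M1.K (j ∘ lam) F e1 ∧ ∀ x ∈ B, e1 x = j (e x) := by
  classical
  suffices H : ∀ (M' : Pk p) (lam e : M.Om → M'.Om), AHom M.O1 M.K M'.O1 M'.K lam →
      Good M.O1 M'.O1 M'.K lam B e →
      ∃ (M1 : Pk p) (j : M'.Om → M1.Om) (F : Subfield M.Om) (e1 : M.Om → M1.Om),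
        EExt M' M1 j ∧ B ≤ F ∧ F ≤ M.K ∧ RAC F M.K ∧ (S : Set M.Om) ⊆ F ∧
        Good M.O1 M1.O1 M1.K (j ∘ lam) F e1 ∧ ∀ x ∈ B, e1 x = j (e x) by
    intro M' lam e hlam he
    obtain ⟨M1, j, F, e1, h1, h2, h3, -, h4, h5, h6⟩ := H M' lam e hlam he
    exact ⟨M1, j, F, e1, h1, h2, h3, h4, h5, h6⟩
  induction S using Finset.induction_on with
  | empty =>
    intro M' lam e hlam he
    exact ⟨M', id, B, e, EExt.refl M', le_rfl, hBK, hB, by simp, he, fun x _ => rfl⟩
  | insert a S _ ih =>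
    intro M' lam e hlam he
    have haK : a ∈ M.K := hS (by simp)
    obtain ⟨M1, j, F, e1, h1, h2, h3, hF, h4, h5, h6⟩ :=
      ih (fun x hx => hS (by simp [Finset.mem_coe.1 hx])) M' lam e hlam he
    by_cases haF : a ∈ F
    · refine ⟨M1, j, F, e1, h1, h2, h3, hF, ?_, h5, h6⟩
      intro x hx
      rcases Finset.mem_insert.1 (Finset.mem_coe.1 hx) with rfl | hx
      · exact haF
      · exact h4 (Finset.mem_coe.2 hx)
    · have haK' : adj F {a} ≤ M.K := adj_le h3 (Set.singleton_subset_iff.2 haK)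
      have hFF' : F ≤ racl M.K (adj F {a}) := (le_adj _ _).trans (le_racl haK')
      have haF' : a ∈ racl M.K (adj F {a}) := le_racl haK' (subset_adj _ _ rfl)
      have htr : Tr1 F (racl M.K (adj F {a})) :=
        ⟨a, haF', fun h => haF (hF a haK h), fun x hx => (mem_racl.1 hx).1⟩
      have hresF : ResEq M.O1 F M.K := fun x hx hxO => by
        obtain ⟨b, hb, hxb⟩ := hres x hx hxO
        exact ⟨b, h2 hb, hxb⟩
      obtain ⟨M2, j2, e2, g1, g2, g3⟩ := f3_step2 (racl_le _) hFF' hF (rac_racl _) hresF htr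
        (hlam.comp h1) h5
      refine ⟨M2, j2 ∘ j, racl M.K (adj F {a}), e2, h1.comp g1, h2.trans hFF', racl_le _,
        rac_racl _, ?_, g2, fun x hx => ?_⟩
      · intro x hx
        rcases Finset.mem_insert.1 (Finset.mem_coe.1 hx) with rfl | hx
        · exact haF'
        · exact hFF' (h4 (Finset.mem_coe.2 hx))
      · rw [g3 x (h2 hx), h6 x hx]
        rfl

theorem F3 {M M' : Pk p} {A : Subfield M.Om} (hA : A ≤ M.K) (hW : W p M.O1 A)
    {lam e : M.Om → M'.Om} (hlam : AHom M.O1 M.K M'.O1 M'.K lam)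
    (he : Good M.O1 M'.O1 M'.K lam A e) :
    ∃ (M1 : Pk p) (j : M'.Om → M1.Om) (e1 : M.Om → M1.Om),
      EExt M' M1 j ∧ Good M.O1 M1.O1 M1.K (j ∘ lam) M.K e1 ∧ ∀ x ∈ A, e1 x = j (e x) := by
  classical
  have hp0 : 0 < p := (Fact.out : p.Prime).pos
  have hWK := M.W_K
  obtain ⟨T, ⟨hTK, hTG⟩, hTmax⟩ := f3_exists_max M.O1 (A := A) M.K
  have hrg : Set.range (fun t : T => (t : M.Om)) = T := Subtype.range_coe
  set Ka : Subfield M.Om := racl M.K (adj A T) with hKa
  have hATK : adj A T ≤ M.K := adj_le hA hTK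
  have hKaK : Ka ≤ M.K := racl_le _
  have hAKa : A ≤ Ka := (le_adj _ _).trans (le_racl hATK)
  have hTKa : ∀ t : T, (t : M.Om) ∈ Ka := fun t => le_racl hATK (subset_adj _ _ t.2)
  have hrac : RAC Ka M.K := rac_racl _
  have hpcl : PCl p Ka := hrac.pcl hp0 hKaK hWK.pcl
  have hhcl : HCl M.O1 Ka := hrac.hcl hKaK hWK.hcl
  -- the residue field
  have hres : ResEq M.O1 Ka M.K := by
    intro x hxK hxO
    have halg : IsAlgebraic (resL M.O1 Ka) (rs M.O1 x) := by
      by_contra hna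
      have hxT : x ∉ T := fun h => hna (isAlgebraic_of_mem (rs_mem_resL M.O1 (hTKa ⟨x, h⟩) hxO))
      have hG : GaussInd M.O1 A (fun o : Option T => o.elim x (fun t : T => (t : M.Om))) :=
        f3_gauss_option M.O1 hTG hAKa hTKa hxO hna
      let f : ↥(insert x T : Set M.Om) → Option T := fun y =>
        if h : (y : M.Om) ∈ T then some ⟨y, h⟩ else none
      have hf1 : ∀ y, (fun o : Option T => o.elim x (fun t : T => (t : M.Om))) (f y) = y := by
        intro y
        by_cases h : (y : M.Om) ∈ T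
        · simp [f, h]
        · have hy : (y : M.Om) = x := by
            rcases Set.mem_insert_iff.1 y.2 with h1 | h1
            · exact h1
            · exact absurd h1 h
          simp [f, hy, hxT]
      have hfi : Function.Injective f := by
        intro y z hyz
        apply Subtype.ext
        rw [← hf1 y, ← hf1 z, hyz]
      have hG' := f3_gauss_comp M.O1 hG hfi
      have hG'' : GaussInd M.O1 A (fun t : (insert x T : Set M.Om) => (t : M.Om)) := by
        have : (fun o : Option T => o.elim x (fun t : T => (t : M.Om))) ∘ f =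
            fun t : (insert x T : Set M.Om) => (t : M.Om) := funext hf1
        rw [← this]
        exact hG'
      have hle : insert x T ⊆ T := hTmax ⟨Set.insert_subset hxK hTK, hG''⟩
        (Set.subset_insert x T)
      exact hxT (hle (Set.mem_insert x T))
    obtain ⟨c, hc, hxc⟩ := f3_lift p M.O1 hpcl hxO halg
    have hcK : c ∈ M.K := hWK.hcl c x (hc.mono hKaK) hxK (by
      rw [Valuation.map_sub_swap]
      exact hxc)
    exact ⟨c, hrac c hcK hc.isAlgebraic, hxc⟩
  have halgT : ∀ x ∈ Ka, IsAlgebraic (adj A (Set.range (fun t : T => (t : M.Om)))) x := by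
    rw [hrg]
    exact fun x hx => (mem_racl.1 hx).1
  -- the value group
  have hval : ValEq M.O1 A Ka := by
    intro x hx hx0
    obtain ⟨n, hn, l, hl, hl0, hnl⟩ := val_torsion M.O1 (mem_racl.1 hx).1 hx0
    have hl' : l ∈ adj A (Set.range (fun t : T => (t : M.Om))) := by
      rw [hrg]
      exact hl
    obtain ⟨a, ha, hla⟩ := f3_valEq_adj M.O1 hTG hl' hl0
    have ha0 : a ≠ 0 := by
      rintro rfl
      rw [map_zero] at hla
      exact hl0 ((Valuation.zero_iff _).1 hla)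
    obtain ⟨b, hb⟩ := IsAlgClosed.exists_pow_nat_eq a hn
    have hb0 : b ≠ 0 := by
      rintro rfl
      rw [zero_pow hn.ne'] at hb
      exact ha0 hb.symm
    have hbacl : b ∈ acl A := (mem_acl A b).2 (IsAlgebraic.of_pow hn (by
      rw [hb]
      exact isAlgebraic_of_mem ha))
    obtain ⟨a', ha', hba'⟩ := W.valEq_acl p M.O1 hW b hbacl hb0
    refine ⟨a', ha', ?_⟩
    have h1 : M.O1.valuation x ^ n = M.O1.valuation b ^ n := by
      rw [← map_pow, hnl, hla, ← hb, map_pow]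
    rw [← hba']
    exact (pow_left_inj₀ zero_le zero_le hn.ne').1 h1
  -- Step 1
  obtain ⟨M1, j1, e1, g1, g2, g3⟩ := f3_step1 hW hAKa hKaK hpcl hhcl hval
    (fun t : T => (t : M.Om)) hTKa hTG halgT hlam he
  -- Step 3 and compactness
  refine compactness hA hlam he fun S hS => ?_
  obtain ⟨M2, j2, F, e2, k1, k2, k3, k4, k5, k6⟩ := f3_step3 hKaK hrac hres S hS M1 (j1 ∘ lam) e1
    (hlam.comp g1) g2
  refine ⟨M2, j2 ∘ j1, F, e2, g1.comp k1, hAKa.trans k2, k3, k4, k5, fun x hx => ?_⟩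
  rw [k6 x (hAKa hx), g3 x hx]
  rfl

end Pool.Agent.H92.Tilt
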