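import Pool.Agent.H92.Tilt.Up

/-! Module F3a: see the comment in F3. -/

set_option autoImplicit false

namespace Pool.Agent.H92.Tilt

variable {p : ℕ} [Fact p.Prime]

section aux

variable {I : Type} {U : Ultrafilter I} {M : I → Pk p} {N : Pk p}
    {mk : (∀ i, (M i).Om) → N.Om}

omit [Fact p.Prime] in
theorem isUp_sub3a (h : IsUp U M N mk) (x y : ∀ i, (M i).Om) :
    mk (fun i => x i - y i) = mk x - mk y := by
  have h1 := h.add (fun i => x i - y i) y
  simp only [sub_add_cancel] at h1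
  rw [eq_sub_iff_add_eq, ← h1]

omit [Fact p.Prime] in
theorem isUp_pow3a (h : IsUp U M N mk) (x : ∀ i, (M i).Om) (n : ℕ) :
    mk (fun i => x i ^ n) = mk x ^ n := by
  induction n with
  | zero => simpa using h.one
  | succ n ih =>
    simp only [pow_succ]
    rw [h.mul (fun i => x i ^ n) x, ih]

end aux

theorem compactness {M M' : Pk p} {N X : Subfield M.Om} (hXN : X ≤ N) {lam e : M.Om → M'.Om}
    (hlam : AHom M.O1 N M'.O1 M'.K lam) (he : Good M.O1 M'.O1 M'.K lam X e)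
    (h : ∀ S : Finset M.Om, (S : Set M.Om) ⊆ N →
      ∃ (M1 : Pk p) (j : M'.Om → M1.Om) (F : Subfield M.Om) (e1 : M.Om → M1.Om),
        EExt M' M1 j ∧ X ≤ F ∧ F ≤ N ∧ (S : Set M.Om) ⊆ F ∧
        Good M.O1 M1.O1 M1.K (j ∘ lam) F e1 ∧ ∀ x ∈ X, e1 x = j (e x)) :
    ∃ (M1 : Pk p) (j : M'.Om → M1.Om) (e1 : M.Om → M1.Om),
      EExt M' M1 j ∧ Good M.O1 M1.O1 M1.K (j ∘ lam) N e1 ∧ ∀ x ∈ X, e1 x = j (e x) := by
  classical
  let I : Type := {S : Finset M.Om // (S : Set M.Om) ⊆ N}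
  have h' : ∀ i : I, ∃ (M1 : Pk p) (j : M'.Om → M1.Om) (F : Subfield M.Om) (e1 : M.Om → M1.Om),
        EExt M' M1 j ∧ X ≤ F ∧ F ≤ N ∧ (i.1 : Set M.Om) ⊆ F ∧
        Good M.O1 M1.O1 M1.K (j ∘ lam) F e1 ∧ ∀ x ∈ X, e1 x = j (e x) := fun i => h i.1 i.2
  choose M1 j F e1 hj hXF hFN hSF hG hX using h'
  have hne : Nonempty I := ⟨⟨∅, by simp⟩⟩
  have hdir : ∀ a b : I, ∃ c : I, a.1 ⊆ c.1 ∧ b.1 ⊆ c.1 := by
    intro a b
    refine ⟨⟨a.1 ∪ b.1, ?_⟩, Finset.subset_union_left, Finset.subset_union_right⟩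
    rw [Finset.coe_union]
    exact Set.union_subset a.2 b.2
  have hatT : (Filter.atTop : Filter I).NeBot := by
    have : IsDirectedOrder I := ⟨fun a b => by
      obtain ⟨c, h1, h2⟩ := hdir a b
      exact ⟨c, h1, h2⟩⟩
    infer_instance
  let U : Ultrafilter I := Ultrafilter.of Filter.atTop
  have hU : (U : Filter I) ≤ Filter.atTop := Ultrafilter.of_le _
  have hev : ∀ x ∈ N, ∀ᶠ i in (U : Filter I), x ∈ F i := by
    intro x hx
    apply hU
    have h1 : ∀ᶠ i : I in Filter.atTop, (⟨{x}, by simpa using hx⟩ : I) ≤ i :=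
      Filter.eventually_ge_atTop _
    refine h1.mono fun i hi => ?_
    apply hSF i
    have : ({x} : Finset M.Om) ⊆ i.1 := hi
    exact this (by simp)
  obtain ⟨Nn, mk, hUp⟩ := exists_up U M1
  refine ⟨Nn, fun x => mk (fun i => j i x), fun x => mk (fun i => e1 i x), hUp.eext j hj, ?_, ?_⟩
  · refine ⟨⟨?_, ?_, ?_⟩, ?_, ?_⟩
    · have : (fun i => e1 i 1) = fun _ => 1 := by
        funext i; exact (hG i).hom.one
      rw [this, hUp.one]
    · intro x hx y hy
      rw [← hUp.add, hUp.eq]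
      filter_upwards [hev x hx, hev y hy] with i h1 h2
      exact (hG i).hom.add x h1 y h2
    · intro x hx y hy
      rw [← hUp.mul, hUp.eq]
      filter_upwards [hev x hx, hev y hy] with i h1 h2
      exact (hG i).hom.mul x h1 y h2
    · intro x hx
      rw [hUp.memK]
      filter_upwards [hev x hx] with i h1
      exact (hG i).rng x h1
    · intro x hx hxO
      rw [Pk.val1_lt]
      intro n
      have h1 : ∀ i, ∃ y : (M1 i).Om, x ∈ F i → (y ∈ (M1 i).O ∧
          e1 i x - (j i ∘ lam) x = (M1 i).t ^ n * y) := by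
        intro i
        by_cases hxi : x ∈ F i
        · obtain ⟨y, hy, hy2⟩ := ((M1 i).val1_lt _).mp ((hG i).res x hxi hxO) n
          exact ⟨y, fun _ => ⟨hy, hy2⟩⟩
        · exact ⟨0, fun h => absurd h hxi⟩
      choose y hy using h1
      refine ⟨mk y, ?_, ?_⟩
      · rw [hUp.memO]
        filter_upwards [hev x hx] with i h1
        exact (hy i h1).1
      · rw [← hUp.t, ← isUp_pow3a hUp, ← hUp.mul]
        change mk (fun i => e1 i x) - mk (fun i => j i (lam x)) = _
        rw [← isUp_sub3a hUp, hUp.eq]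
        filter_upwards [hev x hx] with i h1
        exact (hy i h1).2
  · intro x hx
    show mk _ = mk _
    congr 1
    funext i
    exact hX i x hx

end Pool.Agent.H92.Tilt
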