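import Pool.Agent.H92.Tilt.Raw

/-!
Module FOL: raw formulas of the language of rings and Mathlib formulas.

(i) every raw formula is equivalent to a Mathlib formula with free variables in `ℕ` (induction on the
code; `4`: relabel the variable `n` to a bound variable and quantify); (ii) conversely (free variable
`n` goes to `n`, the bound variable number `i` to `m + i` with `m` larger than all free
variables; Mathlib formulas use levels, which is what named variables want).
(iii) `semTr_local`: a raw formula only depends on finitely many variables.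
(iv) `raw_compact`: the form used in G1.
-/

set_option autoImplicit false

namespace Pool.Agent.H92.Tilt

open FirstOrder FirstOrder.Language

/-- Truth of a Mathlib formula of the language of rings. -/
def RealizeR {R : Type*} [CommRing R] (ψ : Language.ring.Formula ℕ) (e : ℕ → R) : Prop :=
  letI := Ring.compatibleRingOfRing R
  ψ.Realize e

theorem rev_to_term (c : ℕ) : ∃ t : Language.ring.Term ℕ,
    ∀ {R : Type} [CommRing R] [Ring.CompatibleRing R] (e : ℕ → R), rev c e = t.realize e := by
  induction c using Nat.strong_induction_on with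
  | _ c ih =>
    obtain ⟨k, m, hkm⟩ : ∃ k m, c.unpair = (k, m) := ⟨_, _, rfl⟩
    have hc : c = Nat.pair k m := by
      have := Nat.pair_unpair c
      rw [hkm] at this
      exact this.symm
    by_cases h0 : k = 0
    · subst h0
      refine ⟨Term.var m, ?_⟩
      intro R _ _ e
      rw [hc, rev_var]; rfl
    by_cases h3 : k = 3
    · subst h3
      refine ⟨1, ?_⟩
      intro R _ _ e
      rw [hc, rev_one, Ring.realize_one]
    by_cases h4 : k = 4
    · subst h4
      obtain ⟨t, ht⟩ := ih m (unpair_lt hkm (by norm_num))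
      refine ⟨-t, ?_⟩
      intro R _ _ e
      rw [hc, rev_neg, Ring.realize_neg, ht]
    by_cases h5 : k = 5
    · subst h5
      obtain ⟨t, ht⟩ := ih m.unpair.1 (unpair_lt1 hkm (by norm_num))
      obtain ⟨t', ht'⟩ := ih m.unpair.2 (unpair_lt2 hkm (by norm_num))
      refine ⟨t + t', ?_⟩
      intro R _ _ e
      rw [hc, rev_add', Ring.realize_add, ht, ht']
    by_cases h6 : k = 6
    · subst h6
      obtain ⟨t, ht⟩ := ih m.unpair.1 (unpair_lt1 hkm (by norm_num))
      obtain ⟨t', ht'⟩ := ih m.unpair.2 (unpair_lt2 hkm (by norm_num))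
      refine ⟨t * t', ?_⟩
      intro R _ _ e
      rw [hc, rev_mul', Ring.realize_mul, ht, ht']
    refine ⟨0, ?_⟩
    intro R _ _ e
    rw [hc, rev_default e k m h0 h3 h4 h5 h6, Ring.realize_zero]

theorem raw_to_fol (c : ℕ) : ∃ ψ : Language.ring.Formula ℕ,
    ∀ {R : Type} [CommRing R] (e : ℕ → R), semTr c e ↔ RealizeR ψ e := by
  induction c using Nat.strong_induction_on with
  | _ c ih =>
    obtain ⟨k, m, hkm⟩ : ∃ k m, c.unpair = (k, m) := ⟨_, _, rfl⟩
    have hc : c = Nat.pair k m := by
      have := Nat.pair_unpair c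
      rw [hkm] at this
      exact this.symm
    by_cases h0 : k = 0
    · subst h0
      obtain ⟨t, ht⟩ := rev_to_term m.unpair.1
      obtain ⟨t', ht'⟩ := rev_to_term m.unpair.2
      refine ⟨t.equal t', ?_⟩
      intro R _ e
      let _ := Ring.compatibleRingOfRing R
      rw [hc, semTr_eq', ht, ht', RealizeR, Formula.realize_equal]
    by_cases h2 : k = 2
    · subst h2
      obtain ⟨φ, hφ⟩ := ih m (unpair_lt hkm (by norm_num))
      refine ⟨φ.not, ?_⟩
      intro R _ e
      let _ := Ring.compatibleRingOfRing R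
      rw [hc, semTr_neg, hφ, RealizeR, RealizeR, Formula.realize_not]
    by_cases h3 : k = 3
    · subst h3
      obtain ⟨φ, hφ⟩ := ih m.unpair.1 (unpair_lt1 hkm (by norm_num))
      obtain ⟨φ', hφ'⟩ := ih m.unpair.2 (unpair_lt2 hkm (by norm_num))
      refine ⟨φ ⊓ φ', ?_⟩
      intro R _ e
      let _ := Ring.compatibleRingOfRing R
      rw [hc, semTr_and', hφ, hφ', RealizeR, RealizeR, RealizeR, Formula.realize_inf]
    by_cases h4 : k = 4
    · subst h4
      obtain ⟨φ, hφ⟩ := ih m.unpair.2 (unpair_lt2 hkm (by norm_num))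
      refine ⟨Formula.iAlls Unit (φ.relabel (fun j : ℕ =>
        if j = m.unpair.1 then (Sum.inr () : ℕ ⊕ Unit) else Sum.inl j)), ?_⟩
      intro R _ e
      let _ := Ring.compatibleRingOfRing R
      rw [hc, semTr_all', RealizeR, Formula.realize_iAlls]
      have key : ∀ i : Unit → R, (Sum.elim e i ∘ (fun j : ℕ =>
        if j = m.unpair.1 then (Sum.inr () : ℕ ⊕ Unit) else Sum.inl j)) =
          Function.update e m.unpair.1 (i ()) := by
        intro i
        funext j
        by_cases hj : j = m.unpair.1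
        · simp [hj]
        · simp [hj]
      constructor
      · intro h i
        rw [Formula.realize_relabel, key]
        exact (hφ _).mp (h (i ()))
      · intro h a
        have := h (fun _ => a)
        rw [Formula.realize_relabel, key] at this
        exact (hφ _).mpr this
    refine ⟨⊤, ?_⟩
    intro R _ e
    let _ := Ring.compatibleRingOfRing R
    rw [hc, semTr_default e k m h0 h2 h3 h4, RealizeR]
    simp [Formula.Realize]

theorem term_to_rev {n : ℕ} (t : Language.ring.Term (ℕ ⊕ Fin n)) : ∃ M0 : ℕ, ∀ M, M0 ≤ M →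
    ∃ c : ℕ, (∀ {R : Type} [CommRing R] [Ring.CompatibleRing R] (E : ℕ → R),
      rev c E = t.realize (Sum.elim E (fun i : Fin n => E (M + i)))) ∧
    (∀ {R : Type} [CommRing R] [Ring.CompatibleRing R] (e e' : ℕ → R) (xs : Fin n → R),
      (∀ k < M, e k = e' k) → t.realize (Sum.elim e xs) = t.realize (Sum.elim e' xs)) := by
  induction t with
  | var v =>
    rcases v with k | i
    · refine ⟨k + 1, fun M hM => ⟨Nat.pair 0 k, ?_, ?_⟩⟩
      · intro R _ _ E; rw [rev_var]; rfl
      · intro R _ _ e e' xs h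
        exact h k (by omega)
    · refine ⟨0, fun M hM => ⟨Nat.pair 0 (M + i), ?_, ?_⟩⟩
      · intro R _ _ E; rw [rev_var]; rfl
      · intro R _ _ e e' xs h
        rfl
  | func f ts ih =>
    choose M0 hM0 using ih
    rename_i l
    refine ⟨Finset.univ.sup M0, fun M hM => ?_⟩
    have hM' : ∀ i, M0 i ≤ M := fun i => (Finset.le_sup (Finset.mem_univ i)).trans hM
    choose c hc hloc using fun i => hM0 i M (hM' i)
    have hloc' : ∀ {R : Type} [CommRing R] [Ring.CompatibleRing R] (e e' : ℕ → R) (xs : Fin n → R),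
      (∀ k < M, e k = e' k) → (Term.func f ts).realize (Sum.elim e xs) =
        (Term.func f ts).realize (Sum.elim e' xs) := by
      intro R _ _ e e' xs h
      simp only [Term.realize]
      congr 1
      funext i
      exact hloc i e e' xs h
    cases f with
    | add =>
      refine ⟨Nat.pair 5 (Nat.pair (c 0) (c 1)), ?_, hloc'⟩
      intro R _ _ E
      rw [rev_add, hc 0 E, hc 1 E]
      simp [Term.realize, Ring.CompatibleRing.funMap_add]
    | mul =>
      refine ⟨Nat.pair 6 (Nat.pair (c 0) (c 1)), ?_, hloc'⟩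
      intro R _ _ E
      rw [rev_mul, hc 0 E, hc 1 E]
      simp [Term.realize, Ring.CompatibleRing.funMap_mul]
    | neg =>
      refine ⟨Nat.pair 4 (c 0), ?_, hloc'⟩
      intro R _ _ E
      rw [rev_neg, hc 0 E]
      simp [Term.realize, Ring.CompatibleRing.funMap_neg]
    | zero =>
      refine ⟨Nat.pair 2 0, ?_, hloc'⟩
      intro R _ _ E
      rw [rev_zero]
      simp [Term.realize, Ring.CompatibleRing.funMap_zero]
    | one =>
      refine ⟨Nat.pair 3 0, ?_, hloc'⟩
      intro R _ _ E
      rw [rev_one]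
      simp [Term.realize, Ring.CompatibleRing.funMap_one]

theorem bounded_to_raw {n : ℕ} (φ : Language.ring.BoundedFormula ℕ n) : ∃ M0 : ℕ, ∀ M, M0 ≤ M →
    ∃ c : ℕ, (∀ {R : Type} [CommRing R] [Ring.CompatibleRing R] (E : ℕ → R),
      semTr c E ↔ φ.Realize E (fun i : Fin n => E (M + i))) ∧
    (∀ {R : Type} [CommRing R] [Ring.CompatibleRing R] (e e' : ℕ → R) (xs : Fin n → R),
      (∀ k < M, e k = e' k) → (φ.Realize e xs ↔ φ.Realize e' xs)) := by
  induction φ with
  | falsum =>
    refine ⟨0, fun M _ => ⟨Nat.pair 2 (Nat.pair 5 0), ?_, ?_⟩⟩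
    · intro R _ _ E
      rw [semTr_neg, semTr_default E 5 0 (by norm_num) (by norm_num) (by norm_num) (by norm_num)]
      simp [BoundedFormula.Realize]
    · intro R _ _ e e' xs _
      exact Iff.rfl
  | equal t t' =>
    obtain ⟨M0, h0⟩ := term_to_rev t
    obtain ⟨M1, h1⟩ := term_to_rev t'
    refine ⟨max M0 M1, fun M hM => ?_⟩
    obtain ⟨c, hc, hl⟩ := h0 M (le_trans (le_max_left _ _) hM)
    obtain ⟨c', hc', hl'⟩ := h1 M (le_trans (le_max_right _ _) hM)
    refine ⟨Nat.pair 0 (Nat.pair c c'), ?_, ?_⟩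
    · intro R _ _ E
      rw [semTr_eq, hc, hc']
      rfl
    · intro R _ _ e e' xs h
      simp only [BoundedFormula.Realize]
      rw [hl e e' xs h, hl' e e' xs h]
  | rel r ts => exact r.elim
  | imp φ ψ ih1 ih2 =>
    obtain ⟨M0, h0⟩ := ih1
    obtain ⟨M1, h1⟩ := ih2
    refine ⟨max M0 M1, fun M hM => ?_⟩
    obtain ⟨c, hc, hl⟩ := h0 M (le_trans (le_max_left _ _) hM)
    obtain ⟨c', hc', hl'⟩ := h1 M (le_trans (le_max_right _ _) hM)
    refine ⟨Nat.pair 2 (Nat.pair 3 (Nat.pair c (Nat.pair 2 c'))), ?_, ?_⟩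
    · intro R _ _ E
      rw [semTr_neg, semTr_and, semTr_neg, hc, hc']
      simp only [BoundedFormula.Realize]
      tauto
    · intro R _ _ e e' xs h
      simp only [BoundedFormula.Realize]
      rw [hl e e' xs h, hl' e e' xs h]
  | all φ ih =>
    rename_i n
    obtain ⟨M0, h0⟩ := ih
    refine ⟨M0, fun M hM => ?_⟩
    obtain ⟨c, hc, hl⟩ := h0 M hM
    refine ⟨Nat.pair 4 (Nat.pair (M + n) c), ?_, ?_⟩
    · intro R _ _ E
      rw [semTr_all]
      simp only [BoundedFormula.Realize]
      refine forall_congr' fun a => ?_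
      rw [hc]
      have h1 : (fun i : Fin (n + 1) => Function.update E (M + n) a (M + (i : ℕ))) =
          Fin.snoc (fun i : Fin n => E (M + i)) a := by
        funext i
        refine Fin.lastCases ?_ (fun i => ?_) i
        · simp
        · rw [Fin.snoc_castSucc]
          have : M + ((i.castSucc : Fin (n + 1)) : ℕ) ≠ M + n := by
            simp only [Fin.val_castSucc, ne_eq, Nat.add_left_cancel_iff]
            exact i.2.ne
          rw [Function.update_of_ne this]
          simp
      rw [h1]
      apply hl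
      intro k hk
      rw [Function.update_of_ne (by omega)]
    · intro R _ _ e e' xs h
      simp only [BoundedFormula.Realize]
      refine forall_congr' fun a => ?_
      exact hl e e' _ h

theorem fol_to_raw (ψ : Language.ring.Formula ℕ) : ∃ c : ℕ,
    ∀ {R : Type} [CommRing R] (e : ℕ → R), semTr c e ↔ RealizeR ψ e := by
  obtain ⟨M0, h0⟩ := bounded_to_raw ψ
  obtain ⟨c, hc, -⟩ := h0 M0 le_rfl
  refine ⟨c, ?_⟩
  intro R _ e
  let _ := Ring.compatibleRingOfRing R
  rw [hc, RealizeR, Formula.Realize]
  have : (fun i : Fin 0 => e (M0 + i)) = default := Subsingleton.elim _ _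
  rw [this]

/-- A raw formula depends on finitely many variables only. -/
theorem semTr_local (c : ℕ) : ∃ m : ℕ, ∀ {R : Type} [CommRing R] (e e' : ℕ → R),
    (∀ n < m, e n = e' n) → (semTr c e ↔ semTr c e') := by
  obtain ⟨ψ, hψ⟩ := raw_to_fol c
  obtain ⟨M0, h0⟩ := bounded_to_raw ψ
  obtain ⟨-, -, hl⟩ := h0 M0 le_rfl
  refine ⟨M0, ?_⟩
  intro R _ e e' h
  let _ := Ring.compatibleRingOfRing R
  rw [hψ, hψ, RealizeR, RealizeR]
  exact hl e e' _ h

/-- Let `A` be a nonempty set of elements of `R`, `f` a map from `A` to `R'` preserving the truth of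
raw formulas with parameters in `A`. For finitely many pairs (raw formula, environment in `R`) there
is `g : R → R'`, equal to `f` on `A`, that preserves the truth of these formulas in these
environments. -/
theorem raw_compact {R R' : Type} [CommRing R] [CommRing R'] (A : Set R) (hA : A.Nonempty)
    (f : R → R')
    (hf : ∀ (c : ℕ) (e : ℕ → R), (∀ n, e n ∈ A) → (semTr c e ↔ semTr c (fun n => f (e n))))
    (Ψ : Finset (ℕ × (ℕ → R))) :
    ∃ g : R → R', (∀ a ∈ A, g a = f a) ∧
      ∀ q ∈ Ψ, (semTr q.1 q.2 ↔ semTr q.1 (fun n => g (q.2 n))) := by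
  classical
  obtain ⟨a0, ha0⟩ := hA
  let _ := Ring.compatibleRingOfRing R
  let _ := Ring.compatibleRingOfRing R'
  choose F hF using raw_to_fol
  -- the conjunction
  let Θ : Language.ring.Formula R := Formula.iInf (fun q : Ψ =>
    if semTr q.1.1 q.1.2 then (F q.1.1).relabel q.1.2 else ((F q.1.1).relabel q.1.2).not)
  have hΘ : Θ.Realize (id : R → R) := by
    rw [Formula.realize_iInf]
    intro q
    split_ifs with hq
    · rw [Formula.realize_relabel]
      exact (hF _ _).mp hq
    · rw [Formula.realize_not, Formula.realize_relabel]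
      exact fun h => hq ((hF _ _).mpr h)
  let S := BoundedFormula.freeVarFinset Θ
  let B := {x : R // x ∈ S ∧ x ∉ A}
  have hBfin : Finite B := Finite.of_injective (fun x : B => (⟨x.1, x.2.1⟩ : S)) (by
    intro x y hxy
    exact Subtype.ext (congrArg (fun z : S => (z : R)) hxy))
  let enc : S ≃ Fin S.card := S.equivFin
  let ρ : S → ℕ ⊕ B := fun x =>
    if h : (x : R) ∈ A then Sum.inl (enc x : ℕ) else Sum.inr ⟨x, x.2, h⟩
  let E : ℕ → R := fun n => if h : n < S.card then
    (if (enc.symm ⟨n, h⟩ : R) ∈ A then (enc.symm ⟨n, h⟩ : R) else a0) else a0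
  have hE : ∀ n, E n ∈ A := by
    intro n
    simp only [E]
    split_ifs with h1 h2
    · exact h2
    · exact ha0
    · exact ha0
  have hEenc : ∀ x : S, (x : R) ∈ A → E (enc x : ℕ) = x := by
    intro x hx
    simp only [E]
    rw [dif_pos (enc x).2]
    have : enc.symm ⟨(enc x : ℕ), (enc x).2⟩ = x := by
      rw [Fin.eta, Equiv.symm_apply_apply]
    rw [this, if_pos hx]
  let Φ : Language.ring.Formula ℕ := Formula.iExs B (BoundedFormula.restrictFreeVar Θ ρ)
  obtain ⟨c, hc⟩ := fol_to_raw Φ
  have h1 : semTr c E := by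
    rw [hc, RealizeR, Formula.realize_iExs]
    refine ⟨fun b => b.1, ?_⟩
    rw [Formula.Realize, BoundedFormula.realize_restrictFreeVar (id : R → R)]
    · exact hΘ
    · intro x
      by_cases hx : (x : R) ∈ A
      · simp only [ρ, dif_pos hx, Sum.elim_inl, id]
        exact hEenc x hx
      · simp only [ρ, dif_neg hx, Sum.elim_inr, id]
  have h2 := (hf c E hE).mp h1
  rw [hc, RealizeR, Formula.realize_iExs] at h2
  obtain ⟨y, hy⟩ := h2
  let g : R → R' := fun x => if x ∈ A then f x else
    if h : x ∈ S ∧ x ∉ A then y ⟨x, h⟩ else 0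
  have hgA : ∀ a ∈ A, g a = f a := fun a ha => by simp only [g]; rw [if_pos ha]
  refine ⟨g, hgA, ?_⟩
  rw [Formula.Realize, BoundedFormula.realize_restrictFreeVar g] at hy
  · have hy' : Θ.Realize g := hy
    rw [Formula.realize_iInf] at hy'
    intro q hq
    have h3 := hy' ⟨q, hq⟩
    simp only at h3
    split_ifs at h3 with hs
    · rw [Formula.realize_relabel] at h3
      exact ⟨fun _ => (hF _ _).mpr h3, fun _ => hs⟩
    · rw [Formula.realize_not, Formula.realize_relabel] at h3
      exact ⟨fun h => absurd h hs, fun h => absurd ((hF _ _).mp h) h3⟩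
  · intro x
    by_cases hx : (x : R) ∈ A
    · simp only [ρ, dif_pos hx, Sum.elim_inl]
      rw [hEenc x hx, hgA _ hx]
    · simp only [ρ, dif_neg hx, Sum.elim_inr, g]
      rw [if_neg hx, dif_pos ⟨x.2, hx⟩]

end Pool.Agent.H92.Tilt
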