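import Pool.Agent.H92.Tilt.Up
import Pool.Agent.H92.Tilt.Fol
import Pool.Agent.H92.Tilt.T2

/-!
Module G1: truncated compactness and the Frobenius inverse limit.

`TE_of_EExt`: truncated formulas are `sat`-formulas (`T2`).
Step 1: from `hTE` and `raw_compact` (with `R = M.Tr`, `R' = M'.Tr`, `A` the classes of `A ∩ O`,
`f (cls a) := cls (e a)`, well defined by `hTE` for the formula `x0 = x1`), an ultrapower of `M'` over the finite sets of pairs
(raw formula, environment) gives `M1`, `j1 : M' → M1` and `σ : M.Om → M1.Om`, `σ` maps `K ∩ O` to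
`K ∩ O`, `cls x ↦ cls (σ x)` preserves raw formulas, `cls (σ a) = cls (j1 (e a))` for `a ∈ A ∩ O`.
Step 2: `M''` := ultrapower of `M1` over `ℕ` (hyperfilter). For `a ∈ K ∩ O1` choose `n` with `t^n a ∈ O` (`n = 0`
if `a ∈ O`) and put `lam a := t^(-n) [k ↦ σ ((t^n a)^(1/p^k)) ^ (p^k)]`. With `y_k(a) := σ(a^(1/p^k))^(p^k)`
(`a ∈ K ∩ O`): `y_{k+1}(a) ≡ y_k(a)` mod `t^(p^k)`, so `lam a ≡ y_k(a)` mod `t^(p^k)`; sums and products up
to `t^(p^k)` at index `k` (`σ` is a ring homomorphism modulo `t`); `e a ≡ y_k(a)` for `a ∈ A ∩ O`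
(`A` is perfect); if `a` is not in `t^(p^k) O`, then `a^(1/p^k) ∉ t O`, `σ(..) ∉ t O`, `y_k(a) ∉ t^(p^k) O`.
`TE` for `lam`: `lam x ≡ σ x` mod `t` and `TE_of_EExt`. Fine ring: for `x ∉ O`, `x ∈ O1`:
`lam x lam (x⁻¹) ≡ 1` and `lam (x⁻¹)` is a nonunit modulo `t` by `TE`.
-/

set_option autoImplicit false
set_option linter.unusedSectionVars false
set_option linter.unusedVariables false

namespace Pool.Agent.H92.Tilt

variable {p : ℕ} [Fact p.Prime]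

namespace Pk

variable (M : Pk p)

/-- Divisibility by `t ^ n` in `O`. -/
def g1_Dv (n : ℕ) (x : M.Om) : Prop := (M.t ^ n)⁻¹ * x ∈ M.O

theorem g1_tpow_ne (n : ℕ) : M.t ^ n ≠ 0 := pow_ne_zero _ M.t0

theorem g1_dv_iff (n : ℕ) (x : M.Om) : M.g1_Dv n x ↔ ∃ y ∈ M.O, x = M.t ^ n * y := by
  constructor
  · intro h
    exact ⟨_, h, by rw [← mul_assoc, mul_inv_cancel₀ (M.g1_tpow_ne n), one_mul]⟩
  · rintro ⟨y, hy, rfl⟩
    have : (M.t ^ n)⁻¹ * (M.t ^ n * y) = y := by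
      rw [← mul_assoc, inv_mul_cancel₀ (M.g1_tpow_ne n), one_mul]
    unfold g1_Dv
    rw [this]
    exact hy

theorem g1_dv_add {n : ℕ} {x y : M.Om} (hx : M.g1_Dv n x) (hy : M.g1_Dv n y) : M.g1_Dv n (x + y) := by
  unfold g1_Dv at *
  rw [mul_add]
  exact M.O.add_mem _ _ hx hy

theorem g1_dv_neg {n : ℕ} {x : M.Om} (hx : M.g1_Dv n x) : M.g1_Dv n (-x) := by
  unfold g1_Dv at *
  rw [mul_neg]
  exact M.O.neg_mem _ hx

theorem g1_dv_sub {n : ℕ} {x y : M.Om} (hx : M.g1_Dv n x) (hy : M.g1_Dv n y) : M.g1_Dv n (x - y) := by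
  rw [sub_eq_add_neg]
  exact M.g1_dv_add hx (M.g1_dv_neg hy)

theorem g1_dv_mul {n : ℕ} {x y : M.Om} (hx : x ∈ M.O) (hy : M.g1_Dv n y) : M.g1_Dv n (x * y) := by
  unfold g1_Dv at *
  have : (M.t ^ n)⁻¹ * (x * y) = x * ((M.t ^ n)⁻¹ * y) := by ring
  rw [this]
  exact M.O.mul_mem _ _ hx hy

theorem g1_dv_mono {m n : ℕ} (h : m ≤ n) {x : M.Om} (hx : M.g1_Dv n x) : M.g1_Dv m x := by
  obtain ⟨y, hy, rfl⟩ := (M.g1_dv_iff n x).1 hx
  refine (M.g1_dv_iff m _).2 ⟨M.t ^ (n - m) * y, M.O.mul_mem _ _ (pow_mem M.t_mem _) hy, ?_⟩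
  rw [← mul_assoc, ← pow_add]
  congr 2
  omega

theorem g1_dv_zero (x : M.Om) : M.g1_Dv 0 x ↔ x ∈ M.O := by
  unfold g1_Dv
  simp

theorem g1_dv_memO {n : ℕ} {x : M.Om} (hx : M.g1_Dv n x) : x ∈ M.O :=
  (M.g1_dv_zero x).1 (M.g1_dv_mono (Nat.zero_le n) hx)

theorem g1_dv_tpow (n : ℕ) {x : M.Om} (hx : x ∈ M.O) : M.g1_Dv n (M.t ^ n * x) :=
  (M.g1_dv_iff n _).2 ⟨x, hx, rfl⟩

theorem g1_val1_lt' (x : M.Om) : M.O1.valuation x < 1 ↔ ∀ n, M.g1_Dv n x := by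
  rw [M.val1_lt]
  exact forall_congr' fun n => (M.g1_dv_iff n x).symm

theorem g1_dv_pow {x : M.Om} (hx : M.g1_Dv 1 x) (k : ℕ) : M.g1_Dv k (x ^ k) := by
  obtain ⟨y, hy, rfl⟩ := (M.g1_dv_iff 1 x).1 hx
  refine (M.g1_dv_iff k _).2 ⟨y ^ k, pow_mem hy k, ?_⟩
  ring

theorem g1_dv_pow_sub {x y : M.Om} (h : M.g1_Dv 1 (x - y)) (k : ℕ) :
    M.g1_Dv (p ^ k) (x ^ p ^ k - y ^ p ^ k) := by
  rw [← sub_pow_char_pow]
  exact M.g1_dv_pow h _

theorem g1_memO_of_pow {n : ℕ} (hn : n ≠ 0) {x : M.Om} (hx : x ^ n ∈ M.O) : x ∈ M.O := by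
  rw [← M.O.valuation_le_one_iff] at hx ⊢
  rw [map_pow] at hx
  exact (pow_le_one_iff hn).1 hx

theorem g1_dv_of_pow {k : ℕ} {x : M.Om} (hx : M.g1_Dv (p ^ k) (x ^ p ^ k)) : M.g1_Dv 1 x := by
  have hp : p ^ k ≠ 0 := pow_ne_zero _ (Nat.Prime.ne_zero Fact.out)
  unfold g1_Dv at *
  apply M.g1_memO_of_pow hp
  have : ((M.t ^ 1)⁻¹ * x) ^ p ^ k = (M.t ^ p ^ k)⁻¹ * x ^ p ^ k := by
    rw [pow_one, mul_pow, inv_pow]
  rw [this]
  exact hx

/-- The `p ^ k`-th root. -/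
noncomputable def g1_rt (k : ℕ) (x : M.Om) : M.Om :=
  haveI : PerfectField M.Om := inferInstance
  (iterateFrobeniusEquiv M.Om p k).symm x

theorem g1_rt_pow (k : ℕ) (x : M.Om) : M.g1_rt k x ^ p ^ k = x := by
  have := (iterateFrobeniusEquiv M.Om p k).apply_symm_apply x
  rw [iterateFrobeniusEquiv_def] at this
  exact this

theorem g1_eq_of_pow {k : ℕ} {x y : M.Om} (h : x ^ p ^ k = y ^ p ^ k) : x = y := by
  have h1 : (x - y) ^ p ^ k = 0 := by rw [sub_pow_char_pow, h, sub_self]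
  exact sub_eq_zero.1 (pow_eq_zero_iff (pow_ne_zero _ (Nat.Prime.ne_zero Fact.out)) |>.1 h1)

theorem g1_rt_zero (x : M.Om) : M.g1_rt 0 x = x := by
  have := M.g1_rt_pow 0 x
  simpa using this

theorem g1_rt_add (k : ℕ) (x y : M.Om) : M.g1_rt k (x + y) = M.g1_rt k x + M.g1_rt k y := map_add _ x y

theorem g1_rt_mul (k : ℕ) (x y : M.Om) : M.g1_rt k (x * y) = M.g1_rt k x * M.g1_rt k y := map_mul _ x y

theorem g1_rt_succ (k : ℕ) (x : M.Om) : M.g1_rt (k + 1) x ^ p = M.g1_rt k x := by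
  apply M.g1_eq_of_pow (k := k)
  rw [← pow_mul, ← pow_succ', M.g1_rt_pow, M.g1_rt_pow]

theorem g1_rt_memO (k : ℕ) {x : M.Om} (hx : x ∈ M.O) : M.g1_rt k x ∈ M.O := by
  apply M.g1_memO_of_pow (n := p ^ k) (pow_ne_zero _ (Nat.Prime.ne_zero Fact.out))
  rw [M.g1_rt_pow]
  exact hx

theorem g1_rt_memK (k : ℕ) {x : M.Om} (hx : x ∈ M.K) : M.g1_rt k x ∈ M.K := by
  intro g hg
  apply M.g1_eq_of_pow (k := k)
  rw [← map_pow, M.g1_rt_pow]
  exact hx g hg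

theorem g1_rt_memOK (k : ℕ) {x : M.Om} (hx : x ∈ M.OK) : M.g1_rt k x ∈ M.OK :=
  ⟨M.g1_rt_memK k hx.1, M.g1_rt_memO k hx.2⟩

theorem g1_rt_mem {A : Subfield M.Om} (hA : PCl p A) (k : ℕ) {x : M.Om} (hx : x ∈ A) :
    M.g1_rt k x ∈ A := by
  induction k with
  | zero => rwa [M.g1_rt_zero]
  | succ k ih =>
    apply hA
    rw [M.g1_rt_succ]
    exact ih

/-- Environment with the variable `0` equal to `t⁻¹`. -/
def g1_env (e : ℕ → M.Om) : ℕ → M.Om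
  | 0 => M.t⁻¹
  | (n + 1) => e n

theorem g1_tinv_mem_K : M.t⁻¹ ∈ M.K := M.K.inv_mem M.t_mem_K

theorem g1_env_mem {e : ℕ → M.Om} (he : ∀ n, e n ∈ M.K) : ∀ n, M.g1_env e n ∈ M.K
  | 0 => M.g1_tinv_mem_K
  | (n + 1) => he n

theorem g1_cls_eq' {x y : M.Om} (hx : x ∈ M.OK) (hy : y ∈ M.OK) :
    M.cls x = M.cls y ↔ M.g1_Dv 1 (x - y) := by
  rw [M.cls_eq hx hy, M.g1_dv_iff]
  simp only [pow_one]

theorem g1_sat_T2 (c : ℕ) (φ : Fm 1) (hφ : φ.code = T2 c) (e : ℕ → M.Om)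
    (he : ∀ n, e n ∈ M.OK) : M.sat φ (M.g1_env e) ↔ semTr c (fun n => M.cls (e n)) := by
  have h := T2_sem (k := 1) M.K.toSubring M.O.toSubring (fun _ => M.t) M.cls M.t M.t⁻¹
    (mul_inv_cancel₀ M.t0) M.t_mem_K M.g1_tinv_mem_K M.t_mem M.cls_one
    (fun x hx y hy => M.cls_add hx hy) (fun x hx y hy => M.cls_mul hx hy)
    (fun q => M.cls_surj q)
    (fun x hx y hy => by
      rw [M.g1_cls_eq' hx hy]
      unfold g1_Dv
      rw [pow_one]
      rfl) c φ hφ (M.g1_env e) rfl he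
  exact h

end Pk

theorem TE_of_EExt {M M' : Pk p} {j : M.Om → M'.Om} (h : EExt M M' j) : TE M M' M.K j := by
  intro c e he
  obtain ⟨φ, hφ⟩ := T2_form 1 c
  have hj : ∀ n, j (e n) ∈ M'.OK := fun n =>
    ⟨h.rng _ (he n).1, (h.memO (he n).1).2 (he n).2⟩
  rw [← M.g1_sat_T2 c φ hφ e (fun n => ⟨(he n).1, (he n).2⟩),
    ← M'.g1_sat_T2 c φ hφ (fun n => j (e n)) hj, h.el φ _ (M.g1_env_mem fun n => (he n).1)]
  have : (fun n => j (M.g1_env e n)) = M'.g1_env (fun n => j (e n)) := by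
    funext n
    cases n with
    | zero =>
      have h1 : j M.t * j M.t⁻¹ = 1 := by
        rw [← h.hom.mul _ M.t_mem_K _ M.g1_tinv_mem_K, mul_inv_cancel₀ M.t0, h.hom.one]
      rw [h.t] at h1
      exact eq_inv_of_mul_eq_one_right h1
    | succ n => rfl
  rw [this]

theorem TE.congr {M M' : Pk p} {A : Subfield M.Om} (hA : A ≤ M.K) {f g : M.Om → M'.Om}
    (h : TE M M' A f)
    (hfg : ∀ x ∈ A, x ∈ M.O → M'.cls (f x) = M'.cls (g x)) : TE M M' A g := by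
  intro c e he
  rw [h c e he]
  have : (fun n => M'.cls (f (e n))) = fun n => M'.cls (g (e n)) :=
    funext fun n => hfg _ (he n).1 (he n).2
  rw [this]


section Up

variable {I : Type} {U : Ultrafilter I} {M : I → Pk p} {N : Pk p}
  {mk : (∀ i, (M i).Om) → N.Om} (h : IsUp U M N mk)

include h

theorem IsUp.g1_zero' : mk (fun _ => 0) = 0 := by
  have h1 := h.add (fun _ => 0) (fun _ => 0)
  simp only [add_zero] at h1
  exact left_eq_add.1 h1

theorem IsUp.g1_sub' (x y : ∀ i, (M i).Om) : mk (fun i => x i - y i) = mk x - mk y := by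
  have h1 := h.add (fun i => x i - y i) y
  simp only [sub_add_cancel] at h1
  exact (sub_eq_of_eq_add h1).symm

theorem IsUp.g1_pow' (x : ∀ i, (M i).Om) (n : ℕ) : mk (fun i => x i ^ n) = mk x ^ n := by
  induction n with
  | zero => simpa using h.one
  | succ n ih =>
    simp only [pow_succ]
    rw [h.mul, ih]

theorem IsUp.g1_tinv : mk (fun i => (M i).t⁻¹) = N.t⁻¹ := by
  have h1 := h.mul (fun i => (M i).t) (fun i => (M i).t⁻¹)
  have h2 : (fun i => (M i).t * (M i).t⁻¹) = fun i => (1 : (M i).Om) :=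
    funext fun i => mul_inv_cancel₀ (M i).t0
  rw [h2, h.one, h.t] at h1
  exact eq_inv_of_mul_eq_one_right h1.symm

theorem IsUp.g1_dv (n : ℕ) (x : ∀ i, (M i).Om) :
    N.g1_Dv n (mk x) ↔ ∀ᶠ i in (U : Filter I), (M i).g1_Dv n (x i) := by
  unfold Pk.g1_Dv
  rw [← h.memO]
  have : mk (fun i => ((M i).t ^ n)⁻¹ * x i) = (N.t ^ n)⁻¹ * mk x := by
    have h1 : (fun i => ((M i).t ^ n)⁻¹ * x i) = fun i => ((M i).t⁻¹) ^ n * x i :=
      funext fun i => by rw [inv_pow]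
    rw [h1, h.mul (fun i => ((M i).t⁻¹) ^ n) x, h.g1_pow' (fun i => (M i).t⁻¹) n, h.g1_tinv, inv_pow]
  rw [this]

theorem IsUp.g1_memOK (x : ∀ i, (M i).Om) :
    mk x ∈ N.OK ↔ ∀ᶠ i in (U : Filter I), x i ∈ (M i).OK := by
  rw [N.mem_OK, h.memK, h.memO, ← Filter.eventually_and]
  rfl

theorem IsUp.g1_env' (e : ℕ → ∀ i, (M i).Om) :
    (fun n => mk ((fun i => (M i).g1_env (fun m => e m i) n))) = N.g1_env (fun n => mk (e n)) := by
  funext n
  cases n with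
  | zero => exact h.g1_tinv
  | succ n => rfl

/-- Łos for raw formulas. -/
theorem IsUp.g1_losTr (c : ℕ) (e : ℕ → ∀ i, (M i).Om) (he : ∀ n i, e n i ∈ (M i).OK) :
    semTr c (fun n => N.cls (mk (e n))) ↔
      ∀ᶠ i in (U : Filter I), semTr c (fun n => (M i).cls (e n i)) := by
  obtain ⟨φ, hφ⟩ := T2_form 1 c
  have h1 : ∀ n, mk (e n) ∈ N.OK := fun n =>
    (h.g1_memOK _).2 (Filter.Eventually.of_forall fun i => he n i)
  rw [← N.g1_sat_T2 c φ hφ (fun n => mk (e n)) h1, ← h.g1_env', h.los φ]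
  · refine Filter.eventually_congr (Filter.Eventually.of_forall fun i => ?_)
    exact (M i).g1_sat_T2 c φ hφ (fun n => e n i) (fun n => he n i)
  · intro n i
    exact (M i).g1_env_mem (fun m => (he m i).1) n

end Up

/-- Step 1. -/
theorem g1_step1 {M M' : Pk p} {A : Subfield M.Om} (hA : A ≤ M.K)
    {e : M.Om → M'.Om} (heK : ∀ x ∈ A, e x ∈ M'.K)
    (heO : ∀ x ∈ A, x ∈ M.O ↔ e x ∈ M'.O) (hTE : TE M M' A e) :
    ∃ (M1 : Pk p) (j : M'.Om → M1.Om) (σ : M.Om → M1.Om), EExt M' M1 j ∧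
      (∀ x ∈ M.OK, σ x ∈ M1.OK) ∧ TE M M1 M.K σ ∧
      ∀ x ∈ A, x ∈ M.O → M1.g1_Dv 1 (σ x - j (e x)) := by
  classical
  let AA : Set M.Tr := {y | ∃ a ∈ A, a ∈ M.O ∧ M.cls a = y}
  have hAAch : ∀ y : AA, ∃ a ∈ A, a ∈ M.O ∧ M.cls a = y.1 := fun y => y.2
  choose ch hchA hchO hch using hAAch
  let f : M.Tr → M'.Tr := fun y => if h : y ∈ AA then M'.cls (e (ch ⟨y, h⟩)) else 0
  have hOK : ∀ a ∈ A, a ∈ M.O → a ∈ M.OK := fun a ha hO => ⟨hA ha, hO⟩
  have hOK' : ∀ a ∈ A, a ∈ M.O → e a ∈ M'.OK := fun a ha hO => ⟨heK a ha, (heO a ha).1 hO⟩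
  have hwd : ∀ a ∈ A, a ∈ M.O → ∀ b ∈ A, b ∈ M.O → M.cls a = M.cls b →
      M'.cls (e a) = M'.cls (e b) := by
    intro a ha haO b hb hbO hab
    have := hTE (Nat.pair 0 (Nat.pair (Nat.pair 0 0) (Nat.pair 0 1)))
      (fun n => if n = 0 then a else b)
      (fun n => by by_cases hn : n = 0 <;> simp [hn, ha, haO, hb, hbO])
    simpa [hab] using this
  have hf : ∀ a ∈ A, a ∈ M.O → f (M.cls a) = M'.cls (e a) := by
    intro a ha haO
    have hm : M.cls a ∈ AA := ⟨a, ha, haO, rfl⟩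
    have : f (M.cls a) = M'.cls (e (ch ⟨M.cls a, hm⟩)) := by
      simp only [f]
      rw [dif_pos hm]
    rw [this]
    exact hwd _ (hchA _) (hchO _) _ ha haO (hch _)
  have hfAA : ∀ (c : ℕ) (e' : ℕ → M.Tr), (∀ n, e' n ∈ AA) →
      (semTr c e' ↔ semTr c (fun n => f (e' n))) := by
    intro c e' he'
    have h1 : (fun n => M.cls (ch ⟨e' n, he' n⟩)) = e' := funext fun n => hch _
    have h2 := hTE c (fun n => ch ⟨e' n, he' n⟩) (fun n => ⟨hchA _, hchO _⟩)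
    rw [h1] at h2
    rw [h2]
    have h3 : (fun n => f (e' n)) = fun n => M'.cls (e (ch ⟨e' n, he' n⟩)) := by
      funext n
      have h5 := hf _ (hchA ⟨e' n, he' n⟩) (hchO _)
      rw [hch] at h5
      exact h5
    rw [h3]
  have hne : AA.Nonempty := ⟨M.cls 0, 0, A.zero_mem, M.O.zero_mem, rfl⟩
  let I := Finset (ℕ × (ℕ → M.Tr))
  have hg : ∀ Ψ : I, ∃ g : M.Tr → M'.Tr, (∀ a ∈ AA, g a = f a) ∧
      ∀ q ∈ Ψ, (semTr q.1 q.2 ↔ semTr q.1 (fun n => g (q.2 n))) :=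
    fun Ψ => raw_compact AA hne f hfAA Ψ
  choose g hgA hgΨ using hg
  let U : Ultrafilter I := Ultrafilter.of Filter.atTop
  obtain ⟨N, mk, hN⟩ := exists_up U (fun _ : I => M')
  have hs : ∀ (Ψ : I) (x : M.Om), ∃ y ∈ M'.OK, M'.cls y = g Ψ (M.cls x) :=
    fun Ψ x => M'.cls_surj _
  choose s hsOK hscls using hs
  refine ⟨N, fun x => mk (fun _ => x), fun x => mk (fun Ψ => s Ψ x),
    hN.eext (M0 := M') (fun _ x => x) (fun _ => EExt.refl M'), ?_, ?_, ?_⟩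
  · intro x hx
    exact (hN.g1_memOK _).2 (Filter.Eventually.of_forall fun Ψ => hsOK Ψ x)
  · intro c e' he'
    rw [hN.g1_losTr c (fun n Ψ => s Ψ (e' n)) (fun n Ψ => hsOK Ψ _)]
    have h1 : ∀ᶠ Ψ in (U : Filter I), ({(c, fun n => M.cls (e' n))} : I) ≤ Ψ :=
      (Ultrafilter.of_le Filter.atTop) (Filter.eventually_ge_atTop _)
    have h2 : ∀ᶠ Ψ in (U : Filter I), (semTr c (fun n => M'.cls (s Ψ (e' n))) ↔
        semTr c (fun n => M.cls (e' n))) := by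
      filter_upwards [h1] with Ψ hΨ
      have h3 := hgΨ Ψ (c, fun n => M.cls (e' n)) (hΨ (Finset.mem_singleton_self _))
      have h4 : (fun n => M'.cls (s Ψ (e' n))) = fun n => g Ψ (M.cls (e' n)) :=
        funext fun n => hscls Ψ _
      rw [h4]
      exact h3.symm
    rw [Filter.eventually_congr h2, Filter.eventually_const]
  · intro a ha haO
    show N.g1_Dv 1 (mk (fun Ψ => s Ψ a) - mk (fun _ => e a))
    rw [← hN.g1_sub', hN.g1_dv]
    refine Filter.Eventually.of_forall fun Ψ => ?_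
    rw [← M'.g1_cls_eq' (hsOK Ψ a) (hOK' a ha haO), hscls, hgA Ψ _ ⟨a, ha, haO, rfl⟩]
    exact hf a ha haO


section Yk

variable {M P : Pk p} (σ : M.Om → P.Om)

/-- The approximations. -/
noncomputable def g1_yk (k : ℕ) (a : M.Om) : P.Om := σ (M.g1_rt k a) ^ p ^ k

variable {σ} (hσ : ∀ x ∈ M.OK, σ x ∈ P.OK) (hTE : TE M P M.K σ)

include hσ in
theorem g1_yk_memOK (k : ℕ) {a : M.Om} (ha : a ∈ M.OK) : g1_yk σ k a ∈ P.OK :=
  pow_mem (hσ _ (M.g1_rt_memOK k ha)) _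

theorem g1_yk_zero (a : M.Om) : g1_yk σ 0 a = σ a := by
  unfold g1_yk
  rw [M.g1_rt_zero, pow_zero, pow_one]

include hσ hTE in
theorem g1_sig_add {a b : M.Om} (ha : a ∈ M.OK) (hb : b ∈ M.OK) :
    P.g1_Dv 1 (σ (a + b) - (σ a + σ b)) := by
  have h1 := hTE (Nat.pair 0 (Nat.pair (Nat.pair 0 0) (Nat.pair 5 (Nat.pair (Nat.pair 0 1)
    (Nat.pair 0 2))))) (fun n => if n = 0 then a + b else if n = 1 then a else b)
    (fun n => by
      by_cases h0 : n = 0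
      · simp only [h0, if_true]
        exact M.OK.add_mem ha hb
      · by_cases h1 : n = 1
        · simp only [h1, one_ne_zero, if_false, if_true]
          exact ha
        · simp only [h0, h1, if_false]
          exact hb)
  simp only [semTr_eq, rev_var, rev_add, if_true, one_ne_zero, if_false, OfNat.ofNat_ne_zero,
    OfNat.ofNat_ne_one] at h1
  rw [← P.g1_cls_eq' (hσ _ (M.OK.add_mem ha hb)) (P.OK.add_mem (hσ _ ha) (hσ _ hb)),
    P.cls_add (hσ _ ha) (hσ _ hb)]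
  exact h1.1 (M.cls_add ha hb)

include hσ hTE in
theorem g1_sig_mul {a b : M.Om} (ha : a ∈ M.OK) (hb : b ∈ M.OK) :
    P.g1_Dv 1 (σ (a * b) - σ a * σ b) := by
  have h1 := hTE (Nat.pair 0 (Nat.pair (Nat.pair 0 0) (Nat.pair 6 (Nat.pair (Nat.pair 0 1)
    (Nat.pair 0 2))))) (fun n => if n = 0 then a * b else if n = 1 then a else b)
    (fun n => by
      by_cases h0 : n = 0
      · simp only [h0, if_true]
        exact M.OK.mul_mem ha hb
      · by_cases h1 : n = 1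
        · simp only [h1, one_ne_zero, if_false, if_true]
          exact ha
        · simp only [h0, h1, if_false]
          exact hb)
  simp only [semTr_eq, rev_var, rev_mul, if_true, one_ne_zero, if_false, OfNat.ofNat_ne_zero,
    OfNat.ofNat_ne_one] at h1
  rw [← P.g1_cls_eq' (hσ _ (M.OK.mul_mem ha hb)) (P.OK.mul_mem (hσ _ ha) (hσ _ hb)),
    P.cls_mul (hσ _ ha) (hσ _ hb)]
  exact h1.1 (M.cls_mul ha hb)

include hσ hTE in
theorem g1_sig_one : P.g1_Dv 1 (σ 1 - 1) := by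
  have h1 := hTE (Nat.pair 0 (Nat.pair (Nat.pair 0 0) (Nat.pair 3 0))) (fun _ => 1)
    (fun n => M.OK.one_mem)
  simp only [semTr_eq, rev_var, rev_one] at h1
  rw [← P.g1_cls_eq' (hσ _ M.OK.one_mem) P.OK.one_mem, P.cls_one]
  exact h1.1 M.cls_one

include hσ hTE in
theorem g1_sig_dv {a : M.Om} (ha : a ∈ M.OK) : P.g1_Dv 1 (σ a) ↔ M.g1_Dv 1 a := by
  have h1 := hTE (Nat.pair 0 (Nat.pair (Nat.pair 0 0) (Nat.pair 2 0))) (fun _ => a)
    (fun n => ha)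
  simp only [semTr_eq, rev_var, rev_zero] at h1
  have h2 := P.g1_cls_eq' (hσ _ ha) P.OK.zero_mem
  have h3 := M.g1_cls_eq' ha M.OK.zero_mem
  rw [P.cls_zero, sub_zero] at h2
  rw [M.cls_zero, sub_zero] at h3
  rw [← h2, ← h3]
  exact h1.symm

include hσ hTE in
theorem g1_sig_pow {a : M.Om} (ha : a ∈ M.OK) (n : ℕ) : P.g1_Dv 1 (σ (a ^ n) - σ a ^ n) := by
  induction n with
  | zero =>
    simp only [pow_zero]
    exact g1_sig_one hσ hTE
  | succ n ih =>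
    have h1 := g1_sig_mul hσ hTE (pow_mem ha n) ha
    have h2 := P.g1_dv_mul (hσ _ ha).2 ih
    have h3 := P.g1_dv_add h1 h2
    have : σ (a ^ (n + 1)) - σ a ^ (n + 1) =
        σ (a ^ n * a) - σ (a ^ n) * σ a + σ a * (σ (a ^ n) - σ a ^ n) := by
      rw [pow_succ]
      ring
    rw [this]
    exact h3

include hσ hTE in
theorem g1_yk_succ (k : ℕ) {a : M.Om} (ha : a ∈ M.OK) :
    P.g1_Dv (p ^ k) (g1_yk σ (k + 1) a - g1_yk σ k a) := by
  have h1 := g1_sig_pow hσ hTE (M.g1_rt_memOK (k + 1) ha) p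
  rw [M.g1_rt_succ] at h1
  have h2 := P.g1_dv_pow_sub h1 k
  have h3 := P.g1_dv_neg h2
  unfold g1_yk
  rw [neg_sub, ← pow_mul, ← pow_succ'] at h3
  exact h3

include hσ hTE in
theorem g1_yk_le {k l : ℕ} (h : k ≤ l) {a : M.Om} (ha : a ∈ M.OK) :
    P.g1_Dv (p ^ k) (g1_yk σ l a - g1_yk σ k a) := by
  induction l, h using Nat.le_induction with
  | base =>
    rw [sub_self]
    unfold Pk.g1_Dv
    rw [mul_zero]
    exact P.O.zero_mem
  | succ l hl ih =>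
    have h1 := g1_yk_succ hσ hTE l ha
    have h2 := P.g1_dv_add (P.g1_dv_mono (Nat.pow_le_pow_right (Nat.Prime.pos Fact.out) hl) h1) ih
    rw [sub_add_sub_cancel] at h2
    exact h2

include hσ hTE in
theorem g1_yk_add (k : ℕ) {a b : M.Om} (ha : a ∈ M.OK) (hb : b ∈ M.OK) :
    P.g1_Dv (p ^ k) (g1_yk σ k (a + b) - (g1_yk σ k a + g1_yk σ k b)) := by
  have h1 := P.g1_dv_pow_sub (g1_sig_add hσ hTE (M.g1_rt_memOK k ha) (M.g1_rt_memOK k hb)) k
  rw [← M.g1_rt_add, add_pow_char_pow] at h1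
  exact h1

include hσ hTE in
theorem g1_yk_mul (k : ℕ) {a b : M.Om} (ha : a ∈ M.OK) (hb : b ∈ M.OK) :
    P.g1_Dv (p ^ k) (g1_yk σ k (a * b) - g1_yk σ k a * g1_yk σ k b) := by
  have h1 := P.g1_dv_pow_sub (g1_sig_mul hσ hTE (M.g1_rt_memOK k ha) (M.g1_rt_memOK k hb)) k
  rw [← M.g1_rt_mul, mul_pow] at h1
  exact h1

include hσ hTE in
theorem g1_yk_dv (k : ℕ) {a : M.Om} (ha : a ∈ M.OK) (h : P.g1_Dv (p ^ k) (g1_yk σ k a)) :
    M.g1_Dv (p ^ k) a := by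
  have h1 := P.g1_dv_of_pow h
  rw [g1_sig_dv hσ hTE (M.g1_rt_memOK k ha)] at h1
  have h2 := M.g1_dv_pow h1 (p ^ k)
  rwa [M.g1_rt_pow] at h2

end Yk


section Val1

variable (N : Pk p)

theorem Pk.g1_t_val1 : N.O1.valuation N.t = 1 := by
  apply le_antisymm
  · exact (N.O1.valuation_le_one_iff _).2 (N.O_le_O1 N.t_mem)
  · have h1 : N.O1.valuation N.t⁻¹ ≤ 1 :=
      (N.O1.valuation_le_one_iff _).2 ⟨1, by
        rw [pow_one, mul_inv_cancel₀ N.t0]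
        exact N.O.one_mem⟩
    rw [map_inv₀] at h1
    have h2 : N.O1.valuation N.t ≠ 0 := (map_ne_zero _).2 N.t0
    exact (inv_le_one₀ (zero_lt_iff.2 h2)).1 h1

/-- Congruence modulo the maximal ideal of `O1`. -/
def Pk.g1_cg (x y : N.Om) : Prop := N.O1.valuation (x - y) < 1

theorem Pk.g1_cg_iff (x y : N.Om) : N.g1_cg x y ↔ ∀ n, N.g1_Dv n (x - y) := N.g1_val1_lt' _

theorem Pk.g1_cg_refl (x : N.Om) : N.g1_cg x x := by
  unfold Pk.g1_cg
  rw [sub_self, map_zero]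
  exact zero_lt_one

theorem Pk.g1_cg_symm {x y : N.Om} (h : N.g1_cg x y) : N.g1_cg y x := by
  unfold Pk.g1_cg at *
  rwa [Valuation.map_sub_swap]

theorem Pk.g1_cg_trans {x y z : N.Om} (h : N.g1_cg x y) (h' : N.g1_cg y z) : N.g1_cg x z := by
  unfold Pk.g1_cg at *
  have : x - z = (x - y) + (y - z) := by ring
  rw [this]
  exact lt_of_le_of_lt (Valuation.map_add _ _ _) (max_lt h h')

theorem Pk.g1_cg_add {x y x' y' : N.Om} (h : N.g1_cg x y) (h' : N.g1_cg x' y') :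
    N.g1_cg (x + x') (y + y') := by
  unfold Pk.g1_cg at *
  have : x + x' - (y + y') = (x - y) + (x' - y') := by ring
  rw [this]
  exact lt_of_le_of_lt (Valuation.map_add _ _ _) (max_lt h h')

theorem Pk.g1_cg_mul_left {x y z : N.Om} (hz : z ∈ N.O1) (h : N.g1_cg x y) : N.g1_cg (z * x) (z * y) := by
  unfold Pk.g1_cg at *
  rw [← mul_sub, map_mul]
  exact mul_lt_one_of_nonneg_of_lt_one_right ((N.O1.valuation_le_one_iff _).2 hz) zero_le h

theorem Pk.g1_cg_memO1 {x y : N.Om} (h : N.g1_cg x y) (hx : x ∈ N.O1) : y ∈ N.O1 := by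
  have h1 : x - y ∈ N.O1 := (N.O1.valuation_le_one_iff _).1 h.le
  have : y = x - (x - y) := by ring
  rw [this]
  exact sub_mem hx h1

theorem Pk.g1_cg_mul {x y x' y' : N.Om} (hx : x ∈ N.O1) (hy' : y' ∈ N.O1) (h : N.g1_cg x y)
    (h' : N.g1_cg x' y') : N.g1_cg (x * x') (y * y') := by
  have h1 := N.g1_cg_mul_left hx h'
  have h2 := N.g1_cg_mul_left hy' h
  rw [mul_comm y' x, mul_comm y' y] at h2
  exact N.g1_cg_trans h1 h2

theorem Pk.g1_cg_val {x y : N.Om} (h : N.g1_cg x y) :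
    N.O1.valuation x < 1 ↔ N.O1.valuation y < 1 := by
  constructor
  · intro hx
    have h1 := N.g1_cg_symm h
    unfold Pk.g1_cg at h1
    have : y = (y - x) + x := by ring
    rw [this]
    exact lt_of_le_of_lt (Valuation.map_add _ _ _) (max_lt h1 hx)
  · intro hy
    unfold Pk.g1_cg at h
    have : x = (x - y) + y := by ring
    rw [this]
    exact lt_of_le_of_lt (Valuation.map_add _ _ _) (max_lt h hy)

theorem Pk.g1_tpow_inv_memO1 (n : ℕ) : (N.t ^ n)⁻¹ ∈ N.O1 :=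
  ⟨n, by rw [mul_inv_cancel₀ (N.g1_tpow_ne n)]; exact N.O.one_mem⟩

theorem Pk.g1_val1_tpow_inv (n : ℕ) (x : N.Om) :
    N.O1.valuation ((N.t ^ n)⁻¹ * x) = N.O1.valuation x := by
  rw [map_mul, map_inv₀, map_pow, N.g1_t_val1, one_pow, inv_one, one_mul]

theorem Pk.g1_val1_tpow (n : ℕ) (x : N.Om) :
    N.O1.valuation (N.t ^ n * x) = N.O1.valuation x := by
  rw [map_mul, map_pow, N.g1_t_val1, one_pow, one_mul]

end Val1

/-- Data after step 2. -/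
theorem g1_step2 {M P : Pk p} {A : Subfield M.Om} (hA : A ≤ M.K) (hp : PCl p A)
    {σ e : M.Om → P.Om} (hσ : ∀ x ∈ M.OK, σ x ∈ P.OK) (hTE : TE M P M.K σ)
    (he : ∀ x ∈ A, ∀ y ∈ A, e (x * y) = e x * e y) (he1 : e 1 = 1)
    (heσ : ∀ x ∈ A, x ∈ M.O → P.g1_Dv 1 (σ x - e x)) :
    ∃ (N : Pk p) (j : P.Om → N.Om) (L : M.Om → N.Om), EExt P N j ∧
      (∀ x ∈ M.OK, L x ∈ N.OK) ∧
      (∀ x ∈ M.OK, ∀ y ∈ M.OK, N.g1_cg (L (x + y)) (L x + L y)) ∧
      (∀ x ∈ M.OK, ∀ y ∈ M.OK, N.g1_cg (L (x * y)) (L x * L y)) ∧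
      (∀ x ∈ A, x ∈ M.O → N.g1_cg (L x) (j (e x))) ∧
      (∀ x ∈ M.OK, N.g1_Dv 1 (L x - j (σ x))) ∧
      (∀ x ∈ M.OK, N.O1.valuation (L x) < 1 → M.O1.valuation x < 1) := by
  classical
  let U : Ultrafilter ℕ := Filter.hyperfilter ℕ
  have hU : (U : Filter ℕ) ≤ Filter.atTop := Nat.hyperfilter_le_atTop
  obtain ⟨N, mk, hN⟩ := exists_up U (fun _ : ℕ => P)
  have hj : EExt P N (fun x => mk (fun _ => x)) :=
    hN.eext (M0 := P) (fun _ x => x) (fun _ => EExt.refl P)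
  have hcg : ∀ u v : ℕ → P.Om, (∀ k, P.g1_Dv (p ^ k) (u k - v k)) → N.g1_cg (mk u) (mk v) := by
    intro u v huv
    rw [N.g1_cg_iff]
    intro n
    rw [← hN.g1_sub' u v, hN.g1_dv]
    refine hU ((Filter.eventually_ge_atTop n).mono fun k hk => ?_)
    exact P.g1_dv_mono (hk.trans (Nat.lt_pow_self (Nat.Prime.one_lt Fact.out)).le) (huv k)
  have hyk : ∀ (k : ℕ) (x : M.Om), x ∈ M.OK →
      N.g1_Dv (p ^ k) (mk (fun l => g1_yk σ l x) - mk (fun _ => g1_yk σ k x)) := by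
    intro k x hx
    rw [← hN.g1_sub' (fun l => g1_yk σ l x) (fun _ => g1_yk σ k x), hN.g1_dv]
    exact hU ((Filter.eventually_ge_atTop k).mono fun l hl => g1_yk_le hσ hTE hl hx)
  refine ⟨N, fun x => mk (fun _ => x), fun x => mk (fun k => g1_yk σ k x), hj, ?_, ?_, ?_, ?_, ?_, ?_⟩
  · intro x hx
    exact (hN.g1_memOK _).2 (Filter.Eventually.of_forall fun k => g1_yk_memOK hσ k hx)
  · intro x hx y hy
    have := hcg (fun k => g1_yk σ k (x + y)) (fun k => g1_yk σ k x + g1_yk σ k y)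
      (fun k => g1_yk_add hσ hTE k hx hy)
    rw [hN.add (fun k => g1_yk σ k x) (fun k => g1_yk σ k y)] at this
    exact this
  · intro x hx y hy
    have := hcg (fun k => g1_yk σ k (x * y)) (fun k => g1_yk σ k x * g1_yk σ k y)
      (fun k => g1_yk_mul hσ hTE k hx hy)
    rw [hN.mul (fun k => g1_yk σ k x) (fun k => g1_yk σ k y)] at this
    exact this
  · intro x hx hxO
    refine hcg (fun k => g1_yk σ k x) (fun _ => e x) fun k => ?_
    have h1 := P.g1_dv_pow_sub (heσ _ (M.g1_rt_mem hp k hx) (M.g1_rt_memO k hxO)) k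
    have h2 : ∀ (n : ℕ) (y : M.Om), y ∈ A → e (y ^ n) = e y ^ n := by
      intro n y hy
      induction n with
      | zero => simpa using he1
      | succ n ih => rw [pow_succ, he _ (pow_mem hy n) _ hy, ih, pow_succ]
    rw [← h2 _ _ (M.g1_rt_mem hp k hx), M.g1_rt_pow] at h1
    exact h1
  · intro x hx
    have h1 := hyk 0 x hx
    rw [g1_yk_zero, pow_zero] at h1
    exact h1
  · intro x hx hlt
    rw [M.g1_val1_lt']
    intro n
    have hn : n ≤ p ^ n := (Nat.lt_pow_self (Nat.Prime.one_lt Fact.out)).le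
    refine M.g1_dv_mono hn (g1_yk_dv hσ hTE n hx ?_)
    rw [N.g1_val1_lt'] at hlt
    have h1 := N.g1_dv_sub (hlt (p ^ n)) (hyk n x hx)
    rw [sub_sub_cancel, hN.g1_dv] at h1
    exact Filter.eventually_const.1 h1


theorem G1 {M M' : Pk p} {A : Subfield M.Om} (hA : A ≤ M.K) (hp : PCl p A) (htA : M.t ∈ A)
    {e : M.Om → M'.Om} (he : HomOn A e) (heK : ∀ x ∈ A, e x ∈ M'.K) (het : e M.t = M'.t)
    (heO : ∀ x ∈ A, x ∈ M.O ↔ e x ∈ M'.O) (hTE : TE M M' A e) :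
    ∃ (M1 : Pk p) (j : M'.Om → M1.Om) (lam : M.Om → M1.Om), EExt M' M1 j ∧
      AHom M.O1 M.K M1.O1 M1.K lam ∧ Good M.O1 M1.O1 M1.K lam A (j ∘ e) ∧
      TE M M1 M.K lam ∧ ∀ x ∈ M.K, x ∈ M.O1 → (x ∈ M.O ↔ lam x ∈ M1.O) := by
  classical
  obtain ⟨P, j1, σ, hj1, hσ, hσTE, hσA⟩ := g1_step1 hA heK heO hTE
  obtain ⟨N, j2, L, hj2, hL, hLadd, hLmul, hLA, hLσ, hLval⟩ :=
    g1_step2 (e := fun x => j1 (e x)) hA hp hσ hσTE
      (fun x hx y hy => by
        show j1 (e (x * y)) = j1 (e x) * j1 (e y)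
        rw [he.mul x hx y hy, hj1.hom.mul _ (heK x hx) _ (heK y hy)])
      (by
        show j1 (e 1) = 1
        rw [he.one, hj1.hom.one]) hσA
  have hj : EExt M' N (j2 ∘ j1) := hj1.comp hj2
  have hE : ∀ x ∈ A, ∀ y ∈ A, (j2 ∘ j1) (e (x * y)) = (j2 ∘ j1) (e x) * (j2 ∘ j1) (e y) := by
    intro x hx y hy
    rw [he.mul x hx y hy, hj.hom.mul _ (heK x hx) _ (heK y hy)]
  have hEt : (j2 ∘ j1) (e M.t) = N.t := by rw [het, hj.t]
  have hEtr : ∀ r : ℕ, (j2 ∘ j1) (e (M.t ^ r)) = N.t ^ r := by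
    intro r
    induction r with
    | zero => rw [pow_zero, pow_zero, he.one, hj.hom.one]
    | succ r ih => rw [pow_succ, hE _ (pow_mem htA r) _ htA, ih, hEt, pow_succ]
  have hO1 : ∀ x ∈ M.OK, L x ∈ N.O1 := fun x hx => N.O_le_O1 (hL x hx).2
  have htO : ∀ r : ℕ, M.t ^ r ∈ M.OK := fun r => ⟨pow_mem M.t_mem_K r, pow_mem M.t_mem r⟩
  have hNt : ∀ r : ℕ, N.t ^ r ∈ N.O1 := fun r => N.O_le_O1 (pow_mem N.t_mem r)
  have hLt : ∀ (r : ℕ), ∀ b ∈ M.OK, N.g1_cg (L (M.t ^ r * b)) (N.t ^ r * L b) := by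
    intro r b hb
    have h1 := hLmul _ (htO r) b hb
    have h2 := hLA _ (pow_mem htA r) (pow_mem M.t_mem r)
    have h3 : j2 (j1 (e (M.t ^ r))) = N.t ^ r := hEtr r
    rw [h3] at h2
    exact N.g1_cg_trans h1 (N.g1_cg_mul (hO1 _ (htO r)) (hO1 b hb) h2 (N.g1_cg_refl _))
  let lam : M.Om → N.Om := fun a =>
    if h : ∃ n, M.t ^ n * a ∈ M.O then (N.t ^ Nat.find h)⁻¹ * L (M.t ^ Nat.find h * a) else 0
  have hlam0 : ∀ a ∈ M.OK, lam a = L a := by
    intro a ha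
    have h : ∃ n, M.t ^ n * a ∈ M.O := ⟨0, by simpa using ha.2⟩
    have hf : Nat.find h = 0 := (Nat.find_eq_zero h).2 (by simpa using ha.2)
    simp only [lam]
    rw [dif_pos h, hf]
    simp
  have hlam : ∀ (m : ℕ) (a : M.Om), a ∈ M.K → M.t ^ m * a ∈ M.O →
      N.g1_cg (lam a) ((N.t ^ m)⁻¹ * L (M.t ^ m * a)) := by
    intro m a haK ha
    have h : ∃ n, M.t ^ n * a ∈ M.O := ⟨m, ha⟩
    have hfm : Nat.find h ≤ m := Nat.find_min' h ha
    have hb : M.t ^ Nat.find h * a ∈ M.OK :=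
      ⟨M.K.mul_mem (pow_mem M.t_mem_K _) haK, Nat.find_spec h⟩
    have h1 := hLt (m - Nat.find h) _ hb
    have h2 : M.t ^ (m - Nat.find h) * (M.t ^ Nat.find h * a) = M.t ^ m * a := by
      rw [← mul_assoc, ← pow_add, Nat.sub_add_cancel hfm]
    rw [h2] at h1
    have h3 := N.g1_cg_mul_left (N.g1_tpow_inv_memO1 m) (N.g1_cg_symm h1)
    have h4 : (N.t ^ m)⁻¹ * (N.t ^ (m - Nat.find h) * L (M.t ^ Nat.find h * a)) = lam a := by
      simp only [lam]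
      rw [dif_pos h]
      have h5 : N.t ^ m = N.t ^ (m - Nat.find h) * N.t ^ Nat.find h := by
        rw [← pow_add, Nat.sub_add_cancel hfm]
      have key : ∀ a b X : N.Om, a ≠ 0 → (a * b)⁻¹ * (a * X) = b⁻¹ * X := by
        intro a b X ha
        rw [mul_inv, mul_comm a⁻¹, mul_assoc, ← mul_assoc a⁻¹, inv_mul_cancel₀ ha, one_mul]
      rw [h5]
      exact key _ _ _ (N.g1_tpow_ne (m - Nat.find h))
    rw [h4] at h3
    exact h3
  have hker0 : ∀ b ∈ M.OK, (N.O1.valuation (L b) < 1 ↔ M.O1.valuation b < 1) := by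
    intro b hb
    refine ⟨hLval b hb, fun hlt => ?_⟩
    rw [N.g1_val1_lt']
    intro n
    have h1 := (M.g1_val1_lt' b).1 hlt n
    obtain ⟨c, hc, rfl⟩ := (M.g1_dv_iff n b).1 h1
    have hcK : c ∈ M.K := by
      have : c = (M.t ^ n)⁻¹ * (M.t ^ n * c) := by
        rw [← mul_assoc, inv_mul_cancel₀ (M.g1_tpow_ne n), one_mul]
      rw [this]
      exact M.K.mul_mem (M.K.inv_mem (pow_mem M.t_mem_K n)) hb.1
    have h2 := (N.g1_cg_iff _ _).1 (hLt n c ⟨hcK, hc⟩) n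
    have h3 := N.g1_dv_add h2 (N.g1_dv_tpow n (hL c ⟨hcK, hc⟩).2)
    rw [sub_add_cancel] at h3
    exact h3
  have hmK : ∀ (m : ℕ) (a : M.Om), a ∈ M.K → M.t ^ m * a ∈ M.K := fun m a ha =>
    M.K.mul_mem (pow_mem M.t_mem_K _) ha
  have hmono : ∀ (m n : ℕ) (a : M.Om), m ≤ n → M.t ^ m * a ∈ M.O → M.t ^ n * a ∈ M.O := by
    intro m n a hmn h
    have : M.t ^ n * a = M.t ^ (n - m) * (M.t ^ m * a) := by
      rw [← mul_assoc, ← pow_add, Nat.sub_add_cancel hmn]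
    rw [this]
    exact M.O.mul_mem _ _ (pow_mem M.t_mem _) h
  have hrng : ∀ x ∈ M.K, x ∈ M.O1 → lam x ∈ N.K ∧ lam x ∈ N.O1 := by
    rintro x hxK ⟨m, hm⟩
    have h : ∃ n, M.t ^ n * x ∈ M.O := ⟨m, hm⟩
    have hb : M.t ^ Nat.find h * x ∈ M.OK :=
      ⟨M.K.mul_mem (pow_mem M.t_mem_K _) hxK, Nat.find_spec h⟩
    have h4 : (N.t ^ Nat.find h)⁻¹ * L (M.t ^ Nat.find h * x) = lam x := by
      simp only [lam]
      rw [dif_pos h]
    rw [← h4]
    exact ⟨N.K.mul_mem (N.K.inv_mem (pow_mem N.t_mem_K _)) (hL _ hb).1,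
      mul_mem (N.g1_tpow_inv_memO1 _) (hO1 _ hb)⟩
  have hAH : AHom M.O1 M.K N.O1 N.K lam := by
    refine ⟨hrng, ?_, ?_, ?_, ?_⟩
    · rw [hlam0 1 M.OK.one_mem]
      have h1 := hLA 1 A.one_mem M.O.one_mem
      have h2 : j2 (j1 (e 1)) = 1 := by rw [he.one]; exact hj.hom.one
      rw [h2] at h1
      exact h1
    · rintro x hxK ⟨m, hm⟩ y hyK ⟨n, hn⟩
      have hx := hmono m (max m n) x (le_max_left _ _) hm
      have hy := hmono n (max m n) y (le_max_right _ _) hn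
      have hxy : M.t ^ (max m n) * (x + y) ∈ M.O := by
        rw [mul_add]
        exact M.O.add_mem _ _ hx hy
      have h1 := hlam _ _ (M.K.add_mem hxK hyK) hxy
      have h2 := hlam _ _ hxK hx
      have h3 := hlam _ _ hyK hy
      have h4 := hLadd _ ⟨hmK _ x hxK, hx⟩ _ ⟨hmK _ y hyK, hy⟩
      rw [← mul_add] at h4
      have h5 := N.g1_cg_mul_left (N.g1_tpow_inv_memO1 (max m n)) h4
      rw [mul_add ((N.t ^ max m n)⁻¹)] at h5
      exact N.g1_cg_trans h1 (N.g1_cg_trans h5 (N.g1_cg_symm (N.g1_cg_add h2 h3)))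
    · rintro x hxK ⟨m, hm⟩ y hyK ⟨n, hn⟩
      have hxy : M.t ^ (m + n) * (x * y) ∈ M.O := by
        have : M.t ^ (m + n) * (x * y) = (M.t ^ m * x) * (M.t ^ n * y) := by ring
        rw [this]
        exact M.O.mul_mem _ _ hm hn
      have h1 := hlam _ _ (M.K.mul_mem hxK hyK) hxy
      have h2 := hlam _ _ hxK hm
      have h3 := hlam _ _ hyK hn
      have h4 := hLmul _ ⟨hmK _ x hxK, hm⟩ _ ⟨hmK _ y hyK, hn⟩
      have h4' : M.t ^ m * x * (M.t ^ n * y) = M.t ^ (m + n) * (x * y) := by ring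
      rw [h4'] at h4
      have h5 := N.g1_cg_mul_left (N.g1_tpow_inv_memO1 (m + n)) h4
      have h6 : (N.t ^ (m + n))⁻¹ * (L (M.t ^ m * x) * L (M.t ^ n * y)) =
          ((N.t ^ m)⁻¹ * L (M.t ^ m * x)) * ((N.t ^ n)⁻¹ * L (M.t ^ n * y)) := by
        rw [pow_add, mul_inv]
        ring
      rw [h6] at h5
      have h7 := N.g1_cg_mul (hrng x hxK ⟨m, hm⟩).2
        (N.g1_cg_memO1 h3 (hrng y hyK ⟨n, hn⟩).2) h2 h3
      exact N.g1_cg_trans h1 (N.g1_cg_trans h5 (N.g1_cg_symm h7))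
    · rintro x hxK ⟨m, hm⟩
      rw [N.g1_cg_val (hlam m x hxK hm), N.g1_val1_tpow_inv, hker0 _ ⟨hmK m x hxK, hm⟩, M.g1_val1_tpow]
  have hlamTE : TE M N M.K lam := by
    have h1 : TE M N M.K (fun x => j2 (σ x)) := by
      intro c e' he'
      rw [hσTE c e' he']
      exact TE_of_EExt hj2 c (fun n => σ (e' n)) (fun n => hσ _ (he' n))
    refine h1.congr le_rfl fun x hx hxO => ?_
    have hx' : x ∈ M.OK := ⟨hx, hxO⟩
    have h2 : j2 (σ x) ∈ N.OK := ⟨hj2.rng _ (hσ x hx').1, (hj2.memO (hσ x hx').1).2 (hσ x hx').2⟩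
    rw [hlam0 x hx']
    exact ((N.g1_cls_eq' (hL x hx') h2).2 (hLσ x hx')).symm
  refine ⟨N, j2 ∘ j1, lam, hj, hAH, ⟨⟨?_, ?_, ?_⟩, ?_, ?_⟩, hlamTE, ?_⟩
  · show (j2 ∘ j1) (e 1) = 1
    rw [he.one, hj.hom.one]
  · intro x hx y hy
    show (j2 ∘ j1) (e (x + y)) = _
    rw [he.add x hx y hy, hj.hom.add _ (heK x hx) _ (heK y hy)]
    rfl
  · intro x hx y hy
    exact hE x hx y hy
  · intro x hx
    exact hj.rng _ (heK x hx)
  · rintro x hx ⟨m, hm⟩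
    have htx : M.t ^ m * x ∈ A := A.mul_mem (pow_mem htA m) hx
    have h1 := hlam m x (hA hx) hm
    have h2 := N.g1_cg_mul_left (N.g1_tpow_inv_memO1 m) (hLA _ htx hm)
    have h3 : (N.t ^ m)⁻¹ * j2 (j1 (e (M.t ^ m * x))) = (j2 ∘ j1) (e x) := by
      have h4 : j2 (j1 (e (M.t ^ m * x))) = (j2 ∘ j1) (e (M.t ^ m)) * (j2 ∘ j1) (e x) :=
        hE _ (pow_mem htA m) x hx
      rw [h4, hEtr, ← mul_assoc, inv_mul_cancel₀ (N.g1_tpow_ne m), one_mul]
    rw [h3] at h2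
    exact N.g1_cg_symm (N.g1_cg_trans h1 h2)
  · intro x hxK hxO1
    constructor
    · intro hxO
      rw [hlam0 x ⟨hxK, hxO⟩]
      exact (hL x ⟨hxK, hxO⟩).2
    · intro hlO
      by_contra hxO
      have hx0 : x ≠ 0 := fun h => hxO (by rw [h]; exact M.O.zero_mem)
      have hiO : x⁻¹ ∈ M.O := (M.O.mem_or_inv_mem x).resolve_left hxO
      have hiK : x⁻¹ ∈ M.K := M.K.inv_mem hxK
      have hi : x⁻¹ ∈ M.OK := ⟨hiK, hiO⟩
      -- `x⁻¹` is not a unit modulo `t`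
      have h1 := hlamTE (Nat.pair 4 (Nat.pair 1 (Nat.pair 2 (Nat.pair 0 (Nat.pair
        (Nat.pair 6 (Nat.pair (Nat.pair 0 0) (Nat.pair 0 1))) (Nat.pair 3 0))))))
        (fun _ => x⁻¹) (fun _ => ⟨hiK, hiO⟩)
      simp only [semTr_all, semTr_neg, semTr_eq, rev_mul, rev_var, rev_one,
        Function.update_self, Function.update_of_ne (zero_ne_one)] at h1
      have h2 : ∀ y : M.Tr, ¬ M.cls x⁻¹ * y = 1 := by
        intro y hy
        obtain ⟨z, hz, rfl⟩ := M.cls_surj y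
        rw [← M.cls_mul hi hz, ← M.cls_one, M.g1_cls_eq' (M.OK.mul_mem hi hz) M.OK.one_mem] at hy
        obtain ⟨w, hw, hw'⟩ := (M.g1_dv_iff 1 _).1 hy
        rw [pow_one] at hw'
        have h3 : M.O.valuation (x⁻¹ * z) = 1 := by
          have : x⁻¹ * z = 1 + M.t * w := by rw [← hw']; ring
          rw [this]
          apply Valuation.map_one_add_of_lt
          rw [map_mul]
          exact mul_lt_one_of_nonneg_of_lt_one_left zero_le M.tm
            ((M.O.valuation_le_one_iff _).2 hw)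
        have h4 : M.O.valuation x⁻¹ < 1 := by
          rw [map_inv₀]
          have h5 : 1 < M.O.valuation x := by
            by_contra h6
            exact hxO ((M.O.valuation_le_one_iff x).1 (not_lt.1 h6))
          exact inv_lt_one_of_one_lt₀ h5
        have h5 : M.O.valuation (x⁻¹ * z) < 1 := by
          rw [map_mul]
          exact mul_lt_one_of_nonneg_of_lt_one_left zero_le h4
            ((M.O.valuation_le_one_iff _).2 hz.2)
        rw [h3] at h5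
        exact lt_irrefl _ h5
      have h3 := h1.1 h2 (N.cls (lam x))
      apply h3
      have hlx : lam x ∈ N.OK := ⟨(hrng x hxK hxO1).1, hlO⟩
      have hli : lam x⁻¹ ∈ N.OK := by
        rw [hlam0 _ hi]
        exact hL _ hi
      rw [← N.cls_mul hli hlx, ← N.cls_one, N.g1_cls_eq' (N.OK.mul_mem hli hlx) N.OK.one_mem]
      have h4 := hAH.mul _ hiK (M.O_le_O1 hiO) x hxK hxO1
      rw [inv_mul_cancel₀ hx0] at h4
      have h5 := N.g1_cg_trans (N.g1_cg_symm h4) hAH.one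
      exact (N.g1_cg_iff _ _).1 h5 1

end Pool.Agent.H92.Tilt
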