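import Pool.Agent.H92.Tilt.B6
import Pool.Agent.H92.Tilt.Amb

/-!
Module TSP: transport of `W` along an embedding `f` of the valued field `K ≤ Ω` in `Ω'`.

Extend `f` to an embedding `F` of `M = acl K` (algebraic over `K`) in the algebraically closed `Ω'`
(`IsAlgClosed.lift`); `F M = acl K'`. The pullback of `O'` along `F` and `O ∩ M` are valuation rings of
`M` with the same trace on `K`, h-closed for `O ∩ M`: they are equal (`unique_ext` applied in the
algebraically closed field `M`). So `F` is an isomorphism of valued fields `acl K → acl K'` and all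
the notions (which only involve elements algebraic over `K`) correspond.
-/

set_option autoImplicit false

namespace Pool.Agent.H92.Tilt

open Polynomial

section TspAux

variable {Ω Ω' : Type*} [Field Ω] [Field Ω']

/-- The ring homomorphism of `HomOn`. -/
def tspHom {F : Subfield Ω} {e : Ω → Ω'} (h : HomOn F e) : F →+* Ω' where
  toFun x := e x
  map_one' := h.one
  map_mul' x y := h.mul x x.2 y y.2
  map_zero' := by
    have := h.add 0 F.zero_mem 0 F.zero_mem
    simpa using this
  map_add' x y := h.add x x.2 y y.2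

theorem tsp_val_lt_iff {R : Type*} [Field R] (O : ValuationSubring R) (x : R) :
    O.valuation x < 1 ↔ ¬ (x ≠ 0 ∧ x⁻¹ ∈ O) := by
  rw [← not_le, not_iff_not]
  constructor
  · intro h
    have h0 : x ≠ 0 := by
      rintro rfl
      simp at h
    refine ⟨h0, ?_⟩
    rw [← O.valuation_le_one_iff, map_inv₀]
    exact inv_le_one_of_one_le₀ h
  · rintro ⟨h0, h⟩
    rw [← O.valuation_le_one_iff, map_inv₀] at h
    have hv : O.valuation x ≠ 0 := (O.valuation.ne_zero_iff).2 h0
    by_contra hlt
    rw [not_le] at hlt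
    have h1 : 1 < (O.valuation x)⁻¹ := (one_lt_inv₀ (zero_lt_iff.2 hv)).2 hlt
    exact absurd h (not_le.2 h1)

/-- A ring homomorphism of fields that reflects the valuation rings reflects values below one. -/
theorem tsp_lt {R S : Type*} [Field R] [Field S] (O : ValuationSubring R) (O' : ValuationSubring S)
    (F : R →+* S) (h : ∀ x, x ∈ O ↔ F x ∈ O') (x : R) :
    O.valuation x < 1 ↔ O'.valuation (F x) < 1 := by
  rw [tsp_val_lt_iff, tsp_val_lt_iff, h, map_inv₀, _root_.map_ne_zero]

theorem tsp_eq {R S : Type*} [Field R] [Field S] (O : ValuationSubring R) (O' : ValuationSubring S)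
    (F : R →+* S) (h : ∀ x, x ∈ O ↔ F x ∈ O') (x : R) :
    O.valuation x = 1 ↔ O'.valuation (F x) = 1 := by
  have h1 := tsp_lt O O' F h x
  have h2 : O.valuation x ≤ 1 ↔ O'.valuation (F x) ≤ 1 := by
    rw [O.valuation_le_one_iff, O'.valuation_le_one_iff, h]
  constructor
  · intro he
    refine le_antisymm (h2.1 he.le) (not_lt.1 fun hlt => ?_)
    exact absurd (h1.2 hlt) (by rw [he]; exact lt_irrefl _)
  · intro he
    refine le_antisymm (h2.2 he.le) (not_lt.1 fun hlt => ?_)
    exact absurd (h1.1 hlt) (by rw [he]; exact lt_irrefl _)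

theorem tsp_coe_val_lt (O : ValuationSubring Ω) (K : Subfield Ω) (x : K) :
    (rsO K O).valuation x < 1 ↔ O.valuation (x : Ω) < 1 :=
  tsp_lt (rsO K O) O K.subtype (fun _ => Iff.rfl) x

theorem tsp_coe_val_eq (O : ValuationSubring Ω) (K : Subfield Ω) (x : K) :
    (rsO K O).valuation x = 1 ↔ O.valuation (x : Ω) = 1 :=
  tsp_eq (rsO K O) O K.subtype (fun _ => Iff.rfl) x

/-- Lift a polynomial with coefficients in the range of a field homomorphism. -/
theorem tsp_lift {R S : Type*} [Field R] [Field S] (F : R →+* S) {h : S[X]}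
    (hc : ∀ i, ∃ r, F r = h.coeff i) : ∃ q : R[X], q.map F = h := by
  have : h ∈ Polynomial.lifts F := by
    rw [Polynomial.lifts_iff_coeff_lifts]
    intro i
    obtain ⟨r, hr⟩ := hc i
    exact ⟨r, hr⟩
  rw [Polynomial.mem_lifts] at this
  exact this

/-- Pull back and push forward of simple roots along a homomorphism of valued fields. -/
theorem tsp_sroot {R S : Type*} [Field R] [Field S] (O : ValuationSubring R)
    (O' : ValuationSubring S) (F : R →+* S) (h : ∀ x, x ∈ O ↔ F x ∈ O') {T : Subfield R}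
    {T' : Subfield S} (hT : ∀ x ∈ T, F x ∈ T') {c : R} (hc : SRoot O T c) :
    SRoot O' T' (F c) := by
  obtain ⟨f, h1, h2, h3, h4, h5⟩ := hc
  refine ⟨f.map F, h1.map F, fun i => ?_, fun i => ?_, ?_, ?_⟩
  · rw [coeff_map]
    exact hT _ (h2 i)
  · rw [coeff_map]
    exact (h _).1 (h3 i)
  · rw [eval_map, eval₂_hom, h4, map_zero]
  · rw [derivative_map, eval_map, eval₂_hom]
    exact (tsp_eq O O' F h _).1 h5

end TspAux

variable {Ω Ω' : Type*} [Field Ω] [Field Ω'] (p : ℕ) [Fact p.Prime] [CharP Ω p] [IsAlgClosed Ω]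
  [CharP Ω' p] [IsAlgClosed Ω']

theorem W_transport (O : ValuationSubring Ω) (O' : ValuationSubring Ω') {K : Subfield Ω}
    (hK : W p O K) {f : Ω → Ω'} (hf : HomOn K f) (hO : ∀ x ∈ K, x ∈ O ↔ f x ∈ O')
    {K' : Subfield Ω'} (hK' : ∀ y, y ∈ K' ↔ ∃ x ∈ K, f x = y) : W p O' K' := by
  classical
  -- the homomorphism on `K`
  set fK : K →+* Ω' := tspHom hf with hfK
  have hfKx : ∀ x : K, fK x = f x := fun x => rfl
  have hOK : ∀ x : K, x ∈ rsO K O ↔ fK x ∈ O' := fun x => hO x x.2
  have hmemK' : ∀ x : K, fK x ∈ K' := fun x => (hK' _).2 ⟨x, x.2, rfl⟩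
  have hrange : ∀ y ∈ K', ∃ x : K, fK x = y := by
    intro y hy
    obtain ⟨x, hx, hxy⟩ := (hK' y).1 hy
    exact ⟨⟨x, hx⟩, hxy⟩
  have hp0 : 0 < p := (Fact.out : p.Prime).pos
  -- the extension to the algebraic closure
  set Ω0 : Subfield Ω := acl K with hΩ0
  have h0 : ∀ x, IsAlgebraic Ω0 x → x ∈ Ω0 := fun x hx => acl_rac K x (Subfield.mem_top x) hx
  have : IsAlgClosed Ω0 := isAlgClosed_sub Ω0 h0
  have : CharP Ω0 p := by
    constructor
    intro n
    rw [← CharP.cast_eq_zero_iff Ω p n]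
    constructor
    · intro h
      have := congrArg (fun z : Ω0 => (z : Ω)) h
      simpa using this
    · intro h
      apply Subtype.ext
      simpa using h
  have hKΩ : K ≤ Ω0 := le_acl K
  let inc : K →+* Ω0 := Subfield.inclusion hKΩ
  let _ : Algebra K Ω0 := inc.toAlgebra
  let _ : Algebra K Ω' := fK.toAlgebra
  have : Algebra.IsAlgebraic K Ω0 := by
    constructor
    intro x
    have hx : IsAlgebraic K (x : Ω) := (mem_acl K x).1 x.2
    obtain ⟨q, hq0, hq⟩ := hx
    refine ⟨q, hq0, ?_⟩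
    apply Subtype.ext
    have h2 : ((aeval x q : Ω0) : Ω) = aeval (x : Ω) q := by
      rw [aeval_def, aeval_def]
      have h3 : (Ω0.subtype) (eval₂ (algebraMap K Ω0) x q) =
          eval₂ (Ω0.subtype.comp (algebraMap K Ω0)) (Ω0.subtype x) q := by
        rw [hom_eval₂]
      exact h3
    rw [h2, hq]
    rfl
  let Fa : Ω0 →ₐ[K] Ω' := IsAlgClosed.lift
  let F : Ω0 →+* Ω' := Fa.toRingHom
  have hFinc : ∀ x : K, F (inc x) = fK x := fun x => Fa.commutes x
  have hFinc' : F.comp inc = fK := RingHom.ext hFinc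
  -- uniqueness of the extension
  have hL : HCl (rsO Ω0 O) (rst Ω0 K) := (hcl_rst Ω0 h0 O hKΩ).2 hK.hcl
  have halg : Algebra.IsAlgebraic (rst Ω0 K) Ω0 :=
    algebra_isAlgebraic_rst Ω0 hKΩ fun x hx => (mem_acl K x).1 hx
  have huniq : rsO Ω0 O = O'.comap F := by
    refine unique_ext p (rsO Ω0 O) (O'.comap F) hL halg ?_
    intro x hx
    have hxK : (x : Ω) ∈ K := hx
    have h1 : x = inc ⟨x, hxK⟩ := rfl
    rw [mem_rsO, ValuationSubring.mem_comap, h1, hFinc]
    exact hO _ hxK
  have hM : ∀ x : Ω0, x ∈ rsO Ω0 O ↔ F x ∈ O' := by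
    intro x
    rw [huniq]
    exact ValuationSubring.mem_comap
  have hM' : ∀ x : Ω0, (x : Ω) ∈ O ↔ F x ∈ O' := hM
  constructor
  · -- p-th roots
    intro y hy
    obtain ⟨x, hx⟩ := hrange _ hy
    obtain ⟨z, hz⟩ := IsAlgClosed.exists_pow_nat_eq (x : Ω) hp0
    have hzK : z ∈ K := hK.pcl z (by rw [hz]; exact x.2)
    have h1 : (⟨z, hzK⟩ : K) ^ p = x := Subtype.ext hz
    have h2 : (fK ⟨z, hzK⟩) ^ p = y ^ p := by rw [← map_pow, h1, hx]
    have h3 : fK ⟨z, hzK⟩ = y := frobenius_inj Ω' p (by simpa [frobenius_def] using h2)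
    rw [← h3]
    exact hmemK' _
  · -- h-closed
    intro c' a' hc' ha' hca
    obtain ⟨h', g1, g2, g3, g4, g5⟩ := hc'
    have hc'O : c' ∈ O' := root_memO O' g1 g3 g4
    obtain ⟨a, rfl⟩ := hrange a' ha'
    have ha'O : fK a ∈ O' := by
      have : fK a = c' - (c' - fK a) := by ring
      rw [this]
      exact O'.toSubring.sub_mem hc'O ((O'.valuation_le_one_iff _).1 hca.le)
    obtain ⟨q, hq⟩ := tsp_lift fK (h := h') fun i => hrange _ (g2 i)
    have hqm : q.Monic := by
      have : (q.map fK).Monic := by rw [hq]; exact g1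
      exact Polynomial.monic_of_injective fK.injective this
    have hmap : ∀ r : K[X], (r.map K.subtype).eval (a : Ω) = ((r.eval a : K) : Ω) := by
      intro r
      rw [eval_map]
      exact eval₂_hom K.subtype a
    have hmap' : ∀ r : K[X], (r.map fK).eval (fK a) = fK (r.eval a) := by
      intro r
      rw [eval_map, eval₂_hom]
    -- evaluate at `a`
    have e1 : O'.valuation (h'.eval (fK a)) < 1 := by
      have := eval_sub_val_le O' g3 hc'O ha'O
      rw [g4, zero_sub, Valuation.map_neg] at this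
      exact this.trans_lt hca
    have e2 : O'.valuation (h'.derivative.eval (fK a)) = 1 := by
      have h1 := eval_sub_val_le O' (derivative_coeff_memO O' g3) hc'O ha'O
      have h2 : O'.valuation (h'.derivative.eval (fK a) - h'.derivative.eval c') < 1 := by
        rw [Valuation.map_sub_swap]
        exact h1.trans_lt hca
      have h3 : h'.derivative.eval (fK a) =
          (h'.derivative.eval (fK a) - h'.derivative.eval c') + h'.derivative.eval c' := by ring
      rw [h3]
      have := Valuation.map_add_eq_of_lt_right O'.valuation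
        (x := h'.derivative.eval (fK a) - h'.derivative.eval c') (y := h'.derivative.eval c')
        (by rw [g5]; exact h2)
      rw [this, g5]
    have k1 : O.valuation ((q.map K.subtype).eval (a : Ω)) < 1 := by
      rw [hmap]
      rw [← hq, hmap'] at e1
      exact (tsp_coe_val_lt O K _).1 ((tsp_lt (rsO K O) O' fK hOK _).2 e1)
    have k2 : O.valuation ((q.map K.subtype).derivative.eval (a : Ω)) = 1 := by
      rw [derivative_map, hmap]
      rw [← hq, derivative_map, hmap'] at e2
      exact (tsp_coe_val_eq O K _).1 ((tsp_eq (rsO K O) O' fK hOK _).2 e2)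
    obtain ⟨c, hcK, hc0, hca', -⟩ := hK.hcl.hensel (L0 := K) le_rfl (h := q.map K.subtype)
      (hqm.map _) (fun i => by rw [coeff_map]; exact (q.coeff i).2)
      (fun i => by
        rw [coeff_map]
        have := g3 i
        rw [← hq, coeff_map] at this
        exact (hOK _).2 this) a.2 ((hOK a).2 ha'O) k1 k2
    have m1 : h'.eval (fK ⟨c, hcK⟩) = 0 := by
      rw [← hq, eval_map, eval₂_hom]
      have : q.eval (⟨c, hcK⟩ : K) = 0 := by
        apply Subtype.ext
        have h1 : (q.map K.subtype).eval ((⟨c, hcK⟩ : K) : Ω) = ((q.eval (⟨c, hcK⟩ : K) : K) : Ω) := by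
          rw [eval_map]
          exact eval₂_hom K.subtype (⟨c, hcK⟩ : K)
        rw [← h1]
        exact hc0
      rw [this, map_zero]
    have m2 : O'.valuation (fK ⟨c, hcK⟩ - c') < 1 := by
      have h1 : O'.valuation (fK ⟨c, hcK⟩ - fK a) < 1 := by
        rw [← map_sub]
        refine (tsp_lt (rsO K O) O' fK hOK _).1 ((tsp_coe_val_lt O K _).2 ?_)
        exact hca'
      have h2 : fK ⟨c, hcK⟩ - c' = (fK ⟨c, hcK⟩ - fK a) + (fK a - c') := by ring
      rw [h2]
      refine (Valuation.map_add_lt _ h1 ?_)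
      rw [Valuation.map_sub_swap]
      exact hca
    have m3 := unique_root O' g3 hc'O g4 g5 m1 m2
    rw [← m3]
    exact hmemK' _
  · -- algebraic elements
    intro x' hx'
    -- pull back `x'`
    obtain ⟨x, rfl⟩ : ∃ x : Ω0, F x = x' := by
      obtain ⟨h', g1, g2, g3⟩ := (isAlgebraic_iff K' x').1 hx'
      obtain ⟨q, hq⟩ := tsp_lift fK (h := h') fun i => hrange _ (g2 i)
      have hq0 : (q.map inc).map F = h' := by
        rw [Polynomial.map_map, hFinc', hq]
      have hroot : x' ∈ ((q.map inc).map F).roots := by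
        rw [hq0, mem_roots g1]
        exact g3
      have hsp : (q.map inc).Splits := IsAlgClosed.splits _
      rw [hsp.roots_map F] at hroot
      obtain ⟨r, -, hr⟩ := Multiset.mem_map.1 hroot
      exact ⟨r, hr⟩
    -- the subfield of good elements
    let T : Subfield Ω := ((cl p O' K').comap F).map Ω0.subtype
    have hT : ∀ y, y ∈ T ↔ ∃ hy : y ∈ Ω0, F ⟨y, hy⟩ ∈ cl p O' K' := by
      intro y
      constructor
      · rintro ⟨z, hz, rfl⟩
        exact ⟨z.2, hz⟩
      · rintro ⟨hy, h⟩
        exact ⟨⟨y, hy⟩, h, rfl⟩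
    have hTΩ : T ≤ Ω0 := fun y hy => ((hT y).1 hy).1
    have hKT : K ≤ T := by
      intro y hy
      refine (hT y).2 ⟨hKΩ hy, ?_⟩
      have : F ⟨y, hKΩ hy⟩ = fK ⟨y, hy⟩ := hFinc ⟨y, hy⟩
      rw [this]
      exact le_cl K' (hmemK' _)
    have hcl : cl p O K ≤ T := by
      refine cl_min hKT ?_ ?_
      · intro y hy
        obtain ⟨hy1, hy2⟩ := (hT _).1 hy
        have hyΩ : y ∈ Ω0 := h0 y (by
          refine IsAlgebraic.of_pow hp0 (isAlgebraic_of_mem hy1))
        refine (hT y).2 ⟨hyΩ, ?_⟩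
        refine cl_pcl K' _ ?_
        rw [← map_pow]
        exact hy2
      · intro c hc
        have hcΩ : c ∈ Ω0 := h0 c ((hc.mono hTΩ).isAlgebraic)
        refine (hT c).2 ⟨hcΩ, ?_⟩
        refine cl_scl K' _ ?_
        have h1 : SRoot (rsO Ω0 O) (rst Ω0 T) ⟨c, hcΩ⟩ := (sroot_rst Ω0 O hTΩ ⟨c, hcΩ⟩).2 hc
        exact tsp_sroot (rsO Ω0 O) O' F hM (T := rst Ω0 T) (T' := cl p O' K')
          (fun y hy => ((hT y).1 hy).2) h1
    have hx : (x : Ω) ∈ T := hcl (hK.alg x ((mem_acl K x).1 x.2))
    exact ((hT x).1 hx).2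

end Pool.Agent.H92.Tilt
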