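import Pool.Agent.H92.Tilt.G1
import Pool.Agent.H92.Tilt.F3
import Pool.Agent.H92.Tilt.Tsp

/-!
Module G2: embeddings preserving truncated formulas are elementary, and the completeness theorem.

G2: induction on `φ`, for all `M, M', f, e`. Case `all n φ`: if it holds in `M'` it holds in `M` (instances
`f b`). Conversely let it hold in `M`, `b ∈ M'.K`. Let `A' := f (M.K)` (a subfield of `M'.K`, perfect,
`W` by `W_transport` for `O1`, `O1'`), `g0 : A' → M` the inverse of `f`. G1 for `(M', M, A', g0)` gives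
`M1`, `j : M → M1`, `lam : M' → M1`; F3 gives `M2`, `j' : M1 → M2` and `e1 : M'.K → M2.K` Good for
`j' ∘ lam`, `e1 (f x) = j' (j x)`. `e1` preserves truncated formulas (`TE.congr`, `e1 ≡ j' lam` mod `t`),
is a homomorphism, preserves `t` and `O`. Induction hypothesis for `e1 : M' → M2` and `EExt M M2`.
G3: `A0 := {x | ∃ n, x^(p^n) ∈ 𝔽_p(t)}` in `M`; the canonical `e0 : A0 → M'.K`. `O1 ∩ A0 = A0` (every
nonzero element of `𝔽_p(t)` is a power of `t` times a unit of `O`), so `W p O1 A0` is trivial (h-closed: a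
simple root `c ≡ a ∈ A0` is algebraic over `A0`, `c - a` is algebraic over `𝔽_p(t)` with `v_1 < 1`, so
`c = a`). Every element of `A0 ∩ O` is congruent mod `t` to a polynomial over the integers in some `s`,
`s^(p^N) = t`. So `TEQ` gives `TE M M' A0 e0` (substitute the polynomial terms for the variables: existential
formulas `∃ x_i, x_i = Q_i(s) ∧ ..`). G1, F3, then G2 for `M → M2` and `EExt M' M2`.
-/

set_option autoImplicit false

namespace Pool.Agent.H92.Tilt

variable {p : ℕ} [Fact p.Prime]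

/-! ### Homomorphisms on a subfield -/

section HomOnAux

variable {Ω Ω' : Type*} [Field Ω] [Field Ω'] {F : Subfield Ω} {f : Ω → Ω'}

theorem HomOn.g2_zero (h : HomOn F f) : f 0 = 0 := by
  have := h.add 0 F.zero_mem 0 F.zero_mem
  simpa using this

theorem HomOn.g2_neg (h : HomOn F f) {x : Ω} (hx : x ∈ F) : f (-x) = - f x := by
  have := h.add x hx (-x) (F.neg_mem hx)
  rw [add_neg_cancel, h.g2_zero] at this
  exact (neg_eq_of_add_eq_zero_right this.symm).symm

theorem HomOn.g2_sub (h : HomOn F f) {x y : Ω} (hx : x ∈ F) (hy : y ∈ F) :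
    f (x - y) = f x - f y := by
  rw [sub_eq_add_neg, h.add x hx (-y) (F.neg_mem hy), h.g2_neg hy, sub_eq_add_neg]

theorem HomOn.g2_ne (h : HomOn F f) {x : Ω} (hx : x ∈ F) (h0 : x ≠ 0) : f x ≠ 0 := by
  intro hf
  have := h.mul x hx x⁻¹ (F.inv_mem hx)
  rw [mul_inv_cancel₀ h0, h.one, hf, zero_mul] at this
  exact one_ne_zero this

theorem HomOn.g2_inj (h : HomOn F f) {x y : Ω} (hx : x ∈ F) (hy : y ∈ F) (hxy : f x = f y) :
    x = y := by
  by_contra hne
  refine h.g2_ne (F.sub_mem hx hy) (sub_ne_zero.2 hne) ?_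
  rw [h.g2_sub hx hy, hxy, sub_self]

theorem HomOn.g2_inv (h : HomOn F f) {x : Ω} (hx : x ∈ F) : f x⁻¹ = (f x)⁻¹ := by
  by_cases h0 : x = 0
  · rw [h0, inv_zero, h.g2_zero, inv_zero]
  · have := h.mul x hx x⁻¹ (F.inv_mem hx)
    rw [mul_inv_cancel₀ h0, h.one] at this
    exact eq_inv_of_mul_eq_one_right this.symm

theorem HomOn.g2_pow (h : HomOn F f) {x : Ω} (hx : x ∈ F) (n : ℕ) : f (x ^ n) = f x ^ n := by
  induction n with
  | zero => simpa using h.one
  | succ n ih => rw [pow_succ, h.mul _ (F.pow_mem hx n) _ hx, ih, pow_succ]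

/-- The image of a subfield under a homomorphism. -/
def g2img (h : HomOn F f) : Subfield Ω' where
  carrier := {y | ∃ x ∈ F, f x = y}
  mul_mem' := by
    rintro _ _ ⟨a, ha, rfl⟩ ⟨b, hb, rfl⟩
    exact ⟨a * b, F.mul_mem ha hb, h.mul a ha b hb⟩
  one_mem' := ⟨1, F.one_mem, h.one⟩
  add_mem' := by
    rintro _ _ ⟨a, ha, rfl⟩ ⟨b, hb, rfl⟩
    exact ⟨a + b, F.add_mem ha hb, h.add a ha b hb⟩
  zero_mem' := ⟨0, F.zero_mem, h.g2_zero⟩
  neg_mem' := by
    rintro _ ⟨a, ha, rfl⟩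
    exact ⟨-a, F.neg_mem ha, h.g2_neg ha⟩
  inv_mem' := by
    rintro _ ⟨a, ha, rfl⟩
    exact ⟨a⁻¹, F.inv_mem ha, h.g2_inv ha⟩

theorem mem_g2img (h : HomOn F f) (y : Ω') : y ∈ g2img h ↔ ∃ x ∈ F, f x = y := Iff.rfl

end HomOnAux

omit [Fact p.Prime] in
theorem g2_val {M M' : Pk p} {f : M.Om → M'.Om} (hf : HomOn M.K f) (ht : f M.t = M'.t)
    (e : ℕ → M.Om) (he : ∀ n, e n ∈ M.K) (a : Tm 1) :
    a.val (fun _ => M.t) e ∈ M.K ∧
      f (a.val (fun _ => M.t) e) = a.val (fun _ => M'.t) (fun n => f (e n)) := by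
  induction a with
  | var n => exact ⟨he n, rfl⟩
  | cst i => exact ⟨M.t_mem_K, ht⟩
  | zero => exact ⟨M.K.zero_mem, hf.g2_zero⟩
  | one => exact ⟨M.K.one_mem, hf.one⟩
  | neg a ih => exact ⟨M.K.neg_mem ih.1, by
      simp only [Tm.val]; rw [hf.g2_neg ih.1, ih.2]⟩
  | add a b iha ihb => exact ⟨M.K.add_mem iha.1 ihb.1, by
      simp only [Tm.val]; rw [hf.add _ iha.1 _ ihb.1, iha.2, ihb.2]⟩
  | mul a b iha ihb => exact ⟨M.K.mul_mem iha.1 ihb.1, by
      simp only [Tm.val]; rw [hf.mul _ iha.1 _ ihb.1, iha.2, ihb.2]⟩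

omit [Fact p.Prime] in
theorem g2_O1 {M M' : Pk p} {f : M.Om → M'.Om} (hf : HomOn M.K f) (ht : f M.t = M'.t)
    (hO : ∀ x ∈ M.K, x ∈ M.O ↔ f x ∈ M'.O) : ∀ x ∈ M.K, x ∈ M.O1 ↔ f x ∈ M'.O1 := by
  intro x hx
  rw [M.mem_O1, M'.mem_O1]
  refine exists_congr fun n => ?_
  rw [hO _ (M.K.mul_mem (M.K.pow_mem M.t_mem_K n) hx),
    hf.mul _ (M.K.pow_mem M.t_mem_K n) _ hx, hf.g2_pow M.t_mem_K, ht]

/-- The image is closed under `p`-th roots. -/
theorem g2_pcl {M M' : Pk p} {f : M.Om → M'.Om} (hf : HomOn M.K f) : PCl p (g2img hf) := by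
  intro x hx
  obtain ⟨y, hy, hyx⟩ := hx
  obtain ⟨z, hz⟩ := IsAlgClosed.exists_pow_nat_eq y (Fact.out : p.Prime).pos
  have hzK : z ∈ M.K := M.W_K.pcl z (by rw [hz]; exact hy)
  refine ⟨z, hzK, ?_⟩
  have h1 : f z ^ p = x ^ p := by rw [← hf.g2_pow hzK, hz, hyx]
  have : ExpChar M'.Om p := ExpChar.prime Fact.out
  exact frobenius_inj M'.Om p h1

/-- One step up: an elementary extension of `M` receiving `M'` over `M`. -/
theorem g2_step {M M' : Pk p} {f : M.Om → M'.Om} (hf : HomOn M.K f)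
    (hfK : ∀ x ∈ M.K, f x ∈ M'.K) (hft : f M.t = M'.t)
    (hfO : ∀ x ∈ M.K, x ∈ M.O ↔ f x ∈ M'.O) (hTE : TE M M' M.K f) :
    ∃ (M2 : Pk p) (j : M.Om → M2.Om) (e1 : M'.Om → M2.Om), EExt M M2 j ∧
      HomOn M'.K e1 ∧ (∀ x ∈ M'.K, e1 x ∈ M2.K) ∧ e1 M'.t = M2.t ∧
      (∀ x ∈ M'.K, x ∈ M'.O ↔ e1 x ∈ M2.O) ∧ TE M' M2 M'.K e1 ∧
      ∀ x ∈ M.K, e1 (f x) = j x := by
  classical
  set g0 : M'.Om → M.Om := Function.invFunOn f (M.K : Set M.Om) with hg0
  have hinj : Set.InjOn f (M.K : Set M.Om) := fun x hx y hy h => hf.g2_inj hx hy h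
  have hgf : ∀ x ∈ M.K, g0 (f x) = x := fun x hx => hinj.leftInvOn_invFunOn hx
  have hAK : g2img hf ≤ M'.K := by
    rintro _ ⟨x, hx, rfl⟩
    exact hfK x hx
  have htA : M'.t ∈ g2img hf := ⟨M.t, M.t_mem_K, hft⟩
  have hW : W p M'.O1 (g2img hf) :=
    W_transport p M.O1 M'.O1 M.W_K hf (g2_O1 hf hft hfO) (fun y => mem_g2img hf y)
  have hg : HomOn (g2img hf) g0 := by
    refine ⟨?_, ?_, ?_⟩
    · rw [← hf.one]
      exact hgf 1 M.K.one_mem
    · rintro _ ⟨x, hx, rfl⟩ _ ⟨y, hy, rfl⟩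
      rw [← hf.add x hx y hy, hgf _ (M.K.add_mem hx hy), hgf x hx, hgf y hy]
    · rintro _ ⟨x, hx, rfl⟩ _ ⟨y, hy, rfl⟩
      rw [← hf.mul x hx y hy, hgf _ (M.K.mul_mem hx hy), hgf x hx, hgf y hy]
  have hgK : ∀ x ∈ g2img hf, g0 x ∈ M.K := by
    rintro _ ⟨x, hx, rfl⟩
    rw [hgf x hx]
    exact hx
  have hgt : g0 M'.t = M.t := by
    rw [← hft]
    exact hgf _ M.t_mem_K
  have hgO : ∀ x ∈ g2img hf, x ∈ M'.O ↔ g0 x ∈ M.O := by
    rintro _ ⟨x, hx, rfl⟩
    rw [hgf x hx]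
    exact (hfO x hx).symm
  have hgTE : TE M' M (g2img hf) g0 := by
    intro c e he
    have h1 : ∀ n, g0 (e n) ∈ M.K ∧ g0 (e n) ∈ M.O := fun n =>
      ⟨hgK _ (he n).1, (hgO _ (he n).1).1 (he n).2⟩
    have h2 := hTE c (fun n => g0 (e n)) h1
    have h3 : ∀ n, f (g0 (e n)) = e n := by
      intro n
      obtain ⟨x, hx, hxe⟩ := (he n).1
      rw [← hxe, hgf x hx]
    simp only [h3] at h2
    exact h2.symm
  obtain ⟨M1, j, lam, hj, hlam, hgood, hlTE, hlO⟩ :=
    G1 hAK (g2_pcl hf) htA hg hgK hgt hgO hgTE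
  obtain ⟨M2, j', e1, hj', he1, he1A⟩ := F3 hAK hW hlam hgood
  have hO1 : ∀ x ∈ M'.O, x ∈ M'.O1 := fun x hx => M'.O_le_O1 hx
  -- the difference between `e1` and `j' lam`
  have hdif : ∀ x ∈ M'.K, x ∈ M'.O1 → ∀ n : ℕ, ∃ y ∈ M2.O, e1 x - j' (lam x) = M2.t ^ n * y :=
    fun x hx hx1 => (M2.val1_lt _).1 (he1.res x hx hx1)
  have hdO : ∀ x ∈ M'.K, x ∈ M'.O1 → (e1 x ∈ M2.O ↔ j' (lam x) ∈ M2.O) := by
    intro x hx hx1
    obtain ⟨y, hy, hxy⟩ := hdif x hx hx1 0
    rw [pow_zero, one_mul] at hxy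
    constructor
    · intro h
      have : j' (lam x) = e1 x - y := by rw [← hxy]; ring
      rw [this]
      exact sub_mem h hy
    · intro h
      have : e1 x = j' (lam x) + y := by rw [← hxy]; ring
      rw [this]
      exact M2.O.add_mem _ _ h hy
  have hlK : ∀ x ∈ M'.K, x ∈ M'.O1 → lam x ∈ M1.K := fun x hx hx1 => (hlam.rng x hx hx1).1
  have he1O1 : ∀ x ∈ M'.K, x ∈ M'.O1 → (x ∈ M'.O ↔ e1 x ∈ M2.O) := by
    intro x hx hx1
    rw [hdO x hx hx1, hj'.memO (hlK x hx hx1)]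
    exact hlO x hx hx1
  have he1O : ∀ x ∈ M'.K, x ∈ M'.O ↔ e1 x ∈ M2.O := by
    intro x hx
    by_cases hx1 : x ∈ M'.O1
    · exact he1O1 x hx hx1
    · constructor
      · intro h
        exact absurd (hO1 x h) hx1
      · intro h
        exfalso
        have hx0 : x ≠ 0 := by
          rintro rfl
          exact hx1 M'.O1.zero_mem
        have hxi : x⁻¹ ∈ M'.O1 := by
          rcases M'.O1.mem_or_inv_mem x with h' | h'
          · exact absurd h' hx1
          · exact h'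
        have hxiK : x⁻¹ ∈ M'.K := M'.K.inv_mem hx
        have hv : M'.O1.valuation x⁻¹ < 1 := by
          rw [map_inv₀]
          refine inv_lt_one_of_one_lt₀ ?_
          by_contra hc
          exact hx1 ((M'.O1.valuation_le_one_iff x).1 (not_lt.1 hc))
        have hv1 : M1.O1.valuation (lam x⁻¹) < 1 := (hlam.ker _ hxiK hxi).2 hv
        have hv2 : M2.O1.valuation (j' (lam x⁻¹)) < 1 := (hj'.val1 (hlK _ hxiK hxi)).2 hv1
        have hv3 : M2.O1.valuation (e1 x⁻¹) < 1 := by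
          have h1 := he1.res _ hxiK hxi
          have h2 : e1 x⁻¹ = (e1 x⁻¹ - (j' ∘ lam) x⁻¹) + j' (lam x⁻¹) := by
            simp only [Function.comp_apply]; ring
          rw [h2]
          exact lt_of_le_of_lt (M2.O1.valuation.map_add _ _) (max_lt h1 hv2)
        have hmul : e1 x * e1 x⁻¹ = 1 := by
          rw [← he1.hom.mul x hx _ hxiK, mul_inv_cancel₀ hx0, he1.hom.one]
        have hle : M2.O1.valuation (e1 x) ≤ 1 :=
          (M2.O1.valuation_le_one_iff _).2 (M2.O_le_O1 h)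
        have h4 : M2.O1.valuation (e1 x) * M2.O1.valuation (e1 x⁻¹) = 1 := by
          rw [← map_mul, hmul, map_one]
        have h5 : M2.O1.valuation (e1 x) * M2.O1.valuation (e1 x⁻¹) < 1 := by
          calc M2.O1.valuation (e1 x) * M2.O1.valuation (e1 x⁻¹)
              ≤ 1 * M2.O1.valuation (e1 x⁻¹) := mul_le_mul_left hle _
            _ < 1 := by rw [one_mul]; exact hv3
        exact absurd h4 h5.ne
  have he1TE : TE M' M2 M'.K e1 := by
    refine TE.congr le_rfl (f := j' ∘ lam) ?_ ?_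
    · intro c e he
      have h1 := hlTE c e he
      have h2 := TE_of_EExt hj' c (fun n => lam (e n)) (fun n =>
        ⟨hlK _ (he n).1 (hO1 _ (he n).2), (hlO _ (he n).1 (hO1 _ (he n).2)).1 (he n).2⟩)
      exact h1.trans h2
    · intro x hx hxO
      have hx1 := hO1 x hxO
      have h1 : e1 x ∈ M2.O := (he1O x hx).1 hxO
      have h2 : j' (lam x) ∈ M2.O := (hdO x hx hx1).1 h1
      refine (M2.cls_eq (x := j' (lam x)) (y := e1 x) ⟨hj'.rng _ (hlK x hx hx1), h2⟩
        ⟨he1.rng x hx, h1⟩).2 ?_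
      obtain ⟨y, hy, hxy⟩ := hdif x hx hx1 1
      refine ⟨-y, M2.O.neg_mem _ hy, ?_⟩
      rw [pow_one] at hxy
      linear_combination -hxy
  refine ⟨M2, j' ∘ j, e1, hj.comp hj', he1.hom, he1.rng, ?_, he1O, he1TE, ?_⟩
  · have h1 : M'.t ∈ g2img hf := htA
    rw [he1A _ h1, Function.comp_apply, hgt, hj.t, hj'.t]
  · intro x hx
    rw [he1A _ ⟨x, hx, rfl⟩, Function.comp_apply, hgf x hx]
    rfl

theorem G2 (φ : Fm 1) : ∀ {M M' : Pk p} {f : M.Om → M'.Om}, HomOn M.K f →
    (∀ x ∈ M.K, f x ∈ M'.K) → f M.t = M'.t → (∀ x ∈ M.K, x ∈ M.O ↔ f x ∈ M'.O) →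
    TE M M' M.K f → ∀ e : ℕ → M.Om, (∀ n, e n ∈ M.K) →
      (M.sat φ e ↔ M'.sat φ (fun n => f (e n))) := by
  induction φ with
  | eq a b =>
    intro M M' f hf hfK hft hfO hTE e he
    obtain ⟨ha, ha'⟩ := g2_val hf hft e he a
    obtain ⟨hb, hb'⟩ := g2_val hf hft e he b
    simp only [Pk.sat, SatIn]
    rw [← ha', ← hb']
    exact ⟨fun h => by rw [h], fun h => hf.g2_inj ha hb h⟩
  | inO a =>
    intro M M' f hf hfK hft hfO hTE e he
    obtain ⟨ha, ha'⟩ := g2_val hf hft e he a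
    simp only [Pk.sat, SatIn]
    rw [← ha']
    exact hfO _ ha
  | neg φ ih =>
    intro M M' f hf hfK hft hfO hTE e he
    exact not_congr (ih hf hfK hft hfO hTE e he)
  | and φ ψ ih1 ih2 =>
    intro M M' f hf hfK hft hfO hTE e he
    exact and_congr (ih1 hf hfK hft hfO hTE e he) (ih2 hf hfK hft hfO hTE e he)
  | all n φ ih =>
    intro M M' f hf hfK hft hfO hTE e he
    constructor
    · intro h b hb
      obtain ⟨M2, j, e1, hj, h1, h1K, h1t, h1O, h1TE, h1f⟩ := g2_step hf hfK hft hfO hTE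
      have h2 : M2.sat (Fm.all n φ) (fun k => j (e k)) := (hj.el _ e he).1 h
      have h3 : M2.sat φ (Function.update (fun k => j (e k)) n (e1 b)) := h2 (e1 b) (h1K b hb)
      have hb' : ∀ k, Function.update (fun k => f (e k)) n b k ∈ M'.K := by
        intro k
        by_cases hk : k = n
        · subst hk
          rw [Function.update_self]
          exact hb
        · rw [Function.update_of_ne hk]
          exact hfK _ (he k)
      refine (ih h1 h1K h1t h1O h1TE _ hb').2 ?_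
      have h4 : (fun k => e1 (Function.update (fun k => f (e k)) n b k)) =
          Function.update (fun k => j (e k)) n (e1 b) := by
        funext k
        by_cases hk : k = n
        · subst hk
          rw [Function.update_self, Function.update_self]
        · rw [Function.update_of_ne hk, Function.update_of_ne hk]
          exact h1f _ (he k)
      rw [h4]
      exact h3
    · intro h a ha
      have ha' : ∀ k, Function.update e n a k ∈ M.K := by
        intro k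
        by_cases hk : k = n
        · subst hk
          rw [Function.update_self]
          exact ha
        · rw [Function.update_of_ne hk]
          exact he k
      refine (ih hf hfK hft hfO hTE _ ha').2 ?_
      have h4 : (fun k => f (Function.update e n a k)) =
          Function.update (fun k => f (e k)) n (f a) := by
        funext k
        by_cases hk : k = n
        · subst hk
          rw [Function.update_self, Function.update_self]
        · rw [Function.update_of_ne hk, Function.update_of_ne hk]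
      rw [h4]
      exact h (f a) (hfK a ha)

end Pool.Agent.H92.Tilt
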