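import Pool.Agent.H92.Tilt.Pk
import Pool.Agent.H92.Tilt.Fol

/-! Auxiliary file for the module G3: rational functions over the prime field evaluated at an
element of positive value. -/

set_option autoImplicit false

namespace Pool.Agent.H92.Tilt.G3x

open Polynomial

section general

variable {p : ℕ} [hp : Fact p.Prime] {L : Type*} [Field L] [CharP L p]

/-- evaluation at `s` -/
noncomputable def evS (p : ℕ) {L : Type*} [Field L] [CharP L p] (s : L) : (ZMod p)[X] →+* L :=
  eval₂RingHom (ZMod.castHom (dvd_refl p) L) s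

theorem evS_X (s : L) : evS p s X = s := by simp [evS]

theorem evS_C (s : L) (a : ZMod p) : evS p s (C a) = ZMod.castHom (dvd_refl p) L a := by
  simp [evS]

theorem cast_mem (A : Subring L) (a : ZMod p) : ZMod.castHom (dvd_refl p) L a ∈ A := by
  have : ZMod.castHom (dvd_refl p) L a = ((a.val : ℕ) : L) := by
    conv_lhs => rw [← ZMod.natCast_zmod_val a]
    rw [map_natCast]
  rw [this]
  exact natCast_mem A _

theorem evS_mem (A : Subring L) {s : L} (hs : s ∈ A) (P : (ZMod p)[X]) : evS p s P ∈ A := by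
  induction P using Polynomial.induction_on' with
  | add P Q hP hQ => rw [map_add]; exact A.add_mem hP hQ
  | monomial n a =>
    rw [← C_mul_X_pow_eq_monomial, map_mul, map_pow, evS_X, evS_C]
    exact A.mul_mem (cast_mem A a) (A.pow_mem hs n)

theorem val_cast (O : ValuationSubring L) {a : ZMod p} (ha : a ≠ 0) :
    O.valuation (ZMod.castHom (dvd_refl p) L a) = 1 := by
  have h1 : O.valuation (ZMod.castHom (dvd_refl p) L a) ≤ 1 :=
    (O.valuation_le_one_iff _).mpr (cast_mem O.toSubring a)
  have h2 : O.valuation (ZMod.castHom (dvd_refl p) L a⁻¹) ≤ 1 :=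
    (O.valuation_le_one_iff _).mpr (cast_mem O.toSubring a⁻¹)
  have h3 : O.valuation (ZMod.castHom (dvd_refl p) L a) *
      O.valuation (ZMod.castHom (dvd_refl p) L a⁻¹) = 1 := by
    rw [← map_mul, ← map_mul, mul_inv_cancel₀ ha, map_one, map_one]
  apply le_antisymm h1
  by_contra hlt
  rw [not_le] at hlt
  have h4 : O.valuation (ZMod.castHom (dvd_refl p) L a) *
      O.valuation (ZMod.castHom (dvd_refl p) L a⁻¹) < 1 := by
    calc _ ≤ O.valuation (ZMod.castHom (dvd_refl p) L a) * 1 := by gcongr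
      _ < 1 := by rwa [mul_one]
  rw [h3] at h4
  exact lt_irrefl _ h4

theorem val_ev (O : ValuationSubring L) {s : L} (hs : O.valuation s < 1) (P : (ZMod p)[X])
    (hP : P.coeff 0 ≠ 0) : O.valuation (evS p s P) = 1 := by
  have h1 : P = P.divX * X + C (P.coeff 0) := (divX_mul_X_add P).symm
  have h2 : evS p s P = evS p s P.divX * s + ZMod.castHom (dvd_refl p) L (P.coeff 0) := by
    conv_lhs => rw [h1]
    rw [map_add, map_mul, evS_X, evS_C]
  have hsO : s ∈ O := (O.valuation_le_one_iff s).mp hs.le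
  have h3 : O.valuation (evS p s P.divX * s) < 1 := by
    rw [map_mul]
    have h4 : O.valuation (evS p s P.divX) ≤ 1 :=
      (O.valuation_le_one_iff _).mpr (evS_mem O.toSubring hsO _)
    calc _ ≤ 1 * O.valuation s := by gcongr
      _ < 1 := by rwa [one_mul]
  have h5 := val_cast O hP (L := L)
  rw [h2, Valuation.map_add_eq_of_lt_right _ (by rw [h5]; exact h3), h5]

theorem exists_fac (P : (ZMod p)[X]) (hP : P ≠ 0) : ∃ (k : ℕ) (Q : (ZMod p)[X]),
    Q.coeff 0 ≠ 0 ∧ P = X ^ k * Q := by
  obtain ⟨Q, hQ, hQ2⟩ := exists_eq_pow_rootMultiplicity_mul_and_not_dvd P hP 0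
  rw [C_0, sub_zero] at hQ hQ2
  rw [X_dvd_iff] at hQ2
  exact ⟨_, Q, hQ2, hQ⟩

theorem evS_ne_zero (O : ValuationSubring L) {s : L} (hs : O.valuation s < 1) (hs0 : s ≠ 0)
    (P : (ZMod p)[X]) (hP : P ≠ 0) : evS p s P ≠ 0 := by
  obtain ⟨k, Q, hQ, rfl⟩ := exists_fac P hP
  rw [map_mul, map_pow, evS_X]
  refine mul_ne_zero (pow_ne_zero _ hs0) ?_
  intro h
  have := val_ev O hs Q hQ
  rw [h, map_zero] at this
  exact zero_ne_one this

theorem evS_inj (O : ValuationSubring L) {s : L} (hs : O.valuation s < 1) (hs0 : s ≠ 0) :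
    Function.Injective (evS p s) := by
  rw [injective_iff_map_eq_zero]
  intro P hP
  by_contra h
  exact evS_ne_zero O hs hs0 P h hP

/-- evaluation of rational functions -/
noncomputable def rho (s : L) (hinj : Function.Injective (evS p s)) : RatFunc (ZMod p) →+* L :=
  IsFractionRing.lift hinj

theorem rho_alg (s : L) (hinj : Function.Injective (evS p s)) (P : (ZMod p)[X]) :
    rho s hinj (algebraMap _ _ P) = evS p s P := IsFractionRing.lift_algebraMap hinj P

theorem rho_eq (s : L) (hinj : Function.Injective (evS p s)) (f : RatFunc (ZMod p)) :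
    rho s hinj f = evS p s f.num / evS p s f.denom := by
  conv_lhs => rw [← RatFunc.num_div_denom f]
  rw [map_div₀, rho_alg, rho_alg]

theorem rho_mem (A : Subfield L) {s : L} (hs : s ∈ A) (hinj : Function.Injective (evS p s))
    (f : RatFunc (ZMod p)) : rho s hinj f ∈ A := by
  rw [rho_eq]
  exact A.div_mem (evS_mem A.toSubring hs _) (evS_mem A.toSubring hs _)

theorem rho_mem_O (O : ValuationSubring L) {s : L} (hs : O.valuation s < 1) (hs0 : s ≠ 0)
    (hinj : Function.Injective (evS p s)) (f : RatFunc (ZMod p)) :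
    rho s hinj f ∈ O ↔ f.denom.coeff 0 ≠ 0 := by
  rw [rho_eq, ← O.valuation_le_one_iff, map_div₀]
  have hsO : s ∈ O := (O.valuation_le_one_iff s).mp hs.le
  constructor
  · intro h hd
    have hn : f.num.coeff 0 ≠ 0 := by
      intro hn
      have h1 : X ∣ f.num := X_dvd_iff.mpr hn
      have h2 : X ∣ f.denom := X_dvd_iff.mpr hd
      exact not_isUnit_X ((RatFunc.isCoprime_num_denom f).isUnit_of_dvd' h1 h2)
    rw [val_ev O hs _ hn] at h
    obtain ⟨D, hD⟩ := X_dvd_iff.mpr hd
    have hD0 : evS p s f.denom ≠ 0 := evS_ne_zero O hs hs0 _ f.denom_ne_zero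
    have h3 : O.valuation (evS p s f.denom) < 1 := by
      rw [hD, map_mul, evS_X, map_mul]
      have h4 : O.valuation (evS p s D) ≤ 1 :=
        (O.valuation_le_one_iff _).mpr (evS_mem O.toSubring hsO _)
      calc _ ≤ O.valuation s * 1 := by gcongr
        _ < 1 := by rwa [mul_one]
    have h5 : O.valuation (evS p s f.denom) ≠ 0 := by
      rwa [Ne, map_eq_zero]
    rw [div_le_one₀ (zero_lt_iff.mpr h5)] at h
    exact absurd h (not_le.mpr h3)
  · intro hd
    rw [val_ev O hs _ hd, div_one]
    exact (O.valuation_le_one_iff _).mpr (evS_mem O.toSubring hsO _)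

theorem rho_pow {s t : L} (n : ℕ) (hst : s ^ p ^ n = t) (hs : Function.Injective (evS p s))
    (ht : Function.Injective (evS p t)) (f : RatFunc (ZMod p)) :
    (rho s hs f) ^ p ^ n = rho t ht f := by
  have key : ∀ P : (ZMod p)[X], (evS p s P) ^ p ^ n = evS p t P := by
    intro P
    have h1 : ((iterateFrobenius L p n).comp (evS p s)) = evS p t := by
      apply Polynomial.ringHom_ext'
      · exact RingHom.ext_zmod _ _
      · rw [RingHom.comp_apply, evS_X, evS_X, iterateFrobenius_def, hst]
    have h2 := congrArg (fun g => g P) h1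
    simpa [iterateFrobenius_def] using h2
  rw [rho_eq, rho_eq, div_pow, key, key]

/-- the decomposition modulo `X ^ m` -/
theorem exists_decomp (f : RatFunc (ZMod p)) (hf : f.denom.coeff 0 ≠ 0) (m : ℕ) :
    ∃ (R P : (ZMod p)[X]), f.num = R * f.denom + X ^ m * P := by
  have h1 : IsCoprime (X : (ZMod p)[X]) f.denom := by
    rw [Irreducible.coprime_iff_not_dvd irreducible_X]
    intro h
    exact hf (X_dvd_iff.mp h)
  obtain ⟨a, b, hab⟩ := h1.pow_left (m := m)
  refine ⟨f.num * b, f.num * a, ?_⟩
  linear_combination -f.num * hab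

theorem rho_decomp (O : ValuationSubring L) {s t : L} (hs : O.valuation s < 1) (m : ℕ)
    (hst : s ^ m = t) (hinj : Function.Injective (evS p s)) (f : RatFunc (ZMod p))
    (hf : f.denom.coeff 0 ≠ 0) (R P : (ZMod p)[X])
    (hRP : f.num = R * f.denom + X ^ m * P) :
    ∃ z ∈ O, rho s hinj f - evS p s R = t * z := by
  have hsO : s ∈ O := (O.valuation_le_one_iff s).mp hs.le
  have h1 := val_ev O hs _ hf
  have h2 : evS p s f.denom ≠ 0 := by
    intro h
    rw [h, map_zero] at h1
    exact zero_ne_one h1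
  refine ⟨evS p s P / evS p s f.denom, ?_, ?_⟩
  · rw [← O.valuation_le_one_iff, map_div₀, h1, div_one]
    exact (O.valuation_le_one_iff _).mpr (evS_mem O.toSubring hsO _)
  · rw [rho_eq, hRP]
    simp only [map_add, map_mul, map_pow, evS_X]
    rw [hst]
    field_simp
    ring

/-- lifting the coefficients to the integers -/
theorem exists_lift (R : (ZMod p)[X]) : ∃ Q : ℤ[X], ∀ {L : Type} [Field L] [CharP L p] (s : L),
    evS p s R = aeval s Q := by
  obtain ⟨Q, hQ⟩ := Polynomial.map_surjective (Int.castRingHom (ZMod p))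
    (ZMod.ringHom_surjective _) R
  refine ⟨Q, ?_⟩
  intro L _ _ s
  rw [← hQ, evS, coe_eval₂RingHom, eval₂_map, aeval_def]
  congr 1
  exact RingHom.ext_int _ _

end general

section subst

open FirstOrder FirstOrder.Language

/-- substitution of polynomials in the variable number zero -/
theorem exists_subst (c : ℕ) (Q : ℕ → ℤ[X]) : ∃ c' : ℕ, ∀ {R : Type} [CommRing R] (v : ℕ → R),
    semTr c' v ↔ semTr c (fun n => aeval (v 0) (Q n)) := by
  obtain ⟨ψ, hψ⟩ := raw_to_fol c
  let τ : ℕ → Language.ring.Term ℕ := fun n =>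
    Ring.termOfFreeCommRing (aeval (FreeCommRing.of 0) (Q n) : FreeCommRing ℕ)
  obtain ⟨c', hc'⟩ := fol_to_raw (BoundedFormula.subst ψ τ)
  refine ⟨c', ?_⟩
  intro R _ v
  let _ := Ring.compatibleRingOfRing R
  rw [hc', hψ, RealizeR, RealizeR]
  have h1 : ∀ n, (τ n).realize v = aeval (v 0) (Q n) := by
    intro n
    simp only [τ]
    rw [Ring.realize_termOfFreeCommRing, aeval_def, aeval_def, hom_eval₂, FreeCommRing.lift_of]
    congr 1
    exact RingHom.ext_int _ _
  have h2 : (fun n => (aeval (v 0)) (Q n)) = fun n => (τ n).realize v := by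
    funext n; rw [h1]
  rw [h2]
  exact BoundedFormula.realize_subst

end subst

end Pool.Agent.H92.Tilt.G3x
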