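import Pool.Agent.H92.Tilt.G2
import Pool.Agent.H92.Tilt.G3x

/-! Module G3: see the comment in G2. -/

set_option autoImplicit false

namespace Pool.Agent.H92.Tilt

open Polynomial

variable {p : ℕ} [Fact p.Prime]

namespace G3x

/-! ### trivially valued algebraic extensions -/

section triv

variable {L : Type*} [Field L] (O : ValuationSubring L)

/-- Elements algebraic over a trivially valued subfield have value one. -/
theorem triv_alg {A : Subfield L} (hA : ∀ a ∈ A, a ≠ 0 → O.valuation a = 1) {x : L}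
    (hx : IsAlgebraic A x) (hx0 : x ≠ 0) : O.valuation x = 1 := by
  have key : ∀ y : L, IsAlgebraic A y → y ≠ 0 → ¬ O.valuation y < 1 := by
    intro y hy hy0 hlt
    have hint : IsIntegral A y := hy.isIntegral
    have h0 : (minpoly A y).coeff 0 ≠ 0 := minpoly.coeff_zero_ne_zero hint hy0
    have h1 : aeval y (minpoly A y) = 0 := minpoly.aeval A y
    have h2 : minpoly A y = (minpoly A y).divX * X + C ((minpoly A y).coeff 0) :=
      (divX_mul_X_add _).symm
    have h3 : aeval y (minpoly A y).divX * y + (((minpoly A y).coeff 0 : A) : L) = 0 := by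
      have h6 := congrArg (aeval y) h2
      rw [h1, map_add, map_mul, aeval_X, aeval_C] at h6
      exact h6.symm
    have hyO : y ∈ O := (O.valuation_le_one_iff y).mp hlt.le
    have hmem : ∀ P : A[X], aeval y P ∈ O := by
      intro P
      induction P using Polynomial.induction_on' with
      | add P Q hP hQ => rw [map_add]; exact O.add_mem _ _ hP hQ
      | monomial n a =>
        rw [aeval_monomial]
        refine O.mul_mem _ _ ?_ (O.toSubring.pow_mem hyO n)
        show ((a : A) : L) ∈ O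
        by_cases ha : (a : L) = 0
        · rw [ha]; exact O.zero_mem
        · exact (O.valuation_le_one_iff _).mp (hA _ a.2 ha).le
    have h4 : (((minpoly A y).coeff 0 : A) : L) = -(aeval y (minpoly A y).divX * y) := by
      linear_combination h3
    have h5 : O.valuation (((minpoly A y).coeff 0 : A) : L) = 1 :=
      hA _ (Subtype.prop _) (fun h => h0 (Subtype.ext h))
    rw [h4, Valuation.map_neg, map_mul] at h5
    have h6 : O.valuation (aeval y (minpoly A y).divX) * O.valuation y < 1 := by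
      have := (O.valuation_le_one_iff _).mpr (hmem (minpoly A y).divX)
      calc _ ≤ 1 * O.valuation y := by gcongr
        _ < 1 := by rwa [one_mul]
    rw [h5] at h6
    exact lt_irrefl _ h6
  have h1 := key x hx hx0
  have h2 := key x⁻¹ hx.inv (inv_ne_zero hx0)
  rw [not_lt] at h1 h2
  rw [map_inv₀] at h2
  have h3 : 0 < O.valuation x := lt_of_lt_of_le zero_lt_one h1
  exact le_antisymm ((one_le_inv₀ h3).mp h2) h1

/-- Perfect trivially valued subfields satisfy `W`. -/
theorem triv_W [CharP L p] {A : Subfield L} (hA : ∀ a ∈ A, a ≠ 0 → O.valuation a = 1)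
    (hp : PCl p A) [IsAlgClosed L] : W p O A := by
  have hAO : ∀ a ∈ A, a ∈ O := by
    intro a ha
    by_cases h0 : a = 0
    · rw [h0]; exact O.zero_mem
    · exact (O.valuation_le_one_iff _).mp (hA a ha h0).le
  refine ⟨hp, ?_, ?_⟩
  · intro c a hc ha hlt
    obtain ⟨h, hm, hcA, -, hroot, -⟩ := hc
    have hcalg : IsAlgebraic A c := by
      have hlift : h ∈ Polynomial.lifts (algebraMap A L) := by
        rw [Polynomial.lifts_iff_coeff_lifts]
        intro n
        exact ⟨⟨h.coeff n, hcA n⟩, rfl⟩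
      obtain ⟨q, hq, hqd, hqm⟩ := Polynomial.lifts_and_natDegree_eq_and_monic hlift hm
      refine ⟨q, hqm.ne_zero, ?_⟩
      rw [aeval_def, ← eval_map, hq, hroot]
    by_contra hcon
    have hne : c - a ≠ 0 := by
      intro h0
      apply hcon
      rw [sub_eq_zero] at h0
      rwa [h0]
    have halg : IsAlgebraic A (c - a) :=
      hcalg.sub (isAlgebraic_algebraMap (⟨a, ha⟩ : A))
    have := triv_alg O hA halg hne
    rw [this] at hlt
    exact lt_irrefl _ hlt
  · intro x hx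
    have hchp : CharP A p := RingHom.charP A.subtype Subtype.val_injective p
    have hexp : ExpChar A p := ExpChar.prime Fact.out
    have hperf : PerfectRing A p := by
      apply PerfectRing.ofSurjective
      intro a
      obtain ⟨y, hy⟩ := IsAlgClosed.exists_pow_nat_eq (a : L) (Fact.out : p.Prime).pos
      refine ⟨⟨y, hp y (by rw [hy]; exact a.2)⟩, ?_⟩
      apply Subtype.ext
      rw [frobenius_def]
      exact hy
    have hpf : PerfectField A := PerfectRing.toPerfectField A p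
    have hint : IsIntegral A x := hx.isIntegral
    have hsep : (minpoly A x).Separable :=
      PerfectField.separable_of_irreducible (minpoly.irreducible hint)
    have hder : aeval x (derivative (minpoly A x)) ≠ 0 :=
      hsep.aeval_derivative_ne_zero (minpoly.aeval A x)
    have hsr : ∀ F : Subfield L, A ≤ F → SRoot O F x := by
      intro F hF
      refine ⟨(minpoly A x).map A.subtype, (minpoly.monic hint).map _, ?_, ?_, ?_, ?_⟩
      · intro i
        rw [coeff_map]
        exact hF (Subtype.prop _)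
      · intro i
        rw [coeff_map]
        exact hAO _ (Subtype.prop _)
      · rw [eval_map]
        exact minpoly.aeval A x
      · rw [derivative_map, eval_map]
        apply triv_alg O hA _ hder
        exact (IsIntegral.of_mem_of_fg _ hint.fg_adjoin_singleton _
          (aeval_mem_adjoin_singleton _ _)).isAlgebraic
    rw [cl, clN, Subfield.mem_sInf]
    intro F hF
    exact hF.2.2 x trivial (hsr F hF.1)

end triv

theorem pow_inj {L : Type*} [Field L] [CharP L p] {x y : L} (N : ℕ)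
    (h : x ^ p ^ N = y ^ p ^ N) : x = y :=
  iterateFrobenius_inj L p N (by simpa [iterateFrobenius_def] using h)

/-! ### roots of `t` in a package -/

section pk

variable (M : Pk p)

theorem root_lt {N : ℕ} {s : M.Om} (hs : s ^ p ^ N = M.t) : M.O.valuation s < 1 := by
  by_contra hcon
  rw [not_lt] at hcon
  have h1 : 1 ≤ M.O.valuation s ^ p ^ N := one_le_pow₀ hcon
  rw [← map_pow, hs] at h1
  exact absurd M.tm (not_lt.mpr h1)

theorem root_ne {N : ℕ} {s : M.Om} (hs : s ^ p ^ N = M.t) : s ≠ 0 := by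
  rintro rfl
  rw [zero_pow (pow_ne_zero _ (Fact.out : p.Prime).ne_zero)] at hs
  exact M.t0 hs.symm

theorem root_K {N : ℕ} {s : M.Om} (hs : s ^ p ^ N = M.t) : s ∈ M.K := by
  intro g hg
  apply pow_inj (p := p) N
  rw [← map_pow, hs, M.gt g hg]

theorem root_OK {N : ℕ} {s : M.Om} (hs : s ^ p ^ N = M.t) : s ∈ M.OK :=
  ⟨root_K M hs, (M.O.valuation_le_one_iff s).mp (root_lt M hs).le⟩

theorem root_inj {N : ℕ} {s : M.Om} (hs : s ^ p ^ N = M.t) : Function.Injective (evS p s) :=
  evS_inj M.O (root_lt M hs) (root_ne M hs)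

theorem t_inj : Function.Injective (evS p M.t) := evS_inj M.O M.tm M.t0

theorem cls_aeval {x : M.Om} (hx : x ∈ M.OK) (Q : ℤ[X]) :
    aeval x Q ∈ M.OK ∧ M.cls (aeval x Q) = aeval (M.cls x) Q := by
  have h1 : aeval x Q = ((aeval (⟨x, hx⟩ : M.OK) Q : M.OK) : M.Om) := by
    have := Polynomial.hom_eval₂ Q (algebraMap ℤ M.OK) M.OK.subtype (⟨x, hx⟩ : M.OK)
    rw [aeval_def, aeval_def]
    change _ = M.OK.subtype _
    rw [this]
    rfl
  have h2 : aeval x Q ∈ M.OK := by rw [h1]; exact Subtype.prop _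
  refine ⟨h2, ?_⟩
  have h3 : M.cls (aeval x Q) = Ideal.Quotient.mk (Ideal.span {M.tO}) ⟨aeval x Q, h2⟩ := by
    rw [Pk.cls, dif_pos h2]
  have h4 : M.cls x = Ideal.Quotient.mk (Ideal.span {M.tO}) ⟨x, hx⟩ := by
    rw [Pk.cls, dif_pos hx]
  rw [h3, h4]
  have h5 : (⟨aeval x Q, h2⟩ : M.OK) = aeval (⟨x, hx⟩ : M.OK) Q := Subtype.ext h1
  rw [h5, aeval_def, aeval_def, hom_eval₂]
  rfl

theorem cls_rho {N : ℕ} {s : M.Om} (hs : s ^ p ^ N = M.t) (g : RatFunc (ZMod p))
    (hg : g.denom.coeff 0 ≠ 0) (R P : (ZMod p)[X])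
    (hRP : g.num = R * g.denom + X ^ (p ^ N) * P) (Q : ℤ[X])
    (hQ : ∀ {L : Type} [Field L] [CharP L p] (s : L), evS p s R = aeval s Q) :
    M.cls (rho s (root_inj M hs) g) = aeval (M.cls s) Q := by
  obtain ⟨z, hz, hz2⟩ := rho_decomp M.O (root_lt M hs) (p ^ N) hs (root_inj M hs) g hg R P hRP
  have h1 := cls_aeval M (root_OK M hs) Q
  rw [← h1.2]
  rw [Pk.cls_eq M ⟨rho_mem M.K (root_K M hs) _ g,
    (rho_mem_O M.O (root_lt M hs) (root_ne M hs) _ g).mpr hg⟩ h1.1]
  exact ⟨z, hz, by rw [← hQ]; exact hz2⟩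

end pk

end G3x

open G3x in
/-- The perfect hull of the rational functions and its canonical embedding. -/
theorem G3_base {M M' : Pk p} (h : TEQ M M') :
    ∃ (A : Subfield M.Om) (e : M.Om → M'.Om), A ≤ M.K ∧ PCl p A ∧ M.t ∈ A ∧ HomOn A e ∧
      (∀ x ∈ A, e x ∈ M'.K) ∧ e M.t = M'.t ∧ (∀ x ∈ A, x ∈ M.O ↔ e x ∈ M'.O) ∧
      TE M M' A e ∧ W p M.O1 A := by
  classical
  have hinj := t_inj M
  have hinj' := t_inj M'
  let F := RatFunc (ZMod p)
  let _ : Algebra F M.Om := (rho M.t hinj).toAlgebra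
  let _ : Algebra F M'.Om := (rho M'.t hinj').toAlgebra
  have hmap : ∀ f : F, algebraMap F M.Om f = rho M.t hinj f := fun f => rfl
  have hmap' : ∀ f : F, algebraMap F M'.Om f = rho M'.t hinj' f := fun f => rfl
  have hchF : CharP F p := RingHom.charP (rho M.t hinj) (rho M.t hinj).injective p
  have hexF : ExpChar F p := ExpChar.prime Fact.out
  let P := perfectClosure F M.Om
  have hmemP : ∀ x : M.Om, x ∈ P ↔ ∃ (n : ℕ) (f : F), x ^ p ^ n = rho M.t hinj f := by
    intro x
    rw [mem_perfectClosure_iff_pow_mem p]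
    constructor
    · rintro ⟨n, f, hf⟩; exact ⟨n, f, hf.symm⟩
    · rintro ⟨n, f, hf⟩; exact ⟨n, f, hf.symm⟩
  let A : Subfield M.Om := P.toSubfield
  have hmemA : ∀ x : M.Om, x ∈ A ↔ ∃ (n : ℕ) (f : F), x ^ p ^ n = rho M.t hinj f := hmemP
  let li : P →ₐ[F] M'.Om := IsAlgClosed.lift
  let e : M.Om → M'.Om := fun x => if hx : x ∈ P then li ⟨x, hx⟩ else 0
  have he : ∀ x (hx : x ∈ P), e x = li ⟨x, hx⟩ := fun x hx => dif_pos hx
  have hX : rho M.t hinj (algebraMap (ZMod p)[X] F X) = M.t := by rw [rho_alg, evS_X]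
  have hX' : rho M'.t hinj' (algebraMap (ZMod p)[X] F X) = M'.t := by rw [rho_alg, evS_X]
  have hepow : ∀ x ∈ A, ∀ (n : ℕ) (f : F), x ^ p ^ n = rho M.t hinj f →
      (e x) ^ p ^ n = rho M'.t hinj' f := by
    intro x hx n f hf
    rw [he x hx, ← map_pow]
    have h1 : (⟨x, hx⟩ : P) ^ p ^ n = algebraMap F P f := by
      apply Subtype.ext
      rw [SubmonoidClass.coe_pow]
      exact hf
    rw [h1, AlgHom.commutes]; rfl
  have hAK : A ≤ M.K := by
    intro x hx
    obtain ⟨n, f, hf⟩ := (hmemA x).mp hx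
    intro g hg
    apply pow_inj (p := p) n
    rw [← map_pow, hf]
    exact rho_mem M.K M.t_mem_K hinj f g hg
  have hPA : PCl p A := by
    intro x hx
    obtain ⟨n, f, hf⟩ := (hmemA _).mp hx
    rw [hmemA]
    exact ⟨n + 1, f, by rw [← hf, ← pow_mul, pow_succ, mul_comm]⟩
  have htA : M.t ∈ A := (hmemA _).mpr ⟨0, algebraMap (ZMod p)[X] F X, by rw [hX]; simp⟩
  have hhom : HomOn A e := by
    refine ⟨?_, ?_, ?_⟩
    · rw [he 1 P.one_mem]; exact map_one li
    · intro x hx y hy
      rw [he x hx, he y hy, he (x + y) (P.add_mem hx hy), ← map_add]; rfl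
    · intro x hx y hy
      rw [he x hx, he y hy, he (x * y) (P.mul_mem hx hy), ← map_mul]; rfl
  have heK : ∀ x ∈ A, e x ∈ M'.K := by
    intro x hx
    obtain ⟨n, f, hf⟩ := (hmemA x).mp hx
    intro g hg
    apply pow_inj (p := p) n
    rw [← map_pow, hepow x hx n f hf]
    exact rho_mem M'.K M'.t_mem_K hinj' f g hg
  have het : e M.t = M'.t := by
    have := hepow M.t htA 0 (algebraMap (ZMod p)[X] F X) (by rw [hX]; simp)
    rw [hX'] at this
    simpa using this
  have hOpow : ∀ {N : Pk p} (x : N.Om) (n : ℕ), x ∈ N.O ↔ x ^ p ^ n ∈ N.O := by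
    intro N x n
    rw [← N.O.valuation_le_one_iff, ← N.O.valuation_le_one_iff, map_pow]
    constructor
    · intro h; exact pow_le_one' h _
    · intro h
      by_contra hcon
      rw [not_le] at hcon
      exact absurd h (not_le.mpr (one_lt_pow₀ hcon (pow_ne_zero _ (Fact.out : p.Prime).ne_zero)))
  have heO : ∀ x ∈ A, x ∈ M.O ↔ e x ∈ M'.O := by
    intro x hx
    obtain ⟨n, f, hf⟩ := (hmemA x).mp hx
    rw [hOpow x n, hOpow (e x) n, hepow x hx n f hf, hf, rho_mem_O M.O M.tm M.t0,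
      rho_mem_O M'.O M'.tm M'.t0]
  have hTE : TE M M' A e := by
    intro c ev hev
    obtain ⟨m, hm⟩ := semTr_local c
    have h1 : ∀ n, ∃ (k : ℕ) (f : F), (ev n) ^ p ^ k = rho M.t hinj f :=
      fun n => (hmemA _).mp (hev n).1
    choose k f hf using h1
    let N := (Finset.range m).sup k
    have hkN : ∀ n < m, k n ≤ N := fun n hn => Finset.le_sup (Finset.mem_range.mpr hn)
    obtain ⟨s, hs⟩ := IsAlgClosed.exists_pow_nat_eq M.t (n := p ^ N)
      (pow_pos (Fact.out : p.Prime).pos _)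
    have hsA : s ∈ A := (hmemA _).mpr ⟨N, algebraMap (ZMod p)[X] F X, by rw [hX, hs]⟩
    have hs' : (e s) ^ p ^ N = M'.t := by
      rw [hepow s hsA N (algebraMap (ZMod p)[X] F X) (by rw [hX, hs]), hX']
    have hgex : ∀ n, ∃ g : F, n < m → (ev n = rho s (root_inj M hs) g ∧
        e (ev n) = rho (e s) (root_inj M' hs') g) := by
      intro n
      by_cases hn : n < m
      · refine ⟨f n ^ p ^ (N - k n), fun _ => ?_⟩
        have h2 : (ev n) ^ p ^ N = rho M.t hinj (f n ^ p ^ (N - k n)) := by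
          rw [map_pow, ← hf n, ← pow_mul, ← pow_add, Nat.add_sub_cancel' (hkN n hn)]
        constructor
        · apply pow_inj (p := p) N
          rw [h2, rho_pow N hs (root_inj M hs) hinj]
        · apply pow_inj (p := p) N
          rw [hepow _ (hev n).1 N _ h2, rho_pow N hs' (root_inj M' hs') hinj']
      · exact ⟨0, fun h => absurd h hn⟩
    choose g hg using hgex
    have hQex : ∀ n, ∃ Q : ℤ[X], n < m → (M.cls (ev n) = aeval (M.cls s) Q ∧
        M'.cls (e (ev n)) = aeval (M'.cls (e s)) Q) := by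
      intro n
      by_cases hn : n < m
      · have hden : (g n).denom.coeff 0 ≠ 0 := by
          rw [← rho_mem_O M.O (root_lt M hs) (root_ne M hs) (root_inj M hs), ← (hg n hn).1]
          exact (hev n).2
        obtain ⟨R, P', hRP⟩ := exists_decomp (g n) hden (p ^ N)
        obtain ⟨Q, hQ⟩ := G3x.exists_lift R
        refine ⟨Q, fun _ => ⟨?_, ?_⟩⟩
        · rw [(hg n hn).1]
          exact cls_rho M hs (g n) hden R P' hRP Q hQ
        · rw [(hg n hn).2]
          exact cls_rho M' hs' (g n) hden R P' hRP Q hQ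
      · exact ⟨0, fun h => absurd h hn⟩
    choose Q hQ using hQex
    obtain ⟨c', hc'⟩ := exists_subst c Q
    have h3 := h N c' s (e s) hs hs'
    rw [hc', hc'] at h3
    have h4 : M.par s 0 = M.cls s := by simp [Pk.par]
    have h5 : M'.par (e s) 0 = M'.cls (e s) := by simp [Pk.par]
    rw [h4, h5] at h3
    rw [hm (fun n => M.cls (ev n)) (fun n => aeval (M.cls s) (Q n)) (fun n hn => (hQ n hn).1),
      hm (fun n => M'.cls (e (ev n))) (fun n => aeval (M'.cls (e s)) (Q n))
        (fun n hn => (hQ n hn).2)]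
    exact h3
  refine ⟨A, e, hAK, hPA, htA, hhom, heK, het, heO, hTE, ?_⟩
  -- the coarse valuation is trivial on `A`
  apply triv_W M.O1 _ hPA
  have hunit : ∀ x : M.Om, x ≠ 0 → x ∈ M.O1 → x⁻¹ ∈ M.O1 → M.O1.valuation x = 1 := by
    intro x hx0 hx hxi
    rw [← M.O1.valuation_le_one_iff] at hx hxi
    apply le_antisymm hx
    rw [map_inv₀] at hxi
    have h0 : 0 < M.O1.valuation x := by
      rw [zero_lt_iff, Ne, map_eq_zero]; exact hx0
    exact (inv_le_one₀ h0).mp hxi
  have hT : M.O1.valuation M.t = 1 := by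
    apply hunit M.t M.t0 (M.O_le_O1 M.t_mem)
    rw [Pk.mem_O1]
    exact ⟨1, by rw [pow_one, mul_inv_cancel₀ M.t0]; exact M.O.one_mem⟩
  have hO : ∀ x : M.Om, M.O.valuation x = 1 → M.O1.valuation x = 1 := by
    intro x hx
    have hx0 : x ≠ 0 := by
      rintro rfl
      rw [map_zero] at hx
      exact zero_ne_one hx
    apply hunit x hx0
    · exact M.O_le_O1 ((M.O.valuation_le_one_iff x).mp hx.le)
    · apply M.O_le_O1
      rw [← M.O.valuation_le_one_iff, map_inv₀, hx, inv_one]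
  have hev : ∀ P : (ZMod p)[X], P ≠ 0 → M.O1.valuation (evS p M.t P) = 1 := by
    intro P hP
    obtain ⟨k, Q, hQ, rfl⟩ := exists_fac P hP
    rw [map_mul, map_pow, evS_X, map_mul, map_pow, hT, one_pow, one_mul]
    exact hO _ (val_ev M.O M.tm Q hQ)
  intro a ha ha0
  obtain ⟨n, f, hf⟩ := (hmemA a).mp ha
  have hf0 : f ≠ 0 := by
    rintro rfl
    rw [map_zero] at hf
    exact ha0 (pow_eq_zero_iff (pow_ne_zero _ (Fact.out : p.Prime).ne_zero) |>.mp hf)
  have h1 : M.O1.valuation (a ^ p ^ n) = 1 := by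
    rw [hf, rho_eq, map_div₀, hev _ (RatFunc.num_ne_zero hf0), hev _ f.denom_ne_zero, div_one]
  rw [map_pow] at h1
  have hpn : p ^ n ≠ 0 := pow_ne_zero _ (Fact.out : p.Prime).ne_zero
  rcases lt_trichotomy (M.O1.valuation a) 1 with h2 | h2 | h2
  · exact absurd h1 (pow_lt_one₀ zero_le h2 hpn).ne
  · exact h2
  · exact absurd h1 (one_lt_pow₀ h2 hpn).ne'

theorem HomOn.zero3 {L L' : Type*} [Field L] [Field L'] {A : Subfield L} {e : L → L'}
    (he : HomOn A e) : e 0 = 0 := by
  have h1 := he.add 0 A.zero_mem 0 A.zero_mem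
  rw [add_zero] at h1
  exact left_eq_add.mp h1

/-- Completeness: the truncations determine the theory. -/
theorem G3 {M M' : Pk p} (h : TEQ M M') (φ : Fm 1) :
    M.sat φ (fun _ => 0) ↔ M'.sat φ (fun _ => 0) := by
  obtain ⟨A, e, hAK, hPA, htA, hhom, heK, het, heO, hTE, hW⟩ := G3_base h
  obtain ⟨M1, j, lam, hj, hlam, hgood, hTE1, hfine⟩ := G1 hAK hPA htA hhom heK het heO hTE
  obtain ⟨M2, j', e1, hj', hgood2, he1⟩ := F3 hAK hW hlam hgood
  have hEE : EExt M' M2 (j' ∘ j) := hj.comp hj'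
  -- the residue of `e1`
  have hres : ∀ x ∈ M.K, x ∈ M.O1 → M2.O1.valuation (e1 x - j' (lam x)) < 1 :=
    fun x hx hxO => hgood2.res x hx hxO
  have hin : ∀ x ∈ M.K, x ∈ M.O1 → ∃ y ∈ M2.O, e1 x - j' (lam x) = M2.t * y := by
    intro x hx hxO
    obtain ⟨y, hy, hy2⟩ := (M2.val1_lt _).mp (hres x hx hxO) 1
    exact ⟨y, hy, by rw [hy2, pow_one]⟩
  have hO1 : ∀ x ∈ M.K, x ∈ M.O1 → (x ∈ M.O ↔ e1 x ∈ M2.O) := by
    intro x hx hxO
    rw [hfine x hx hxO, ← hj'.memO (hlam.rng x hx hxO).1]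
    obtain ⟨y, hy, hy2⟩ := hin x hx hxO
    have hty : M2.t * y ∈ M2.O := M2.O.mul_mem _ _ M2.t_mem hy
    constructor
    · intro h1
      have : e1 x = j' (lam x) + M2.t * y := by rw [← hy2]; ring
      rw [this]
      exact M2.O.add_mem _ _ h1 hty
    · intro h1
      have : j' (lam x) = e1 x - M2.t * y := by rw [← hy2]; ring
      rw [this]
      exact M2.O.toSubring.sub_mem h1 hty
  have hKpos : ∀ x ∈ M.K, x ∉ M.O1 → e1 x ∉ M2.O1 := by
    intro x hx hxO
    have hx0 : x ≠ 0 := by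
      rintro rfl
      exact hxO M.O1.zero_mem
    have hxi : x⁻¹ ∈ M.O1 := (M.O1.mem_or_inv_mem x).resolve_left hxO
    have hv : M.O1.valuation x⁻¹ < 1 := by
      rw [map_inv₀]
      rw [← M.O1.valuation_le_one_iff, not_le] at hxO
      exact inv_lt_one_of_one_lt₀ hxO
    have hxiK : x⁻¹ ∈ M.K := M.K.inv_mem hx
    have h1 := hres x⁻¹ hxiK hxi
    have h2 : M1.O1.valuation (lam x⁻¹) < 1 := (hlam.ker x⁻¹ hxiK hxi).mpr hv
    have h3 : M2.O1.valuation (j' (lam x⁻¹)) < 1 :=
      (hj'.val1 (hlam.rng x⁻¹ hxiK hxi).1).mpr h2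
    have h4 : M2.O1.valuation (e1 x⁻¹) < 1 := by
      have : e1 x⁻¹ = (e1 x⁻¹ - j' (lam x⁻¹)) + j' (lam x⁻¹) := by ring
      rw [this]
      exact Valuation.map_add_lt _ h1 h3
    have h5 : e1 x * e1 x⁻¹ = 1 := by
      rw [← hgood2.hom.mul x hx x⁻¹ hxiK, mul_inv_cancel₀ hx0, hgood2.hom.one]
    intro hcon
    rw [← M2.O1.valuation_le_one_iff] at hcon
    have h6 : M2.O1.valuation (e1 x * e1 x⁻¹) < 1 := by
      rw [map_mul]
      calc _ ≤ 1 * M2.O1.valuation (e1 x⁻¹) := by gcongr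
        _ < 1 := by rwa [one_mul]
    rw [h5, map_one] at h6
    exact lt_irrefl _ h6
  have hO : ∀ x ∈ M.K, x ∈ M.O ↔ e1 x ∈ M2.O := by
    intro x hx
    by_cases hxO : x ∈ M.O1
    · exact hO1 x hx hxO
    · exact ⟨fun h1 => absurd (M.O_le_O1 h1) hxO,
        fun h1 => absurd (M2.O_le_O1 h1) (hKpos x hx hxO)⟩
  have ht2 : e1 M.t = M2.t := by
    rw [he1 M.t htA]
    show j' (j (e M.t)) = M2.t
    rw [het, hj.t, hj'.t]
  have hTE2 : TE M M2 M.K (j' ∘ lam) := by
    intro c ev hev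
    rw [hTE1 c ev hev]
    refine TE_of_EExt hj' c (fun n => lam (ev n)) fun n => ⟨?_, ?_⟩
    · exact (hlam.rng _ (hev n).1 (M.O_le_O1 (hev n).2)).1
    · exact (hfine _ (hev n).1 (M.O_le_O1 (hev n).2)).mp (hev n).2
  have hTE3 : TE M M2 M.K e1 := by
    refine TE.congr le_rfl hTE2 ?_
    intro x hx hxO
    have hxO1 := M.O_le_O1 hxO
    have h1 : j' (lam x) ∈ M2.OK := by
      refine ⟨hj'.rng _ (hlam.rng x hx hxO1).1, ?_⟩
      exact (hj'.memO (hlam.rng x hx hxO1).1).mpr ((hfine x hx hxO1).mp hxO)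
    have h2 : e1 x ∈ M2.OK := ⟨hgood2.rng x hx, (hO x hx).mp hxO⟩
    show M2.cls (j' (lam x)) = M2.cls (e1 x)
    rw [Pk.cls_eq M2 h1 h2]
    obtain ⟨y, hy, hy2⟩ := hin x hx hxO1
    refine ⟨-y, M2.O.neg_mem _ hy, ?_⟩
    linear_combination -hy2
  have hfin := G2 φ hgood2.hom hgood2.rng ht2 hO hTE3 (fun _ => 0) (fun _ => M.K.zero_mem)
  have hfin2 := hEE.el φ (fun _ => 0) (fun _ => M'.K.zero_mem)
  have h0 : e1 0 = 0 := HomOn.zero3 hgood2.hom
  have h0' : (j' ∘ j) 0 = 0 := HomOn.zero3 hEE.hom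
  rw [h0] at hfin
  rw [h0'] at hfin2
  rw [hfin, hfin2]

end Pool.Agent.H92.Tilt
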