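import Pool.Agent.H92.Tilt.Syn

/-!
Semantics of raw codes. Every natural number is the code of a term and of a formula; ill-formed
codes get a default value.

* `rev`, `semTr`: first-order formulas of the language of rings, evaluated in a commutative ring.
* `Str`, `ev`, `sem`: formulas of the package language, evaluated in a structure.
-/

set_option autoImplicit false

namespace Pool.Agent.H92.Tilt

theorem lt_pair_right {a b : ℕ} (h : 0 < a) : b < Nat.pair a b := by
  unfold Nat.pair
  split_ifs with h1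
  · nlinarith
  · have h3 := not_lt.mp h1
    nlinarith

theorem unpair_lt {c a b : ℕ} (h : c.unpair = (a, b)) (ha : 0 < a) : b < c := by
  have h2 : Nat.pair a b = c := by
    have := Nat.pair_unpair c
    rw [h] at this
    exact this
  rw [← h2]
  exact lt_pair_right ha

theorem unpair_lt1 {c a b : ℕ} (h : c.unpair = (a, b)) (ha : 0 < a) : b.unpair.1 < c :=
  lt_of_le_of_lt (Nat.unpair_left_le b) (unpair_lt h ha)

theorem unpair_lt2 {c a b : ℕ} (h : c.unpair = (a, b)) (ha : 0 < a) : b.unpair.2 < c :=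
  lt_of_le_of_lt (Nat.unpair_right_le b) (unpair_lt h ha)

/-- Value of the raw term `c` in a commutative ring (tags: 0 variable, 3 one, 4 negation, 5 sum,
6 product, everything else is zero). -/
noncomputable def rev {R : Type*} [CommRing R] (c : ℕ) (e : ℕ → R) : R :=
  match _h : c.unpair with
  | (0, n) => e n
  | (3, _) => 1
  | (4, a) => - rev a e
  | (5, m) => rev m.unpair.1 e + rev m.unpair.2 e
  | (6, m) => rev m.unpair.1 e * rev m.unpair.2 e
  | _ => 0
termination_by c
decreasing_by
  · exact unpair_lt _h (by norm_num)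
  · exact unpair_lt1 _h (by norm_num)
  · exact unpair_lt2 _h (by norm_num)
  · exact unpair_lt1 _h (by norm_num)
  · exact unpair_lt2 _h (by norm_num)

/-- Truth of the raw formula `c` in a commutative ring (tags: 0 equation, 2 negation,
3 conjunction, 4 quantification over the variable with the given number, everything else
is true). -/
def semTr {R : Type*} [CommRing R] (c : ℕ) (e : ℕ → R) : Prop :=
  match _h : c.unpair with
  | (0, m) => rev m.unpair.1 e = rev m.unpair.2 e
  | (2, a) => ¬ semTr a e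
  | (3, m) => semTr m.unpair.1 e ∧ semTr m.unpair.2 e
  | (4, m) => ∀ a : R, semTr m.unpair.2 (Function.update e m.unpair.1 a)
  | _ => True
termination_by c
decreasing_by
  · exact unpair_lt _h (by norm_num)
  · exact unpair_lt1 _h (by norm_num)
  · exact unpair_lt2 _h (by norm_num)
  · exact unpair_lt2 _h (by norm_num)

/-- A structure for the package language. Equality is only a binary relation. -/
structure Str : Type 1 where
  D : Type
  zero : D
  one : D
  t : D
  neg : D → D
  add : D → D → D
  mul : D → D → D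
  act : D → D → D
  eq : D → D → Prop
  inO : D → Prop

/-- Value of the raw term `c` in a structure (tags: 0 variable, 1 the constant `t`, 3 one,
4 negation, 5 sum, 6 product, 7 action, everything else is zero). -/
noncomputable def ev (S : Str) (c : ℕ) (e : ℕ → S.D) : S.D :=
  match _h : c.unpair with
  | (0, n) => e n
  | (1, _) => S.t
  | (3, _) => S.one
  | (4, a) => S.neg (ev S a e)
  | (5, m) => S.add (ev S m.unpair.1 e) (ev S m.unpair.2 e)
  | (6, m) => S.mul (ev S m.unpair.1 e) (ev S m.unpair.2 e)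
  | (7, m) => S.act (ev S m.unpair.1 e) (ev S m.unpair.2 e)
  | _ => S.zero
termination_by c
decreasing_by
  · exact unpair_lt _h (by norm_num)
  · exact unpair_lt1 _h (by norm_num)
  · exact unpair_lt2 _h (by norm_num)
  · exact unpair_lt1 _h (by norm_num)
  · exact unpair_lt2 _h (by norm_num)
  · exact unpair_lt1 _h (by norm_num)
  · exact unpair_lt2 _h (by norm_num)

/-- `a` is fixed by the action of every element. -/
def Str.fixd (S : Str) (a : S.D) : Prop := ∀ g : S.D, S.eq (S.act g a) a

/-- Truth of the raw formula `c` in a structure (tags: 0 equation, 1 membership in `O`,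
2 negation, 3 conjunction, 4 quantification over the fixed elements, 5 quantification over all
elements, everything else is true). -/
def sem (S : Str) (c : ℕ) (e : ℕ → S.D) : Prop :=
  match _h : c.unpair with
  | (0, m) => S.eq (ev S m.unpair.1 e) (ev S m.unpair.2 e)
  | (1, a) => S.inO (ev S a e)
  | (2, a) => ¬ sem S a e
  | (3, m) => sem S m.unpair.1 e ∧ sem S m.unpair.2 e
  | (4, m) => ∀ a : S.D, S.fixd a → sem S m.unpair.2 (Function.update e m.unpair.1 a)
  | (5, m) => ∀ a : S.D, sem S m.unpair.2 (Function.update e m.unpair.1 a)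
  | _ => True
termination_by c
decreasing_by
  · exact unpair_lt _h (by norm_num)
  · exact unpair_lt1 _h (by norm_num)
  · exact unpair_lt2 _h (by norm_num)
  · exact unpair_lt2 _h (by norm_num)
  · exact unpair_lt2 _h (by norm_num)

section Eqns

variable {R : Type*} [CommRing R] (e : ℕ → R)

@[simp] theorem rev_var (n : ℕ) : rev (Nat.pair 0 n) e = e n := by
  rw [rev]; split <;> simp_all

theorem rev_default (k n : ℕ) (h0 : k ≠ 0) (h3 : k ≠ 3) (h4 : k ≠ 4) (h5 : k ≠ 5) (h6 : k ≠ 6) :
    rev (Nat.pair k n) e = 0 := by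
  rw [rev]; split <;> simp_all

@[simp] theorem rev_cst (n : ℕ) : rev (Nat.pair 1 n) e = 0 :=
  rev_default e 1 n (by norm_num) (by norm_num) (by norm_num) (by norm_num) (by norm_num)

@[simp] theorem rev_zero (n : ℕ) : rev (Nat.pair 2 n) e = 0 :=
  rev_default e 2 n (by norm_num) (by norm_num) (by norm_num) (by norm_num) (by norm_num)

@[simp] theorem rev_one (n : ℕ) : rev (Nat.pair 3 n) e = 1 := by
  rw [rev]; split <;> simp_all

@[simp] theorem rev_neg (a : ℕ) : rev (Nat.pair 4 a) e = - rev a e := by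
  rw [rev]; split <;> simp_all

theorem rev_add' (m : ℕ) :
    rev (Nat.pair 5 m) e = rev m.unpair.1 e + rev m.unpair.2 e := by
  rw [rev]; split <;> simp_all

theorem rev_mul' (m : ℕ) :
    rev (Nat.pair 6 m) e = rev m.unpair.1 e * rev m.unpair.2 e := by
  rw [rev]; split <;> simp_all

@[simp] theorem rev_add (a b : ℕ) :
    rev (Nat.pair 5 (Nat.pair a b)) e = rev a e + rev b e := by
  rw [rev_add']; simp

@[simp] theorem rev_mul (a b : ℕ) :
    rev (Nat.pair 6 (Nat.pair a b)) e = rev a e * rev b e := by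
  rw [rev_mul']; simp

theorem semTr_eq' (m : ℕ) :
    semTr (Nat.pair 0 m) e ↔ rev m.unpair.1 e = rev m.unpair.2 e := by
  rw [semTr]; split <;> simp_all

@[simp] theorem semTr_eq (a b : ℕ) :
    semTr (Nat.pair 0 (Nat.pair a b)) e ↔ rev a e = rev b e := by
  rw [semTr_eq']; simp

@[simp] theorem semTr_neg (a : ℕ) : semTr (Nat.pair 2 a) e ↔ ¬ semTr a e := by
  rw [semTr]; split <;> simp_all

theorem semTr_and' (m : ℕ) :
    semTr (Nat.pair 3 m) e ↔ semTr m.unpair.1 e ∧ semTr m.unpair.2 e := by
  rw [semTr]; split <;> simp_all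

@[simp] theorem semTr_and (a b : ℕ) :
    semTr (Nat.pair 3 (Nat.pair a b)) e ↔ semTr a e ∧ semTr b e := by
  rw [semTr_and']; simp

theorem semTr_all' (m : ℕ) :
    semTr (Nat.pair 4 m) e ↔ ∀ a : R, semTr m.unpair.2 (Function.update e m.unpair.1 a) := by
  rw [semTr]; split <;> simp_all

@[simp] theorem semTr_all (n a : ℕ) :
    semTr (Nat.pair 4 (Nat.pair n a)) e ↔ ∀ x : R, semTr a (Function.update e n x) := by
  rw [semTr_all']; simp

theorem semTr_default (k n : ℕ) (h0 : k ≠ 0) (h2 : k ≠ 2) (h3 : k ≠ 3) (h4 : k ≠ 4) :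
    semTr (Nat.pair k n) e ↔ True := by
  rw [semTr]; split <;> simp_all

end Eqns

section EqnsS

variable (S : Str) (e : ℕ → S.D)

@[simp] theorem ev_var (n : ℕ) : ev S (Nat.pair 0 n) e = e n := by
  rw [ev]; split <;> simp_all

@[simp] theorem ev_t (n : ℕ) : ev S (Nat.pair 1 n) e = S.t := by
  rw [ev]; split <;> simp_all

@[simp] theorem ev_zero (n : ℕ) : ev S (Nat.pair 2 n) e = S.zero := by
  rw [ev]; split <;> simp_all

@[simp] theorem ev_one (n : ℕ) : ev S (Nat.pair 3 n) e = S.one := by
  rw [ev]; split <;> simp_all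

@[simp] theorem ev_neg (a : ℕ) : ev S (Nat.pair 4 a) e = S.neg (ev S a e) := by
  rw [ev]; split <;> simp_all

theorem ev_add' (m : ℕ) :
    ev S (Nat.pair 5 m) e = S.add (ev S m.unpair.1 e) (ev S m.unpair.2 e) := by
  rw [ev]; split <;> simp_all

theorem ev_mul' (m : ℕ) :
    ev S (Nat.pair 6 m) e = S.mul (ev S m.unpair.1 e) (ev S m.unpair.2 e) := by
  rw [ev]; split <;> simp_all

theorem ev_act' (m : ℕ) :
    ev S (Nat.pair 7 m) e = S.act (ev S m.unpair.1 e) (ev S m.unpair.2 e) := by
  rw [ev]; split <;> simp_all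

@[simp] theorem ev_add (a b : ℕ) :
    ev S (Nat.pair 5 (Nat.pair a b)) e = S.add (ev S a e) (ev S b e) := by
  rw [ev_add']; simp

@[simp] theorem ev_mul (a b : ℕ) :
    ev S (Nat.pair 6 (Nat.pair a b)) e = S.mul (ev S a e) (ev S b e) := by
  rw [ev_mul']; simp

@[simp] theorem ev_act (a b : ℕ) :
    ev S (Nat.pair 7 (Nat.pair a b)) e = S.act (ev S a e) (ev S b e) := by
  rw [ev_act']; simp

theorem ev_default (k n : ℕ) (h : k = 2 ∨ 8 ≤ k) :
    ev S (Nat.pair k n) e = S.zero := by
  rw [ev]; split <;> simp_all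

theorem sem_eq' (m : ℕ) :
    sem S (Nat.pair 0 m) e ↔ S.eq (ev S m.unpair.1 e) (ev S m.unpair.2 e) := by
  rw [sem]; split <;> simp_all

@[simp] theorem sem_eq (a b : ℕ) :
    sem S (Nat.pair 0 (Nat.pair a b)) e ↔ S.eq (ev S a e) (ev S b e) := by
  rw [sem_eq']; simp

@[simp] theorem sem_inO (a : ℕ) : sem S (Nat.pair 1 a) e ↔ S.inO (ev S a e) := by
  rw [sem]; split <;> simp_all

@[simp] theorem sem_neg (a : ℕ) : sem S (Nat.pair 2 a) e ↔ ¬ sem S a e := by
  rw [sem]; split <;> simp_all

theorem sem_and' (m : ℕ) :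
    sem S (Nat.pair 3 m) e ↔ sem S m.unpair.1 e ∧ sem S m.unpair.2 e := by
  rw [sem]; split <;> simp_all

@[simp] theorem sem_and (a b : ℕ) :
    sem S (Nat.pair 3 (Nat.pair a b)) e ↔ sem S a e ∧ sem S b e := by
  rw [sem_and']; simp

theorem sem_allK' (m : ℕ) :
    sem S (Nat.pair 4 m) e ↔
      ∀ a : S.D, S.fixd a → sem S m.unpair.2 (Function.update e m.unpair.1 a) := by
  rw [sem]; split <;> simp_all

@[simp] theorem sem_allK (n a : ℕ) :
    sem S (Nat.pair 4 (Nat.pair n a)) e ↔
      ∀ x : S.D, S.fixd x → sem S a (Function.update e n x) := by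
  rw [sem_allK']; simp

theorem sem_all' (m : ℕ) :
    sem S (Nat.pair 5 m) e ↔ ∀ a : S.D, sem S m.unpair.2 (Function.update e m.unpair.1 a) := by
  rw [sem]; split <;> simp_all

@[simp] theorem sem_all (n a : ℕ) :
    sem S (Nat.pair 5 (Nat.pair n a)) e ↔ ∀ x : S.D, sem S a (Function.update e n x) := by
  rw [sem_all']; simp

theorem sem_default (k n : ℕ) (h : 6 ≤ k) :
    sem S (Nat.pair k n) e ↔ True := by
  rw [sem]; split <;> simp_all

end EqnsS

end Pool.Agent.H92.Tilt
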