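import Pool.Agent.H92.Tilt.Defs
import Pool.Agent.H92.Tilt.Raw

/-!
Packages: an algebraically closed field of characteristic `p` with a valuation ring `O`, a group
`G` of automorphisms preserving `O`, and an element `t`; the field of interest is the fixed field.
-/

set_option autoImplicit false

namespace Pool.Agent.H92.Tilt

/-- Satisfaction of a formula with quantifiers restricted to the subset `D` of `R`. -/
def SatIn {k : ℕ} {R : Type*} [CommRing R] (D O : Set R) (c : Fin k → R) :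
    Fm k → (ℕ → R) → Prop
  | .eq a b, e => a.val c e = b.val c e
  | .inO a, e => a.val c e ∈ O
  | .neg φ, e => ¬ SatIn D O c φ e
  | .and φ ψ, e => SatIn D O c φ e ∧ SatIn D O c ψ e
  | .all n φ, e => ∀ a ∈ D, SatIn D O c φ (Function.update e n a)

/-- A package. -/
structure Pk (p : ℕ) : Type 1 where
  Om : Type
  [fld : Field Om]
  [alg : IsAlgClosed Om]
  [chp : CharP Om p]
  O : ValuationSubring Om
  G : Subgroup (RingAut Om)
  t : Om
  gO : ∀ g ∈ G, ∀ x ∈ O, g x ∈ O
  t0 : t ≠ 0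
  tm : O.valuation t < 1
  gt : ∀ g ∈ G, g t = t
  P4 : ∀ a : Om, ∃ θ ∈ O, ∀ g ∈ G, (g a = a → g θ = θ) ∧
    (g a ≠ a → ∃ y ∈ O, t = (g θ - θ) * y)

attribute [instance] Pk.fld Pk.alg Pk.chp

namespace Pk

variable {p : ℕ} (M : Pk p)

theorem t_mem : M.t ∈ M.O := (M.O.valuation_le_one_iff M.t).1 M.tm.le

/-- The field of the package: the fixed field of `G`. -/
def K : Subfield M.Om where
  carrier := {x | ∀ g ∈ M.G, g x = x}
  mul_mem' := fun {a b} ha hb g hg => by rw [map_mul, ha g hg, hb g hg]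
  one_mem' := fun g _ => map_one g
  add_mem' := fun {a b} ha hb g hg => by rw [map_add, ha g hg, hb g hg]
  zero_mem' := fun g _ => map_zero g
  neg_mem' := fun {a} ha g hg => by rw [map_neg, ha g hg]
  inv_mem' := fun a ha g hg => by rw [map_inv₀, ha g hg]

theorem mem_K (x : M.Om) : x ∈ M.K ↔ ∀ g ∈ M.G, g x = x := Iff.rfl

theorem t_mem_K : M.t ∈ M.K := M.gt

/-- The coarsening `O[1/t]` of `O`. -/
def O1 : ValuationSubring M.Om where
  carrier := {x | ∃ n : ℕ, M.t ^ n * x ∈ M.O}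
  mul_mem' := by
    rintro a b ⟨m, hm⟩ ⟨n, hn⟩
    refine ⟨m + n, ?_⟩
    have : M.t ^ (m + n) * (a * b) = (M.t ^ m * a) * (M.t ^ n * b) := by ring
    rw [this]
    exact M.O.mul_mem _ _ hm hn
  one_mem' := ⟨0, by simp⟩
  add_mem' := by
    rintro a b ⟨m, hm⟩ ⟨n, hn⟩
    refine ⟨m + n, ?_⟩
    have : M.t ^ (m + n) * (a + b) = M.t ^ n * (M.t ^ m * a) + M.t ^ m * (M.t ^ n * b) := by ring
    rw [this]
    exact M.O.add_mem _ _ (M.O.mul_mem _ _ (pow_mem M.t_mem n) hm)
      (M.O.mul_mem _ _ (pow_mem M.t_mem m) hn)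
  zero_mem' := ⟨0, by simp⟩
  neg_mem' := by
    rintro a ⟨m, hm⟩
    refine ⟨m, ?_⟩
    have : M.t ^ m * -a = -(M.t ^ m * a) := by ring
    rw [this]
    exact M.O.neg_mem _ hm
  mem_or_inv_mem' := by
    intro a
    rcases M.O.mem_or_inv_mem a with h | h
    · exact Or.inl ⟨0, by simpa using h⟩
    · exact Or.inr ⟨0, by simpa using h⟩

theorem mem_O1 (x : M.Om) : x ∈ M.O1 ↔ ∃ n : ℕ, M.t ^ n * x ∈ M.O := Iff.rfl

theorem O_le_O1 : M.O ≤ M.O1 := fun x hx => ⟨0, by simpa using hx⟩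

/-- The valuation ring of `K`, as a subring of the big field. -/
def OK : Subring M.Om := M.K.toSubring ⊓ M.O.toSubring

theorem mem_OK (x : M.Om) : x ∈ M.OK ↔ x ∈ M.K ∧ x ∈ M.O := Iff.rfl

/-- `t` as an element of the valuation ring of `K`. -/
def tO : M.OK := ⟨M.t, M.t_mem_K, M.t_mem⟩

/-- The truncation `O_K / t`. -/
abbrev Tr : Type := M.OK ⧸ Ideal.span {M.tO}

open Classical in
/-- The class modulo `t` (zero outside `O_K`). -/
noncomputable def cls (x : M.Om) : M.Tr :=
  if h : x ∈ M.OK then Ideal.Quotient.mk (Ideal.span {M.tO}) ⟨x, h⟩ else 0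

/-- Satisfaction of formulas of the language of valued rings with the constant `t` in `K`. -/
def sat (φ : Fm 1) (e : ℕ → M.Om) : Prop := SatIn (M.K : Set M.Om) (M.O : Set M.Om) (fun _ => M.t) φ e

end Pk

variable {p : ℕ}

/-- `j` is an elementary embedding of the field of `M` in the field of `M'` (language of valued
rings with the constant `t`). -/
structure EExt (M M' : Pk p) (j : M.Om → M'.Om) : Prop where
  rng : ∀ x ∈ M.K, j x ∈ M'.K
  el : ∀ (φ : Fm 1) (e : ℕ → M.Om), (∀ n, e n ∈ M.K) → (M.sat φ e ↔ M'.sat φ (fun n => j (e n)))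

/-- `f` preserves the truth of formulas about the truncations, with parameters in `A ∩ O`. -/
def TE (M M' : Pk p) (A : Subfield M.Om) (f : M.Om → M'.Om) : Prop :=
  ∀ (c : ℕ) (e : ℕ → M.Om), (∀ n, e n ∈ A ∧ e n ∈ M.O) →
    (semTr c (fun n => M.cls (e n)) ↔ semTr c (fun n => M'.cls (f (e n))))

/-- The element `s` with `s ^ (p ^ N) = t`, as parameter number zero; all other parameters are
zero. -/
noncomputable def Pk.par (M : Pk p) (s : M.Om) : ℕ → M.Tr := fun n => if n = 0 then M.cls s else 0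

/-- The truncations of `M` and `M'`, with the roots of `t` named, have the same theory. -/
def TEQ (M M' : Pk p) : Prop :=
  ∀ (N c : ℕ) (s : M.Om) (s' : M'.Om), s ^ p ^ N = M.t → s' ^ p ^ N = M'.t →
    (semTr c (M.par s) ↔ semTr c (M'.par s'))

end Pool.Agent.H92.Tilt
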