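import Pool.Agent.H92.Tilt.Pk
import Pool.Agent.H92.Tilt.B9

/-!
Module PKB: basic properties of packages and of `EExt`, `TE`.
-/

set_option autoImplicit false
set_option linter.unusedSectionVars false

namespace Pool.Agent.H92.Tilt

variable {p : ℕ} [Fact p.Prime] (M : Pk p)

omit [Fact p.Prime] in
theorem Pk.tinv_not_mem : M.t⁻¹ ∉ M.O := by
  intro h
  have h1 := (M.O.valuation_le_one_iff _).2 h
  rw [map_inv₀] at h1
  have h2 : M.O.valuation M.t ≠ 0 := (map_ne_zero _).2 M.t0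
  have h3 : 1 ≤ M.O.valuation M.t := by
    have := mul_le_mul_left h1 (M.O.valuation M.t)
    simpa [h2] using this
  exact absurd M.tm (not_lt.2 h3)

/-- The value is less than one iff the inverse is not in the ring. -/
theorem pkb_val_lt_one_iff_inv {Ω : Type*} [Field Ω] (O : ValuationSubring Ω) {x : Ω} (hx : x ≠ 0) :
    O.valuation x < 1 ↔ x⁻¹ ∉ O := by
  rw [← O.valuation_le_one_iff, map_inv₀, not_le]
  constructor
  · intro h
    exact (one_lt_inv₀ (zero_lt_iff.2 ((map_ne_zero _).2 hx))).2 h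
  · intro h
    exact (one_lt_inv₀ (zero_lt_iff.2 ((map_ne_zero _).2 hx))).1 h

/-- The maximal ideal of `O1` is the intersection of the `t ^ n O`. -/
theorem Pk.val1_lt (x : M.Om) :
    M.O1.valuation x < 1 ↔ ∀ n : ℕ, ∃ y ∈ M.O, x = M.t ^ n * y := by
  by_cases hx : x = 0
  · subst hx
    simp only [map_zero, zero_lt_one, true_iff]
    exact fun n => ⟨0, M.O.zero_mem, by simp⟩
  rw [pkb_val_lt_one_iff_inv _ hx, M.mem_O1]
  push Not
  constructor
  · intro h n
    have htn : M.t ^ n ≠ 0 := pow_ne_zero _ M.t0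
    have h2 := (M.O.mem_or_inv_mem (M.t ^ n * x⁻¹)).resolve_left (h n)
    refine ⟨_, h2, ?_⟩
    field_simp
  · intro h n hn
    obtain ⟨y, hy, hxy⟩ := h (n + 1)
    have ht := M.t0
    have hy0 : y ≠ 0 := by
      rintro rfl
      exact hx (by simpa using hxy)
    have h3 : M.t⁻¹ = (M.t ^ n * x⁻¹) * y := by
      rw [hxy, pow_succ]
      field_simp
    exact M.tinv_not_mem (h3 ▸ M.O.mul_mem _ _ hn hy)

theorem Pk.W_K : W p M.O1 M.K := by
  refine W_of_group p M.O1 M.G ?_ M.K (fun x => M.mem_K x) ?_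
  · rintro g hg x ⟨n, hn⟩
    refine ⟨n, ?_⟩
    have := M.gO g hg _ hn
    rwa [map_mul, map_pow, M.gt g hg] at this
  · intro a
    obtain ⟨θ, hθ, h⟩ := M.P4 a
    refine ⟨θ, M.O_le_O1 hθ, fun g hg => ⟨(h g hg).1, fun hga => ?_⟩⟩
    obtain ⟨y, hy, hty⟩ := (h g hg).2 hga
    have h1 : M.O1.valuation (g θ - θ) ≤ 1 :=
      (M.O1.valuation_le_one_iff _).2 (M.O_le_O1 (sub_mem (M.gO g hg _ hθ) hθ))
    have h2 : M.O1.valuation y ≤ 1 := (M.O1.valuation_le_one_iff _).2 (M.O_le_O1 hy)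
    have h3 : 1 ≤ M.O1.valuation M.t := by
      by_contra hlt
      rw [not_le] at hlt
      obtain ⟨z, hz, hz2⟩ := (M.val1_lt _).1 hlt 2
      have ht := M.t0
      refine M.tinv_not_mem ?_
      have : M.t⁻¹ = z := by
        have h5 : M.t * (M.t * z) = M.t * 1 := by
          rw [mul_one]
          conv_rhs => rw [hz2]
          ring
        have h6 := mul_left_cancel₀ ht h5
        exact inv_eq_of_mul_eq_one_right h6
      exact this ▸ hz
    refine le_antisymm h1 ?_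
    rw [hty, map_mul] at h3
    refine h3.trans ?_
    calc M.O1.valuation (g θ - θ) * M.O1.valuation y
        ≤ M.O1.valuation (g θ - θ) * 1 := by gcongr
      _ = _ := mul_one _

omit [Fact p.Prime] in
theorem Pk.g_lt {g : RingAut M.Om} (hg : g ∈ M.G) {x : M.Om} (hx : M.O.valuation x < 1) :
    M.O.valuation (g x) < 1 := by
  by_cases h0 : x = 0
  · simp [h0]
  rw [pkb_val_lt_one_iff_inv _ h0] at hx
  have h0' : g x ≠ 0 := (map_ne_zero g).2 h0
  rw [pkb_val_lt_one_iff_inv _ h0']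
  intro h
  apply hx
  have := M.gO g⁻¹ (M.G.inv_mem hg) _ h
  rw [← map_inv₀] at this
  have h2 : (g⁻¹ : RingAut M.Om) (g x⁻¹) = x⁻¹ := g.symm_apply_apply x⁻¹
  rwa [h2] at this

omit [Fact p.Prime] in
theorem Pk.g_eval {g : RingAut M.Om} (hg : g ∈ M.G) {h : Polynomial M.Om}
    (hh : ∀ i, h.coeff i ∈ M.K) (x : M.Om) : h.eval (g x) = g (h.eval x) := by
  have h1 : h.map (g : M.Om →+* M.Om) = h := by
    ext i
    rw [Polynomial.coeff_map]
    exact hh i g hg
  conv_lhs => rw [← h1]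
  rw [Polynomial.eval_map]
  have := Polynomial.hom_eval₂ h (RingHom.id M.Om) (g : M.Om →+* M.Om) x
  simpa [Polynomial.eval₂_id] using this.symm

theorem Pk.hcl_K : HCl M.O M.K := by
  rintro c a hc ha hca g hg
  have hcO := hc.memO
  obtain ⟨f, h1, h2, h3, h4, h5⟩ := hc
  refine unique_root M.O h3 hcO h4 h5 ?_ ?_
  · rw [M.g_eval hg h2, h4, map_zero]
  · have h6 : M.O.valuation (g (c - a)) < 1 := M.g_lt hg hca
    rw [map_sub, ha g hg] at h6
    have h7 : g c - c = (g c - a) - (c - a) := by ring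
    rw [h7]
    exact lt_of_le_of_lt (Valuation.map_sub _ _ _) (max_lt h6 hca)

theorem Pk.cls_of {x : M.Om} (hx : x ∈ M.OK) :
    M.cls x = Ideal.Quotient.mk (Ideal.span {M.tO}) ⟨x, hx⟩ := by
  unfold Pk.cls
  rw [dif_pos hx]

theorem Pk.cls_add {x y : M.Om} (hx : x ∈ M.OK) (hy : y ∈ M.OK) :
    M.cls (x + y) = M.cls x + M.cls y := by
  rw [M.cls_of hx, M.cls_of hy, M.cls_of (add_mem hx hy), ← map_add]
  rfl

theorem Pk.cls_mul {x y : M.Om} (hx : x ∈ M.OK) (hy : y ∈ M.OK) :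
    M.cls (x * y) = M.cls x * M.cls y := by
  rw [M.cls_of hx, M.cls_of hy, M.cls_of (mul_mem hx hy), ← map_mul]
  rfl

theorem Pk.cls_surj (y : M.Tr) : ∃ x ∈ M.OK, M.cls x = y := by
  obtain ⟨x, rfl⟩ := Ideal.Quotient.mk_surjective y
  exact ⟨x.1, x.2, M.cls_of x.2⟩

theorem Pk.cls_eq {x y : M.Om} (hx : x ∈ M.OK) (hy : y ∈ M.OK) :
    M.cls x = M.cls y ↔ ∃ z ∈ M.O, x - y = M.t * z := by
  rw [M.cls_of hx, M.cls_of hy, Ideal.Quotient.eq, Ideal.mem_span_singleton]
  constructor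
  · rintro ⟨z, hz⟩
    exact ⟨z.1, z.2.2, congrArg Subtype.val hz⟩
  · rintro ⟨z, hz, hxy⟩
    have hzK : z ∈ M.K := by
      have : z = (x - y) / M.t := by
        rw [hxy, mul_div_cancel_left₀ _ M.t0]
      rw [this]
      exact M.K.div_mem (M.K.sub_mem hx.1 hy.1) M.t_mem_K
    exact ⟨⟨z, hzK, hz⟩, Subtype.ext hxy⟩

theorem Pk.cls_zero : M.cls 0 = 0 := by
  rw [M.cls_of (zero_mem _)]
  exact map_zero _

theorem Pk.cls_one : M.cls 1 = 1 := by
  rw [M.cls_of (one_mem _)]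
  exact map_one _

omit [Fact p.Prime] in
theorem Pk.val_coe (a : Tm 1) (e : ℕ → M.Om) (he : ∀ n, e n ∈ M.K) :
    ((a.val (fun _ => (⟨M.t, M.t_mem_K⟩ : M.K)) (fun n => (⟨e n, he n⟩ : M.K)) : M.K) : M.Om) =
      a.val (fun _ => M.t) e := by
  induction a with
  | var n => rfl
  | cst i => rfl
  | zero => rfl
  | one => rfl
  | neg a ih => simp [Tm.val, ih]
  | add a b iha ihb => simp [Tm.val, iha, ihb]
  | mul a b iha ihb => simp [Tm.val, iha, ihb]

/-- Satisfaction in `K` is satisfaction in the type `K`. -/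
theorem Pk.sat_iff (φ : Fm 1) (e : ℕ → M.Om) (he : ∀ n, e n ∈ M.K) :
    M.sat φ e ↔ φ.Sat {x : M.K | (x : M.Om) ∈ M.O} (fun _ => (⟨M.t, M.t_mem_K⟩ : M.K))
      (fun n => (⟨e n, he n⟩ : M.K)) := by
  unfold Pk.sat
  induction φ generalizing e with
  | eq a b =>
    simp only [SatIn, Fm.Sat]
    rw [← M.val_coe a e he, ← M.val_coe b e he, Subtype.coe_inj]
  | inO a =>
    simp only [SatIn, Fm.Sat]
    rw [← M.val_coe a e he]
    rfl
  | neg φ ih =>
    simp only [SatIn, Fm.Sat]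
    rw [ih e he]
  | and φ ψ ih1 ih2 =>
    simp only [SatIn, Fm.Sat]
    rw [ih1 e he, ih2 e he]
  | all n φ ih =>
    simp only [SatIn, Fm.Sat]
    constructor
    · intro h a
      have hu : ∀ m, Function.update e n (a : M.Om) m ∈ M.K := by
        intro m
        rcases eq_or_ne m n with rfl | hm
        · simp
        · simpa [Function.update_of_ne hm] using he m
      have := (ih _ hu).1 (h a a.2)
      convert this using 1
      ext m
      rcases eq_or_ne m n with rfl | hm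
      · simp
      · simp [Function.update_of_ne hm]
    · intro h a ha
      have hu : ∀ m, Function.update e n (a : M.Om) m ∈ M.K := by
        intro m
        rcases eq_or_ne m n with rfl | hm
        · simpa using ha
        · simpa [Function.update_of_ne hm] using he m
      refine (ih _ hu).2 ?_
      have := h ⟨a, ha⟩
      convert this using 1
      ext m
      rcases eq_or_ne m n with rfl | hm
      · simp
      · simp [Function.update_of_ne hm]

variable {M} {M' M'' : Pk p}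

theorem EExt.hom {j : M.Om → M'.Om} (h : EExt M M' j) : HomOn M.K j where
  one := by
    have := h.el (.eq (.var 0) .one) (fun _ => 1) (fun _ => M.K.one_mem)
    simpa [Pk.sat, SatIn, Tm.val] using this
  add := by
    intro x hx y hy
    have := h.el (.eq (.var 2) (.add (.var 0) (.var 1)))
      (fun n => if n = 0 then x else if n = 1 then y else x + y)
      (fun n => by split_ifs; exacts [hx, hy, M.K.add_mem hx hy])
    simpa [Pk.sat, SatIn, Tm.val] using this
  mul := by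
    intro x hx y hy
    have := h.el (.eq (.var 2) (.mul (.var 0) (.var 1)))
      (fun n => if n = 0 then x else if n = 1 then y else x * y)
      (fun n => by split_ifs; exacts [hx, hy, M.K.mul_mem hx hy])
    simpa [Pk.sat, SatIn, Tm.val] using this

theorem EExt.t {j : M.Om → M'.Om} (h : EExt M M' j) : j M.t = M'.t := by
  have := h.el (.eq (.var 0) (.cst 0)) (fun _ => M.t) (fun _ => M.t_mem_K)
  simpa [Pk.sat, SatIn, Tm.val] using this

theorem EExt.memO {j : M.Om → M'.Om} (h : EExt M M' j) {x : M.Om} (hx : x ∈ M.K) :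
    j x ∈ M'.O ↔ x ∈ M.O := by
  have := h.el (.inO (.var 0)) (fun _ => x) (fun _ => hx)
  simpa [Pk.sat, SatIn, Tm.val] using this.symm

theorem EExt.inj {j : M.Om → M'.Om} (h : EExt M M' j) {x y : M.Om} (hx : x ∈ M.K)
    (hy : y ∈ M.K) : j x = j y ↔ x = y := by
  have := h.el (.eq (.var 0) (.var 1)) (fun n => if n = 0 then x else y)
    (fun n => by split_ifs; exacts [hx, hy])
  simpa [Pk.sat, SatIn, Tm.val] using this.symm

theorem HomOn.pkb_zero {Ω Ω' : Type*} [Field Ω] [Field Ω'] {F : Subfield Ω} {e : Ω → Ω'}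
    (h : HomOn F e) : e 0 = 0 := by
  have := h.add 0 F.zero_mem 0 F.zero_mem
  simpa using this

theorem HomOn.pkb_neg {Ω Ω' : Type*} [Field Ω] [Field Ω'] {F : Subfield Ω} {e : Ω → Ω'}
    (h : HomOn F e) {x : Ω} (hx : x ∈ F) : e (-x) = - e x := by
  have := h.add x hx (-x) (F.neg_mem hx)
  rw [add_neg_cancel, h.pkb_zero] at this
  exact (neg_eq_of_add_eq_zero_right this.symm).symm

theorem HomOn.pkb_sub {Ω Ω' : Type*} [Field Ω] [Field Ω'] {F : Subfield Ω} {e : Ω → Ω'}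
    (h : HomOn F e) {x y : Ω} (hx : x ∈ F) (hy : y ∈ F) : e (x - y) = e x - e y := by
  rw [sub_eq_add_neg, h.add x hx (-y) (F.neg_mem hy), h.pkb_neg hy, sub_eq_add_neg]

theorem HomOn.pkb_pow {Ω Ω' : Type*} [Field Ω] [Field Ω'] {F : Subfield Ω} {e : Ω → Ω'}
    (h : HomOn F e) {x : Ω} (hx : x ∈ F) (n : ℕ) : e (x ^ n) = e x ^ n := by
  induction n with
  | zero => simp [h.one]
  | succ n ih => rw [pow_succ, h.mul _ (F.pow_mem hx n) _ hx, ih, pow_succ]

theorem HomOn.pkb_inv {Ω Ω' : Type*} [Field Ω] [Field Ω'] {F : Subfield Ω} {e : Ω → Ω'}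
    (h : HomOn F e) {x : Ω} (hx : x ∈ F) : e x⁻¹ = (e x)⁻¹ := by
  by_cases h0 : x = 0
  · simp [h0, h.pkb_zero]
  · have := h.mul x hx x⁻¹ (F.inv_mem hx)
    rw [mul_inv_cancel₀ h0, h.one] at this
    exact (inv_eq_of_mul_eq_one_right this.symm).symm

/-- `j` preserves the coarse valuation ring. -/
theorem EExt.memO1 {j : M.Om → M'.Om} (h : EExt M M' j) {x : M.Om} (hx : x ∈ M.K) :
    j x ∈ M'.O1 ↔ x ∈ M.O1 := by
  rw [Pk.mem_O1, Pk.mem_O1]
  refine exists_congr fun n => ?_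
  rw [← h.memO (M.K.mul_mem (M.K.pow_mem M.t_mem_K n) hx),
    h.hom.mul _ (M.K.pow_mem M.t_mem_K n) _ hx, h.hom.pkb_pow M.t_mem_K, h.t]

theorem EExt.ne_zero {j : M.Om → M'.Om} (h : EExt M M' j) {x : M.Om} (hx : x ∈ M.K) :
    j x = 0 ↔ x = 0 := by
  have := h.inj hx M.K.zero_mem
  rwa [h.hom.pkb_zero] at this

theorem EExt.val1 {j : M.Om → M'.Om} (h : EExt M M' j) {x : M.Om} (hx : x ∈ M.K) :
    M'.O1.valuation (j x) < 1 ↔ M.O1.valuation x < 1 := by
  by_cases h0 : x = 0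
  · simp [h0, h.hom.pkb_zero]
  have h0' : j x ≠ 0 := fun h1 => h0 ((h.ne_zero hx).1 h1)
  rw [pkb_val_lt_one_iff_inv _ h0, pkb_val_lt_one_iff_inv _ h0', ← h.hom.pkb_inv hx,
    h.memO1 (M.K.inv_mem hx)]

theorem EExt.refl (M : Pk p) : EExt M M id := ⟨fun _ hx => hx, fun _ _ _ => Iff.rfl⟩

theorem EExt.comp {j : M.Om → M'.Om} {j' : M'.Om → M''.Om} (h : EExt M M' j)
    (h' : EExt M' M'' j') : EExt M M'' (j' ∘ j) :=
  ⟨fun x hx => h'.rng _ (h.rng x hx), fun φ e he =>
    (h.el φ e he).trans (h'.el φ (fun n => j (e n)) (fun n => h.rng _ (he n)))⟩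

/-- Composing an approximate homomorphism with an elementary embedding. -/
theorem AHom.comp {N : Subfield M.Om} {lam : M.Om → M'.Om} (hl : AHom M.O1 N M'.O1 M'.K lam)
    {j : M'.Om → M''.Om} (h : EExt M' M'' j) : AHom M.O1 N M''.O1 M''.K (j ∘ lam) where
  rng := by
    intro x hx hO
    obtain ⟨h1, h2⟩ := hl.rng x hx hO
    exact ⟨h.rng _ h1, (h.memO1 h1).2 h2⟩
  one := by
    have h1 := (hl.rng 1 N.one_mem M.O1.one_mem).1
    have := (h.val1 (M'.K.sub_mem h1 M'.K.one_mem)).2 hl.one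
    rwa [h.hom.pkb_sub h1 M'.K.one_mem, h.hom.one] at this
  add := by
    intro x hx hxO y hy hyO
    have h1 := (hl.rng x hx hxO).1
    have h2 := (hl.rng y hy hyO).1
    have h3 := (hl.rng (x + y) (N.add_mem hx hy) (M.O1.add_mem _ _ hxO hyO)).1
    have := (h.val1 (M'.K.sub_mem h3 (M'.K.add_mem h1 h2))).2 (hl.add x hx hxO y hy hyO)
    rwa [h.hom.pkb_sub h3 (M'.K.add_mem h1 h2), h.hom.add _ h1 _ h2] at this
  mul := by
    intro x hx hxO y hy hyO
    have h1 := (hl.rng x hx hxO).1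
    have h2 := (hl.rng y hy hyO).1
    have h3 := (hl.rng (x * y) (N.mul_mem hx hy) (M.O1.mul_mem _ _ hxO hyO)).1
    have := (h.val1 (M'.K.sub_mem h3 (M'.K.mul_mem h1 h2))).2 (hl.mul x hx hxO y hy hyO)
    rwa [h.hom.pkb_sub h3 (M'.K.mul_mem h1 h2), h.hom.mul _ h1 _ h2] at this
  ker := by
    intro x hx hO
    exact (h.val1 (hl.rng x hx hO).1).trans (hl.ker x hx hO)

theorem Good.comp {F : Subfield M.Om} {lam e : M.Om → M'.Om}
    (hg : Good M.O1 M'.O1 M'.K lam F e)
    {N : Subfield M.Om} (hF : F ≤ N) (hl : AHom M.O1 N M'.O1 M'.K lam)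
    {j : M'.Om → M''.Om} (h : EExt M' M'' j) :
    Good M.O1 M''.O1 M''.K (j ∘ lam) F (j ∘ e) where
  hom := by
    refine ⟨?_, ?_, ?_⟩
    · simp only [Function.comp, hg.hom.one, h.hom.one]
    · intro x hx y hy
      simp only [Function.comp]
      rw [hg.hom.add x hx y hy, h.hom.add _ (hg.rng x hx) _ (hg.rng y hy)]
    · intro x hx y hy
      simp only [Function.comp]
      rw [hg.hom.mul x hx y hy, h.hom.mul _ (hg.rng x hx) _ (hg.rng y hy)]
  rng := fun x hx => h.rng _ (hg.rng x hx)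
  res := by
    intro x hx hO
    have h1 := (hl.rng x (hF hx) hO).1
    have h2 := hg.rng x hx
    have := (h.val1 (M'.K.sub_mem h2 h1)).2 (hg.res x hx hO)
    rwa [h.hom.pkb_sub h2 h1] at this

end Pool.Agent.H92.Tilt
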