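import Mathlib

/-!
First-order syntax of the language of valued rings with `k` extra constant symbols, its Goedel
numbering and its semantics; decidability of the theory of a valued ring.
-/

set_option autoImplicit false

namespace Pool.Agent.H92.Tilt

/-- Terms of the language of rings with `k` extra constant symbols; variables are numbered. -/
inductive Tm (k : ℕ) : Type
  | var (n : ℕ) : Tm k
  | cst (i : Fin k) : Tm k
  | zero : Tm k
  | one : Tm k
  | neg (a : Tm k) : Tm k
  | add (a b : Tm k) : Tm k
  | mul (a b : Tm k) : Tm k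

/-- Formulas of the language of valued rings with `k` extra constant symbols: equality of terms,
membership of a term in the valuation ring, negation, conjunction, and universal quantification
over the variable number `n`. -/
inductive Fm (k : ℕ) : Type
  | eq (a b : Tm k) : Fm k
  | inO (a : Tm k) : Fm k
  | neg (φ : Fm k) : Fm k
  | and (φ ψ : Fm k) : Fm k
  | all (n : ℕ) (φ : Fm k) : Fm k

/-- Value of a term in a ring `R`, with the constants interpreted by `c` and the variables
by `e`. -/
def Tm.val {k : ℕ} {R : Type*} [CommRing R] (c : Fin k → R) (e : ℕ → R) : Tm k → R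
  | .var n => e n
  | .cst i => c i
  | .zero => 0
  | .one => 1
  | .neg a => - Tm.val c e a
  | .add a b => Tm.val c e a + Tm.val c e b
  | .mul a b => Tm.val c e a * Tm.val c e b

/-- Satisfaction of a formula in the ring `R` with distinguished subset `O` (the valuation
ring), constants interpreted by `c` and variables by `e`. -/
def Fm.Sat {k : ℕ} {R : Type*} [CommRing R] (O : Set R) (c : Fin k → R) : Fm k → (ℕ → R) → Prop
  | .eq a b, e => a.val c e = b.val c e
  | .inO a, e => a.val c e ∈ O
  | .neg φ, e => ¬ Fm.Sat O c φ e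
  | .and φ ψ, e => Fm.Sat O c φ e ∧ Fm.Sat O c ψ e
  | .all n φ, e => ∀ a : R, Fm.Sat O c φ (Function.update e n a)

/-- Variables of a term. -/
def Tm.fv {k : ℕ} : Tm k → Set ℕ
  | .var n => {n}
  | .cst _ => ∅
  | .zero => ∅
  | .one => ∅
  | .neg a => a.fv
  | .add a b => a.fv ∪ b.fv
  | .mul a b => a.fv ∪ b.fv

/-- Free variables of a formula. -/
def Fm.fv {k : ℕ} : Fm k → Set ℕ
  | .eq a b => a.fv ∪ b.fv
  | .inO a => a.fv
  | .neg φ => φ.fv
  | .and φ ψ => φ.fv ∪ ψ.fv
  | .all n φ => φ.fv \ {n}

/-- Goedel number of a term. -/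
def Tm.code {k : ℕ} : Tm k → ℕ
  | .var n => Nat.pair 0 n
  | .cst i => Nat.pair 1 i
  | .zero => Nat.pair 2 0
  | .one => Nat.pair 3 0
  | .neg a => Nat.pair 4 a.code
  | .add a b => Nat.pair 5 (Nat.pair a.code b.code)
  | .mul a b => Nat.pair 6 (Nat.pair a.code b.code)

/-- Goedel number of a formula. -/
def Fm.code {k : ℕ} : Fm k → ℕ
  | .eq a b => Nat.pair 0 (Nat.pair a.code b.code)
  | .inO a => Nat.pair 1 a.code
  | .neg φ => Nat.pair 2 φ.code
  | .and φ ψ => Nat.pair 3 (Nat.pair φ.code ψ.code)
  | .all n φ => Nat.pair 4 (Nat.pair n φ.code)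

/-- A sentence (a formula without free variables) holds in `(R, O, c)`. -/
def Fm.Holds {k : ℕ} (R : Type*) [CommRing R] (O : Set R) (c : Fin k → R) (φ : Fm k) : Prop :=
  ∀ e : ℕ → R, φ.Sat O c e

/-- The theory of the valued ring `(R, O)` with the constants `c` is decidable: the set of the
Goedel numbers of the sentences that hold in it is recursive. -/
def DecidableTheory (k : ℕ) (R : Type*) [CommRing R] (O : Set R) (c : Fin k → R) : Prop :=
  ComputablePred fun n : ℕ => ∃ φ : Fm k, φ.fv = ∅ ∧ φ.code = n ∧ φ.Holds R O c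

end Pool.Agent.H92.Tilt
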