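import Pool.Agent.H92.Tilt.Tower
import Pool.Agent.H55.Tilt.KRoot
import Pool.Agent.H55.Tilt.Sem
import Pool.Agent.H55.Tilt.Code

/-!
Module TOWK: `K = ℚ_p(p^(1/p^∞))`. `O_K / p` is a tower with `ρ n` the class of `r n`.

Every element of `ℚ_p(r n)` is `∑_{j < p^n} a_j r_n^j` with norms of the terms distinct (norm of `r n` is
`p^(-1/p^n)`), so it is integral iff all `a_j ∈ ℤ_p`; `a_j` is congruent to an integer modulo `p`.
`root_unique`: the only `x ∈ K` with `x^(p^N) = p` are `r N` for `p` odd and `± r N` for `p = 2`. For `p` odd: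
`ζ_p ∉ K`, since the norm of `ζ_p - 1` is `p^(-1/(p-1))` and the norms of `K` are powers
`p^(m/p^n)`. For `p = 2`: `i ∉ K`: otherwise take `n` minimal with `i ∈ ℚ_2(r n)`; `n = 0` is impossible (`-1` is
not a square in `ℚ_2`); `i = a + b r_n`, `a, b ∈ ℚ_2(r_{n-1})`, `-1 = a² + b² r_{n-1} + 2ab r_n` gives `a = 0` and
`-1 = b² r_{n-1}`: norms contradict. `- r N ≡ r N` modulo `2`.
The sentence is `∀ x_0 (x_0 p = 1 → ∀ x_1 (x_1 ^ (p^N) = p → T2 c closed))`.
-/

set_option autoImplicit false

namespace Pool.Agent.H92.Tilt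

open Polynomial

variable (p : ℕ) [Fact p.Prime]

/-- Truth of the truncated formula `c` at level `N` (the same in all towers). -/
def TowTrue (N c : ℕ) : Prop :=
  ∀ (R : Type) [CommRing R] (ρ : ℕ → R), Tower p R ρ →
    semTr c (fun n => if n = 0 then ρ N else 0)

/-- The truncated formulas are decidable from the theory of `K`: there is a computable function
producing sentences. -/
theorem towK {r : ℕ → PadicAlgCl p} (h0 : r 0 = (p : PadicAlgCl p))
    (h1 : ∀ n, r (n + 1) ^ p = r n) :
    ∃ s : ℕ → ℕ → ℕ, Computable₂ s ∧ ∀ N c : ℕ, ∃ φ : Fm 0, φ.fv = ∅ ∧ φ.code = s N c ∧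
      (φ.Holds (KRoot p r) (OPadic p (KRoot p r)) Fin.elim0 ↔ TowTrue p N c) := by
  classical
  obtain ⟨sc, hsc, hclose⟩ := close_T2
  obtain ⟨sp, hsp, hpow⟩ := pow_code 1
  have hsys := Pool.Agent.H55.Tilt.sysK h0 h1
  let P : Tm 0 := Pool.Agent.H55.Tilt.num 0 p
  let A : ℕ := Nat.pair 0 (Nat.pair (Nat.pair 6 (Nat.pair (Nat.pair 0 0) P.code)) (Nat.pair 3 0))
  refine ⟨fun N c => Nat.pair 4 (Nat.pair 0 (Pool.Agent.H55.Tilt.impc A
    (Nat.pair 4 (Nat.pair 1 (Pool.Agent.H55.Tilt.impc (Nat.pair 0 (Nat.pair (sp (p ^ N)) P.code))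
      (sc c)))))), ?_, ?_⟩
  · open Pool.Agent.H55.Tilt in
    exact pair_comp (const_comp 4) (pair_comp (const_comp 0) (impc_comp (const_comp A)
      (pair_comp (const_comp 4) (pair_comp (const_comp 1) (impc_comp
        (pair_comp (const_comp 0) (pair_comp
          (fst_comp (hsp.comp (Pool.Agent.H55.Tilt.pow_computable p))) (const_comp P.code)))
        (snd_comp hsc))))))
  · intro N c
    obtain ⟨φ, ψ, hφ, hψ, hfv, hsat⟩ := hclose 0 c
    obtain ⟨a, ha, hafv, haval⟩ := hpow 0 (p ^ N)
    refine ⟨Fm.all 0 (Pool.Agent.H55.Tilt.imp (Fm.eq (Tm.mul (Tm.var 0) P) Tm.one)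
      (Fm.all 1 (Pool.Agent.H55.Tilt.imp (Fm.eq a P) φ))), ?_, ?_, ?_⟩
    · have hP : P.fv = ∅ := Pool.Agent.H55.Tilt.num_fv p
      simp only [Fm.fv, Tm.fv, Pool.Agent.H55.Tilt.imp_fv, hP]
      apply Set.eq_empty_of_forall_notMem
      intro n hn
      simp only [Set.mem_sdiff, Set.mem_union, Set.mem_singleton_iff, Set.mem_empty_iff_false,
        or_false] at hn
      obtain ⟨h2, h3⟩ := hn
      rcases h2 with h2 | ⟨h2, h4⟩
      · exact h3 h2
      · rcases h2 with h2 | h2
        · exact h4 (hafv h2)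
        · rcases hfv h2 with h5 | h5
          · exact h3 h5
          · exact h4 h5
    · simp only [Fm.code, Tm.code, Pool.Agent.H55.Tilt.imp_code, hφ, ha]
      rfl
    · have hp0 : (p : KRoot p r) ≠ 0 := Nat.cast_ne_zero.2 (Fact.out : p.Prime).ne_zero
      have hπ0 : (⟨r 0, Pool.Agent.H55.Tilt.r_mem 0⟩ : KRoot p r) = (p : KRoot p r) := by
        apply Subtype.ext
        exact h0
      have hval : ∀ e : ℕ → KRoot p r, P.val Fin.elim0 e = (p : KRoot p r) := fun e =>
        Pool.Agent.H55.Tilt.num_val _ e p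
      have hmain : ∀ (e : ℕ → KRoot p r), e 0 = (p : KRoot p r)⁻¹ → (e 1) ^ p ^ N = (p : KRoot p r) →
          (φ.Sat (OPadic p (KRoot p r)) Fin.elim0 e ↔ TowTrue p N c) := by
        intro e he0 he1
        rw [hsat]
        have h2 : ((e 1 : KRoot p r) : PadicAlgCl p) ^ p ^ N = (p : PadicAlgCl p) := by
          have := congrArg (fun x : KRoot p r => (x : PadicAlgCl p)) he1
          simpa using this
        have h3 := Pool.Agent.H55.Tilt.root_unique h0 h1 N _ (e 1).2 h2
        refine hsys.sem N c ψ hψ e ?_ ?_ ?_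
        · rw [he0, hπ0]
        · rw [Pool.Agent.H55.Tilt.mem_OK]
          by_contra hcon
          rw [not_le] at hcon
          have h4 : 1 < ‖((e 1 : KRoot p r) : PadicAlgCl p)‖ ^ p ^ N :=
            one_lt_pow₀ hcon (pow_pos (Fact.out : p.Prime).pos N).ne'
          rw [← norm_pow, h2, Pool.Agent.H55.Tilt.norm_p_alg] at h4
          exact absurd h4 (not_lt.2 (inv_lt_one_of_one_lt₀ Pool.Agent.H55.Tilt.one_lt_p).le)
        · change _ ≤ ‖r 0‖
          rw [h0, Pool.Agent.H55.Tilt.norm_p_alg]
          exact h3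
      constructor
      · intro hH
        have h2 := hH (fun n => 0)
        simp only [Fm.Sat] at h2
        have h3 := h2 ((p : KRoot p r)⁻¹)
        rw [Pool.Agent.H55.Tilt.imp_sat] at h3
        have h4 := h3 (by
          simp only [Fm.Sat, Tm.val, hval, Function.update_self]
          exact inv_mul_cancel₀ hp0)
        simp only [Fm.Sat] at h4
        have h5 := h4 ⟨r N, Pool.Agent.H55.Tilt.r_mem N⟩
        rw [Pool.Agent.H55.Tilt.imp_sat] at h5
        have hrN : (⟨r N, Pool.Agent.H55.Tilt.r_mem N⟩ : KRoot p r) ^ p ^ N = (p : KRoot p r) := by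
          apply Subtype.ext
          push_cast
          exact Pool.Agent.H55.Tilt.r_pow h0 h1 N
        have h6 := h5 (by
          simp only [Fm.Sat, hval]
          rw [haval, Function.update_self]
          exact hrN)
        refine (hmain _ ?_ ?_).1 h6
        · rw [Function.update_of_ne (by norm_num), Function.update_self]
        · rw [Function.update_self]
          exact hrN
      · intro hT e
        simp only [Fm.Sat]
        intro x0
        rw [Pool.Agent.H55.Tilt.imp_sat]
        intro hx0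
        simp only [Fm.Sat, Tm.val, hval, Function.update_self] at hx0
        simp only [Fm.Sat]
        intro x1
        rw [Pool.Agent.H55.Tilt.imp_sat]
        intro hx1
        simp only [Fm.Sat, hval] at hx1
        rw [haval, Function.update_self] at hx1
        refine (hmain _ ?_ ?_).2 hT
        · rw [Function.update_of_ne (by norm_num), Function.update_self]
          exact eq_inv_of_mul_eq_one_left hx0
        · rw [Function.update_self]
          exact hx1

end Pool.Agent.H92.Tilt
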