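import Pool.Agent.H92.Tilt.PkB

/-!
Module UP: ultraproducts of packages.

`N.Om` is the quotient of `∀ i, (M i).Om` by eventual equality (a field: quotient by a maximal ideal;
algebraically closed: a monic polynomial lifts, choose roots coordinatewise), `N.O` and `N.t` are
the obvious ones, `N.G` consists of the automorphisms induced by families `γ i ∈ (M i).G`. `P4` is
coordinatewise. For ultrafilters, `mk x` is in `N.K` iff eventually `x i ∈ (M i).K`. Łos for `sat` by
induction on the formula.
-/

set_option autoImplicit false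

namespace Pool.Agent.H92.Tilt

variable {p : ℕ} [Fact p.Prime]

/-- `N`, with the map `mk`, is an ultraproduct of the packages `M i`. -/
structure IsUp {I : Type} (U : Ultrafilter I) (M : I → Pk p) (N : Pk p)
    (mk : (∀ i, (M i).Om) → N.Om) : Prop where
  one : mk (fun _ => 1) = 1
  add : ∀ x y, mk (fun i => x i + y i) = mk x + mk y
  mul : ∀ x y, mk (fun i => x i * y i) = mk x * mk y
  eq : ∀ x y, mk x = mk y ↔ ∀ᶠ i in (U : Filter I), x i = y i
  memO : ∀ x, mk x ∈ N.O ↔ ∀ᶠ i in (U : Filter I), x i ∈ (M i).O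
  t : mk (fun i => (M i).t) = N.t
  memK : ∀ x, mk x ∈ N.K ↔ ∀ᶠ i in (U : Filter I), x i ∈ (M i).K
  surj : ∀ y ∈ N.K, ∃ x : ∀ i, (M i).Om, (∀ i, x i ∈ (M i).K) ∧ mk x = y
  los : ∀ (φ : Fm 1) (e : ℕ → ∀ i, (M i).Om), (∀ n i, e n i ∈ (M i).K) →
    (N.sat φ (fun n => mk (e n)) ↔ ∀ᶠ i in (U : Filter I), (M i).sat φ (fun n => e n i))


section Build

variable {I : Type} (U : Ultrafilter I) (M : I → Pk p)

omit [Fact p.Prime] in
theorem vlt_iff {Ω : Type} [Field Ω] (A : ValuationSubring Ω) {x : Ω} (hx : x ≠ 0) :
    A.valuation x < 1 ↔ x⁻¹ ∉ A := by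
  rw [← A.valuation_le_one_iff, map_inv₀, not_le]
  exact (one_lt_inv₀ (zero_lt_iff.2 ((Valuation.ne_zero_iff _).2 hx))).symm

/-- The ideal of families that vanish eventually. -/
def upI : Ideal (∀ i, (M i).Om) where
  carrier := {x | ∀ᶠ i in (U : Filter I), x i = 0}
  add_mem' := by
    intro a b ha hb
    filter_upwards [ha, hb] with i h1 h2
    simp [h1, h2]
  zero_mem' := Filter.Eventually.of_forall fun _ => rfl
  smul_mem' := by
    intro c x hx
    filter_upwards [hx] with i h
    simp [h]

omit [Fact p.Prime] in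
theorem mem_upI (x : ∀ i, (M i).Om) : x ∈ upI U M ↔ ∀ᶠ i in (U : Filter I), x i = 0 := Iff.rfl

omit [Fact p.Prime] in
theorem upI_max : (upI U M).IsMaximal := by
  rw [Ideal.isMaximal_iff]
  constructor
  · rw [mem_upI]
    intro h
    obtain ⟨i, hi⟩ := h.exists
    exact one_ne_zero hi
  · intro J x hJ hx hxJ
    rw [mem_upI, ← Ultrafilter.eventually_not] at hx
    have h1 : (x * (fun i => (x i)⁻¹) - 1) ∈ upI U M := by
      rw [mem_upI]
      filter_upwards [hx] with i hi
      simp [mul_inv_cancel₀ hi]
    have h2 : (1 : ∀ i, (M i).Om) = x * (fun i => (x i)⁻¹) - (x * (fun i => (x i)⁻¹) - 1) := by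
      ring
    rw [h2]
    exact J.sub_mem (J.mul_mem_right _ hxJ) (hJ h1)

/-- The ultraproduct of the big fields. -/
abbrev UpOm : Type := (∀ i, (M i).Om) ⧸ upI U M

noncomputable instance upField : Field (UpOm U M) :=
  haveI := upI_max U M
  Ideal.Quotient.field (upI U M)

/-- The quotient map. -/
def umk : (∀ i, (M i).Om) →+* UpOm U M := Ideal.Quotient.mk (upI U M)

omit [Fact p.Prime] in
theorem umk_surj (y : UpOm U M) : ∃ x, umk U M x = y := Ideal.Quotient.mk_surjective y

omit [Fact p.Prime] in
theorem umk_eq (x y : ∀ i, (M i).Om) :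
    umk U M x = umk U M y ↔ ∀ᶠ i in (U : Filter I), x i = y i := by
  unfold umk
  rw [Ideal.Quotient.eq, mem_upI]
  simp only [Pi.sub_apply, sub_eq_zero]

omit [Fact p.Prime] in
theorem umk_eq_zero (x : ∀ i, (M i).Om) :
    umk U M x = 0 ↔ ∀ᶠ i in (U : Filter I), x i = 0 := by
  rw [← map_zero (umk U M), umk_eq]
  rfl

omit [Fact p.Prime] in
theorem umk_inv (x : ∀ i, (M i).Om) :
    (umk U M x)⁻¹ = umk U M (fun i => (x i)⁻¹) := by
  by_cases h : umk U M x = 0
  · rw [h, inv_zero, eq_comm, umk_eq_zero]
    rw [umk_eq_zero] at h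
    filter_upwards [h] with i hi
    rw [hi, inv_zero]
  · refine inv_eq_of_mul_eq_one_right ?_
    rw [← map_mul, ← map_one (umk U M), umk_eq]
    rw [umk_eq_zero, ← Ultrafilter.eventually_not] at h
    filter_upwards [h] with i hi
    simp [mul_inv_cancel₀ hi]

omit [Fact p.Prime] in
theorem up_algClosed : IsAlgClosed (UpOm U M) := by
  classical
  refine IsAlgClosed.of_exists_root _ ?_
  intro q hq hirr
  have hn : q.natDegree ≠ 0 := hirr.natDegree_pos.ne'
  choose c hc using fun j => umk_surj U M (q.coeff j)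
  have hdeg : ∀ i, (∑ j ∈ Finset.range q.natDegree,
      Polynomial.C (c j i) * Polynomial.X ^ j : Polynomial (M i).Om).degree < q.natDegree := by
    intro i
    refine (Polynomial.degree_sum_le _ _).trans_lt ?_
    rw [Finset.sup_lt_iff (WithBot.bot_lt_coe _)]
    intro j hj
    refine (Polynomial.degree_C_mul_X_pow_le _ _).trans_lt ?_
    exact_mod_cast Finset.mem_range.1 hj
  have hroot : ∀ i, ∃ r : (M i).Om, r ^ q.natDegree +
      ∑ j ∈ Finset.range q.natDegree, c j i * r ^ j = 0 := by
    intro i
    have h1 : (Polynomial.X ^ q.natDegree + ∑ j ∈ Finset.range q.natDegree,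
        Polynomial.C (c j i) * Polynomial.X ^ j : Polynomial (M i).Om).degree = q.natDegree := by
      rw [Polynomial.degree_add_eq_left_of_degree_lt, Polynomial.degree_X_pow]
      rw [Polynomial.degree_X_pow]
      exact hdeg i
    obtain ⟨r, hr⟩ := IsAlgClosed.exists_root (Polynomial.X ^ q.natDegree +
      ∑ j ∈ Finset.range q.natDegree, Polynomial.C (c j i) * Polynomial.X ^ j) (by
        rw [h1]
        exact_mod_cast hn)
    refine ⟨r, ?_⟩
    simpa [Polynomial.IsRoot, Polynomial.eval_finsetSum] using hr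
  choose r hr using hroot
  refine ⟨umk U M r, ?_⟩
  rw [Polynomial.eval_eq_sum_range, Finset.sum_range_succ, hq.coeff_natDegree, one_mul]
  have h2 : (∑ x ∈ Finset.range q.natDegree, q.coeff x * umk U M r ^ x) +
      umk U M r ^ q.natDegree = umk U M (r ^ q.natDegree +
        ∑ j ∈ Finset.range q.natDegree, c j * r ^ j) := by
    rw [map_add, map_sum, map_pow, add_comm]
    congr 1
    refine Finset.sum_congr rfl fun j _ => ?_
    rw [map_mul, map_pow, hc]
  rw [h2, umk_eq_zero]
  refine Filter.Eventually.of_forall fun i => ?_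
  have := hr i
  simpa [Finset.sum_apply] using this

theorem up_charP : CharP (UpOm U M) p := by
  rw [CharP.charP_iff_prime_eq_zero Fact.out]
  rw [← map_natCast (umk U M), umk_eq_zero]
  refine Filter.Eventually.of_forall fun i => ?_
  simp [CharP.cast_eq_zero]

/-- The valuation ring of the ultraproduct. -/
def upO : ValuationSubring (UpOm U M) where
  carrier := {y | ∃ x, (∀ᶠ i in (U : Filter I), x i ∈ (M i).O) ∧ umk U M x = y}
  mul_mem' := by
    rintro _ _ ⟨x, hx, rfl⟩ ⟨y, hy, rfl⟩
    refine ⟨x * y, ?_, map_mul _ _ _⟩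
    filter_upwards [hx, hy] with i h1 h2
    exact (M i).O.mul_mem _ _ h1 h2
  one_mem' := ⟨1, Filter.Eventually.of_forall fun i => (M i).O.one_mem, map_one _⟩
  add_mem' := by
    rintro _ _ ⟨x, hx, rfl⟩ ⟨y, hy, rfl⟩
    refine ⟨x + y, ?_, map_add _ _ _⟩
    filter_upwards [hx, hy] with i h1 h2
    exact (M i).O.add_mem _ _ h1 h2
  zero_mem' := ⟨0, Filter.Eventually.of_forall fun i => (M i).O.zero_mem, map_zero _⟩
  neg_mem' := by
    rintro _ ⟨x, hx, rfl⟩
    refine ⟨-x, ?_, map_neg _ _⟩
    filter_upwards [hx] with i h1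
    exact (M i).O.neg_mem _ h1
  mem_or_inv_mem' := by
    intro y
    obtain ⟨x, rfl⟩ := umk_surj U M y
    have h : ∀ᶠ i in (U : Filter I), (x i ∈ (M i).O ∨ (x i)⁻¹ ∈ (M i).O) :=
      Filter.Eventually.of_forall fun i => (M i).O.mem_or_inv_mem (x i)
    rw [Ultrafilter.eventually_or] at h
    rcases h with h | h
    · exact Or.inl ⟨x, h, rfl⟩
    · exact Or.inr ⟨_, h, (umk_inv U M x).symm⟩

omit [Fact p.Prime] in
theorem mem_upO (x : ∀ i, (M i).Om) :
    umk U M x ∈ upO U M ↔ ∀ᶠ i in (U : Filter I), x i ∈ (M i).O := by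
  constructor
  · rintro ⟨y, hy, hyx⟩
    rw [umk_eq] at hyx
    filter_upwards [hy, hyx] with i h1 h2
    rwa [← h2]
  · intro h
    exact ⟨x, h, rfl⟩

/-- The ring homomorphism induced by a family of automorphisms. -/
noncomputable def upHom (γ : ∀ i, RingAut (M i).Om) : UpOm U M →+* UpOm U M :=
  Ideal.quotientMap (upI U M)
    (RingEquiv.piCongrRight (fun i => (γ i : (M i).Om ≃+* (M i).Om))).toRingHom (by
      intro x hx
      rw [Ideal.mem_comap, mem_upI]
      rw [mem_upI] at hx
      filter_upwards [hx] with i h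
      change γ i (x i) = 0
      rw [h, map_zero])

omit [Fact p.Prime] in
theorem upHom_mk (γ : ∀ i, RingAut (M i).Om) (x : ∀ i, (M i).Om) :
    upHom U M γ (umk U M x) = umk U M (fun i => γ i (x i)) := rfl

/-- The automorphism induced by a family of automorphisms. -/
noncomputable def upAut (γ : ∀ i, RingAut (M i).Om) : RingAut (UpOm U M) :=
  RingEquiv.ofRingHom (upHom U M γ) (upHom U M (fun i => (γ i)⁻¹)) (by
      apply RingHom.ext
      intro y
      obtain ⟨x, rfl⟩ := umk_surj U M y
      rw [RingHom.comp_apply, upHom_mk, upHom_mk, RingHom.id_apply, umk_eq]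
      refine Filter.Eventually.of_forall fun i => ?_
      exact RingEquiv.apply_symm_apply (γ i) (x i)) (by
      apply RingHom.ext
      intro y
      obtain ⟨x, rfl⟩ := umk_surj U M y
      rw [RingHom.comp_apply, upHom_mk, upHom_mk, RingHom.id_apply, umk_eq]
      refine Filter.Eventually.of_forall fun i => ?_
      exact RingEquiv.symm_apply_apply (γ i) (x i))

omit [Fact p.Prime] in
theorem upAut_mk (γ : ∀ i, RingAut (M i).Om) (x : ∀ i, (M i).Om) :
    upAut U M γ (umk U M x) = umk U M (fun i => γ i (x i)) := rfl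

/-- The group of the ultraproduct. -/
def upG : Subgroup (RingAut (UpOm U M)) where
  carrier := {σ | ∃ γ : ∀ i, RingAut (M i).Om, (∀ i, γ i ∈ (M i).G) ∧
    ∀ x, σ (umk U M x) = umk U M (fun i => γ i (x i))}
  mul_mem' := by
    rintro σ τ ⟨γ, hγ, h1⟩ ⟨δ, hδ, h2⟩
    refine ⟨fun i => γ i * δ i, fun i => (M i).G.mul_mem (hγ i) (hδ i), fun x => ?_⟩
    rw [RingAut.mul_apply, h2, h1]
    rfl
  one_mem' := ⟨fun _ => 1, fun i => (M i).G.one_mem, fun _ => rfl⟩
  inv_mem' := by
    rintro σ ⟨γ, hγ, h1⟩
    refine ⟨fun i => (γ i)⁻¹, fun i => (M i).G.inv_mem (hγ i), fun x => ?_⟩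
    have h2 : σ (umk U M (fun i => (γ i)⁻¹ (x i))) = umk U M x := by
      rw [h1]
      congr 1
      funext i
      exact RingEquiv.apply_symm_apply (γ i) (x i)
    rw [← h2]
    exact RingEquiv.symm_apply_apply σ _

omit [Fact p.Prime] in
theorem mem_upG (σ : RingAut (UpOm U M)) : σ ∈ upG U M ↔
    ∃ γ : ∀ i, RingAut (M i).Om, (∀ i, γ i ∈ (M i).G) ∧
      ∀ x, σ (umk U M x) = umk U M (fun i => γ i (x i)) := Iff.rfl

/-- The ultraproduct package. -/
noncomputable def upPk : Pk p :=
  letI := up_algClosed U M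
  letI := up_charP U M
  { Om := UpOm U M
    O := upO U M
    G := upG U M
    t := umk U M (fun i => (M i).t)
    gO := by
      rintro g ⟨γ, hγ, h1⟩ y hy
      obtain ⟨x, rfl⟩ := umk_surj U M y
      rw [mem_upO] at hy
      rw [h1, mem_upO]
      filter_upwards [hy] with i h
      exact (M i).gO _ (hγ i) _ h
    t0 := by
      rw [Ne, umk_eq_zero, ← Ultrafilter.eventually_not]
      exact Filter.Eventually.of_forall fun i => (M i).t0
    tm := by
      have h0 : umk U M (fun i => (M i).t) ≠ 0 := by
        rw [Ne, umk_eq_zero, ← Ultrafilter.eventually_not]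
        exact Filter.Eventually.of_forall fun i => (M i).t0
      rw [vlt_iff _ h0, umk_inv, mem_upO, ← Ultrafilter.eventually_not]
      exact Filter.Eventually.of_forall fun i => (vlt_iff _ (M i).t0).1 (M i).tm
    gt := by
      rintro g ⟨γ, hγ, h1⟩
      rw [h1]
      congr 1
      funext i
      exact (M i).gt _ (hγ i)
    P4 := by
      classical
      intro a
      obtain ⟨x, rfl⟩ := umk_surj U M a
      choose θ hθ hθ' using fun i => (M i).P4 (x i)
      refine ⟨umk U M θ, (mem_upO U M θ).2 (Filter.Eventually.of_forall hθ), ?_⟩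
      rintro g ⟨γ, hγ, h1⟩
      rw [h1, h1]
      constructor
      · intro h
        rw [umk_eq] at h ⊢
        filter_upwards [h] with i hi
        exact (hθ' i _ (hγ i)).1 hi
      · intro h
        rw [Ne, umk_eq, ← Ultrafilter.eventually_not] at h
        have h3 : ∀ i, ∃ y ∈ (M i).O, γ i (x i) ≠ x i → (M i).t = (γ i (θ i) - θ i) * y := by
          intro i
          by_cases hi : γ i (x i) = x i
          · exact ⟨0, (M i).O.zero_mem, fun h => absurd hi h⟩
          · obtain ⟨y, hy, hy'⟩ := (hθ' i _ (hγ i)).2 hi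
            exact ⟨y, hy, fun _ => hy'⟩
        choose y hy hy' using h3
        refine ⟨umk U M y, (mem_upO U M y).2 (Filter.Eventually.of_forall hy), ?_⟩
        rw [← map_sub, ← map_mul, umk_eq]
        filter_upwards [h] with i hi
        exact hy' i hi }

/-- The fixed field of the ultraproduct package. -/
def upK : Set (UpOm U M) := {y | ∀ g ∈ upG U M, g y = y}

omit [Fact p.Prime] in
theorem up_memK (x : ∀ i, (M i).Om) :
    umk U M x ∈ upK U M ↔ ∀ᶠ i in (U : Filter I), x i ∈ (M i).K := by
  classical
  constructor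
  · intro h
    by_contra hc
    rw [← Ultrafilter.eventually_not] at hc
    have h3 : ∀ i, ∃ g ∈ (M i).G, x i ∉ (M i).K → g (x i) ≠ x i := by
      intro i
      by_cases hi : x i ∈ (M i).K
      · exact ⟨1, (M i).G.one_mem, fun h => absurd hi h⟩
      · have h4 := hi
        rw [Pk.mem_K] at h4
        push Not at h4
        obtain ⟨g, hg, hg'⟩ := h4
        exact ⟨g, hg, fun _ => hg'⟩
    choose γ hγ hγ' using h3
    have h5 : upAut U M γ (umk U M x) = umk U M x :=
      h (upAut U M γ) ⟨γ, hγ, fun y => upAut_mk U M γ y⟩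
    rw [upAut_mk, umk_eq] at h5
    obtain ⟨i, h6, h7⟩ := (h5.and hc).exists
    exact hγ' i h7 h6
  · rintro h g ⟨γ, hγ, h1⟩
    rw [h1, umk_eq]
    filter_upwards [h] with i hi
    exact hi _ (hγ i)

omit [Fact p.Prime] in
theorem up_val (a : Tm 1) (e : ℕ → ∀ i, (M i).Om) :
    a.val (fun _ => umk U M (fun i => (M i).t)) (fun n => umk U M (e n)) =
      umk U M (fun i => a.val (fun _ => (M i).t) (fun n => e n i)) := by
  induction a with
  | var n => rfl
  | cst i => rfl
  | zero => exact (map_zero (umk U M)).symm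
  | one => exact (map_one (umk U M)).symm
  | neg a ih =>
    simp only [Tm.val, ih]
    exact (map_neg (umk U M) _).symm
  | add a b iha ihb =>
    simp only [Tm.val, iha, ihb]
    exact (map_add (umk U M) _ _).symm
  | mul a b iha ihb =>
    simp only [Tm.val, iha, ihb]
    exact (map_mul (umk U M) _ _).symm

theorem up_los (φ : Fm 1) (e : ℕ → ∀ i, (M i).Om) (he : ∀ n i, e n i ∈ (M i).K) :
    SatIn (upK U M) (upO U M : Set (UpOm U M))
      (fun _ => umk U M (fun i => (M i).t)) φ (fun n => umk U M (e n)) ↔
      ∀ᶠ i in (U : Filter I), (M i).sat φ (fun n => e n i) := by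
  classical
  induction φ generalizing e with
  | eq a b =>
    simp only [SatIn, Pk.sat]
    rw [up_val, up_val, umk_eq]
  | inO a =>
    simp only [SatIn, Pk.sat]
    rw [up_val]
    exact mem_upO U M _
  | neg φ ih =>
    simp only [SatIn, Pk.sat]
    rw [Ultrafilter.eventually_not]
    exact not_congr (ih e he)
  | and φ ψ ih1 ih2 =>
    simp only [SatIn, Pk.sat]
    rw [Filter.eventually_and]
    exact and_congr (ih1 e he) (ih2 e he)
  | all n φ ih =>
    have hup : ∀ x : ∀ i, (M i).Om, (Function.update (fun n => umk U M (e n)) n (umk U M x)) =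
        fun m => umk U M (Function.update e n x m) := by
      intro x
      funext m
      by_cases hm : m = n
      · subst hm
        simp
      · simp [Function.update_of_ne hm]
    have hup2 : ∀ (x : ∀ i, (M i).Om) (i : I), (fun m => Function.update e n x m i) =
        Function.update (fun m => e m i) n (x i) := by
      intro x i
      funext m
      by_cases hm : m = n
      · subst hm
        simp
      · simp [Function.update_of_ne hm]
    have hK : ∀ (x : ∀ i, (M i).Om), (∀ i, x i ∈ (M i).K) →
        ∀ m i, Function.update e n x m i ∈ (M i).K := by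
      intro x hx m i
      by_cases hm : m = n
      · subst hm
        simpa using hx i
      · rw [Function.update_of_ne hm]
        exact he m i
    constructor
    · intro h
      by_contra hc
      rw [← Ultrafilter.eventually_not] at hc
      have h3 : ∀ i, ∃ a ∈ (M i).K, ¬ (M i).sat (.all n φ) (fun n => e n i) →
          ¬ (M i).sat φ (Function.update (fun m => e m i) n a) := by
        intro i
        by_cases hi : (M i).sat (.all n φ) (fun n => e n i)
        · exact ⟨0, (M i).K.zero_mem, fun h => absurd hi h⟩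
        · have h4 := hi
          simp only [Pk.sat, SatIn] at h4
          push Not at h4
          obtain ⟨a, ha, ha'⟩ := h4
          exact ⟨a, ha, fun _ => ha'⟩
      choose a ha ha' using h3
      have h5 := h (umk U M a) ((up_memK U M a).2 (Filter.Eventually.of_forall ha))
      rw [hup, ih _ (hK a ha)] at h5
      obtain ⟨i, h6, h7⟩ := (h5.and hc).exists
      rw [hup2] at h6
      exact ha' i h7 h6
    · intro h y hy
      obtain ⟨x0, rfl⟩ := umk_surj U M y
      have h1 := (up_memK U M x0).1 hy
      set x : ∀ i, (M i).Om := fun i => if x0 i ∈ (M i).K then x0 i else 0 with hx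
      have hxK : ∀ i, x i ∈ (M i).K := by
        intro i
        simp only [hx]
        split_ifs with h
        · exact h
        · exact (M i).K.zero_mem
      have hxx : umk U M x0 = umk U M x := by
        rw [umk_eq]
        filter_upwards [h1] with i hi
        simp [hx, hi]
      rw [hxx, hup, ih _ (hK x hxK)]
      filter_upwards [h] with i hi
      rw [hup2]
      exact hi (x i) (hxK i)

end Build

theorem exists_up {I : Type} (U : Ultrafilter I) (M : I → Pk p) :
    ∃ (N : Pk p) (mk : (∀ i, (M i).Om) → N.Om), IsUp U M N mk := by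
  classical
  refine ⟨upPk U M, fun x => umk U M x, ?_⟩
  exact {
    one := map_one (umk U M)
    add := fun x y => map_add (umk U M) x y
    mul := fun x y => map_mul (umk U M) x y
    eq := fun x y => umk_eq U M x y
    memO := fun x => mem_upO U M x
    t := rfl
    memK := fun x => up_memK U M x
    surj := by
      intro y hy
      obtain ⟨x0, hx0⟩ := umk_surj U M y
      have h1 := (up_memK U M x0).1 (by rw [hx0]; exact hy)
      refine ⟨fun i => if x0 i ∈ (M i).K then x0 i else 0, fun i => ?_, ?_⟩
      · dsimp only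
        split_ifs with h
        · exact h
        · exact (M i).K.zero_mem
      · rw [← hx0]
        refine (umk_eq U M _ _).2 ?_
        filter_upwards [h1] with i hi
        simp [hi]
    los := fun φ e he => up_los U M φ e he }

/-- The diagonal embedding in an ultraproduct of elementary extensions is elementary. -/
theorem IsUp.eext {I : Type} {U : Ultrafilter I} {M : I → Pk p} {N : Pk p}
    {mk : (∀ i, (M i).Om) → N.Om} (h : IsUp U M N mk) {M0 : Pk p} (j : ∀ i, M0.Om → (M i).Om)
    (hj : ∀ i, EExt M0 (M i) (j i)) : EExt M0 N (fun x => mk (fun i => j i x)) where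
  rng := by
    intro x hx
    exact (h.memK _).2 (Filter.Eventually.of_forall fun i => (hj i).rng x hx)
  el := by
    intro φ e he
    rw [h.los φ (fun n i => j i (e n)) (fun n i => (hj i).rng _ (he n))]
    constructor
    · intro h1
      exact Filter.Eventually.of_forall fun i => ((hj i).el φ e he).1 h1
    · intro h1
      obtain ⟨i, hi⟩ := h1.exists
      exact ((hj i).el φ e he).2 hi

end Pool.Agent.H92.Tilt
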